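import Pool.Agent.TBL.Stmts

/-!
# Module AMF of squad TBL: averages over the cells of a grid
-/

set_option autoImplicit false

open MeasureTheory Filter Topology
open scoped ContDiff

namespace Pool.Agent.TBL

open Pool.Agent.TBG

namespace AMF_

lemma cell01 (ℓ : ℝ) (m : ℕ) (x y : E) : cell ℓ m x y = 0 ∨ cell ℓ m x y = 1 := by
  unfold cell
  split_ifs
  · exact Or.inr rfl
  · exact Or.inl rfl

variable (ℓ : ℝ) (m : ℕ)

/-- a function of two particles from a function of one -/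
lemma bm_fst (hBMC : Stmt_BMC) (f : E → ℝ) (hf : BM f) : BM (fun p : E × E => f p.1) :=
  hBMC.2.2.2.1 E (E × E) f Prod.fst hf measurable_fst

lemma bm_snd (hBMC : Stmt_BMC) (f : E → ℝ) (hf : BM f) : BM (fun p : E × E => f p.2) :=
  hBMC.2.2.2.1 E (E × E) f Prod.snd hf measurable_snd

/-- Fubini -/
lemma swap (hBMC : Stmt_BMC) (hMES : Stmt_MES) (hℓ : 0 < ℓ) (F : E → E → ℝ) (hF : BM2 F) :
    ∫ x, ∫ y, F x y ∂(nuc ℓ) ∂(nuc ℓ) = ∫ y, ∫ x, F x y ∂(nuc ℓ) ∂(nuc ℓ) := by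
  have : IsProbabilityMeasure (nuc ℓ) := (hMES ℓ hℓ).2.2.2.1
  refine integral_integral_swap ?_
  exact (hBMC.1 (E × E) (fun p => F p.1 p.2) (fun p => F p.1 p.2) hF hF).2.2.2.2.2.2 _

lemma bm_mul (hBMC : Stmt_BMC) {α : Type} [MeasurableSpace α] {F G : α → ℝ} (hF : BM F) (hG : BM G) :
    BM (fun X => F X * G X) := (hBMC.1 α F G hF hG).2.2.1

lemma bm_int (hBMC : Stmt_BMC) {α : Type} [MeasurableSpace α] {F : α → ℝ} (hF : BM F) (μ : Measure α)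
    [IsFiniteMeasure μ] : Integrable F μ := (hBMC.1 α F F hF hF).2.2.2.2.2.2 μ

lemma isub {α : Type} [MeasurableSpace α] {F G : α → ℝ} {μ : Measure α} (hF : Integrable F μ)
    (hG : Integrable G μ) : Integrable (fun x => F x - 2 * G x) μ := hF.sub (hG.const_mul 2)

lemma bm_inner (hBMC : Stmt_BMC) (hMES : Stmt_MES) (hℓ : 0 < ℓ) (F : E → E → ℝ) (hF : BM2 F) :
    BM (fun x => ∫ y, F x y ∂(nuc ℓ)) := by
  have : IsProbabilityMeasure (nuc ℓ) := (hMES ℓ hℓ).2.2.2.1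
  exact hBMC.2.2.2.2 E E (nuc ℓ) (fun p => F p.1 p.2) hF

lemma am_bm (hBMC : Stmt_BMC) (hMES : Stmt_MES) (hCEL : Stmt_CEL) (hℓ : 0 < ℓ) (hm : 0 < m) (f : E → ℝ)
    (hf : BM f) : BM (Am ℓ m f) := by
  have h1 : BM2 (fun x y => cell ℓ m x y * f y) := bm_mul hBMC (hCEL ℓ m hℓ hm).1 (bm_snd hBMC f hf)
  have h2 := bm_inner ℓ hBMC hMES hℓ _ h1
  exact (hBMC.1 E _ _ h2 h2).2.2.2.2.2.1 ((m : ℝ) ^ 3)

/-- the averages are constant on cells -/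
lemma am_const (hCEL : Stmt_CEL) (hℓ : 0 < ℓ) (hm : 0 < m) (f : E → ℝ) (x y : E) (h : cell ℓ m x y = 1) :
    Am ℓ m f x = Am ℓ m f y := by
  unfold Am
  have h2 : ∀ z, cell ℓ m x z = cell ℓ m y z := fun z => (hCEL ℓ m hℓ hm).2.2.2.1 x y z h
  simp only [h2]

/-- functions constant on cells are moved through `cell` -/
lemma cell_mul (F : E → ℝ) (hF : ∀ x y, cell ℓ m x y = 1 → F x = F y) (x y : E) :
    cell ℓ m x y * F y = cell ℓ m x y * F x := by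
  rcases cell01 ℓ m x y with h | h
  · rw [h]; ring
  · rw [hF x y h]

/-- the marginals of `m³ cell` -/
lemma marg (_hMES : Stmt_MES) (hCEL : Stmt_CEL) (hℓ : 0 < ℓ) (hm : 0 < m) (F : E → ℝ) :
    (m : ℝ) ^ 3 * ∫ x, ∫ y, cell ℓ m x y * F x ∂(nuc ℓ) ∂(nuc ℓ) = ∫ x, F x ∂(nuc ℓ) := by
  rw [← integral_const_mul]
  refine integral_congr_ae ?_
  filter_upwards [(hCEL ℓ m hℓ hm).2.2.2.2.2.1] with x hx
  rw [integral_mul_const, ← mul_assoc, hx, one_mul]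

lemma marg2 (hBMC : Stmt_BMC) (hMES : Stmt_MES) (hCEL : Stmt_CEL) (hℓ : 0 < ℓ) (hm : 0 < m) (F : E → ℝ)
    (hF : BM F) :
    (m : ℝ) ^ 3 * ∫ x, ∫ y, cell ℓ m x y * F y ∂(nuc ℓ) ∂(nuc ℓ) = ∫ x, F x ∂(nuc ℓ) := by
  rw [swap ℓ hBMC hMES hℓ (fun x y => cell ℓ m x y * F y)
    (bm_mul hBMC (hCEL ℓ m hℓ hm).1 (bm_snd hBMC F hF))]
  rw [← marg ℓ m hMES hCEL hℓ hm F]
  congr 1
  refine integral_congr_ae (Eventually.of_forall fun y => ?_)
  refine integral_congr_ae (Eventually.of_forall fun x => ?_)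
  show cell ℓ m x y * F y = cell ℓ m y x * F y
  rw [(hCEL ℓ m hℓ hm).2.2.1]

/-- `∫ F A f = ∫ F f` for `F` constant on cells -/
lemma move (hBMC : Stmt_BMC) (hMES : Stmt_MES) (hCEL : Stmt_CEL) (hℓ : 0 < ℓ) (hm : 0 < m) (f F : E → ℝ)
    (hf : BM f) (hF : BM F) (hFc : ∀ x y, cell ℓ m x y = 1 → F x = F y) :
    ∫ x, F x * Am ℓ m f x ∂(nuc ℓ) = ∫ x, F x * f x ∂(nuc ℓ) := by
  rw [← marg2 ℓ m hBMC hMES hCEL hℓ hm (fun y => F y * f y) (bm_mul hBMC hF hf)]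
  rw [← integral_const_mul]
  refine integral_congr_ae (Eventually.of_forall fun x => ?_)
  show F x * ((m : ℝ) ^ 3 * ∫ y, cell ℓ m x y * f y ∂(nuc ℓ)) =
    (m : ℝ) ^ 3 * ∫ y, cell ℓ m x y * (F y * f y) ∂(nuc ℓ)
  have h1 : ∀ y, cell ℓ m x y * (F y * f y) = F x * (cell ℓ m x y * f y) := by
    intro y
    have := cell_mul ℓ m F hFc x y
    calc cell ℓ m x y * (F y * f y) = (cell ℓ m x y * F y) * f y := by ring
      _ = _ := by rw [this]; ring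
  simp only [h1]
  rw [integral_const_mul]
  ring

end AMF_

theorem amf_proof (hBMC : Stmt_BMC) (hMES : Stmt_MES) (hCEL : Stmt_CEL) : Stmt_AMF := by
  intro ℓ m f hℓ hm hf
  have hprob : IsProbabilityMeasure (nuc ℓ) := (hMES ℓ hℓ).2.2.2.1
  have hA : BM (Am ℓ m f) := AMF_.am_bm ℓ m hBMC hMES hCEL hℓ hm f hf
  have hc := (hCEL ℓ m hℓ hm)
  have hf2 : BM (fun x => f x ^ 2) := (hBMC.1 _ f f hf hf).2.2.2.1
  have hA2 : BM (fun x => Am ℓ m f x ^ 2) := (hBMC.1 _ _ _ hA hA).2.2.2.1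
  have hconst := AMF_.am_const ℓ m hCEL hℓ hm f
  have hsq : ∫ x, Am ℓ m f x ^ 2 ∂(nuc ℓ) = ∫ x, Am ℓ m f x * f x ∂(nuc ℓ) := by
    rw [← AMF_.move ℓ m hBMC hMES hCEL hℓ hm f (Am ℓ m f) hf hA hconst]
    simp only [sq]
  have hAf : BM (fun x => Am ℓ m f x * f x) := AMF_.bm_mul hBMC hA hf
  have hlhs : ∫ x, (f x - Am ℓ m f x) ^ 2 ∂(nuc ℓ) =
      ∫ x, f x ^ 2 ∂(nuc ℓ) - ∫ x, Am ℓ m f x * f x ∂(nuc ℓ) := by
    have e1 : ∀ x, (f x - Am ℓ m f x) ^ 2 = (f x ^ 2 - 2 * (Am ℓ m f x * f x)) + Am ℓ m f x ^ 2 := by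
      intro x; ring
    simp only [e1]
    rw [integral_add (AMF_.isub (AMF_.bm_int hBMC hf2 _) (AMF_.bm_int hBMC hAf _))
      (AMF_.bm_int hBMC hA2 _), integral_sub (AMF_.bm_int hBMC hf2 _)
      ((AMF_.bm_int hBMC hAf _).const_mul 2), integral_const_mul, hsq]
    ring
  refine ⟨hA, ?_, ?_, ?_, ?_⟩
  · rw [hlhs]
    have hP1 : BM2 (fun x y => cell ℓ m x y * f x ^ 2) := AMF_.bm_mul hBMC hc.1 (AMF_.bm_fst hBMC _ hf2)
    have hP2 : BM2 (fun x y => cell ℓ m x y * f y ^ 2) := AMF_.bm_mul hBMC hc.1 (AMF_.bm_snd hBMC _ hf2)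
    have hP3 : BM2 (fun x y => cell ℓ m x y * f y) := AMF_.bm_mul hBMC hc.1 (AMF_.bm_snd hBMC _ hf)
    have hP4 : BM2 (fun x y => f x * (cell ℓ m x y * f y)) := AMF_.bm_mul hBMC (AMF_.bm_fst hBMC _ hf) hP3
    have hin : ∀ (F : E → E → ℝ), BM2 F → ∀ x, Integrable (fun y => F x y) (nuc ℓ) := by
      intro F hF x
      exact AMF_.bm_int hBMC (hBMC.2.2.2.1 (E × E) E (fun p => F p.1 p.2) (fun y => (x, y)) hF
        (measurable_const.prodMk measurable_id)) _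
    have hout : ∀ (F : E → E → ℝ), BM2 F → Integrable (fun x => ∫ y, F x y ∂(nuc ℓ)) (nuc ℓ) := by
      intro F hF
      exact AMF_.bm_int hBMC (AMF_.bm_inner ℓ hBMC hMES hℓ F hF) _
    have e1 : ∀ x, ∫ y, cell ℓ m x y * (f x - f y) ^ 2 ∂(nuc ℓ) =
        (∫ y, cell ℓ m x y * f x ^ 2 ∂(nuc ℓ) - 2 * ∫ y, f x * (cell ℓ m x y * f y) ∂(nuc ℓ)) +
          ∫ y, cell ℓ m x y * f y ^ 2 ∂(nuc ℓ) := by
      intro x
      rw [← integral_const_mul, ← integral_sub (hin _ hP1 x) ((hin _ hP4 x).const_mul 2),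
        ← integral_add (AMF_.isub (hin _ hP1 x) (hin _ hP4 x)) (hin _ hP2 x)]
      refine integral_congr_ae (Eventually.of_forall fun y => ?_)
      show cell ℓ m x y * (f x - f y) ^ 2 = (cell ℓ m x y * f x ^ 2 - 2 * (f x * (cell ℓ m x y * f y))) +
        cell ℓ m x y * f y ^ 2
      ring
    simp only [e1]
    rw [integral_add (AMF_.isub (hout _ hP1) (hout _ hP4)) (hout _ hP2),
      integral_sub (hout _ hP1) ((hout _ hP4).const_mul 2), integral_const_mul]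
    have i1 := AMF_.marg ℓ m hMES hCEL hℓ hm (fun x => f x ^ 2)
    have i2 := AMF_.marg2 ℓ m hBMC hMES hCEL hℓ hm (fun x => f x ^ 2) hf2
    have i3 : (m : ℝ) ^ 3 * ∫ x, ∫ y, f x * (cell ℓ m x y * f y) ∂(nuc ℓ) ∂(nuc ℓ) =
        ∫ x, Am ℓ m f x * f x ∂(nuc ℓ) := by
      rw [← integral_const_mul]
      refine integral_congr_ae (Eventually.of_forall fun x => ?_)
      show (m : ℝ) ^ 3 * ∫ y, f x * (cell ℓ m x y * f y) ∂(nuc ℓ) =
        ((m : ℝ) ^ 3 * ∫ y, cell ℓ m x y * f y ∂(nuc ℓ)) * f x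
      rw [integral_const_mul]
      ring
    linear_combination (-1 / 2 : ℝ) * i1 - (1 / 2 : ℝ) * i2 + i3
  · intro m' hm' hdvd
    have hc' := hCEL ℓ m' hℓ hm'
    filter_upwards [hc'.2.2.2.2.2.1] with x hx
    have hi1 : Integrable (fun y => cell ℓ m' x y * f y) (nuc ℓ) :=
      AMF_.bm_int hBMC (hBMC.2.2.2.1 (E × E) E (fun p => cell ℓ m' p.1 p.2 * f p.2) (fun y => (x, y))
        (AMF_.bm_mul hBMC hc'.1 (AMF_.bm_snd hBMC _ hf)) (measurable_const.prodMk measurable_id)) _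
    have hi2 : Integrable (fun y => cell ℓ m' x y * Am ℓ m f y) (nuc ℓ) :=
      AMF_.bm_int hBMC (hBMC.2.2.2.1 (E × E) E (fun p => cell ℓ m' p.1 p.2 * Am ℓ m f p.2) (fun y => (x, y))
        (AMF_.bm_mul hBMC hc'.1 (AMF_.bm_snd hBMC _ hA)) (measurable_const.prodMk measurable_id)) _
    have e2 : ∀ y, cell ℓ m' x y * Am ℓ m f y = cell ℓ m' x y * Am ℓ m f x := by
      intro y
      refine AMF_.cell_mul ℓ m' (Am ℓ m f) ?_ x y
      intro a b hab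
      exact hconst a b (hc.2.2.2.2.2.2.1 m' hm' hdvd a b hab)
    show (m' : ℝ) ^ 3 * ∫ y, cell ℓ m' x y * (f y - Am ℓ m f y) ∂(nuc ℓ) =
      (m' : ℝ) ^ 3 * (∫ y, cell ℓ m' x y * f y ∂(nuc ℓ)) - Am ℓ m f x
    simp only [mul_sub]
    rw [integral_sub hi1 hi2]
    simp only [e2]
    rw [integral_mul_const, mul_sub]
    linear_combination (-(Am ℓ m f x)) * hx
  · intro h B hh h0 hB
    have hB0 : 0 ≤ B := by
      refine le_trans ?_ (hB 0)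
      refine mul_nonneg (by positivity) (integral_nonneg fun y => mul_nonneg (hc.2.1 _ _) (h0 _))
    have step1 : ∫ x, h x * (Am ℓ m f x) ^ 2 ∂(nuc ℓ) =
        ∫ x, ∫ y, (m : ℝ) ^ 3 * (cell ℓ m x y * (h x * Am ℓ m f y ^ 2)) ∂(nuc ℓ) ∂(nuc ℓ) := by
      refine integral_congr_ae ?_
      filter_upwards [hc.2.2.2.2.2.1] with x hx
      have e3 : ∀ y, (m : ℝ) ^ 3 * (cell ℓ m x y * (h x * Am ℓ m f y ^ 2)) =
          ((m : ℝ) ^ 3 * cell ℓ m x y) * (h x * Am ℓ m f x ^ 2) := by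
        intro y
        have := AMF_.cell_mul ℓ m (fun y => Am ℓ m f y ^ 2) (fun a b hab => by
          show Am ℓ m f a ^ 2 = Am ℓ m f b ^ 2
          rw [hconst a b hab]) x y
        calc (m : ℝ) ^ 3 * (cell ℓ m x y * (h x * Am ℓ m f y ^ 2))
            = (m : ℝ) ^ 3 * h x * (cell ℓ m x y * Am ℓ m f y ^ 2) := by ring
          _ = _ := by rw [this]; ring
      simp only [e3]
      rw [integral_mul_const, integral_const_mul, hx, one_mul]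
    have hbm : BM2 (fun x y => (m : ℝ) ^ 3 * (cell ℓ m x y * (h x * Am ℓ m f y ^ 2))) := by
      have h1 : BM (fun p : E × E => cell ℓ m p.1 p.2 * (h p.1 * Am ℓ m f p.2 ^ 2)) :=
        AMF_.bm_mul hBMC hc.1 (AMF_.bm_mul hBMC (AMF_.bm_fst hBMC _ hh) (AMF_.bm_snd hBMC _ hA2))
      exact (hBMC.1 _ _ _ h1 h1).2.2.2.2.2.1 ((m : ℝ) ^ 3)
    rw [step1, AMF_.swap ℓ hBMC hMES hℓ _ hbm]
    have step2 : ∀ y, ∫ x, (m : ℝ) ^ 3 * (cell ℓ m x y * (h x * Am ℓ m f y ^ 2)) ∂(nuc ℓ) ≤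
        B * Am ℓ m f y ^ 2 := by
      intro y
      have e4 : ∀ x, (m : ℝ) ^ 3 * (cell ℓ m x y * (h x * Am ℓ m f y ^ 2)) =
          ((m : ℝ) ^ 3 * (cell ℓ m y x * h x)) * Am ℓ m f y ^ 2 := by
        intro x
        rw [hc.2.2.1 x y]
        ring
      simp only [e4]
      rw [integral_mul_const, integral_const_mul]
      exact mul_le_mul_of_nonneg_right (hB y) (sq_nonneg _)
    have hswint : Integrable (fun y => ∫ x, (m : ℝ) ^ 3 * (cell ℓ m x y * (h x * Am ℓ m f y ^ 2)) ∂(nuc ℓ))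
        (nuc ℓ) := by
      have hb2 : BM2 (fun y x => (m : ℝ) ^ 3 * (cell ℓ m x y * (h x * Am ℓ m f y ^ 2))) :=
        hBMC.2.2.2.1 (E × E) (E × E) _ Prod.swap hbm measurable_swap
      exact AMF_.bm_int hBMC (AMF_.bm_inner ℓ hBMC hMES hℓ _ hb2) _
    have step3 : ∫ y, ∫ x, (m : ℝ) ^ 3 * (cell ℓ m x y * (h x * Am ℓ m f y ^ 2)) ∂(nuc ℓ) ∂(nuc ℓ) ≤
        B * ∫ y, Am ℓ m f y ^ 2 ∂(nuc ℓ) := by
      rw [← integral_const_mul]
      exact integral_mono hswint ((AMF_.bm_int hBMC hA2 _).const_mul B) step2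
    have step4 : ∫ y, Am ℓ m f y ^ 2 ∂(nuc ℓ) ≤ ∫ y, f y ^ 2 ∂(nuc ℓ) := by
      have h5 : 0 ≤ ∫ x, (f x - Am ℓ m f x) ^ 2 ∂(nuc ℓ) := integral_nonneg fun x => sq_nonneg _
      rw [hlhs] at h5
      rw [hsq]
      linarith
    exact step3.trans (mul_le_mul_of_nonneg_left step4 hB0)
  · intro hm1
    subst hm1
    filter_upwards [hc.2.2.2.2.2.2.2] with x hx
    show ((1 : ℕ) : ℝ) ^ 3 * ∫ y, cell ℓ 1 x y * f y ∂(nuc ℓ) = ∫ y, f y ∂(nuc ℓ)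
    rw [Nat.cast_one, one_pow, one_mul]
    refine integral_congr_ae ?_
    filter_upwards [hx] with y hy
    rw [hy, one_mul]

end Pool.Agent.TBL
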