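import Pool.Agent.TBL.Stmts

set_option autoImplicit false

open MeasureTheory Filter Topology
open scoped ContDiff

namespace Pool.Agent.TBL

open Pool.Agent.TBG

theorem atf_proof (_h1 : Stmt_BMC) (h2 : Stmt_AVA) (h3 : Stmt_AVB) (h4 : Stmt_PQF) : Stmt_ATF := by
  intro ι _ _ ℓ hℓ i j k u hu
  have bm : ∀ (l : ι) (F : (ι → E) → ℝ), BM F → BM (av ℓ l F) := fun l F hF => (h2 ι ℓ hℓ l F hF).1
  have hk := bm k u hu
  have hj := bm j _ hk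
  have hi := bm i _ hj
  have ind1 : ∀ (l : ι) (F : (ι → E) → ℝ), Ind l (av ℓ l F) := fun l => (h3 ι ℓ hℓ l).1
  have ind2 : ∀ (l l' : ι) (F : (ι → E) → ℝ), Ind l' F → Ind l' (av ℓ l F) :=
    fun l l' F hF => (h3 ι ℓ hℓ l).2.1 l' F hF
  have idem : ∀ (l : ι) (F : (ι → E) → ℝ), Ind l F → av ℓ l F = F :=
    fun l => (h3 ι ℓ hℓ l).2.2.2.1
  have comm : ∀ (l l' : ι) (F : (ι → E) → ℝ), BM F → av ℓ l (av ℓ l' F) = av ℓ l' (av ℓ l F) :=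
    fun l l' F hF => (h2 ι ℓ hℓ l F hF).2.2.2.1 l'
  have sa : ∀ (l : ι) (F G : (ι → E) → ℝ), BM F → BM G →
      ∫ X, av ℓ l F X * G X ∂(PiM ι ℓ) = ∫ X, F X * av ℓ l G X ∂(PiM ι ℓ) :=
    fun l F G hF hG => (h4 ι ℓ hℓ l F G hF hG).2.2.1
  have nsav : ∀ (l : ι) (F : (ι → E) → ℝ), BM F → ns ℓ (av ℓ l F) ≤ ns ℓ F :=
    fun l F hF => (h4 ι ℓ hℓ l F F hF hF).2.2.2.2.2.1
  have nsq : ∀ (l l' : ι) (F : (ι → E) → ℝ), BM F → ns ℓ (Qa ℓ l' (av ℓ l F)) ≤ ns ℓ (Qa ℓ l' F) :=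
    fun l l' F hF => (h4 ι ℓ hℓ l F F hF hF).2.2.2.2.2.2.2.2.2.1 l'
  have Ii : Ind i (A3 ℓ i j k u) := ind1 i _
  have Ij : Ind j (A3 ℓ i j k u) := ind2 i j _ (ind1 j _)
  have Ik : Ind k (A3 ℓ i j k u) := ind2 i k _ (ind2 j k _ (ind1 k _))
  refine ⟨hi, Ii, Ij, Ik, comm i j _ hk, ?_, ?_, ?_, ?_⟩
  · unfold A3
    rw [comm j k u hu]
  · exact (nsav i _ hj).trans ((nsav j _ hk).trans (nsav k u hu))
  · intro l
    exact (nsq i l _ hj).trans ((nsq j l _ hk).trans (nsq k l u hu))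
  · have hA : BM (A3 ℓ i j k u) := hi
    have e1 := sa k u _ hu hA
    have e2 := sa j _ _ hk hA
    have e3 := sa i _ _ hj hA
    rw [idem k _ Ik] at e1
    rw [idem j _ Ij] at e2
    rw [idem i _ Ii] at e3
    unfold ns
    rw [← e1, ← e2, ← e3]
    refine integral_congr_ae (Filter.Eventually.of_forall fun X => ?_)
    change A3 ℓ i j k u X * A3 ℓ i j k u X = A3 ℓ i j k u X ^ 2
    ring

end Pool.Agent.TBL
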