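import Pool.Agent.TBL.Stmts

/-!
# Squad TBL (MP_80dc41_mp), module AVA: averages over one particle, 1
-/

set_option autoImplicit false

open MeasureTheory Filter Topology

namespace Pool.Agent.TBL

open Pool.Agent.TBG

namespace AVA_

variable {ι : Type} [Fintype ι] [DecidableEq ι]

theorem meas_update (l : ι) :
    Measurable (fun q : (ι → E) × E => Function.update q.1 l q.2) := by
  refine measurable_pi_lambda _ (fun i => ?_)
  by_cases h : i = l
  · subst h
    simp only [Function.update_self]
    exact measurable_snd
  · simp only [Function.update_of_ne h]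
    exact (measurable_pi_apply i).comp measurable_fst

/-- replacing the coordinate `l` by an independent copy preserves the product measure -/
theorem mp (μ : Measure E) [IsProbabilityMeasure μ] (l : ι) :
    MeasurePreserving (fun q : (ι → E) × E => Function.update q.1 l q.2)
      ((Measure.pi (fun _ => μ)).prod μ) (Measure.pi (fun _ => μ)) := by
  have hmeas := meas_update (ι := ι) l
  refine ⟨hmeas, ?_⟩
  symm
  refine Measure.pi_eq (fun s hs => ?_)
  rw [Measure.map_apply hmeas (MeasurableSet.univ_pi hs)]
  have hset : (fun q : (ι → E) × E => Function.update q.1 l q.2) ⁻¹' (Set.univ.pi s) =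
      (Set.univ.pi (Function.update s l Set.univ)) ×ˢ (s l) := by
    ext ⟨X, y⟩
    simp only [Set.mem_preimage, Set.mem_pi, Set.mem_univ, true_implies, Set.mem_prod]
    constructor
    · intro h
      refine ⟨fun i => ?_, ?_⟩
      · by_cases hi : i = l
        · subst hi
          simp
        · have := h i
          rw [Function.update_of_ne hi] at this
          rw [Function.update_of_ne hi]
          exact this
      · have := h l
        rwa [Function.update_self] at this
    · rintro ⟨h1, h2⟩ i
      by_cases hi : i = l
      · subst hi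
        rw [Function.update_self]
        exact h2
      · have := h1 i
        rw [Function.update_of_ne hi] at this
        rw [Function.update_of_ne hi]
        exact this
  rw [hset, Measure.prod_prod, Measure.pi_pi]
  rw [← Finset.mul_prod_erase Finset.univ (fun i => μ (Function.update s l Set.univ i)) (Finset.mem_univ l),
    ← Finset.mul_prod_erase Finset.univ (fun i => μ (s i)) (Finset.mem_univ l)]
  rw [Function.update_self, measure_univ, one_mul, mul_comm]
  congr 1
  refine Finset.prod_congr rfl (fun i hi => ?_)
  rw [Function.update_of_ne (Finset.ne_of_mem_erase hi)]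

end AVA_

open AVA_ in
theorem ava_proof (hBMC : Stmt_BMC) (hMES : Stmt_MES) (hMEP : Stmt_MEP) : Stmt_AVA := by
  intro ι _ _ ℓ hℓ i F hF
  obtain ⟨b1, b2, b3, b4, b5⟩ := hBMC
  have m4 : IsProbabilityMeasure (nuc ℓ) := (hMES ℓ hℓ).2.2.2.1
  have p1 : IsProbabilityMeasure (PiM ι ℓ) := (hMEP ι ℓ hℓ).1
  have hc : BM (fun p : (ι → E) × E => F (Function.update p.1 i p.2)) :=
    b4 _ _ F _ hF (meas_update i)
  refine ⟨?_, ?_, hc, ?_, ?_⟩
  · exact b5 _ _ (nuc ℓ) _ hc
  · have h1 := mp (nuc ℓ) i
    have h2 : ∫ X, F X ∂(PiM ι ℓ) =
        ∫ q : (ι → E) × E, F (Function.update q.1 i q.2) ∂((PiM ι ℓ).prod (nuc ℓ)) := by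
      unfold PiM
      rw [← h1.map_eq, integral_map h1.measurable.aemeasurable]
      · rw [h1.map_eq]
      · exact hF.1.aestronglyMeasurable
    rw [h2, integral_prod _ ((b1 _ _ _ hc hc).2.2.2.2.2.2 _)]
    rfl
  · intro j
    by_cases hij : i = j
    · rw [hij]
    funext X
    show ∫ y, ∫ z, F (Function.update (Function.update X i y) j z) ∂(nuc ℓ) ∂(nuc ℓ) =
      ∫ z, ∫ y, F (Function.update (Function.update X j z) i y) ∂(nuc ℓ) ∂(nuc ℓ)
    have h3 : BM (fun p : E × E => F (Function.update (Function.update X i p.1) j p.2)) := by
      refine b4 _ _ F (fun p : E × E => Function.update (Function.update X i p.1) j p.2) hF ?_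
      refine (meas_update j).comp (f := fun p : E × E => (Function.update X i p.1, p.2)) ?_
      refine Measurable.prodMk ?_ measurable_snd
      exact (meas_update i).comp (f := fun p : E × E => (X, p.1)) (measurable_const.prodMk measurable_fst)
    rw [integral_integral_swap ((b1 _ _ _ h3 h3).2.2.2.2.2.2 _)]
    simp only [Function.update_comm hij]
  · intro C hC X
    have h2 := norm_integral_le_of_norm_le_const (μ := nuc ℓ)
      (f := fun y => F (Function.update X i y)) (C := C)
      (Eventually.of_forall fun y => by rw [Real.norm_eq_abs]; exact hC _)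
    rw [Real.norm_eq_abs] at h2
    unfold av
    simpa using h2

end Pool.Agent.TBL
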