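import Pool.Agent.TBL.Stmts

/-!
# Three-body Bose gases, lower bound: module AVB (averages, 2)
-/

set_option autoImplicit false

open MeasureTheory Filter Topology
open scoped ContDiff

namespace Pool.Agent.TBL

open Pool.Agent.TBG

namespace AVB_

/-- Cauchy-Schwarz -/
theorem cs {α : Type} [MeasurableSpace α] (μ : Measure α) (f g : α → ℝ)
    (hf : Integrable (fun x => f x ^ 2) μ) (hg : Integrable (fun x => g x ^ 2) μ)
    (hfg : Integrable (fun x => f x * g x) μ) :
    (∫ x, f x * g x ∂μ) ^ 2 ≤ (∫ x, f x ^ 2 ∂μ) * ∫ x, g x ^ 2 ∂μ := by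
  have h : ∀ t : ℝ, 0 ≤ (∫ x, f x ^ 2 ∂μ) * (t * t) + (2 * ∫ x, f x * g x ∂μ) * t +
      ∫ x, g x ^ 2 ∂μ := by
    intro t
    have h1 : ∫ x, (f x * t + g x) ^ 2 ∂μ = (∫ x, f x ^ 2 ∂μ) * (t * t) +
        (2 * ∫ x, f x * g x ∂μ) * t + ∫ x, g x ^ 2 ∂μ := by
      have h2 : (fun x => (f x * t + g x) ^ 2) = fun x => (f x ^ 2 * (t * t) +
          (f x * g x) * (2 * t)) + g x ^ 2 := by
        funext x
        ring
      have i1 : Integrable (fun x => f x ^ 2 * (t * t)) μ := hf.mul_const _
      have i2 : Integrable (fun x => f x * g x * (2 * t)) μ := hfg.mul_const _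
      have i3 : Integrable (fun x => f x ^ 2 * (t * t) + f x * g x * (2 * t)) μ := i1.add i2
      rw [h2, integral_add i3 hg, integral_add i1 i2, integral_mul_const, integral_mul_const]
      ring
    rw [← h1]
    exact integral_nonneg fun x => sq_nonneg _
  have h3 := discrim_le_zero h
  rw [discrim] at h3
  nlinarith

end AVB_

open AVB_ in
theorem avb_proof (hBMC : Stmt_BMC) (hMES : Stmt_MES) (_hAVA : Stmt_AVA) : Stmt_AVB := by
  intro ι _ _ ℓ hℓ i
  obtain ⟨hB1, -, -, hB4, -⟩ := hBMC
  have hp : IsProbabilityMeasure (nuc ℓ) := (hMES ℓ hℓ).2.2.2.1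
  have hBM : ∀ (F : (ι → E) → ℝ) (X : ι → E), BM F → BM (fun y => F (Function.update X i y)) :=
    fun F X hF => hB4 _ _ F (fun y => Function.update X i y) hF (measurable_update X)
  have hint : ∀ (F : (ι → E) → ℝ) (X : ι → E), BM F →
      Integrable (fun y => F (Function.update X i y)) (nuc ℓ) :=
    fun F X hF => (hB1 _ _ _ (hBM F X hF) (hBM F X hF)).2.2.2.2.2.2 (nuc ℓ)
  have h1 : ∀ F : (ι → E) → ℝ, Ind i (av ℓ i F) := by
    intro F X y
    simp only [av, Function.update_idem]
  refine ⟨h1, ?_, ?_, ?_, ?_, ?_, ?_, ?_, ?_⟩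
  · intro j F hF
    by_cases hij : j = i
    · rw [hij]
      exact h1 F
    · intro X y
      simp only [av]
      apply integral_congr_ae
      filter_upwards with y'
      rw [Function.update_comm hij]
      exact hF _ _
  · intro F G hG
    funext X
    simp only [av]
    rw [← integral_const_mul]
    apply integral_congr_ae
    filter_upwards with y
    rw [hG]
  · intro F hF
    funext X
    simp only [av]
    have h2 : (fun y => F (Function.update X i y)) = fun _ => F X := by
      funext y
      exact hF X y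
    rw [h2, integral_const, probReal_univ, one_smul]
  · intro F G hF hG
    funext X
    exact integral_add (hint F X hF) (hint G X hG)
  · intro F G hF hG
    funext X
    exact integral_sub (hint F X hF) (hint G X hG)
  · intro F a
    funext X
    exact integral_const_mul _ _
  · intro F G hF hG hFG X
    exact integral_mono (hint F X hF) (hint G X hG) fun y => hFG _
  · intro F G hF hG X
    have hF2 := (hB1 _ F F hF hF).2.2.2.1
    have hG2 := (hB1 _ G G hG hG).2.2.2.1
    have hFG := (hB1 _ F G hF hG).2.2.1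
    exact cs (nuc ℓ) _ _ (hint _ X hF2) (hint _ X hG2) (hint _ X hFG)

end Pool.Agent.TBL
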