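import Pool.Agent.TBL.Stmts

/-! # BDI: the weight of the boundary and integrals of functions of `QT` -/

set_option autoImplicit false

open MeasureTheory Filter Topology

namespace Pool.Agent.TBL

open Pool.Agent.TBG

namespace BDI_

/-- the preimage of the cube -/
theorem preim (l : ℝ) : (MeasurableEquiv.toLp 2 (Fin 3 → ℝ)) ⁻¹' (Lam l)
    = Set.pi Set.univ (fun _ : Fin 3 => Set.Icc 0 l) := by
  ext x
  constructor
  · intro h c _
    exact h c
  · intro h c
    exact h c (Set.mem_univ c)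

/-- one coordinate of the cube -/
theorem marg {l : ℝ} (hl : 0 < l) (f : ℝ → ℝ) (c : Fin 3) :
    ∫ x in Lam l, f (x c) = l ^ 2 * ∫ t in (0 : ℝ)..l, f t := by
  have hp := (EuclideanSpace.volume_preserving_symm_measurableEquiv_toLp (Fin 3)).symm
  have h1 := hp.setIntegral_preimage_emb (MeasurableEquiv.measurableEmbedding _)
    (fun x : E => f (x c)) (Lam l)
  rw [← h1]
  have h2 : (MeasurableEquiv.toLp 2 (Fin 3 → ℝ)).symm.symm ⁻¹' (Lam l)
    = Set.pi Set.univ (fun _ : Fin 3 => Set.Icc 0 l) := preim l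
  rw [h2]
  have h3 : ∫ y in Set.pi Set.univ (fun _ : Fin 3 => Set.Icc 0 l), f (y c) =
      ∫ y : Fin 3 → ℝ, ∏ i, (Set.indicator (Set.Icc 0 l) (fun t => if i = c then f t else 1)) (y i) := by
    rw [← integral_indicator (MeasurableSet.univ_pi (fun _ => measurableSet_Icc))]
    apply integral_congr_ae
    refine Eventually.of_forall (fun y => ?_)
    by_cases hy : y ∈ Set.pi Set.univ (fun _ : Fin 3 => Set.Icc (0 : ℝ) l)
    · simp only [Set.indicator_of_mem hy]
      have h4 : ∀ i, (Set.indicator (Set.Icc 0 l) (fun t => if i = c then f t else 1)) (y i)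
          = if i = c then f (y i) else 1 := by
        intro i
        rw [Set.indicator_of_mem (hy i (Set.mem_univ i))]
      simp only [h4]
      rw [Finset.prod_ite_eq' Finset.univ c (fun i => f (y i))]
      simp
    · simp only [Set.indicator_of_notMem hy]
      have h5 : ∃ i, y i ∉ Set.Icc (0 : ℝ) l := by
        by_contra hcon
        push Not at hcon
        exact hy (fun i _ => hcon i)
      obtain ⟨i, hi⟩ := h5
      symm
      apply Finset.prod_eq_zero (Finset.mem_univ i)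
      rw [Set.indicator_of_notMem hi]
  have h6 : ∫ y in Set.pi Set.univ (fun _ : Fin 3 => Set.Icc 0 l),
      f ((MeasurableEquiv.toLp 2 (Fin 3 → ℝ)).symm.symm y c) = 
      ∫ y in Set.pi Set.univ (fun _ : Fin 3 => Set.Icc 0 l), f (y c) := rfl
  rw [h6, h3, volume_pi, integral_fintype_prod_eq_prod]
  have h7 : ∀ i : Fin 3, ∫ t, (Set.indicator (Set.Icc 0 l) (fun t => if i = c then f t else 1)) t
      = if i = c then ∫ t in (0 : ℝ)..l, f t else l := by
    intro i
    rw [integral_indicator measurableSet_Icc, intervalIntegral.integral_of_le hl.le,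
      integral_Icc_eq_integral_Ioc]
    by_cases hi : i = c
    · simp only [hi, if_true]
    · simp only [hi, if_false]
      rw [← intervalIntegral.integral_of_le hl.le]
      simp
  simp only [h7]
  rw [← Finset.mul_prod_erase Finset.univ _ (Finset.mem_univ c)]
  rw [if_pos rfl]
  have h8 : ∏ x ∈ Finset.univ.erase c, (if x = c then ∫ t in (0 : ℝ)..l, f t else l) = l ^ 2 := by
    rw [Finset.prod_congr rfl (g := fun _ => l)]
    · rw [Finset.prod_const, Finset.card_erase_of_mem (Finset.mem_univ c)]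
      simp
    · intro i hi
      rw [if_neg (Finset.ne_of_mem_erase hi)]
  rw [h8, mul_comm]

/-- antiderivative -/
theorem int1 {l : ℝ} (hl : 0 < l) : ∫ t in (0 : ℝ)..l, ((1 + |t|) ^ 4)⁻¹ ≤ 1 / 3 := by
  have h1 : ∫ t in (0 : ℝ)..l, ((1 + |t|) ^ 4)⁻¹ = ∫ t in (0 : ℝ)..l, ((1 + t) ^ 4)⁻¹ := by
    apply intervalIntegral.integral_congr
    intro t ht
    rw [Set.uIcc_of_le hl.le] at ht
    simp only [abs_of_nonneg ht.1]
  rw [h1]
  have hd : ∀ t ∈ Set.uIcc (0 : ℝ) l,
      HasDerivAt (fun t : ℝ => -(1 / 3) * ((1 + t) ^ 3)⁻¹) (((1 + t) ^ 4)⁻¹) t := by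
    intro t ht
    rw [Set.uIcc_of_le hl.le] at ht
    have hpos : (0 : ℝ) < 1 + t := by linarith [ht.1]
    have h2 : HasDerivAt (fun t : ℝ => 1 + t) 1 t := (hasDerivAt_id t).const_add 1
    have h3 := ((h2.pow 3).inv (pow_ne_zero 3 hpos.ne')).const_mul (-(1 / 3 : ℝ))
    refine h3.congr_deriv ?_
    simp only [Pi.pow_apply]
    field_simp
    norm_num
  have hc : ContinuousOn (fun t : ℝ => ((1 + t) ^ 4)⁻¹) (Set.uIcc (0 : ℝ) l) := by
    intro t ht
    rw [Set.uIcc_of_le hl.le] at ht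
    have hpos : (0 : ℝ) < 1 + t := by linarith [ht.1]
    have h4 : ContinuousAt (fun t : ℝ => ((1 + t) ^ 4)⁻¹) t :=
      ContinuousAt.inv₀ (by fun_prop) (pow_ne_zero 4 hpos.ne')
    exact h4.continuousWithinAt
  rw [intervalIntegral.integral_eq_sub_of_hasDerivAt hd hc.intervalIntegrable]
  have h5 : 0 ≤ ((1 + l) ^ 3)⁻¹ := by positivity
  simp only [add_zero, one_pow, inv_one, mul_one]
  linarith

/-- the other end -/
theorem int2 {l : ℝ} (hl : 0 < l) : ∫ t in (0 : ℝ)..l, ((1 + |l - t|) ^ 4)⁻¹ ≤ 1 / 3 := by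
  have h := intervalIntegral.integral_comp_sub_left (a := 0) (b := l)
    (fun s : ℝ => ((1 + |s|) ^ 4)⁻¹) l
  rw [h, sub_self, sub_zero]
  exact int1 hl

/-- continuity -/
theorem cont1 : Continuous (fun t : ℝ => ((1 + |t|) ^ 4)⁻¹) := by
  apply Continuous.inv₀ (by fun_prop)
  intro t
  have : 0 < 1 + |t| := by positivity
  exact pow_ne_zero 4 this.ne'

/-- continuity -/
theorem cont2 (l : ℝ) : Continuous (fun t : ℝ => ((1 + |l - t|) ^ 4)⁻¹) :=
  cont1.comp (continuous_const.sub continuous_id)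

/-- each term is between zero and one -/
theorem tm (t : ℝ) : 0 ≤ ((1 + |t|) ^ 4)⁻¹ ∧ ((1 + |t|) ^ 4)⁻¹ ≤ 1 := by
  have h0 : 0 ≤ |t| := abs_nonneg t
  refine ⟨by positivity, ?_⟩
  apply inv_le_one_of_one_le₀
  exact one_le_pow₀ (by linarith)

end BDI_

open BDI_ in
theorem bdi_proof (_h1 : Stmt_BMC) (h2 : Stmt_MES) (h3 : Stmt_QTF) (h4 : Stmt_QFO) : Stmt_BDI := by
  intro l hl
  obtain ⟨hmeas, hcpt, hvol, hprob, hint, hae, hcontI, hle⟩ := h2 l hl
  obtain ⟨hQsm, -, -, hQb, -, -⟩ := h4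
  obtain ⟨hQT, -, -⟩ := h3
  have hcc : ∀ c : Fin 3, Continuous (fun x : E => x c) := fun c => by fun_prop
  have hbc : Continuous (bd l) := by
    unfold bd
    apply continuous_finsetSum
    intro c _
    exact (cont1.comp (hcc c)).add ((cont2 l).comp (hcc c))
  have hb6 : ∀ x, 0 ≤ bd l x ∧ bd l x ≤ 6 := by
    intro x
    unfold bd
    refine ⟨Finset.sum_nonneg (fun c _ => add_nonneg (tm _).1 (tm _).1), ?_⟩
    have : ∑ c : Fin 3, (((1 + |x c|) ^ 4)⁻¹ + ((1 + |l - x c|) ^ 4)⁻¹) ≤ ∑ c : Fin 3, (2 : ℝ) := by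
      apply Finset.sum_le_sum
      intro c _
      linarith [(tm (x c)).2, (tm (l - x c)).2]
    refine this.trans ?_
    norm_num
  refine ⟨⟨hbc.measurable, 6, fun x => ?_⟩, hb6, ?_, ?_⟩
  · rw [abs_of_nonneg (hb6 x).1]
    exact (hb6 x).2
  · rw [hint]
    unfold bd
    have hi1 : ∀ c : Fin 3, IntegrableOn (fun x : E => ((1 + |x c|) ^ 4)⁻¹) (Lam l) := fun c =>
      (cont1.comp (hcc c)).continuousOn.integrableOn_compact hcpt
    have hi2 : ∀ c : Fin 3, IntegrableOn (fun x : E => ((1 + |l - x c|) ^ 4)⁻¹) (Lam l) := fun c =>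
      ((cont2 l).comp (hcc c)).continuousOn.integrableOn_compact hcpt
    have hs0 : ∫ x in Lam l, ∑ c : Fin 3, (((1 + |x c|) ^ 4)⁻¹ + ((1 + |l - x c|) ^ 4)⁻¹)
        = ∑ c : Fin 3, ∫ x in Lam l, (((1 + |x c|) ^ 4)⁻¹ + ((1 + |l - x c|) ^ 4)⁻¹) :=
      integral_finsetSum _ (fun c _ => (hi1 c).add (hi2 c))
    rw [hs0]
    have hterm : ∀ c : Fin 3, ∫ x in Lam l, (((1 + |x c|) ^ 4)⁻¹ + ((1 + |l - x c|) ^ 4)⁻¹)
        ≤ l ^ 2 * (2 / 3) := by
      intro c
      rw [integral_add (hi1 c) (hi2 c), marg hl (fun t => ((1 + |t|) ^ 4)⁻¹) c,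
        marg hl (fun t => ((1 + |l - t|) ^ 4)⁻¹) c, ← mul_add]
      apply mul_le_mul_of_nonneg_left _ (by positivity)
      linarith [int1 hl, int2 hl]
    have hsum : ∑ c : Fin 3, ∫ x in Lam l, (((1 + |x c|) ^ 4)⁻¹ + ((1 + |l - x c|) ^ 4)⁻¹)
        ≤ ∑ c : Fin 3, l ^ 2 * (2 / 3) := Finset.sum_le_sum (fun c _ => hterm c)
    have h5 := mul_le_mul_of_nonneg_left hsum (by positivity : (0 : ℝ) ≤ (l ^ 3)⁻¹)
    refine h5.trans (le_of_eq ?_)
    simp only [Finset.sum_const, Finset.card_univ, Fintype.card_fin, nsmul_eq_mul]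
    field_simp
    norm_num
  · intro F hF hF0 hF1 x
    have hQ0 : ∀ z : E × E, 0 ≤ QQ z := fun z => (hQb z).1
    have hFc : Continuous (fun z : E × E => F (QQ z)) := hF.comp hQsm.continuous
    have hsupp : ∀ z : E × E, 2 < ‖z‖ → F (QQ z) = 0 := by
      intro z hz
      apply hF1
      have h6 := (hQb z).2.2
      nlinarith
    have hcs : HasCompactSupport (fun z : E × E => F (QQ z)) := by
      apply HasCompactSupport.intro (isCompact_closedBall (0 : E × E) 2)
      intro z hz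
      apply hsupp
      rw [mem_closedBall_zero_iff, not_le] at hz
      exact hz
    have hFi : Integrable (fun z : E × E => F (QQ z)) (volume.prod volume) :=
      hFc.integrable_of_hasCompactSupport hcs
    have hGi : Integrable (fun a : E => ∫ b, F (QQ (a, b))) volume := hFi.integral_prod_left
    have hG0 : ∀ a : E, 0 ≤ ∫ b, F (QQ (a, b)) := fun a =>
      integral_nonneg (fun b => hF0 _ (hQ0 _))
    have hin : ∀ y : E, 0 ≤ ∫ z, F (QT x y z) ∂(nuc l) ∧
        ∫ z, F (QT x y z) ∂(nuc l) ≤ (l ^ 3)⁻¹ * ∫ b, F (QQ (x - y, b)) := by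
      intro y
      refine ⟨integral_nonneg (fun z => hF0 _ (hQT x y z).2.1), ?_⟩
      have h7 : ∀ z, F (QT x y z) = F (QQ (x - y, x - z)) := fun z => by rw [(hQT x y z).1]
      simp only [h7]
      have hc1 : Continuous (fun b : E => F (QQ (x - y, b))) :=
        hFc.comp (continuous_const.prodMk continuous_id)
      have hcs1 : HasCompactSupport (fun b : E => F (QQ (x - y, b))) := by
        apply HasCompactSupport.intro (isCompact_closedBall (0 : E) 2)
        intro b hb
        apply hsupp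
        rw [mem_closedBall_zero_iff, not_le] at hb
        exact lt_of_lt_of_le hb (le_max_right _ _)
      have hi3 : Integrable (fun b : E => F (QQ (x - y, b))) volume :=
        hc1.integrable_of_hasCompactSupport hcs1
      have hi4 : Integrable (fun z : E => F (QQ (x - y, x - z))) volume := hi3.comp_sub_left x
      have h8 := (hle (fun z : E => F (QQ (x - y, x - z))) (fun z => hF0 _ (hQ0 _)) hi4).2
      refine h8.trans (le_of_eq ?_)
      congr 1
      exact integral_sub_left_eq_self (fun b : E => F (QQ (x - y, b))) volume x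
    have hGi2 : Integrable (fun y : E => ∫ b, F (QQ (x - y, b))) volume := hGi.comp_sub_left x
    have h9 := hle (fun y : E => ∫ b, F (QQ (x - y, b))) (fun y => hG0 _) hGi2
    have h10 : ∫ y, ∫ z, F (QT x y z) ∂(nuc l) ∂(nuc l)
        ≤ ∫ y, ((l ^ 3)⁻¹ * ∫ b, F (QQ (x - y, b))) ∂(nuc l) :=
      integral_mono_of_nonneg (Eventually.of_forall (fun y => (hin y).1)) (h9.1.const_mul _)
        (Eventually.of_forall (fun y => (hin y).2))
    refine h10.trans ?_
    rw [integral_const_mul]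
    have h11 : ∫ y : E, ∫ b, F (QQ (x - y, b)) = ∫ z : E × E, F (QQ z) := by
      rw [integral_sub_left_eq_self (fun a : E => ∫ b, F (QQ (a, b))) volume x]
      have := integral_prod (fun z : E × E => F (QQ z)) hFi
      rw [← this]
      rfl
    have h12 := mul_le_mul_of_nonneg_left h9.2 (by positivity : (0 : ℝ) ≤ (l ^ 3)⁻¹)
    refine h12.trans (le_of_eq ?_)
    rw [h11, ← mul_assoc, ← mul_inv, ← pow_add]

end Pool.Agent.TBL
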