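import Pool.Agent.TBL.Stmts

/-!
# Squad TBL (MP_80dc41_mp), module BMC: bounded measurable functions
-/

set_option autoImplicit false

open MeasureTheory Filter Topology

namespace Pool.Agent.TBL

open Pool.Agent.TBG

namespace BMC_

variable {α : Type} [MeasurableSpace α]

theorem add {F G : α → ℝ} (hF : BM F) (hG : BM G) : BM (fun X => F X + G X) := by
  obtain ⟨h1, C, hC⟩ := hF
  obtain ⟨h2, D, hD⟩ := hG
  exact ⟨h1.add h2, C + D, fun X => (abs_add_le _ _).trans (add_le_add (hC X) (hD X))⟩

theorem sub {F G : α → ℝ} (hF : BM F) (hG : BM G) : BM (fun X => F X - G X) := by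
  obtain ⟨h1, C, hC⟩ := hF
  obtain ⟨h2, D, hD⟩ := hG
  exact ⟨h1.sub h2, C + D, fun X => (abs_sub _ _).trans (add_le_add (hC X) (hD X))⟩

theorem mul {F G : α → ℝ} (hF : BM F) (hG : BM G) : BM (fun X => F X * G X) := by
  obtain ⟨h1, C, hC⟩ := hF
  obtain ⟨h2, D, hD⟩ := hG
  refine ⟨h1.mul h2, C * D, fun X => ?_⟩
  rw [abs_mul]
  exact mul_le_mul (hC X) (hD X) (abs_nonneg _) ((abs_nonneg _).trans (hC X))

theorem const (a : ℝ) : BM (fun _ : α => a) := ⟨measurable_const, |a|, fun _ => le_rfl⟩

theorem sum {J : Type} (s : Finset J) (F : J → α → ℝ) (hF : ∀ p ∈ s, BM (F p)) :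
    BM (fun X => ∑ p ∈ s, F p X) := by
  classical
  induction s using Finset.induction_on with
  | empty => simpa using const (α := α) 0
  | insert a s ha ih =>
    have h1 := ih (fun p hp => hF p (Finset.mem_insert_of_mem hp))
    have h2 := add (hF a (Finset.mem_insert_self a s)) h1
    simpa only [Finset.sum_insert ha] using h2

theorem integrable {F : α → ℝ} (hF : BM F) (μ : Measure α) [IsFiniteMeasure μ] :
    Integrable F μ := by
  obtain ⟨h1, C, hC⟩ := hF
  exact Integrable.of_bound h1.aestronglyMeasurable C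
    (Eventually.of_forall fun X => by rw [Real.norm_eq_abs]; exact hC X)

end BMC_

open BMC_ in
theorem bmc_proof : Stmt_BMC := by
  refine ⟨?_, ?_, ?_, ?_, ?_⟩
  · intro α _ F G hF hG
    refine ⟨add hF hG, sub hF hG, mul hF hG, ?_, ?_, ?_, ?_⟩
    · have := mul hF hF
      simpa only [sq] using this
    · obtain ⟨h1, C, hC⟩ := hF
      exact ⟨measurable_norm.comp h1, C, fun X => by rw [abs_abs]; exact hC X⟩
    · intro a
      exact mul (const a) hF
    · intro μ _
      exact integrable hF μ
  · intro α _ a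
    exact const a
  · intro α J _ s F hF
    exact sum s F hF
  · intro α β _ _ F f hF hf
    obtain ⟨h1, C, hC⟩ := hF
    exact ⟨h1.comp hf, C, fun X => hC (f X)⟩
  · intro α β _ _ μ _ F hF
    obtain ⟨h1, C, hC⟩ := hF
    refine ⟨(h1.stronglyMeasurable.integral_prod_right' (ν := μ)).measurable, C, fun X => ?_⟩
    have h2 := norm_integral_le_of_norm_le_const (μ := μ) (f := fun y => F (X, y)) (C := C)
      (Eventually.of_forall fun y => by rw [Real.norm_eq_abs]; exact hC (X, y))
    rw [Real.norm_eq_abs] at h2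
    simpa using h2

end Pool.Agent.TBL
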