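import Pool.Agent.TBL.Stmts

/-!
# Module BON of squad TBL: the matrix elements with one common particle
-/

set_option autoImplicit false

open MeasureTheory Filter Topology
open scoped ContDiff

namespace Pool.Agent.TBL

open Pool.Agent.TBG

namespace BON_

/-- the weight of a pair -/
noncomputable def sw (y z : E) : ℝ := Real.sqrt (((1 + ‖y - z‖) ^ 7)⁻¹)

lemma sw_nonneg (y z : E) : 0 ≤ sw y z := Real.sqrt_nonneg _

lemma sw_symm (y z : E) : sw y z = sw z y := by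
  unfold sw
  rw [norm_sub_rev]

lemma sw_meas : Measurable (fun p : E × E => sw p.1 p.2) := by
  unfold sw
  refine Measurable.sqrt (Measurable.inv ?_)
  exact ((measurable_const.add ((measurable_fst.sub measurable_snd).norm)).pow_const 7)

lemma sw_le (y z : E) : sw y z ≤ 1 := by
  unfold sw
  rw [Real.sqrt_le_one]
  apply inv_le_one_of_one_le₀
  exact one_le_pow₀ (by linarith [norm_nonneg (y - z)])

lemma sw_bm : BM (fun p : E × E => sw p.1 p.2) :=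
  ⟨sw_meas, 1, fun p => by rw [abs_of_nonneg (sw_nonneg _ _)]; exact sw_le _ _⟩

variable {ι : Type} [Fintype ι] [DecidableEq ι]

/-- two averages -/
lemma two (hBMC : Stmt_BMC) (hMES : Stmt_MES) (hMEP : Stmt_MEP) (hAVA : Stmt_AVA) (hAVB : Stmt_AVB)
    (ℓ c : ℝ) (hℓ : 0 < ℓ) (hc : 0 ≤ c) (hint : ∀ x : E, ∫ y, sw x y ∂(nuc ℓ) ≤ c)
    (j k l : ι) (hjk : j ≠ k) (hjl : j ≠ l) (hkl : k ≠ l) (A : (ι → E) → ℝ) (hA : BM A)
    (hj : Ind j A) (hk : Ind k A) :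
    ∫ X, sw (X j) (X k) * (sw (X j) (X l) * A X ^ 2) ∂(PiM ι ℓ) ≤ c ^ 2 * ns ℓ A := by
  haveI : IsProbabilityMeasure (PiM ι ℓ) := (hMEP ι ℓ hℓ).1
  have hcomp : ∀ a b : ι, BM (fun X : ι → E => sw (X a) (X b)) := fun a b =>
    hBMC.2.2.2.1 (E × E) (ι → E) (fun p => sw p.1 p.2) (fun X => (X a, X b)) sw_bm
      ((measurable_pi_apply a).prodMk (measurable_pi_apply b))
  have hA2 : BM (fun X : ι → E => A X ^ 2) := (hBMC.1 _ A A hA hA).2.2.2.1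
  set G : (ι → E) → ℝ := fun X => sw (X j) (X l) * A X ^ 2 with hG
  have hGb : BM G := (hBMC.1 _ _ _ (hcomp j l) hA2).2.2.1
  have hG0 : ∀ X, 0 ≤ G X := fun X => mul_nonneg (sw_nonneg _ _) (sq_nonneg _)
  have hGk : Ind k G := by
    intro X y
    simp only [hG]
    rw [hk X y, Function.update_of_ne hjk, Function.update_of_ne hkl.symm]
  set F : (ι → E) → ℝ := fun X => sw (X j) (X k) * G X with hF
  have hFb : BM F := (hBMC.1 _ _ _ (hcomp j k) hGb).2.2.1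
  have h1 : ∫ X, F X ∂(PiM ι ℓ) = ∫ X, av ℓ k F X ∂(PiM ι ℓ) := ((hAVA ι ℓ hℓ k F hFb).2.1).symm
  have h2 : ∀ X, av ℓ k F X ≤ c * G X := by
    intro X
    have e1 : F = fun X => G X * sw (X j) (X k) := by
      funext X; simp only [hF]; ring
    have e2 := congrFun ((hAVB ι ℓ hℓ k).2.2.1 (fun X => sw (X j) (X k)) G hGk) X
    rw [e1]
    rw [e2]
    have e3 : av ℓ k (fun X : ι → E => sw (X j) (X k)) X = ∫ y, sw (X j) y ∂(nuc ℓ) := by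
      unfold av
      simp only [Function.update_of_ne hjk, Function.update_self]
    rw [e3, mul_comm]
    exact mul_le_mul_of_nonneg_right (hint _) (hG0 X)
  have hint1 : Integrable (fun X => av ℓ k F X) (PiM ι ℓ) :=
    (hBMC.1 _ _ _ (hAVA ι ℓ hℓ k F hFb).1 hA).2.2.2.2.2.2 _
  have hint2 : Integrable G (PiM ι ℓ) := (hBMC.1 _ _ _ hGb hA).2.2.2.2.2.2 _
  have h3 : ∫ X, av ℓ k F X ∂(PiM ι ℓ) ≤ c * ∫ X, G X ∂(PiM ι ℓ) := by
    rw [← integral_const_mul]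
    exact integral_mono hint1 (hint2.const_mul c) h2
  have h4 : ∫ X, G X ∂(PiM ι ℓ) = ∫ X, av ℓ j G X ∂(PiM ι ℓ) := ((hAVA ι ℓ hℓ j G hGb).2.1).symm
  have hA2j : Ind j (fun X => A X ^ 2) := by
    intro X y
    show A _ ^ 2 = A X ^ 2
    rw [hj X y]
  have h5 : ∀ X, av ℓ j G X ≤ c * A X ^ 2 := by
    intro X
    have e1 : G = fun X => A X ^ 2 * sw (X j) (X l) := by
      funext X; simp only [hG]; ring
    have e2 := congrFun ((hAVB ι ℓ hℓ j).2.2.1 (fun X => sw (X j) (X l)) (fun X => A X ^ 2) hA2j) X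
    rw [e1]
    rw [e2]
    have e3 : av ℓ j (fun X : ι → E => sw (X j) (X l)) X = ∫ y, sw (X l) y ∂(nuc ℓ) := by
      unfold av
      simp only [Function.update_of_ne hjl.symm, Function.update_self]
      exact integral_congr_ae (Eventually.of_forall fun y => sw_symm _ _)
    rw [e3, mul_comm]
    exact mul_le_mul_of_nonneg_right (hint _) (sq_nonneg _)
  have hint3 : Integrable (fun X => av ℓ j G X) (PiM ι ℓ) :=
    (hBMC.1 _ _ _ (hAVA ι ℓ hℓ j G hGb).1 hA).2.2.2.2.2.2 _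
  have hint4 : Integrable (fun X => A X ^ 2) (PiM ι ℓ) := (hBMC.1 _ _ _ hA2 hA).2.2.2.2.2.2 _
  have h6 : ∫ X, av ℓ j G X ∂(PiM ι ℓ) ≤ c * ns ℓ A := by
    unfold ns
    rw [← integral_const_mul]
    exact integral_mono hint3 (hint4.const_mul c) h5
  calc ∫ X, F X ∂(PiM ι ℓ) = ∫ X, av ℓ k F X ∂(PiM ι ℓ) := h1
    _ ≤ c * ∫ X, G X ∂(PiM ι ℓ) := h3
    _ = c * ∫ X, av ℓ j G X ∂(PiM ι ℓ) := by rw [h4]
    _ ≤ c * (c * ns ℓ A) := mul_le_mul_of_nonneg_left h6 hc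
    _ = c ^ 2 * ns ℓ A := by ring

/-- the bound of the energy of `φ(·,y,z)` -/
lemma en (hMES : Stmt_MES) (hBMC : Stmt_BMC) (CN ℓ C b : ℝ) (hℓ : 1 ≤ ℓ) (hN : Num CN ℓ)
    (V : E → E → ℝ) (φ w q g : E → E → E → ℝ) (hK : Ker V ℓ C b φ w q g) (hC : 0 < C)
    (y z : E) (hy : y ∈ Lam ℓ) (hz : z ∈ Lam ℓ) :
    Real.sqrt (∑ c, ∫ x, (pd c (fun x => φ x y z) x) ^ 2 ∂(nuc ℓ)) ≤
      Real.sqrt (3 * C ^ 2 * CN / ℓ ^ 3) * sw y z := by
  have hℓ0 : 0 < ℓ := by linarith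
  haveI : IsProbabilityMeasure (nuc ℓ) := (hMES ℓ hℓ0).2.2.2.1
  unfold sw
  rw [← Real.sqrt_mul' _ (by positivity)]
  apply Real.sqrt_le_sqrt
  have hone : ∀ c : Fin 3, ∫ x, (pd c (fun x => φ x y z) x) ^ 2 ∂(nuc ℓ) ≤
      C ^ 2 * (CN / ℓ ^ 3 * ((1 + ‖y - z‖) ^ 7)⁻¹) := by
    intro c
    have hcont : Measurable (fun x : E => ((1 + ‖x - y‖ + ‖x - z‖) ^ 10)⁻¹) := by
      refine Measurable.inv (Measurable.pow_const ?_ 10)
      exact (measurable_const.add ((measurable_id.sub measurable_const).norm)).add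
        ((measurable_id.sub measurable_const).norm)
    have hbm : BM (fun x : E => ((1 + ‖x - y‖ + ‖x - z‖) ^ 10)⁻¹) := by
      refine ⟨hcont, 1, fun x => ?_⟩
      rw [abs_of_nonneg (by positivity)]
      apply inv_le_one_of_one_le₀
      exact one_le_pow₀ (by linarith [norm_nonneg (x - y), norm_nonneg (x - z)])
    have hint : Integrable (fun x : E => ((1 + ‖x - y‖ + ‖x - z‖) ^ 10)⁻¹) (nuc ℓ) :=
      (hBMC.1 _ _ _ hbm hbm).2.2.2.2.2.2 _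
    have hdk : BM (fun x : E => dk c φ x y z) := by
      have := hK.sk.b1 c
      exact hBMC.2.2.2.1 (E × E × E) E (fun p => dk c φ p.1 p.2.1 p.2.2) (fun x => (x, y, z)) this
        (measurable_id.prodMk measurable_const)
    have hdk2 : Integrable (fun x : E => (dk c φ x y z) ^ 2) (nuc ℓ) :=
      (hBMC.1 _ _ _ (hBMC.1 _ _ _ hdk hdk).2.2.2.1 hdk).2.2.2.2.2.2 _
    calc ∫ x, (pd c (fun x => φ x y z) x) ^ 2 ∂(nuc ℓ) = ∫ x, (dk c φ x y z) ^ 2 ∂(nuc ℓ) := rfl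
      _ ≤ ∫ x, C ^ 2 * ((1 + ‖x - y‖ + ‖x - z‖) ^ 10)⁻¹ ∂(nuc ℓ) := by
          refine integral_mono_ae hdk2 (hint.const_mul _) ?_
          filter_upwards [(hMES ℓ hℓ0).2.2.2.2.2.1] with x hx
          have h1 := hK.dec1 x hx.1 y hy z hz c
          have h2 : 0 < 1 + ‖x - y‖ + ‖x - z‖ := by positivity
          have h3 : (dk c φ x y z) ^ 2 ≤ (C / (1 + ‖x - y‖ + ‖x - z‖) ^ 5) ^ 2 :=
            sq_le_sq' (by linarith [(abs_le.1 h1).1]) (abs_le.1 h1).2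
          calc (dk c φ x y z) ^ 2 ≤ (C / (1 + ‖x - y‖ + ‖x - z‖) ^ 5) ^ 2 := h3
            _ = C ^ 2 * ((1 + ‖x - y‖ + ‖x - z‖) ^ 10)⁻¹ := by
                rw [div_pow, ← pow_mul, div_eq_mul_inv]
      _ = C ^ 2 * ∫ x, ((1 + ‖x - y‖ + ‖x - z‖) ^ 10)⁻¹ ∂(nuc ℓ) := integral_const_mul _ _
      _ ≤ C ^ 2 * (CN / ℓ ^ 3 * ((1 + ‖y - z‖) ^ 7)⁻¹) :=
          mul_le_mul_of_nonneg_left (hN.b y z) (sq_nonneg _)
  calc ∑ c, ∫ x, (pd c (fun x => φ x y z) x) ^ 2 ∂(nuc ℓ)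
      ≤ ∑ _c : Fin 3, C ^ 2 * (CN / ℓ ^ 3 * ((1 + ‖y - z‖) ^ 7)⁻¹) := Finset.sum_le_sum fun c _ => hone c
    _ = 3 * C ^ 2 * CN / ℓ ^ 3 * ((1 + ‖y - z‖) ^ 7)⁻¹ := by
        rw [Finset.sum_const, Finset.card_univ, Fintype.card_fin]; simp only [nsmul_eq_mul]; push_cast; ring

/-- the main pattern -/
lemma main (hBMC : Stmt_BMC) (hMES : Stmt_MES) (hMEP : Stmt_MEP) (hAVA : Stmt_AVA) (hAVB : Stmt_AVB)
    (hATF : Stmt_ATF) (hSKF : Stmt_SKF) (hQFB : Stmt_QFB) (hQFM : Stmt_QFM) (C CN : ℝ) (hC : 0 < C)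
    (hCN : 0 < CN) (V : E → E → ℝ) (ℓ b : ℝ) (φ w q g : E → E → E → ℝ) (κ : E → E → ℝ) (u : (ι → E) → ℝ)
    (i j k l : ι) (hℓ : 1 ≤ ℓ) (hN : Num CN ℓ) (hK : Ker V ℓ C b φ w q g) (hR : Rsv ℓ C κ) (hu : BM u)
    (hjk : j ≠ k) (hjl : j ≠ l) (hkl : k ≠ l) :
    Bf ℓ κ φ u i j k j l ≤ 6 * C ^ 2 * CN ^ 3 / ℓ ^ 9 * ns ℓ u := by
  have hℓ0 : 0 < ℓ := by linarith
  haveI : IsProbabilityMeasure (PiM ι ℓ) := (hMEP ι ℓ hℓ0).1
  obtain ⟨hA1, _, hA1j, hA1k, _, _, hA1n, _, _⟩ := hATF ι ℓ hℓ0 i j k u hu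
  obtain ⟨hA2, _, hA2j, hA2l, _, _, hA2n, _, _⟩ := hATF ι ℓ hℓ0 i j l u hu
  set A := A3 ℓ i j k u with hAdef
  set B := A3 ℓ i j l u with hBdef
  have hcomp : ∀ a b : ι, BM (fun X : ι → E => sw (X a) (X b)) := fun a b =>
    hBMC.2.2.2.1 (E × E) (ι → E) (fun p => sw p.1 p.2) (fun X => (X a, X b)) sw_bm
      ((measurable_pi_apply a).prodMk (measurable_pi_apply b))
  set K : ℝ := 3 * C ^ 2 * CN / ℓ ^ 3 with hKdef
  have hK0 : 0 ≤ K := by positivity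
  have hc0 : 0 ≤ CN / ℓ ^ 3 := by positivity
  have t1 := two hBMC hMES hMEP hAVA hAVB ℓ (CN / ℓ ^ 3) hℓ0 hc0 (fun x => hN.c x) j k l hjk hjl hkl A hA1
    hA1j hA1k
  have t2 := two hBMC hMES hMEP hAVA hAVB ℓ (CN / ℓ ^ 3) hℓ0 hc0 (fun x => hN.c x) j l k hjl hjk hkl.symm B hA2
    hA2j hA2l
  have hQ : BM (fun X : ι → E => Qf ℓ κ (fun x => φ x (X j) (X k)) (fun x => φ x (X j) (X l))) :=
    hBMC.2.2.2.1 ((E × E) × (E × E)) (ι → E) _ (fun X => ((X j, X k), (X j, X l)))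
      (hQFM ℓ C κ φ hℓ0 hR hK.sk)
      (((measurable_pi_apply j).prodMk (measurable_pi_apply k)).prodMk
        ((measurable_pi_apply j).prodMk (measurable_pi_apply l)))
  have hAB : BM (fun X => A X * B X) := (hBMC.1 _ _ _ hA1 hA2).2.2.1
  have hint : Integrable (fun X => A X * B X *
      Qf ℓ κ (fun x => φ x (X j) (X k)) (fun x => φ x (X j) (X l))) (PiM ι ℓ) :=
    (hBMC.1 _ _ _ (hBMC.1 _ _ _ hAB hQ).2.2.1 hAB).2.2.2.2.2.2 _
  have hA1s : BM (fun X => A X ^ 2) := (hBMC.1 _ _ _ hA1 hA1).2.2.2.1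
  have hA2s : BM (fun X => B X ^ 2) := (hBMC.1 _ _ _ hA2 hA2).2.2.2.1
  have hb1 : BM (fun X : ι → E => sw (X j) (X k) * (sw (X j) (X l) * A X ^ 2)) :=
    (hBMC.1 _ _ _ (hcomp j k) (hBMC.1 _ _ _ (hcomp j l) hA1s).2.2.1).2.2.1
  have hb2 : BM (fun X : ι → E => sw (X j) (X l) * (sw (X j) (X k) * B X ^ 2)) :=
    (hBMC.1 _ _ _ (hcomp j l) (hBMC.1 _ _ _ (hcomp j k) hA2s).2.2.1).2.2.1
  have hi1 : Integrable (fun X : ι → E => sw (X j) (X k) * (sw (X j) (X l) * A X ^ 2)) (PiM ι ℓ) :=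
    (hBMC.1 _ _ _ hb1 hb1).2.2.2.2.2.2 _
  have hi2 : Integrable (fun X : ι → E => sw (X j) (X l) * (sw (X j) (X k) * B X ^ 2)) (PiM ι ℓ) :=
    (hBMC.1 _ _ _ hb2 hb2).2.2.2.2.2.2 _
  have hbound : Bf ℓ κ φ u i j k j l ≤
      ∫ X, (K * (sw (X j) (X k) * (sw (X j) (X l) * A X ^ 2)) +
        K * (sw (X j) (X l) * (sw (X j) (X k) * B X ^ 2))) ∂(PiM ι ℓ) := by
    unfold Bf
    refine integral_mono_ae hint ((hi1.const_mul K).add (hi2.const_mul K)) ?_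
    filter_upwards [(hMEP ι ℓ hℓ0).2.1] with X hX
    have hq1 := (hQFB ℓ C κ hℓ0 hR).1 (fun x => φ x (X j) (X k)) (fun x => φ x (X j) (X l))
      (((hSKF φ hK.sk.smooth).1 (X j) (X k)).of_le (by simp))
      (((hSKF φ hK.sk.smooth).1 (X j) (X l)).of_le (by simp))
    have he1 := en hMES hBMC CN ℓ C b hℓ hN V φ w q g hK hC (X j) (X k) (hX j).1 (hX k).1
    have he2 := en hMES hBMC CN ℓ C b hℓ hN V φ w q g hK hC (X j) (X l) (hX j).1 (hX l).1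
    rw [← hKdef] at he1 he2
    have hs1 := sw_nonneg (X j) (X k)
    have hs2 := sw_nonneg (X j) (X l)
    have hm := mul_le_mul he1 he2 (Real.sqrt_nonneg _) (mul_nonneg (Real.sqrt_nonneg _) hs1)
    have hmm : Real.sqrt K * sw (X j) (X k) * (Real.sqrt K * sw (X j) (X l)) =
        K * (sw (X j) (X k) * sw (X j) (X l)) := by
      have := Real.mul_self_sqrt hK0
      calc _ = (Real.sqrt K * Real.sqrt K) * (sw (X j) (X k) * sw (X j) (X l)) := by ring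
        _ = _ := by rw [this]
    rw [hmm] at hm
    have hq2 : |Qf ℓ κ (fun x => φ x (X j) (X k)) (fun x => φ x (X j) (X l))| ≤
        2 * (K * (sw (X j) (X k) * sw (X j) (X l))) :=
      hq1.trans (mul_le_mul_of_nonneg_left hm (by norm_num))
    have hS : 0 ≤ K * (sw (X j) (X k) * sw (X j) (X l)) := mul_nonneg hK0 (mul_nonneg hs1 hs2)
    show A X * B X * Qf ℓ κ (fun x => φ x (X j) (X k)) (fun x => φ x (X j) (X l)) ≤
      K * (sw (X j) (X k) * (sw (X j) (X l) * A X ^ 2)) + K * (sw (X j) (X l) * (sw (X j) (X k) * B X ^ 2))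
    calc A X * B X * Qf ℓ κ (fun x => φ x (X j) (X k)) (fun x => φ x (X j) (X l))
        ≤ |A X * B X * Qf ℓ κ (fun x => φ x (X j) (X k)) (fun x => φ x (X j) (X l))| := le_abs_self _
      _ = |A X * B X| * |Qf ℓ κ (fun x => φ x (X j) (X k)) (fun x => φ x (X j) (X l))| := abs_mul _ _
      _ ≤ |A X * B X| * (2 * (K * (sw (X j) (X k) * sw (X j) (X l)))) :=
          mul_le_mul_of_nonneg_left hq2 (abs_nonneg _)
      _ = (2 * |A X * B X|) * (K * (sw (X j) (X k) * sw (X j) (X l))) := by ring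
      _ ≤ (A X ^ 2 + B X ^ 2) * (K * (sw (X j) (X k) * sw (X j) (X l))) := by
          apply mul_le_mul_of_nonneg_right _ hS
          rcases abs_cases (A X * B X) with h | h
          · rw [h.1]; nlinarith [sq_nonneg (A X - B X)]
          · rw [h.1]; nlinarith [sq_nonneg (A X + B X)]
      _ = _ := by ring
  have hsum : ∫ X, (K * (sw (X j) (X k) * (sw (X j) (X l) * A X ^ 2)) +
        K * (sw (X j) (X l) * (sw (X j) (X k) * B X ^ 2))) ∂(PiM ι ℓ) =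
      K * (∫ X, sw (X j) (X k) * (sw (X j) (X l) * A X ^ 2) ∂(PiM ι ℓ)) +
        K * ∫ X, sw (X j) (X l) * (sw (X j) (X k) * B X ^ 2) ∂(PiM ι ℓ) := by
    rw [integral_add (hi1.const_mul K) (hi2.const_mul K), integral_const_mul, integral_const_mul]
  rw [hsum] at hbound
  have hc2 : 0 ≤ (CN / ℓ ^ 3) ^ 2 := sq_nonneg _
  have t1' := t1.trans (mul_le_mul_of_nonneg_left hA1n hc2)
  have t2' := t2.trans (mul_le_mul_of_nonneg_left hA2n hc2)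
  calc Bf ℓ κ φ u i j k j l ≤ _ := hbound
    _ ≤ K * ((CN / ℓ ^ 3) ^ 2 * ns ℓ u) + K * ((CN / ℓ ^ 3) ^ 2 * ns ℓ u) :=
        add_le_add (mul_le_mul_of_nonneg_left t1' hK0) (mul_le_mul_of_nonneg_left t2' hK0)
    _ = 6 * C ^ 2 * CN ^ 3 / ℓ ^ 9 * ns ℓ u := by
        rw [hKdef]
        field_simp
        ring

end BON_

theorem bon_proof (hBMC : Stmt_BMC) (hMES : Stmt_MES) (hMEP : Stmt_MEP) (hAVA : Stmt_AVA)
    (hAVB : Stmt_AVB) (hATF : Stmt_ATF) (hSKF : Stmt_SKF) (hQFB : Stmt_QFB) (hQFM : Stmt_QFM)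
    (hNUM : Stmt_NUM) : Stmt_BON := by
  intro C hC
  obtain ⟨CN, hCN, hN⟩ := hNUM
  refine ⟨6 * C ^ 2 * CN ^ 3, by positivity, ?_⟩
  intro ι _ _ V ℓ b φ w q g κ u i j k l hℓ hK hR hu hnd
  have hℓ0 : 0 < ℓ := by linarith
  have hnd' : i ≠ j ∧ i ≠ k ∧ i ≠ l ∧ j ≠ k ∧ j ≠ l ∧ k ≠ l := by
    simp only [List.nodup_cons, List.mem_cons, List.not_mem_nil, or_false, not_or, not_false_eq_true,
      List.nodup_nil, and_true] at hnd
    tauto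
  obtain ⟨_, _, _, hjk, hjl, hkl⟩ := hnd'
  have hm := BON_.main hBMC hMES hMEP hAVA hAVB hATF hSKF hQFB hQFM C CN hC hCN V ℓ b φ w q g κ u i j k l
    hℓ (hN ℓ hℓ) hK hR hu hjk hjl hkl
  have s1 : ∀ a b' : ι, A3 ℓ i a b' u = A3 ℓ i b' a u := fun a b' =>
    (hATF ι ℓ hℓ0 i a b' u hu).2.2.2.2.2.1
  have s2 : ∀ (X : ι → E) (a b' : ι), (fun x => φ x (X a) (X b')) = (fun x => φ x (X b') (X a)) :=
    fun X a b' => funext fun x => hK.syφ.s2 _ _ _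
  have e1 : Bf ℓ κ φ u i j k l j = Bf ℓ κ φ u i j k j l := by
    unfold Bf
    rw [s1 l j]
    simp only [s2 _ l j]
  have e2 : Bf ℓ κ φ u i k j j l = Bf ℓ κ φ u i j k j l := by
    unfold Bf
    rw [s1 k j]
    simp only [s2 _ k j]
  have e3 : Bf ℓ κ φ u i k j l j = Bf ℓ κ φ u i j k j l := by
    unfold Bf
    rw [s1 k j, s1 l j]
    simp only [s2 _ k j, s2 _ l j]
  exact ⟨hm, e1 ▸ hm, e2 ▸ hm, e3 ▸ hm⟩

end Pool.Agent.TBL
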