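import Pool.Agent.TBL.Stmts

/-!
# Module BSM (MP_80dc41_mp, squad TBL): the second order terms
-/

set_option autoImplicit false

open MeasureTheory Filter Topology

namespace Pool.Agent.TBL

open Pool.Agent.TBG

namespace BSM_

theorem ns_nonneg {ι : Type} [Fintype ι] (ℓ : ℝ) (F : (ι → E) → ℝ) : 0 ≤ ns ℓ F :=
  integral_nonneg fun _ => sq_nonneg _

theorem arith (T C₁ C₁' C₂ ℓ n SA U Np Sq SB : ℝ) (hC₁ : 0 < C₁) (hC₁' : 0 < C₁') (hC₂ : 0 < C₂) (hℓ : 1 ≤ ℓ)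
    (_hn : 0 ≤ n) (hSA : 0 ≤ SA) (hU : 0 ≤ U) (hNp : 0 ≤ Np) (hSq : 0 ≤ Sq)
    (h : SB ≤ 2 * ((T + C₁ / ℓ ^ 7) * SA) + 4 * n ^ 4 * (C₁' / ℓ ^ 9 * U)
      + 4 * n ^ 4 * (C₂ / ℓ ^ 10 * Np + C₂ / ℓ ^ 8 * Sq)) :
    1 / 4 * SB ≤ 1 / 6 * (3 * T + (3 * C₁ + C₁' + C₂) / ℓ ^ 7) * SA + (3 * C₁ + C₁' + C₂) * n ^ 4 / ℓ ^ 9 * U
      + (3 * C₁ + C₁' + C₂) * n ^ 4 / ℓ ^ 10 * Np + (3 * C₁ + C₁' + C₂) * n ^ 4 / ℓ ^ 8 * Sq := by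
  have hℓ0 : 0 < ℓ := lt_of_lt_of_le one_pos hℓ
  have h7 : 0 ≤ (C₁' + C₂) / ℓ ^ 7 * SA := by positivity
  have h9 : 0 ≤ (3 * C₁ + C₂) * n ^ 4 / ℓ ^ 9 * U := by positivity
  have h10 : 0 ≤ (3 * C₁ + C₁') * n ^ 4 / ℓ ^ 10 * Np := by positivity
  have h8 : 0 ≤ (3 * C₁ + C₁') * n ^ 4 / ℓ ^ 8 * Sq := by positivity
  have e : 1 / 6 * (3 * T + (3 * C₁ + C₁' + C₂) / ℓ ^ 7) * SA + (3 * C₁ + C₁' + C₂) * n ^ 4 / ℓ ^ 9 * U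
      + (3 * C₁ + C₁' + C₂) * n ^ 4 / ℓ ^ 10 * Np + (3 * C₁ + C₁' + C₂) * n ^ 4 / ℓ ^ 8 * Sq =
      1 / 4 * (2 * ((T + C₁ / ℓ ^ 7) * SA) + 4 * n ^ 4 * (C₁' / ℓ ^ 9 * U)
      + 4 * n ^ 4 * (C₂ / ℓ ^ 10 * Np + C₂ / ℓ ^ 8 * Sq)) + 1 / 6 * ((C₁' + C₂) / ℓ ^ 7 * SA) +
      (3 * C₁ + C₂) * n ^ 4 / ℓ ^ 9 * U + (3 * C₁ + C₁') * n ^ 4 / ℓ ^ 10 * Np +
      (3 * C₁ + C₁') * n ^ 4 / ℓ ^ 8 * Sq := by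
    ring
  rw [e]
  linarith

end BSM_

open BSM_ in
theorem bsm_proof (_hP : Stmt_PQF) (hQ : Stmt_QIA) (_hA : Stmt_ATF) (hW : Stmt_BTW) (hN : Stmt_BON)
    (hZ : Stmt_BZE) (hM : Stmt_CMB) : Stmt_BSM := by
  intro C hC
  obtain ⟨C₁, hC₁, hW⟩ := hW C hC
  obtain ⟨C₁', hC₁', hN⟩ := hN C hC
  obtain ⟨C₂, hC₂, hZ⟩ := hZ C hC
  refine ⟨3 * C₁ + C₁' + C₂, by positivity, ?_⟩
  intro ι _ _ V ℓ b φ w q g κ u hℓ hK hR hu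
  have hℓ0 : 0 < ℓ := lt_of_lt_of_le one_pos hℓ
  set T : ℝ := ∑ c, ∫ x, ∫ y, ∫ z, (dk c φ x y z) ^ 2 ∂(nuc ℓ) ∂(nuc ℓ) ∂(nuc ℓ) with hT
  have hqI : ∀ l : ι, 0 ≤ qI ℓ κ l u := fun l => (hQ ι ℓ C κ u l hℓ0 hR hu).1
  have hnQ : ∀ l : ι, 0 ≤ ns ℓ (Qa ℓ l u) := fun l => ns_nonneg ℓ _
  have key := hM ι (fun i j k l m => Bf ℓ κ φ u i j k l m)
    (fun i j k => (T + C₁ / ℓ ^ 7) * ns ℓ (A3 ℓ i j k u)) (C₁' / ℓ ^ 9 * ns ℓ u)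
    (fun l => C₂ / ℓ ^ 10 * ns ℓ (Qa ℓ l u) + C₂ / ℓ ^ 8 * qI ℓ κ l u)
    (mul_nonneg (by positivity) (ns_nonneg ℓ u))
    (fun l => add_nonneg (mul_nonneg (by positivity) (hnQ l)) (mul_nonneg (by positivity) (hqI l)))
    (fun i j k h1 h2 h3 => hW ι V ℓ b φ w q g κ u i j k hℓ hK hR hu h1 h2 h3)
    (fun i j k l hnd => hN ι V ℓ b φ w q g κ u i j k l hℓ hK hR hu hnd)
    (fun i j k l m hnd => hZ ι V ℓ b φ w q g κ u i j k l m hℓ hK hR hu hnd)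
  refine arith T C₁ C₁' C₂ ℓ (Fintype.card ι : ℝ) (∑ t ∈ D3 ι, ns ℓ (A3 ℓ t.1 t.2.1 t.2.2 u)) (ns ℓ u)
    (∑ i, ns ℓ (Qa ℓ i u)) (∑ i, qI ℓ κ i u) _ hC₁ hC₁' hC₂ hℓ (Nat.cast_nonneg _)
    (Finset.sum_nonneg fun t _ => ns_nonneg ℓ _) (ns_nonneg ℓ u) (Finset.sum_nonneg fun i _ => hnQ i)
    (Finset.sum_nonneg fun i _ => hqI i) ?_
  refine key.trans (le_of_eq ?_)
  rw [← Finset.mul_sum, Finset.sum_add_distrib, ← Finset.mul_sum, ← Finset.mul_sum]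

end Pool.Agent.TBL
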