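import Pool.Agent.TBL.Stmts

/-!
# Squad TBL, module BTW: the matrix elements of equal pairs
-/

set_option autoImplicit false

open MeasureTheory Filter Topology
open scoped ContDiff

namespace Pool.Agent.TBL

open Pool.Agent.TBG

namespace BTW_

/-! ### bounded measurable functions -/

section bm

variable {α β : Type} [MeasurableSpace α] [MeasurableSpace β]

lemma b_mul (hB : Stmt_BMC) {F G : α → ℝ} (hF : BM F) (hG : BM G) : BM (fun X => F X * G X) :=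
  (hB.1 α F G hF hG).2.2.1

lemma b_add (hB : Stmt_BMC) {F G : α → ℝ} (hF : BM F) (hG : BM G) : BM (fun X => F X + G X) :=
  (hB.1 α F G hF hG).1

lemma b_sub (hB : Stmt_BMC) {F G : α → ℝ} (hF : BM F) (hG : BM G) : BM (fun X => F X - G X) :=
  (hB.1 α F G hF hG).2.1

lemma b_sq (hB : Stmt_BMC) {F : α → ℝ} (hF : BM F) : BM (fun X => F X ^ 2) :=
  (hB.1 α F F hF hF).2.2.2.1

lemma b_const_mul (hB : Stmt_BMC) (a : ℝ) {F : α → ℝ} (hF : BM F) : BM (fun X => a * F X) :=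
  (hB.1 α F F hF hF).2.2.2.2.2.1 a

lemma b_int (hB : Stmt_BMC) {F : α → ℝ} (hF : BM F) (μ : Measure α) [IsFiniteMeasure μ] :
    Integrable F μ := (hB.1 α F F hF hF).2.2.2.2.2.2 μ

lemma b_const (hB : Stmt_BMC) (a : ℝ) : BM (fun _ : α => a) := hB.2.1 α a

lemma b_sum (hB : Stmt_BMC) {J : Type} (s : Finset J) (F : J → α → ℝ) (h : ∀ p ∈ s, BM (F p)) :
    BM (fun X => ∑ p ∈ s, F p X) := hB.2.2.1 α J s F h

lemma b_comp (hB : Stmt_BMC) {F : α → ℝ} {f : β → α} (hF : BM F) (hf : Measurable f) :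
    BM (fun X => F (f X)) := hB.2.2.2.1 α β F f hF hf

lemma b_avg (hB : Stmt_BMC) (μ : Measure β) [IsProbabilityMeasure μ] {F : α × β → ℝ} (hF : BM F) :
    BM (fun X => ∫ y, F (X, y) ∂μ) := hB.2.2.2.2 α β μ F hF

end bm

section three

variable {μ : Measure E} [IsProbabilityMeasure μ]

/-- the integral over the first variable, as a function of the others -/
lemma b_x (hB : Stmt_BMC) {k : E → E → E → ℝ} (hk : BM3 k) :
    BM (fun p : E × E => ∫ x, k x p.1 p.2 ∂μ) := by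
  have h1 : BM (fun q : (E × E) × E => k q.2 q.1.1 q.1.2) :=
    b_comp hB (f := fun q : (E × E) × E => (q.2, q.1.1, q.1.2)) hk (by fun_prop)
  exact b_avg hB μ h1

lemma two (hB : Stmt_BMC) {F : E → E → ℝ} (hF : BM (fun p : E × E => F p.1 p.2)) :
    ∫ x, ∫ y, F x y ∂μ ∂μ = ∫ p, F p.1 p.2 ∂(μ.prod μ) :=
  (integral_prod (fun p : E × E => F p.1 p.2) (b_int hB hF _)).symm

lemma fub3 (hB : Stmt_BMC) {k : E → E → E → ℝ} (hk : BM3 k) :
    ∫ y, ∫ z, ∫ x, k x y z ∂μ ∂μ ∂μ = ∫ x, ∫ y, ∫ z, k x y z ∂μ ∂μ ∂μ := by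
  rw [two hB (F := fun y z => ∫ x, k x y z ∂μ) (b_x hB hk)]
  have h1 : Integrable (Function.uncurry fun (p : E × E) (x : E) => k x p.1 p.2)
      ((μ.prod μ).prod μ) := by
    have h2 : BM (fun q : (E × E) × E => k q.2 q.1.1 q.1.2) :=
      b_comp hB (f := fun q : (E × E) × E => (q.2, q.1.1, q.1.2)) hk (by fun_prop)
    exact b_int hB h2 _
  rw [integral_integral_swap h1]
  refine integral_congr_ae (Eventually.of_forall fun x => ?_)
  have h3 : BM (fun p : E × E => k x p.1 p.2) :=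
    b_comp hB (f := fun p : E × E => (x, p.1, p.2)) hk (by fun_prop)
  exact (two hB (F := fun y z => k x y z) h3).symm

/-- the jump form is bounded by the `L²` norm -/
lemma q1_le (hB : Stmt_BMC) {ℓ C : ℝ} [IsProbabilityMeasure (nuc ℓ)] {κ : E → E → ℝ}
    (hκ : Rsv ℓ C κ) {f : E → ℝ} (hf : BM f) :
    q1 ℓ κ f f ≤ 4 * (C / ℓ) * ∫ x, f x ^ 2 ∂(nuc ℓ) := by
  have hk : BM (fun p : E × E => κ p.1 p.2) := hκ.bm
  have h1 : BM (fun p : E × E => f p.1) := b_comp hB hf measurable_fst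
  have h2 : BM (fun p : E × E => f p.2) := b_comp hB hf measurable_snd
  have hF : BM (fun p : E × E => κ p.1 p.2 * ((f p.1 - f p.2) * (f p.1 - f p.2))) :=
    b_mul hB hk (b_mul hB (b_sub hB h1 h2) (b_sub hB h1 h2))
  have hG1 : BM (fun p : E × E => κ p.1 p.2 * f p.1 ^ 2) := b_mul hB hk (b_sq hB h1)
  have hG2 : BM (fun p : E × E => κ p.1 p.2 * f p.2 ^ 2) := b_mul hB hk (b_sq hB h2)
  have e1 : q1 ℓ κ f f ≤ ∫ p, (2 * (κ p.1 p.2 * f p.1 ^ 2) + 2 * (κ p.1 p.2 * f p.2 ^ 2))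
      ∂((nuc ℓ).prod (nuc ℓ)) := by
    unfold q1
    rw [two hB (F := fun x y => κ x y * ((f x - f y) * (f x - f y))) hF]
    refine integral_mono (b_int hB hF _)
      (b_int hB (b_add hB (b_const_mul hB 2 hG1) (b_const_mul hB 2 hG2)) _) fun p => ?_
    have := hκ.nonneg p.1 p.2
    simp only
    nlinarith [mul_nonneg this (sq_nonneg (f p.1 + f p.2))]
  have e2 : ∫ p, (2 * (κ p.1 p.2 * f p.1 ^ 2) + 2 * (κ p.1 p.2 * f p.2 ^ 2))
      ∂((nuc ℓ).prod (nuc ℓ)) = 2 * ∫ p, κ p.1 p.2 * f p.1 ^ 2 ∂((nuc ℓ).prod (nuc ℓ)) +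
      2 * ∫ p, κ p.1 p.2 * f p.2 ^ 2 ∂((nuc ℓ).prod (nuc ℓ)) := by
    rw [integral_add (b_int hB (b_const_mul hB 2 hG1) _) (b_int hB (b_const_mul hB 2 hG2) _),
      integral_const_mul, integral_const_mul]
  have hf2 : Integrable (fun x => f x ^ 2) (nuc ℓ) := b_int hB (b_sq hB hf) _
  have hK : BM (fun x : E => ∫ y, κ x y ∂(nuc ℓ)) := b_avg hB (nuc ℓ) hk
  have key : ∫ x, (∫ y, κ x y ∂(nuc ℓ)) * f x ^ 2 ∂(nuc ℓ) ≤ C / ℓ * ∫ x, f x ^ 2 ∂(nuc ℓ) := by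
    rw [← integral_const_mul]
    refine integral_mono (b_int hB (b_mul hB hK (b_sq hB hf)) _) (hf2.const_mul _) fun x => ?_
    exact mul_le_mul_of_nonneg_right (hκ.k1 x) (sq_nonneg _)
  have e3 : ∫ p, κ p.1 p.2 * f p.1 ^ 2 ∂((nuc ℓ).prod (nuc ℓ)) ≤
      C / ℓ * ∫ x, f x ^ 2 ∂(nuc ℓ) := by
    rw [← two hB (F := fun x y => κ x y * f x ^ 2) hG1]
    simp_rw [integral_mul_const]
    exact key
  have e4 : ∫ p, κ p.1 p.2 * f p.2 ^ 2 ∂((nuc ℓ).prod (nuc ℓ)) ≤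
      C / ℓ * ∫ x, f x ^ 2 ∂(nuc ℓ) := by
    rw [← two hB (F := fun x y => κ x y * f y ^ 2) hG2,
      integral_integral_swap (b_int hB (F := Function.uncurry fun x y => κ x y * f y ^ 2) hG2 _)]
    simp_rw [integral_mul_const]
    refine le_trans (le_of_eq ?_) key
    refine integral_congr_ae (Eventually.of_forall fun y => ?_)
    simp only [hκ.symm y]
  rw [e2] at e1
  linarith

end three

/-- the numerical bound on `φ²` -/
lemma phi_sq (hB : Stmt_BMC) (hM : Stmt_MES) {V : E → E → ℝ} {ℓ C b CN : ℝ}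
    {φ w q g : E → E → E → ℝ} (hℓ : 0 < ℓ) (hker : Ker V ℓ C b φ w q g)
    (hN : Num CN ℓ) :
    ∫ x, ∫ y, ∫ z, φ x y z ^ 2 ∂(nuc ℓ) ∂(nuc ℓ) ∂(nuc ℓ) ≤ C ^ 2 * (CN / ℓ ^ 6) := by
  obtain ⟨-, -, -, hprob, -, hae, -, -⟩ := hM ℓ hℓ
  have hφ : BM3 (fun x y z => φ x y z ^ 2) :=
    b_sq hB (F := fun p : E × E × E => φ p.1 p.2.1 p.2.2) hker.sk.b0
  have hD : ∀ x : E, BM (fun p : E × E => ((1 + ‖x - p.1‖ + ‖x - p.2‖) ^ 8)⁻¹) := by
    intro x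
    refine ⟨by fun_prop, 1, fun p => ?_⟩
    have h1 : 1 ≤ 1 + ‖x - p.1‖ + ‖x - p.2‖ := by
      have := norm_nonneg (x - p.1)
      have := norm_nonneg (x - p.2)
      linarith
    have h2 : 1 ≤ (1 + ‖x - p.1‖ + ‖x - p.2‖) ^ 8 := one_le_pow₀ h1
    rw [abs_of_nonneg (by positivity)]
    exact inv_le_one_of_one_le₀ h2
  have main : ∀ x ∈ Lam ℓ, ∫ y, ∫ z, φ x y z ^ 2 ∂(nuc ℓ) ∂(nuc ℓ) ≤ C ^ 2 * (CN / ℓ ^ 6) := by
    intro x hx
    have h0 : ∫ y, ∫ z, φ x y z ^ 2 ∂(nuc ℓ) ∂(nuc ℓ) ≤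
        ∫ y, ∫ z, C ^ 2 * ((1 + ‖x - y‖ + ‖x - z‖) ^ 8)⁻¹ ∂(nuc ℓ) ∂(nuc ℓ) := by
      refine integral_mono_of_nonneg (Eventually.of_forall fun y =>
        integral_nonneg fun z => sq_nonneg _) ?_ ?_
      · exact b_int hB (b_avg hB (nuc ℓ) (F := fun p : E × E =>
          C ^ 2 * ((1 + ‖x - p.1‖ + ‖x - p.2‖) ^ 8)⁻¹) (b_const_mul hB _ (hD x))) _
      · filter_upwards [hae] with y hy
        refine integral_mono_of_nonneg (Eventually.of_forall fun z => sq_nonneg _) ?_ ?_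
        · exact b_int hB (b_comp hB (f := fun z : E => (y, z))
            (b_const_mul hB (C ^ 2) (hD x)) (by fun_prop)) _
        · filter_upwards [hae] with z hz
          have h1 := hker.dec0 x hx y hy.1 z hz.1
          have h2 : 0 < 1 + ‖x - y‖ + ‖x - z‖ := by positivity
          have h3 : φ x y z ^ 2 ≤ (C / (1 + ‖x - y‖ + ‖x - z‖) ^ 4) ^ 2 := by
            rw [← sq_abs]
            exact pow_le_pow_left₀ (abs_nonneg _) h1 2
          refine h3.trans (le_of_eq ?_)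
          rw [div_pow, ← pow_mul]
          rfl
    refine h0.trans ?_
    simp_rw [integral_const_mul]
    exact mul_le_mul_of_nonneg_left (hN.h x) (sq_nonneg _)
  have h5 : ∫ x, ∫ y, ∫ z, φ x y z ^ 2 ∂(nuc ℓ) ∂(nuc ℓ) ∂(nuc ℓ) ≤
      ∫ _x, C ^ 2 * (CN / ℓ ^ 6) ∂(nuc ℓ) := by
    refine integral_mono_of_nonneg (Eventually.of_forall fun x =>
      integral_nonneg fun y => integral_nonneg fun z => sq_nonneg _) (integrable_const _) ?_
    filter_upwards [hae] with x hx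
    exact main x hx.1
  rwa [integral_const, probReal_univ, one_smul] at h5

end BTW_

open BTW_ in
theorem btw_proof (hB : Stmt_BMC) (hM : Stmt_MES) (_hMEP : Stmt_MEP) (hATF : Stmt_ATF)
    (hFAT : Stmt_FAT) (hSKF : Stmt_SKF) (hQFM : Stmt_QFM) (hNUM : Stmt_NUM) : Stmt_BTW := by
  intro C hC
  obtain ⟨CN, hCN, hNum⟩ := hNUM
  refine ⟨2 * C ^ 3 * CN, by positivity, ?_⟩
  intro ι _ _ V ℓ b φ w q g κ u i j k hℓ hker hκ hu hij hik hjk
  have hℓ0 : 0 < ℓ := by linarith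
  obtain ⟨-, -, -, hprob, -, -, -, -⟩ := hM ℓ hℓ0
  obtain ⟨hA, hIi, hIj, hIk, -, hsym, -, -, -⟩ := hATF ι ℓ hℓ0 i j k u hu
  -- the second form is the first one
  have h2 : Bf ℓ κ φ u i j k k j = Bf ℓ κ φ u i j k j k := by
    unfold Bf
    rw [← hsym]
    refine integral_congr_ae (Eventually.of_forall fun X => ?_)
    have h3 : (fun x => φ x (X k) (X j)) = fun x => φ x (X j) (X k) := by
      funext x; exact hker.syφ.s2 _ _ _
    simp only [h3]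
  rw [h2, and_self]
  -- the form as a product
  set G : E → E → ℝ := fun y z => Qf ℓ κ (fun x => φ x y z) (fun x => φ x y z) with hG
  have hGb : BM (fun p : E × E => G p.1 p.2) :=
    b_comp hB (f := fun p : E × E => ((p.1, p.2), (p.1, p.2))) (hQFM ℓ C κ φ hℓ0 hκ hker.sk)
      (by fun_prop)
  have hG3 : BM3 (fun _ y z => G y z) :=
    b_comp hB (f := fun p : E × E × E => (p.2.1, p.2.2)) hGb (by fun_prop)
  have hInd : ∀ l, Ind l (A3 ℓ i j k u) → Ind l (fun X => A3 ℓ i j k u X ^ 2) := by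
    intro l h X y
    simp only [h X y]
  have e1 : Bf ℓ κ φ u i j k j k =
      (∫ y, ∫ z, G y z ∂(nuc ℓ) ∂(nuc ℓ)) * ns ℓ (A3 ℓ i j k u) := by
    have h3 := hFAT ι ℓ hℓ0 (fun _ y z => G y z) (fun X => A3 ℓ i j k u X ^ 2) i j k hij hik hjk
      hG3 (b_sq hB hA) (hInd i hIi) (hInd j hIj) (hInd k hIk)
    rw [integral_const, probReal_univ, one_smul] at h3
    unfold ns
    rw [← h3]
    unfold Bf
    refine integral_congr_ae (Eventually.of_forall fun X => ?_)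
    simp only [hG]
    ring
  have hns : 0 ≤ ns ℓ (A3 ℓ i j k u) := by
    unfold ns; exact integral_nonneg fun X => sq_nonneg _
  rw [e1]
  refine mul_le_mul_of_nonneg_right ?_ hns
  -- the two parts
  have hd : ∀ c, BM3 (fun x y z => (dk c φ x y z) ^ 2) := fun c =>
    b_sq hB (F := fun p : E × E × E => dk c φ p.1 p.2.1 p.2.2) (hker.sk.b1 c)
  have hφ : BM3 (fun x y z => φ x y z ^ 2) :=
    b_sq hB (F := fun p : E × E × E => φ p.1 p.2.1 p.2.2) hker.sk.b0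
  have hS : ∀ c, BM (fun p : E × E => ∫ x, (dk c φ x p.1 p.2) ^ 2 ∂(nuc ℓ)) :=
    fun c => b_x hB (hd c)
  have hP : BM (fun p : E × E => ∫ x, φ x p.1 p.2 ^ 2 ∂(nuc ℓ)) := b_x hB hφ
  have pt : ∀ y z, G y z ≤ (∑ c, ∫ x, (dk c φ x y z) ^ 2 ∂(nuc ℓ)) +
      4 / 3 * (C / ℓ) * ∫ x, φ x y z ^ 2 ∂(nuc ℓ) := by
    intro y z
    have hf : BM (fun x => φ x y z) :=
      b_comp hB (f := fun x : E => (x, y, z)) hker.sk.b0 (by fun_prop)
    have h3 := q1_le hB hκ hf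
    have h4 : G y z = (∑ c, ∫ x, (dk c φ x y z) ^ 2 ∂(nuc ℓ)) +
        1 / 3 * q1 ℓ κ (fun x => φ x y z) (fun x => φ x y z) := by
      simp only [hG, Qf, dk]
      congr 1
      refine Finset.sum_congr rfl fun c _ => ?_
      refine integral_congr_ae (Eventually.of_forall fun x => ?_)
      simp only
      ring
    rw [h4]
    linarith
  have hSum : BM (fun p : E × E => ∑ c, ∫ x, (dk c φ x p.1 p.2) ^ 2 ∂(nuc ℓ)) :=
    b_sum hB _ _ fun c _ => hS c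
  have e2 : ∫ y, ∫ z, G y z ∂(nuc ℓ) ∂(nuc ℓ) ≤
      (∑ c, ∫ x, ∫ y, ∫ z, (dk c φ x y z) ^ 2 ∂(nuc ℓ) ∂(nuc ℓ) ∂(nuc ℓ)) +
      4 / 3 * (C / ℓ) * ∫ x, ∫ y, ∫ z, φ x y z ^ 2 ∂(nuc ℓ) ∂(nuc ℓ) ∂(nuc ℓ) := by
    rw [two hB hGb]
    have h3 : ∫ p, G p.1 p.2 ∂((nuc ℓ).prod (nuc ℓ)) ≤
        ∫ p, ((∑ c, ∫ x, (dk c φ x p.1 p.2) ^ 2 ∂(nuc ℓ)) +
          4 / 3 * (C / ℓ) * ∫ x, φ x p.1 p.2 ^ 2 ∂(nuc ℓ)) ∂((nuc ℓ).prod (nuc ℓ)) :=
      integral_mono (b_int hB hGb _) (b_int hB (b_add hB hSum (b_const_mul hB _ hP)) _)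
        fun p => pt p.1 p.2
    refine h3.trans (le_of_eq ?_)
    rw [integral_add (b_int hB hSum _) (b_int hB (b_const_mul hB _ hP) _), integral_const_mul,
      integral_finsetSum _ fun c _ => b_int hB (hS c) _]
    congr 1
    · refine Finset.sum_congr rfl fun c _ => ?_
      rw [← two hB (F := fun y z => ∫ x, (dk c φ x y z) ^ 2 ∂(nuc ℓ)) (hS c)]
      exact fub3 hB (hd c)
    · congr 1
      rw [← two hB (F := fun y z => ∫ x, φ x y z ^ 2 ∂(nuc ℓ)) hP]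
      exact fub3 hB hφ
  refine e2.trans ?_
  have h6 := phi_sq hB hM hℓ0 hker (hNum ℓ hℓ)
  have h7 : 4 / 3 * (C / ℓ) * ∫ x, ∫ y, ∫ z, φ x y z ^ 2 ∂(nuc ℓ) ∂(nuc ℓ) ∂(nuc ℓ) ≤
      4 / 3 * (C / ℓ) * (C ^ 2 * (CN / ℓ ^ 6)) :=
    mul_le_mul_of_nonneg_left h6 (by positivity)
  have h8 : 4 / 3 * (C / ℓ) * (C ^ 2 * (CN / ℓ ^ 6)) ≤ 2 * C ^ 3 * CN / ℓ ^ 7 := by
    have : 4 / 3 * (C / ℓ) * (C ^ 2 * (CN / ℓ ^ 6)) = (4 / 3 * (C ^ 3 * CN)) / ℓ ^ 7 := by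
      field_simp
    rw [this]
    have h9 : 0 < C ^ 3 * CN := by positivity
    exact div_le_div_of_nonneg_right (by linarith) (by positivity)
  linarith

end Pool.Agent.TBL
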