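import Pool.Agent.TBL.Stmts

/-!
# Three-body Bose gases (MP_80dc41_mp), lower bound, module BZA
-/

set_option autoImplicit false

open MeasureTheory Filter Topology
open scoped ContDiff

namespace Pool.Agent.TBL

open Pool.Agent.TBG

namespace BZA_

/-- double update -/
def up {ι : Type} [DecidableEq ι] (X : ι → E) (l m : ι) (y z : E) : ι → E :=
  Function.update (Function.update X l y) m z

/-- the integrand of `GB` -/
noncomputable def PB {ι : Type} [DecidableEq ι] (ℓ : ℝ) (φ : E → E → E → ℝ) (l m : ι)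
    (A : (ι → E) → ℝ) (X : ι → E) : ℝ :=
  ∑ c, ∫ x, (∫ y, ∫ z, dk c φ x y z * A (Function.update (Function.update X l y) m z)
    ∂(nuc ℓ) ∂(nuc ℓ)) ^ 2 ∂(nuc ℓ)

theorem bm_int2 (h1 : Stmt_BMC) {α : Type} [MeasurableSpace α] (μ : Measure E)
    [IsProbabilityMeasure μ] (F : α → E → E → ℝ)
    (hF : BM (fun p : α × (E × E) => F p.1 p.2.1 p.2.2)) :
    BM (fun X => ∫ y, ∫ z, F X y z ∂μ ∂μ) := by
  obtain ⟨-, -, -, b4, b5⟩ := h1
  have e1 : BM (fun q : (α × E) × E => F q.1.1 q.1.2 q.2) :=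
    b4 (α × (E × E)) ((α × E) × E) (fun p : α × (E × E) => F p.1 p.2.1 p.2.2)
      (fun q => (q.1.1, (q.1.2, q.2))) hF (by fun_prop)
  have e2 := b5 (α × E) E μ (fun q : (α × E) × E => F q.1.1 q.1.2 q.2) e1
  exact b5 α E μ (fun q : α × E => ∫ z, F q.1 q.2 z ∂μ) e2

theorem bm_PB (h1 : Stmt_BMC) (h2 : Stmt_MES) (h12 : Stmt_SLT) {ι : Type} [Fintype ι]
    [DecidableEq ι] {ℓ : ℝ} (hℓ : 0 < ℓ) {φ : E → E → E → ℝ} (hφ : SK φ) {l m : ι} (hlm : l ≠ m)
    {A : (ι → E) → ℝ} (hA : BM A) : BM (PB ℓ φ l m A) := by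
  have hpr : IsProbabilityMeasure (nuc ℓ) := (h2 ℓ hℓ).2.2.2.1
  have hup := ((h12 ι ℓ l m hℓ hlm).2 A hA).1
  have b1 := h1.1
  have b3 := h1.2.2.1
  have b4 := h1.2.2.2.1
  have b5 := h1.2.2.2.2
  unfold PB
  refine b3 (ι → E) (Fin 3) Finset.univ
    (fun c X => ∫ x, (∫ y, ∫ z, dk c φ x y z * A (Function.update (Function.update X l y) m z)
    ∂(nuc ℓ) ∂(nuc ℓ)) ^ 2 ∂(nuc ℓ)) (fun c _ => ?_)
  have e1 : BM (fun p : ((ι → E) × E) × (E × E) => dk c φ p.1.2 p.2.1 p.2.2) :=
    b4 (E × E × E) (((ι → E) × E) × (E × E)) (fun p : E × E × E => dk c φ p.1 p.2.1 p.2.2)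
      (fun p => (p.1.2, (p.2.1, p.2.2))) (hφ.b1 c) (by fun_prop)
  have e2 : BM (fun p : ((ι → E) × E) × (E × E) =>
      A (Function.update (Function.update p.1.1 l p.2.1) m p.2.2)) :=
    b4 ((ι → E) × (E × E)) (((ι → E) × E) × (E × E))
      (fun p : (ι → E) × (E × E) => A (Function.update (Function.update p.1 l p.2.1) m p.2.2))
      (fun p => (p.1.1, (p.2.1, p.2.2))) hup (by fun_prop)
  have e3 := (b1 _ _ _ e1 e2).2.2.1
  have e4 := bm_int2 h1 (nuc ℓ) (fun (p : (ι → E) × E) y z =>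
    dk c φ p.2 y z * A (Function.update (Function.update p.1 l y) m z)) e3
  have e5 := (b1 _ _ _ e4 e4).2.2.2.1
  exact b5 (ι → E) E (nuc ℓ) _ e5

end BZA_

open BZA_ in
theorem bza_proof (h1 : Stmt_BMC) (h2 : Stmt_MES) (h3 : Stmt_MEP) (_h4 : Stmt_AVA)
    (_h5 : Stmt_AVB) (h6 : Stmt_ATF) (_h7 : Stmt_SKF) (h8 : Stmt_OPD) (h9 : Stmt_OPQ)
    (h10 : Stmt_QFB) (h11 : Stmt_QFM) (h12 : Stmt_SLT) : Stmt_BZA := by
  intro ι _ _ ℓ C φ κ u i j k l m hℓ hφ hκ hu hnd
  have hpr : IsProbabilityMeasure (nuc ℓ) := (h2 ℓ hℓ).2.2.2.1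
  have hpi : IsProbabilityMeasure (PiM ι ℓ) := (h3 ι ℓ hℓ).1
  simp only [List.nodup_cons, List.mem_cons, List.not_mem_nil, or_false, not_or,
    List.nodup_nil, and_true, not_false_eq_true] at hnd
  obtain ⟨⟨hij, hik, hil, him⟩, ⟨hjk, hjl, hjm⟩, ⟨hkl, hkm⟩, hlm⟩ := hnd
  obtain ⟨hA, hAi, hAj, hAk, -⟩ := h6 ι ℓ hℓ i j k u hu
  obtain ⟨hA', hAi', hAl', hAm', -⟩ := h6 ι ℓ hℓ i l m u hu
  set A := A3 ℓ i j k u with hAd
  set A' := A3 ℓ i l m u with hAd'
  have b1 := h1.1
  have b4 := h1.2.2.2.1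
  have hB := h11 ℓ C κ φ hℓ hκ hφ
  -- the integrand
  set F : (ι → E) → ℝ := fun X => A X * A' X *
    Qf ℓ κ (fun x => φ x (X j) (X k)) (fun x => φ x (X l) (X m)) with hFd
  have hF : BM F := by
    have e1 := (b1 _ _ _ hA hA').2.2.1
    have e2 : BM (fun X : ι → E => Qf ℓ κ (fun x => φ x (X j) (X k)) (fun x => φ x (X l) (X m))) :=
      b4 ((E × E) × (E × E)) (ι → E)
        (fun p : (E × E) × (E × E) => Qf ℓ κ (fun x => φ x p.1.1 p.1.2) (fun x => φ x p.2.1 p.2.2))
        (fun X => ((X j, X k), (X l, X m))) hB (by fun_prop)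
    exact (b1 _ _ _ e1 e2).2.2.1
  set H : (ι → E) → ℝ := fun X =>
    ∫ y, ∫ z, F (Function.update (Function.update X l y) m z) ∂(nuc ℓ) ∂(nuc ℓ) with hHd
  have hH : BM H := bm_int2 h1 (nuc ℓ)
    (fun X y z => F (Function.update (Function.update X l y) m z)) ((h12 ι ℓ l m hℓ hlm).2 F hF).1
  have s1 : ∫ X, F X ∂(PiM ι ℓ) = ∫ X, H X ∂(PiM ι ℓ) := (h12 ι ℓ l m hℓ hlm).1 F hF
  have s2 := (h12 ι ℓ j k hℓ hjk).1 H hH
  -- the values
  have hval : ∀ (X : ι → E) (y z y' z' : E),
      F (Function.update (Function.update (Function.update (Function.update X j y) k z) l y') m z') =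
      A' (Function.update (Function.update X j y) k z) *
        A (Function.update (Function.update X l y') m z') *
        Qf ℓ κ (fun x => φ x y z) (fun x => φ x y' z') := by
    intro X y z y' z'
    have e1 : A' (Function.update (Function.update (Function.update (Function.update X j y) k z)
        l y') m z') = A' (Function.update (Function.update X j y) k z) := by
      rw [hAm', hAl']
    have e2 : Function.update (Function.update (Function.update (Function.update X j y) k z)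
        l y') m z' = Function.update (Function.update (Function.update (Function.update X l y') m z')
        j y) k z := by
      rw [Function.update_comm hkl z y' (Function.update X j y),
        Function.update_comm hjl y y' X,
        Function.update_comm hkm z z' (Function.update (Function.update X l y') j y),
        Function.update_comm hjm y z' (Function.update X l y')]
    have e3 : A (Function.update (Function.update (Function.update (Function.update X j y) k z)
        l y') m z') = A (Function.update (Function.update X l y') m z') := by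
      rw [e2, hAk, hAj]
    have v1 : Function.update (Function.update (Function.update (Function.update X j y) k z)
        l y') m z' j = y := by
      simp [hjk, hjl, hjm]
    have v2 : Function.update (Function.update (Function.update (Function.update X j y) k z)
        l y') m z' k = z := by
      simp [hkl, hkm]
    have v3 : Function.update (Function.update (Function.update (Function.update X j y) k z)
        l y') m z' l = y' := by
      simp [hlm]
    have v4 : Function.update (Function.update (Function.update (Function.update X j y) k z)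
        l y') m z' m = z' := by
      simp
    simp only [hFd]
    rw [e1, e3, v1, v2, v3, v4]
    ring
  -- slices
  have hsl : ∀ (a b : ι) (_ : a ≠ b) (Y : (ι → E) → ℝ) (_ : BM Y) (X : ι → E),
      BM2 (fun y z => Y (Function.update (Function.update X a y) b z)) := by
    intro a b hab Y hY X
    have e := ((h12 ι ℓ a b hℓ hab).2 Y hY).1
    exact b4 ((ι → E) × (E × E)) (E × E)
      (fun p : (ι → E) × (E × E) => Y (Function.update (Function.update p.1 a p.2.1) b p.2.2))
      (fun q => (X, q)) e (by fun_prop)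
  have s3 : ∀ X : ι → E,
      ∫ y, ∫ z, H (Function.update (Function.update X j y) k z) ∂(nuc ℓ) ∂(nuc ℓ) =
      Qf ℓ κ (fun x => ∫ y, ∫ z, φ x y z * A' (Function.update (Function.update X j y) k z)
          ∂(nuc ℓ) ∂(nuc ℓ))
        (fun x => ∫ y, ∫ z, φ x y z * A (Function.update (Function.update X l y) m z)
          ∂(nuc ℓ) ∂(nuc ℓ)) := by
    intro X
    rw [← h9 ℓ C κ φ (fun y z => A' (Function.update (Function.update X j y) k z))
      (fun y z => A (Function.update (Function.update X l y) m z)) hℓ hκ hφ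
      (hsl j k hjk A' hA' X) (hsl l m hlm A hA X)]
    simp only [hHd, hval]
  have s4 : ∀ X : ι → E,
      ‖∫ y, ∫ z, H (Function.update (Function.update X j y) k z) ∂(nuc ℓ) ∂(nuc ℓ)‖ ≤
      PB ℓ φ l m A X + PB ℓ φ j k A' X := by
    intro X
    rw [s3 X, Real.norm_eq_abs]
    obtain ⟨c1, d1⟩ := h8 ℓ φ (fun y z => A' (Function.update (Function.update X j y) k z)) hℓ hφ
      (hsl j k hjk A' hA' X)
    obtain ⟨c2, d2⟩ := h8 ℓ φ (fun y z => A (Function.update (Function.update X l y) m z)) hℓ hφ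
      (hsl l m hlm A hA X)
    have q := (h10 ℓ C κ hℓ hκ).1 _ _ c1 c2
    simp only [d1, d2] at q
    have p1 : ∑ c, ∫ x, (∫ y, ∫ z, dk c φ x y z *
        A' (Function.update (Function.update X j y) k z) ∂(nuc ℓ) ∂(nuc ℓ)) ^ 2 ∂(nuc ℓ) =
        PB ℓ φ j k A' X := rfl
    have p2 : ∑ c, ∫ x, (∫ y, ∫ z, dk c φ x y z *
        A (Function.update (Function.update X l y) m z) ∂(nuc ℓ) ∂(nuc ℓ)) ^ 2 ∂(nuc ℓ) =
        PB ℓ φ l m A X := rfl
    rw [p1, p2] at q
    have n1 : 0 ≤ PB ℓ φ j k A' X :=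
      Finset.sum_nonneg fun c _ => integral_nonneg fun x => sq_nonneg _
    have n2 : 0 ≤ PB ℓ φ l m A X :=
      Finset.sum_nonneg fun c _ => integral_nonneg fun x => sq_nonneg _
    have r1 := Real.sq_sqrt n1
    have r2 := Real.sq_sqrt n2
    nlinarith [sq_nonneg (Real.sqrt (PB ℓ φ j k A' X) - Real.sqrt (PB ℓ φ l m A X))]
  have i1 : Integrable (PB ℓ φ l m A) (PiM ι ℓ) :=
    (b1 _ _ _ (bm_PB h1 h2 h12 hℓ hφ hlm hA) hA).2.2.2.2.2.2 (PiM ι ℓ)
  have i2 : Integrable (PB ℓ φ j k A') (PiM ι ℓ) :=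
    (b1 _ _ _ (bm_PB h1 h2 h12 hℓ hφ hjk hA') hA).2.2.2.2.2.2 (PiM ι ℓ)
  have s5 : Bf ℓ κ φ u i j k l m = ∫ X, F X ∂(PiM ι ℓ) := rfl
  rw [s5, s1, s2]
  have s6 := norm_integral_le_of_norm_le (i1.add i2) (Eventually.of_forall s4)
  rw [Real.norm_eq_abs] at s6
  refine s6.trans (le_of_eq ?_)
  have s7 : ∫ X, (PB ℓ φ l m A + PB ℓ φ j k A') X ∂(PiM ι ℓ) =
      ∫ X, PB ℓ φ l m A X ∂(PiM ι ℓ) + ∫ X, PB ℓ φ j k A' X ∂(PiM ι ℓ) := integral_add i1 i2
  exact s7

end Pool.Agent.TBL
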