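import Pool.Agent.TBL.Stmts

set_option autoImplicit false

open MeasureTheory Filter Topology

namespace Pool.Agent.TBL

open Pool.Agent.TBG

theorem bze_proof (_hPQF : Stmt_PQF) (hATF : Stmt_ATF) (hQIA : Stmt_QIA) (hGBB : Stmt_GBB)
    (hBZA : Stmt_BZA) : Stmt_BZE := by
  intro C hC
  obtain ⟨C₂, hC₂, H⟩ := hGBB C hC
  refine ⟨C₂, hC₂, ?_⟩
  intro ι _ _ V ℓ b φ w q g κ u i j k l m hℓ hKer hRsv hu hnd
  have hℓ0 : 0 < ℓ := lt_of_lt_of_le one_pos hℓ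
  have hnd' := hnd
  simp only [List.nodup_cons, List.mem_cons, List.not_mem_nil, or_false, not_or, not_false_eq_true,
    List.nodup_nil, and_true] at hnd'
  obtain ⟨⟨hij, hik, hil, him⟩, ⟨hjk, hjl, hjm⟩, ⟨hkl, hkm⟩, hlm⟩ := hnd'
  have h1 := hBZA ι ℓ C φ κ u i j k l m hℓ0 hKer.sk hRsv hu hnd
  have a1 := hATF ι ℓ hℓ0 i j k u hu
  have a2 := hATF ι ℓ hℓ0 i l m u hu
  obtain ⟨bA1, -, -, -, -, -, -, n1, -⟩ := a1
  obtain ⟨bA2, -, -, -, -, -, -, n2, -⟩ := a2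
  have g1 := H ι V ℓ b φ w q g κ (A3 ℓ i j k u) l m hℓ hKer hRsv bA1 hlm
  have g2 := H ι V ℓ b φ w q g κ (A3 ℓ i l m u) j k hℓ hKer hRsv bA2 hjk
  have q1' := (hQIA ι ℓ C κ u l hℓ0 hRsv hu).2.2.2 i j k hil hjl hkl
  have q2' := (hQIA ι ℓ C κ u j hℓ0 hRsv hu).2.2.2 i l m hij (Ne.symm hjl) (Ne.symm hjm)
  have q3 := (hQIA ι ℓ C κ u m hℓ0 hRsv hu).1
  have q4 := (hQIA ι ℓ C κ u k hℓ0 hRsv hu).1
  have c10 : 0 ≤ C₂ / ℓ ^ 10 := by positivity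
  have c8 : 0 ≤ C₂ / ℓ ^ 8 := by positivity
  have m1 := mul_le_mul_of_nonneg_left (n1 l) c10
  have m2 := mul_le_mul_of_nonneg_left (n1 m) c10
  have m3 := mul_le_mul_of_nonneg_left (n2 j) c10
  have m4 := mul_le_mul_of_nonneg_left (n2 k) c10
  have m5 := mul_le_mul_of_nonneg_left q1' c8
  have m6 := mul_le_mul_of_nonneg_left q2' c8
  have m7 := mul_nonneg c8 q3
  have m8 := mul_nonneg c8 q4
  have h2 := le_abs_self (Bf ℓ κ φ u i j k l m)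
  rw [mul_add] at g1 g2
  linarith

end Pool.Agent.TBL
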