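import Pool.Agent.TBL.Stmts

/-!
# Squad TBL, module CAR: arithmetic of the bound in a cube
-/

set_option autoImplicit false

open MeasureTheory Filter Topology
open scoped ContDiff

namespace Pool.Agent.TBL

open Pool.Agent.TBG

namespace CAR_

theorem core (b C C₃ g₀ e N U Np Sq SB Sg SA qb T En : ℝ) (hb : 0 < b) (hC : 0 < C) (hC₃ : 0 < C₃)
    (he : 0 < e) (heb : (C + C₃) * e ≤ b) (hN : 0 ≤ N) (hN1 : 0 ≤ (N - 1) * (N - 2))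
    (hN2 : (N - 1) * (N - 2) * Np ≤ N ^ 2 * Np)
    (_hg : 0 ≤ g₀) (hg1 : C₃ * g₀ ^ 2 ≤ 1 / 12) (hg2 : g₀ * b / 2 + C₃ * g₀ ^ 2 + C * g₀ ≤ 1 / 12)
    (hn : N ^ 2 * e ^ 4 ≤ g₀) (hU : 0 ≤ U) (hNp : 0 ≤ Np) (hSA : 0 ≤ SA)
    (h0 : e ^ 2 * Np ≤ Sq)
    (h1 : 1 / 6 * Sq - SB + 1 / 3 * Sg - 1 / 6 * qb * SA ≤ En)
    (h2 : SB ≤ 1 / 6 * (3 * T + C₃ * e ^ 7) * SA + C₃ * N ^ 4 * e ^ 9 * U + C₃ * N ^ 4 * e ^ 10 * Np
      + C₃ * N ^ 4 * e ^ 8 * Sq)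
    (h3 : b * e ^ 6 * SA - 3 * (N ^ 2 * (C * e ^ 6) * (Np + 1 / 2 * U)) ≤ Sg)
    (h4 : b * e ^ 6 - C * e ^ 7 ≤ 2 * (b * e ^ 6) - qb - 3 * T)
    (h5 : N * (N - 1) * (N - 2) * U - 3 * ((N - 1) * (N - 2)) * Np ≤ SA) :
    (b * N ^ 3 * e ^ 6 / 6 - ((C + C₃) / 6 + b / 2 + C / 2 + C₃) *
      (N ^ 3 * e ^ 7 + N ^ 2 * e ^ 6 + N ^ 4 * e ^ 9)) * U ≤ En := by
  have he6 : 0 < e ^ 6 := by positivity
  have he2 : 0 < e ^ 2 := by positivity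
  have hk : 0 ≤ b * e ^ 6 - (C + C₃) * e ^ 7 := by
    have : (C + C₃) * e * e ^ 6 ≤ b * e ^ 6 := mul_le_mul_of_nonneg_right heb he6.le
    nlinarith
  have hkb : b * e ^ 6 - (C + C₃) * e ^ 7 ≤ b * e ^ 6 := by
    have : 0 ≤ (C + C₃) * e ^ 7 := by positivity
    linarith
  have hSq : 0 ≤ Sq := le_trans (by positivity) h0
  set k := b * e ^ 6 - (C + C₃) * e ^ 7 with hkdef
  have s1 : (1 / 6 - C₃ * N ^ 4 * e ^ 8) * Sq + 1 / 6 * (2 * (b * e ^ 6) - qb - 3 * T - C₃ * e ^ 7) * SA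
      - C₃ * N ^ 4 * e ^ 9 * U - C₃ * N ^ 4 * e ^ 10 * Np - N ^ 2 * (C * e ^ 6) * (Np + 1 / 2 * U) ≤ En := by
    nlinarith [h1, h2, h3]
  have s2 : k * SA ≤ (2 * (b * e ^ 6) - qb - 3 * T - C₃ * e ^ 7) * SA := by
    refine mul_le_mul_of_nonneg_right ?_ hSA
    rw [hkdef]
    linarith
  have s3 : k * (N * (N - 1) * (N - 2) * U - 3 * ((N - 1) * (N - 2)) * Np) ≤ k * SA :=
    mul_le_mul_of_nonneg_left h5 hk
  have s4 : (N ^ 3 * k - 3 * N ^ 2 * (b * e ^ 6)) * U ≤ k * (N * (N - 1) * (N - 2)) * U := by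
    refine mul_le_mul_of_nonneg_right ?_ hU
    have t1 : N ^ 2 * k ≤ N ^ 2 * (b * e ^ 6) := mul_le_mul_of_nonneg_left hkb (by positivity)
    have t2 : 0 ≤ N * k := mul_nonneg hN hk
    nlinarith
  have s5 : k * ((N - 1) * (N - 2) * Np) ≤ b * e ^ 6 * (N ^ 2 * Np) :=
    mul_le_mul hkb hN2 (mul_nonneg hN1 hNp) (by positivity)
  have hn4 : N ^ 4 * e ^ 8 ≤ g₀ ^ 2 := by
    have : (N ^ 2 * e ^ 4) ^ 2 ≤ g₀ ^ 2 := pow_le_pow_left₀ (by positivity) hn 2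
    nlinarith
  have s6 : N ^ 2 * e ^ 6 * Np ≤ g₀ * (e ^ 2 * Np) := by
    have : N ^ 2 * e ^ 4 * (e ^ 2 * Np) ≤ g₀ * (e ^ 2 * Np) :=
      mul_le_mul_of_nonneg_right hn (by positivity)
    nlinarith
  have s7 : N ^ 4 * e ^ 10 * Np ≤ g₀ ^ 2 * (e ^ 2 * Np) := by
    have : N ^ 4 * e ^ 8 * (e ^ 2 * Np) ≤ g₀ ^ 2 * (e ^ 2 * Np) :=
      mul_le_mul_of_nonneg_right hn4 (by positivity)
    nlinarith
  have s8 : C₃ * (N ^ 4 * e ^ 8) * Sq ≤ 1 / 12 * Sq := by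
    refine mul_le_mul_of_nonneg_right ?_ hSq
    exact (mul_le_mul_of_nonneg_left hn4 hC₃.le).trans hg1
  have s9 : (g₀ * b / 2 + C₃ * g₀ ^ 2 + C * g₀) * (e ^ 2 * Np) ≤ 1 / 12 * (e ^ 2 * Np) :=
    mul_le_mul_of_nonneg_right hg2 (by positivity)
  have s10 : b * (N ^ 2 * e ^ 6 * Np) ≤ b * (g₀ * (e ^ 2 * Np)) := mul_le_mul_of_nonneg_left s6 hb.le
  have s11 : C * (N ^ 2 * e ^ 6 * Np) ≤ C * (g₀ * (e ^ 2 * Np)) := mul_le_mul_of_nonneg_left s6 hC.le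
  have s12 : C₃ * (N ^ 4 * e ^ 10 * Np) ≤ C₃ * (g₀ ^ 2 * (e ^ 2 * Np)) :=
    mul_le_mul_of_nonneg_left s7 hC₃.le
  have p1 : 0 ≤ N ^ 3 * e ^ 7 * U := by positivity
  have p2 : 0 ≤ N ^ 2 * e ^ 6 * U := by positivity
  have p3 : 0 ≤ N ^ 4 * e ^ 9 * U := by positivity
  -- the terms with `U`
  have u1 : (b * N ^ 3 * e ^ 6 / 6 - ((C + C₃) / 6 + b / 2 + C / 2 + C₃) *
      (N ^ 3 * e ^ 7 + N ^ 2 * e ^ 6 + N ^ 4 * e ^ 9)) * U ≤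
      1 / 6 * ((N ^ 3 * k - 3 * N ^ 2 * (b * e ^ 6)) * U) - C₃ * N ^ 4 * e ^ 9 * U
        - N ^ 2 * (C * e ^ 6) * (1 / 2 * U) := by
    rw [hkdef]
    have q1 : 0 ≤ (b / 2 + C / 2 + C₃) * (N ^ 3 * e ^ 7 * U) := by positivity
    have q2 : 0 ≤ ((C + C₃) / 6 + C₃) * (N ^ 2 * e ^ 6 * U) := by positivity
    have q3 : 0 ≤ ((C + C₃) / 6 + b / 2 + C / 2) * (N ^ 4 * e ^ 9 * U) := by positivity
    nlinarith [q1, q2, q3]
  linarith [s1, s2, s3, s4, s5, s8, s9, s10, s11, s12, u1, h0]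

end CAR_

open CAR_ in
theorem car_proof : Stmt_CAR := by
  intro b C C₃ hb hC hC₃
  have hs : 0 < 1 + b + C + C₃ := by positivity
  have hg0 : 0 < 1 / (12 * (1 + b + C + C₃)) := by positivity
  refine ⟨(C + C₃) / 6 + b / 2 + C / 2 + C₃, 1 / (12 * (1 + b + C + C₃)), 1 + (C + C₃) / b,
    by positivity, hg0, ?_, ?_⟩
  · have : 0 < (C + C₃) / b := by positivity
    linarith
  intro n ℓ U Np Sq SB Sg SA qb T En hℓ hn hU hNp hSA hn0 h0 h1 h2 h3 h4 h5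
  have hCb : 0 < (C + C₃) / b := by positivity
  have hℓ0 : 0 < ℓ := by linarith
  set g₀ := 1 / (12 * (1 + b + C + C₃)) with hg
  have hgs : g₀ * (1 + b + C + C₃) = 1 / 12 := by
    rw [hg]
    field_simp
  have hgle : g₀ ≤ 1 := by
    rw [hg, div_le_one (by positivity)]
    linarith
  have hgsq : g₀ ^ 2 ≤ g₀ := by nlinarith
  have hg1 : C₃ * g₀ ^ 2 ≤ 1 / 12 := by
    have : C₃ * g₀ ^ 2 ≤ C₃ * g₀ := mul_le_mul_of_nonneg_left hgsq hC₃.le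
    nlinarith [mul_pos hb hg0, mul_pos hC hg0]
  have hg2 : g₀ * b / 2 + C₃ * g₀ ^ 2 + C * g₀ ≤ 1 / 12 := by
    have : C₃ * g₀ ^ 2 ≤ C₃ * g₀ := mul_le_mul_of_nonneg_left hgsq hC₃.le
    nlinarith [mul_pos hb hg0, mul_pos hC hg0]
  have hpow : ∀ (m : ℕ) (x : ℝ), x / ℓ ^ m = x * (1 / ℓ) ^ m := by
    intro m x
    rw [one_div, inv_pow, div_eq_mul_inv]
  have he : 0 < 1 / ℓ := by positivity
  have heb : (C + C₃) * (1 / ℓ) ≤ b := by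
    rw [mul_one_div, div_le_iff₀ hℓ0]
    have h6 : (C + C₃) / b ≤ ℓ := by linarith
    rw [div_le_iff₀ hb] at h6
    linarith
  have hN1 : 0 ≤ ((n : ℝ) - 1) * ((n : ℝ) - 2) := by
    rcases Nat.lt_or_ge n 2 with h | h
    · interval_cases n <;> norm_num
    · have : (2 : ℝ) ≤ n := by exact_mod_cast h
      exact mul_nonneg (by linarith) (by linarith)
  have hN2 : ((n : ℝ) - 1) * ((n : ℝ) - 2) * Np ≤ (n : ℝ) ^ 2 * Np := by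
    rcases Nat.eq_zero_or_pos n with h | h
    · rw [hn0 h]
      simp
    · refine mul_le_mul_of_nonneg_right ?_ hNp
      have : (1 : ℝ) ≤ n := by exact_mod_cast h
      nlinarith
  have hn' : (n : ℝ) ^ 2 * (1 / ℓ) ^ 4 ≤ g₀ := by
    rw [← hpow, div_le_iff₀ (by positivity)]
    exact hn
  have key := core b C C₃ g₀ (1 / ℓ) n U Np Sq SB Sg SA qb T En hb hC hC₃ he heb (Nat.cast_nonneg n) hN1 hN2
    hg0.le hg1 hg2 hn' hU hNp hSA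
    (by
      have : (ℓ ^ 2)⁻¹ = (1 / ℓ) ^ 2 := by rw [one_div, inv_pow]
      rw [← this]
      exact h0)
    h1
    (by
      simp only [hpow] at h2
      exact h2)
    (by
      simp only [hpow] at h3
      exact h3)
    (by
      simp only [hpow] at h4
      exact h4)
    h5
  have e1 : b * (n : ℝ) ^ 3 / (6 * ℓ ^ 6) = b * (n : ℝ) ^ 3 * (1 / ℓ) ^ 6 / 6 := by
    rw [← hpow]
    field_simp
  rw [e1]
  simp only [hpow]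
  exact key

end Pool.Agent.TBL
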