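import Pool.Agent.TBL.Stmts

/-! # CEL: the cells of the grid -/

set_option autoImplicit false

open MeasureTheory Filter Topology

namespace Pool.Agent.TBL

open Pool.Agent.TBG

namespace CEL_

/-- the cell with index `k` -/
def ce (ℓ : ℝ) (m : ℕ) (k : Fin 3 → ℤ) : Set E :=
  {y | ∀ c, (k c : ℝ) * (ℓ / m) ≤ y c ∧ y c < ((k c : ℝ) + 1) * (ℓ / m)}

theorem preim (ℓ : ℝ) (m : ℕ) (k : Fin 3 → ℤ) : (MeasurableEquiv.toLp 2 (Fin 3 → ℝ)) ⁻¹' (ce ℓ m k)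
    = Set.pi Set.univ (fun c : Fin 3 => Set.Ico ((k c : ℝ) * (ℓ / m)) (((k c : ℝ) + 1) * (ℓ / m))) := by
  ext x
  constructor
  · intro h c _
    exact h c
  · intro h c
    exact h c (Set.mem_univ c)

theorem meas (ℓ : ℝ) (m : ℕ) (k : Fin 3 → ℤ) : MeasurableSet (ce ℓ m k) := by
  have h : MeasurableSet ((MeasurableEquiv.toLp 2 (Fin 3 → ℝ)) ⁻¹' (ce ℓ m k)) := by
    rw [preim]
    exact MeasurableSet.univ_pi (fun _ => measurableSet_Ico)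
  exact (MeasurableEquiv.measurableSet_preimage _).mp h

theorem vol {ℓ : ℝ} (hℓ : 0 < ℓ) (m : ℕ) (k : Fin 3 → ℤ) :
    volume (ce ℓ m k) = ENNReal.ofReal ((ℓ / m) ^ 3) := by
  have hp := (EuclideanSpace.volume_preserving_symm_measurableEquiv_toLp (Fin 3)).symm
  have h1 := hp.measure_preimage (meas ℓ m k).nullMeasurableSet
  rw [← h1]
  have h2 : (MeasurableEquiv.toLp 2 (Fin 3 → ℝ)).symm.symm ⁻¹' (ce ℓ m k)
    = Set.pi Set.univ (fun c : Fin 3 => Set.Ico ((k c : ℝ) * (ℓ / m)) (((k c : ℝ) + 1) * (ℓ / m))) :=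
    preim ℓ m k
  have h3 : ∀ c : Fin 3, ((k c : ℝ) + 1) * (ℓ / m) - (k c : ℝ) * (ℓ / m) = ℓ / m := by
    intro c
    ring
  rw [h2, volume_pi_pi]
  simp only [Real.volume_Ico, h3, Finset.prod_const, Finset.card_univ, Fintype.card_fin]
  rw [← ENNReal.ofReal_pow (by positivity)]

theorem floor_iff {ℓ : ℝ} (hℓ : 0 < ℓ) {m : ℕ} (hm : 0 < m) (k : ℤ) (t : ℝ) :
    k = ⌊(m : ℝ) * t / ℓ⌋ ↔ (k : ℝ) * (ℓ / m) ≤ t ∧ t < ((k : ℝ) + 1) * (ℓ / m) := by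
  have hm' : (0 : ℝ) < m := by exact_mod_cast hm
  rw [eq_comm, Int.floor_eq_iff, le_div_iff₀ hℓ, div_lt_iff₀ hℓ]
  have e1 : (k : ℝ) * (ℓ / m) = (k : ℝ) * ℓ / m := by ring
  have e2 : ((k : ℝ) + 1) * (ℓ / m) = ((k : ℝ) + 1) * ℓ / m := by ring
  rw [e1, e2, div_le_iff₀ hm', lt_div_iff₀ hm', mul_comm t]

theorem same_iff {ℓ : ℝ} (hℓ : 0 < ℓ) {m : ℕ} (hm : 0 < m) (x y : E) :
    Same ℓ m x y ↔ y ∈ ce ℓ m (fun c => ⌊(m : ℝ) * x c / ℓ⌋) := by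
  unfold Same ce
  refine forall_congr' fun c => ?_
  exact floor_iff hℓ hm _ _

open Classical in
theorem cell_eq {ℓ : ℝ} (hℓ : 0 < ℓ) {m : ℕ} (hm : 0 < m) (x : E) :
    (fun y => cell ℓ m x y) =
      (ce ℓ m (fun c => ⌊(m : ℝ) * x c / ℓ⌋)).indicator (fun _ => (1 : ℝ)) := by
  funext y
  unfold cell
  rw [Set.indicator_apply]
  by_cases h : Same ℓ m x y
  · rw [if_pos h, if_pos ((same_iff hℓ hm x y).1 h)]
  · rw [if_neg h, if_neg (fun h' => h ((same_iff hℓ hm x y).2 h'))]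

theorem cell_one {ℓ : ℝ} {m : ℕ} {x y : E} : cell ℓ m x y = 1 ↔ Same ℓ m x y := by
  classical
  unfold cell
  by_cases h : Same ℓ m x y
  · simp [h]
  · simp [h]

/-- the integral -/
theorem int_cell {ℓ : ℝ} (hMES : Stmt_MES) (hℓ : 0 < ℓ) {m : ℕ} (hm : 0 < m) (x : E) :
    ∫ y, cell ℓ m x y ∂(nuc ℓ) =
      (ℓ ^ 3)⁻¹ * (volume (ce ℓ m (fun c => ⌊(m : ℝ) * x c / ℓ⌋) ∩ Lam ℓ)).toReal := by
  obtain ⟨_, _, _, _, h5, _⟩ := hMES ℓ hℓ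
  rw [h5, cell_eq hℓ hm x, integral_indicator (meas _ _ _), setIntegral_const, smul_eq_mul, mul_one]
  congr 1
  rw [measureReal_def, Measure.restrict_apply (meas _ _ _)]

theorem ce_sub {ℓ : ℝ} (hℓ : 0 < ℓ) {m : ℕ} (hm : 0 < m) {x : E}
    (hx : ∀ c, 0 < x c ∧ x c < ℓ) : ce ℓ m (fun c => ⌊(m : ℝ) * x c / ℓ⌋) ⊆ Lam ℓ := by
  have hm' : (0 : ℝ) < m := by exact_mod_cast hm
  intro y hy c
  obtain ⟨h1, h2⟩ := hy c
  obtain ⟨h3, h4⟩ := hx c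
  have hk0 : (0 : ℤ) ≤ ⌊(m : ℝ) * x c / ℓ⌋ := Int.floor_nonneg.2 (by positivity)
  have hkm : ⌊(m : ℝ) * x c / ℓ⌋ + 1 ≤ (m : ℤ) := by
    have h5 : (m : ℝ) * x c / ℓ < (m : ℤ) := by
      rw [div_lt_iff₀ hℓ]
      push_cast
      exact mul_lt_mul_of_pos_left h4 hm'
    have := Int.floor_lt.2 h5
    omega
  have hk0' : (0 : ℝ) ≤ ((⌊(m : ℝ) * x c / ℓ⌋ : ℤ) : ℝ) := by exact_mod_cast hk0
  have hkm' : ((⌊(m : ℝ) * x c / ℓ⌋ : ℤ) : ℝ) + 1 ≤ (m : ℝ) := by exact_mod_cast hkm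
  have hp : 0 ≤ ℓ / m := by positivity
  refine ⟨le_trans (mul_nonneg hk0' hp) h1, h2.le.trans ?_⟩
  refine (mul_le_mul_of_nonneg_right hkm' hp).trans (le_of_eq ?_)
  field_simp

/-- the cells are nested -/
theorem nest {ℓ : ℝ} (hℓ : 0 < ℓ) {m m' : ℕ} (hm : 0 < m) (hm' : 0 < m') (hd : m ∣ m') (s t : ℝ)
    (h : ⌊(m' : ℝ) * s / ℓ⌋ = ⌊(m' : ℝ) * t / ℓ⌋) : ⌊(m : ℝ) * s / ℓ⌋ = ⌊(m : ℝ) * t / ℓ⌋ := by
  obtain ⟨q, rfl⟩ := hd
  have hq : 0 < q := Nat.pos_of_mul_pos_left hm'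
  have hq' : (q : ℝ) ≠ 0 := by
    have : (0 : ℝ) < q := by exact_mod_cast hq
    exact this.ne'
  have key : ∀ t : ℝ, ⌊(m : ℝ) * t / ℓ⌋ = ⌊((m * q : ℕ) : ℝ) * t / ℓ⌋ / (q : ℤ) := by
    intro t
    have e1 : (m : ℝ) * t / ℓ = ((m * q : ℕ) : ℝ) * t / ℓ / (q : ℝ) := by
      push_cast
      field_simp
    rw [e1, Int.floor_div_natCast]
  rw [key s, key t, h]

theorem meas_cell {ℓ : ℝ} {m : ℕ} : Measurable (fun p : E × E => cell ℓ m p.1 p.2) := by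
  classical
  unfold cell
  refine Measurable.ite ?_ measurable_const measurable_const
  have h1 : {p : E × E | Same ℓ m p.1 p.2} =
      ⋂ c : Fin 3, {p : E × E | ⌊(m : ℝ) * p.1 c / ℓ⌋ = ⌊(m : ℝ) * p.2 c / ℓ⌋} := by
    ext p
    simp only [Set.mem_iInter, Set.mem_ofPred_eq]
    rfl
  rw [h1]
  refine MeasurableSet.iInter fun c => ?_
  refine measurableSet_eq_fun ?_ ?_
  · refine Int.measurable_floor.comp ?_
    fun_prop
  · refine Int.measurable_floor.comp ?_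
    fun_prop

end CEL_

open CEL_ in
theorem cel_proof (hMES : Stmt_MES) : Stmt_CEL := by
  classical
  intro ℓ m hℓ hm
  have hm' : (0 : ℝ) < m := by exact_mod_cast hm
  obtain ⟨g1, _, g3, g4, g5, g6, _⟩ := hMES ℓ hℓ
  have hv : ∀ k : Fin 3 → ℤ, (volume (ce ℓ m k)).toReal = (ℓ / m) ^ 3 := by
    intro k
    rw [vol hℓ, ENNReal.toReal_ofReal (by positivity)]
  have hone : (m : ℝ) ^ 3 * ((ℓ ^ 3)⁻¹ * (ℓ / m) ^ 3) = 1 := by
    field_simp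
  refine ⟨⟨meas_cell, 1, ?_⟩, ?_, ?_, ?_, ?_, ?_, ?_, ?_⟩
  · intro p
    show |cell ℓ m p.1 p.2| ≤ 1
    unfold cell
    split_ifs <;> simp
  · intro x y
    unfold cell
    split_ifs <;> simp
  · intro x y
    have h : Same ℓ m x y ↔ Same ℓ m y x :=
      ⟨fun h c => (h c).symm, fun h c => (h c).symm⟩
    unfold cell
    by_cases h1 : Same ℓ m x y
    · rw [if_pos h1, if_pos (h.1 h1)]
    · rw [if_neg h1, if_neg (fun h2 => h1 (h.2 h2))]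
  · intro x y z h
    rw [cell_one] at h
    have h' : Same ℓ m x z ↔ Same ℓ m y z :=
      ⟨fun h1 c => (h c).symm.trans (h1 c), fun h1 c => (h c).trans (h1 c)⟩
    unfold cell
    by_cases h1 : Same ℓ m x z
    · rw [if_pos h1, if_pos (h'.1 h1)]
    · rw [if_neg h1, if_neg (fun h2 => h1 (h'.2 h2))]
  · intro x
    rw [int_cell hMES hℓ hm x, ← hone]
    refine mul_le_mul_of_nonneg_left (mul_le_mul_of_nonneg_left ?_ (by positivity)) (by positivity)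
    rw [← hv (fun c => ⌊(m : ℝ) * x c / ℓ⌋)]
    refine ENNReal.toReal_mono ?_ (measure_mono Set.inter_subset_left)
    rw [vol hℓ]
    exact ENNReal.ofReal_ne_top
  · filter_upwards [g6] with x hx
    rw [int_cell hMES hℓ hm x, Set.inter_eq_left.2 (ce_sub hℓ hm hx.2), hv, hone]
  · intro m₁ hm₁ hd x y h
    rw [cell_one] at h ⊢
    exact fun c => nest hℓ hm hm₁ hd _ _ (h c)
  · filter_upwards [g6] with x hx
    filter_upwards [g6] with y hy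
    rw [cell_one]
    intro c
    have key : ∀ t : ℝ, 0 < t → t < ℓ → ⌊((1 : ℕ) : ℝ) * t / ℓ⌋ = 0 := by
      intro t ht ht'
      rw [Int.floor_eq_zero_iff]
      constructor
      · positivity
      · rw [div_lt_one hℓ]
        simpa using ht'
    rw [key _ (hx.2 c).1 (hx.2 c).2, key _ (hy.2 c).1 (hy.2 c).2]

end Pool.Agent.TBL
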