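import Pool.Agent.TBL.Stmts

/-!
# Three-body Bose gases (MP_80dc41_mp), lower bound: counting
-/

set_option autoImplicit false
set_option linter.unusedSimpArgs false

open MeasureTheory Filter Topology

namespace Pool.Agent.TBL

open Pool.Agent.TBG

namespace CMB_

variable {ι : Type} [Fintype ι] [DecidableEq ι]

theorem mem_D2 (i : ι) (p : ι × ι) : p ∈ D2 i ↔ i ≠ p.1 ∧ i ≠ p.2 ∧ p.1 ≠ p.2 := by simp [D2]

theorem big (F : ι → ι × ι → ι × ι → ℝ) (hF : ∀ i p p', 0 ≤ F i p p') :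
    ∑ i, ∑ p ∈ D2 i, ∑ p' ∈ D2 i, F i p p' ≤ ∑ i, ∑ j, ∑ k, ∑ l, ∑ m, F i (j, k) (l, m) := by
  apply Finset.sum_le_sum
  intro i _
  have h1 : ∀ p, ∑ p' ∈ D2 i, F i p p' ≤ ∑ p', F i p p' := fun p =>
    Finset.sum_le_sum_of_subset_of_nonneg (Finset.subset_univ _) (fun p' _ _ => hF i p p')
  have h2 : ∑ p ∈ D2 i, ∑ p' ∈ D2 i, F i p p' ≤ ∑ p, ∑ p', F i p p' :=
    (Finset.sum_le_sum (fun p _ => h1 p)).trans
      (Finset.sum_le_sum_of_subset_of_nonneg (Finset.subset_univ _)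
        (fun p _ _ => Finset.sum_nonneg (fun p' _ => hF i p p')))
  refine h2.trans (le_of_eq ?_)
  rw [Fintype.sum_prod_type]
  refine Finset.sum_congr rfl (fun j _ => Finset.sum_congr rfl (fun k _ => ?_))
  rw [Fintype.sum_prod_type]

theorem D3sum (a : ι → ι → ι → ℝ) : ∑ t ∈ D3 ι, a t.1 t.2.1 t.2.2 = ∑ i, ∑ p ∈ D2 i, a i p.1 p.2 := by
  unfold D3 D2
  simp only [Finset.sum_filter]
  rw [Fintype.sum_prod_type]

theorem point (B : ι → ι → ι → ι → ι → ℝ)
    (a : ι → ι → ι → ℝ) (s : ℝ) (e : ι → ℝ) (hs : 0 ≤ s) (he : ∀ l, 0 ≤ e l)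
    (h1 : ∀ i j k, i ≠ j → i ≠ k → j ≠ k → B i j k j k ≤ a i j k ∧ B i j k k j ≤ a i j k)
    (h2 : ∀ i j k l, [i, j, k, l].Nodup → B i j k j l ≤ s ∧ B i j k l j ≤ s ∧ B i k j j l ≤ s ∧ B i k j l j ≤ s)
    (h3 : ∀ i j k l m, [i, j, k, l, m].Nodup → B i j k l m ≤ e l + e m + e j + e k)
    (i : ι) (p p' : ι × ι) (hp : p ∈ D2 i) (hp' : p' ∈ D2 i) :
    B i p.1 p.2 p'.1 p'.2 ≤ (if p' = p then a i p.1 p.2 else 0) + (if p' = (p.2, p.1) then a i p.1 p.2 else 0)
      + ((if p'.1 = p.1 then s else 0) + (if p'.2 = p.1 then s else 0) + (if p'.1 = p.2 then s else 0)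
      + (if p'.2 = p.2 then s else 0)) + (e p'.1 + e p'.2 + e p.1 + e p.2) := by
  rw [mem_D2] at hp hp'
  obtain ⟨j, k⟩ := p
  obtain ⟨l, m⟩ := p'
  obtain ⟨hij, hik, hjk⟩ := hp
  obtain ⟨hil, him, hlm⟩ := hp'
  simp only [Prod.mk.injEq] at *
  have e1 := he j
  have e2 := he k
  have e3 := he l
  have e4 := he m
  by_cases c1 : l = j
  · subst c1
    by_cases c2 : m = k
    · subst c2
      have := (h1 i l m hij hik hjk).1
      simp only [true_and, and_self, if_true, hjk, hjk.symm, if_false, and_false, false_and]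
      linarith
    · have := (h2 i l k m (by simp [hij, hik, him, hjk, hlm, Ne.symm c2])).1
      simp only [true_and, if_true, hjk, hlm.symm, c2, if_false, and_false, false_and]
      linarith
  · by_cases c2 : m = k
    · subst c2
      have := (h2 i m j l (by simp [hik, hij, hil, hjk.symm, hlm.symm, Ne.symm c1])).2.2.2
      simp only [hjk.symm, hlm, c1, if_true, if_false, and_false, false_and]
      linarith
    · by_cases c3 : l = k
      · subst c3
        by_cases c4 : m = j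
        · subst c4
          have := (h1 i m l hij hik hjk).2
          simp only [c1, hjk, hlm.symm, if_true, if_false, and_false, false_and, and_self]
          linarith
        · have := (h2 i l j m (by simp [hil, hij, him, hjk.symm, hlm, Ne.symm c4])).2.2.1
          simp only [c1, c2, c4, if_true, if_false, and_false, false_and]
          linarith
      · by_cases c4 : m = j
        · subst c4
          have := (h2 i m k l (by simp [him, hik, hil, hjk, hlm.symm, Ne.symm c3])).2.1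
          simp only [c1, c2, c3, if_true, if_false, and_false, false_and]
          linarith
        · have := h3 i j k l m (by simp [hij, hik, hil, him, hjk, hlm, Ne.symm c1, Ne.symm c2, Ne.symm c3, Ne.symm c4])
          simp only [c1, c2, c3, c4, if_false, and_false, false_and]
          linarith

end CMB_

open CMB_ in
theorem cmb_proof : Stmt_CMB := by
  intro ι _ _ B a s e hs he h1 h2 h3
  have hsum : ∑ i, ∑ p ∈ D2 i, ∑ p' ∈ D2 i, B i p.1 p.2 p'.1 p'.2 ≤
      ∑ i : ι, ∑ p ∈ D2 i, ∑ p' ∈ D2 i, ((if p' = p then a i p.1 p.2 else 0)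
      + (if p' = (p.2, p.1) then a i p.1 p.2 else 0)
      + ((if p'.1 = p.1 then s else 0) + (if p'.2 = p.1 then s else 0) + (if p'.1 = p.2 then s else 0)
      + (if p'.2 = p.2 then s else 0)) + (e p'.1 + e p'.2 + e p.1 + e p.2)) :=
    Finset.sum_le_sum (fun i _ => Finset.sum_le_sum (fun p hp => Finset.sum_le_sum (fun p' hp' =>
      point B a s e hs he h1 h2 h3 i p p' hp hp')))
  refine hsum.trans ?_
  have split : ∑ i, ∑ p ∈ D2 i, ∑ p' ∈ D2 i, ((if p' = p then a i p.1 p.2 else 0)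
      + (if p' = (p.2, p.1) then a i p.1 p.2 else 0)
      + ((if p'.1 = p.1 then s else 0) + (if p'.2 = p.1 then s else 0) + (if p'.1 = p.2 then s else 0)
      + (if p'.2 = p.2 then s else 0)) + (e p'.1 + e p'.2 + e p.1 + e p.2)) =
      ∑ i : ι, ∑ p ∈ D2 i, ∑ p' ∈ D2 i, (if p' = p then a i p.1 p.2 else 0)
      + ∑ i : ι, ∑ p ∈ D2 i, ∑ p' ∈ D2 i, (if p' = (p.2, p.1) then a i p.1 p.2 else 0)
      + ∑ i : ι, ∑ p ∈ D2 i, ∑ p' ∈ D2 i, ((if p'.1 = p.1 then s else 0) + (if p'.2 = p.1 then s else 0)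
        + (if p'.1 = p.2 then s else 0) + (if p'.2 = p.2 then s else 0))
      + ∑ i : ι, ∑ p ∈ D2 i, ∑ p' ∈ D2 i, (e p'.1 + e p'.2 + e p.1 + e p.2) := by
    simp only [Finset.sum_add_distrib]
  rw [split]
  have A1 : ∑ i : ι, ∑ p ∈ D2 i, ∑ p' ∈ D2 i, (if p' = p then a i p.1 p.2 else 0) =
      ∑ t ∈ D3 ι, a t.1 t.2.1 t.2.2 := by
    rw [D3sum]
    refine Finset.sum_congr rfl (fun i _ => Finset.sum_congr rfl (fun p hp => ?_))
    rw [Finset.sum_ite_eq', if_pos hp]
  have A2 : ∑ i : ι, ∑ p ∈ D2 i, ∑ p' ∈ D2 i, (if p' = (p.2, p.1) then a i p.1 p.2 else 0) =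
      ∑ t ∈ D3 ι, a t.1 t.2.1 t.2.2 := by
    rw [D3sum]
    refine Finset.sum_congr rfl (fun i _ => Finset.sum_congr rfl (fun p hp => ?_))
    rw [Finset.sum_ite_eq', if_pos]
    rw [mem_D2] at hp ⊢
    exact ⟨hp.2.1, hp.1, hp.2.2.symm⟩
  have A3 : ∑ i : ι, ∑ p ∈ D2 i, ∑ p' ∈ D2 i, ((if p'.1 = p.1 then s else 0) + (if p'.2 = p.1 then s else 0)
        + (if p'.1 = p.2 then s else 0) + (if p'.2 = p.2 then s else 0)) ≤
      4 * (Fintype.card ι : ℝ) ^ 4 * s := by
    refine (big (fun i p p' => (if p'.1 = p.1 then s else 0) + (if p'.2 = p.1 then s else 0)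
        + (if p'.1 = p.2 then s else 0) + (if p'.2 = p.2 then s else 0)) ?_).trans (le_of_eq ?_)
    · intro i p p'
      have : ∀ (P : Prop) [Decidable P], 0 ≤ (if P then s else 0) := by
        intro P _
        split_ifs <;> simp [hs]
      have q1 := this (p'.1 = p.1)
      have q2 := this (p'.2 = p.1)
      have q3 := this (p'.1 = p.2)
      have q4 := this (p'.2 = p.2)
      linarith
    · show ∑ _i : ι, ∑ j : ι, ∑ k : ι, ∑ l : ι, ∑ m : ι, ((if l = j then s else 0) + (if m = j then s else 0)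
        + (if l = k then s else 0) + (if m = k then s else 0)) = 4 * (Fintype.card ι : ℝ) ^ 4 * s
      simp [Finset.sum_add_distrib]
      ring
  have A4 : ∑ i : ι, ∑ p ∈ D2 i, ∑ p' ∈ D2 i, (e p'.1 + e p'.2 + e p.1 + e p.2) ≤
      4 * (Fintype.card ι : ℝ) ^ 4 * ∑ l, e l := by
    refine (big (fun i p p' => e p'.1 + e p'.2 + e p.1 + e p.2) ?_).trans (le_of_eq ?_)
    · intro i p p'
      have q1 := he p'.1
      have q2 := he p'.2
      have q3 := he p.1
      have q4 := he p.2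
      linarith
    · simp only [Finset.sum_add_distrib, Finset.sum_const,
        Finset.card_univ, nsmul_eq_mul, ← Finset.mul_sum]
      ring
  linarith

end Pool.Agent.TBL
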