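import Pool.Agent.TBL.Stmts

/-!
# Three-body Bose gases (MP_80dc41_mp), lower bound: most of the mass is in the constants
-/

set_option autoImplicit false

open MeasureTheory Filter Topology
open scoped ContDiff

namespace Pool.Agent.TBL

open Pool.Agent.TBG

namespace CNT_

lemma sum_D3 (ι : Type) [Fintype ι] [DecidableEq ι] (f : ι → ι → ι → ℝ) :
    ∑ t ∈ D3 ι, f t.1 t.2.1 t.2.2 = (∑ i, ∑ j, ∑ k, f i j k) - (∑ i, ∑ k, f i i k) - (∑ i, ∑ j, f i j i)
      - (∑ i, ∑ j, f i j j) + 2 * ∑ i, f i i i := by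
  have h1 : ∑ t ∈ D3 ι, f t.1 t.2.1 t.2.2 =
      ∑ i, ∑ j, ∑ k, (if i ≠ j ∧ i ≠ k ∧ j ≠ k then f i j k else 0) := by
    unfold D3
    rw [Finset.sum_filter]
    simp only [Fintype.sum_prod_type]
  rw [h1]
  have h2 : ∀ i j k, (if i ≠ j ∧ i ≠ k ∧ j ≠ k then f i j k else 0) = f i j k
      - (if i = j then f i i k else 0) - (if i = k then f i j i else 0) - (if j = k then f i j j else 0)
      + 2 * (if i = j then (if i = k then f i i i else 0) else 0) := by
    intro i j k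
    by_cases a : i = j
    · subst a
      by_cases b : i = k
      · subst b
        simp
        ring
      · simp [b]
    · by_cases b : i = k
      · subst b
        simp [a, Ne.symm a]
      · by_cases c : j = k
        · subst c
          simp [a]
        · simp [a, b, c]
  simp only [h2, Finset.sum_add_distrib, Finset.sum_sub_distrib, ← Finset.mul_sum]
  congr 1
  · congr 1
    · congr 1
      · congr 1
        refine Finset.sum_congr rfl fun i _ => ?_
        rw [Finset.sum_comm]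
        refine Finset.sum_congr rfl fun k _ => ?_
        simp
      · refine Finset.sum_congr rfl fun i _ => Finset.sum_congr rfl fun j _ => ?_
        simp
    · refine Finset.sum_congr rfl fun i _ => Finset.sum_congr rfl fun j _ => ?_
      simp
  · congr 1
    refine Finset.sum_congr rfl fun i _ => ?_
    rw [Finset.sum_eq_single i]
    · simp
    · intro j _ hj
      simp [Ne.symm hj]
    · simp

end CNT_

theorem cnt_proof (_hB : Stmt_BMC) (hP : Stmt_PQF) (_hA : Stmt_ATF) : Stmt_CNT := by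
  intro ι _ _ ℓ hℓ u hu
  set a : ι → ℝ := fun i => ns ℓ (Qa ℓ i u) with ha
  have h1 : ∀ t ∈ D3 ι, ns ℓ u - a t.1 - a t.2.1 - a t.2.2 ≤ ns ℓ (A3 ℓ t.1 t.2.1 t.2.2 u) := by
    intro t _
    have key : ∀ (i : ι) (F : (ι → E) → ℝ), BM F → ns ℓ F = ns ℓ (av ℓ i F) + ns ℓ (Qa ℓ i F) :=
      fun i F hF => (hP ι ℓ hℓ i F F hF hF).2.2.2.2.1
    have kb : ∀ (i j : ι) (F : (ι → E) → ℝ), BM F → ns ℓ (Qa ℓ j (av ℓ i F)) ≤ ns ℓ (Qa ℓ j F) :=
      fun i j F hF => (hP ι ℓ hℓ i F F hF hF).2.2.2.2.2.2.2.2.2.1 j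
    have hbm : ∀ (i : ι) (F : (ι → E) → ℝ), BM F → BM (av ℓ i F) := by
      intro i F hF
      have h := (hP ι ℓ hℓ i F F hF hF).1
      have h2 := (_hB.1 _ _ _ hF h).2.1
      have h3 : (fun X => F X - Qa ℓ i F X) = av ℓ i F := by
        funext X
        simp [Qa]
      rwa [h3] at h2
    have b1 := hbm t.2.2 u hu
    have b2 := hbm t.2.1 _ b1
    have e1 := key t.2.2 u hu
    have e2 := key t.2.1 _ b1
    have e3 := key t.1 _ b2
    have f2 := kb t.2.2 t.2.1 u hu
    have f3 := kb t.2.1 t.1 _ b1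
    have f4 := kb t.2.2 t.1 u hu
    show ns ℓ u - ns ℓ (Qa ℓ t.1 u) - ns ℓ (Qa ℓ t.2.1 u) - ns ℓ (Qa ℓ t.2.2 u) ≤
      ns ℓ (av ℓ t.1 (av ℓ t.2.1 (av ℓ t.2.2 u)))
    linarith
  refine le_trans (le_of_eq ?_) (Finset.sum_le_sum h1)
  rw [CNT_.sum_D3 ι (fun i j k => ns ℓ u - a i - a j - a k)]
  simp only [Finset.sum_sub_distrib, Finset.sum_const, Finset.card_univ, nsmul_eq_mul, ← Finset.mul_sum]
  ring

end Pool.Agent.TBL
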