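import Pool.Agent.TBL.Stmts

/-!
# Three-body Bose gases (MP_80dc41_mp), lower bound: the bound in a cube for the potential `V₀`
-/

set_option autoImplicit false

open MeasureTheory Filter Topology
open scoped ContDiff

namespace Pool.Agent.TBL

open Pool.Agent.TBG

namespace CO0_

lemma ker_mono {V : E → E → ℝ} {ℓ C C' b : ℝ} {φ w q g : E → E → E → ℝ} (hℓ : 0 < ℓ) (h : C ≤ C')
    (hK : Ker V ℓ C b φ w q g) : Ker V ℓ C' b φ w q g where
  sk := hK.sk
  syφ := hK.syφ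
  syw := hK.syw
  syq := hK.syq
  syg := hK.syg
  bw := hK.bw
  bq := hK.bq
  bg := hK.bg
  neu := hK.neu
  eqn := hK.eqn
  dec0 := fun x hx y hy z hz => (hK.dec0 x hx y hy z hz).trans
    (div_le_div_of_nonneg_right h (by positivity))
  dec1 := fun x hx y hy z hz c => (hK.dec1 x hx y hy z hz c).trans
    (div_le_div_of_nonneg_right h (by positivity))
  gb := fun x hx y hy z hz => (hK.gb x hx y hy z hz).trans
    (div_le_div_of_nonneg_right h (by positivity))
  wq := hK.wq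
  dmean := hK.dmean
  gmean := hK.gmean
  cst := by
    have h1 := hK.cst
    have h2 : C / ℓ ^ 7 ≤ C' / ℓ ^ 7 := div_le_div_of_nonneg_right h (by positivity)
    linarith

lemma rsv_mono {ℓ C C' : ℝ} {κ : E → E → ℝ} (hℓ : 0 < ℓ) (h : C ≤ C') (hK : Rsv ℓ C κ) : Rsv ℓ C' κ where
  bm := hK.bm
  nonneg := hK.nonneg
  symm := hK.symm
  k1 := fun x => (hK.k1 x).trans (div_le_div_of_nonneg_right h hℓ.le)
  k2 := hK.k2
  k3 := hK.k3
  k4 := fun f hf z => (hK.k4 f hf z).trans (by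
    refine mul_le_mul_of_nonneg_right h ?_
    exact integral_nonneg fun x => integral_nonneg fun y => mul_nonneg (hK.nonneg x y) (mul_self_nonneg _))

end CO0_

theorem co0_proof (hC : Stmt_COR) (hK : Stmt_KER) (hR : Stmt_RSV) (hS : Stmt_SCA) (hA : Stmt_ADM) :
    Stmt_CO0 := by
  obtain ⟨C₁, hC₁, hK⟩ := hK
  obtain ⟨C₂, hC₂, hR⟩ := hR
  refine hC (VV phi0) (∫ z, ww phi0 z) (C₁ + C₂) 8 (hA phi0 hS.1).1 hS.2.2 (by positivity) ?_
  intro ℓ hℓ
  have h0 : 0 < ℓ := by linarith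
  obtain ⟨κ, hκ⟩ := hR ℓ (by linarith)
  exact ⟨_, _, _, _, κ, CO0_.ker_mono h0 (by linarith) (hK ℓ hℓ), CO0_.rsv_mono h0 (by linarith) hκ⟩

end Pool.Agent.TBL
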