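import Pool.Agent.TBL.Stmts

/-!
# Three-body Bose gases (MP_80dc41_mp), lower bound: the bound in a cube
-/

set_option autoImplicit false

open MeasureTheory Filter Topology
open scoped ContDiff

namespace Pool.Agent.TBL

open Pool.Agent.TBG

theorem cor_proof (_hB : Stmt_BMC) (_hM : Stmt_MEP) (_hP : Stmt_PQF) (_hA : Stmt_ATF) (hC : Stmt_CNT)
    (hS : Stmt_SFK) (hL : Stmt_SLI) (hQ : Stmt_QIA) (hE : Stmt_ENI) (hBS : Stmt_BSM) (hR : Stmt_CAR) :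
    Stmt_COR := by
  intro V b C ℓ₀ hV hb hC0 hk
  obtain ⟨C₃, hC₃, hBS⟩ := hBS C hC0
  obtain ⟨C', g₀, ℓ₁, hC', hg₀, hℓ₁, hR⟩ := hR b C C₃ hb hC0 hC₃
  refine ⟨C', g₀, max ℓ₀ ℓ₁, hC', hg₀, le_trans hℓ₁ (le_max_right _ _), ?_⟩
  intro ι _ _ ℓ hℓ hn u hu hc
  obtain ⟨φ, w, q, g, κ, hK, hRs⟩ := hk ℓ (le_trans (le_max_left _ _) hℓ)
  have h1 : ℓ₁ ≤ ℓ := le_trans (le_max_right _ _) hℓ
  have h2 : 1 ≤ ℓ := le_trans hℓ₁ h1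
  have h3 : 0 < ℓ := by linarith
  obtain ⟨hub, -, -⟩ := hL ι u hu hc
  have hq : ∀ l, 0 ≤ qI ℓ κ l u ∧ (ℓ ^ 2)⁻¹ * ns ℓ (Qa ℓ l u) ≤ qI ℓ κ l u := fun l =>
    ⟨(hQ ι ℓ C κ u l h3 hRs hub).1, (hQ ι ℓ C κ u l h3 hRs hub).2.1⟩
  refine hR (Fintype.card ι) ℓ (ns ℓ u) (∑ i, ns ℓ (Qa ℓ i u)) (∑ i, qI ℓ κ i u)
    (1 / 4 * ∑ i, ∑ p ∈ D2 i, ∑ p' ∈ D2 i, Bf ℓ κ φ u i p.1 p.2 p'.1 p'.2)
    (∑ t ∈ D3 ι, ∫ X, u X * g (X t.1) (X t.2.1) (X t.2.2) * A3 ℓ t.1 t.2.1 t.2.2 u X ∂(PiM ι ℓ))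
    (∑ t ∈ D3 ι, ns ℓ (A3 ℓ t.1 t.2.1 t.2.2 u))
    (∫ x, ∫ y, ∫ z, q x y z ∂(nuc ℓ) ∂(nuc ℓ) ∂(nuc ℓ))
    (∑ c, ∫ x, ∫ y, ∫ z, (dk c φ x y z) ^ 2 ∂(nuc ℓ) ∂(nuc ℓ) ∂(nuc ℓ)) (enL V ℓ u)
    h1 hn ?_ ?_ ?_ ?_ ?_ ?_ ?_ ?_ ?_ ?_
  · exact integral_nonneg fun X => sq_nonneg _
  · exact Finset.sum_nonneg fun i _ => integral_nonneg fun X => sq_nonneg _
  · exact Finset.sum_nonneg fun t _ => integral_nonneg fun X => sq_nonneg _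
  · intro h
    have : IsEmpty ι := Fintype.card_eq_zero_iff.1 h
    simp
  · rw [Finset.mul_sum]
    exact Finset.sum_le_sum fun i _ => (hq i).2
  · exact hE ι V ℓ C b φ w q g κ u h3 hV hK hRs hu hc
  · exact hBS ι V ℓ b φ w q g κ u h2 hK hRs hub
  · exact hS ι V ℓ C b φ w q g u h3 hC0 hb hK hub
  · exact hK.cst
  · exact hC ι ℓ h3 u hub

end Pool.Agent.TBL
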