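import Pool.Agent.TBL.Stmts

/-!
# Integration by parts for one triple (module CRA)
-/

set_option autoImplicit false

open MeasureTheory Filter Topology
open scoped ContDiff

namespace Pool.Agent.TBL

open Pool.Agent.TBG

namespace CRA_

/-- a bounded measurable function of three particles evaluated at many particles -/
lemma bm3_comp (hBMC : Stmt_BMC) {ι : Type} [Fintype ι] (F : E → E → E → ℝ) (hF : BM3 F) (i j k : ι) :
    BM (fun X : ι → E => F (X i) (X j) (X k)) := by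
  have h := hBMC.2.2.2.1 (E × E × E) (ι → E) (fun p : E × E × E => F p.1 p.2.1 p.2.2)
    (fun X : ι → E => (X i, X j, X k)) hF (by fun_prop)
  exact h

lemma bm_mul (hBMC : Stmt_BMC) {α : Type} [MeasurableSpace α] {F G : α → ℝ} (hF : BM F) (hG : BM G) :
    BM (fun X => F X * G X) := ((hBMC.1 α F G hF hG).2.2.1)

lemma bm_int (hBMC : Stmt_BMC) {α : Type} [MeasurableSpace α] {F : α → ℝ} (hF : BM F) (μ : Measure α)
    [IsFiniteMeasure μ] : Integrable F μ := ((hBMC.1 α F F hF hF).2.2.2.2.2.2 μ)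

end CRA_

open CRA_ in
theorem cra_proof (hBMC : Stmt_BMC) (hMES : Stmt_MES) (hMEP : Stmt_MEP) (hAVA : Stmt_AVA) (_hAVB : Stmt_AVB)
    (hIBC : Stmt_IBC) (hSKF : Stmt_SKF) (hSLI : Stmt_SLI) : Stmt_CRA := by
  intro ι _ _ V ℓ C b φ w q g u A i j k hℓ hK hu hcu hA hIA hij hik
  obtain ⟨hbu, hbd, hsl⟩ := hSLI ι u hu hcu
  obtain ⟨hS1, hS2, hS3, hS4⟩ := hSKF φ hK.sk.smooth
  obtain ⟨hPr, hae, -⟩ := hMEP ι ℓ hℓ
  haveI : IsProbabilityMeasure (PiM ι ℓ) := hPr
  obtain ⟨-, -, -, -, -, -, hcont, -⟩ := hMES ℓ hℓ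
  -- the functions
  set F : Fin 3 → (ι → E) → ℝ := fun c X => di i c u X * dk c φ (X i) (X j) (X k) * A X with hFdef
  set G : (ι → E) → ℝ := fun X => u X * Lk φ (X i) (X j) (X k) * A X with hGdef
  have hBF : ∀ c, BM (F c) := fun c =>
    bm_mul hBMC (bm_mul hBMC (hbd i c) (bm3_comp hBMC _ (hK.sk.b1 c) i j k)) hA
  have hBG : BM G := bm_mul hBMC (bm_mul hBMC hbu (bm3_comp hBMC _ hK.sk.b2 i j k)) hA
  have hF1 : ∀ c, ∫ X, F c X ∂(PiM ι ℓ) = ∫ X, av ℓ i (F c) X ∂(PiM ι ℓ) := fun c =>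
    ((hAVA ι ℓ hℓ i (F c) (hBF c)).2.1).symm
  have hG1 : ∫ X, G X ∂(PiM ι ℓ) = ∫ X, av ℓ i G X ∂(PiM ι ℓ) := ((hAVA ι ℓ hℓ i G hBG).2.1).symm
  have hIF : ∀ c, Integrable (av ℓ i (F c)) (PiM ι ℓ) := fun c =>
    bm_int hBMC (hAVA ι ℓ hℓ i (F c) (hBF c)).1 _
  have havF : ∀ c X, av ℓ i (F c) X =
      (∫ y, pd c (fun x => u (Function.update X i x)) y * dk c φ y (X j) (X k) ∂(nuc ℓ)) * A X := by
    intro c X
    rw [av, ← integral_mul_const]
    refine integral_congr_ae (Eventually.of_forall fun y => ?_)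
    simp only [hFdef]
    rw [(hsl i X).2 c y, hIA X y, Function.update_self, Function.update_of_ne (Ne.symm hij),
      Function.update_of_ne (Ne.symm hik)]
  have havG : ∀ X, av ℓ i G X = (∑ c, ∫ y, u (Function.update X i y) *
      pd c (fun x' => dk c φ x' (X j) (X k)) y ∂(nuc ℓ)) * A X := by
    intro X
    have h1 : ∀ c : Fin 3, Integrable (fun y => u (Function.update X i y) *
        pd c (fun x' => dk c φ x' (X j) (X k)) y) (nuc ℓ) := by
      intro c
      apply hcont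
      have ha : Continuous (fun y => u (Function.update X i y)) := (hsl i X).1.continuous
      have hb : Continuous (fun y => pd c (fun x' => dk c φ x' (X j) (X k)) y) := by
        have h2 : ContDiff ℝ ∞ (fun x => dk c φ x (X j) (X k)) := hS3 c (X j) (X k)
        have h3 : Continuous (fderiv ℝ (fun x => dk c φ x (X j) (X k))) :=
          h2.continuous_fderiv (by simp)
        exact h3.clm_apply continuous_const
      exact ha.mul hb
    rw [av, ← integral_finset_sum _ (fun c _ => h1 c), ← integral_mul_const]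
    refine integral_congr_ae (Eventually.of_forall fun y => ?_)
    simp only [hGdef]
    rw [hIA X y, Function.update_self, Function.update_of_ne (Ne.symm hij),
      Function.update_of_ne (Ne.symm hik), Lk, Finset.mul_sum]
  have hmain : ∀ᵐ X ∂(PiM ι ℓ), ∑ c, av ℓ i (F c) X = - av ℓ i G X := by
    filter_upwards [hae] with X hX
    rw [havG X, Finset.sum_congr rfl (fun c _ => havF c X), ← Finset.sum_mul, ← neg_mul,
      ← Finset.sum_neg_distrib]
    congr 1
    refine Finset.sum_congr rfl fun c _ => ?_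
    exact hIBC ℓ c (fun x => u (Function.update X i x)) (fun x => dk c φ x (X j) (X k)) hℓ (hsl i X).1
      ((hS3 c (X j) (X k)).of_le (by simp))
      (fun x hx hc => hK.neu x hx (X j) (hX j).1 (X k) (hX k).1 c hc)
  calc ∑ c, ∫ X, di i c u X * dk c φ (X i) (X j) (X k) * A X ∂(PiM ι ℓ)
      = ∑ c, ∫ X, av ℓ i (F c) X ∂(PiM ι ℓ) := Finset.sum_congr rfl fun c _ => hF1 c
    _ = ∫ X, ∑ c, av ℓ i (F c) X ∂(PiM ι ℓ) := (integral_finset_sum _ (fun c _ => hIF c)).symm
    _ = ∫ X, - av ℓ i G X ∂(PiM ι ℓ) := integral_congr_ae hmain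
    _ = - ∫ X, av ℓ i G X ∂(PiM ι ℓ) := integral_neg _
    _ = - ∫ X, u X * Lk φ (X i) (X j) (X k) * A X ∂(PiM ι ℓ) := by rw [← hG1]

end Pool.Agent.TBL
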