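import Pool.Agent.TBL.Stmts

/-!
# TBL, module CRB: the linear term of the energy, sum over the triples
-/

set_option autoImplicit false

open MeasureTheory Filter Topology
open scoped ContDiff

namespace Pool.Agent.TBL

open Pool.Agent.TBG

namespace CRB_

/-- invariance under the transposition of the first two entries -/
lemma sum_swap {ι : Type} [Fintype ι] [DecidableEq ι] (F : ι → ι → ι → ℝ) :
    ∑ t ∈ D3 ι, F t.2.1 t.1 t.2.2 = ∑ t ∈ D3 ι, F t.1 t.2.1 t.2.2 := by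
  refine Finset.sum_nbij' (fun t => (t.2.1, t.1, t.2.2)) (fun t => (t.2.1, t.1, t.2.2)) ?_ ?_ ?_ ?_ ?_
  · intro t ht
    simp only [D3, Finset.mem_filter, Finset.mem_univ, true_and] at ht ⊢
    exact ⟨ht.1.symm, ht.2.2, ht.2.1⟩
  · intro t ht
    simp only [D3, Finset.mem_filter, Finset.mem_univ, true_and] at ht ⊢
    exact ⟨ht.1.symm, ht.2.2, ht.2.1⟩
  · intro t _; rfl
  · intro t _; rfl
  · intro t _; rfl

/-- invariance under a cyclic permutation -/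
lemma sum_cyc {ι : Type} [Fintype ι] [DecidableEq ι] (F : ι → ι → ι → ℝ) :
    ∑ t ∈ D3 ι, F t.2.2 t.1 t.2.1 = ∑ t ∈ D3 ι, F t.1 t.2.1 t.2.2 := by
  refine Finset.sum_nbij' (fun t => (t.2.2, t.1, t.2.1)) (fun t => (t.2.1, t.2.2, t.1)) ?_ ?_ ?_ ?_ ?_
  · intro t ht
    simp only [D3, Finset.mem_filter, Finset.mem_univ, true_and] at ht ⊢
    exact ⟨ht.2.1.symm, ht.2.2.symm, ht.1⟩
  · intro t ht
    simp only [D3, Finset.mem_filter, Finset.mem_univ, true_and] at ht ⊢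
    exact ⟨ht.2.2, ht.1.symm, ht.2.1.symm⟩
  · intro t _; rfl
  · intro t _; rfl
  · intro t _; rfl

end CRB_

theorem crb_proof (hBMC : Stmt_BMC) (hMEP : Stmt_MEP) (hATF : Stmt_ATF) : Stmt_CRB := by
  intro ι _ _ V ℓ C b φ w q g u hℓ hK hu
  obtain ⟨hP, hae, -⟩ := hMEP ι ℓ hℓ
  have := hP
  have hbm : ∀ (F : E → E → E → ℝ), BM3 F → ∀ i j k : ι,
      BM (fun X : ι → E => F (X i) (X j) (X k)) := by
    intro F hF i j k
    exact hBMC.2.2.2.1 (E × E × E) (ι → E) (fun p => F p.1 p.2.1 p.2.2)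
      (fun X => (X i, X j, X k)) hF (by fun_prop)
  have hA : ∀ i j k : ι, BM (A3 ℓ i j k u) := fun i j k => (hATF ι ℓ hℓ i j k u hu).1
  have hs1 : ∀ i j k : ι, A3 ℓ j i k u = A3 ℓ i j k u := fun i j k =>
    ((hATF ι ℓ hℓ i j k u hu).2.2.2.2.1).symm
  have hs2 : ∀ i j k : ι, A3 ℓ i k j u = A3 ℓ i j k u := fun i j k =>
    ((hATF ι ℓ hℓ i j k u hu).2.2.2.2.2.1).symm
  have hint : ∀ (F : E → E → E → ℝ), BM3 F → ∀ a b c i j k : ι,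
      Integrable (fun X => u X * F (X a) (X b) (X c) * A3 ℓ i j k u X) (PiM ι ℓ) := by
    intro F hF a b c i j k
    have h1 := (hBMC.1 (ι → E) _ _ hu (hbm F hF a b c)).2.2.1
    have h2 := (hBMC.1 (ι → E) _ _ h1 (hA i j k)).2.2.1
    exact (hBMC.1 (ι → E) _ _ h2 h2).2.2.2.2.2.2 (PiM ι ℓ)
  have hL := hK.sk.b2
  set S := ∑ t ∈ D3 ι, ∫ X, u X * Lk φ (X t.1) (X t.2.1) (X t.2.2) *
    A3 ℓ t.1 t.2.1 t.2.2 u X ∂(PiM ι ℓ) with hS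
  have e1 : ∑ t ∈ D3 ι, ∫ X, u X * Lk φ (X t.2.1) (X t.1) (X t.2.2) *
      A3 ℓ t.1 t.2.1 t.2.2 u X ∂(PiM ι ℓ) = S := by
    rw [hS, ← CRB_.sum_swap (fun i j k => ∫ X, u X * Lk φ (X i) (X j) (X k) *
      A3 ℓ i j k u X ∂(PiM ι ℓ))]
    refine Finset.sum_congr rfl fun t _ => ?_
    rw [hs1]
  have e2 : ∑ t ∈ D3 ι, ∫ X, u X * Lk φ (X t.2.2) (X t.1) (X t.2.1) *
      A3 ℓ t.1 t.2.1 t.2.2 u X ∂(PiM ι ℓ) = S := by
    rw [hS, ← CRB_.sum_cyc (fun i j k => ∫ X, u X * Lk φ (X i) (X j) (X k) *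
      A3 ℓ i j k u X ∂(PiM ι ℓ))]
    refine Finset.sum_congr rfl fun t _ => ?_
    rw [hs1 t.1 t.2.2 t.2.1, hs2]
  have e3 : ∀ t ∈ D3 ι, ((∫ X, u X * Lk φ (X t.1) (X t.2.1) (X t.2.2) *
      A3 ℓ t.1 t.2.1 t.2.2 u X ∂(PiM ι ℓ)) + ∫ X, u X * Lk φ (X t.2.1) (X t.1) (X t.2.2) *
      A3 ℓ t.1 t.2.1 t.2.2 u X ∂(PiM ι ℓ)) + ∫ X, u X * Lk φ (X t.2.2) (X t.1) (X t.2.1) *
      A3 ℓ t.1 t.2.1 t.2.2 u X ∂(PiM ι ℓ) =
      (∫ X, u X * g (X t.1) (X t.2.1) (X t.2.2) * A3 ℓ t.1 t.2.1 t.2.2 u X ∂(PiM ι ℓ)) -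
      ∫ X, u X * w (X t.1) (X t.2.1) (X t.2.2) * A3 ℓ t.1 t.2.1 t.2.2 u X ∂(PiM ι ℓ) := by
    intro t _
    have i1 := hint (Lk φ) hL t.1 t.2.1 t.2.2 t.1 t.2.1 t.2.2
    have i2 := hint (Lk φ) hL t.2.1 t.1 t.2.2 t.1 t.2.1 t.2.2
    have i3 := hint (Lk φ) hL t.2.2 t.1 t.2.1 t.1 t.2.1 t.2.2
    have i12 : Integrable (fun X => u X * Lk φ (X t.1) (X t.2.1) (X t.2.2) *
        A3 ℓ t.1 t.2.1 t.2.2 u X + u X * Lk φ (X t.2.1) (X t.1) (X t.2.2) *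
        A3 ℓ t.1 t.2.1 t.2.2 u X) (PiM ι ℓ) := i1.add i2
    rw [← integral_add i1 i2, ← integral_add i12 i3,
      ← integral_sub (hint _ hK.bg _ _ _ _ _ _) (hint _ hK.bw _ _ _ _ _ _)]
    refine integral_congr_ae ?_
    filter_upwards [hae] with X hX
    have h := hK.eqn (X t.1) (hX t.1).1 (X t.2.1) (hX t.2.1).1 (X t.2.2) (hX t.2.2).1
    have h' : Lk φ (X t.1) (X t.2.1) (X t.2.2) = g (X t.1) (X t.2.1) (X t.2.2) -
        w (X t.1) (X t.2.1) (X t.2.2) - Lk φ (X t.2.1) (X t.1) (X t.2.2) -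
        Lk φ (X t.2.2) (X t.1) (X t.2.1) := by linarith
    rw [h']
    ring
  have e4 := Finset.sum_congr rfl e3
  rw [Finset.sum_add_distrib, Finset.sum_add_distrib, Finset.sum_sub_distrib, e1, e2, ← hS] at e4
  linarith

end Pool.Agent.TBL
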