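import Pool.Agent.TBL.Stmts

set_option autoImplicit false

open MeasureTheory Filter Topology
open scoped ContDiff

namespace Pool.Agent.TBL

open Pool.Agent.TBG

namespace CSG_

theorem arith {C C' C'' ℓ : ℝ} (hC : 0 < C) (hC' : 0 < C') (hC'' : 0 < C'') (hℓ : 8 ≤ ℓ) :
    (729 * (C / (ℓ / 8) ^ 6)) * C' * (C'' / ℓ ^ 3) ≤ (729 * C * 8 ^ 6 * C' * C'') / ℓ ^ 7 := by
  have h0 : 0 < ℓ := by linarith
  have h1 : (729 * (C / (ℓ / 8) ^ 6)) * C' * (C'' / ℓ ^ 3) =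
      (729 * C * 8 ^ 6 * C' * C'') / ℓ ^ 9 := by
    field_simp
  rw [h1]
  apply div_le_div_of_nonneg_left (by positivity) (by positivity)
  exact pow_le_pow_right₀ (by linarith) (by norm_num)

end CSG_

open CSG_ in
theorem csg_proof (_hB : Stmt_BMC) (hM : Stmt_MES) (hG : Stmt_GRF) (hI : Stmt_IMB)
    (hY : Stmt_IMY) (hN : Stmt_NUA) : Stmt_CSG := by
  obtain ⟨C, hC, hG⟩ := hG
  obtain ⟨C₁, hC₁, hI⟩ := hI
  obtain ⟨C₂, hC₂, hN⟩ := hN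
  refine ⟨729 * C * 8 ^ 6 * (C₁ * C) * C₂, by positivity, ?_⟩
  intro ℓ hℓ
  have hℓ0 : 0 < ℓ := by linarith
  have hR : 1 ≤ ℓ / 8 := by linarith
  have hR0 : 0 < ℓ / 8 := by linarith
  obtain ⟨hs1, hs2, hb, -, -⟩ := hG (ℓ / 8) hR
  have : IsProbabilityMeasure (nuc ℓ) := (hM ℓ hℓ0).2.2.2.1
  have hae : ∀ᵐ x ∂(nuc ℓ), x ∈ Lam ℓ := by
    filter_upwards [(hM ℓ hℓ0).2.2.2.2.2.1] with x hx
    exact hx.1
  have hcont := (hM ℓ hℓ0).2.2.2.2.2.2.1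
  have hφ := (hI ℓ (GR (ℓ / 8)) C hℓ0 hs1 hC (fun s hs => ⟨(hb s hs).2.2.1, (hb s hs).2.2.2.1⟩)).1
  have hg := (hY ℓ (gR (ℓ / 8)) (C / (ℓ / 8) ^ 6) hℓ0 hs2.continuous.measurable
    (fun s hs => (hb s hs).2.2.2.2)).2
  set K : ℝ := (729 * (C / (ℓ / 8) ^ 6)) * (C₁ * C) with hK
  have hK0 : 0 ≤ K := by positivity
  have h1 : ∀ x ∈ Lam ℓ, ∀ y ∈ Lam ℓ, ∀ z ∈ Lam ℓ,
      ‖Im ℓ (GR (ℓ / 8)) x y z * Im ℓ (gR (ℓ / 8)) x y z‖ ≤ K * ((1 + ‖x - y‖) ^ 4)⁻¹ := by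
    intro x hx y hy z hz
    rw [Real.norm_eq_abs, abs_mul]
    have h2 : |Im ℓ (GR (ℓ / 8)) x y z| ≤ C₁ * C * ((1 + ‖x - y‖) ^ 4)⁻¹ := by
      refine (hφ x hx y hy z hz).trans ?_
      rw [div_eq_mul_inv]
      apply mul_le_mul_of_nonneg_left _ (by positivity)
      apply inv_anti₀ (by positivity)
      apply pow_le_pow_left₀ (by positivity)
      linarith [norm_nonneg (x - z)]
    calc |Im ℓ (GR (ℓ / 8)) x y z| * |Im ℓ (gR (ℓ / 8)) x y z|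
        ≤ (C₁ * C * ((1 + ‖x - y‖) ^ 4)⁻¹) * (729 * (C / (ℓ / 8) ^ 6)) :=
          mul_le_mul h2 (hg x y z) (abs_nonneg _) (by positivity)
      _ = K * ((1 + ‖x - y‖) ^ 4)⁻¹ := by rw [hK]; ring
  have h2 : ∀ x ∈ Lam ℓ, ∀ y ∈ Lam ℓ,
      ‖∫ z, Im ℓ (GR (ℓ / 8)) x y z * Im ℓ (gR (ℓ / 8)) x y z ∂(nuc ℓ)‖ ≤
        K * ((1 + ‖x - y‖) ^ 4)⁻¹ := by
    intro x hx y hy
    have h3 := norm_integral_le_of_norm_le_const (μ := nuc ℓ)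
      (f := fun z => Im ℓ (GR (ℓ / 8)) x y z * Im ℓ (gR (ℓ / 8)) x y z)
      (C := K * ((1 + ‖x - y‖) ^ 4)⁻¹) (by
        filter_upwards [hae] with z hz
        exact h1 x hx y hy z hz)
    simpa using h3
  have h3 : ∀ x ∈ Lam ℓ,
      ‖∫ y, ∫ z, Im ℓ (GR (ℓ / 8)) x y z * Im ℓ (gR (ℓ / 8)) x y z ∂(nuc ℓ) ∂(nuc ℓ)‖ ≤
        K * (C₂ / ℓ ^ 3) := by
    intro x hx
    have h4 : Integrable (fun y : E => K * ((1 + ‖x - y‖) ^ 4)⁻¹) (nuc ℓ) := by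
      apply hcont
      apply Continuous.mul continuous_const
      apply Continuous.inv₀
      · fun_prop
      · intro y
        positivity
    have h5 := norm_integral_le_of_norm_le (μ := nuc ℓ)
      (f := fun y => ∫ z, Im ℓ (GR (ℓ / 8)) x y z * Im ℓ (gR (ℓ / 8)) x y z ∂(nuc ℓ)) h4 (by
        filter_upwards [hae] with y hy
        exact h2 x hx y hy)
    refine h5.trans ?_
    rw [integral_const_mul]
    exact mul_le_mul_of_nonneg_left ((hN ℓ (by linarith)).1 x) hK0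
  have h4 := norm_integral_le_of_norm_le_const (μ := nuc ℓ)
    (f := fun x => ∫ y, ∫ z, Im ℓ (GR (ℓ / 8)) x y z * Im ℓ (gR (ℓ / 8)) x y z ∂(nuc ℓ) ∂(nuc ℓ))
    (C := K * (C₂ / ℓ ^ 3)) (by
      filter_upwards [hae] with x hx
      exact h3 x hx)
  rw [← Real.norm_eq_abs]
  refine h4.trans ?_
  rw [probReal_univ, mul_one]
  exact arith hC (by positivity) hC₂ hℓ

end Pool.Agent.TBL
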