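import Pool.Agent.TBL.Stmts

set_option autoImplicit false

open MeasureTheory Filter Topology
open scoped ContDiff

namespace Pool.Agent.TBL

open Pool.Agent.TBG

namespace CSQ_

theorem bm_int (hB : Stmt_BMC) {α : Type} [MeasurableSpace α] {F : α → ℝ} (hF : BM F)
    (μ : Measure α) [IsFiniteMeasure μ] : Integrable F μ :=
  (hB.1 α F F hF hF).2.2.2.2.2.2 μ

theorem bm_comp (hB : Stmt_BMC) {α β : Type} [MeasurableSpace α] [MeasurableSpace β] {F : α → ℝ}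
    (hF : BM F) {f : β → α} (hf : Measurable f) : BM (fun X => F (f X)) :=
  hB.2.2.2.1 α β F f hF hf

variable {ℓ : ℝ}

theorem bm2_slice (hB : Stmt_BMC) {F : E → E → ℝ} (hF : BM2 F) (y : E) : BM (fun z => F y z) :=
  bm_comp hB hF (f := fun z : E => (y, z)) (by fun_prop)

theorem bm2_int (hB : Stmt_BMC) [IsProbabilityMeasure (nuc ℓ)] {F : E → E → ℝ} (hF : BM2 F) :
    BM (fun y => ∫ z, F y z ∂(nuc ℓ)) :=
  hB.2.2.2.2 E E (nuc ℓ) (fun p : E × E => F p.1 p.2) hF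

theorem bm3_slice (hB : Stmt_BMC) {F : E → E → E → ℝ} (hF : BM3 F) (x : E) : BM2 (F x) :=
  bm_comp hB hF (f := fun q : E × E => (x, q.1, q.2)) (by fun_prop)

theorem bm3_int (hB : Stmt_BMC) [IsProbabilityMeasure (nuc ℓ)] {F : E → E → E → ℝ} (hF : BM3 F) :
    BM (fun x => ∫ y, ∫ z, F x y z ∂(nuc ℓ) ∂(nuc ℓ)) := by
  have h1 : BM (fun p : (E × E) × E => F p.1.1 p.1.2 p.2) :=
    bm_comp hB hF (f := fun p : (E × E) × E => (p.1.1, p.1.2, p.2)) (by fun_prop)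
  have h2 : BM2 (fun x y => ∫ z, F x y z ∂(nuc ℓ)) :=
    hB.2.2.2.2 (E × E) E (nuc ℓ) (fun p : (E × E) × E => F p.1.1 p.1.2 p.2) h1
  exact bm2_int hB h2

theorem dbl_mono (hB : Stmt_BMC) [IsProbabilityMeasure (nuc ℓ)] {F G : E → E → ℝ} (hF : BM2 F)
    (hG : BM2 G) (hae : ∀ᵐ x ∂(nuc ℓ), x ∈ Lam ℓ) (h : ∀ y ∈ Lam ℓ, ∀ z ∈ Lam ℓ, F y z ≤ G y z) :
    ∫ y, ∫ z, F y z ∂(nuc ℓ) ∂(nuc ℓ) ≤ ∫ y, ∫ z, G y z ∂(nuc ℓ) ∂(nuc ℓ) := by
  apply integral_mono_ae (bm_int hB (bm2_int hB hF) _) (bm_int hB (bm2_int hB hG) _)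
  filter_upwards [hae] with y hy
  apply integral_mono_ae (bm_int hB (bm2_slice hB hF y) _) (bm_int hB (bm2_slice hB hG y) _)
  filter_upwards [hae] with z hz
  exact h y hy z hz

theorem dbl_lin (hB : Stmt_BMC) [IsProbabilityMeasure (nuc ℓ)] {F G : E → E → ℝ} (hF : BM2 F)
    (hG : BM2 G) (a : ℝ) :
    ∫ y, ∫ z, (F y z + a * G y z) ∂(nuc ℓ) ∂(nuc ℓ) =
      ∫ y, ∫ z, F y z ∂(nuc ℓ) ∂(nuc ℓ) + a * ∫ y, ∫ z, G y z ∂(nuc ℓ) ∂(nuc ℓ) := by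
  have h1 : ∀ y, ∫ z, (F y z + a * G y z) ∂(nuc ℓ) =
      ∫ z, F y z ∂(nuc ℓ) + a * ∫ z, G y z ∂(nuc ℓ) := by
    intro y
    rw [integral_add (bm_int hB (bm2_slice hB hF y) _)
      ((bm_int hB (bm2_slice hB hG y) _).const_mul a), integral_const_mul]
  simp only [h1]
  rw [integral_add (bm_int hB (bm2_int hB hF) _) ((bm_int hB (bm2_int hB hG) _).const_mul a),
    integral_const_mul]

end CSQ_

theorem csq_proof (hBMC : Stmt_BMC) (hMES : Stmt_MES) (hPRF : Stmt_PRF) (hSCA : Stmt_SCA)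
    (hQTF : Stmt_QTF) (hIMW : Stmt_IMW) (hBDI : Stmt_BDI) (hQSF : Stmt_QSF) : Stmt_CSQ := by
  classical
  obtain ⟨hWs, hPs, hW01, hWpos, hW0, -, -, hPb, -⟩ := hPRF
  obtain ⟨hsc, hww, hwp⟩ := hSCA
  obtain ⟨hQ, hQs, -⟩ := hQTF
  obtain ⟨C0, hC0, hIW⟩ := hIMW
  set K : ℝ := ∫ z : E × E, W1 (QQ z) with hK
  have hK0 : 0 ≤ K := integral_nonneg (fun z => (hW01 _).1)
  refine ⟨2 * (2 * C0 + 6 * C0 ^ 2) * K + 1, by positivity, ?_⟩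
  intro ℓ hl1
  have hl : 0 < ℓ := by linarith
  obtain ⟨-, -, -, hprob, -, haeL, -⟩ := hMES ℓ hl
  have := hprob
  have hae : ∀ᵐ x ∂(nuc ℓ), x ∈ Lam ℓ := haeL.mono fun x hx => hx.1
  obtain ⟨hbd, hbd6, hbdi, hF⟩ := hBDI ℓ hl
  obtain ⟨-, hqB, -⟩ := hQSF ℓ hl
  -- measurability
  have hQm : Measurable (fun p : E × E × E => QT p.1 p.2.1 p.2.2) := hQs.continuous.measurable
  have hWB : BM3 (fun x y z => W1 (QT x y z)) := by
    refine ⟨hWs.continuous.measurable.comp hQm, 1, fun X => ?_⟩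
    rw [abs_of_nonneg (hW01 _).1]
    exact (hW01 _).2
  have hGB : BM3 (fun x y z => W1 (QT x y z) * (1 - P1 (QT x y z))) := by
    refine ⟨(hWs.continuous.measurable.comp hQm).mul
      (measurable_const.sub (hPs.continuous.measurable.comp hQm)), 1, fun X => ?_⟩
    have h0 := (hQ X.1 X.2.1 X.2.2).2.1
    have h1 := hPb _ h0
    have h2 := hW01 (QT X.1 X.2.1 X.2.2)
    rw [abs_of_nonneg (mul_nonneg h2.1 (by linarith [h1.2.1]))]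
    nlinarith [h1.1, h1.2.1, h2.1, h2.2]
  -- pointwise bound
  have hpt : ∀ x ∈ Lam ℓ, ∀ y ∈ Lam ℓ, ∀ z ∈ Lam ℓ, qS ℓ x y z ≤
      W1 (QT x y z) * (1 - P1 (QT x y z)) + (2 * C0 + 6 * C0 ^ 2) * bd ℓ x * W1 (QT x y z) := by
    intro x hx y hy z hz
    have h0 := (hQ x y z).2.1
    have hP := hPb _ h0
    have hW := hW01 (QT x y z)
    have hb := hbd6 x
    obtain ⟨hi0, hi1⟩ := hIW ℓ hl x hx y hy z hz
    have hrhs : 0 ≤ W1 (QT x y z) * (1 - P1 (QT x y z)) +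
        (2 * C0 + 6 * C0 ^ 2) * bd ℓ x * W1 (QT x y z) := by
      have h3 : 0 ≤ W1 (QT x y z) * (1 - P1 (QT x y z)) :=
        mul_nonneg hW.1 (by linarith [hP.2.1])
      have h4 : 0 ≤ (2 * C0 + 6 * C0 ^ 2) * bd ℓ x * W1 (QT x y z) :=
        mul_nonneg (mul_nonneg (by positivity) hb.1) hW.1
      linarith
    have hq : qS ℓ x y z = (Im ℓ W1 x y z) ^ 2 / (W1 (QT x y z) / (1 - P1 (QT x y z))) := by
      unfold qS
      rw [if_pos ⟨hx, hy, hz⟩]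
      congr 1
      unfold VV
      rw [hww, ← (hQ x y z).1]
      unfold phi0
      rw [← (hQ x y z).1]
    rw [hq]
    rcases eq_or_lt_of_le hW.1 with h5 | h5
    · rw [← h5, zero_div, div_zero]
      rw [← h5] at hrhs
      simp
    · have hD : 0 < 1 - P1 (QT x y z) := by linarith [hP.2.1]
      have h6 : (Im ℓ W1 x y z) ^ 2 ≤ ((1 + C0 * bd ℓ x) * W1 (QT x y z)) ^ 2 :=
        pow_le_pow_left₀ hi0 hi1 2
      rw [div_div_eq_mul_div, div_le_iff₀ h5]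
      have h7 : (1 + C0 * bd ℓ x) ^ 2 ≤ 1 + (2 * C0 + 6 * C0 ^ 2) * bd ℓ x := by
        have : bd ℓ x ^ 2 ≤ 6 * bd ℓ x := by nlinarith [hb.1, hb.2]
        nlinarith [sq_nonneg C0]
      calc (Im ℓ W1 x y z) ^ 2 * (1 - P1 (QT x y z))
          ≤ ((1 + C0 * bd ℓ x) * W1 (QT x y z)) ^ 2 * (1 - P1 (QT x y z)) :=
            mul_le_mul_of_nonneg_right h6 hD.le
        _ = (1 + C0 * bd ℓ x) ^ 2 * (W1 (QT x y z) ^ 2 * (1 - P1 (QT x y z))) := by ring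
        _ ≤ (1 + (2 * C0 + 6 * C0 ^ 2) * bd ℓ x) * (W1 (QT x y z) ^ 2 * (1 - P1 (QT x y z))) :=
            mul_le_mul_of_nonneg_right h7 (mul_nonneg (sq_nonneg _) hD.le)
        _ ≤ (W1 (QT x y z) * (1 - P1 (QT x y z)) +
            (2 * C0 + 6 * C0 ^ 2) * bd ℓ x * W1 (QT x y z)) * W1 (QT x y z) := by
            have h8 : 0 ≤ (2 * C0 + 6 * C0 ^ 2) * bd ℓ x * W1 (QT x y z) ^ 2 *
                P1 (QT x y z) :=
              mul_nonneg (mul_nonneg (mul_nonneg (by positivity) hb.1) (sq_nonneg _)) hP.1.le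
            nlinarith [h8]
  -- the inner double integral
  set A : ℝ := ∫ z : E × E, W1 (QQ z) * (1 - P1 (QQ z)) with hA
  have hin : ∀ x ∈ Lam ℓ, ∫ y, ∫ z, qS ℓ x y z ∂(nuc ℓ) ∂(nuc ℓ) ≤
      (ℓ ^ 6)⁻¹ * A + (2 * C0 + 6 * C0 ^ 2) * (ℓ ^ 6)⁻¹ * K * bd ℓ x := by
    intro x hx
    have b1 := CSQ_.bm3_slice hBMC hqB x
    have b2 := CSQ_.bm3_slice hBMC hGB x
    have b3 := CSQ_.bm3_slice hBMC hWB x
    have b4 : BM2 (fun y z => W1 (QT x y z) * (1 - P1 (QT x y z)) +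
        (2 * C0 + 6 * C0 ^ 2) * bd ℓ x * W1 (QT x y z)) := by
      have b5 : BM2 (fun y z => (2 * C0 + 6 * C0 ^ 2) * bd ℓ x * W1 (QT x y z)) :=
        (hBMC.1 _ _ _ b3 b3).2.2.2.2.2.1 ((2 * C0 + 6 * C0 ^ 2) * bd ℓ x)
      exact (hBMC.1 _ _ _ b2 b5).1
    refine (CSQ_.dbl_mono hBMC b1 b4 hae (fun y hy z hz => hpt x hx y hy z hz)).trans ?_
    rw [CSQ_.dbl_lin hBMC b2 b3]
    have f1 := hF (fun s => W1 s * (1 - P1 s)) (hWs.continuous.mul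
      (continuous_const.sub hPs.continuous))
      (fun s hs => mul_nonneg (hW01 s).1 (by linarith [(hPb s hs).2.1]))
      (fun s hs => by rw [hW0 s hs, zero_mul]) x
    have f2 := hF W1 hWs.continuous (fun s _ => (hW01 s).1) hW0 x
    have f3 : 0 ≤ (2 * C0 + 6 * C0 ^ 2) * bd ℓ x := mul_nonneg (by positivity) (hbd6 x).1
    calc _ ≤ (ℓ ^ 6)⁻¹ * A + (2 * C0 + 6 * C0 ^ 2) * bd ℓ x * ((ℓ ^ 6)⁻¹ * K) :=
          add_le_add f1 (mul_le_mul_of_nonneg_left f2 f3)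
      _ = _ := by ring
  have hbi : Integrable (bd ℓ) (nuc ℓ) := CSQ_.bm_int hBMC hbd _
  calc ∫ x, ∫ y, ∫ z, qS ℓ x y z ∂(nuc ℓ) ∂(nuc ℓ) ∂(nuc ℓ)
      ≤ ∫ x, ((ℓ ^ 6)⁻¹ * A + (2 * C0 + 6 * C0 ^ 2) * (ℓ ^ 6)⁻¹ * K * bd ℓ x) ∂(nuc ℓ) := by
        apply integral_mono_ae (CSQ_.bm_int hBMC (CSQ_.bm3_int hBMC hqB) _)
          ((integrable_const _).add (hbi.const_mul _))
        filter_upwards [hae] with x hx
        exact hin x hx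
    _ = (ℓ ^ 6)⁻¹ * A + (2 * C0 + 6 * C0 ^ 2) * (ℓ ^ 6)⁻¹ * K * ∫ x, bd ℓ x ∂(nuc ℓ) := by
        have h12 := integral_const_mul (μ := nuc ℓ) ((2 * C0 + 6 * C0 ^ 2) * (ℓ ^ 6)⁻¹ * K) (bd ℓ)
        rw [integral_add (integrable_const _) (hbi.const_mul _), h12]
        simp only [integral_const, probReal_univ, one_smul]
    _ ≤ (ℓ ^ 6)⁻¹ * A + (2 * C0 + 6 * C0 ^ 2) * (ℓ ^ 6)⁻¹ * K * (2 / ℓ) := by
        have h9 : 0 ≤ (2 * C0 + 6 * C0 ^ 2) * (ℓ ^ 6)⁻¹ * K := by positivity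
        linarith [mul_le_mul_of_nonneg_left hbdi h9]
    _ ≤ (ℓ ^ 6)⁻¹ * A + (2 * (2 * C0 + 6 * C0 ^ 2) * K + 1) / ℓ ^ 7 := by
        have h10 : (2 * C0 + 6 * C0 ^ 2) * (ℓ ^ 6)⁻¹ * K * (2 / ℓ) =
            (2 * (2 * C0 + 6 * C0 ^ 2) * K) / ℓ ^ 7 := by
          rw [div_eq_mul_inv, div_eq_mul_inv, pow_succ ℓ 6, mul_inv]
          ring
        rw [h10]
        have h11 : (2 * (2 * C0 + 6 * C0 ^ 2) * K) / ℓ ^ 7 ≤
            (2 * (2 * C0 + 6 * C0 ^ 2) * K + 1) / ℓ ^ 7 := by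
          apply div_le_div_of_nonneg_right _ (by positivity)
          linarith
        linarith

end Pool.Agent.TBL
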