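import Pool.Agent.TBL.Stmts

set_option autoImplicit false

open MeasureTheory Filter Topology
open scoped ContDiff

namespace Pool.Agent.TBL

open Pool.Agent.TBG

namespace CST_

/-- the triple integral -/
noncomputable def I3 (ℓ : ℝ) (F : E → E → E → ℝ) : ℝ :=
  ∫ x, ∫ y, ∫ z, F x y z ∂(nuc ℓ) ∂(nuc ℓ) ∂(nuc ℓ)

variable {ℓ : ℝ}

theorem bm_int (hB : Stmt_BMC) {α : Type} [MeasurableSpace α] {F : α → ℝ} (hF : BM F)
    (μ : Measure α) [IsFiniteMeasure μ] : Integrable F μ :=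
  (hB.1 α F F hF hF).2.2.2.2.2.2 μ

theorem bm_comp (hB : Stmt_BMC) {α β : Type} [MeasurableSpace α] [MeasurableSpace β] {F : α → ℝ}
    (hF : BM F) {f : β → α} (hf : Measurable f) : BM (fun X => F (f X)) :=
  hB.2.2.2.1 α β F f hF hf

theorem I3_eq (hB : Stmt_BMC) [IsProbabilityMeasure (nuc ℓ)] {F : E → E → E → ℝ} (hF : BM3 F) :
    I3 ℓ F = ∫ p : E × E × E, F p.1 p.2.1 p.2.2 ∂((nuc ℓ).prod ((nuc ℓ).prod (nuc ℓ))) := by
  rw [integral_prod _ (bm_int hB hF _)]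
  unfold I3
  congr 1
  ext x
  have h2 : BM (fun q : E × E => F x q.1 q.2) :=
    bm_comp hB hF (f := fun q : E × E => (x, q.1, q.2)) (by fun_prop)
  rw [integral_prod _ (bm_int hB h2 _)]

theorem I3_add (hB : Stmt_BMC) [IsProbabilityMeasure (nuc ℓ)] {F G : E → E → E → ℝ} (hF : BM3 F)
    (hG : BM3 G) : I3 ℓ (fun x y z => F x y z + G x y z) = I3 ℓ F + I3 ℓ G := by
  have h : BM3 (fun x y z => F x y z + G x y z) := (hB.1 _ _ _ hF hG).1
  rw [I3_eq hB hF, I3_eq hB hG, I3_eq hB h, ← integral_add (bm_int hB hF _) (bm_int hB hG _)]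

theorem I3_sub (hB : Stmt_BMC) [IsProbabilityMeasure (nuc ℓ)] {F G : E → E → E → ℝ} (hF : BM3 F)
    (hG : BM3 G) : I3 ℓ (fun x y z => F x y z - G x y z) = I3 ℓ F - I3 ℓ G := by
  have h : BM3 (fun x y z => F x y z - G x y z) := (hB.1 _ _ _ hF hG).2.1
  rw [I3_eq hB hF, I3_eq hB hG, I3_eq hB h, ← integral_sub (bm_int hB hF _) (bm_int hB hG _)]

theorem I3_sw12 (hB : Stmt_BMC) [IsProbabilityMeasure (nuc ℓ)] {F : E → E → E → ℝ} (hF : BM3 F) :
    I3 ℓ F = I3 ℓ (fun x y z => F y x z) := by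
  unfold I3
  have h1 : BM (fun p : (E × E) × E => F p.1.1 p.1.2 p.2) :=
    bm_comp hB hF (f := fun p : (E × E) × E => (p.1.1, p.1.2, p.2)) (by fun_prop)
  have h2 : BM (fun q : E × E => ∫ z, F q.1 q.2 z ∂(nuc ℓ)) :=
    hB.2.2.2.2 (E × E) E (nuc ℓ) (fun p : (E × E) × E => F p.1.1 p.1.2 p.2) h1
  have h3 : Integrable (Function.uncurry fun x y => ∫ z, F x y z ∂(nuc ℓ))
      ((nuc ℓ).prod (nuc ℓ)) := bm_int hB h2 _
  exact integral_integral_swap h3

theorem I3_sw23 (hB : Stmt_BMC) [IsProbabilityMeasure (nuc ℓ)] {F : E → E → E → ℝ} (hF : BM3 F) :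
    I3 ℓ F = I3 ℓ (fun x y z => F x z y) := by
  unfold I3
  congr 1
  ext x
  have h2 : BM (fun q : E × E => F x q.1 q.2) :=
    bm_comp hB hF (f := fun q : E × E => (x, q.1, q.2)) (by fun_prop)
  have h3 : Integrable (Function.uncurry fun y z => F x y z) ((nuc ℓ).prod (nuc ℓ)) :=
    bm_int hB h2 _
  exact integral_integral_swap h3

theorem bm3_add (hB : Stmt_BMC) {F G : E → E → E → ℝ} (hF : BM3 F) (hG : BM3 G) :
    BM3 (fun x y z => F x y z + G x y z) := (hB.1 _ _ _ hF hG).1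

theorem bm12 (hB : Stmt_BMC) {F : E → E → E → ℝ} (hF : BM3 F) : BM3 (fun x y z => F y x z) :=
  bm_comp hB hF (f := fun p : E × E × E => (p.2.1, p.1, p.2.2)) (by fun_prop)

theorem bm312 (hB : Stmt_BMC) {F : E → E → E → ℝ} (hF : BM3 F) : BM3 (fun x y z => F z x y) :=
  bm_comp hB hF (f := fun p : E × E × E => (p.2.2, p.1, p.2.1)) (by fun_prop)

/-- rotation -/
theorem I3_rot (hB : Stmt_BMC) [IsProbabilityMeasure (nuc ℓ)] {F : E → E → E → ℝ} (hF : BM3 F) :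
    I3 ℓ F = I3 ℓ (fun x y z => F z x y) := by
  rw [I3_sw12 hB hF, I3_sw23 hB (bm12 hB hF)]

end CST_

theorem cst_proof (hBMC : Stmt_BMC) (hMES : Stmt_MES) (hSKF : Stmt_SKF) (hIBC : Stmt_IBC)
    (hGRF : Stmt_GRF) (hIMQ : Stmt_IMQ) (hIMF : Stmt_IMF) (hIMZ : Stmt_IMZ) (hIMN : Stmt_IMN)
    (hIMY : Stmt_IMY) : Stmt_CST := by
  intro ℓ hl8
  have hl : 0 < ℓ := by linarith
  obtain ⟨C, hC, hG⟩ := hGRF
  have hR : (1:ℝ) ≤ ℓ / 8 := by linarith
  obtain ⟨hGs, hgs, hGb, hGz, -⟩ := hG (ℓ / 8) hR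
  obtain ⟨-, -, -, hprob, -, haeL, hcint, -⟩ := hMES ℓ hl
  have := hprob
  set φ := Im ℓ (GR (ℓ / 8)) with hφ
  have hGz' : ∀ s, ℓ ^ 2 / 32 ≤ s → GR (ℓ / 8) s = 0 := by
    intro s hs
    exact (hGz s (by nlinarith)).1
  have hSK : SK φ := hIMZ ℓ _ (ℓ ^ 2 / 32) hl hGs hGz'
  have hsy : Sy3 φ := hIMQ ℓ _
  obtain ⟨hs1, hs2, hs3, -⟩ := hSKF φ hSK.smooth
  -- the right-hand functions
  have hW : BM3 (Im ℓ W1) := by
    refine (hIMY ℓ W1 1 hl ?_ ?_).1
    · unfold W1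
      exact (continuous_const.sub (Real.smoothTransition.continuous.comp
        ((continuous_const.mul continuous_id).sub continuous_const))).measurable
    · intro s _
      unfold W1
      have h1 := Real.smoothTransition.nonneg (2 * s - 1)
      have h2 := Real.smoothTransition.le_one (2 * s - 1)
      rw [abs_le]
      constructor <;> linarith
  have hgB : BM3 (Im ℓ (gR (ℓ / 8))) :=
    (hIMY ℓ (gR (ℓ / 8)) (C / (ℓ / 8) ^ 6) hl hgs.continuous.measurable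
      (fun s hs => (hGb s hs).2.2.2.2)).1
  have hlin : ∀ x y z, Im ℓ (LG (GR (ℓ / 8))) x y z = Im ℓ (gR (ℓ / 8)) x y z - Im ℓ W1 x y z := by
    intro x y z
    have e : ∀ s, LG (GR (ℓ / 8)) s = gR (ℓ / 8) s - W1 s := by
      intro s; unfold LG gR; ring
    unfold Im
    simp only [e]
    rw [← mul_sub, ← Finset.sum_sub_distrib]
    congr 1
    apply Finset.sum_congr rfl
    intro σ _
    rw [← Finset.sum_sub_distrib]
    apply Finset.sum_congr rfl
    intro τ _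
    ring
  -- products
  have hmul : ∀ {F G : E → E → E → ℝ}, BM3 F → BM3 G → BM3 (fun x y z => F x y z * G x y z) :=
    fun hF hG => (hBMC.1 _ _ _ hF hG).2.2.1
  have hF0 : BM3 (fun x y z => φ x y z * Lk φ x y z) := hmul hSK.b0 hSK.b2
  -- step 1: integration by parts in one variable
  have key : ∀ y ∈ Lam ℓ, ∀ z ∈ Lam ℓ,
      ∑ c, ∫ x, (dk c φ x y z) ^ 2 ∂(nuc ℓ) = - ∫ x, φ x y z * Lk φ x y z ∂(nuc ℓ) := by
    intro y hy z hz
    have h1 : ∀ c, ∫ x, (dk c φ x y z) ^ 2 ∂(nuc ℓ) =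
        - ∫ x, φ x y z * pd c (fun x' => dk c φ x' y z) x ∂(nuc ℓ) := by
      intro c
      have := hIBC ℓ c (fun x => φ x y z) (fun x => dk c φ x y z) hl
        ((hs1 y z).of_le (by exact_mod_cast le_top)) ((hs3 c y z).of_le (by exact_mod_cast le_top))
        (fun x hx hxc => hIMN ℓ _ hl hGs hGz' x hx y hy z hz c hxc)
      rw [← this]
      congr 1
      ext x
      rw [pow_two]
      rfl
    have h2 : ∀ c, Integrable (fun x => φ x y z * pd c (fun x' => dk c φ x' y z) x) (nuc ℓ) := by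
      intro c
      apply hcint
      apply (hs1 y z).continuous.mul
      have h3 : ContDiff ℝ 1 (fun x => dk c φ x y z) :=
        (hs3 c y z).of_le (by exact_mod_cast le_top)
      have h4 : Continuous (fderiv ℝ (fun x => dk c φ x y z)) :=
        h3.continuous_fderiv (by norm_num)
      exact h4.clm_apply continuous_const
    rw [Finset.sum_congr rfl (fun c _ => h1 c), Finset.sum_neg_distrib, ← integral_finsetSum _
      (fun c _ => h2 c)]
    congr 2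
    ext x
    rw [← Finset.mul_sum]
    rfl
  -- step 2: the triple integrals
  have hT : ∑ c, ∫ x, ∫ y, ∫ z, (dk c φ x y z) ^ 2 ∂(nuc ℓ) ∂(nuc ℓ) ∂(nuc ℓ) =
      - CST_.I3 ℓ (fun x y z => φ x y z * Lk φ x y z) := by
    have hsq : ∀ c, BM3 (fun x y z => (dk c φ x y z) ^ 2) := fun c =>
      (hBMC.1 _ _ _ (hSK.b1 c) (hSK.b1 c)).2.2.2.1
    have h1 : ∀ c, ∫ x, ∫ y, ∫ z, (dk c φ x y z) ^ 2 ∂(nuc ℓ) ∂(nuc ℓ) ∂(nuc ℓ) =
        CST_.I3 ℓ (fun x y z => (dk c φ z x y) ^ 2) := fun c => CST_.I3_rot hBMC (hsq c)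
    rw [Finset.sum_congr rfl (fun c _ => h1 c), CST_.I3_rot hBMC hF0, Fin.sum_univ_three,
      ← CST_.I3_add hBMC (CST_.bm312 hBMC (hsq 0)) (CST_.bm312 hBMC (hsq 1)),
      ← CST_.I3_add hBMC (CST_.bm3_add hBMC (CST_.bm312 hBMC (hsq 0))
        (CST_.bm312 hBMC (hsq 1))) (CST_.bm312 hBMC (hsq 2))]
    unfold CST_.I3
    rw [← integral_neg]
    apply integral_congr_ae
    filter_upwards [haeL] with x hx
    rw [← integral_neg]
    apply integral_congr_ae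
    filter_upwards [haeL] with y hy
    rw [← key x hx.1 y hy.1, Fin.sum_univ_three]
    have h5 : ∀ c, Integrable (fun z => (dk c φ z x y) ^ 2) (nuc ℓ) := by
      intro c
      apply hcint
      exact (hs3 c x y).continuous.pow 2
    have h6 : Integrable (fun z => (dk 0 φ z x y) ^ 2 + (dk 1 φ z x y) ^ 2) (nuc ℓ) :=
      (h5 0).add (h5 1)
    rw [integral_add h6 (h5 2), integral_add (h5 0) (h5 1)]
  have hsym : 3 * CST_.I3 ℓ (fun x y z => φ x y z * Lk φ x y z) =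
      CST_.I3 ℓ (fun x y z => φ x y z * Im ℓ (gR (ℓ / 8)) x y z) -
      CST_.I3 ℓ (fun x y z => φ x y z * Im ℓ W1 x y z) := by
    have e1 := CST_.I3_sw12 (ℓ := ℓ) hBMC hF0
    have e2 := CST_.I3_rot (ℓ := ℓ) hBMC hF0
    have s1 : (fun x y z => φ y x z * Lk φ y x z) = fun x y z => φ x y z * Lk φ y x z := by
      funext x y z; rw [hsy.s1 x y z]
    have s2 : (fun x y z => φ z x y * Lk φ z x y) = fun x y z => φ x y z * Lk φ z x y := by
      funext x y z; rw [hsy.s1 z x y, hsy.s2 x z y]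
    have b1 : BM3 (fun x y z => φ x y z * Lk φ y x z) := by
      rw [← s1]; exact CST_.bm12 hBMC hF0
    have b2 : BM3 (fun x y z => φ x y z * Lk φ z x y) := by
      rw [← s2]; exact CST_.bm312 hBMC hF0
    rw [s1] at e1
    rw [s2] at e2
    have e3 : 3 * CST_.I3 ℓ (fun x y z => φ x y z * Lk φ x y z) =
        CST_.I3 ℓ (fun x y z => φ x y z * Lk φ x y z) +
        CST_.I3 ℓ (fun x y z => φ x y z * Lk φ y x z) +
        CST_.I3 ℓ (fun x y z => φ x y z * Lk φ z x y) := by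
      rw [← e1, ← e2]; ring
    rw [e3, ← CST_.I3_add hBMC hF0 b1, ← CST_.I3_add hBMC (CST_.bm3_add hBMC hF0 b1) b2,
      ← CST_.I3_sub hBMC (hmul hSK.b0 hgB) (hmul hSK.b0 hW)]
    congr 1
    funext x y z
    rw [← mul_add, ← mul_add, hIMF ℓ _ hl hGs x y z, hlin]
    ring
  rw [hT]
  have : 3 * - CST_.I3 ℓ (fun x y z => φ x y z * Lk φ x y z) =
      CST_.I3 ℓ (fun x y z => φ x y z * Im ℓ W1 x y z) -
      CST_.I3 ℓ (fun x y z => φ x y z * Im ℓ (gR (ℓ / 8)) x y z) := by linarith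
  exact this

end Pool.Agent.TBL
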