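import Pool.Agent.TBL.Stmts

set_option autoImplicit false

open MeasureTheory Filter Topology
open scoped ContDiff

namespace Pool.Agent.TBL

open Pool.Agent.TBG

namespace CSW_

theorem bmi (hBMC : Stmt_BMC) {α : Type} [MeasurableSpace α] {F : α → ℝ} (hF : BM F)
    (μ : Measure α) [IsFiniteMeasure μ] : Integrable F μ :=
  (hBMC.1 α F F hF hF).2.2.2.2.2.2 μ

theorem sl3 (hBMC : Stmt_BMC) {F : E → E → E → ℝ} (hF : BM3 F) (x y : E) :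
    BM (fun z => F x y z) :=
  hBMC.2.2.2.1 _ _ (fun p : E × E × E => F p.1 p.2.1 p.2.2) (fun z => (x, y, z)) hF (by fun_prop)

theorem int3 (hBMC : Stmt_BMC) (ℓ : ℝ) [IsProbabilityMeasure (nuc ℓ)] {F : E → E → E → ℝ}
    (hF : BM3 F) : BM (fun p : E × E => ∫ z, F p.1 p.2 z ∂(nuc ℓ)) := by
  have h1 : BM (fun q : (E × E) × E => F q.1.1 q.1.2 q.2) :=
    hBMC.2.2.2.1 _ _ (fun p : E × E × E => F p.1 p.2.1 p.2.2)
      (fun q : (E × E) × E => (q.1.1, q.1.2, q.2)) hF (by fun_prop)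
  exact hBMC.2.2.2.2 (E × E) E (nuc ℓ) _ h1

theorem int2 (hBMC : Stmt_BMC) (ℓ : ℝ) [IsProbabilityMeasure (nuc ℓ)] {F : E → E → E → ℝ}
    (hF : BM3 F) : BM (fun x => ∫ y, ∫ z, F x y z ∂(nuc ℓ) ∂(nuc ℓ)) :=
  hBMC.2.2.2.2 E E (nuc ℓ) (fun p : E × E => ∫ z, F p.1 p.2 z ∂(nuc ℓ)) (int3 hBMC ℓ hF)

theorem sl2 (hBMC : Stmt_BMC) (ℓ : ℝ) [IsProbabilityMeasure (nuc ℓ)] {F : E → E → E → ℝ}
    (hF : BM3 F) (x : E) : BM (fun y => ∫ z, F x y z ∂(nuc ℓ)) :=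
  hBMC.2.2.2.1 _ _ (fun p : E × E => ∫ z, F p.1 p.2 z ∂(nuc ℓ)) (fun y => (x, y))
    (int3 hBMC ℓ hF) (by fun_prop)

theorem mono2 (hBMC : Stmt_BMC) (hMES : Stmt_MES) {ℓ : ℝ} (hℓ : 0 < ℓ) {F G : E → E → E → ℝ}
    (hF : BM3 F) (hG : BM3 G)
    (h : ∀ x ∈ Lam ℓ, ∀ y ∈ Lam ℓ, ∀ z ∈ Lam ℓ, F x y z ≤ G x y z) (x : E) (hx : x ∈ Lam ℓ) :
    ∫ y, ∫ z, F x y z ∂(nuc ℓ) ∂(nuc ℓ) ≤ ∫ y, ∫ z, G x y z ∂(nuc ℓ) ∂(nuc ℓ) := by
  have hp : IsProbabilityMeasure (nuc ℓ) := (hMES ℓ hℓ).2.2.2.1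
  have hae := (hMES ℓ hℓ).2.2.2.2.2.1
  apply integral_mono_ae (bmi hBMC (sl2 hBMC ℓ hF x) _) (bmi hBMC (sl2 hBMC ℓ hG x) _)
  filter_upwards [hae] with y hy
  apply integral_mono_ae (bmi hBMC (sl3 hBMC hF x y) _) (bmi hBMC (sl3 hBMC hG x y) _)
  filter_upwards [hae] with z hz
  exact h x hx y hy.1 z hz.1

end CSW_

open CSW_ in
theorem csw_proof (hBMC : Stmt_BMC) (hMES : Stmt_MES) (hPRF : Stmt_PRF) (hGRF : Stmt_GRF)
    (hQTF : Stmt_QTF) (hIMX : Stmt_IMX) (hIMW : Stmt_IMW) (hIMY : Stmt_IMY)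
    (hBDI : Stmt_BDI) : Stmt_CSW := by
  obtain ⟨CG, hCG, hGR⟩ := hGRF
  obtain ⟨CX, hCX, hX⟩ := hIMX
  obtain ⟨CW, hCW, hW⟩ := hIMW
  obtain ⟨hW1s, hP1s, hW1b, -, hW1z, -, -, hP1b, -⟩ := hPRF
  obtain ⟨hQT, hQTs, -⟩ := hQTF
  set I2 : ℝ := ∫ z : E × E, W1 (QQ z) with hI2
  have hI20 : 0 ≤ I2 := integral_nonneg (fun z => (hW1b _).1)
  set C' : ℝ := CW / 8 + CX * CG * (1 + 6 * CW) with hC'
  have hC'pos : 0 < C' := by positivity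
  refine ⟨2 * (C' * I2) + 1, by positivity, ?_⟩
  intro ℓ hℓ8
  have hℓ : 0 < ℓ := by linarith
  have hR : 1 ≤ ℓ / 8 := by linarith
  have hp : IsProbabilityMeasure (nuc ℓ) := (hMES ℓ hℓ).2.2.2.1
  have hae := (hMES ℓ hℓ).2.2.2.2.2.1
  obtain ⟨hGs, -, hGb, -, -⟩ := hGR (ℓ / 8) hR
  obtain ⟨hbdBM, hbdb, hbdi, hBDIF⟩ := hBDI ℓ hℓ
  -- the functions
  have hPWc : Continuous (fun s => P1 s * W1 s) := hP1s.continuous.mul hW1s.continuous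
  have bmφ : BM3 (Im ℓ (GR (ℓ / 8))) := by
    refine (hIMY ℓ (GR (ℓ / 8)) 1 hℓ hGs.continuous.measurable ?_).1
    intro s hs
    have h1 := hGb s hs
    have h2 := hP1b s hs
    rw [abs_of_nonneg h1.1]
    linarith [h1.2.1, h2.2.1]
  have bmw : BM3 (Im ℓ W1) := by
    refine (hIMY ℓ W1 1 hℓ hW1s.continuous.measurable ?_).1
    intro s _
    rw [abs_of_nonneg (hW1b s).1]
    exact (hW1b s).2
  have bmφw : BM3 (fun x y z => Im ℓ (GR (ℓ / 8)) x y z * Im ℓ W1 x y z) :=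
    (hBMC.1 _ _ _ bmφ bmw).2.2.1
  have bmW : BM3 (fun x y z => W1 (QT x y z)) := by
    refine ⟨(hW1s.continuous.comp hQTs.continuous).measurable, 1, ?_⟩
    intro p
    rw [abs_of_nonneg (hW1b _).1]
    exact (hW1b _).2
  have bmPW : BM3 (fun x y z => P1 (QT x y z) * W1 (QT x y z)) := by
    refine ⟨(hPWc.comp hQTs.continuous).measurable, 1, ?_⟩
    intro p
    have h0 := (hQT p.1 p.2.1 p.2.2).2.1
    have h1 := hP1b _ h0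
    have h2 := hW1b (QT p.1 p.2.1 p.2.2)
    rw [abs_of_nonneg (mul_nonneg h1.1.le h2.1)]
    nlinarith [h1.1, h1.2.1, h2.1, h2.2]
  have bmbd3 : BM3 (fun x _y _z => bd ℓ x) :=
    hBMC.2.2.2.1 _ _ (bd ℓ) (fun p : E × E × E => p.1) hbdBM (by fun_prop)
  have bmbW : BM3 (fun x y z => bd ℓ x * W1 (QT x y z)) := (hBMC.1 _ _ _ bmbd3 bmW).2.2.1
  have bmbW' : BM3 (fun x y z => C' * (bd ℓ x * W1 (QT x y z))) :=
    (hBMC.1 _ _ _ bmbW bmbW).2.2.2.2.2.1 C'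
  have bmG : BM3 (fun x y z => P1 (QT x y z) * W1 (QT x y z) + C' * (bd ℓ x * W1 (QT x y z))) :=
    (hBMC.1 _ _ _ bmPW bmbW').1
  -- pointwise bound
  have hpt : ∀ x ∈ Lam ℓ, ∀ y ∈ Lam ℓ, ∀ z ∈ Lam ℓ,
      Im ℓ (GR (ℓ / 8)) x y z * Im ℓ W1 x y z ≤
        P1 (QT x y z) * W1 (QT x y z) + C' * (bd ℓ x * W1 (QT x y z)) := by
    intro x hx y hy z hz
    have h0 := (hQT x y z).2.1
    have h1 := hX ℓ (GR (ℓ / 8)) CG hℓ hCG (by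
      intro s hs
      have h2 := hGb s hs
      refine ⟨h2.1, ?_⟩
      rw [← abs_of_nonneg h2.1]
      exact h2.2.2.1) x hx y hy z hz
    have h2 := hW ℓ hℓ x hx y hy z hz
    have h3 := (hGb _ h0).2.1
    have h4 := hbdb x
    have h5 := hP1b _ h0
    have h6 := hW1b (QT x y z)
    set p := P1 (QT x y z)
    set v := W1 (QT x y z)
    set β := bd ℓ x
    have h7 : Im ℓ (GR (ℓ / 8)) x y z ≤ p + CX * CG * β := by linarith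
    have h8 : 0 ≤ p + CX * CG * β := by
      have := mul_nonneg (mul_nonneg hCX.le hCG.le) h4.1
      linarith [h5.1]
    calc Im ℓ (GR (ℓ / 8)) x y z * Im ℓ W1 x y z ≤ (p + CX * CG * β) * Im ℓ W1 x y z :=
          mul_le_mul_of_nonneg_right h7 h2.1
      _ ≤ (p + CX * CG * β) * ((1 + CW * β) * v) := mul_le_mul_of_nonneg_left h2.2 h8
      _ = p * v + (p * CW + CX * CG * (1 + CW * β)) * (β * v) := by ring
      _ ≤ p * v + C' * (β * v) := by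
          have h9 : p * CW + CX * CG * (1 + CW * β) ≤ C' := by
            rw [hC']
            have h10 : p * CW ≤ CW / 8 := by nlinarith [h5.2.1]
            have h11 : CX * CG * (1 + CW * β) ≤ CX * CG * (1 + 6 * CW) := by
              apply mul_le_mul_of_nonneg_left _ (by positivity)
              nlinarith [h4.2]
            linarith
          have h12 : 0 ≤ β * v := mul_nonneg h4.1 h6.1
          nlinarith
  -- integrate over y, z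
  have hxyz : ∀ x ∈ Lam ℓ, ∫ y, ∫ z, Im ℓ (GR (ℓ / 8)) x y z * Im ℓ W1 x y z ∂(nuc ℓ) ∂(nuc ℓ) ≤
      (ℓ ^ 6)⁻¹ * (∫ z : E × E, W1 (QQ z) * P1 (QQ z)) + (C' * ((ℓ ^ 6)⁻¹ * I2)) * bd ℓ x := by
    intro x hx
    refine (mono2 hBMC hMES hℓ bmφw bmG hpt x hx).trans ?_
    have e1 : ∫ y, ∫ z, (P1 (QT x y z) * W1 (QT x y z) + C' * (bd ℓ x * W1 (QT x y z)))
        ∂(nuc ℓ) ∂(nuc ℓ) = (∫ y, ∫ z, P1 (QT x y z) * W1 (QT x y z) ∂(nuc ℓ) ∂(nuc ℓ)) +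
        C' * (bd ℓ x * ∫ y, ∫ z, W1 (QT x y z) ∂(nuc ℓ) ∂(nuc ℓ)) := by
      have e2 : ∀ y, ∫ z, (P1 (QT x y z) * W1 (QT x y z) + C' * (bd ℓ x * W1 (QT x y z)))
          ∂(nuc ℓ) = (∫ z, P1 (QT x y z) * W1 (QT x y z) ∂(nuc ℓ)) +
          C' * (bd ℓ x * ∫ z, W1 (QT x y z) ∂(nuc ℓ)) := by
        intro y
        rw [integral_add (bmi hBMC (sl3 hBMC bmPW x y) _) (bmi hBMC (sl3 hBMC bmbW' x y) _),
          integral_const_mul, integral_const_mul]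
      simp only [e2]
      rw [integral_add (bmi hBMC (sl2 hBMC ℓ bmPW x) _)]
      · rw [integral_const_mul, integral_const_mul]
      · exact ((bmi hBMC (sl2 hBMC ℓ bmW x) (nuc ℓ)).const_mul _).const_mul _
    rw [e1]
    have h1 := hBDIF (fun s => P1 s * W1 s) hPWc
      (fun s hs => mul_nonneg (hP1b s hs).1.le (hW1b s).1)
      (fun s hs => by simp only [hW1z s hs, mul_zero]) x
    have h2 := hBDIF W1 hW1s.continuous (fun s _ => (hW1b s).1) hW1z x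
    have h3 : ∫ z : E × E, P1 (QQ z) * W1 (QQ z) = ∫ z : E × E, W1 (QQ z) * P1 (QQ z) := by
      congr 1
      funext z
      ring
    rw [h3] at h1
    have h4 : C' * (bd ℓ x * ∫ y, ∫ z, W1 (QT x y z) ∂(nuc ℓ) ∂(nuc ℓ)) ≤
        C' * (bd ℓ x * ((ℓ ^ 6)⁻¹ * I2)) := by
      apply mul_le_mul_of_nonneg_left _ hC'pos.le
      exact mul_le_mul_of_nonneg_left h2 (hbdb x).1
    linarith [h1, h4]
  -- integrate over x
  have bmR : BM (fun x => (ℓ ^ 6)⁻¹ * (∫ z : E × E, W1 (QQ z) * P1 (QQ z)) +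
      (C' * ((ℓ ^ 6)⁻¹ * I2)) * bd ℓ x) := by
    have h1 := (hBMC.1 _ _ _ hbdBM hbdBM).2.2.2.2.2.1 (C' * ((ℓ ^ 6)⁻¹ * I2))
    exact (hBMC.1 _ _ _ (hBMC.2.1 E ((ℓ ^ 6)⁻¹ * (∫ z : E × E, W1 (QQ z) * P1 (QQ z)))) h1).1
  calc ∫ x, ∫ y, ∫ z, Im ℓ (GR (ℓ / 8)) x y z * Im ℓ W1 x y z ∂(nuc ℓ) ∂(nuc ℓ) ∂(nuc ℓ)
      ≤ ∫ x, ((ℓ ^ 6)⁻¹ * (∫ z : E × E, W1 (QQ z) * P1 (QQ z)) +
        (C' * ((ℓ ^ 6)⁻¹ * I2)) * bd ℓ x) ∂(nuc ℓ) := by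
        apply integral_mono_ae (bmi hBMC (int2 hBMC ℓ bmφw) _) (bmi hBMC bmR _)
        filter_upwards [hae] with x hx
        exact hxyz x hx.1
    _ = (ℓ ^ 6)⁻¹ * (∫ z : E × E, W1 (QQ z) * P1 (QQ z)) +
        (C' * ((ℓ ^ 6)⁻¹ * I2)) * ∫ x, bd ℓ x ∂(nuc ℓ) := by
        rw [integral_add (integrable_const _) ((bmi hBMC hbdBM _).const_mul _),
          integral_const, integral_const_mul]
        simp
    _ ≤ (ℓ ^ 6)⁻¹ * (∫ z : E × E, W1 (QQ z) * P1 (QQ z)) +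
        (C' * ((ℓ ^ 6)⁻¹ * I2)) * (2 / ℓ) := by
        have : 0 ≤ C' * ((ℓ ^ 6)⁻¹ * I2) := by positivity
        have h2 := mul_le_mul_of_nonneg_left hbdi this
        linarith
    _ = (ℓ ^ 6)⁻¹ * (∫ z : E × E, W1 (QQ z) * P1 (QQ z)) + 2 * (C' * I2) / ℓ ^ 7 := by
        field_simp
    _ ≤ _ := by
        have : 2 * (C' * I2) / ℓ ^ 7 ≤ (2 * (C' * I2) + 1) / ℓ ^ 7 := by
          apply div_le_div_of_nonneg_right _ (by positivity)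
          linarith
        linarith

end Pool.Agent.TBL
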