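import Pool.Agent.TBL.Stmts
import Pool.Agent.TBG.IBP

/-!
# Three-body Bose gases (MP_80dc41_mp), lower bound: module DEN
-/

set_option autoImplicit false

open MeasureTheory Filter Topology
open scoped ContDiff

namespace Pool.Agent.TBL

open Pool.Agent.TBG

namespace DEN_

theorem box_open (N : ℕ) (L : ℝ) : IsOpen (box N L) := by
  have : box N L = ⋂ i : Fin N, ⋂ c : Fin 3, {X : Fin N → E | |X i c| < L / 2} := by
    ext X; simp [box]
  rw [this]
  refine isOpen_iInter_of_finite fun i => isOpen_iInter_of_finite fun c => ?_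
  refine isOpen_lt ?_ continuous_const
  fun_prop

theorem box_mem (N : ℕ) (L : ℝ) (hL : 0 < L) : (0 : Fin N → E) ∈ box N L := by
  intro i c; simp [hL]

theorem box_bdd (N : ℕ) (L : ℝ) (hL : 0 < L) : Bornology.IsBounded (box N L) := by
  rw [Metric.isBounded_iff_subset_closedBall (0 : Fin N → E)]
  refine ⟨3 * L, fun X hX => ?_⟩
  rw [mem_closedBall_zero_iff, pi_norm_le_iff_of_nonneg (by positivity)]
  intro i
  have h1 : ‖X i‖ ^ 2 ≤ (3 * L) ^ 2 := by
    rw [EuclideanSpace.norm_sq_eq, Fin.sum_univ_three]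
    have h : ∀ c : Fin 3, ‖X i c‖ ^ 2 ≤ L ^ 2 := by
      intro c
      have := hX i c
      rw [Real.norm_eq_abs]
      have h0 := abs_nonneg (X i c)
      exact pow_le_pow_left₀ h0 (by linarith) 2
    have a := h 0
    have b := h 1
    have c := h 2
    nlinarith [sq_nonneg L]
  exact le_of_sq_le_sq h1 (by positivity)
where
  le_of_sq_le_sq {a b : ℝ} (h : a ^ 2 ≤ b ^ 2) (hb : 0 ≤ b) : a ≤ b := by
    exact le_trans (le_abs_self a) (by simpa [abs_of_nonneg hb] using sq_le_sq.mp h)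

theorem trial_exists (N : ℕ) (L : ℝ) (hL : 0 < L) :
    ∃ (Ψ : (Fin N → E) → ℂ) (G : Fin N → Fin 3 → (Fin N → E) → ℂ), IsTrial N L Ψ G := by
  have hpos : 0 < volume (box N L) := (box_open N L).measure_pos volume ⟨0, box_mem N L hL⟩
  have hfin : volume (box N L) < ⊤ := (box_bdd N L hL).measure_lt_top
  have : IsFiniteMeasure ((volume : Measure (Fin N → E)).restrict (box N L)) := ⟨by simpa using hfin⟩
  set m : ℝ := (volume (box N L)).toReal with hm
  have hm0 : 0 < m := ENNReal.toReal_pos hpos.ne' hfin.ne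
  set s : ℝ := (Real.sqrt m)⁻¹ with hs
  have hs2 : m * s ^ 2 = 1 := by
    rw [hs, inv_pow, Real.sq_sqrt hm0.le]
    exact mul_inv_cancel₀ hm0.ne'
  refine ⟨fun _ => ((s : ℝ) : ℂ), fun _ _ _ => 0, ⟨memLp_const _, fun _ _ => memLp_const _, ?_, ?_, ?_⟩⟩
  · intro i c η hη hc hsub
    have h0 := (ibp_proof (Fin N → E) volume η η (dir i c) (hη.of_le (by simp)) (hη.of_le (by simp)) hc).1
    unfold dv at h0
    have h1 : ∫ X in box N L, fderiv ℝ η X (dir i c) = 0 := by
      rw [setIntegral_eq_integral_of_forall_compl_eq_zero, h0]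
      intro X hX
      have hX2 : X ∉ tsupport (fderiv ℝ η) := fun h' => hX (hsub (tsupport_fderiv_subset ℝ h'))
      have h2 : fderiv ℝ η X = 0 := image_eq_zero_of_notMem_tsupport hX2
      simp [h2]
    rw [integral_const_mul, integral_complex_ofReal, h1]
    simp
  · intro σ
    exact Eventually.of_forall fun X => rfl
  · rw [integral_const]
    simp only [Complex.norm_real, Real.norm_eq_abs, sq_abs, smul_eq_mul]
    rw [← hs2]
    congr 1
    simp [Measure.real, hm]

end DEN_

open DEN_ in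
theorem den_proof (hDNA : Stmt_DNA) (hDNB : Stmt_DNB) : Stmt_DEN := by
  intro V N L e hV hVc hL hLB
  have key : ∀ (u : (Fin N → E) → ℝ) (g : Fin N → Fin 3 → (Fin N → E) → ℝ), SobR N L u g →
      e * ∫ X in box N L, u X ^ 2 ≤ enS V N L u g := by
    intro u g hu
    have h1 : ∀ ε : ℝ, 0 < ε → e * ∫ X in box N L, u X ^ 2 ≤ enS V N L u g + (1 + |e|) * ε := by
      intro ε hε
      obtain ⟨v, hv1, hv2, hv3, hv4⟩ := hDNB V N L u g ε hV hVc hL hε hu
      have h2 := hLB v hv1 hv2
      have h3 : e * (∫ X in box N L, u X ^ 2) - e * ∫ X in box N L, v X ^ 2 ≤ |e| * ε := by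
        rw [← mul_sub]
        refine (le_abs_self _).trans ?_
        rw [abs_mul, abs_sub_comm]
        exact mul_le_mul_of_nonneg_left hv4 (abs_nonneg e)
      linarith
    by_contra hcon
    push Not at hcon
    have hp : 0 < 1 + |e| := by positivity
    set d : ℝ := e * (∫ X in box N L, u X ^ 2) - enS V N L u g with hd
    have hd0 : 0 < d := by linarith
    have h2 := h1 (d / (2 * (1 + |e|))) (by positivity)
    have h3 : (1 + |e|) * (d / (2 * (1 + |e|))) = d / 2 := by
      field_simp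
    rw [h3] at h2
    linarith
  unfold E0
  obtain ⟨Ψ₀, G₀, h₀⟩ := trial_exists N L hL
  refine le_csInf ⟨_, Ψ₀, G₀, h₀, rfl⟩ ?_
  rintro a ⟨Ψ, G, hT, rfl⟩
  obtain ⟨h1, h2, h3, h4⟩ := hDNA V N L Ψ G hV hL hT
  have k1 := key _ _ h1
  have k2 := key _ _ h2
  rw [h3]
  calc e = e * ((∫ X in box N L, (Ψ X).re ^ 2) + (∫ X in box N L, (Ψ X).im ^ 2)) := by rw [h4, mul_one]
    _ ≤ _ := by rw [mul_add]; exact add_le_add k1 k2

end Pool.Agent.TBL
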