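import Pool.Agent.TBL.Stmts

/-!
# Module DNB of squad TBL: approximation of Sobolev functions of the box by smooth functions
-/

set_option autoImplicit false

open MeasureTheory Filter Topology
open scoped ContDiff

namespace Pool.Agent.TBL

open Pool.Agent.TBG

namespace DNB_

theorem pot_nonneg {N : ℕ} {V : E → E → ℝ} (hV : Admissible V) (X : Fin N → E) : 0 ≤ pot V X := by
  unfold pot
  refine Finset.sum_nonneg fun i _ => Finset.sum_nonneg fun j _ => Finset.sum_nonneg fun k _ => ?_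
  split_ifs
  · exact hV.nonneg _ _
  · exact le_rfl

theorem box_open (N : ℕ) (L : ℝ) : IsOpen (box N L) := by
  have : box N L = ⋂ i, ⋂ c, {X : Fin N → E | |X i c| < L / 2} := by
    ext X
    simp only [box, Set.mem_ofPred_eq, Set.mem_iInter]
  rw [this]
  refine isOpen_iInter_of_finite fun i => isOpen_iInter_of_finite fun c => ?_
  refine isOpen_lt ?_ continuous_const
  fun_prop

theorem norm_le_of_box {N : ℕ} {L : ℝ} (hL : 0 < L) {X : Fin N → E} (hX : X ∈ box N L) : ‖X‖ ≤ L := by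
  refine (pi_norm_le_iff_of_nonneg hL.le).2 fun i => ?_
  rw [EuclideanSpace.norm_eq]
  refine Real.sqrt_le_iff.2 ⟨hL.le, ?_⟩
  rw [Fin.sum_univ_three]
  have h : ∀ c, ‖X i c‖ ^ 2 ≤ L ^ 2 / 4 := by
    intro c
    have h1 : |X i c| < L / 2 := hX i c
    have h2 : ‖X i c‖ = |X i c| := Real.norm_eq_abs _
    rw [h2]
    have h3 := abs_nonneg (X i c)
    nlinarith
  have h0 := h 0
  have h1 := h 1
  have h2 := h 2
  nlinarith

theorem uc_sum {α J : Type} [UniformSpace α] (s : Finset J) (F : J → α → ℝ)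
    (h : ∀ p ∈ s, UniformContinuous (F p)) : UniformContinuous (fun X => ∑ p ∈ s, F p X) := by
  classical
  induction s using Finset.induction_on with
  | empty => simpa using uniformContinuous_const
  | insert a s ha ih =>
    simp only [Finset.sum_insert ha]
    exact (h a (Finset.mem_insert_self a s)).add (ih fun p hp => h p (Finset.mem_insert_of_mem hp))

theorem uc_pot {N : ℕ} {V : E → E → ℝ} (hV : Admissible V) (hc : Continuous (fun z : E × E => V z.1 z.2)) :
    UniformContinuous (fun X : Fin N → E => pot V X) := by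
  obtain ⟨R, hR⟩ := hV.supp
  have hcs : HasCompactSupport (fun z : E × E => V z.1 z.2) := by
    refine HasCompactSupport.intro (isCompact_closedBall (0 : E × E) R) fun z hz => ?_
    rw [mem_closedBall_zero_iff, not_le, Prod.norm_def, lt_max_iff] at hz
    exact hR _ _ hz
  have hu : UniformContinuous (fun z : E × E => V z.1 z.2) := hcs.uniformContinuous_of_continuous hc
  unfold pot
  refine uc_sum _ _ fun i _ => uc_sum _ _ fun j _ => uc_sum _ _ fun k _ => ?_
  by_cases h : i < j ∧ j < k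
  · simp only [h, and_self, if_true]
    have h2 : UniformContinuous (fun X : Fin N → E => (X i - X j, X i - X k)) :=
      ((Pi.uniformContinuous_proj _ i).sub (Pi.uniformContinuous_proj _ j)).prodMk
        ((Pi.uniformContinuous_proj _ i).sub (Pi.uniformContinuous_proj _ k))
    exact hu.comp h2
  · simp only [h, if_false]
    exact uniformContinuous_const

theorem bm_pot (hB : Stmt_BMC) {N : ℕ} {V : E → E → ℝ} (hV : Admissible V) :
    BM (fun X : Fin N → E => pot V X) := by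
  obtain ⟨C, hC⟩ := hV.bdd
  have hb : BM (fun z : E × E => V z.1 z.2) :=
    ⟨hV.meas, C, fun z => by rw [abs_of_nonneg (hV.nonneg _ _)]; exact hC _ _⟩
  unfold pot
  refine hB.2.2.1 _ _ _ _ fun i _ => hB.2.2.1 _ _ _ _ fun j _ => hB.2.2.1 _ _ _ _ fun k _ => ?_
  by_cases h : i < j ∧ j < k
  · simp only [h, and_self, if_true]
    refine hB.2.2.2.1 (E × E) (Fin N → E) (fun z => V z.1 z.2) (fun X => (X i - X j, X i - X k)) hb ?_
    exact ((measurable_pi_apply i).sub (measurable_pi_apply j)).prodMk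
        ((measurable_pi_apply i).sub (measurable_pi_apply k))
  · simp only [h, if_false]
    exact hB.2.1 _ 0

theorem bm_indicator {α : Type} [MeasurableSpace α] {s : Set α} (hs : MeasurableSet s) {F : α → ℝ} (hF : BM F) :
    BM (s.indicator F) := by
  obtain ⟨h1, C, hC⟩ := hF
  refine ⟨h1.indicator hs, C, fun X => ?_⟩
  by_cases h : X ∈ s
  · rw [Set.indicator_of_mem h]; exact hC X
  · rw [Set.indicator_of_notMem h, abs_zero]; exact (abs_nonneg _).trans (hC X)

theorem exists_mol (N : ℕ) {r : ℝ} (hr : 0 < r) : ∃ η : (Fin N → E) → ℝ, Mol r η := by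
  let f : ContDiffBump (0 : Fin N → E) := ⟨r / 2, r, by positivity, by linarith⟩
  exact ⟨f.normed volume, f.contDiff_normed, fun Y => f.nonneg_normed Y,
    (f.tsupport_normed_eq (μ := volume)).subset, f.hasCompactSupport_normed, f.integral_normed⟩

theorem mol_mono {N : ℕ} {r r' : ℝ} {η : (Fin N → E) → ℝ} (h : Mol r η) (hr : r ≤ r') : Mol r' η :=
  ⟨h.smooth, h.nonneg, h.supp.trans (Metric.closedBall_subset_closedBall hr), h.cpt, h.one⟩

theorem jens (hDNJ : Stmt_DNJ) {N : ℕ} {s r : ℝ} {η f h : (Fin N → E) → ℝ} (Ω : Set (Fin N → E)) (hs : 0 < s)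
    (hr : 0 < r) (hη : Mol r η) (hf : MemLp f 2 volume) (hh : BM h) (hh0 : ∀ X, 0 ≤ h X)
    (hfΩ : ∀ X, X ∉ Ω → f X = 0) (H : (Fin N → E) → ℝ)
    (hH : ∀ Z ∈ Ω, ∀ Y, ‖Y‖ ≤ r → h (s⁻¹ • Z + Y) ≤ H Z) (hfH : Integrable (fun Z => f Z ^ 2 * H Z)) :
    ∫ X, h X * (mol s η f X) ^ 2 ≤ (s ^ (3 * N))⁻¹ * ∫ Z, f Z ^ 2 * H Z := by
  refine (hDNJ N s r η f h hs hr hη hf hh hh0).2.trans ?_
  refine mul_le_mul_of_nonneg_left ?_ (by positivity)
  have hi0 : ∀ Z, 0 ≤ ∫ Y, η Y * h (s⁻¹ • Z + Y) := fun Z =>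
    integral_nonneg fun Y => mul_nonneg (hη.nonneg Y) (hh0 _)
  refine integral_mono_of_nonneg ?_ hfH ?_
  · exact Eventually.of_forall fun Z => mul_nonneg (sq_nonneg _) (hi0 Z)
  · refine Eventually.of_forall fun Z => ?_
    by_cases hZ : Z ∈ Ω
    · refine mul_le_mul_of_nonneg_left ?_ (sq_nonneg _)
      have hηi : Integrable η := hη.smooth.continuous.integrable_of_hasCompactSupport hη.cpt
      have h1 : ∫ Y, η Y * H Z = H Z := by
        rw [integral_mul_const, hη.one, one_mul]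
      rw [← h1]
      refine integral_mono_of_nonneg ?_ (hηi.mul_const _) ?_
      · exact Eventually.of_forall fun Y => mul_nonneg (hη.nonneg Y) (hh0 _)
      · refine Eventually.of_forall fun Y => ?_
        by_cases hY : ‖Y‖ ≤ r
        · exact mul_le_mul_of_nonneg_left (hH Z hZ Y hY) (hη.nonneg Y)
        · have h2 : η Y = 0 := by
            refine image_eq_zero_of_notMem_tsupport fun h3 => hY ?_
            have h4 := hη.supp h3
            rwa [mem_closedBall_zero_iff] at h4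
          simp [h2]
    · simp [hfΩ Z hZ]

end DNB_

open DNB_ in
theorem dnb_proof (hBMC : Stmt_BMC) (hPTE : Stmt_PTE) (hDNM : Stmt_DNM) (hDNJ : Stmt_DNJ)
    (hDNL : Stmt_DNL) : Stmt_DNB := by
  intro V N L u g ε hV hVc hL hε hS
  set Ω : Set (Fin N → E) := box N L with hΩ
  have hΩm : MeasurableSet Ω := (box_open N L).measurableSet
  set f : (Fin N → E) → ℝ := Ω.indicator u with hf
  set G : Fin N → Fin 3 → (Fin N → E) → ℝ := fun i c => Ω.indicator (g i c) with hG
  have hfL : MemLp f 2 volume := (memLp_indicator_iff_restrict hΩm).2 hS.memL2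
  have hGL : ∀ i c, MemLp (G i c) 2 volume := fun i c =>
    (memLp_indicator_iff_restrict hΩm).2 (hS.gradL2 i c)
  have hf0 : ∀ X, X ∉ Ω → f X = 0 := fun X hX => Set.indicator_of_notMem hX _
  have hG0 : ∀ i c X, X ∉ Ω → G i c X = 0 := fun i c X hX => Set.indicator_of_notMem hX _
  have hfi : Integrable (fun X => f X ^ 2) := hfL.integrable_sq
  have hGi : ∀ i c, Integrable (fun X => G i c X ^ 2) := fun i c => (hGL i c).integrable_sq
  have hpB : BM (fun X : Fin N → E => pot V X) := bm_pot hBMC hV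
  have hp0 : ∀ X : Fin N → E, 0 ≤ pot V X := fun X => pot_nonneg hV X
  have hpi : Integrable (fun X => pot V X * f X ^ 2) := by
    obtain ⟨hm, C, hC⟩ := hpB
    exact hfi.bdd_mul (c := C) hm.aestronglyMeasurable
      (Eventually.of_forall fun X => by rw [Real.norm_eq_abs]; exact hC X)
  set U : ℝ := ∫ X, f X ^ 2 with hU
  have hU0 : 0 ≤ U := integral_nonneg fun X => sq_nonneg _
  set e : ℝ := enS V N L u g with he
  have he1 : e = ∑ i, ∑ c, (∫ X, G i c X ^ 2) + ∫ X, pot V X * f X ^ 2 := by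
    rw [he]
    unfold enS
    rw [← integral_indicator hΩm]
    have h1 : (Ω.indicator fun X => ∑ i, ∑ c, (g i c X) ^ 2 + pot V X * u X ^ 2) =
        fun X => ∑ i, ∑ c, (G i c X) ^ 2 + pot V X * f X ^ 2 := by
      funext X
      by_cases hX : X ∈ Ω
      · simp only [hG, hf, Set.indicator_of_mem hX]
      · simp only [hG, hf, Set.indicator_of_notMem hX]
        simp
    rw [h1, integral_add _ hpi, integral_finsetSum]
    · congr 1
      refine Finset.sum_congr rfl fun i _ => ?_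
      rw [integral_finsetSum]
      exact fun c _ => hGi i c
    · exact fun i _ => integrable_finsetSum _ fun c _ => hGi i c
    · exact integrable_finsetSum _ fun i _ => integrable_finsetSum _ fun c _ => hGi i c
  have he0 : 0 ≤ e := by
    rw [he1]
    refine add_nonneg (Finset.sum_nonneg fun i _ => Finset.sum_nonneg fun c _ => ?_) ?_
    · exact integral_nonneg fun X => sq_nonneg _
    · exact integral_nonneg fun X => mul_nonneg (hp0 X) (sq_nonneg _)
  have hUu : ∫ X in Ω, u X ^ 2 = U := by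
    rw [hU, ← integral_indicator hΩm]
    congr 1
    funext X
    by_cases hX : X ∈ Ω
    · simp only [hf, Set.indicator_of_mem hX]
    · simp only [hf, Set.indicator_of_notMem hX]
      simp
  -- the constants
  obtain ⟨δ₀, hδ₀, hlow⟩ := hDNL N L f ε hL hε hfL hf0
  set w₁ : ℝ := ε / (4 * (U + 1)) with hw₁
  have hw₁0 : 0 < w₁ := by positivity
  have hw₁U : w₁ * U ≤ ε / 4 := by
    have h1 : w₁ * (4 * (U + 1)) = ε := by rw [hw₁]; field_simp
    nlinarith
  obtain ⟨δ₁, hδ₁, huc⟩ := Metric.uniformContinuous_iff.1 (uc_pot (N := N) hV hVc) w₁ hw₁0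
  set τ : ℝ := min 1 (ε / (4 * (e + U + 1))) with hτ
  have hτ0 : 0 < τ := lt_min one_pos (by positivity)
  have hτ1 : τ ≤ 1 := min_le_left _ _
  have hτe : τ * (e + U + 1) ≤ ε / 4 := by
    have h1 : τ ≤ ε / (4 * (e + U + 1)) := min_le_right _ _
    have h2 : ε / (4 * (e + U + 1)) * (e + U + 1) = ε / 4 := by field_simp
    rw [← h2]
    exact mul_le_mul_of_nonneg_right h1 (by positivity)
  obtain ⟨s, hs0, hs1, hsδ, hsL, hsN⟩ : ∃ s : ℝ, 0 < s ∧ s < 1 ∧ 1 - δ₀ < s ∧ (s⁻¹ - 1) * L < δ₁ / 2 ∧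
      (s ^ (3 * N))⁻¹ < 1 + τ := by
    have a1 : ∀ᶠ s : ℝ in 𝓝[<] 1, 0 < s := eventually_nhdsWithin_of_eventually_nhds (lt_mem_nhds one_pos)
    have a2 : ∀ᶠ s : ℝ in 𝓝[<] 1, s < 1 := self_mem_nhdsWithin
    have a3 : ∀ᶠ s : ℝ in 𝓝[<] 1, 1 - δ₀ < s :=
      eventually_nhdsWithin_of_eventually_nhds (lt_mem_nhds (by linarith))
    have c4 : ContinuousAt (fun s : ℝ => (s⁻¹ - 1) * L) 1 := by
      have : ContinuousAt (fun s : ℝ => s⁻¹) 1 := continuousAt_inv₀ one_ne_zero
      exact (this.sub continuousAt_const).mul continuousAt_const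
    have a4 : ∀ᶠ s : ℝ in 𝓝[<] 1, (s⁻¹ - 1) * L < δ₁ / 2 :=
      eventually_nhdsWithin_of_eventually_nhds (c4.eventually (gt_mem_nhds (by simpa using hδ₁)))
    have c5 : ContinuousAt (fun s : ℝ => (s ^ (3 * N))⁻¹) 1 := by
      refine ContinuousAt.inv₀ (continuousAt_id.pow _) ?_
      simp
    have a5 : ∀ᶠ s : ℝ in 𝓝[<] 1, (s ^ (3 * N))⁻¹ < 1 + τ :=
      eventually_nhdsWithin_of_eventually_nhds (c5.eventually (gt_mem_nhds (by simpa using hτ0)))
    obtain ⟨s, h⟩ := (a1.and (a2.and (a3.and (a4.and a5)))).exists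
    exact ⟨s, h⟩
  have hsi : 1 < s⁻¹ := (one_lt_inv₀ hs0).2 hs1
  set r : ℝ := min δ₀ (min (δ₁ / 2) (L / 4 * (s⁻¹ - 1))) with hr
  have hr0 : 0 < r := lt_min hδ₀ (lt_min (by positivity) (mul_pos (by positivity) (by linarith)))
  have hrδ₀ : r ≤ δ₀ := min_le_left _ _
  have hrδ₁ : r ≤ δ₁ / 2 := (min_le_right _ _).trans (min_le_left _ _)
  have hrL : r ≤ L / 4 * (s⁻¹ - 1) := (min_le_right _ _).trans (min_le_right _ _)
  have hsr : s * (L / 2 + r) < L / 2 := by
    have h1 : s * (s⁻¹ - 1) = 1 - s := by rw [mul_sub, mul_inv_cancel₀ hs0.ne', mul_one]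
    have h2 : s * r ≤ L / 4 * (1 - s) := by
      have := mul_le_mul_of_nonneg_left hrL hs0.le
      calc s * r ≤ s * (L / 4 * (s⁻¹ - 1)) := this
        _ = L / 4 * (s * (s⁻¹ - 1)) := by ring
        _ = L / 4 * (1 - s) := by rw [h1]
    have h3 : 0 < L / 4 * (1 - s) := mul_pos (by positivity) (by linarith)
    nlinarith
  obtain ⟨η, hη⟩ := exists_mol N hr0
  obtain ⟨hv1, hv2, hv3⟩ := hDNM N L s r u g η hL hs0 hr0 hsr hS hη
  set v : (Fin N → E) → ℝ := mol s η f with hv
  set κ : ℝ := (s ^ (3 * N))⁻¹ with hκ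
  have hκ0 : 0 ≤ κ := by positivity
  -- the weights
  set h1 : (Fin N → E) → ℝ := Ω.indicator fun _ => (1 : ℝ) with hh1
  set h2 : (Fin N → E) → ℝ := Ω.indicator fun X => pot V X with hh2
  have h1B : BM h1 := bm_indicator hΩm (hBMC.2.1 _ 1)
  have h2B : BM h2 := bm_indicator hΩm hpB
  have h10 : ∀ X, 0 ≤ h1 X := fun X => Set.indicator_nonneg (fun _ _ => zero_le_one) X
  have h11 : ∀ X, h1 X ≤ 1 := fun X => by
    by_cases hX : X ∈ Ω
    · rw [hh1, Set.indicator_of_mem hX]
    · rw [hh1, Set.indicator_of_notMem hX]; exact zero_le_one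
  have h20 : ∀ X, 0 ≤ h2 X := fun X => Set.indicator_nonneg (fun X _ => hp0 X) X
  have hJ1 : ∀ F : (Fin N → E) → ℝ, MemLp F 2 volume → (∀ X, X ∉ Ω → F X = 0) →
      Integrable (fun X => h1 X * (mol s η F X) ^ 2) ∧
      ∫ X, h1 X * (mol s η F X) ^ 2 ≤ κ * ∫ X, F X ^ 2 := by
    intro F hF hF0
    refine ⟨(hDNJ N s r η F h1 hs0 hr0 hη hF h1B h10).1, ?_⟩
    have h := jens hDNJ Ω hs0 hr0 hη hF h1B h10 hF0 (fun _ => 1) (fun Z _ Y _ => h11 _)
      (by simpa using hF.integrable_sq)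
    simpa using h
  have hJ2i : Integrable (fun X => h2 X * v X ^ 2) :=
    (hDNJ N s r η f h2 hs0 hr0 hη hfL h2B h20).1
  have hJ2 : ∫ X, h2 X * v X ^ 2 ≤ κ * ((∫ X, pot V X * f X ^ 2) + w₁ * U) := by
    have hint : Integrable (fun Z => f Z ^ 2 * (pot V Z + w₁)) := by
      have : (fun Z => f Z ^ 2 * (pot V Z + w₁)) = fun Z => pot V Z * f Z ^ 2 + w₁ * f Z ^ 2 := by
        funext Z; ring
      rw [this]
      exact hpi.add (hfi.const_mul _)
    have h := jens hDNJ Ω hs0 hr0 hη hfL h2B h20 hf0 (fun Z => pot V Z + w₁) ?_ hint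
    · have e1 : ∫ Z, f Z ^ 2 * (pot V Z + w₁) = (∫ X, pot V X * f X ^ 2) + w₁ * U := by
        have : (fun Z => f Z ^ 2 * (pot V Z + w₁)) = fun Z => pot V Z * f Z ^ 2 + w₁ * f Z ^ 2 := by
          funext Z; ring
        rw [this, integral_add hpi (hfi.const_mul _), integral_const_mul]
      rw [e1] at h
      exact h
    · intro Z hZ Y hY
      by_cases hX : s⁻¹ • Z + Y ∈ Ω
      · rw [hh2, Set.indicator_of_mem hX]
        have hd : dist (s⁻¹ • Z + Y) Z < δ₁ := by
          rw [dist_eq_norm]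
          have e2 : s⁻¹ • Z + Y - Z = (s⁻¹ - 1) • Z + Y := by rw [sub_smul, one_smul]; abel
          rw [e2]
          calc ‖(s⁻¹ - 1) • Z + Y‖ ≤ ‖(s⁻¹ - 1) • Z‖ + ‖Y‖ := norm_add_le _ _
            _ = (s⁻¹ - 1) * ‖Z‖ + ‖Y‖ := by rw [norm_smul, Real.norm_eq_abs, abs_of_pos (by linarith)]
            _ ≤ (s⁻¹ - 1) * L + r :=
                add_le_add (mul_le_mul_of_nonneg_left (norm_le_of_box hL hZ) (by linarith)) hY
            _ < δ₁ := by linarith
        have h3 := huc hd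
        rw [Real.dist_eq] at h3
        have h4 := (abs_lt.1 h3).2
        linarith
      · rw [hh2, Set.indicator_of_notMem hX]
        exact add_nonneg (hp0 Z) hw₁0.le
  -- the norm
  have hnv : ∫ X in Ω, v X ^ 2 = ∫ X, h1 X * v X ^ 2 := by
    rw [← integral_indicator hΩm]
    congr 1
    funext X
    by_cases hX : X ∈ Ω
    · simp only [hh1, Set.indicator_of_mem hX, one_mul]
    · simp only [hh1, Set.indicator_of_notMem hX, zero_mul]
  have hκτ : κ ≤ 1 + τ := hsN.le
  have hup : ∫ X in Ω, v X ^ 2 ≤ U + ε := by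
    rw [hnv]
    have h := (hJ1 f hfL hf0).2
    have h2 : κ * U ≤ (1 + τ) * U := mul_le_mul_of_nonneg_right hκτ hU0
    have h3 : τ * U ≤ ε / 4 := by nlinarith
    calc ∫ X, h1 X * v X ^ 2 ≤ κ * U := h
      _ ≤ (1 + τ) * U := h2
      _ ≤ U + ε := by nlinarith
  have hlo : U - ε ≤ ∫ X in Ω, v X ^ 2 := hlow s η hsδ hs1 (mol_mono hη hrδ₀)
  refine ⟨v, hv1, hv2, ?_, ?_⟩
  · have e3 : ∫ X in Ω, (∑ i, ∑ c, (di i c v X) ^ 2 + potS V X * v X ^ 2) =
        ∑ i, ∑ c, s ^ 2 * (∫ X, h1 X * (mol s η (G i c) X) ^ 2) + ∫ X, h2 X * v X ^ 2 := by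
      rw [← integral_indicator hΩm]
      have e4 : (Ω.indicator fun X => ∑ i, ∑ c, (di i c v X) ^ 2 + potS V X * v X ^ 2) =
          fun X => ∑ i, ∑ c, s ^ 2 * (h1 X * (mol s η (G i c) X) ^ 2) + h2 X * v X ^ 2 := by
        funext X
        by_cases hX : X ∈ Ω
        · simp only [hh1, hh2, Set.indicator_of_mem hX, one_mul, hPTE V N X hV]
          congr 1
          refine Finset.sum_congr rfl fun i _ => Finset.sum_congr rfl fun c _ => ?_
          rw [hv3 X hX i c]
          ring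
        · simp only [hh1, hh2, Set.indicator_of_notMem hX]
          simp
      have hint : ∀ i c, Integrable (fun X => s ^ 2 * (h1 X * (mol s η (G i c) X) ^ 2)) := fun i c =>
        ((hJ1 (G i c) (hGL i c) (hG0 i c)).1).const_mul _
      rw [e4, integral_add _ hJ2i, integral_finsetSum]
      · congr 1
        refine Finset.sum_congr rfl fun i _ => ?_
        rw [integral_finsetSum]
        · refine Finset.sum_congr rfl fun c _ => ?_
          rw [integral_const_mul]
        · exact fun c _ => hint i c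
      · exact fun i _ => integrable_finsetSum _ fun c _ => hint i c
      · exact integrable_finsetSum _ fun i _ => integrable_finsetSum _ fun c _ => hint i c
    rw [e3]
    have e5 : ∑ i, ∑ c, s ^ 2 * (∫ X, h1 X * (mol s η (G i c) X) ^ 2) ≤ κ * ∑ i, ∑ c, (∫ X, G i c X ^ 2) := by
      rw [Finset.mul_sum]
      refine Finset.sum_le_sum fun i _ => ?_
      rw [Finset.mul_sum]
      refine Finset.sum_le_sum fun c _ => ?_
      have h := (hJ1 (G i c) (hGL i c) (hG0 i c)).2
      have h3 : 0 ≤ ∫ X, h1 X * (mol s η (G i c) X) ^ 2 :=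
        integral_nonneg fun X => mul_nonneg (h10 X) (sq_nonneg _)
      have h4 : s ^ 2 ≤ 1 := by nlinarith
      calc s ^ 2 * (∫ X, h1 X * (mol s η (G i c) X) ^ 2) ≤ 1 * (∫ X, h1 X * (mol s η (G i c) X) ^ 2) :=
            mul_le_mul_of_nonneg_right h4 h3
        _ ≤ κ * ∫ X, G i c X ^ 2 := by rw [one_mul]; exact h
    have e6 : ∑ i, ∑ c, s ^ 2 * (∫ X, h1 X * (mol s η (G i c) X) ^ 2) + ∫ X, h2 X * v X ^ 2 ≤
        κ * (e + w₁ * U) := by
      rw [he1]
      calc _ ≤ κ * ∑ i, ∑ c, (∫ X, G i c X ^ 2) + κ * ((∫ X, pot V X * f X ^ 2) + w₁ * U) := add_le_add e5 hJ2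
        _ = _ := by ring
    have h0 : 0 ≤ w₁ * U := by positivity
    have h3 : κ * (e + w₁ * U) ≤ (1 + τ) * (e + w₁ * U) := mul_le_mul_of_nonneg_right hκτ (by positivity)
    have h4 : τ * e ≤ ε / 4 := by nlinarith
    have h5 : τ * (w₁ * U) ≤ ε / 4 := by nlinarith
    have h6 : (1 + τ) * (e + w₁ * U) ≤ e + ε := by nlinarith
    exact e6.trans (h3.trans h6)
  · rw [hUu, abs_le]
    constructor <;> linarith

end Pool.Agent.TBL
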