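import Pool.Agent.TBL.Stmts

/-!
# TBL, module DNJ: Jensen's inequality for the mollification
-/

set_option autoImplicit false

open MeasureTheory Filter Topology

namespace Pool.Agent.TBL

open Pool.Agent.TBG

namespace DNJ_

theorem finrank_eq (N : ℕ) : Module.finrank ℝ (Fin N → E) = 3 * N := by
  rw [Module.finrank_pi_fintype]
  simp [mul_comm]

/-- change of variables -/
theorem cov {N : ℕ} {s : ℝ} (hs : 0 < s) (Y : Fin N → E) (φ : (Fin N → E) → ℝ) :
    ∫ X, φ (s • (X - Y)) = (s ^ (3 * N))⁻¹ * ∫ Z, φ Z := by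
  rw [integral_sub_right_eq_self (fun X => φ (s • X)) Y, Measure.integral_comp_smul,
    finrank_eq, smul_eq_mul, abs_of_pos (by positivity)]

theorem integrable_cov {N : ℕ} {s : ℝ} (hs : 0 < s) (Y : Fin N → E) {φ : (Fin N → E) → ℝ}
    (hφ : Integrable φ) : Integrable (fun X => φ (s • (X - Y))) := by
  have h1 : Integrable (fun X => φ (s • X)) := hφ.comp_smul hs.ne'
  exact h1.comp_sub_right Y

/-- the other variable -/
theorem integrable_cov' {N : ℕ} {s : ℝ} (hs : 0 < s) (X : Fin N → E) {φ : (Fin N → E) → ℝ}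
    (hφ : Integrable φ) : Integrable (fun Y => φ (s • (X - Y))) := by
  have h1 : Integrable (fun Y => φ ((-s) • Y)) := hφ.comp_smul (neg_ne_zero.2 hs.ne')
  have h2 := h1.comp_sub_right X
  refine h2.congr (Eventually.of_forall fun Y => ?_)
  show φ ((-s) • (Y - X)) = φ (s • (X - Y))
  rw [neg_smul, ← smul_neg, neg_sub]

theorem sq_integrable {N : ℕ} {f : (Fin N → E) → ℝ} (hf : MemLp f 2 volume) :
    Integrable (fun X => f X ^ 2) := hf.integrable_sq

end DNJ_

open DNJ_ in
theorem dnj_proof (_hBMC : Stmt_BMC) : Stmt_DNJ := by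
  intro N s ε η f h hs _ hη hf hh hh0
  have hs3 : 0 < (s ^ (3 * N))⁻¹ := by positivity
  -- a measurable representative
  set g : (Fin N → E) → ℝ := hf.1.mk f with hg
  have hgm : StronglyMeasurable g := hf.1.stronglyMeasurable_mk
  have hfg : f =ᵐ[volume] g := hf.1.ae_eq_mk
  have hg2 : MemLp g 2 volume := (memLp_congr_ae hfg).1 hf
  have hgsq : Integrable (fun X => g X ^ 2) := hg2.integrable_sq
  have hηc : Continuous η := hη.smooth.continuous
  have hηi : Integrable η := hηc.integrable_of_hasCompactSupport hη.cpt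
  obtain ⟨B, hB⟩ := hη.cpt.exists_bound_of_continuous hηc
  obtain ⟨H, hH⟩ := hh.2
  -- almost everywhere equality after the substitution
  have hqmp : ∀ X : Fin N → E, Measure.QuasiMeasurePreserving (fun Y : Fin N → E => s • (X - Y))
      volume volume := by
    intro X
    refine ⟨by fun_prop, ?_⟩
    refine Measure.AbsolutelyContinuous.mk fun A hA hA0 => ?_
    rw [Measure.map_apply (by fun_prop) hA]
    have h1 : ∫ Y, A.indicator (fun _ => (1 : ℝ)) (s • (X - Y)) = 0 := by
      have e1 : (fun Y : Fin N → E => A.indicator (fun _ => (1 : ℝ)) (s • (X - Y))) =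
          fun Y => (fun W => A.indicator (fun _ => (1 : ℝ)) ((-s) • W)) (Y - X) := by
        funext Y
        show A.indicator (fun _ => (1 : ℝ)) (s • (X - Y)) =
          A.indicator (fun _ => (1 : ℝ)) ((-s) • (Y - X))
        rw [neg_smul, ← smul_neg, neg_sub]
      rw [e1, integral_sub_right_eq_self
          (fun W => A.indicator (fun _ => (1 : ℝ)) ((-s) • W)),
        Measure.integral_comp_smul, integral_indicator_const _ hA, measureReal_def, hA0]
      simp
    have h2 : Integrable (fun Y : Fin N → E => A.indicator (fun _ => (1 : ℝ)) (s • (X - Y))) := by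
      refine integrable_cov' hs X ?_
      rw [integrable_indicator_iff hA]
      exact integrableOn_const (by rw [hA0]; exact ENNReal.zero_ne_top)
    have h3 := (integral_eq_zero_iff_of_nonneg (fun Y => by
      show (0 : ℝ) ≤ A.indicator (fun _ => (1 : ℝ)) (s • (X - Y))
      exact Set.indicator_nonneg (fun _ _ => zero_le_one) _) h2).1 h1
    rw [Filter.EventuallyEq, ae_iff] at h3
    refine measure_mono_null ?_ h3
    intro Y hY
    show ¬ (A.indicator (fun _ => (1 : ℝ)) (s • (X - Y)) = 0)
    rw [Set.indicator_of_mem (show s • (X - Y) ∈ A from hY)]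
    exact one_ne_zero
  have hmolg : ∀ X, mol s η f X = ∫ Y, η Y * g (s • (X - Y)) := by
    intro X
    unfold mol
    refine integral_congr_ae ?_
    filter_upwards [(hqmp X).ae_eq hfg] with Y hY
    have : f (s • (X - Y)) = g (s • (X - Y)) := hY
    rw [this]
  -- the integrand on the product
  set G : (Fin N → E) × (Fin N → E) → ℝ := fun p => η p.2 * g (s • (p.1 - p.2)) ^ 2 with hG
  have hGm : Measurable G := by
    refine (hηc.measurable.comp measurable_snd).mul ?_
    exact (hgm.measurable.comp (by fun_prop)).pow_const 2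
  have hGi : Integrable G (volume.prod volume) := by
    rw [integrable_prod_iff' hGm.aestronglyMeasurable]
    refine ⟨Eventually.of_forall fun Y => ?_, ?_⟩
    · exact (integrable_cov hs Y hgsq).const_mul (η Y)
    · have e1 : (fun Y : Fin N → E => ∫ X, ‖G (X, Y)‖) =
          fun Y => η Y * ((s ^ (3 * N))⁻¹ * ∫ Z, g Z ^ 2) := by
        funext Y
        have e2 : (fun X => ‖G (X, Y)‖) = fun X => η Y * g (s • (X - Y)) ^ 2 := by
          funext X
          rw [hG, Real.norm_of_nonneg]
          exact mul_nonneg (hη.nonneg _) (sq_nonneg _)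
        rw [e2, integral_const_mul, cov hs Y (fun Z => g Z ^ 2)]
      rw [e1]
      exact hηi.mul_const _
  have hhGi : Integrable (fun p : (Fin N → E) × (Fin N → E) => h p.1 * G p)
      (volume.prod volume) := by
    refine hGi.bdd_mul (c := H) ?_ ?_
    · exact (hh.1.comp measurable_fst).aestronglyMeasurable
    · exact Eventually.of_forall fun p => by
        rw [Real.norm_eq_abs]
        exact hH _
  -- Jensen
  have hjen : ∀ X, mol s η f X ^ 2 ≤ ∫ Y, G (X, Y) := by
    intro X
    rw [hmolg X]
    set m := ∫ Y, η Y * g (s • (X - Y)) with hm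
    have i2 : Integrable (fun Y => η Y * g (s • (X - Y)) ^ 2) := by
      refine (integrable_cov' hs X hgsq).bdd_mul (c := B) hηc.aestronglyMeasurable ?_
      exact Eventually.of_forall hB
    have i1 : Integrable (fun Y => η Y * g (s • (X - Y))) := by
      refine Integrable.mono' (hηi.add i2) ?_ ?_
      · exact (hηc.measurable.mul (hgm.measurable.comp (by fun_prop))).aestronglyMeasurable
      · refine Eventually.of_forall fun Y => ?_
        rw [norm_mul, Real.norm_of_nonneg (hη.nonneg Y), Real.norm_eq_abs]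
        show η Y * |g (s • (X - Y))| ≤ η Y + η Y * g (s • (X - Y)) ^ 2
        have h1 : |g (s • (X - Y))| ≤ 1 + g (s • (X - Y)) ^ 2 := by
          have := sq_nonneg (|g (s • (X - Y))| - 1)
          have h2 := sq_abs (g (s • (X - Y)))
          nlinarith [abs_nonneg (g (s • (X - Y)))]
        have := mul_le_mul_of_nonneg_left h1 (hη.nonneg Y)
        linarith
    have h1 : 0 ≤ ∫ Y, η Y * (g (s • (X - Y)) - m) ^ 2 :=
      integral_nonneg fun Y => mul_nonneg (hη.nonneg Y) (sq_nonneg _)
    have e1 : ∫ Y, η Y * (g (s • (X - Y)) - m) ^ 2 =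
        (∫ Y, η Y * g (s • (X - Y)) ^ 2) - 2 * m * m + m ^ 2 * 1 := by
      have e2 : (fun Y => η Y * (g (s • (X - Y)) - m) ^ 2) = fun Y =>
          (η Y * g (s • (X - Y)) ^ 2 - 2 * m * (η Y * g (s • (X - Y)))) + m ^ 2 * η Y := by
        funext Y
        ring
      have i3 : Integrable (fun Y => η Y * g (s • (X - Y)) ^ 2 -
          2 * m * (η Y * g (s • (X - Y)))) := i2.sub (i1.const_mul (2 * m))
      rw [e2, integral_add i3 (hηi.const_mul (m ^ 2)),
        integral_sub i2 (i1.const_mul (2 * m)), integral_const_mul, integral_const_mul, hη.one]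
    rw [e1] at h1
    show m ^ 2 ≤ ∫ Y, η Y * g (s • (X - Y)) ^ 2
    linarith
  -- integrability
  have hmeas : AEStronglyMeasurable (fun X => h X * mol s η f X ^ 2) volume := by
    refine hh.1.aestronglyMeasurable.mul ?_
    have e1 : mol s η f = fun X => ∫ Y, η Y * g (s • (X - Y)) := funext hmolg
    rw [e1]
    have h1 : StronglyMeasurable (fun p : (Fin N → E) × (Fin N → E) =>
        η p.2 * g (s • (p.1 - p.2))) := by
      refine Measurable.stronglyMeasurable ?_
      exact (hηc.measurable.comp measurable_snd).mul (hgm.measurable.comp (by fun_prop))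
    exact (h1.integral_prod_right').aestronglyMeasurable.pow 2
  have hdom : Integrable (fun X => ∫ Y, h X * G (X, Y)) volume := hhGi.integral_prod_left
  have hle : ∀ X, h X * mol s η f X ^ 2 ≤ ∫ Y, h X * G (X, Y) := by
    intro X
    rw [integral_const_mul]
    exact mul_le_mul_of_nonneg_left (hjen X) (hh0 X)
  have hint : Integrable (fun X => h X * mol s η f X ^ 2) := by
    refine hdom.mono' hmeas (Eventually.of_forall fun X => ?_)
    rw [Real.norm_of_nonneg (mul_nonneg (hh0 X) (sq_nonneg _))]
    exact hle X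
  refine ⟨hint, (integral_mono hint hdom hle).trans (le_of_eq ?_)⟩
  -- the computation
  rw [integral_integral_swap (f := fun X Y => h X * G (X, Y)) hhGi]
  have e1 : ∀ Y : Fin N → E, ∫ X, h X * G (X, Y) =
      (s ^ (3 * N))⁻¹ * ∫ Z, η Y * (h (s⁻¹ • Z + Y) * g Z ^ 2) := by
    intro Y
    rw [← cov hs Y (fun Z => η Y * (h (s⁻¹ • Z + Y) * g Z ^ 2))]
    refine integral_congr_ae (Eventually.of_forall fun X => ?_)
    show h X * (η Y * g (s • (X - Y)) ^ 2) =
      η Y * (h (s⁻¹ • (s • (X - Y)) + Y) * g (s • (X - Y)) ^ 2)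
    rw [smul_smul, inv_mul_cancel₀ hs.ne', one_smul, sub_add_cancel]
    ring
  simp_rw [e1]
  rw [integral_const_mul]
  congr 1
  have hi : Integrable (fun p : (Fin N → E) × (Fin N → E) =>
      η p.1 * (h (s⁻¹ • p.2 + p.1) * g p.2 ^ 2)) (volume.prod volume) := by
    have h1 : Integrable (fun p : (Fin N → E) × (Fin N → E) => η p.1 * g p.2 ^ 2)
        (volume.prod volume) := hηi.mul_prod hgsq
    have h2 : Integrable (fun p : (Fin N → E) × (Fin N → E) =>
        h (s⁻¹ • p.2 + p.1) * (η p.1 * g p.2 ^ 2)) (volume.prod volume) := by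
      refine h1.bdd_mul (c := H) ?_ ?_
      · exact (hh.1.comp (by fun_prop)).aestronglyMeasurable
      · exact Eventually.of_forall fun p => by
          rw [Real.norm_eq_abs]
          exact hH _
    refine h2.congr (Eventually.of_forall fun p => ?_)
    show h (s⁻¹ • p.2 + p.1) * (η p.1 * g p.2 ^ 2) = η p.1 * (h (s⁻¹ • p.2 + p.1) * g p.2 ^ 2)
    ring
  rw [integral_integral_swap (f := fun Y Z => η Y * (h (s⁻¹ • Z + Y) * g Z ^ 2)) hi]
  refine integral_congr_ae ?_
  filter_upwards [hfg] with Z hZ
  rw [hZ, ← integral_const_mul]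
  refine integral_congr_ae (Eventually.of_forall fun Y => ?_)
  show η Y * (h (s⁻¹ • Z + Y) * g Z ^ 2) = g Z ^ 2 * (η Y * h (s⁻¹ • Z + Y))
  ring

end Pool.Agent.TBL
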