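import Pool.Agent.TBL.Stmts

/-!
# Three-body Bose gases (MP_80dc41_mp): module DNL, the norm does not drop
-/

set_option autoImplicit false

open MeasureTheory Filter Topology
open scoped ContDiff

namespace Pool.Agent.TBL

open Pool.Agent.TBG

namespace DNL_

variable {N : ℕ}

lemma vreg : (volume : Measure (Fin N → E)).Regular :=
  Measure.Regular.of_sigmaCompactSpace_of_isLocallyFiniteMeasure _

lemma vneg : (volume : Measure (Fin N → E)).IsNegInvariant := by
  have := vreg (N := N)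
  infer_instance

lemma sq_int_of_memLp {f : (Fin N → E) → ℝ} (hf : MemLp f 2 volume) : Integrable (fun X => f X ^ 2) :=
  hf.integrable_sq

/-- integrability of the integrand of `mol` -/
lemma int_mol {s ε : ℝ} (hs : 0 < s) {η f : (Fin N → E) → ℝ} (hη : Mol ε η) (hf : MemLp f 2 volume)
    (X : Fin N → E) : Integrable (fun Y => η Y * f (s • (X - Y))) := by
  have := vneg (N := N)
  have hηL : MemLp η 2 (volume : Measure (Fin N → E)) := hη.smooth.continuous.memLp_of_hasCompactSupport hη.cpt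
  have h1 : Integrable (fun Y => η Y ^ 2) := hηL.integrable_sq
  have h2 : Integrable (fun Y => η (X - Y) ^ 2) := h1.comp_sub_left X
  have h3 : Integrable (fun Z => η (X - s⁻¹ • Z) ^ 2) := h2.comp_smul (inv_ne_zero hs.ne')
  have hcont : Continuous (fun Z : Fin N → E => η (X - s⁻¹ • Z)) :=
    hη.smooth.continuous.comp (by fun_prop)
  have hF : Integrable (fun Z => η (X - s⁻¹ • Z) * f Z) := by
    refine Integrable.mono' ((h3.add hf.integrable_sq).div_const 2)
      (hcont.aestronglyMeasurable.mul hf.aestronglyMeasurable) ?_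
    refine Eventually.of_forall (fun Z => ?_)
    simp only [Pi.add_apply, norm_mul, Real.norm_eq_abs]
    have := two_mul_le_add_sq (|η (X - s⁻¹ • Z)|) (|f Z|)
    rw [sq_abs, sq_abs] at this
    linarith
  have h4 := (hF.comp_smul (R := s) hs.ne').comp_sub_left X
  refine h4.congr (Eventually.of_forall (fun Y => ?_))
  simp only
  rw [smul_smul, inv_mul_cancel₀ hs.ne', one_smul, sub_sub_cancel]

lemma mol_sub {s ε : ℝ} (hs : 0 < s) {η f g : (Fin N → E) → ℝ} (hη : Mol ε η) (hf : MemLp f 2 volume)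
    (hg : MemLp g 2 volume) (X : Fin N → E) :
    mol s η (fun Z => f Z - g Z) X = mol s η f X - mol s η g X := by
  unfold mol
  rw [← integral_sub (int_mol hs hη hf X) (int_mol hs hη hg X)]
  congr 1
  ext Y
  ring

/-- a bound of the difference for continuous functions -/
lemma mol_near {s δ wo : ℝ} {η g : (Fin N → E) → ℝ} (hη : Mol δ η) (X : Fin N → E)
    (hint : Integrable (fun Y => η Y * g (s • (X - Y))))
    (h : ∀ Y, ‖Y‖ ≤ δ → |g (s • (X - Y)) - g X| ≤ wo) : |mol s η g X - g X| ≤ wo := by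
  have hηi : Integrable η := by
    by_contra hc
    have := integral_undef hc
    rw [hη.one] at this
    exact one_ne_zero this
  have h1 : mol s η g X - g X = ∫ Y, η Y * (g (s • (X - Y)) - g X) := by
    have h2 : ∀ Y, η Y * (g (s • (X - Y)) - g X) = η Y * g (s • (X - Y)) - η Y * g X := fun Y => by ring
    simp_rw [h2]
    rw [integral_sub hint (hηi.mul_const _), integral_mul_const, hη.one, one_mul]
    rfl
  rw [h1, ← Real.norm_eq_abs]
  refine (norm_integral_le_of_norm_le (g := fun Y => η Y * wo) (hηi.mul_const _) ?_).trans ?_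
  · refine Eventually.of_forall (fun Y => ?_)
    rw [norm_mul, Real.norm_eq_abs, Real.norm_eq_abs, abs_of_nonneg (hη.nonneg Y)]
    by_cases hY : Y ∈ tsupport η
    · have := hη.supp hY
      rw [Metric.mem_closedBall, dist_zero_right] at this
      exact mul_le_mul_of_nonneg_left (h Y this) (hη.nonneg Y)
    · rw [image_eq_zero_of_notMem_tsupport hY]
      simp
  · rw [integral_mul_const, hη.one, one_mul]

lemma box_finite (L : ℝ) : volume (box N L) < ⊤ := by
  have h : box N L ⊆ Metric.closedBall 0 (Real.sqrt 3 * (|L| / 2)) := by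
    intro X hX
    rw [Metric.mem_closedBall, dist_zero_right]
    refine (pi_norm_le_iff_of_nonneg (by positivity)).2 (fun i => ?_)
    rw [EuclideanSpace.norm_eq]
    have h1 : ∀ c, ‖X i c‖ ^ 2 ≤ (|L| / 2) ^ 2 := fun c => by
      have h2 : |X i c| < L / 2 := hX i c
      have h3 : L ≤ |L| := le_abs_self L
      rw [Real.norm_eq_abs]
      exact pow_le_pow_left₀ (abs_nonneg _) (by linarith) 2
    have h4 : ∑ c, ‖X i c‖ ^ 2 ≤ 3 * (|L| / 2) ^ 2 := by
      refine (Finset.sum_le_sum (fun c _ => h1 c)).trans (by simp)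
    calc Real.sqrt (∑ c, ‖X i c‖ ^ 2) ≤ Real.sqrt (3 * (|L| / 2) ^ 2) := Real.sqrt_le_sqrt h4
      _ = Real.sqrt 3 * (|L| / 2) := by
        rw [Real.sqrt_mul (by norm_num), Real.sqrt_sq (by positivity)]
  exact (measure_mono h).trans_lt (isCompact_closedBall _ _).measure_lt_top

lemma box_bdd (L : ℝ) : ∃ R : ℝ, 0 < R ∧ ∀ X ∈ box N L, ‖X‖ ≤ R := by
  refine ⟨Real.sqrt 3 * (|L| / 2) + 1, by positivity, fun X hX => ?_⟩
  refine le_trans ?_ (le_add_of_nonneg_right zero_le_one)
  refine (pi_norm_le_iff_of_nonneg (by positivity)).2 (fun i => ?_)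
  rw [EuclideanSpace.norm_eq]
  have h1 : ∀ c, ‖X i c‖ ^ 2 ≤ (|L| / 2) ^ 2 := fun c => by
    have h2 : |X i c| < L / 2 := hX i c
    have h3 : L ≤ |L| := le_abs_self L
    rw [Real.norm_eq_abs]
    exact pow_le_pow_left₀ (abs_nonneg _) (by linarith) 2
  have h4 : ∑ c, ‖X i c‖ ^ 2 ≤ 3 * (|L| / 2) ^ 2 := by
    refine (Finset.sum_le_sum (fun c _ => h1 c)).trans (by simp)
  calc Real.sqrt (∑ c, ‖X i c‖ ^ 2) ≤ Real.sqrt (3 * (|L| / 2) ^ 2) := Real.sqrt_le_sqrt h4
    _ = Real.sqrt 3 * (|L| / 2) := by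
      rw [Real.sqrt_mul (by norm_num), Real.sqrt_sq (by positivity)]

lemma box_meas (L : ℝ) : MeasurableSet (box N L) := by
  have : box N L = ⋂ i : Fin N, ⋂ c : Fin 3, {X : Fin N → E | |X i c| < L / 2} := by
    ext X
    simp [box]
  rw [this]
  refine MeasurableSet.iInter (fun i => MeasurableSet.iInter (fun c => ?_))
  exact (isOpen_lt (by fun_prop) continuous_const).measurableSet

end DNL_

open DNL_

theorem dnl_proof (_hBMC : Stmt_BMC) (hDNJ : Stmt_DNJ) : Stmt_DNL := by
  intro N L f ε hL hε hf hf0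
  -- the constants
  obtain ⟨A, hA0, hA⟩ : ∃ A : ℝ, 0 < A ∧ ∫ X, f X ^ 2 ≤ A :=
    ⟨(∫ X, f X ^ 2) + 1, by have : 0 ≤ ∫ X, f X ^ 2 := integral_nonneg (fun X => sq_nonneg _)
                            linarith, by linarith⟩
  set t : ℝ := ε / (4 * A) with ht
  have ht0 : 0 < t := by positivity
  set e1 : ℝ := ε / (2 * (1 + t⁻¹)) with he1
  have he10 : 0 < e1 := by positivity
  have := vreg (N := N)
  obtain ⟨g, hgc, hgf, hgcont, hgL⟩ := MemLp.exists_hasCompactSupport_integral_rpow_sub_le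
    (μ := (volume : Measure (Fin N → E))) (p := 2) (by norm_num) (f := f)
    (by simpa using hf) (ε := e1 / 18) (by positivity)
  have hgL2 : MemLp g 2 (volume : Measure (Fin N → E)) := by simpa using hgL
  have hfg : ∫ X, (f X - g X) ^ 2 ≤ e1 / 18 := by
    refine le_trans (le_of_eq ?_) hgf
    congr 1
    ext X
    rw [Real.rpow_two, Real.norm_eq_abs, sq_abs]
  set v : ℝ := (volume (box N L)).toReal with hv
  have hv0 : 0 ≤ v := ENNReal.toReal_nonneg
  obtain ⟨wo, hwz, hwo⟩ : ∃ wo : ℝ, 0 < wo ∧ 3 * (v * wo ^ 2) ≤ e1 / 2 := by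
    refine ⟨Real.sqrt (e1 / (6 * (v + 1))), Real.sqrt_pos.2 (by positivity), ?_⟩
    rw [Real.sq_sqrt (by positivity)]
    have : v / (v + 1) ≤ 1 := by rw [div_le_one (by linarith)]; linarith
    have h2 : 3 * (v * (e1 / (6 * (v + 1)))) = e1 / 2 * (v / (v + 1)) := by
      field_simp
      ring
    rw [h2]
    nlinarith
  obtain ⟨R, hR0, hR⟩ := box_bdd (N := N) L
  have hunif := hgc.uniformContinuous_of_continuous hgcont
  rw [Metric.uniformContinuous_iff] at hunif
  obtain ⟨d, hd0, hd⟩ := hunif wo hwz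
  set δ : ℝ := min (d / (2 * (R + 1))) (1 / (6 * N + 2)) with hδ
  have hN0 : (0 : ℝ) ≤ N := Nat.cast_nonneg N
  have hδ0 : 0 < δ := lt_min (by positivity) (by positivity)
  have hδ1 : δ * (R + 1) < d := by
    have h1 : δ ≤ d / (2 * (R + 1)) := min_le_left _ _
    have h2 : δ * (R + 1) ≤ d / (2 * (R + 1)) * (R + 1) := mul_le_mul_of_nonneg_right h1 (by linarith)
    have h3 : d / (2 * (R + 1)) * (R + 1) = d / 2 := by field_simp
    linarith
  have hδ2 : δ * (6 * N + 2) ≤ 1 := by
    have h1 : δ ≤ 1 / (6 * N + 2) := min_le_right _ _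
    calc δ * (6 * N + 2) ≤ 1 / (6 * N + 2) * (6 * N + 2) := mul_le_mul_of_nonneg_right h1 (by positivity)
      _ = 1 := by field_simp
  refine ⟨δ, hδ0, fun s η hs1 hs2 hη => ?_⟩
  have hδh : δ ≤ 1 / 2 := by nlinarith [mul_nonneg hδ0.le hN0]
  have hs0 : 0 < s := by linarith
  have hspow : (s ^ (3 * N))⁻¹ ≤ 2 := by
    have hb : 1 + (3 * N : ℕ) * (s - 1) ≤ s ^ (3 * N) := by
      have := one_add_mul_le_pow (a := s - 1) (by linarith) (3 * N)
      simpa using this
    have h3 : (1 : ℝ) / 2 ≤ s ^ (3 * N) := by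
      refine le_trans ?_ hb
      push_cast
      have : (3 * (N : ℝ)) * (s - 1) ≥ - (3 * N * δ) := by nlinarith
      nlinarith
    rw [inv_le_comm₀ (by positivity) (by norm_num)]
    linarith
  -- Jensen with weight one
  have hone : ∀ F : (Fin N → E) → ℝ, MemLp F 2 volume → Integrable (fun X => (mol s η F X) ^ 2) ∧
      ∫ X, (mol s η F X) ^ 2 ≤ 2 * ∫ Z, F Z ^ 2 := by
    intro F hF
    have hb1 : BM (fun _ : Fin N → E => (1 : ℝ)) := ⟨measurable_const, 1, fun X => by simp⟩
    have h := hDNJ N s δ η F (fun _ => 1) hs0 hδ0 hη hF hb1 (fun X => zero_le_one)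
    simp only [one_mul, mul_one, hη.one] at h
    refine ⟨h.1, h.2.trans ?_⟩
    exact mul_le_mul_of_nonneg_right hspow (integral_nonneg (fun X => sq_nonneg _))
  have hsubL : MemLp (fun Z => f Z - g Z) 2 (volume : Measure (Fin N → E)) := hf.sub hgL2
  obtain ⟨hi1, hi2⟩ := hone f hf
  obtain ⟨hj1, hj2⟩ := hone _ hsubL
  -- on the box
  have hfin : IsFiniteMeasure ((volume : Measure (Fin N → E)).restrict (box N L)) :=
    ⟨by rw [Measure.restrict_apply_univ]; exact box_finite L⟩
  have hbox_f : ∫ X in box N L, f X ^ 2 = ∫ X, f X ^ 2 := by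
    refine setIntegral_eq_integral_of_forall_compl_eq_zero (fun X hX => ?_)
    rw [hf0 X hX]
    simp
  have hpt : ∀ X ∈ box N L, f X ^ 2 ≤ (1 + t) * (mol s η f X) ^ 2 + (1 + t⁻¹) *
      (3 * ((f X - g X) ^ 2 + wo ^ 2 + (mol s η (fun Z => f Z - g Z) X) ^ 2)) := by
    intro X hX
    have hlin := mol_sub hs0 hη hf hgL2 X
    have hnear : |mol s η g X - g X| ≤ wo := by
      refine mol_near hη X (int_mol hs0 hη hgL2 X) (fun Y hY => ?_)
      have h1 : dist (s • (X - Y)) X < d := by
        rw [dist_eq_norm]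
        have h2 : s • (X - Y) - X = (s - 1) • X - s • Y := by
          rw [smul_sub, sub_smul, one_smul]
          abel
        rw [h2]
        refine lt_of_le_of_lt (norm_sub_le _ _) ?_
        rw [norm_smul, norm_smul, Real.norm_eq_abs, Real.norm_eq_abs, abs_of_pos hs0,
          abs_of_neg (by linarith : s - 1 < 0)]
        have h3 : -(s - 1) * ‖X‖ ≤ δ * R :=
          mul_le_mul (by linarith) (hR X hX) (norm_nonneg _) hδ0.le
        have h4 : s * ‖Y‖ ≤ 1 * δ := mul_le_mul hs2.le hY (norm_nonneg _) zero_le_one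
        linarith
      have := hd h1
      rw [Real.dist_eq] at this
      exact this.le
    have hnear2 : (mol s η g X - g X) ^ 2 ≤ wo ^ 2 := by
      rw [← sq_abs]
      exact pow_le_pow_left₀ (abs_nonneg _) hnear 2
    set a := f X
    set b := mol s η f X
    set p := f X - g X with hp
    set q := mol s η g X - g X with hq
    set r := mol s η (fun Z => f Z - g Z) X with hr
    have hab : a - b = p - q - r := by
      rw [hp, hq, hlin]
      ring
    have h5 : (a - b) ^ 2 ≤ 3 * (p ^ 2 + wo ^ 2 + r ^ 2) := by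
      rw [hab]
      nlinarith [sq_nonneg (p + q), sq_nonneg (p + r), sq_nonneg (q - r)]
    have h6 : a ^ 2 ≤ (1 + t) * b ^ 2 + (1 + t⁻¹) * (a - b) ^ 2 := by
      have h7 : (1 + t) * b ^ 2 + (1 + t⁻¹) * (a - b) ^ 2 - a ^ 2 = t⁻¹ * (t * b - (a - b)) ^ 2 := by
        field_simp
        ring
      have h8 : 0 ≤ t⁻¹ * (t * b - (a - b)) ^ 2 := by positivity
      linarith
    refine h6.trans ?_
    have : 0 ≤ 1 + t⁻¹ := by positivity
    have := mul_le_mul_of_nonneg_left h5 this
    linarith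
  have hfgi : Integrable (fun X => (f X - g X) ^ 2) := hsubL.integrable_sq
  have hint1 : Integrable (fun X => (1 + t) * (mol s η f X) ^ 2) (volume.restrict (box N L)) :=
    (hi1.integrableOn).const_mul _
  have hint3 : Integrable (fun X => (f X - g X) ^ 2 + wo ^ 2 + (mol s η (fun Z => f Z - g Z) X) ^ 2)
      (volume.restrict (box N L)) :=
    ((hfgi.integrableOn).add (integrable_const _)).add hj1.integrableOn
  have hint2 : Integrable (fun X => (1 + t⁻¹) *
      (3 * ((f X - g X) ^ 2 + wo ^ 2 + (mol s η (fun Z => f Z - g Z) X) ^ 2))) (volume.restrict (box N L)) :=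
    (hint3.const_mul _).const_mul _
  have hmain : ∫ X in box N L, f X ^ 2 ≤ ∫ X in box N L, ((1 + t) * (mol s η f X) ^ 2 + (1 + t⁻¹) *
      (3 * ((f X - g X) ^ 2 + wo ^ 2 + (mol s η (fun Z => f Z - g Z) X) ^ 2))) :=
    setIntegral_mono_on (hf.integrable_sq.integrableOn) (hint1.add hint2) (box_meas L) hpt
  have hsum : ∫ X in box N L, ((f X - g X) ^ 2 + wo ^ 2 + (mol s η (fun Z => f Z - g Z) X) ^ 2) =
      (∫ X in box N L, (f X - g X) ^ 2) + (∫ X in box N L, wo ^ 2) +
      ∫ X in box N L, (mol s η (fun Z => f Z - g Z) X) ^ 2 := by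
    have h1 : Integrable (fun X : Fin N → E => (f X - g X) ^ 2 + wo ^ 2) (volume.restrict (box N L)) :=
      (hfgi.integrableOn).add (integrable_const _)
    rw [integral_add h1 hj1.integrableOn, integral_add hfgi.integrableOn (integrable_const _)]
  rw [integral_add hint1 hint2, integral_const_mul, integral_const_mul, integral_const_mul, hsum] at hmain
  have hc : ∫ X in box N L, wo ^ 2 = v * wo ^ 2 := by
    rw [setIntegral_const, smul_eq_mul, hv]
    rfl
  rw [hc, hbox_f] at hmain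
  have hm1 : ∫ X in box N L, (mol s η f X) ^ 2 ≤ 2 * A := by
    have : ∫ X in box N L, (mol s η f X) ^ 2 ≤ ∫ X, (mol s η f X) ^ 2 :=
      setIntegral_le_integral hi1 (Eventually.of_forall (fun X => sq_nonneg _))
    linarith
  have hm2 : ∫ X in box N L, (f X - g X) ^ 2 ≤ e1 / 18 := by
    refine le_trans ?_ hfg
    exact setIntegral_le_integral hfgi (Eventually.of_forall (fun X => sq_nonneg _))
  have hm3 : ∫ X in box N L, (mol s η (fun Z => f Z - g Z) X) ^ 2 ≤ 2 * (e1 / 18) := by
    have : ∫ X in box N L, (mol s η (fun Z => f Z - g Z) X) ^ 2 ≤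
        ∫ X, (mol s η (fun Z => f Z - g Z) X) ^ 2 :=
      setIntegral_le_integral hj1 (Eventually.of_forall (fun X => sq_nonneg _))
    linarith
  have hx1 : t * ∫ X in box N L, (mol s η f X) ^ 2 ≤ ε / 2 := by
    have h1 : t * ∫ X in box N L, (mol s η f X) ^ 2 ≤ t * (2 * A) := mul_le_mul_of_nonneg_left hm1 ht0.le
    have h2 : t * (2 * A) = ε / 2 := by
      rw [ht]
      field_simp
      ring
    linarith
  have hx2 : (1 + t⁻¹) * (3 * (∫ X in box N L, (f X - g X) ^ 2) + 3 * (v * wo ^ 2) +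
      3 * ∫ X in box N L, (mol s η (fun Z => f Z - g Z) X) ^ 2) ≤ ε / 2 := by
    have h1 : (3 * (∫ X in box N L, (f X - g X) ^ 2) + 3 * (v * wo ^ 2) +
      3 * ∫ X in box N L, (mol s η (fun Z => f Z - g Z) X) ^ 2) ≤ e1 := by linarith
    have h2 : (1 + t⁻¹) * e1 = ε / 2 := by
      rw [he1]
      field_simp
    have h3 := mul_le_mul_of_nonneg_left h1 (by positivity : 0 ≤ 1 + t⁻¹)
    linarith
  nlinarith [hmain, hx1, hx2]

end Pool.Agent.TBL
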