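import Pool.Agent.TBL.Stmts

/-!
# Three-body Bose gases (MP_80dc41_mp), module DNM: the mollified function
-/

set_option autoImplicit false

open MeasureTheory Filter Topology
open scoped ContDiff

namespace Pool.Agent.TBL

open Pool.Agent.TBG

namespace DNM_

variable {N : ℕ}

lemma box_open (L : ℝ) : IsOpen (box N L) := by
  have h : box N L = ⋂ i, ⋂ c, {X : Fin N → E | |X i c| < L / 2} := by
    ext X; simp [box]
  rw [h]
  refine isOpen_iInter_of_finite fun i => isOpen_iInter_of_finite fun c => ?_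
  refine isOpen_lt ?_ continuous_const
  have : Continuous fun X : Fin N → E => X i c :=
    (EuclideanSpace.proj (𝕜 := ℝ) c).continuous.comp (continuous_apply i)
  exact this.abs

lemma box_sub (L : ℝ) (hL : 0 < L) : box N L ⊆ Metric.closedBall 0 (3 * (L / 2)) := by
  intro X hX
  rw [mem_closedBall_zero_iff, pi_norm_le_iff_of_nonneg (by positivity)]
  intro i
  by_contra hcon
  push Not at hcon
  have h1 : ‖X i‖ ^ 2 = ∑ c, ‖X i c‖ ^ 2 := EuclideanSpace.norm_sq_eq _
  have h2 : ∑ c : Fin 3, ‖X i c‖ ^ 2 ≤ ∑ c : Fin 3, (L / 2) ^ 2 := by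
    refine Finset.sum_le_sum fun c _ => ?_
    rw [Real.norm_eq_abs]
    exact pow_le_pow_left₀ (abs_nonneg _) (hX i c).le 2
  rw [Finset.sum_const, Finset.card_univ, Fintype.card_fin, nsmul_eq_mul] at h2
  push_cast at h2
  nlinarith [sq_nonneg (L / 2)]

lemma box_fin (L : ℝ) (hL : 0 < L) : volume (box N L) < ⊤ :=
  lt_of_le_of_lt (measure_mono (box_sub L hL)) measure_closedBall_lt_top

lemma ind_int (L : ℝ) (hL : 0 < L) (u : (Fin N → E) → ℝ)
    (hu : MemLp u 2 (volume.restrict (box N L))) : Integrable ((box N L).indicator u) := by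
  have : IsFiniteMeasure (volume.restrict (box N L)) := ⟨by
    rw [Measure.restrict_apply_univ]; exact box_fin L hL⟩
  have h1 : Integrable u (volume.restrict (box N L)) := hu.integrable (by norm_num)
  exact (integrable_indicator_iff (box_open L).measurableSet).2 h1

lemma mol_eq (s : ℝ) (η f : (Fin N → E) → ℝ) (X : Fin N → E) :
    mol s η f X = ∫ Z, f (s • Z) * η (X - Z) := by
  unfold mol
  rw [← integral_add_right_eq_self (fun Y => η Y * f (s • (X - Y))) X]
  have h1 := Measure.integral_comp_smul (volume : Measure (Fin N → E))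
    (fun Y => η (Y + X) * f (s • (X - (Y + X)))) (-1)
  have h2 : |((-1 : ℝ) ^ Module.finrank ℝ (Fin N → E))⁻¹| = 1 := by
    rw [abs_inv, abs_pow, abs_neg, abs_one, one_pow, inv_one]
  rw [h2, one_smul] at h1
  rw [← h1]
  refine integral_congr_ae (ae_of_all _ fun Z => ?_)
  show η ((-1 : ℝ) • Z + X) * f (s • (X - ((-1 : ℝ) • Z + X))) = f (s • Z) * η (X - Z)
  have h3 : (-1 : ℝ) • Z + X = X - Z := by rw [neg_one_smul]; abel
  rw [h3, sub_sub_cancel, mul_comm]

lemma mol_conv (s : ℝ) (η f : (Fin N → E) → ℝ) :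
    mol s η f = MeasureTheory.convolution (fun Z => f (s • Z)) η (ContinuousLinearMap.mul ℝ ℝ)
      volume := by
  funext X
  rw [mol_eq]
  rfl

/-- scaling of the integration variable -/
lemma scale (s : ℝ) (hs : 0 < s) (f h : (Fin N → E) → ℝ) :
    ∫ Z, f (s • Z) * h Z =
      |(s ^ Module.finrank ℝ (Fin N → E))⁻¹| * ∫ Z, f Z * h (s⁻¹ • Z) := by
  have h1 := Measure.integral_comp_smul (volume : Measure (Fin N → E))
    (fun Z => f Z * h (s⁻¹ • Z)) s
  rw [smul_eq_mul] at h1
  rw [← h1]
  refine integral_congr_ae (ae_of_all _ fun Z => ?_)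
  show f (s • Z) * h Z = f (s • Z) * h (s⁻¹ • s • Z)
  rw [smul_smul, inv_mul_cancel₀ hs.ne', one_smul]

end DNM_

open DNM_ in
theorem dnm_proof (_hBMC : Stmt_BMC) : Stmt_DNM := by
  intro N L s ε u g η hL hs hε hsL hu hη
  set F := (box N L).indicator u with hF
  have hFi : Integrable F := ind_int L hL u hu.memL2
  have hGi : Integrable fun Z : Fin N → E => F (s • Z) := hFi.comp_smul hs.ne'
  have hGl : LocallyIntegrable (fun Z : Fin N → E => F (s • Z)) := hGi.locallyIntegrable
  have hη1 : ContDiff ℝ 1 η := hη.smooth.of_le (by exact_mod_cast le_top)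
  have hmol : mol s η F = MeasureTheory.convolution (fun Z => F (s • Z)) η
    (ContinuousLinearMap.mul ℝ ℝ) volume := mol_conv s η F
  refine ⟨?_, ?_, ?_⟩
  · rw [hmol]
    exact hη.cpt.contDiff_convolution_right _ hGl hη.smooth
  · rw [hmol]
    refine HasCompactSupport.convolution (L := ContinuousLinearMap.mul ℝ ℝ) (μ := volume)
      ?_ hη.cpt
    refine HasCompactSupport.of_support_subset_isCompact
      (isCompact_closedBall (0 : Fin N → E) (s⁻¹ * (3 * (L / 2)))) ?_
    intro Z hZ
    have h1 : s • Z ∈ box N L := by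
      by_contra h2
      apply hZ
      show F (s • Z) = 0
      rw [hF, Set.indicator_of_notMem h2]
    have h2 := box_sub L hL h1
    rw [mem_closedBall_zero_iff, norm_smul, Real.norm_eq_abs, abs_of_pos hs] at h2
    rw [mem_closedBall_zero_iff, inv_mul_eq_div, le_div_iff₀ hs]
    linarith
  · intro X hX i c
    have hd : HasFDerivAt (mol s η F) (MeasureTheory.convolution (fun Z => F (s • Z))
        (fderiv ℝ η) ((ContinuousLinearMap.mul ℝ ℝ).precompR (Fin N → E)) volume X) X := by
      rw [hmol]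
      exact hη.cpt.hasFDerivAt_convolution_right _ hGl hη1 X
    have hint : Integrable (fun Z => ((ContinuousLinearMap.mul ℝ ℝ).precompR (Fin N → E))
        (F (s • Z)) (fderiv ℝ η (X - Z))) :=
      (hη.cpt.fderiv ℝ).convolutionExists_right _ hGl (hη1.continuous_fderiv one_ne_zero) X
    set e : Fin N → E := Pi.single i (ev c) with he
    have h1 : di i c (mol s η F) X = ∫ Z, F (s • Z) * fderiv ℝ η (X - Z) e := by
      unfold di
      rw [hd.fderiv]
      show (∫ Z, ((ContinuousLinearMap.mul ℝ ℝ).precompR (Fin N → E))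
        (F (s • Z)) (fderiv ℝ η (X - Z))) e = _
      rw [ContinuousLinearMap.integral_apply hint]
      rfl
    rw [h1, mol_eq, scale s hs F (fun Z => fderiv ℝ η (X - Z) e),
      scale s hs ((box N L).indicator (g i c)) (fun Z => η (X - Z))]
    -- the test function
    set ζ : (Fin N → E) → ℝ := fun Z => η (X - s⁻¹ • Z) with hζ
    have hin : ContDiff ℝ ∞ (fun Z : Fin N → E => X - s⁻¹ • Z) := by fun_prop
    have hζs : ContDiff ℝ ∞ ζ := hη.smooth.comp hin
    have hζd : ∀ Z, fderiv ℝ ζ Z e = -s⁻¹ * fderiv ℝ η (X - s⁻¹ • Z) e := by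
      intro Z
      have h2 : HasFDerivAt (fun Z : Fin N → E => X - s⁻¹ • Z)
          (-(s⁻¹ • ContinuousLinearMap.id ℝ (Fin N → E))) Z := by
        have h0 : HasFDerivAt (fun Z : Fin N → E => s⁻¹ • Z)
            (s⁻¹ • ContinuousLinearMap.id ℝ (Fin N → E)) Z :=
          (hasFDerivAt_id (𝕜 := ℝ) Z).const_smul s⁻¹
        exact h0.const_sub X
      have h3 : HasFDerivAt η (fderiv ℝ η (X - s⁻¹ • Z)) (X - s⁻¹ • Z) :=
        (hη1.differentiable one_ne_zero _).hasFDerivAt
      have h4 := h3.comp Z h2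
      have h5 : fderiv ℝ ζ Z = (fderiv ℝ η (X - s⁻¹ • Z)).comp
        (-(s⁻¹ • ContinuousLinearMap.id ℝ (Fin N → E))) := h4.fderiv
      rw [h5]
      simp
    have hζt : tsupport ζ ⊆ box N L := by
      have hcl : IsClosed {Z : Fin N → E | X - s⁻¹ • Z ∈ tsupport η} :=
        (isClosed_tsupport η).preimage (by fun_prop)
      have h2 : tsupport ζ ⊆ {Z : Fin N → E | X - s⁻¹ • Z ∈ tsupport η} := by
        refine closure_minimal ?_ hcl
        intro Z hZ
        exact subset_tsupport η hZ
      intro Z hZ j d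
      have h3 := hη.supp (h2 hZ)
      rw [mem_closedBall_zero_iff] at h3
      have h4 : ‖X j - s⁻¹ • Z j‖ ≤ ε := (norm_le_pi_norm (X - s⁻¹ • Z) j).trans h3
      have h5 : |X j d - s⁻¹ * Z j d| ≤ ε := by
        have := PiLp.norm_apply_le (X j - s⁻¹ • Z j) d
        rw [Real.norm_eq_abs] at this
        exact this.trans h4
      have h6 := hX j d
      have h7 : |s⁻¹ * Z j d| < L / 2 + ε := by
        rw [abs_lt] at h6 ⊢
        rw [abs_le] at h5
        constructor <;> linarith [h5.1, h5.2, h6.1, h6.2]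
      have h8 : |Z j d| = s * |s⁻¹ * Z j d| := by
        rw [abs_mul, abs_of_pos (inv_pos.2 hs), ← mul_assoc, mul_inv_cancel₀ hs.ne', one_mul]
      rw [h8]
      have h9 := mul_lt_mul_of_pos_left h7 hs
      linarith
    have hζc : HasCompactSupport ζ :=
      (isCompact_closedBall (0 : Fin N → E) (3 * (L / 2))).of_isClosed_subset
        (isClosed_tsupport ζ) (hζt.trans (box_sub L hL))
    have hw := hu.weak i c ζ hζs hζc hζt
    have hm := (box_open (N := N) L).measurableSet
    have e1 : ∫ Z, F Z * fderiv ℝ η (X - s⁻¹ • Z) e =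
        -s * ∫ Z in box N L, u Z * fderiv ℝ ζ Z (dir i c) := by
      rw [← integral_const_mul, ← integral_indicator hm]
      refine integral_congr_ae (ae_of_all _ fun Z => ?_)
      by_cases hZ : Z ∈ box N L
      · simp only [hF]
        rw [Set.indicator_of_mem hZ, Set.indicator_of_mem hZ]
        show u Z * _ = -s * (u Z * fderiv ℝ ζ Z e)
        rw [hζd Z]
        field_simp
      · simp only [hF]
        rw [Set.indicator_of_notMem hZ, Set.indicator_of_notMem hZ, zero_mul]
    have e2 : ∫ Z, (box N L).indicator (g i c) Z * η (X - s⁻¹ • Z) =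
        ∫ Z in box N L, g i c Z * ζ Z := by
      rw [← integral_indicator hm]
      refine integral_congr_ae (ae_of_all _ fun Z => ?_)
      by_cases hZ : Z ∈ box N L
      · simp only
        rw [Set.indicator_of_mem hZ, Set.indicator_of_mem hZ]
      · simp only
        rw [Set.indicator_of_notMem hZ, Set.indicator_of_notMem hZ, zero_mul]
    rw [e1, e2, hw]
    ring

end Pool.Agent.TBL
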