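import Pool.Agent.TBL.Stmts

/-!
# Module ENI of squad TBL: the energy inequality
-/

set_option autoImplicit false

open MeasureTheory Filter Topology
open scoped ContDiff

namespace Pool.Agent.TBL

open Pool.Agent.TBG

namespace ENI_

theorem bm_potS (hB : Stmt_BMC) {ι : Type} [Fintype ι] [DecidableEq ι] {V : E → E → ℝ} (hV : Admissible V) :
    BM (fun X : ι → E => potS V X) := by
  obtain ⟨C, hC⟩ := hV.bdd
  have hb : BM (fun z : E × E => V z.1 z.2) :=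
    ⟨hV.meas, C, fun z => by rw [abs_of_nonneg (hV.nonneg _ _)]; exact hC _ _⟩
  have h : BM (fun X : ι → E => ∑ t ∈ D3 ι, V (X t.1 - X t.2.1) (X t.1 - X t.2.2)) := by
    refine hB.2.2.1 _ _ _ _ fun t _ => ?_
    refine hB.2.2.2.1 (E × E) (ι → E) (fun z => V z.1 z.2) (fun X => (X t.1 - X t.2.1, X t.1 - X t.2.2)) hb ?_
    exact ((measurable_pi_apply t.1).sub (measurable_pi_apply t.2.1)).prodMk
        ((measurable_pi_apply t.1).sub (measurable_pi_apply t.2.2))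
  exact (hB.1 _ _ _ h h).2.2.2.2.2.1 (1 / 6)

theorem sum_D3 {ι : Type} [Fintype ι] [DecidableEq ι] (F : ι × ι × ι → ℝ) :
    ∑ t ∈ D3 ι, F t = ∑ i, ∑ p ∈ D2 i, F (i, p) := by
  refine Finset.sum_finset_product (D3 ι) Finset.univ (fun i => D2 i) ?_
  rintro ⟨i, j, k⟩
  simp [D3, D2]

end ENI_

open ENI_ in
theorem eni_proof (hBMC : Stmt_BMC) (hMEP : Stmt_MEP) (hATF : Stmt_ATF) (hSLI : Stmt_SLI) (hKIM : Stmt_KIM)
    (hPOM : Stmt_POM) (hCRA : Stmt_CRA) (hCRB : Stmt_CRB) : Stmt_ENI := by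
  intro ι _ _ V ℓ C b φ w q g κ u hℓ hV hK hR hu huc
  have i2 : IsProbabilityMeasure (PiM ι ℓ) := (hMEP ι ℓ hℓ).1
  obtain ⟨hub, hdb, -⟩ := hSLI ι u hu huc
  have hen : enL V ℓ u = ∑ i, ∑ c, (∫ X, (di i c u X) ^ 2 ∂(PiM ι ℓ)) + ∫ X, potS V X * u X ^ 2 ∂(PiM ι ℓ) := by
    have hi1 : ∀ i c, Integrable (fun X => (di i c u X) ^ 2) (PiM ι ℓ) := fun i c =>
      (hBMC.1 _ _ _ ((hBMC.1 _ _ _ (hdb i c) (hdb i c)).2.2.2.1) hub).2.2.2.2.2.2 (PiM ι ℓ)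
    have hi2 : Integrable (fun X => potS V X * u X ^ 2) (PiM ι ℓ) := by
      have h1 : BM (fun X => u X ^ 2) := (hBMC.1 _ _ _ hub hub).2.2.2.1
      have h2 : BM (fun X => potS V X * u X ^ 2) := (hBMC.1 _ _ _ (bm_potS hBMC hV) h1).2.2.1
      exact (hBMC.1 _ _ _ h2 h2).2.2.2.2.2.2 (PiM ι ℓ)
    unfold enL
    rw [integral_add _ hi2, integral_finsetSum]
    · congr 1
      refine Finset.sum_congr rfl fun i _ => ?_
      rw [integral_finsetSum]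
      exact fun c _ => hi1 i c
    · exact fun i _ => integrable_finsetSum _ fun c _ => hi1 i c
    · exact integrable_finsetSum _ fun i _ => integrable_finsetSum _ fun c _ => hi1 i c
  have hkin : 1 / 6 * ∑ i, qI ℓ κ i u
      - 1 / 4 * ∑ i, ∑ p ∈ D2 i, ∑ p' ∈ D2 i, Bf ℓ κ φ u i p.1 p.2 p'.1 p'.2
      + ∑ t ∈ D3 ι, ∫ X, u X * Lk φ (X t.1) (X t.2.1) (X t.2.2) * A3 ℓ t.1 t.2.1 t.2.2 u X ∂(PiM ι ℓ) ≤
      ∑ i, ∑ c, (∫ X, (di i c u X) ^ 2 ∂(PiM ι ℓ)) := by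
    rw [sum_D3, Finset.mul_sum, Finset.mul_sum, ← Finset.sum_sub_distrib, ← Finset.sum_add_distrib]
    refine Finset.sum_le_sum fun i _ => ?_
    have h1 := hKIM ι ℓ C κ φ u i hℓ hR hK.sk hu huc
    have h2 : ∑ p ∈ D2 i, ∑ c, ∫ X, di i c u X * dk c φ (X i) (X p.1) (X p.2) * A3 ℓ i p.1 p.2 u X ∂(PiM ι ℓ) =
        - ∑ p ∈ D2 i, ∫ X, u X * Lk φ (X i) (X p.1) (X p.2) * A3 ℓ i p.1 p.2 u X ∂(PiM ι ℓ) := by
      rw [← Finset.sum_neg_distrib]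
      refine Finset.sum_congr rfl fun p hp => ?_
      have hp' : i ≠ p.1 ∧ i ≠ p.2 ∧ p.1 ≠ p.2 := by simpa [D2] using hp
      obtain ⟨hA, hI, -⟩ := hATF ι ℓ hℓ i p.1 p.2 u hub
      exact hCRA ι V ℓ C b φ w q g u (A3 ℓ i p.1 p.2 u) i p.1 p.2 hℓ hK hu huc hA hI hp'.1 hp'.2.1
    rw [h2] at h1
    simp only at h1 ⊢
    linarith
  have hB := hCRB ι V ℓ C b φ w q g u hℓ hK hub
  have hP := hPOM ι V ℓ C b φ w q g u hℓ hV hK hub
  rw [hB] at hkin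
  rw [hen]
  linarith

end Pool.Agent.TBL
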