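import Pool.Agent.TBL.Stmts

/-!
# TBL, module FAT: a function of three particles times a function of the others
-/

set_option autoImplicit false

open MeasureTheory Filter Topology

namespace Pool.Agent.TBL

open Pool.Agent.TBG

theorem fat_proof (hBMC : Stmt_BMC) (_hMES : Stmt_MES) (_hMEP : Stmt_MEP) (hAVA : Stmt_AVA)
    (hAVB : Stmt_AVB) : Stmt_FAT := by
  intro ι _ _ ℓ hℓ F A i j k hij hik hjk hF hA hAi hAj hAk
  obtain ⟨b1, -, -, b4, -⟩ := hBMC
  -- one step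
  have step : ∀ (l : ι) (G : (ι → E) → ℝ), BM G → Ind l A →
      ∫ X, A X * G X ∂(PiM ι ℓ) = ∫ X, A X * av ℓ l G X ∂(PiM ι ℓ) := by
    intro l G hG hl
    have hAG : BM (fun X => A X * G X) := (b1 _ A G hA hG).2.2.1
    rw [← (hAVA ι ℓ hℓ l _ hAG).2.1, (hAVB ι ℓ hℓ l).2.2.1 G A hl]
  have hG0 : BM (fun X : ι → E => F (X i) (X j) (X k)) :=
    b4 (E × E × E) (ι → E) (fun p => F p.1 p.2.1 p.2.2) (fun X => (X i, X j, X k)) hF
      (by fun_prop)
  have e1 : av ℓ k (fun X : ι → E => F (X i) (X j) (X k)) =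
      fun X => ∫ z, F (X i) (X j) z ∂(nuc ℓ) := by
    funext X
    unfold av
    simp only [Function.update_of_ne hik, Function.update_of_ne hjk, Function.update_self]
  have hG1 : BM (fun X : ι → E => ∫ z, F (X i) (X j) z ∂(nuc ℓ)) := by
    rw [← e1]
    exact (hAVA ι ℓ hℓ k _ hG0).1
  have e2 : av ℓ j (fun X : ι → E => ∫ z, F (X i) (X j) z ∂(nuc ℓ)) =
      fun X => ∫ y, ∫ z, F (X i) y z ∂(nuc ℓ) ∂(nuc ℓ) := by
    funext X
    unfold av
    simp only [Function.update_of_ne hij, Function.update_self]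
  have hG2 : BM (fun X : ι → E => ∫ y, ∫ z, F (X i) y z ∂(nuc ℓ) ∂(nuc ℓ)) := by
    rw [← e2]
    exact (hAVA ι ℓ hℓ j _ hG1).1
  have e3 : av ℓ i (fun X : ι → E => ∫ y, ∫ z, F (X i) y z ∂(nuc ℓ) ∂(nuc ℓ)) =
      fun _ => ∫ x, ∫ y, ∫ z, F x y z ∂(nuc ℓ) ∂(nuc ℓ) ∂(nuc ℓ) := by
    funext X
    unfold av
    simp only [Function.update_self]
  have e0 : ∫ X, F (X i) (X j) (X k) * A X ∂(PiM ι ℓ) =
      ∫ X, A X * F (X i) (X j) (X k) ∂(PiM ι ℓ) := by
    congr 1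
    funext X
    rw [mul_comm]
  rw [e0, step k _ hG0 hAk, e1, step j _ hG1 hAj, e2, step i _ hG2 hAi, e3, integral_mul_const,
    mul_comm]

end Pool.Agent.TBL
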