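import Pool.Agent.TBL.Stmts

/-! # FRZ: freezing particles -/

set_option autoImplicit false

open MeasureTheory Filter Topology
open scoped ContDiff

namespace Pool.Agent.TBL

open Pool.Agent.TBG

namespace FRZ_

/-! ## one particle -/

theorem cub_meas (l : ℝ) (a : E) : MeasurableSet (cub l a) := by
  have h : cub l a = ⋂ c : Fin 3, {x : E | a c ≤ x c ∧ x c < a c + l} := by
    ext x
    simp [cub]
  rw [h]
  refine MeasurableSet.iInter fun c => ?_
  have hc : Measurable (fun x : E => x c) := by fun_prop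
  exact (measurableSet_le measurable_const hc).inter (measurableSet_lt hc measurable_const)

theorem lam_ae (hMES : Stmt_MES) {l : ℝ} (hl : 0 < l) : Lam l =ᵐ[volume] cub l (0 : E) := by
  obtain ⟨hm, -, -, -, -, hae, -, -⟩ := hMES l hl
  unfold nuc at hae
  have hc : (ENNReal.ofReal (l ^ 3))⁻¹ ≠ 0 := ENNReal.inv_ne_zero.mpr ENNReal.ofReal_ne_top
  have hae' : ∀ᵐ x ∂(volume.restrict (Lam l)), x ∈ Lam l ∧ ∀ c, 0 < x c ∧ x c < l := by
    rw [ae_iff] at hae ⊢
    rw [Measure.smul_apply, smul_eq_mul, mul_eq_zero] at hae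
    exact hae.resolve_left hc
  clear hae
  rename' hae' => hae
  rw [ae_restrict_iff' hm] at hae
  filter_upwards [hae] with x hx
  apply propext
  constructor
  · intro h c
    have h1 := (hx h).2 c
    simp only [PiLp.zero_apply, zero_add]
    exact ⟨h1.1.le, h1.2⟩
  · intro h c
    have h1 := h c
    simp only [PiLp.zero_apply, zero_add] at h1
    exact ⟨h1.1, h1.2.le⟩

theorem cub_shift (l : ℝ) (a x : E) : x + a ∈ cub l a ↔ x ∈ cub l (0 : E) := by
  unfold cub
  simp only [Set.mem_setOf_eq, PiLp.add_apply, PiLp.zero_apply, zero_add]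
  refine forall_congr' fun c => ?_
  constructor
  · rintro ⟨h1, h2⟩
    exact ⟨by linarith, by linarith⟩
  · rintro ⟨h1, h2⟩
    exact ⟨by linarith, by linarith⟩

variable {ι : Type} [Fintype ι] [DecidableEq ι]

theorem set_pi (A : Set E) : {X : ι → E | ∀ i, X i ∈ A} = Set.pi Set.univ (fun _ => A) := by
  ext X
  simp

/-! ## gluing -/

/-- gluing -/
def mk (S : Finset ι) (Y : {i // i ∈ S} → E) (Z : {i // ¬ i ∈ S} → E) : ι → E :=
  fun i => if h : i ∈ S then Y ⟨i, h⟩ else Z ⟨i, h⟩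

theorem mk_in (S : Finset ι) (Y : {i // i ∈ S} → E) (Z : {i // ¬ i ∈ S} → E)
    (i : {i // i ∈ S}) : mk S Y Z i = Y i := by
  simp [mk]

theorem mk_out (S : Finset ι) (Y : {i // i ∈ S} → E) (Z : {i // ¬ i ∈ S} → E)
    (i : {i // ¬ i ∈ S}) : mk S Y Z i = Z i := by
  have h := i.2
  simp [mk, h]

theorem mk_cont (S : Finset ι) (Z : {i // ¬ i ∈ S} → E) :
    ContDiff ℝ ∞ (fun Y : {i // i ∈ S} → E => mk S Y Z) := by
  rw [contDiff_pi]
  intro i
  by_cases h : i ∈ S
  · have : (fun Y : {i // i ∈ S} → E => mk S Y Z i) = fun Y => Y ⟨i, h⟩ := by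
      funext Y
      simp [mk, h]
    rw [this]
    fun_prop
  · have : (fun Y : {i // i ∈ S} → E => mk S Y Z i) = fun _ => Z ⟨i, h⟩ := by
      funext Y
      simp [mk, h]
    rw [this]
    exact contDiff_const

theorem mk_lin (S : Finset ι) (Y W : {i // i ∈ S} → E) (Z : {i // ¬ i ∈ S} → E) (t : ℝ) :
    mk S (Y + t • W) Z = mk S Y Z + t • mk S W 0 := by
  funext i
  by_cases h : i ∈ S
  · simp [mk, h]
  · simp [mk, h]

theorem mk_single (S : Finset ι) (i : {i // i ∈ S}) (v : E) :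
    mk S (Pi.single i v) 0 = Pi.single (i : ι) v := by
  funext j
  by_cases h : j ∈ S
  · by_cases hj : (⟨j, h⟩ : {i // i ∈ S}) = i
    · subst hj
      simp [mk, h]
    · have hj' : j ≠ (i : ι) := fun h' => hj (Subtype.ext h')
      simp [mk, h, hj, hj']
  · have hj' : j ≠ (i : ι) := fun h' => h (h' ▸ i.2)
    simp [mk, h, hj']

/-- shifted gluing -/
def gl (S : Finset ι) (a₀ : E) (Z : {i // ¬ i ∈ S} → E) (Y : {i // i ∈ S} → E) : ι → E :=
  mk S (Y + fun _ => a₀) Z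

theorem gl_contDiff (S : Finset ι) (a₀ : E) (Z : {i // ¬ i ∈ S} → E) :
    ContDiff ℝ ∞ (gl S a₀ Z) :=
  (mk_cont S Z).comp (contDiff_id.add contDiff_const)

theorem gl_closed (S : Finset ι) (a₀ : E) (Z : {i // ¬ i ∈ S} → E) :
    IsClosedEmbedding (gl S a₀ Z) := by
  have hl : Function.LeftInverse (fun X : ι → E => fun i : {i // i ∈ S} => X i - a₀)
      (gl S a₀ Z) := by
    intro Y
    funext i
    show gl S a₀ Z Y i - a₀ = Y i
    unfold gl
    rw [mk_in]
    simp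
  exact hl.isClosedEmbedding (by fun_prop) (gl_contDiff S a₀ Z).continuous

theorem gl_deriv (S : Finset ι) (a₀ : E) (Z : {i // ¬ i ∈ S} → E) {u : (ι → E) → ℝ}
    (hu : ContDiff ℝ 1 u) (Y : {i // i ∈ S} → E) (i : {i // i ∈ S}) (c : Fin 3) :
    di i c (fun Y => u (gl S a₀ Z Y)) Y = di (i : ι) c u (gl S a₀ Z Y) := by
  unfold di
  have hud : DifferentiableAt ℝ u (gl S a₀ Z Y) := (hu.differentiable one_ne_zero) _
  have hgd : DifferentiableAt ℝ (gl S a₀ Z) Y :=
    ((gl_contDiff S a₀ Z).differentiable (by norm_num)) _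
  have hcomp : fderiv ℝ (fun Y => u (gl S a₀ Z Y)) Y =
      (fderiv ℝ u (gl S a₀ Z Y)).comp (fderiv ℝ (gl S a₀ Z) Y) := fderiv_comp Y hud hgd
  rw [hcomp, ContinuousLinearMap.comp_apply]
  congr 1
  have h1 : HasDerivAt (fun t : ℝ => Y + t • (Pi.single i (ev c) : {i // i ∈ S} → E))
      (Pi.single i (ev c)) 0 := by
    have := ((hasDerivAt_id (0 : ℝ)).smul_const
      (Pi.single i (ev c) : {i // i ∈ S} → E)).const_add Y
    simpa using this
  have hgd' : HasFDerivAt (gl S a₀ Z) (fderiv ℝ (gl S a₀ Z) Y)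
      (Y + (0 : ℝ) • (Pi.single i (ev c) : {i // i ∈ S} → E)) := by
    rw [zero_smul, add_zero]
    exact hgd.hasFDerivAt
  have h2 := hgd'.comp_hasDerivAt (0 : ℝ) h1
  have h3 : (gl S a₀ Z ∘ fun t : ℝ => Y + t • (Pi.single i (ev c) : {i // i ∈ S} → E)) =
      fun t => gl S a₀ Z Y + t • (Pi.single (i : ι) (ev c) : ι → E) := by
    funext t
    show mk S (Y + t • (Pi.single i (ev c) : {i // i ∈ S} → E) + fun _ => a₀) Z = _
    rw [add_right_comm, mk_lin, mk_single]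
    rfl
  rw [h3] at h2
  have h4 : HasDerivAt (fun t : ℝ => gl S a₀ Z Y + t • (Pi.single (i : ι) (ev c) : ι → E))
      (Pi.single (i : ι) (ev c)) 0 := by
    have := ((hasDerivAt_id (0 : ℝ)).smul_const
      (Pi.single (i : ι) (ev c) : ι → E)).const_add (gl S a₀ Z Y)
    simpa using this
  exact h2.unique h4

theorem potS_shift (V : E → E → ℝ) (Y : ι → E) (a₀ : E) :
    potS V (Y + fun _ => a₀) = potS V Y := by
  unfold potS
  congr 1
  refine Finset.sum_congr rfl fun t _ => ?_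
  simp

/-- the inequality for fixed outer particles -/
theorem inner_le (hMES : Stmt_MES) (hMEP : Stmt_MEP) {V : E → E → ℝ} {S : Finset ι} {l e : ℝ}
    {a₀ : E} {u : (ι → E) → ℝ} (hl : 0 < l) (hLB : LBc V {i // i ∈ S} l e)
    (hu1 : ContDiff ℝ 1 u) (hu2 : HasCompactSupport u) (Z : {i // ¬ i ∈ S} → E) :
    e * ∫ Y in {Y : {i // i ∈ S} → E | ∀ i, Y i ∈ cub l a₀}, u (mk S Y Z) ^ 2 ≤
      ∫ Y in {Y : {i // i ∈ S} → E | ∀ i, Y i ∈ cub l a₀},
        (∑ i ∈ S, ∑ c, (di i c u (mk S Y Z)) ^ 2 +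
          potS V (fun i : {i // i ∈ S} => mk S Y Z i) * u (mk S Y Z) ^ 2) := by
  set b : {i // i ∈ S} → E := fun _ => a₀ with hb
  have hw1 : ContDiff ℝ 1 (fun Y => u (gl S a₀ Z Y)) :=
    hu1.comp ((gl_contDiff S a₀ Z).of_le (by exact_mod_cast le_top))
  have hw2 : HasCompactSupport (fun Y => u (gl S a₀ Z Y)) :=
    hu2.comp_isClosedEmbedding (gl_closed S a₀ Z)
  have h := hLB (fun Y => u (gl S a₀ Z Y)) hw1 hw2
  unfold ns enL at h
  rw [(hMEP {i // i ∈ S} l hl).2.2, (hMEP {i // i ∈ S} l hl).2.2] at h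
  have hc : 0 < ((l ^ 3) ^ Fintype.card {i // i ∈ S})⁻¹ := by positivity
  have h' : e * ∫ Y in {Y : {i // i ∈ S} → E | ∀ i, Y i ∈ Lam l}, u (gl S a₀ Z Y) ^ 2 ≤
      ∫ Y in {Y : {i // i ∈ S} → E | ∀ i, Y i ∈ Lam l},
        (∑ i, ∑ c, (di i c (fun Y => u (gl S a₀ Z Y)) Y) ^ 2 + potS V Y * u (gl S a₀ Z Y) ^ 2) := by
    refine le_of_mul_le_mul_left ?_ hc
    refine le_trans (le_of_eq ?_) h
    ring
  have hset : {Y : {i // i ∈ S} → E | ∀ i, Y i ∈ Lam l} =ᵐ[volume]
      {Y : {i // i ∈ S} → E | ∀ i, Y i ∈ cub l (0 : E)} := by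
    rw [set_pi, set_pi]
    exact Measure.ae_eq_set_pi fun _ _ => lam_ae hMES hl
  rw [setIntegral_congr_set hset, setIntegral_congr_set hset] at h'
  have htr : ∀ f : ({i // i ∈ S} → E) → ℝ,
      ∫ Y in {Y : {i // i ∈ S} → E | ∀ i, Y i ∈ cub l a₀}, f Y =
      ∫ Y in {Y : {i // i ∈ S} → E | ∀ i, Y i ∈ cub l (0 : E)}, f (Y + b) := by
    intro f
    have h1 := (measurePreserving_add_right (volume : Measure ({i // i ∈ S} → E)) b).setIntegral_preimage_emb
      (MeasurableEquiv.addRight b).measurableEmbedding f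
      {Y : {i // i ∈ S} → E | ∀ i, Y i ∈ cub l a₀}
    rw [← h1]
    have h2 : (fun x : {i // i ∈ S} → E => x + b) ⁻¹' {Y | ∀ i, Y i ∈ cub l a₀} =
        {Y | ∀ i, Y i ∈ cub l (0 : E)} := by
      ext Y
      simp only [Set.mem_preimage, Set.mem_setOf_eq, Pi.add_apply]
      exact forall_congr' fun i => cub_shift l a₀ (Y i)
    rw [h2]
  rw [htr, htr]
  refine le_trans h' (le_of_eq ?_)
  congr 1
  funext Y
  have e1 : ∑ i : {i // i ∈ S}, ∑ c, (di i c (fun Y => u (gl S a₀ Z Y)) Y) ^ 2 =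
      ∑ i ∈ S, ∑ c, (di i c u (mk S (Y + b) Z)) ^ 2 := by
    rw [← Finset.sum_coe_sort S (fun i => ∑ c, (di i c u (mk S (Y + b) Z)) ^ 2)]
    refine Finset.sum_congr rfl fun i _ => Finset.sum_congr rfl fun c _ => ?_
    rw [gl_deriv S a₀ Z hu1]
    rfl
  have e2 : potS V (fun i : {i // i ∈ S} => mk S (Y + b) Z i) = potS V Y := by
    rw [← potS_shift V Y a₀]
    congr 1
    funext i
    rw [mk_in]
  rw [e1, e2]
  rfl

/-! ## integrability -/

theorem potS_meas {V : E → E → ℝ} (hV : Admissible V) (S : Finset ι) :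
    Measurable (fun X : ι → E => potS V (fun i : {i // i ∈ S} => X i)) := by
  unfold potS
  refine Measurable.const_mul ?_ _
  refine Finset.measurable_sum _ fun t _ => ?_
  have h1 : Measurable (fun X : ι → E => ((X t.1 - X t.2.1, X t.1 - X t.2.2) : E × E)) := by
    fun_prop
  exact hV.meas.comp h1

theorem potS_bdd {V : E → E → ℝ} (hV : Admissible V) (S : Finset ι) :
    ∃ C : ℝ, ∀ X : ι → E, |potS V (fun i : {i // i ∈ S} => X i)| ≤ C := by
  obtain ⟨C, hC⟩ := hV.bdd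
  refine ⟨1 / 6 * ∑ t ∈ D3 {i // i ∈ S}, C, fun X => ?_⟩
  have h0 : 0 ≤ potS V (fun i : {i // i ∈ S} => X i) := by
    unfold potS
    exact mul_nonneg (by norm_num) (Finset.sum_nonneg fun t _ => hV.nonneg _ _)
  rw [abs_of_nonneg h0]
  unfold potS
  exact mul_le_mul_of_nonneg_left (Finset.sum_le_sum fun t _ => hC _ _) (by norm_num)

theorem sq_int {u : (ι → E) → ℝ} (hu1 : ContDiff ℝ 1 u) (hu2 : HasCompactSupport u) :
    Integrable (fun X => u X ^ 2) := by
  apply (hu1.continuous.pow 2).integrable_of_hasCompactSupport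
  exact hu2.comp_left (g := fun t : ℝ => t ^ 2) (by simp)

theorem di_int {u : (ι → E) → ℝ} (hu1 : ContDiff ℝ 1 u) (hu2 : HasCompactSupport u) (i : ι)
    (c : Fin 3) : Integrable (fun X => (di i c u X) ^ 2) := by
  unfold di
  apply Continuous.integrable_of_hasCompactSupport
  · exact ((hu1.continuous_fderiv one_ne_zero).clm_apply continuous_const).pow 2
  · exact (hu2.fderiv ℝ).comp_left (g := fun L : (ι → E) →L[ℝ] ℝ => (L (Pi.single i (ev c))) ^ 2)
      (by simp)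

theorem int2 {V : E → E → ℝ} (hV : Admissible V) (S : Finset ι) {u : (ι → E) → ℝ}
    (hu1 : ContDiff ℝ 1 u) (hu2 : HasCompactSupport u) :
    Integrable (fun X => ∑ i ∈ S, ∑ c, (di i c u X) ^ 2 +
      potS V (fun i : {i // i ∈ S} => X i) * u X ^ 2) := by
  apply Integrable.add
  · exact integrable_finset_sum _ fun i _ => integrable_finset_sum _ fun c _ => di_int hu1 hu2 i c
  · obtain ⟨C, hC⟩ := potS_bdd hV S
    exact (sq_int hu1 hu2).bdd_mul (potS_meas hV S).aestronglyMeasurable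
      (Eventually.of_forall fun X => by rw [Real.norm_eq_abs]; exact hC X)

/-- Fubini -/
theorem fubini (S : Finset ι) (l : ℝ) (a : ι → E) (a₀ : E) (ha : ∀ i ∈ S, a i = a₀)
    {F : (ι → E) → ℝ} (hF : Integrable F) :
    ∫ X in {X : ι → E | ∀ i, X i ∈ cub l (a i)}, F X =
      ∫ Z in {Z : {i // ¬ i ∈ S} → E | ∀ i : {i // ¬ i ∈ S}, Z i ∈ cub l (a i)},
        ∫ Y in {Y : {i // i ∈ S} → E | ∀ i, Y i ∈ cub l a₀}, F (mk S Y Z) ∧
    Integrable (fun Z => ∫ Y in {Y : {i // i ∈ S} → E | ∀ i, Y i ∈ cub l a₀}, F (mk S Y Z))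
      (volume.restrict {Z : {i // ¬ i ∈ S} → E | ∀ i : {i // ¬ i ∈ S}, Z i ∈ cub l (a i)}) := by
  have hT := (volume_preserving_piEquivPiSubtypeProd (fun _ : ι => E) (fun i => i ∈ S)).symm
  rw [show (Subtype.fintype fun i => i ∈ S : Fintype {i // i ∈ S}) = Finset.Subtype.fintype S from
    Subsingleton.elim _ _] at hT
  have h1 := hT.setIntegral_preimage_emb
    (MeasurableEquiv.piEquivPiSubtypeProd (fun _ : ι => E) (fun i => i ∈ S)).symm.measurableEmbedding
    F {X : ι → E | ∀ i, X i ∈ cub l (a i)}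
  have h2 : (MeasurableEquiv.piEquivPiSubtypeProd (fun _ : ι => E) (fun i => i ∈ S)).symm ⁻¹'
      {X : ι → E | ∀ i, X i ∈ cub l (a i)} =
      {Y : {i // i ∈ S} → E | ∀ i, Y i ∈ cub l a₀} ×ˢ
        {Z : {i // ¬ i ∈ S} → E | ∀ i : {i // ¬ i ∈ S}, Z i ∈ cub l (a i)} := by
    ext p
    constructor
    · intro h
      refine ⟨fun i => ?_, fun i => ?_⟩
      · have h3 := h i
        have h4 : mk S p.1 p.2 i ∈ cub l (a i) := h3
        rw [mk_in, ha i i.2] at h4
        exact h4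
      · have h3 := h i
        have h4 : mk S p.1 p.2 i ∈ cub l (a i) := h3
        rw [mk_out] at h4
        exact h4
    · rintro ⟨h3, h4⟩ i
      show mk S p.1 p.2 i ∈ cub l (a i)
      by_cases h : i ∈ S
      · have h5 := h3 ⟨i, h⟩
        rw [ha i h]
        have h6 := mk_in S p.1 p.2 ⟨i, h⟩
        rw [← h6] at h5
        exact h5
      · have h5 := h4 ⟨i, h⟩
        have h6 := mk_out S p.1 p.2 ⟨i, h⟩
        rw [← h6] at h5
        exact h5
  rw [h2] at h1
  have hint : Integrable (fun p : ({i // i ∈ S} → E) × ({i // ¬ i ∈ S} → E) => F (mk S p.1 p.2))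
      ((volume.restrict {Y : {i // i ∈ S} → E | ∀ i, Y i ∈ cub l a₀}).prod
        (volume.restrict {Z : {i // ¬ i ∈ S} → E | ∀ i : {i // ¬ i ∈ S}, Z i ∈ cub l (a i)})) := by
    rw [Measure.prod_restrict]
    have h5 := (hT.integrable_comp_emb (MeasurableEquiv.piEquivPiSubtypeProd (fun _ : ι => E)
        (fun i => i ∈ S)).symm.measurableEmbedding).mpr hF
    have h6 : Integrable (fun p : ({i // i ∈ S} → E) × ({i // ¬ i ∈ S} → E) => F (mk S p.1 p.2))
        volume := h5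
    rw [Measure.volume_eq_prod] at h6
    exact h6.restrict
  refine ⟨?_, hint.integral_prod_right⟩
  rw [← h1, Measure.volume_eq_prod, ← Measure.prod_restrict]
  exact integral_prod_symm _ hint

end FRZ_

open FRZ_ in
theorem frz_proof (_hB : Stmt_BMC) (hMES : Stmt_MES) (hMEP : Stmt_MEP) : Stmt_FRZ := by
  intro V ι _ _ S l e a a₀ u hV hl ha hLB hu1 hu2
  obtain ⟨f1, i1⟩ := fubini S l a a₀ ha (sq_int hu1 hu2)
  obtain ⟨f2, i2⟩ := fubini S l a a₀ ha (int2 hV S hu1 hu2)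
  rw [f1, f2, ← integral_const_mul]
  exact integral_mono (i1.const_mul e) i2 fun Z => inner_le hMES hMEP hl hLB hu1 hu2 Z

end Pool.Agent.TBL
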