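import Pool.Agent.TBL.Stmts

/-! # FVL: large boxes -/

set_option autoImplicit false

open MeasureTheory Filter Topology

namespace Pool.Agent.TBL

open Pool.Agent.TBG

namespace FVL_

theorem lbc_mono {V : E → E → ℝ} {ι : Type} [Fintype ι] [DecidableEq ι] {ℓ e e' : ℝ}
    (h : e' ≤ e) (he : LBc V ι ℓ e) : LBc V ι ℓ e' := by
  intro u hu hc
  have h1 := he u hu hc
  have h2 : 0 ≤ ns ℓ u := by
    unfold ns
    exact integral_nonneg fun X => sq_nonneg _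
  exact (mul_le_mul_of_nonneg_right h h2).trans h1

end FVL_

open FVL_ in
theorem fvl_proof (_hBMC : Stmt_BMC) (_hMEP : Stmt_MEP) (hGRP : Stmt_GRP) (hTLC : Stmt_TLC)
    (hTNG : Stmt_TNG) : Stmt_FVL := by
  intro V b hV hb hcore
  obtain ⟨C, g₀, ℓ₁, hC, hg₀, hℓ₁, hcore⟩ := hcore
  obtain ⟨K, ρ₀, δ, hK, hρ₀, hδ, htng⟩ := hTNG b C g₀ ℓ₁ hb hC hg₀ hℓ₁
  refine ⟨K, ρ₀, δ, hK, hρ₀, hδ, ?_⟩
  intro ρ hρ hρ' L hL N
  have hL0 : 0 < L := lt_of_lt_of_le (div_pos hδ hρ) hL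
  have hδL : δ ≤ ρ * L := by
    rw [div_le_iff₀ hρ] at hL
    linarith
  have hx1 : 1 ≤ ρ * L / δ := by
    rw [le_div_iff₀ hδ]
    linarith
  obtain ⟨M, hM⟩ : ∃ M : ℕ, M = ⌊ρ * L / δ⌋₊ := ⟨_, rfl⟩
  have hM1 : 1 ≤ M := by
    rw [hM]
    exact Nat.le_floor (by exact_mod_cast hx1)
  have hMle : (M : ℝ) ≤ ρ * L / δ := by
    rw [hM]
    exact Nat.floor_le (by linarith)
  have hMlt : ρ * L / δ < (M : ℝ) + 1 := by
    rw [hM]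
    exact Nat.lt_floor_add_one _
  have hM1' : (1 : ℝ) ≤ (M : ℝ) := by exact_mod_cast hM1
  have hM0 : (0 : ℝ) < (M : ℝ) := by linarith
  rw [le_div_iff₀ hδ] at hMle
  rw [div_lt_iff₀ hδ] at hMlt
  have hℓ0 : 0 < L / M := div_pos hL0 hM0
  have hρℓ1 : δ ≤ ρ * (L / M) := by
    rw [← mul_div_assoc, le_div_iff₀ hM0]
    linarith
  have hρℓ2 : ρ * (L / M) ≤ 2 * δ := by
    rw [← mul_div_assoc, div_le_iff₀ hM0]
    nlinarith
  obtain ⟨n₁, hn₁, hℓ, hn₁g, he₁, hsm, hlg⟩ := htng ρ (L / M) hρ hρ' hρℓ1 hρℓ2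
  have key : ∀ (ι : Type) [Fintype ι] [DecidableEq ι], LBc V ι (L / M)
      (ρ ^ 2 * b / 2 * (Fintype.card ι : ℝ) - (ρ ^ 3 * b / 3 + K * ρ ^ 4) * (L / M) ^ 3) := by
    intro ι _ _
    rcases le_total (Fintype.card ι) n₁ with h | h
    · refine lbc_mono (hsm _ h) (hcore ι (L / M) hℓ ?_)
      refine le_trans ?_ hn₁g
      have h' : (Fintype.card ι : ℝ) ≤ (n₁ : ℝ) := by exact_mod_cast h
      exact pow_le_pow_left₀ (Nat.cast_nonneg _) h' 2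
    · refine lbc_mono (hlg _ h) (hGRP V (L / M) _ n₁ hV hℓ0 he₁ hn₁ ?_ ι)
      intro ι' _ _ hι'
      have h1 := hcore ι' (L / M) hℓ (by rw [hι']; exact hn₁g)
      rw [hι'] at h1
      exact h1
  have h2 := hTLC V (L / M) (ρ ^ 2 * b / 2) ((ρ ^ 3 * b / 3 + K * ρ ^ 4) * (L / M) ^ 3) M hV hℓ0
    hM1 key N
  have e1 : (M : ℝ) * (L / M) = L := by
    field_simp
  have e2 : (ρ ^ 3 * b / 3 + K * ρ ^ 4) * (L / M) ^ 3 * (M : ℝ) ^ 3 =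
      (ρ ^ 3 * b / 3 + K * ρ ^ 4) * L ^ 3 := by
    rw [mul_assoc, ← mul_pow, div_mul_cancel₀ _ hM0.ne']
  rw [e1, e2] at h2
  exact h2

end Pool.Agent.TBL
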