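import Pool.Agent.TBL.Stmts

/-!
# TBL, module GBB: the operator `GB`
-/

set_option autoImplicit false

open MeasureTheory Filter Topology
open scoped ContDiff

namespace Pool.Agent.TBL

open Pool.Agent.TBG

namespace GBB_

section BMtools

variable {α β : Type} [MeasurableSpace α] [MeasurableSpace β]

theorem sub (h : Stmt_BMC) {F G : α → ℝ} (hF : BM F) (hG : BM G) : BM (fun X => F X - G X) :=
  (h.1 α F G hF hG).2.1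

theorem add (h : Stmt_BMC) {F G : α → ℝ} (hF : BM F) (hG : BM G) : BM (fun X => F X + G X) :=
  (h.1 α F G hF hG).1

theorem mul (h : Stmt_BMC) {F G : α → ℝ} (hF : BM F) (hG : BM G) : BM (fun X => F X * G X) :=
  (h.1 α F G hF hG).2.2.1

theorem sq (h : Stmt_BMC) {F : α → ℝ} (hF : BM F) : BM (fun X => F X ^ 2) :=
  (h.1 α F F hF hF).2.2.2.1

theorem cmul (h : Stmt_BMC) {F : α → ℝ} (hF : BM F) (a : ℝ) : BM (fun X => a * F X) :=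
  (h.1 α F F hF hF).2.2.2.2.2.1 a

theorem integ (h : Stmt_BMC) {F : α → ℝ} (hF : BM F) (μ : Measure α) [IsFiniteMeasure μ] :
    Integrable F μ :=
  (h.1 α F F hF hF).2.2.2.2.2.2 μ

theorem comp (h : Stmt_BMC) {F : α → ℝ} (hF : BM F) {f : β → α} (hf : Measurable f) :
    BM (fun X => F (f X)) :=
  h.2.2.2.1 α β F f hF hf

theorem int (h : Stmt_BMC) (μ : Measure β) [IsProbabilityMeasure μ] {F : α × β → ℝ} (hF : BM F) :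
    BM (fun X => ∫ y, F (X, y) ∂μ) :=
  h.2.2.2.2 α β μ F hF

end BMtools

/-- the open cube -/
def Oc (ℓ : ℝ) : Set E := {x | ∀ c, 0 < x c ∧ x c < ℓ}

theorem Oc_meas (ℓ : ℝ) : MeasurableSet (Oc ℓ) := by
  have : Oc ℓ = ⋂ c : Fin 3, ({x : E | 0 < x c} ∩ {x : E | x c < ℓ}) := by
    ext x; simp [Oc]
  rw [this]
  refine MeasurableSet.iInter fun c => ?_
  have hc : Continuous (fun x : E => x c) := by fun_prop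
  exact ((isOpen_lt continuous_const hc).inter (isOpen_lt hc continuous_const)).measurableSet

theorem Oc_sub {ℓ : ℝ} {x : E} (hx : x ∈ Oc ℓ) : x ∈ Lam ℓ :=
  fun c => ⟨(hx c).1.le, (hx c).2.le⟩

open Classical in
/-- truncated kernel -/
noncomputable def kt (ℓ : ℝ) (k : E → E → E → ℝ) (x y z : E) : ℝ :=
  if x ∈ Oc ℓ ∧ y ∈ Oc ℓ ∧ z ∈ Oc ℓ then k x y z else 0

theorem kt_eq {ℓ : ℝ} {k : E → E → E → ℝ} {x y z : E} (hx : x ∈ Oc ℓ) (hy : y ∈ Oc ℓ)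
    (hz : z ∈ Oc ℓ) : kt ℓ k x y z = k x y z := by
  unfold kt
  rw [if_pos ⟨hx, hy, hz⟩]

theorem kt_bm {ℓ : ℝ} {k : E → E → E → ℝ} (hk : BM3 k) : BM3 (kt ℓ k) := by
  obtain ⟨hm, C, hC⟩ := hk
  constructor
  · unfold kt
    apply Measurable.ite _ hm measurable_const
    have h1 : MeasurableSet {p : E × E × E | p.1 ∈ Oc ℓ} := measurable_fst (Oc_meas ℓ)
    have h2 : MeasurableSet {p : E × E × E | p.2.1 ∈ Oc ℓ} :=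
      (measurable_fst.comp measurable_snd) (Oc_meas ℓ)
    have h3 : MeasurableSet {p : E × E × E | p.2.2 ∈ Oc ℓ} :=
      (measurable_snd.comp measurable_snd) (Oc_meas ℓ)
    exact h1.inter (h2.inter h3)
  · refine ⟨C, fun p => ?_⟩
    have h0 : 0 ≤ C := le_trans (abs_nonneg _) (hC p)
    show |kt ℓ k p.1 p.2.1 p.2.2| ≤ C
    unfold kt
    split_ifs with h
    · exact hC p
    · simpa using h0

theorem kt_dec {ℓ C : ℝ} {k : E → E → E → ℝ} (hC : 0 < C)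
    (hk : ∀ x ∈ Lam ℓ, ∀ y ∈ Lam ℓ, ∀ z ∈ Lam ℓ, |k x y z| ≤ C / (1 + ‖x - y‖ + ‖x - z‖) ^ 5)
    (x y z : E) : |kt ℓ k x y z| ≤ C / (1 + ‖x - y‖ + ‖x - z‖) ^ 5 := by
  unfold kt
  split_ifs with h
  · exact hk x (Oc_sub h.1) y (Oc_sub h.2.1) z (Oc_sub h.2.2)
  · rw [abs_zero]
    positivity

theorem ae_Oc (h : Stmt_MES) {ℓ : ℝ} (hℓ : 0 < ℓ) : ∀ᵐ x ∂(nuc ℓ), x ∈ Oc ℓ := by
  filter_upwards [(h ℓ hℓ).2.2.2.2.2.1] with x hx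
  exact hx.2

theorem kt_int (h : Stmt_MES) {ℓ : ℝ} (hℓ : 0 < ℓ) (k : E → E → E → ℝ) (a : E → E → ℝ) {x : E}
    (hx : x ∈ Oc ℓ) :
    ∫ y, ∫ z, kt ℓ k x y z * a y z ∂(nuc ℓ) ∂(nuc ℓ) = ∫ y, ∫ z, k x y z * a y z ∂(nuc ℓ) ∂(nuc ℓ) := by
  apply integral_congr_ae
  filter_upwards [ae_Oc h hℓ] with y hy
  apply integral_congr_ae
  filter_upwards [ae_Oc h hℓ] with z hz
  rw [kt_eq hx hy hz]

theorem kt_mean (h : Stmt_MES) {ℓ : ℝ} (hℓ : 0 < ℓ) (k : E → E → E → ℝ)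
    (hk : ∀ x, (∀ c, 0 < x c ∧ x c < ℓ) → ∫ y, ∫ z, k x y z ∂(nuc ℓ) ∂(nuc ℓ) = 0) (x : E) :
    ∫ y, ∫ z, kt ℓ k x y z ∂(nuc ℓ) ∂(nuc ℓ) = 0 := by
  by_cases hx : x ∈ Oc ℓ
  · have h1 := kt_int h hℓ k (fun _ _ => 1) hx
    simp only [mul_one] at h1
    rw [h1]
    exact hk x hx
  · have h1 : ∀ y z, kt ℓ k x y z = 0 := by
      intro y z
      unfold kt
      rw [if_neg (fun hh => hx hh.1)]
    simp [h1]

/-- the bound for one component and one slice -/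
theorem slice (hMES : Stmt_MES) (hOPU : Stmt_OPU) {C C₁ ℓ : ℝ} (hC : 0 < C) (hC₁ : 0 < C₁)
    (hℓ : 1 ≤ ℓ)
    (hOPB : ∀ (k : E → E → E → ℝ) (a : E → E → ℝ),
      BM3 k → BM2 a → (∀ x y z, |k x y z| ≤ C / (1 + ‖x - y‖ + ‖x - z‖) ^ 5) →
      (∀ x, ∫ y, ∫ z, k x y z ∂(nuc ℓ) ∂(nuc ℓ) = 0) →
      ∫ x, (∫ y, ∫ z, k x y z * a y z ∂(nuc ℓ) ∂(nuc ℓ)) ^ 2 ∂(nuc ℓ) ≤
        C₁ / ℓ ^ 10 * ((∫ y, ∫ z, (a y z - ∫ y', a y' z ∂(nuc ℓ)) ^ 2 ∂(nuc ℓ) ∂(nuc ℓ)) +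
          ∫ y, ∫ z, (a y z - ∫ z', a y z' ∂(nuc ℓ)) ^ 2 ∂(nuc ℓ) ∂(nuc ℓ)) +
        C₁ / ℓ ^ 8 * ∫ y, ∫ z, Ur ℓ ‖y - z‖ * (a y z - (∫ y', a y' z ∂(nuc ℓ)) - (∫ z', a y z' ∂(nuc ℓ))
          + ∫ y', ∫ z', a y' z' ∂(nuc ℓ) ∂(nuc ℓ)) ^ 2 ∂(nuc ℓ) ∂(nuc ℓ))
    {κ : E → E → ℝ} (hκ : Rsv ℓ C κ) {k : E → E → E → ℝ} (hk : BM3 k)
    (hdec : ∀ x ∈ Lam ℓ, ∀ y ∈ Lam ℓ, ∀ z ∈ Lam ℓ, |k x y z| ≤ C / (1 + ‖x - y‖ + ‖x - z‖) ^ 5)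
    (hmean : ∀ x, (∀ c, 0 < x c ∧ x c < ℓ) → ∫ y, ∫ z, k x y z ∂(nuc ℓ) ∂(nuc ℓ) = 0)
    {a : E → E → ℝ} (ha : BM2 a) :
    ∫ x, (∫ y, ∫ z, k x y z * a y z ∂(nuc ℓ) ∂(nuc ℓ)) ^ 2 ∂(nuc ℓ) ≤
        C₁ / ℓ ^ 10 * ((∫ y, ∫ z, (a y z - ∫ y', a y' z ∂(nuc ℓ)) ^ 2 ∂(nuc ℓ) ∂(nuc ℓ)) +
          ∫ y, ∫ z, (a y z - ∫ z', a y z' ∂(nuc ℓ)) ^ 2 ∂(nuc ℓ) ∂(nuc ℓ)) +
        C₁ / ℓ ^ 8 * (4 * C * ∫ z, q1 ℓ κ (fun y => a y z) (fun y => a y z) ∂(nuc ℓ)) := by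
  have hℓ0 : 0 < ℓ := by linarith
  have h1 := hOPB (kt ℓ k) a (kt_bm hk) ha (kt_dec hC hdec) (kt_mean hMES hℓ0 k hmean)
  have h2 := hOPU ℓ C κ a hℓ0 hC hκ ha
  have h3 : ∫ x, (∫ y, ∫ z, k x y z * a y z ∂(nuc ℓ) ∂(nuc ℓ)) ^ 2 ∂(nuc ℓ) =
      ∫ x, (∫ y, ∫ z, kt ℓ k x y z * a y z ∂(nuc ℓ) ∂(nuc ℓ)) ^ 2 ∂(nuc ℓ) := by
    apply integral_congr_ae
    filter_upwards [ae_Oc hMES hℓ0] with x hx
    rw [kt_int hMES hℓ0 k a hx]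
  rw [h3]
  have h4 : 0 ≤ C₁ / ℓ ^ 8 := by positivity
  have h5 := mul_le_mul_of_nonneg_left h2 h4
  linarith

end GBB_

open GBB_ in
theorem gbb_proof (hBMC : Stmt_BMC) (hMES : Stmt_MES) (hMEP : Stmt_MEP) (_hNUM : Stmt_NUM)
    (hOPB : Stmt_OPB) (hOPU : Stmt_OPU) (hQIA : Stmt_QIA) (hSLT : Stmt_SLT) : Stmt_GBB := by
  intro C hC
  obtain ⟨C₁, hC₁, hB⟩ := hOPB C hC
  refine ⟨3 * C₁ + 12 * C * C₁, by positivity, ?_⟩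
  intro ι _ _ V ℓ b φ w q g κ A l m hℓ hK hκ hA hlm
  have hℓ0 : 0 < ℓ := by linarith
  have hprob : IsProbabilityMeasure (nuc ℓ) := (hMES ℓ hℓ0).2.2.2.1
  have hprobX : IsProbabilityMeasure (PiM ι ℓ) := (hMEP ι ℓ hℓ0).1
  obtain ⟨_, hS⟩ := hSLT ι ℓ l m hℓ0 hlm
  obtain ⟨hF, hS1, hS2, hS3⟩ := hS A hA
  -- the slices
  obtain ⟨F, hFdef⟩ : ∃ F : (ι → E) × (E × E) → ℝ, F = fun p =>
    A (Function.update (Function.update p.1 l p.2.1) m p.2.2) := ⟨_, rfl⟩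
  rw [← hFdef] at hF
  have hFA : ∀ X y z, A (Function.update (Function.update X l y) m z) = F (X, (y, z)) := by
    intro X y z; rw [hFdef]
  have ha : ∀ X, BM2 (fun y z => F (X, (y, z))) := by
    intro X
    exact comp hBMC hF (f := fun p : E × E => (X, p)) (by fun_prop)
  simp only [hFA] at hS1 hS2 hS3
  -- the three functions of `X`
  obtain ⟨T1, hT1⟩ : ∃ T1 : (ι → E) → ℝ, T1 = fun X =>
    ∫ y, ∫ z, (F (X, (y, z)) - ∫ y', F (X, (y', z)) ∂(nuc ℓ)) ^ 2 ∂(nuc ℓ) ∂(nuc ℓ) := ⟨_, rfl⟩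
  obtain ⟨T2, hT2⟩ : ∃ T2 : (ι → E) → ℝ, T2 = fun X =>
    ∫ y, ∫ z, (F (X, (y, z)) - ∫ z', F (X, (y, z')) ∂(nuc ℓ)) ^ 2 ∂(nuc ℓ) ∂(nuc ℓ) := ⟨_, rfl⟩
  obtain ⟨T3, hT3⟩ : ∃ T3 : (ι → E) → ℝ, T3 = fun X =>
    ∫ z, q1 ℓ κ (fun y => F (X, (y, z))) (fun y => F (X, (y, z))) ∂(nuc ℓ) := ⟨_, rfl⟩
  have b1 : BM T1 := by
    rw [hT1]
    have e1 : BM (fun p : ((ι → E) × E) × E => ∫ y', F (p.1.1, (y', p.2)) ∂(nuc ℓ)) := by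
      apply int hBMC (nuc ℓ) (F := fun r : (((ι → E) × E) × E) × E => F (r.1.1.1, (r.2, r.1.2)))
      exact comp hBMC hF (by fun_prop)
    have e2 : BM (fun p : ((ι → E) × E) × E => F (p.1.1, (p.1.2, p.2))) :=
      comp hBMC hF (by fun_prop)
    have e3 := int hBMC (nuc ℓ) (sq hBMC (sub hBMC e2 e1))
    exact int hBMC (nuc ℓ) (F := fun p : (ι → E) × E => ∫ z, (F (p.1, (p.2, z)) -
      ∫ y', F (p.1, (y', z)) ∂(nuc ℓ)) ^ 2 ∂(nuc ℓ)) e3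
  have b2 : BM T2 := by
    rw [hT2]
    have e1 : BM (fun p : ((ι → E) × E) × E => ∫ z', F (p.1.1, (p.1.2, z')) ∂(nuc ℓ)) := by
      apply int hBMC (nuc ℓ) (F := fun r : (((ι → E) × E) × E) × E => F (r.1.1.1, (r.1.1.2, r.2)))
      exact comp hBMC hF (by fun_prop)
    have e2 : BM (fun p : ((ι → E) × E) × E => F (p.1.1, (p.1.2, p.2))) :=
      comp hBMC hF (by fun_prop)
    have e3 := int hBMC (nuc ℓ) (sq hBMC (sub hBMC e2 e1))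
    exact int hBMC (nuc ℓ) (F := fun p : (ι → E) × E => ∫ z, (F (p.1, (p.2, z)) -
      ∫ z', F (p.1, (p.2, z')) ∂(nuc ℓ)) ^ 2 ∂(nuc ℓ)) e3
  have b3 : BM T3 := by
    rw [hT3]
    unfold q1
    have e0 : BM (fun r : (((ι → E) × E) × E) × E => κ r.1.2 r.2) := by
      have := comp hBMC hκ.bm (f := fun r : (((ι → E) × E) × E) × E => (r.1.2, r.2)) (by fun_prop)
      exact this
    have e1 : BM (fun r : (((ι → E) × E) × E) × E =>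
        F (r.1.1.1, (r.1.2, r.1.1.2)) - F (r.1.1.1, (r.2, r.1.1.2))) :=
      sub hBMC (comp hBMC hF (by fun_prop)) (comp hBMC hF (by fun_prop))
    have e2 := int hBMC (nuc ℓ) (mul hBMC e0 (mul hBMC e1 e1))
    have e3 := int hBMC (nuc ℓ) e2
    exact int hBMC (nuc ℓ) (F := fun p : (ι → E) × E => ∫ x, ∫ y, κ x y *
      ((F (p.1, (x, p.2)) - F (p.1, (y, p.2))) * (F (p.1, (x, p.2)) - F (p.1, (y, p.2))))
        ∂(nuc ℓ) ∂(nuc ℓ)) e3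
  -- the left side
  have bL : ∀ c, BM (fun X => ∫ x, (∫ y, ∫ z, dk c φ x y z * F (X, (y, z)) ∂(nuc ℓ) ∂(nuc ℓ)) ^ 2
      ∂(nuc ℓ)) := by
    intro c
    have e0 : BM (fun r : (((ι → E) × E) × E) × E => dk c φ r.1.1.2 r.1.2 r.2) := by
      have := comp hBMC (hK.sk.b1 c)
        (f := fun r : (((ι → E) × E) × E) × E => (r.1.1.2, (r.1.2, r.2))) (by fun_prop)
      exact this
    have e1 : BM (fun r : (((ι → E) × E) × E) × E => F (r.1.1.1, (r.1.2, r.2))) :=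
      comp hBMC hF (by fun_prop)
    have e2 := int hBMC (nuc ℓ) (mul hBMC e0 e1)
    have e3 := int hBMC (nuc ℓ) e2
    have e4 := sq hBMC e3
    exact int hBMC (nuc ℓ) (F := fun p : (ι → E) × E =>
      (∫ y, ∫ z, dk c φ p.2 y z * F (p.1, (y, z)) ∂(nuc ℓ) ∂(nuc ℓ)) ^ 2) e4
  have hpt : ∀ X, ∑ c, ∫ x, (∫ y, ∫ z, dk c φ x y z * F (X, (y, z)) ∂(nuc ℓ) ∂(nuc ℓ)) ^ 2
      ∂(nuc ℓ) ≤ 3 * (C₁ / ℓ ^ 10 * (T1 X + T2 X) + C₁ / ℓ ^ 8 * (4 * C * T3 X)) := by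
    intro X
    have h1 : ∀ c ∈ (Finset.univ : Finset (Fin 3)),
        ∫ x, (∫ y, ∫ z, dk c φ x y z * F (X, (y, z)) ∂(nuc ℓ) ∂(nuc ℓ)) ^ 2 ∂(nuc ℓ) ≤
          C₁ / ℓ ^ 10 * (T1 X + T2 X) + C₁ / ℓ ^ 8 * (4 * C * T3 X) := by
      intro c _
      rw [hT1, hT2, hT3]
      exact slice hMES hOPU hC hC₁ hℓ (hB ℓ hℓ) hκ (hK.sk.b1 c)
        (fun x hx y hy z hz => hK.dec1 x hx y hy z hz c) (fun x hx => hK.dmean x hx c) (ha X)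
    refine le_trans (Finset.sum_le_sum h1) (le_of_eq ?_)
    rw [Finset.sum_const, Finset.card_univ, Fintype.card_fin, nsmul_eq_mul]
    norm_num
  have hlhs : GB ℓ φ l m A ≤
      ∫ X, 3 * (C₁ / ℓ ^ 10 * (T1 X + T2 X) + C₁ / ℓ ^ 8 * (4 * C * T3 X)) ∂(PiM ι ℓ) := by
    unfold GB
    simp only [hFA]
    apply integral_mono
    · exact integrable_finsetSum _ (fun c _ => integ hBMC (bL c) _)
    · exact integ hBMC (cmul hBMC (add hBMC (cmul hBMC (add hBMC b1 b2) _)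
        (cmul hBMC (cmul hBMC b3 _) _)) _) _
    · exact hpt
  have i1 := integ hBMC b1 (PiM ι ℓ)
  have i2 := integ hBMC b2 (PiM ι ℓ)
  have i3 := integ hBMC b3 (PiM ι ℓ)
  have hrhs : ∫ X, 3 * (C₁ / ℓ ^ 10 * (T1 X + T2 X) + C₁ / ℓ ^ 8 * (4 * C * T3 X)) ∂(PiM ι ℓ) =
      3 * (C₁ / ℓ ^ 10 * (ns ℓ (Qa ℓ l A) + ns ℓ (Qa ℓ m A)) + C₁ / ℓ ^ 8 * (4 * C * qI ℓ κ l A)) := by
    have j1 : Integrable (fun X => C₁ / ℓ ^ 10 * (T1 X + T2 X)) (PiM ι ℓ) :=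
      integ hBMC (cmul hBMC (add hBMC b1 b2) _) _
    have j2 : Integrable (fun X => C₁ / ℓ ^ 8 * (4 * C * T3 X)) (PiM ι ℓ) :=
      integ hBMC (cmul hBMC (cmul hBMC b3 _) _) _
    rw [integral_const_mul, integral_add j1 j2,
      integral_const_mul, integral_add i1 i2, integral_const_mul, integral_const_mul]
    rw [← hS1, ← hS2, ← hS3 κ hκ.bm, hT1, hT2, hT3]
  rw [hrhs] at hlhs
  have hq := (hQIA ι ℓ C κ A l hℓ0 hκ hA).1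
  have hn1 : 0 ≤ ns ℓ (Qa ℓ l A) := integral_nonneg (fun X => sq_nonneg _)
  have hn2 : 0 ≤ ns ℓ (Qa ℓ m A) := integral_nonneg (fun X => sq_nonneg _)
  refine le_trans hlhs ?_
  have d1 : 0 ≤ C * C₁ / ℓ ^ 10 := by positivity
  have d2 : 0 ≤ C₁ / ℓ ^ 8 := by positivity
  have e1 : (3 * C₁ + 12 * C * C₁) / ℓ ^ 10 * (ns ℓ (Qa ℓ l A) + ns ℓ (Qa ℓ m A)) =
      3 * (C₁ / ℓ ^ 10 * (ns ℓ (Qa ℓ l A) + ns ℓ (Qa ℓ m A))) +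
        12 * (C * C₁ / ℓ ^ 10 * (ns ℓ (Qa ℓ l A) + ns ℓ (Qa ℓ m A))) := by ring
  have e2 : (3 * C₁ + 12 * C * C₁) / ℓ ^ 8 * qI ℓ κ l A =
      3 * (C₁ / ℓ ^ 8 * (4 * C * qI ℓ κ l A)) + 3 * (C₁ / ℓ ^ 8 * qI ℓ κ l A) := by ring
  rw [e1, e2]
  have f1 := mul_nonneg d1 (add_nonneg hn1 hn2)
  have f2 := mul_nonneg d2 hq
  linarith

end Pool.Agent.TBL
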