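import Pool.Agent.TBL.Stmts

/-!
# Three-body Bose gases (MP_80dc41_mp), lower bound: module GRF, the truncated profile
-/

set_option autoImplicit false

open MeasureTheory Filter Topology
open scoped ContDiff

namespace Pool.Agent.TBL

open Pool.Agent.TBG

namespace GRF_

theorem th_smooth : ContDiff ℝ ∞ th := by
  unfold th
  have h1 : ContDiff ℝ ∞ (fun s : ℝ => s - 1) := contDiff_id.sub contDiff_const
  have h2 : ContDiff ℝ ∞ Real.smoothTransition := Real.smoothTransition.contDiff (n := ⊤)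
  exact contDiff_const.sub (h2.comp h1)

theorem th_one {s : ℝ} (h : s ≤ 1) : th s = 1 := by
  unfold th
  rw [Real.smoothTransition.zero_of_nonpos (by linarith)]
  ring

theorem th_zero {s : ℝ} (h : 2 ≤ s) : th s = 0 := by
  unfold th
  rw [Real.smoothTransition.one_of_one_le (by linarith)]
  ring

theorem th_nonneg (s : ℝ) : 0 ≤ th s := by
  have := Real.smoothTransition.le_one (s - 1)
  unfold th
  linarith

theorem th_le (s : ℝ) : th s ≤ 1 := by
  have := Real.smoothTransition.nonneg (s - 1)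
  unfold th
  linarith

theorem smooth_deriv {f : ℝ → ℝ} (hf : ContDiff ℝ ∞ f) : ContDiff ℝ ∞ (deriv f) :=
  (contDiff_infty_iff_deriv.1 hf).2

theorem deriv_left {f : ℝ → ℝ} (hf : ContDiff ℝ ∞ f) {c a : ℝ} (h : ∀ s ≤ a, f s = c) :
    ∀ s ≤ a, deriv f s = 0 := by
  have h1 : Set.Iio a ⊆ {s | deriv f s = 0} := by
    intro s hs
    have h2 : f =ᶠ[𝓝 s] fun _ => c := by
      filter_upwards [Iio_mem_nhds hs] with t ht
      exact h t (le_of_lt ht)
    show deriv f s = 0
    rw [h2.deriv_eq]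
    simp
  have h2 : IsClosed {s | deriv f s = 0} :=
    isClosed_eq (smooth_deriv hf).continuous continuous_const
  have h3 := closure_minimal h1 h2
  rw [closure_Iio] at h3
  exact fun s hs => h3 hs

theorem deriv_right {f : ℝ → ℝ} (hf : ContDiff ℝ ∞ f) {c a : ℝ} (h : ∀ s, a ≤ s → f s = c) :
    ∀ s, a ≤ s → deriv f s = 0 := by
  have h1 : Set.Ioi a ⊆ {s | deriv f s = 0} := by
    intro s hs
    have h2 : f =ᶠ[𝓝 s] fun _ => c := by
      filter_upwards [Ioi_mem_nhds hs] with t ht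
      exact h t (le_of_lt ht)
    show deriv f s = 0
    rw [h2.deriv_eq]
    simp
  have h2 : IsClosed {s | deriv f s = 0} :=
    isClosed_eq (smooth_deriv hf).continuous continuous_const
  have h3 := closure_minimal h1 h2
  rw [closure_Ioi] at h3
  exact fun s hs => h3 hs

theorem th1_left {s : ℝ} (h : s ≤ 1) : deriv th s = 0 :=
  deriv_left th_smooth (fun _ h => th_one h) s h

theorem th1_right {s : ℝ} (h : 2 ≤ s) : deriv th s = 0 :=
  deriv_right th_smooth (fun _ h => th_zero h) s h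

theorem th2_left {s : ℝ} (h : s ≤ 1) : deriv (deriv th) s = 0 :=
  deriv_left (smooth_deriv th_smooth) (fun _ h => th1_left h) s h

theorem th2_right {s : ℝ} (h : 2 ≤ s) : deriv (deriv th) s = 0 :=
  deriv_right (smooth_deriv th_smooth) (fun _ h => th1_right h) s h

theorem th_bdd : ∃ T : ℝ, 0 ≤ T ∧ ∀ s, |deriv th s| ≤ T ∧ |deriv (deriv th) s| ≤ T := by
  have hc : ∀ f : ℝ → ℝ, Continuous f → (∀ s ≤ 1, f s = 0) → (∀ s, 2 ≤ s → f s = 0) →
      ∃ T : ℝ, ∀ s, |f s| ≤ T := by
    intro f hf h1 h2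
    have h3 : HasCompactSupport f := by
      refine HasCompactSupport.intro (isCompact_Icc (a := (1 : ℝ)) (b := 2)) fun s hs => ?_
      rw [Set.mem_Icc, not_and_or, not_le, not_le] at hs
      rcases hs with h | h
      · exact h1 s h.le
      · exact h2 s h.le
    obtain ⟨T, hT⟩ := hf.bounded_above_of_compact_support h3
    exact ⟨T, fun s => by simpa using hT s⟩
  obtain ⟨T1, h1⟩ := hc _ (smooth_deriv th_smooth).continuous (fun _ h => th1_left h)
    (fun _ h => th1_right h)
  obtain ⟨T2, h2⟩ := hc _ (smooth_deriv (smooth_deriv th_smooth)).continuous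
    (fun _ h => th2_left h) (fun _ h => th2_right h)
  refine ⟨max T1 T2, (abs_nonneg _).trans ((h1 0).trans (le_max_left _ _)), fun s => ?_⟩
  exact ⟨(h1 s).trans (le_max_left _ _), (h2 s).trans (le_max_right _ _)⟩

theorem der_mul {f g : ℝ → ℝ} (hf : ContDiff ℝ ∞ f) (hg : ContDiff ℝ ∞ g) (a s : ℝ) :
    deriv (fun s => f s * g (s / a)) s = deriv f s * g (s / a) + f s * (deriv g (s / a) / a) := by
  have h1 : HasDerivAt f (deriv f s) s := (hf.differentiable (by simp) s).hasDerivAt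
  have h2 : HasDerivAt g (deriv g (s / a)) (s / a) :=
    (hg.differentiable (by simp) (s / a)).hasDerivAt
  have h3 : HasDerivAt (fun s : ℝ => s / a) (1 / a) s := (hasDerivAt_id s).div_const a
  have h4 : HasDerivAt (fun s => g (s / a)) (deriv g (s / a) * (1 / a)) s := h2.comp s h3
  have h5 := (h1.mul h4).deriv
  have h6 : (f * fun s => g (s / a)) = fun s => f s * g (s / a) := rfl
  rw [h6] at h5
  rw [h5]
  ring

theorem smooth_mul {f g : ℝ → ℝ} (hf : ContDiff ℝ ∞ f) (hg : ContDiff ℝ ∞ g) (a : ℝ) :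
    ContDiff ℝ ∞ (fun s => f s * g (s / a)) :=
  hf.mul (hg.comp (contDiff_id.div_const a))

/-- derivatives of `GR` -/
theorem GR1 (hP : ContDiff ℝ ∞ P1) (R s : ℝ) : deriv (GR R) s =
    deriv P1 s * th (s / R ^ 2) + P1 s * (deriv th (s / R ^ 2) / R ^ 2) :=
  der_mul hP th_smooth (R ^ 2) s

theorem GR2 (hP : ContDiff ℝ ∞ P1) (R s : ℝ) : deriv (deriv (GR R)) s =
    deriv (deriv P1) s * th (s / R ^ 2) + 2 * (deriv P1 s * (deriv th (s / R ^ 2) / R ^ 2)) +
      P1 s * (deriv (deriv th) (s / R ^ 2) / R ^ 2 / R ^ 2) := by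
  have h1 : deriv (GR R) = fun s => (fun s => deriv P1 s * th (s / R ^ 2)) s +
      (fun s => P1 s * deriv th (s / R ^ 2)) s / R ^ 2 := by
    funext s
    rw [GR1 hP]
    show _ = deriv P1 s * th (s / R ^ 2) + P1 s * deriv th (s / R ^ 2) / R ^ 2
    ring
  have d1 : DifferentiableAt ℝ (fun s => deriv P1 s * th (s / R ^ 2)) s :=
    (smooth_mul (smooth_deriv hP) th_smooth (R ^ 2)).differentiable (by simp) s
  have d2 : DifferentiableAt ℝ (fun s => P1 s * deriv th (s / R ^ 2)) s :=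
    (smooth_mul hP (smooth_deriv th_smooth) (R ^ 2)).differentiable (by simp) s
  rw [h1]
  have h2 := (d1.hasDerivAt.add (d2.hasDerivAt.div_const (R ^ 2))).deriv
  have h3 : ((fun s => deriv P1 s * th (s / R ^ 2)) +
      fun s => (fun s => P1 s * deriv th (s / R ^ 2)) s / R ^ 2) =
      fun s => (fun s => deriv P1 s * th (s / R ^ 2)) s +
      (fun s => P1 s * deriv th (s / R ^ 2)) s / R ^ 2 := rfl
  rw [h3] at h2
  rw [h2, der_mul (smooth_deriv hP) th_smooth, der_mul hP (smooth_deriv th_smooth)]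
  ring

/-- the formula for `gR` -/
theorem gR_eq (hP : ContDiff ℝ ∞ P1)
    (hode : ∀ s, 4 * s * deriv (deriv P1) s + 12 * deriv P1 s = -W1 s) (R s : ℝ) :
    gR R s = W1 s * (1 - th (s / R ^ 2)) +
      (8 * s * deriv P1 s * (deriv th (s / R ^ 2) / R ^ 2) +
      4 * s * P1 s * (deriv (deriv th) (s / R ^ 2) / R ^ 2 / R ^ 2) +
      12 * P1 s * (deriv th (s / R ^ 2) / R ^ 2)) := by
  unfold gR
  rw [GR1 hP, GR2 hP]
  have h := hode s
  linear_combination th (s / R ^ 2) * h

theorem smooth_GR (hP : ContDiff ℝ ∞ P1) (R : ℝ) : ContDiff ℝ ∞ (GR R) :=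
  smooth_mul hP th_smooth (R ^ 2)

theorem smooth_gR (hW : ContDiff ℝ ∞ W1) (hP : ContDiff ℝ ∞ P1) (R : ℝ) :
    ContDiff ℝ ∞ (gR R) := by
  have h1 := smooth_deriv (smooth_GR hP R)
  have h2 := smooth_deriv h1
  exact (hW.add ((contDiff_const.mul contDiff_id).mul h2)).add (contDiff_const.mul h1)

theorem W1_th (hW : ∀ s, 1 ≤ s → W1 s = 0) {R : ℝ} (hR : 1 ≤ R) (s : ℝ) :
    W1 s * (1 - th (s / R ^ 2)) = 0 := by
  have hR2 : 1 ≤ R ^ 2 := one_le_pow₀ hR
  by_cases hs : 1 ≤ s
  · rw [hW s hs, zero_mul]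
  · have h1 : s / R ^ 2 ≤ 1 := by
      rw [div_le_one (by positivity)]
      linarith
    rw [th_one h1, sub_self, mul_zero]

/-- the bound for `gR` -/
theorem gR_bound {T : ℝ} {r s p q a b : ℝ} (hr : 1 ≤ r) (hs1 : r ≤ s)
    (hs2 : s ≤ 2 * r) (hp : (1 + s) ^ 3 * |p| ≤ 1) (hq0 : 0 ≤ q) (hq : (1 + s) ^ 2 * q ≤ 1)
    (ha : |a| ≤ T) (hb : |b| ≤ T) :
    |8 * s * p * (a / r) + 4 * s * q * (b / r / r) + 12 * q * (a / r)| ≤ 36 * T / r ^ 3 := by
  have hr0 : 0 < r := by linarith
  have hp1 : r ^ 3 * |p| ≤ 1 := by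
    refine le_trans (mul_le_mul_of_nonneg_right ?_ (abs_nonneg p)) hp
    exact pow_le_pow_left₀ hr0.le (by linarith) 3
  have hq1 : r ^ 2 * q ≤ 1 := by
    refine le_trans (mul_le_mul_of_nonneg_right ?_ hq0) hq
    exact pow_le_pow_left₀ hr0.le (by linarith) 2
  have hpr : 0 ≤ r ^ 3 * |p| := by positivity
  have hqr : 0 ≤ r ^ 2 * q := by positivity
  rw [le_div_iff₀ (by positivity), ← abs_of_pos (show 0 < r ^ 3 by positivity), ← abs_mul]
  have e : (8 * s * p * (a / r) + 4 * s * q * (b / r / r) + 12 * q * (a / r)) * r ^ 3 =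
      8 * (s / r) * ((r ^ 3 * p) * a) + 4 * (s / r) * ((r ^ 2 * q) * b) +
        12 * ((r ^ 2 * q) * a) := by
    field_simp
  rw [e]
  have ht0 : 0 ≤ s / r := div_nonneg (by linarith) hr0.le
  have ht2 : s / r ≤ 2 := by
    rw [div_le_iff₀ hr0]
    exact hs2
  have b1 : |(r ^ 3 * p) * a| ≤ T := by
    rw [abs_mul, abs_mul, abs_of_pos (show 0 < r ^ 3 by positivity)]
    calc r ^ 3 * |p| * |a| ≤ 1 * T := mul_le_mul hp1 ha (abs_nonneg _) zero_le_one
      _ = T := one_mul T
  have b2 : |(r ^ 2 * q) * b| ≤ T := by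
    rw [abs_mul, abs_of_nonneg hqr]
    calc r ^ 2 * q * |b| ≤ 1 * T := mul_le_mul hq1 hb (abs_nonneg _) zero_le_one
      _ = T := one_mul T
  have b3 : |(r ^ 2 * q) * a| ≤ T := by
    rw [abs_mul, abs_of_nonneg hqr]
    calc r ^ 2 * q * |a| ≤ 1 * T := mul_le_mul hq1 ha (abs_nonneg _) zero_le_one
      _ = T := one_mul T
  have c1 : |8 * (s / r) * ((r ^ 3 * p) * a)| ≤ 16 * T := by
    rw [abs_mul, abs_of_nonneg (by positivity)]
    exact mul_le_mul (by linarith) b1 (abs_nonneg _) (by norm_num)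
  have c2 : |4 * (s / r) * ((r ^ 2 * q) * b)| ≤ 8 * T := by
    rw [abs_mul, abs_of_nonneg (by positivity)]
    exact mul_le_mul (by linarith) b2 (abs_nonneg _) (by norm_num)
  have c3 : |12 * ((r ^ 2 * q) * a)| ≤ 12 * T := by
    rw [abs_mul, abs_of_pos (by norm_num : (0 : ℝ) < 12)]
    linarith
  have d1 := abs_add_le (8 * (s / r) * ((r ^ 3 * p) * a) + 4 * (s / r) * ((r ^ 2 * q) * b))
    (12 * ((r ^ 2 * q) * a))
  have d2 := abs_add_le (8 * (s / r) * ((r ^ 3 * p) * a)) (4 * (s / r) * ((r ^ 2 * q) * b))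
  linarith

theorem dv_smooth {F : E × E → ℝ} (hF : ContDiff ℝ ∞ F) (v : E × E) :
    ContDiff ℝ ∞ (dv v F) := by
  unfold dv
  exact (hF.fderiv_right (m := ∞) (by simp)).clm_apply contDiff_const

theorem dv_cpt {F : E × E → ℝ} (hF : HasCompactSupport F) (v : E × E) :
    HasCompactSupport (dv v F) := by
  unfold dv
  exact hF.fderiv_apply (𝕜 := ℝ) v

end GRF_

open GRF_ in
theorem grf_proof (hPRF : Stmt_PRF) (hLPC : Pool.Agent.TBG.Stmt_LPC)
    (hQFO : Pool.Agent.TBG.Stmt_QFO) (hIBP : Pool.Agent.TBG.Stmt_IBP) : Stmt_GRF := by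
  obtain ⟨hW, hP, -, -, hW1, -, hode, hPb, -, -, -, -⟩ := hPRF
  obtain ⟨qsm, qg, ql, qb, -, -⟩ := hQFO
  obtain ⟨T, hT0, hT⟩ := th_bdd
  refine ⟨1 + 36 * T, by linarith, fun R hR => ?_⟩
  have hR0 : 0 < R := by linarith
  have hR2 : 1 ≤ R ^ 2 := one_le_pow₀ hR
  have hgR : ∀ s, gR R s = 8 * s * deriv P1 s * (deriv th (s / R ^ 2) / R ^ 2) +
      4 * s * P1 s * (deriv (deriv th) (s / R ^ 2) / R ^ 2 / R ^ 2) +
      12 * P1 s * (deriv th (s / R ^ 2) / R ^ 2) := by
    intro s
    rw [gR_eq hP hode, W1_th hW1 hR, zero_add]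
  have hbig : ∀ s, 2 * R ^ 2 ≤ s → GR R s = 0 ∧ gR R s = 0 := by
    intro s hs
    have h1 : 2 ≤ s / R ^ 2 := by
      rw [le_div_iff₀ (by positivity)]
      exact hs
    constructor
    · unfold GR
      rw [th_zero h1, mul_zero]
    · rw [hgR, th1_right h1, th2_right h1]
      ring
  refine ⟨smooth_GR hP R, smooth_gR hW hP R, fun s hs => ?_, hbig, ?_⟩
  · obtain ⟨p1, p2, p3, p4⟩ := hPb s hs
    have hth0 := th_nonneg (s / R ^ 2)
    have hth1 := th_le (s / R ^ 2)
    have g0 : 0 ≤ GR R s := mul_nonneg p1.le hth0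
    have g1 : GR R s ≤ P1 s := mul_le_of_le_one_right p1.le hth1
    refine ⟨g0, g1, ?_, ?_, ?_⟩
    · rw [abs_of_nonneg g0]
      have : (1 + s) ^ 2 * GR R s ≤ (1 + s) ^ 2 * P1 s :=
        mul_le_mul_of_nonneg_left g1 (by positivity)
      linarith
    · rw [GR1 hP]
      have a1 : (1 + s) ^ 3 * |deriv P1 s * th (s / R ^ 2)| ≤ 1 := by
        rw [abs_mul, abs_of_nonneg hth0, ← mul_assoc]
        exact mul_le_one₀ p4 hth0 hth1
      have a2 : (1 + s) ^ 3 * |P1 s * (deriv th (s / R ^ 2) / R ^ 2)| ≤ 3 * T := by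
        rcases le_total s (2 * R ^ 2) with h | h
        · rw [abs_mul, abs_of_pos p1, abs_div, abs_of_pos (show 0 < R ^ 2 by positivity)]
          have e1 : (1 + s) ^ 3 * (P1 s * (|deriv th (s / R ^ 2)| / R ^ 2)) =
              ((1 + s) ^ 2 * P1 s) * (((1 + s) / R ^ 2) * |deriv th (s / R ^ 2)|) := by
            ring
          rw [e1]
          have e2 : (1 + s) / R ^ 2 ≤ 3 := by
            rw [div_le_iff₀ (by positivity)]
            linarith
          have e3 : ((1 + s) / R ^ 2) * |deriv th (s / R ^ 2)| ≤ 3 * T :=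
            mul_le_mul e2 (hT _).1 (abs_nonneg _) (by norm_num)
          calc ((1 + s) ^ 2 * P1 s) * (((1 + s) / R ^ 2) * |deriv th (s / R ^ 2)|)
              ≤ 1 * (3 * T) := mul_le_mul p3 e3 (by positivity) zero_le_one
            _ = 3 * T := one_mul _
        · have h1 : 2 ≤ s / R ^ 2 := by
            rw [le_div_iff₀ (by positivity)]
            exact h
          rw [th1_right h1]
          simp only [zero_div, mul_zero, abs_zero]
          linarith
      have a3 := abs_add_le (deriv P1 s * th (s / R ^ 2)) (P1 s * (deriv th (s / R ^ 2) / R ^ 2))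
      have a4 := mul_le_mul_of_nonneg_left a3 (show 0 ≤ (1 + s) ^ 3 by positivity)
      rw [mul_add] at a4
      linarith
    · have hR6 : R ^ 6 = (R ^ 2) ^ 3 := by ring
      have hnn : 0 ≤ (1 + 36 * T) / R ^ 6 := by positivity
      rcases lt_or_ge s (R ^ 2) with h | h
      · have h1 : s / R ^ 2 ≤ 1 := by
          rw [div_le_one (by positivity)]
          exact h.le
        rw [hgR, th1_left h1, th2_left h1]
        simpa using hnn
      · rcases le_total s (2 * R ^ 2) with h2 | h2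
        · rw [hgR]
          have hb := gR_bound hR2 h h2 p4 p1.le p3 (hT (s / R ^ 2)).1 (hT (s / R ^ 2)).2
          refine hb.trans ?_
          rw [hR6]
          gcongr
          linarith
        · rw [(hbig s h2).2, abs_zero]
          exact hnn
  · -- the integral
    set F : E × E → ℝ := fun z => GR R (QQ z) with hF
    have hch := hLPC (GR R) QQ Set.univ isOpen_univ (smooth_GR hP R).contDiffOn qsm
      (fun _ => Set.mem_univ _)
    have hFs : ContDiff ℝ ∞ F := (smooth_GR hP R).comp qsm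
    have hlap : ∀ z, gR R (QQ z) = W1 (QQ z) + Lap F z := by
      intro z
      have h := (hch z).2.2.2
      rw [qg z, ql z] at h
      rw [hF, h]
      unfold gR
      ring
    have hcp : ∀ f : ℝ → ℝ, (∀ s, 2 * R ^ 2 ≤ s → f s = 0) →
        HasCompactSupport (fun z : E × E => f (QQ z)) := by
      intro f hf
      refine HasCompactSupport.intro (isCompact_closedBall (0 : E × E) (3 * R)) fun z hz => ?_
      apply hf
      rw [mem_closedBall_zero_iff, not_le] at hz
      have h1 := (qb z).2.2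
      have h2 : (3 * R) ^ 2 ≤ ‖z‖ ^ 2 := pow_le_pow_left₀ (by positivity) hz.le 2
      nlinarith
    have hFc : HasCompactSupport F := hcp (GR R) fun s hs => (hbig s hs).1
    have hWc : HasCompactSupport (fun z : E × E => W1 (QQ z)) :=
      hcp W1 fun s hs => hW1 s (by linarith)
    have hHaar : (volume : Measure (E × E)).IsAddHaarMeasure :=
      Measure.prod.instIsAddHaarMeasure (volume : Measure E) (volume : Measure E)
    have hWi : Integrable (fun z : E × E => W1 (QQ z)) :=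
      (hW.continuous.comp qsm.continuous).integrable_of_hasCompactSupport hWc
    have hdd : ∀ v : E × E, Integrable (dv v (dv v F)) ∧ ∫ z, dv v (dv v F) z = 0 := by
      intro v
      have s1 := dv_smooth hFs v
      have c1 := dv_cpt hFc v
      refine ⟨(dv_smooth s1 v).continuous.integrable_of_hasCompactSupport (dv_cpt c1 v), ?_⟩
      exact (hIBP (E × E) volume (dv v F) (dv v F) v (s1.of_le (by simp)) (s1.of_le (by simp))
        c1).1
    have hLi : Integrable (Lap F) := by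
      unfold Lap
      exact integrable_finsetSum _ fun m _ => integrable_finsetSum _ fun c _ => (hdd (dr m c)).1
    have hL0 : ∫ z, Lap F z = 0 := by
      unfold Lap
      rw [integral_finsetSum _ fun m _ => integrable_finsetSum _ fun c _ => (hdd (dr m c)).1]
      refine Finset.sum_eq_zero fun m _ => ?_
      rw [integral_finsetSum _ fun c _ => (hdd (dr m c)).1]
      exact Finset.sum_eq_zero fun c _ => (hdd (dr m c)).2
    have h1 : (fun z : E × E => gR R (QQ z)) = fun z => W1 (QQ z) + Lap F z := funext hlap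
    rw [h1, integral_add hWi hLi, hL0, add_zero]

end Pool.Agent.TBL
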