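import Pool.Agent.TBL.Stmts

set_option autoImplicit false

open MeasureTheory Filter Topology
open scoped ContDiff

namespace Pool.Agent.TBL

open Pool.Agent.TBG

namespace GRP_

/-- disjoint subsets of the same size -/
theorem exists_sets {ι : Type} [Fintype ι] [DecidableEq ι] (n₁ m : ℕ)
    (hm : m * n₁ ≤ Fintype.card ι) :
    ∃ S : ℕ → Finset ι, (∀ k < m, (S k).card = n₁) ∧
      (∀ k < m, ∀ k' < m, k ≠ k' → Disjoint (S k) (S k')) := by
  induction m with
  | zero => exact ⟨fun _ => ∅, fun k hk => by omega, fun k hk => by omega⟩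
  | succ m ih =>
    obtain ⟨S, h1, h2⟩ := ih (le_trans (Nat.mul_le_mul_right _ (Nat.le_succ m)) hm)
    set T : Finset ι := (Finset.range m).biUnion S with hT
    have hTc : T.card ≤ m * n₁ := by
      refine Finset.card_biUnion_le.trans ?_
      refine (Finset.sum_le_sum (fun k hk => (h1 k (Finset.mem_range.1 hk)).le)).trans ?_
      rw [Finset.sum_const, Finset.card_range, smul_eq_mul]
    have hc : n₁ ≤ (Tᶜ).card := by
      rw [Finset.card_compl]
      have : (m + 1) * n₁ = m * n₁ + n₁ := by ring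
      omega
    obtain ⟨R, hR1, hR2⟩ := Finset.exists_subset_card_eq hc
    have hd : ∀ k < m, Disjoint (S k) R := by
      intro k hk
      rw [Finset.disjoint_left]
      intro i hi hiR
      have h3 := hR1 hiR
      rw [Finset.mem_compl] at h3
      exact h3 (Finset.mem_biUnion.2 ⟨k, Finset.mem_range.2 hk, hi⟩)
    refine ⟨fun k => if k = m then R else S k, ?_, ?_⟩
    · intro k hk
      by_cases h : k = m
      · simp only [h, if_true]; exact hR2
      · simp only [h, if_false]; exact h1 k (by omega)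
    · intro k hk k' hk' hne
      by_cases h : k = m
      · have h' : k' ≠ m := fun h' => hne (h.trans h'.symm)
        simp only [h, h', if_true, if_false]
        exact (hd k' (by omega)).symm
      · by_cases h' : k' = m
        · simp only [h, h', if_true, if_false]
          exact hd k (by omega)
        · simp only [h, h', if_false]
          exact h2 k (by omega) k' (by omega) hne

/-- the cubes -/
def KK (ι : Type) (ℓ : ℝ) : Set (ι → E) := {X : ι → E | ∀ i, X i ∈ cub ℓ ((0 : ι → E) i)}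

theorem mem_KK {ι : Type} {ℓ : ℝ} {X : ι → E} :
    X ∈ KK ι ℓ ↔ ∀ i, ∀ c, 0 ≤ X i c ∧ X i c < ℓ := by
  unfold KK cub
  simp only [Set.mem_ofPred_eq, Pi.zero_apply, PiLp.zero_apply, zero_add]

theorem meas_KK (ι : Type) [Fintype ι] (ℓ : ℝ) : MeasurableSet (KK ι ℓ) := by
  have h1 : KK ι ℓ = ⋂ i, ⋂ c, {X : ι → E | 0 ≤ X i c ∧ X i c < ℓ} := by
    ext X
    rw [mem_KK]
    simp only [Set.mem_iInter, Set.mem_ofPred_eq]
  rw [h1]
  apply MeasurableSet.iInter
  intro i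
  apply MeasurableSet.iInter
  intro c
  have h2 : Measurable (fun X : ι → E => X i c) := by
    have h3 : Continuous (fun X : ι → E => X i c) := by fun_prop
    exact h3.measurable
  exact (measurableSet_le measurable_const h2).inter (measurableSet_lt h2 measurable_const)

theorem conv (hM : Stmt_MEP) (ι : Type) [Fintype ι] (ℓ : ℝ) (hℓ : 0 < ℓ) (F : (ι → E) → ℝ) :
    ∫ X, F X ∂(PiM ι ℓ) = ((ℓ ^ 3) ^ Fintype.card ι)⁻¹ * ∫ X in KK ι ℓ, F X := by
  obtain ⟨-, h1, h2⟩ := hM ι ℓ hℓ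
  have h3 : ∫ X, F X ∂(PiM ι ℓ) = ∫ X, (KK ι ℓ).indicator F X ∂(PiM ι ℓ) := by
    apply integral_congr_ae
    filter_upwards [h1] with X hX
    rw [Set.indicator_of_mem]
    rw [mem_KK]
    intro i c
    exact ⟨((hX i).2 c).1.le, ((hX i).2 c).2⟩
  rw [h3, h2, setIntegral_indicator (meas_KK ι ℓ)]
  congr 2
  have h4 : {X : ι → E | ∀ i, X i ∈ Lam ℓ} ∩ KK ι ℓ = KK ι ℓ := by
    apply Set.inter_eq_right.2
    intro X hX i c
    have := (mem_KK.1 hX) i c
    exact ⟨this.1, this.2.le⟩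
  rw [h4]

theorem bm_pot (hB : Stmt_BMC) {V : E → E → ℝ} (hV : Admissible V) {ι : Type}
    (S : Finset ι) [DecidableEq ι] :
    BM (fun X : ι → E => potS V (fun i : {i // i ∈ S} => X i)) := by
  unfold potS
  have hVB : BM (fun z : E × E => V z.1 z.2) := by
    refine ⟨hV.meas, ?_⟩
    obtain ⟨C, hC⟩ := hV.bdd
    refine ⟨C, fun z => ?_⟩
    rw [abs_of_nonneg (hV.nonneg _ _)]
    exact hC _ _
  have h1 : BM (fun X : ι → E => ∑ t ∈ D3 {i // i ∈ S}, V (X t.1 - X t.2.1) (X t.1 - X t.2.2)) := by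
    apply hB.2.2.1
    intro t _
    exact hB.2.2.2.1 (E × E) (ι → E) (fun z => V z.1 z.2)
      (fun X => (X t.1 - X t.2.1, X t.1 - X t.2.2)) hVB (by fun_prop)
  exact (hB.1 _ _ _ h1 h1).2.2.2.2.2.1 (1 / 6)

theorem bm_pot' (hB : Stmt_BMC) {V : E → E → ℝ} (hV : Admissible V) {ι : Type} [Fintype ι]
    [DecidableEq ι] : BM (fun X : ι → E => potS V X) := by
  unfold potS
  have hVB : BM (fun z : E × E => V z.1 z.2) := by
    refine ⟨hV.meas, ?_⟩
    obtain ⟨C, hC⟩ := hV.bdd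
    refine ⟨C, fun z => ?_⟩
    rw [abs_of_nonneg (hV.nonneg _ _)]
    exact hC _ _
  have h1 : BM (fun X : ι → E => ∑ t ∈ D3 ι, V (X t.1 - X t.2.1) (X t.1 - X t.2.2)) := by
    apply hB.2.2.1
    intro t _
    exact hB.2.2.2.1 (E × E) (ι → E) (fun z => V z.1 z.2)
      (fun X => (X t.1 - X t.2.1, X t.1 - X t.2.2)) hVB (by fun_prop)
  exact (hB.1 _ _ _ h1 h1).2.2.2.2.2.1 (1 / 6)

end GRP_

open GRP_ in
theorem grp_proof (hB : Stmt_BMC) (hM : Stmt_MEP) (hF : Stmt_FRZ) (hP : Stmt_PSA)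
    (hS : Stmt_SLI) : Stmt_GRP := by
  intro V ℓ e₁ n₁ hV hℓ he hn h ι _ _ u hu hc
  have : IsProbabilityMeasure (PiM ι ℓ) := (hM ι ℓ hℓ).1
  obtain ⟨hu0, hud, -⟩ := hS ι u hu hc
  set m := Fintype.card ι / n₁ with hm
  obtain ⟨S, hS1, hS2⟩ := exists_sets (ι := ι) n₁ m (Nat.div_mul_le_self _ _)
  have hpos : 0 < ((ℓ ^ 3) ^ Fintype.card ι)⁻¹ := by positivity
  have husq : BM (fun X => u X ^ 2) := (hB.1 _ u u hu0 hu0).2.2.2.1
  have hkin : ∀ s : Finset ι, BM (fun X => ∑ i ∈ s, ∑ c, (di i c u X) ^ 2) := by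
    intro s
    apply hB.2.2.1
    intro i _
    apply hB.2.2.1
    intro c _
    exact (hB.1 _ _ _ (hud i c) (hud i c)).2.2.2.1
  have hG : ∀ k, BM (fun X : ι → E => ∑ i ∈ S k, ∑ c, (di i c u X) ^ 2 +
      potS V (fun i : {i // i ∈ S k} => X i) * u X ^ 2) := by
    intro k
    exact (hB.1 _ _ _ (hkin (S k)) (hB.1 _ _ _ (bm_pot hB hV (S k)) husq).2.2.1).1
  have hG' : BM (fun X : ι → E => ∑ i, ∑ c, (di i c u X) ^ 2 + potS V X * u X ^ 2) :=
    (hB.1 _ _ _ (hkin Finset.univ) (hB.1 _ _ _ (bm_pot' hB hV) husq).2.2.1).1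
  have hint : ∀ F : (ι → E) → ℝ, BM F → Integrable F (PiM ι ℓ) := fun F hF =>
    (hB.1 _ F F hF hF).2.2.2.2.2.2 _
  have h1 : ∀ k < m, e₁ * ns ℓ u ≤ ∫ X, (∑ i ∈ S k, ∑ c, (di i c u X) ^ 2 +
      potS V (fun i : {i // i ∈ S k} => X i) * u X ^ 2) ∂(PiM ι ℓ) := by
    intro k hk
    have h2 := hF V ι (S k) ℓ e₁ 0 0 u hV hℓ (fun i _ => rfl)
      (h {i // i ∈ S k} (by rw [Fintype.card_coe]; exact hS1 k hk)) hu hc
    unfold ns
    rw [conv hM ι ℓ hℓ, conv hM ι ℓ hℓ]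
    have h3 := mul_le_mul_of_nonneg_left h2 hpos.le
    calc e₁ * (((ℓ ^ 3) ^ Fintype.card ι)⁻¹ * ∫ X in KK ι ℓ, u X ^ 2)
        = ((ℓ ^ 3) ^ Fintype.card ι)⁻¹ * (e₁ * ∫ X in KK ι ℓ, u X ^ 2) := by ring
      _ ≤ _ := h3
  have h2 : ∑ k ∈ Finset.range m, e₁ * ns ℓ u ≤ ∑ k ∈ Finset.range m,
      ∫ X, (∑ i ∈ S k, ∑ c, (di i c u X) ^ 2 +
      potS V (fun i : {i // i ∈ S k} => X i) * u X ^ 2) ∂(PiM ι ℓ) :=
    Finset.sum_le_sum (fun k hk => h1 k (Finset.mem_range.1 hk))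
  rw [Finset.sum_const, Finset.card_range, nsmul_eq_mul, ← mul_assoc,
    ← integral_finsetSum _ (fun k _ => hint _ (hG k))] at h2
  refine h2.trans ?_
  unfold enL
  apply integral_mono
  · exact hint _ (hB.2.2.1 _ ℕ (Finset.range m) _ (fun k _ => hG k))
  · exact hint _ hG'
  · intro X
    show ∑ k ∈ Finset.range m, (∑ i ∈ S k, ∑ c, (di i c u X) ^ 2 +
      potS V (fun i : {i // i ∈ S k} => X i) * u X ^ 2) ≤
      ∑ i, ∑ c, (di i c u X) ^ 2 + potS V X * u X ^ 2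
    rw [Finset.sum_add_distrib, ← Finset.sum_mul]
    apply add_le_add
    · rw [← Finset.sum_biUnion]
      · exact Finset.sum_le_sum_of_subset_of_nonneg (Finset.subset_univ _)
          (fun i _ _ => Finset.sum_nonneg (fun c _ => sq_nonneg _))
      · intro k hk k' hk' hne
        exact hS2 k (Finset.mem_range.1 hk) k' (Finset.mem_range.1 hk') hne
    · apply mul_le_mul_of_nonneg_right _ (sq_nonneg _)
      exact hP V ι ℕ (Finset.range m) S X hV (fun k hk k' hk' hne =>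
        hS2 k (Finset.mem_range.1 hk) k' (Finset.mem_range.1 hk') hne)

end Pool.Agent.TBL
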