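import Pool.Agent.TBL.Stmts

/-!
# Three-body Bose gases (MP_80dc41_mp), lower bound: integration by parts on the cube
-/

set_option autoImplicit false

open MeasureTheory Filter Topology
open scoped ContDiff

namespace Pool.Agent.TBL

open Pool.Agent.TBG

namespace IBC_

/-- the identification `Fin 3 → ℝ ≃ E` -/
noncomputable def tl : (Fin 3 → ℝ) ≃L[ℝ] E := (EuclideanSpace.equiv (Fin 3) ℝ).symm

theorem tl_apply (x : Fin 3 → ℝ) (c : Fin 3) : tl x c = x c := rfl

theorem tl_single (c : Fin 3) : tl (Pi.single c 1) = ev c := by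
  ext d
  rw [tl_apply]
  simp [ev, Pi.single_apply]

theorem preim (l : ℝ) : tl ⁻¹' (Lam l) = Set.Icc (0 : Fin 3 → ℝ) (fun _ => l) := by
  ext x
  constructor
  · intro h
    exact ⟨fun c => (h c).1, fun c => (h c).2⟩
  · intro h c
    exact ⟨h.1 c, h.2 c⟩

theorem transfer (l : ℝ) (h : E → ℝ) :
    ∫ x in Lam l, h x = ∫ x in Set.Icc (0 : Fin 3 → ℝ) (fun _ => l), h (tl x) := by
  have hp := (EuclideanSpace.volume_preserving_symm_measurableEquiv_toLp (Fin 3)).symm
  have h1 := hp.setIntegral_preimage_emb (MeasurableEquiv.measurableEmbedding _) h (Lam l)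
  rw [← preim]
  exact h1.symm

theorem main (ℓ : ℝ) (c : Fin 3) (G : E → ℝ) (hℓ : 0 < ℓ) (hG : ContDiff ℝ 1 G)
    (h0 : ∀ x ∈ Lam ℓ, (x c = 0 ∨ x c = ℓ) → G x = 0) : ∫ x in Lam ℓ, pd c G x = 0 := by
  rw [transfer]
  have hcont : Continuous (fun x : E => pd c G x) :=
    (hG.continuous_fderiv (by norm_num)).clm_apply continuous_const
  have key := integral_divergence_of_hasFDerivAt_off_countable' (E := ℝ) (n := 2)
    (0 : Fin 3 → ℝ) (fun _ => ℓ) (fun _ => hℓ.le)
    (fun i x => if i = c then G (tl x) else 0)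
    (fun i x => if i = c then (fderiv ℝ G (tl x)).comp (tl : (Fin 3 → ℝ) →L[ℝ] E) else 0)
    ∅ Set.countable_empty ?_ ?_ ?_
  · have e1 : (fun x : Fin 3 → ℝ => ∑ i, (if i = c then (fderiv ℝ G (tl x)).comp (tl : (Fin 3 → ℝ) →L[ℝ] E)
        else (0 : (Fin 3 → ℝ) →L[ℝ] ℝ)) (Pi.single i 1)) = fun x => pd c G (tl x) := by
      funext x
      rw [Finset.sum_eq_single c]
      · rw [if_pos rfl, ContinuousLinearMap.comp_apply]
        unfold pd
        rw [← tl_single]
        rfl
      · intro i _ hi
        rw [if_neg hi]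
        rfl
      · intro h
        exact absurd (Finset.mem_univ c) h
    have e2 := congrArg (fun F : (Fin 3 → ℝ) → ℝ => ∫ x in Set.Icc (0 : Fin 3 → ℝ) (fun _ => ℓ), F x) e1
    simp only at e2
    rw [← e2]
    refine key.trans ?_
    refine Finset.sum_eq_zero (fun i _ => ?_)
    by_cases hi : i = c
    · subst hi
      simp only [if_true]
      have z1 : ∀ (t : ℝ), (t = 0 ∨ t = ℓ) → ∫ x in Set.Icc ((0 : Fin 3 → ℝ) ∘ i.succAbove) ((fun _ => ℓ) ∘ i.succAbove),
          G (tl (i.insertNth t x)) = 0 := by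
        intro t ht
        have : ∀ x ∈ Set.Icc ((0 : Fin 3 → ℝ) ∘ i.succAbove) ((fun _ => ℓ) ∘ i.succAbove),
            G (tl (i.insertNth t x)) = 0 := by
          intro x hx
          apply h0
          · intro d
            rw [tl_apply]
            rcases Fin.eq_self_or_eq_succAbove i d with h | ⟨j, h⟩
            · rw [h, Fin.insertNth_apply_same]
              rcases ht with ht | ht
              · rw [ht]; exact ⟨le_rfl, hℓ.le⟩
              · rw [ht]; exact ⟨hℓ.le, le_rfl⟩
            · rw [h, Fin.insertNth_apply_succAbove]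
              exact ⟨hx.1 j, hx.2 j⟩
          · rw [tl_apply, Fin.insertNth_apply_same]
            exact ht
        rw [setIntegral_congr_fun measurableSet_Icc this]
        simp
      have z2 := z1 ℓ (Or.inr rfl)
      have z3 := z1 0 (Or.inl rfl)
      refine sub_eq_zero.2 ?_
      refine Eq.trans z2 (Eq.symm ?_)
      exact z3
    · simp [hi]
  · intro i
    by_cases hi : i = c
    · simp only [hi, if_true]
      exact (hG.continuous.comp tl.continuous).continuousOn
    · simp only [hi, if_false]
      exact continuousOn_const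
  · intro x _ i
    by_cases hi : i = c
    · simp only [hi, if_true]
      exact ((hG.differentiable (by norm_num) (tl x)).hasFDerivAt).comp x tl.hasFDerivAt
    · simp only [hi, if_false]
      exact hasFDerivAt_const _ _
  · have e1 : (fun x : Fin 3 → ℝ => ∑ i, (if i = c then (fderiv ℝ G (tl x)).comp (tl : (Fin 3 → ℝ) →L[ℝ] E)
        else (0 : (Fin 3 → ℝ) →L[ℝ] ℝ)) (Pi.single i 1)) = fun x => pd c G (tl x) := by
      funext x
      rw [Finset.sum_eq_single c]
      · rw [if_pos rfl, ContinuousLinearMap.comp_apply]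
        unfold pd
        rw [← tl_single]
        rfl
      · intro i _ hi
        rw [if_neg hi]
        rfl
      · intro h
        exact absurd (Finset.mem_univ c) h
    rw [e1]
    exact ((hcont.comp tl.continuous).continuousOn).integrableOn_Icc

end IBC_

open IBC_ in
theorem ibc_proof (hMES : Stmt_MES) : Stmt_IBC := by
  intro ℓ c f ψ hℓ hf hψ h0
  obtain ⟨-, -, -, -, hint, -, hcts, -⟩ := hMES ℓ hℓ
  have hfd : ∀ x, DifferentiableAt ℝ f x := fun x => hf.differentiable (by norm_num) x
  have hψd : ∀ x, DifferentiableAt ℝ ψ x := fun x => hψ.differentiable (by norm_num) x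
  have hc1 : Continuous (fun x : E => pd c f x) :=
    (hf.continuous_fderiv (by norm_num)).clm_apply continuous_const
  have hc2 : Continuous (fun x : E => pd c ψ x) :=
    (hψ.continuous_fderiv (by norm_num)).clm_apply continuous_const
  have hm := main ℓ c (fun x => f x * ψ x) hℓ (hf.mul hψ) (fun x hx hxc => by
    rw [h0 x hx hxc, mul_zero])
  have e1 : ∀ x, pd c (fun x => f x * ψ x) x = pd c f x * ψ x + f x * pd c ψ x := by
    intro x
    unfold pd
    rw [fderiv_fun_mul (hfd x) (hψd x)]
    simp only [add_apply, smul_apply, smul_eq_mul]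
    ring
  simp only [e1] at hm
  have i1 := hcts (fun x => pd c f x * ψ x) (hc1.mul hψ.continuous)
  have i2 := hcts (fun x => f x * pd c ψ x) (hf.continuous.mul hc2)
  have h3 := integral_add i1 i2
  have h4 := hint (fun x => pd c f x * ψ x + f x * pd c ψ x)
  rw [hm, mul_zero] at h4
  rw [h4] at h3
  linarith

end Pool.Agent.TBL
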