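import Pool.Agent.TBL.Stmts

set_option autoImplicit false

open MeasureTheory Filter Topology
open scoped ContDiff

namespace Pool.Agent.TBL

open Pool.Agent.TBG

namespace IMB_

/-- decay of the values -/
theorem val_le {B q0 q g D : ℝ} (hq0 : 0 ≤ q0) (hq : q0 ≤ q) (hD : 0 < D)
    (hDq : D ^ 2 ≤ 24 * (1 + q0)) (hg : (1 + q) ^ 2 * |g| ≤ B) : |g| ≤ 576 * B / D ^ 4 := by
  rw [le_div_iff₀ (by positivity)]
  have h1 : D ^ 4 ≤ 576 * (1 + q) ^ 2 := by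
    have h2 : D ^ 2 ≤ 24 * (1 + q) := by linarith
    have h3 : (D ^ 2) ^ 2 ≤ (24 * (1 + q)) ^ 2 := pow_le_pow_left₀ (by positivity) h2 2
    nlinarith
  have h4 : |g| * D ^ 4 ≤ |g| * (576 * (1 + q) ^ 2) :=
    mul_le_mul_of_nonneg_left h1 (abs_nonneg _)
  nlinarith

/-- decay of the derivatives -/
theorem der_le {B q0 q g D r : ℝ} (hB : 0 < B) (hq0 : 0 ≤ q0) (hq : q0 ≤ q) (hD : 0 < D)
    (hDq : D ^ 2 ≤ 24 * (1 + q0)) (hg : (1 + q) ^ 3 * |g| ≤ B) (hr : r ^ 2 ≤ 9 * q) :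
    |g * (2 / 3 * r)| ≤ 6250 * B / D ^ 5 := by
  set s : ℝ := √(1 + q) with hs
  have h1q : 0 < 1 + q := by linarith
  have hs2 : s ^ 2 = 1 + q := Real.sq_sqrt h1q.le
  have hs0 : 0 < s := Real.sqrt_pos.2 h1q
  have hr3 : |r| ≤ 3 * s := by
    apply abs_le_of_sq_le_sq _ (by positivity)
    nlinarith
  have hDs : D ≤ 5 * s := by
    apply le_of_sq_le_sq _ (by positivity)
    nlinarith
  have hD5 : D ^ 5 ≤ 3125 * s ^ 5 := by
    have := pow_le_pow_left₀ hD.le hDs 5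
    nlinarith [this]
  have hg' : s ^ 6 * |g| ≤ B := by
    have : s ^ 6 = (1 + q) ^ 3 := by
      rw [← hs2]; ring
    rw [this]; exact hg
  rw [le_div_iff₀ (by positivity), abs_mul, abs_mul, abs_of_pos (by norm_num : (0 : ℝ) < 2 / 3)]
  have h5 : |g| * (2 / 3 * |r|) ≤ |g| * (2 * s) := by
    apply mul_le_mul_of_nonneg_left _ (abs_nonneg _)
    linarith
  have h6 : |g| * (2 / 3 * |r|) * D ^ 5 ≤ |g| * (2 * s) * (3125 * s ^ 5) :=
    mul_le_mul h5 hD5 (by positivity) (by positivity)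
  have h7 : |g| * (2 * s) * (3125 * s ^ 5) = 6250 * (s ^ 6 * |g|) := by ring
  rw [h7] at h6
  linarith

theorem sgi_abs (σ : Fin 3 → Fin 3) (c : Fin 3) : |sgi σ c| = 1 := by
  unfold sgi
  split_ifs <;> simp

/-- bound for double sums over images -/
theorem sum_le (K : ℝ) (F : (Fin 3 → Fin 3) → (Fin 3 → Fin 3) → ℝ)
    (h : ∀ σ τ, |F σ τ| ≤ 3 * K) : |1 / 3 * ∑ σ, ∑ τ, F σ τ| ≤ 729 * K := by
  have h1 : |∑ σ : Fin 3 → Fin 3, ∑ τ : Fin 3 → Fin 3, F σ τ| ≤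
      ∑ _σ : Fin 3 → Fin 3, ∑ _τ : Fin 3 → Fin 3, 3 * K := by
    refine (Finset.abs_sum_le_sum_abs _ _).trans (Finset.sum_le_sum fun σ _ => ?_)
    exact (Finset.abs_sum_le_sum_abs _ _).trans (Finset.sum_le_sum fun τ _ => h σ τ)
  simp only [Finset.sum_const, Finset.card_univ, Fintype.card_fun, Fintype.card_fin,
    nsmul_eq_mul] at h1
  rw [abs_mul, abs_of_pos (by norm_num : (0 : ℝ) < 1 / 3)]
  norm_num at h1
  linarith

end IMB_

open IMB_ in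
theorem imb_proof (hQTF : Stmt_QTF) (hIMG : Stmt_IMG) (hIMK : Stmt_IMK) : Stmt_IMB := by
  refine ⟨729 * 6250, by norm_num, ?_⟩
  intro ℓ G B hℓ hG hB hdec
  have hid : ∀ x : E, img ℓ (fun _ => 0) x = x := (hIMG ℓ (fun _ => 0) hℓ).2.2.2.2.1
  have hQT : ∀ x ∈ Lam ℓ, ∀ y ∈ Lam ℓ, ∀ z ∈ Lam ℓ, ∀ σ τ υ : Fin 3 → Fin 3,
      QT x y z ≤ QT (img ℓ σ x) (img ℓ τ y) (img ℓ υ z) := fun x hx y hy z hz σ τ υ =>
    (hIMG ℓ σ hℓ).2.2.2.2.2.2.2.1 x hx y hy z hz τ υ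
  -- one term of the sum
  have hval : ∀ x ∈ Lam ℓ, ∀ y ∈ Lam ℓ, ∀ z ∈ Lam ℓ, ∀ σ τ υ : Fin 3 → Fin 3,
      |G (QT (img ℓ σ x) (img ℓ τ y) (img ℓ υ z))| ≤
        576 * B / (1 + ‖x - y‖ + ‖x - z‖) ^ 4 := by
    intro x hx y hy z hz σ τ υ
    obtain ⟨-, q0, -, -, -, -, q1, -⟩ := hQTF.1 x y z
    have h := hQT x hx y hy z hz σ τ υ
    exact val_le q0 h (by positivity) q1 (hdec _ (q0.trans h)).1
  have hder : ∀ x ∈ Lam ℓ, ∀ y ∈ Lam ℓ, ∀ z ∈ Lam ℓ, ∀ σ τ υ : Fin 3 → Fin 3, ∀ c,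
      |dT c G (img ℓ σ x) (img ℓ τ y) (img ℓ υ z)| ≤
        6250 * B / (1 + ‖x - y‖ + ‖x - z‖) ^ 5 := by
    intro x hx y hy z hz σ τ υ c
    obtain ⟨-, q0, -, -, -, -, q1, -⟩ := hQTF.1 x y z
    have h := hQT x hx y hy z hz σ τ υ
    obtain ⟨-, -, -, -, -, -, -, q9⟩ := hQTF.1 (img ℓ σ x) (img ℓ τ y) (img ℓ υ z)
    unfold dT
    refine der_le hB q0 h (by positivity) q1 (hdec _ (q0.trans h)).2 ?_
    have h1 := PiLp.norm_apply_le ((2 : ℝ) • img ℓ σ x - img ℓ τ y - img ℓ υ z) c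
    have h2 : ((2 : ℝ) • img ℓ σ x - img ℓ τ y - img ℓ υ z) c =
        2 * img ℓ σ x c - img ℓ τ y c - img ℓ υ z c := by
      simp [smul_eq_mul]
    rw [h2, Real.norm_eq_abs] at h1
    have h3 : (2 * img ℓ σ x c - img ℓ τ y c - img ℓ υ z c) ^ 2 ≤
        ‖(2 : ℝ) • img ℓ σ x - img ℓ τ y - img ℓ υ z‖ ^ 2 := by
      rw [← sq_abs]
      exact pow_le_pow_left₀ (abs_nonneg _) h1 2
    have h4 := sq_nonneg ‖(2 : ℝ) • img ℓ τ y - img ℓ σ x - img ℓ υ z‖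
    have h5 := sq_nonneg ‖(2 : ℝ) • img ℓ υ z - img ℓ σ x - img ℓ τ y‖
    linarith
  constructor
  · intro x hx y hy z hz
    set D : ℝ := 1 + ‖x - y‖ + ‖x - z‖ with hD
    have hD0 : 0 < D := by positivity
    unfold Im
    refine (sum_le (576 * B / D ^ 4) _ fun σ τ => ?_).trans ?_
    · have a1 := hval x hx y hy z hz (fun _ => 0) σ τ
      have a2 := hval x hx y hy z hz σ (fun _ => 0) τ
      have a3 := hval x hx y hy z hz σ τ (fun _ => 0)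
      rw [hid] at a1 a2 a3
      refine (abs_add_three _ _ _).trans ?_
      linarith
    · rw [mul_div_assoc', div_le_div_iff_of_pos_right (by positivity)]
      nlinarith
  · intro x hx y hy z hz c
    set D : ℝ := 1 + ‖x - y‖ + ‖x - z‖ with hD
    have hD0 : 0 < D := by positivity
    rw [(hIMK ℓ G hℓ hG).2.1 c x y z]
    refine (sum_le (6250 * B / D ^ 5) _ fun σ τ => ?_).trans (le_of_eq (by ring))
    have a1 := hder x hx y hy z hz (fun _ => 0) σ τ c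
    have a2 := hder x hx y hy z hz σ (fun _ => 0) τ c
    have a3 := hder x hx y hy z hz σ τ (fun _ => 0) c
    rw [hid] at a1 a2 a3
    refine (abs_add_three _ _ _).trans ?_
    rw [abs_mul, abs_mul, sgi_abs, one_mul, one_mul]
    linarith

end Pool.Agent.TBL
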