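import Pool.Agent.TBL.Stmts

/-!
# Squad TBL (MP_80dc41_mp), module IMD: the mean of the derivative of the image sum
-/

set_option autoImplicit false

open MeasureTheory Filter Topology
open scoped ContDiff

namespace Pool.Agent.TBL

open Pool.Agent.TBG

theorem imd_proof (hBMC : Stmt_BMC) (_hMES : Stmt_MES) (_hSKF : Stmt_SKF) (hIMZ : Stmt_IMZ)
    (_hIMK : Stmt_IMK) (hIMM : Stmt_IMM) (hOPD : Stmt_OPD) : Stmt_IMD := by
  intro ℓ G hℓ hG hs x hx c
  have hSK : SK (Im ℓ G) := hIMZ ℓ G (ℓ ^ 2 / 32) hℓ hG hs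
  have hone : BM2 (fun _ _ : E => (1 : ℝ)) := hBMC.2.1 _ 1
  have h1 := (hOPD ℓ (Im ℓ G) (fun _ _ => 1) hℓ hSK hone).2 c x
  simp only [mul_one] at h1
  rw [← h1]
  have hopen : IsOpen {x : E | ∀ c, 0 < x c ∧ x c < ℓ} := by
    have e : {x : E | ∀ c, 0 < x c ∧ x c < ℓ} = ⋂ c, {x : E | 0 < x c ∧ x c < ℓ} := by
      ext y
      simp
    rw [e]
    refine isOpen_iInter_of_finite fun c => ?_
    have hc : Continuous fun x : E => x c := by fun_prop
    exact (isOpen_lt continuous_const hc).inter (isOpen_lt hc continuous_const)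
  have hev : (fun x => ∫ y, ∫ z, Im ℓ G x y z ∂(nuc ℓ) ∂(nuc ℓ)) =ᶠ[𝓝 x]
      fun _ => (ℓ ^ 6)⁻¹ * ∫ z : E × E, G (QQ z) := by
    filter_upwards [hopen.mem_nhds hx] with x' hx'
    exact hIMM ℓ G hℓ hG.continuous hs x' fun c => ⟨(hx' c).1.le, (hx' c).2.le⟩
  unfold pd
  rw [hev.fderiv_eq]
  simp

end Pool.Agent.TBL
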