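import Pool.Agent.TBL.Stmts

/-!
# Three-body Bose gases (MP_80dc41_mp), lower bound: the Laplacian of the image sum
-/

set_option autoImplicit false

open MeasureTheory Filter Topology
open scoped ContDiff

namespace Pool.Agent.TBL

open Pool.Agent.TBG

namespace IMF_

lemma ident (hQ : Stmt_QTF) (G : ℝ → ℝ) (a b d : E) :
    LG G (QT a b d) = lT G a b d + lT G b a d + lT G d a b := by
  obtain ⟨-, -, h1, h2, -, -, -, h9⟩ := hQ.1 a b d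
  have e1 : QT b a d = QT a b d := h1.symm
  have e2 : QT d a b = QT a b d := by
    have h3 := (hQ.1 d a b).2.2.1
    have h4 := (hQ.1 a d b).2.2.2.1
    rw [h3, h4]
  simp only [LG, lT, e1, e2]
  have h10 : 4 * QT a b d = 4 / 9 * (‖(2 : ℝ) • a - b - d‖ ^ 2 + ‖(2 : ℝ) • b - a - d‖ ^ 2
      + ‖(2 : ℝ) • d - a - b‖ ^ 2) := by rw [h9]; ring
  rw [h10]
  ring

end IMF_

theorem imf_proof (hQ : Stmt_QTF) (hK : Stmt_IMK) : Stmt_IMF := by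
  intro ℓ G hℓ hG x y z
  have hL := (hK ℓ G hℓ hG).2.2
  rw [hL x y z, hL y x z, hL z x y, Im, ← mul_add, ← mul_add]
  congr 1
  simp only [Finset.sum_add_distrib, IMF_.ident hQ G]
  have s1 : ∑ σ : Fin 3 → Fin 3, ∑ τ : Fin 3 → Fin 3, lT G (img ℓ σ z) x (img ℓ τ y) =
      ∑ σ : Fin 3 → Fin 3, ∑ τ : Fin 3 → Fin 3, lT G (img ℓ τ z) x (img ℓ σ y) := Finset.sum_comm
  have s2 : ∑ σ : Fin 3 → Fin 3, ∑ τ : Fin 3 → Fin 3, lT G (img ℓ σ z) (img ℓ τ x) y =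
      ∑ σ : Fin 3 → Fin 3, ∑ τ : Fin 3 → Fin 3, lT G (img ℓ τ z) (img ℓ σ x) y := Finset.sum_comm
  have s3 : ∑ σ : Fin 3 → Fin 3, ∑ τ : Fin 3 → Fin 3, lT G (img ℓ σ y) (img ℓ τ x) z =
      ∑ σ : Fin 3 → Fin 3, ∑ τ : Fin 3 → Fin 3, lT G (img ℓ τ y) (img ℓ σ x) z := Finset.sum_comm
  rw [s1, s2, s3]
  ring

end Pool.Agent.TBL
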