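import Pool.Agent.TBL.Stmts

/-!
# Three-body Bose gases (MP_80dc41_mp), lower bound: images
-/

set_option autoImplicit false

open MeasureTheory Filter Topology
open scoped ContDiff

namespace Pool.Agent.TBL

open Pool.Agent.TBG

namespace IMG_

theorem img_apply (ℓ : ℝ) (σ : Fin 3 → Fin 3) (x : E) (c : Fin 3) :
    img ℓ σ x c = if σ c = 0 then x c else if σ c = 1 then -x c else 2 * ℓ - x c := rfl

/-- the linear part -/
noncomputable def Lin (σ : Fin 3 → Fin 3) : E →ₗ[ℝ] E where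
  toFun x := WithLp.toLp 2 (fun c => sgi σ c * x c)
  map_add' x y := by ext c; simp [mul_add]
  map_smul' a x := by ext c; simp; ring

theorem Lin_apply (σ : Fin 3 → Fin 3) (x : E) (c : Fin 3) : Lin σ x c = sgi σ c * x c := rfl

theorem sgi_sq (σ : Fin 3 → Fin 3) (c : Fin 3) : sgi σ c ^ 2 = 1 := by
  unfold sgi; split_ifs <;> norm_num

noncomputable def LinI (σ : Fin 3 → Fin 3) : E →ₗᵢ[ℝ] E where
  toLinearMap := Lin σ
  norm_map' x := by
    rw [EuclideanSpace.norm_eq, EuclideanSpace.norm_eq]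
    congr 1
    refine Finset.sum_congr rfl (fun c _ => ?_)
    rw [Lin_apply, Real.norm_eq_abs, Real.norm_eq_abs, sq_abs, sq_abs, mul_pow, sgi_sq, one_mul]

noncomputable def LinE (σ : Fin 3 → Fin 3) : E ≃ₗᵢ[ℝ] E := (LinI σ).toLinearIsometryEquiv rfl

theorem LinE_apply (σ : Fin 3 → Fin 3) (x : E) : LinE σ x = Lin σ x := rfl

noncomputable def tr (ℓ : ℝ) (σ : Fin 3 → Fin 3) : E :=
  WithLp.toLp 2 (fun c => if σ c = 0 then 0 else if σ c = 1 then 0 else 2 * ℓ)

theorem img_eq (ℓ : ℝ) (σ : Fin 3 → Fin 3) (x : E) : img ℓ σ x = LinE σ x + tr ℓ σ := by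
  ext c
  rw [PiLp.add_apply, LinE_apply, Lin_apply, img_apply]
  unfold sgi tr
  simp only
  split_ifs <;> ring

theorem img_fun (ℓ : ℝ) (σ : Fin 3 → Fin 3) : img ℓ σ = fun x => LinE σ x + tr ℓ σ :=
  funext (img_eq ℓ σ)

theorem contDiff_img (ℓ : ℝ) (σ : Fin 3 → Fin 3) : ContDiff ℝ ∞ (img ℓ σ) := by
  rw [img_fun]
  exact (LinE σ).contDiff.add contDiff_const

theorem norm_img (ℓ : ℝ) (σ : Fin 3 → Fin 3) (x y : E) : ‖img ℓ σ x - img ℓ σ y‖ = ‖x - y‖ := by
  rw [img_eq, img_eq, add_sub_add_right_eq_sub, ← map_sub, LinearIsometryEquiv.norm_map]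

theorem mp_img (ℓ : ℝ) (σ : Fin 3 → Fin 3) : MeasurePreserving (img ℓ σ) volume volume := by
  rw [img_fun]
  exact (measurePreserving_add_right volume (tr ℓ σ)).comp (LinE σ).measurePreserving

theorem hasFDerivAt_img (ℓ : ℝ) (σ : Fin 3 → Fin 3) (x : E) :
    HasFDerivAt (img ℓ σ) ((LinE σ : E ≃L[ℝ] E) : E →L[ℝ] E) x := by
  rw [img_fun]
  exact ((LinE σ).toContinuousLinearEquiv.hasFDerivAt).add_const _

theorem Lin_ev (σ : Fin 3 → Fin 3) (c : Fin 3) : LinE σ (ev c) = sgi σ c • ev c := by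
  ext d
  rw [LinE_apply, Lin_apply]
  simp only [ev, PiLp.smul_apply, smul_eq_mul, PiLp.single_apply]
  split_ifs with h
  · rw [h]
  · simp

theorem norm_sq (x y : E) : ‖x - y‖ ^ 2 = ∑ c, (x c - y c) ^ 2 := by
  rw [EuclideanSpace.norm_sq_eq]
  refine Finset.sum_congr rfl (fun c _ => ?_)
  rw [PiLp.sub_apply, Real.norm_eq_abs, sq_abs]

theorem norm_le_img (ℓ : ℝ) (σ τ : Fin 3 → Fin 3) (x y : E) (hx : x ∈ Lam ℓ) (hy : y ∈ Lam ℓ) :
    ‖x - y‖ ^ 2 ≤ ‖img ℓ σ x - img ℓ τ y‖ ^ 2 := by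
  rw [norm_sq, norm_sq]
  refine Finset.sum_le_sum (fun c _ => ?_)
  obtain ⟨h1, h2⟩ := hx c
  obtain ⟨h3, h4⟩ := hy c
  rw [img_apply, img_apply]
  split_ifs <;> nlinarith [mul_nonneg h1 h3, mul_nonneg (sub_nonneg.2 h2) (sub_nonneg.2 h4),
    mul_nonneg h1 (sub_nonneg.2 h2), mul_nonneg h3 (sub_nonneg.2 h4), mul_nonneg h1 (sub_nonneg.2 h4),
    mul_nonneg h3 (sub_nonneg.2 h2)]

theorem coord_le (v : E) (c : Fin 3) : |v c| ≤ ‖v‖ := by
  have := PiLp.norm_apply_le v c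
  rwa [Real.norm_eq_abs] at this

end IMG_

open IMG_ in
theorem img_proof : Stmt_IMG := by
  intro ℓ σ hℓ
  refine ⟨img_apply ℓ σ, contDiff_img ℓ σ, ?_, ?_, ?_, mp_img ℓ σ, ?_, ?_, ?_⟩
  · intro x
    ext c
    simp only [img_apply]
    split_ifs <;> ring
  · intro x y z
    unfold QT
    rw [norm_img, norm_img, norm_img]
  · intro x
    ext c
    simp [img_apply]
  · intro F c x hF
    have h1 : HasFDerivAt (fun x => F (img ℓ σ x))
        ((fderiv ℝ F (img ℓ σ x)).comp ((LinE σ : E ≃L[ℝ] E) : E →L[ℝ] E)) x :=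
      ((hF.differentiable one_ne_zero (img ℓ σ x)).hasFDerivAt).comp x (hasFDerivAt_img ℓ σ x)
    unfold pd
    rw [h1.fderiv]
    have h2 : ((LinE σ : E ≃L[ℝ] E) : E →L[ℝ] E) (ev c) = LinE σ (ev c) := rfl
    rw [ContinuousLinearMap.comp_apply, h2, Lin_ev, map_smul, smul_eq_mul]
  · intro x hx y hy z hz τ υ
    unfold QT
    have h1 := norm_le_img ℓ σ τ x y hx hy
    have h2 := norm_le_img ℓ σ υ x z hx hz
    have h3 := norm_le_img ℓ τ υ y z hy hz
    linarith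
  · intro x hx y hy hσ
    obtain ⟨c, hc⟩ : ∃ c, σ c ≠ 0 := by
      by_contra hcon
      push Not at hcon
      exact hσ (funext hcon)
    refine ⟨c, ?_⟩
    obtain ⟨h1, h2⟩ := hx c
    obtain ⟨h3, h4⟩ := hy c
    have k1 := coord_le (x - img ℓ σ y) c
    have k2 := coord_le (img ℓ σ x - y) c
    rw [PiLp.sub_apply, img_apply, if_neg hc] at k1 k2
    by_cases h5 : σ c = 1
    · left
      rw [if_pos h5] at k1 k2
      have e1 : |x c - -y c| = x c + y c := by rw [sub_neg_eq_add, abs_of_nonneg (by linarith)]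
      have e2 : |-x c - y c| = x c + y c := by
        rw [show -x c - y c = -(x c + y c) by ring, abs_neg, abs_of_nonneg (by linarith)]
      rw [e1] at k1
      rw [e2] at k2
      constructor <;> linarith
    · right
      rw [if_neg h5] at k1 k2
      have e1 : |x c - (2 * ℓ - y c)| = 2 * ℓ - x c - y c := by
        rw [show x c - (2 * ℓ - y c) = -(2 * ℓ - x c - y c) by ring, abs_neg, abs_of_nonneg (by linarith)]
      have e2 : |2 * ℓ - x c - y c| = 2 * ℓ - x c - y c := abs_of_nonneg (by linarith)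
      rw [e1] at k1
      rw [e2] at k2
      constructor <;> linarith

end Pool.Agent.TBL
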