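import Pool.Agent.TBL.Stmts

/-!
# Three-body Bose gases (MP_80dc41_mp), lower bound: smoothness and derivatives of the image sum
-/

set_option autoImplicit false

open MeasureTheory Filter Topology
open scoped ContDiff

namespace Pool.Agent.TBL

open Pool.Agent.TBG

namespace IMK_

lemma pd_const_mul {c : Fin 3} {f : E → ℝ} {x : E} (a : ℝ) (hf : DifferentiableAt ℝ f x) :
    pd c (fun x' => a * f x') x = a * pd c f x := by
  unfold pd
  rw [fderiv_const_mul hf a]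
  rfl

lemma pd_add {c : Fin 3} {f g : E → ℝ} {x : E} (hf : DifferentiableAt ℝ f x)
    (hg : DifferentiableAt ℝ g x) : pd c (fun x' => f x' + g x') x = pd c f x + pd c g x := by
  unfold pd
  rw [fderiv_fun_add hf hg]
  rfl

lemma pd_sum {ι : Type} {c : Fin 3} (s : Finset ι) {f : ι → E → ℝ} {x : E}
    (hf : ∀ i ∈ s, DifferentiableAt ℝ (f i) x) :
    pd c (fun x' => ∑ i ∈ s, f i x') x = ∑ i ∈ s, pd c (f i) x := by
  unfold pd
  rw [fderiv_fun_sum hf, sum_apply]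

/-- derivative of the triple sum -/
lemma pd_triple {c : Fin 3} {x : E} {A B D : (Fin 3 → Fin 3) → (Fin 3 → Fin 3) → E → ℝ}
    (hA : ∀ σ τ, DifferentiableAt ℝ (A σ τ) x) (hB : ∀ σ τ, DifferentiableAt ℝ (B σ τ) x)
    (hD : ∀ σ τ, DifferentiableAt ℝ (D σ τ) x) :
    pd c (fun x' => 1 / 3 * ∑ σ : Fin 3 → Fin 3, ∑ τ : Fin 3 → Fin 3,
      (A σ τ x' + B σ τ x' + D σ τ x')) x =
    1 / 3 * ∑ σ : Fin 3 → Fin 3, ∑ τ : Fin 3 → Fin 3,
      (pd c (A σ τ) x + pd c (B σ τ) x + pd c (D σ τ) x) := by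
  have h1 : ∀ σ τ, DifferentiableAt ℝ (fun x' => A σ τ x' + B σ τ x' + D σ τ x') x :=
    fun σ τ => ((hA σ τ).fun_add (hB σ τ)).fun_add (hD σ τ)
  have h2 : ∀ σ, DifferentiableAt ℝ (fun x' => ∑ τ : Fin 3 → Fin 3,
      (A σ τ x' + B σ τ x' + D σ τ x')) x :=
    fun σ => DifferentiableAt.fun_sum fun τ _ => h1 σ τ
  rw [pd_const_mul _ (DifferentiableAt.fun_sum fun σ _ => h2 σ), pd_sum _ fun σ _ => h2 σ]
  congr 1
  refine Finset.sum_congr rfl fun σ _ => ?_
  rw [pd_sum _ fun τ _ => h1 σ τ]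
  refine Finset.sum_congr rfl fun τ _ => ?_
  rw [pd_add ((hA σ τ).fun_add (hB σ τ)) (hD σ τ), pd_add (hA σ τ) (hB σ τ)]

lemma cdQ (hQ : ContDiff ℝ ∞ (fun p : E × E × E => QT p.1 p.2.1 p.2.2)) {G : ℝ → ℝ}
    (hG : ContDiff ℝ ∞ G) {X : Type} [NormedAddCommGroup X] [NormedSpace ℝ X] {f g h : X → E}
    (hf : ContDiff ℝ ∞ f) (hg : ContDiff ℝ ∞ g) (hh : ContDiff ℝ ∞ h) :
    ContDiff ℝ ∞ (fun x => G (QT (f x) (g x) (h x))) := by
  have h1 : ContDiff ℝ ∞ (fun x => (f x, g x, h x)) := hf.prodMk (hg.prodMk hh)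
  generalize QT = Q at *
  have h2 : ContDiff ℝ ∞ (fun x => Q (f x) (g x) (h x)) :=
    ContDiff.comp (g := fun p : E × E × E => Q p.1 p.2.1 p.2.2)
      (f := fun x => (f x, g x, h x)) hQ h1
  exact ContDiff.comp (g := G) (f := fun x => Q (f x) (g x) (h x)) hG h2

lemma cd_pd {F : E → ℝ} (hF : ContDiff ℝ ∞ F) (c : Fin 3) : ContDiff ℝ ∞ (pd c F) := by
  unfold pd
  exact (hF.fderiv_right (m := ∞) (by simp)).clm_apply contDiff_const

lemma dab {F : E → ℝ} (hF : ContDiff ℝ ∞ F) (x : E) : DifferentiableAt ℝ F x :=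
  (hF.differentiable (by simp)).differentiableAt

lemma sgi_sq (σ : Fin 3 → Fin 3) (c : Fin 3) : sgi σ c * sgi σ c = 1 := by
  unfold sgi
  split_ifs <;> norm_num

end IMK_

open IMK_

theorem imk_proof (hQTF : Stmt_QTF) (hIMG : Stmt_IMG) : Stmt_IMK := by
  intro ℓ G hℓ hG
  obtain ⟨-, hQ, hD⟩ := hQTF
  have hI : ∀ σ, ContDiff ℝ ∞ (img ℓ σ) := fun σ => (hIMG ℓ σ hℓ).2.1
  have hP : ∀ (σ : Fin 3 → Fin 3) (F : E → ℝ) (c : Fin 3) (x : E), ContDiff ℝ 1 F →
      pd c (fun x => F (img ℓ σ x)) x = sgi σ c * pd c F (img ℓ σ x) :=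
    fun σ => (hIMG ℓ σ hℓ).2.2.2.2.2.2.1
  have hK : ∀ y z : E, ContDiff ℝ ∞ (fun x' => G (QT x' y z)) := fun y z =>
    cdQ hQ hG contDiff_id contDiff_const contDiff_const
  -- first derivative of the terms
  have hd1 : ∀ (c : Fin 3) (y z : E), pd c (fun x' => G (QT x' y z)) = fun x => dT c G x y z :=
    fun c y z => funext fun x => (hD G x y z hG).1 c
  have hcd : ∀ (c : Fin 3) (y z : E), ContDiff ℝ ∞ (fun x => dT c G x y z) := by
    intro c y z
    rw [← hd1]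
    exact cd_pd (hK y z) c
  have hkey1 : ∀ c x y z, dk c (Im ℓ G) x y z = 1 / 3 * ∑ σ : Fin 3 → Fin 3, ∑ τ : Fin 3 → Fin 3,
    (dT c G x (img ℓ σ y) (img ℓ τ z) + sgi σ c * dT c G (img ℓ σ x) y (img ℓ τ z)
      + sgi σ c * dT c G (img ℓ σ x) (img ℓ τ y) z) := by
    intro c x y z
    unfold dk Im
    rw [pd_triple (A := fun σ τ x' => G (QT x' (img ℓ σ y) (img ℓ τ z)))
      (B := fun σ τ x' => G (QT (img ℓ σ x') y (img ℓ τ z)))
      (D := fun σ τ x' => G (QT (img ℓ σ x') (img ℓ τ y) z))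
      (fun σ τ => dab (hK _ _) x) (fun σ τ => dab ((hK _ _).comp (hI σ)) x)
      (fun σ τ => dab ((hK _ _).comp (hI σ)) x)]
    congr 1
    refine Finset.sum_congr rfl fun σ _ => Finset.sum_congr rfl fun τ _ => ?_
    rw [hP σ (fun x' => G (QT x' y (img ℓ τ z))) c x ((hK _ _).of_le (by simp)),
      hP σ (fun x' => G (QT x' (img ℓ τ y) z)) c x ((hK _ _).of_le (by simp)), hd1, hd1, hd1]
  refine ⟨?_, hkey1, ?_⟩
  · unfold Im
    refine contDiff_const.mul (ContDiff.sum fun σ _ => ContDiff.sum fun τ _ => ?_)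
    have h1 : ContDiff ℝ ∞ (fun p : E × E × E => p.1) := contDiff_fst
    have h2 : ContDiff ℝ ∞ (fun p : E × E × E => p.2.1) := contDiff_fst.comp contDiff_snd
    have h3 : ContDiff ℝ ∞ (fun p : E × E × E => p.2.2) := contDiff_snd.comp contDiff_snd
    exact ((cdQ hQ hG h1 ((hI σ).comp h2) ((hI τ).comp h3)).add
      (cdQ hQ hG ((hI σ).comp h1) h2 ((hI τ).comp h3))).add
      (cdQ hQ hG ((hI σ).comp h1) ((hI τ).comp h2) h3)
  · intro x y z
    unfold Lk
    have h1 : ∀ c : Fin 3, pd c (fun x' => dk c (Im ℓ G) x' y z) x =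
        1 / 3 * ∑ σ : Fin 3 → Fin 3, ∑ τ : Fin 3 → Fin 3,
          (pd c (fun x' => dT c G x' (img ℓ σ y) (img ℓ τ z)) x
            + pd c (fun x' => dT c G x' y (img ℓ τ z)) (img ℓ σ x)
            + pd c (fun x' => dT c G x' (img ℓ τ y) z) (img ℓ σ x)) := by
      intro c
      have e1 : (fun x' => dk c (Im ℓ G) x' y z) = fun x' =>
          1 / 3 * ∑ σ : Fin 3 → Fin 3, ∑ τ : Fin 3 → Fin 3,
          (dT c G x' (img ℓ σ y) (img ℓ τ z) + sgi σ c * dT c G (img ℓ σ x') y (img ℓ τ z)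
            + sgi σ c * dT c G (img ℓ σ x') (img ℓ τ y) z) := funext fun x' => hkey1 c x' y z
      rw [e1, pd_triple (A := fun σ τ x' => dT c G x' (img ℓ σ y) (img ℓ τ z))
        (B := fun σ τ x' => sgi σ c * dT c G (img ℓ σ x') y (img ℓ τ z))
        (D := fun σ τ x' => sgi σ c * dT c G (img ℓ σ x') (img ℓ τ y) z)
        (fun σ τ => dab (hcd c _ _) x)
        (fun σ τ => dab (contDiff_const.mul ((hcd c _ _).comp (hI σ))) x)
        (fun σ τ => dab (contDiff_const.mul ((hcd c _ _).comp (hI σ))) x)]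
      congr 1
      refine Finset.sum_congr rfl fun σ _ => Finset.sum_congr rfl fun τ _ => ?_
      rw [pd_const_mul (f := fun x' => dT c G (img ℓ σ x') y (img ℓ τ z)) _
          (dab ((hcd c _ _).comp (hI σ)) x),
        pd_const_mul (f := fun x' => dT c G (img ℓ σ x') (img ℓ τ y) z) _
          (dab ((hcd c _ _).comp (hI σ)) x),
        hP σ (fun x' => dT c G x' y (img ℓ τ z)) c x ((hcd c _ _).of_le (by simp)),
        hP σ (fun x' => dT c G x' (img ℓ τ y) z) c x ((hcd c _ _).of_le (by simp)),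
        ← mul_assoc, ← mul_assoc, sgi_sq, one_mul, one_mul]
    rw [Finset.sum_congr rfl fun c _ => h1 c, ← Finset.mul_sum]
    congr 1
    rw [Finset.sum_comm]
    refine Finset.sum_congr rfl fun σ _ => ?_
    rw [Finset.sum_comm]
    refine Finset.sum_congr rfl fun τ _ => ?_
    rw [Finset.sum_add_distrib, Finset.sum_add_distrib]
    have h2 : ∀ x y z : E, ∑ c, pd c (fun x' => dT c G x' y z) x = lT G x y z := by
      intro x y z
      rw [← (hD G x y z hG).2]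
      refine Finset.sum_congr rfl fun c _ => ?_
      rw [← hd1]
    rw [h2, h2, h2]

end Pool.Agent.TBL
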