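import Pool.Agent.TBL.Stmts

/-!
# TBL, module IMM: the mean of the image sum
-/

set_option autoImplicit false

open MeasureTheory Filter Topology
open scoped ContDiff

namespace Pool.Agent.TBL

open Pool.Agent.TBG

namespace IMM_

/-- the big cube -/
def S3 (ℓ : ℝ) : Set E := {y : E | ∀ c, -ℓ ≤ y c ∧ y c ≤ 2 * ℓ}

/-- the inner integral -/
noncomputable def HH (ℓ : ℝ) (G : ℝ → ℝ) (x y : E) : ℝ := ∫ z in S3 ℓ, G (QT x y z)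

theorem S3_closed (ℓ : ℝ) : IsClosed (S3 ℓ) := by
  have : S3 ℓ = ⋂ c : Fin 3, {y : E | -ℓ ≤ y c ∧ y c ≤ 2 * ℓ} := by
    ext y
    simp [S3]
  rw [this]
  refine isClosed_iInter fun c => ?_
  have h : Continuous fun y : E => y c := by fun_prop
  exact (isClosed_le continuous_const h).inter (isClosed_le h continuous_const)

theorem S3_compact {ℓ : ℝ} (hℓ : 0 < ℓ) : IsCompact (S3 ℓ) := by
  refine Metric.isCompact_of_isClosed_isBounded (S3_closed ℓ) ?_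
  refine (Metric.isBounded_closedBall (x := (0 : E)) (r := 4 * ℓ)).subset fun y hy => ?_
  rw [mem_closedBall_zero_iff]
  have h1 : ‖y‖ ^ 2 ≤ (4 * ℓ) ^ 2 := by
    rw [EuclideanSpace.norm_sq_eq, Fin.sum_univ_three]
    have h2 : ∀ c, ‖y c‖ ^ 2 ≤ (2 * ℓ) ^ 2 := fun c => by
      rw [Real.norm_eq_abs, sq_abs]
      have := hy c
      nlinarith [this.1, this.2]
    have a0 := h2 0
    have a1 := h2 1
    have a2 := h2 2
    nlinarith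
  exact le_of_sq_le_sq h1 (by positivity)

theorem QT_cont : Continuous (fun p : E × E × E => QT p.1 p.2.1 p.2.2) := by
  unfold QT
  fun_prop

theorem QT_nonneg (x y z : E) : 0 ≤ QT x y z := by
  unfold QT
  positivity

/-- outside of the big cube -/
theorem zero_of {ℓ : ℝ} (hℓ : 0 < ℓ) {G : ℝ → ℝ} (hG : ∀ s, ℓ ^ 2 / 32 ≤ s → G s = 0) {a p : E}
    (ha : a ∈ Lam ℓ) (hp : p ∉ S3 ℓ) {s : ℝ} (hs : ‖a - p‖ ^ 2 ≤ 3 * s) : G s = 0 := by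
  have h1 : ∃ c, ¬ (-ℓ ≤ p c ∧ p c ≤ 2 * ℓ) := by
    by_contra h
    push Not at h
    exact hp fun c => h c
  obtain ⟨c, hc⟩ := h1
  have h2 : ‖(a - p) c‖ ≤ ‖a - p‖ := PiLp.norm_apply_le (a - p) c
  have h3 : ℓ ≤ ‖(a - p) c‖ := by
    rw [PiLp.sub_apply, Real.norm_eq_abs]
    have hac := ha c
    by_cases h : -ℓ ≤ p c
    · have h4 : 2 * ℓ < p c := by
        by_contra h5
        push Not at h5
        exact hc ⟨h, h5⟩
      rw [abs_of_neg (by linarith [hac.2])]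
      linarith [hac.2]
    · push Not at h
      rw [abs_of_pos (by linarith [hac.1])]
      linarith [hac.1]
  apply hG
  have h5 : ℓ ^ 2 ≤ ‖a - p‖ ^ 2 := pow_le_pow_left₀ hℓ.le (h3.trans h2) 2
  nlinarith

theorem le1 (x y z : E) : ‖x - y‖ ^ 2 ≤ 3 * QT x y z := by
  unfold QT
  nlinarith [sq_nonneg ‖x - z‖, sq_nonneg ‖y - z‖]

theorem le2 (x y z : E) : ‖x - z‖ ^ 2 ≤ 3 * QT x y z := by
  unfold QT
  nlinarith [sq_nonneg ‖x - y‖, sq_nonneg ‖y - z‖]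

theorem le3 (x y z : E) : ‖y - z‖ ^ 2 ≤ 3 * QT x y z := by
  unfold QT
  nlinarith [sq_nonneg ‖x - y‖, sq_nonneg ‖x - z‖]

theorem swap (x y z : E) : QT x y z = QT x z y := by
  unfold QT
  rw [norm_sub_rev y z]
  ring

section

variable {ℓ : ℝ} (hℓ : 0 < ℓ) {G : ℝ → ℝ} (hGc : Continuous G) (hG : ∀ s, ℓ ^ 2 / 32 ≤ s → G s = 0)

include hℓ hGc in
theorem HH_cont (x : E) : Continuous (HH ℓ G x) := by
  refine continuous_parametric_integral_of_continuous (f := fun y z => G (QT x y z)) ?_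
    (S3_compact hℓ)
  have h : Continuous fun p : E × E => QT x p.1 p.2 := by
    unfold QT
    fun_prop
  have h' : Continuous fun p : E × E => G (QT x p.1 p.2) := Continuous.comp' hGc h
  exact h'

include hℓ hG in
theorem F3 {x : E} (hx : x ∈ Lam ℓ) (y : E) : ∫ z, G (QT x y z) = HH ℓ G x y := by
  unfold HH
  rw [setIntegral_eq_integral_of_forall_compl_eq_zero]
  intro z hz
  exact zero_of hℓ hG hx hz (le2 x y z)

include hℓ hGc hG in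
theorem QQ_int : Integrable (fun w : E × E => G (QQ w)) := by
  have hq : Continuous fun w : E × E => QQ w := by
    unfold QQ
    fun_prop
  have hc : Continuous fun w : E × E => G (QQ w) := Continuous.comp' hGc hq
  have hcs : HasCompactSupport fun w : E × E => G (QQ w) := by
    refine HasCompactSupport.intro
      ((isCompact_closedBall (0 : E) ℓ).prod (isCompact_closedBall (0 : E) ℓ)) fun w hw => ?_
    apply hG
    by_contra h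
    push Not at h
    apply hw
    have h1 : ‖w.1‖ ^ 2 ≤ ℓ ^ 2 := by
      unfold QQ at h
      nlinarith [sq_nonneg ‖w.2‖, sq_nonneg ‖w.1 - w.2‖]
    have h2 : ‖w.2‖ ^ 2 ≤ ℓ ^ 2 := by
      unfold QQ at h
      nlinarith [sq_nonneg ‖w.1‖, sq_nonneg ‖w.1 - w.2‖]
    have k1 : w.1 ∈ Metric.closedBall (0 : E) ℓ :=
      mem_closedBall_zero_iff.2 (le_of_sq_le_sq h1 hℓ.le)
    have k2 : w.2 ∈ Metric.closedBall (0 : E) ℓ :=
      mem_closedBall_zero_iff.2 (le_of_sq_le_sq h2 hℓ.le)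
    exact Set.mem_prod.2 ⟨k1, k2⟩
  exact Continuous.integrable_of_hasCompactSupport hc hcs

include hℓ hGc hG in
theorem F4 (hQ : ∀ x y z : E, QT x y z = QQ (x - y, x - z)) {x : E} (hx : x ∈ Lam ℓ) :
    ∫ y in S3 ℓ, HH ℓ G x y = ∫ w : E × E, G (QQ w) := by
  have h0 : ∀ y, HH ℓ G x y = ∫ w, G (QQ (x - y, w)) := by
    intro y
    rw [← F3 hℓ hG hx y]
    have h1 := integral_sub_left_eq_self (fun w => G (QQ (x - y, w))) (volume : Measure E) x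
    rw [← h1]
    congr 1
    funext z
    rw [hQ]
  rw [setIntegral_eq_integral_of_forall_compl_eq_zero]
  · have h2 : (fun y => HH ℓ G x y) = fun y => (fun v => ∫ w, G (QQ (v, w))) (x - y) := by
      funext y
      exact h0 y
    rw [h2, integral_sub_left_eq_self (fun v => ∫ w, G (QQ (v, w))) (volume : Measure E) x]
    exact (integral_prod (fun w : E × E => G (QQ w)) (QQ_int hℓ hGc hG)).symm
  · intro y hy
    rw [← F3 hℓ hG hx y]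
    have h3 : ∀ z, G (QT x y z) = 0 := fun z => zero_of hℓ hG hx hy (le1 x y z)
    simp [h3]

end

/-- double integrals are integrals over the product -/
theorem dbl (hBMC : Stmt_BMC) (ν : Measure E) [IsProbabilityMeasure ν] {f : E × E → ℝ} (hf : BM f) :
    ∫ y, ∫ z, f (y, z) ∂ν ∂ν = ∫ p, f p ∂(ν.prod ν) :=
  (integral_prod f ((hBMC.1 _ f f hf hf).2.2.2.2.2.2 (ν.prod ν))).symm

/-- the general summation -/
theorem sumup (hBMC : Stmt_BMC) (hMES : Stmt_MES) (hTIL : Stmt_TIL) {ℓ : ℝ} (hℓ : 0 < ℓ)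
    {G : ℝ → ℝ} (hGc : Continuous G) (hG : ∀ s, ℓ ^ 2 / 32 ≤ s → G s = 0)
    (hQ : ∀ x y z : E, QT x y z = QQ (x - y, x - z)) {x : E} (hx : x ∈ Lam ℓ)
    (F : (Fin 3 → Fin 3) → (Fin 3 → Fin 3) → E × E → ℝ) (hF : ∀ σ τ, BM (F σ τ))
    (hs : ∀ σ, ∀ y ∈ Lam ℓ, ∑ τ, ∫ z, F σ τ (y, z) ∂(nuc ℓ) = (ℓ ^ 3)⁻¹ * HH ℓ G x (img ℓ σ y)) :
    ∑ σ, ∑ τ, ∫ p, F σ τ p ∂((nuc ℓ).prod (nuc ℓ)) = (ℓ ^ 6)⁻¹ * ∫ w : E × E, G (QQ w) := by
  obtain ⟨-, -, -, hprob, hint, hae, -, -⟩ := hMES ℓ hℓ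
  have h1 : ∀ σ, ∑ τ, ∫ p, F σ τ p ∂((nuc ℓ).prod (nuc ℓ)) =
      (ℓ ^ 3)⁻¹ * ((ℓ ^ 3)⁻¹ * ∫ y in Lam ℓ, HH ℓ G x (img ℓ σ y)) := by
    intro σ
    have h2 : ∀ τ, ∫ p, F σ τ p ∂((nuc ℓ).prod (nuc ℓ)) =
        ∫ y, ∫ z, F σ τ (y, z) ∂(nuc ℓ) ∂(nuc ℓ) := fun τ => (dbl hBMC (nuc ℓ) (hF σ τ)).symm
    rw [Finset.sum_congr rfl fun τ _ => h2 τ, ← integral_finsetSum]
    · have h3 : ∫ y, ∑ τ, ∫ z, F σ τ (y, z) ∂(nuc ℓ) ∂(nuc ℓ) =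
          ∫ y, (ℓ ^ 3)⁻¹ * HH ℓ G x (img ℓ σ y) ∂(nuc ℓ) := by
        apply integral_congr_ae
        filter_upwards [hae] with y hy
        exact hs σ y hy.1
      rw [h3, integral_const_mul, hint]
    · intro τ _
      have h4 := hBMC.2.2.2.2 E E (nuc ℓ) (F σ τ) (hF σ τ)
      exact (hBMC.1 _ _ _ h4 h4).2.2.2.2.2.2 (nuc ℓ)
  rw [Finset.sum_congr rfl fun σ _ => h1 σ, ← Finset.mul_sum, ← Finset.mul_sum,
    hTIL ℓ (HH ℓ G x) hℓ (HH_cont hℓ hGc x)]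
  have h5 := F4 hℓ hGc hG hQ hx
  unfold S3 at h5
  rw [h5]
  have h6 : ℓ ≠ 0 := hℓ.ne'
  field_simp

/-! ### the three kinds -/

/-- first kind -/
noncomputable def FA (ℓ : ℝ) (G : ℝ → ℝ) (x : E) (σ τ : Fin 3 → Fin 3) (p : E × E) : ℝ :=
  G (QT x (img ℓ σ p.1) (img ℓ τ p.2))

/-- second kind -/
noncomputable def FB (ℓ : ℝ) (G : ℝ → ℝ) (x : E) (σ τ : Fin 3 → Fin 3) (p : E × E) : ℝ :=
  G (QT (img ℓ σ x) p.1 (img ℓ τ p.2))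

/-- third kind -/
noncomputable def FC (ℓ : ℝ) (G : ℝ → ℝ) (x : E) (σ τ : Fin 3 → Fin 3) (p : E × E) : ℝ :=
  G (QT (img ℓ σ x) (img ℓ τ p.1) p.2)

theorem bm {ℓ : ℝ} {G : ℝ → ℝ} (hGc : Continuous G) (hG : ∀ s, ℓ ^ 2 / 32 ≤ s → G s = 0)
    {f1 f2 f3 : E × E → E} (h1 : Continuous f1) (h2 : Continuous f2) (h3 : Continuous f3) :
    BM (fun p : E × E => G (QT (f1 p) (f2 p) (f3 p))) := by
  obtain ⟨C, hC⟩ := (isCompact_Icc (a := (0 : ℝ)) (b := ℓ ^ 2 / 32)).exists_bound_of_continuousOn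
    hGc.continuousOn
  refine ⟨?_, |C|, fun p => ?_⟩
  · have h4 : Continuous fun p : E × E => QT (f1 p) (f2 p) (f3 p) := by
      unfold QT
      fun_prop
    have h6 : Continuous fun p : E × E => G (QT (f1 p) (f2 p) (f3 p)) := Continuous.comp' hGc h4
    exact h6.measurable
  · have hs := QT_nonneg (f1 p) (f2 p) (f3 p)
    by_cases h : QT (f1 p) (f2 p) (f3 p) ≤ ℓ ^ 2 / 32
    · exact (hC _ ⟨hs, h⟩).trans (le_abs_self C)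
    · have h0 : G (QT (f1 p) (f2 p) (f3 p)) = 0 := hG _ (not_le.1 h).le
      show |G (QT (f1 p) (f2 p) (f3 p))| ≤ |C|
      rw [h0, abs_zero]
      exact abs_nonneg C

theorem img_cont (hIMG : Stmt_IMG) {ℓ : ℝ} (hℓ : 0 < ℓ) (σ : Fin 3 → Fin 3) :
    Continuous (img ℓ σ) := (hIMG ℓ σ hℓ).2.1.continuous

theorem bA (hIMG : Stmt_IMG) {ℓ : ℝ} (hℓ : 0 < ℓ) {G : ℝ → ℝ} (hGc : Continuous G)
    (hG : ∀ s, ℓ ^ 2 / 32 ≤ s → G s = 0) (x : E) (σ τ : Fin 3 → Fin 3) : BM (FA ℓ G x σ τ) :=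
  bm hGc hG continuous_const ((img_cont hIMG hℓ σ).comp continuous_fst)
    ((img_cont hIMG hℓ τ).comp continuous_snd)

theorem bB (hIMG : Stmt_IMG) {ℓ : ℝ} (hℓ : 0 < ℓ) {G : ℝ → ℝ} (hGc : Continuous G)
    (hG : ∀ s, ℓ ^ 2 / 32 ≤ s → G s = 0) (x : E) (σ τ : Fin 3 → Fin 3) : BM (FB ℓ G x σ τ) :=
  bm hGc hG continuous_const continuous_fst ((img_cont hIMG hℓ τ).comp continuous_snd)

theorem bC (hIMG : Stmt_IMG) {ℓ : ℝ} (hℓ : 0 < ℓ) {G : ℝ → ℝ} (hGc : Continuous G)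
    (hG : ∀ s, ℓ ^ 2 / 32 ≤ s → G s = 0) (x : E) (σ τ : Fin 3 → Fin 3) : BM (FC ℓ G x σ τ) :=
  bm hGc hG continuous_const ((img_cont hIMG hℓ τ).comp continuous_fst) continuous_snd

theorem cG {G : ℝ → ℝ} (hGc : Continuous G) (a b : E) : Continuous fun z => G (QT a b z) := by
  have h2 : Continuous fun z : E => QT a b z := by
    unfold QT
    fun_prop
  exact Continuous.comp' hGc h2

theorem sA (hMES : Stmt_MES) (hTIL : Stmt_TIL) {ℓ : ℝ} (hℓ : 0 < ℓ)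
    {G : ℝ → ℝ} (hGc : Continuous G) (x : E) (σ : Fin 3 → Fin 3) (y : E) :
    ∑ τ, ∫ z, FA ℓ G x σ τ (y, z) ∂(nuc ℓ) = (ℓ ^ 3)⁻¹ * HH ℓ G x (img ℓ σ y) := by
  have hint := (hMES ℓ hℓ).2.2.2.2.1
  rw [Finset.sum_congr rfl fun τ _ => hint (fun z => FA ℓ G x σ τ (y, z)), ← Finset.mul_sum]
  have h := hTIL ℓ (fun z => G (QT x (img ℓ σ y) z)) hℓ (cG hGc _ _)
  congr 1

theorem sB (hMES : Stmt_MES) (hIMG : Stmt_IMG) (hTIL : Stmt_TIL) {ℓ : ℝ} (hℓ : 0 < ℓ)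
    {G : ℝ → ℝ} (hGc : Continuous G) (hG : ∀ s, ℓ ^ 2 / 32 ≤ s → G s = 0) {x : E}
    (hx : x ∈ Lam ℓ) (σ : Fin 3 → Fin 3) {y : E} (hy : y ∈ Lam ℓ) :
    ∑ τ, ∫ z, FB ℓ G x σ τ (y, z) ∂(nuc ℓ) = (ℓ ^ 3)⁻¹ * HH ℓ G x (img ℓ σ y) := by
  have hint := (hMES ℓ hℓ).2.2.2.2.1
  rw [Finset.sum_congr rfl fun τ _ => hint (fun z => FB ℓ G x σ τ (y, z)), ← Finset.mul_sum]
  congr 1
  have h := hTIL ℓ (fun z => G (QT (img ℓ σ x) y z)) hℓ (cG hGc _ _)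
  have h1 : ∫ z in {y : E | ∀ c, -ℓ ≤ y c ∧ y c ≤ 2 * ℓ}, G (QT (img ℓ σ x) y z) =
      ∫ z, G (QT (img ℓ σ x) y z) := by
    rw [setIntegral_eq_integral_of_forall_compl_eq_zero]
    intro z hz
    exact zero_of hℓ hG hy hz (le3 _ _ _)
  obtain ⟨-, -, hinv, hQT, -, hmp, -⟩ := hIMG ℓ σ hℓ
  have h2 : ∫ z, G (QT (img ℓ σ x) y z) = ∫ z, G (QT (img ℓ σ x) y (img ℓ σ z)) := by
    conv_lhs => rw [← hmp.map_eq]
    rw [integral_map hmp.measurable.aemeasurable (cG hGc _ _).aestronglyMeasurable]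
  refine Eq.trans h ?_
  rw [h1, ← F3 hℓ hG hx (img ℓ σ y), h2]
  congr 1
  funext z
  have h3 : QT (img ℓ σ x) y (img ℓ σ z) = QT x (img ℓ σ y) z := by
    rw [← hQT x (img ℓ σ y) z, hinv y]
  rw [h3]

theorem sC (hMES : Stmt_MES) (hIMG : Stmt_IMG) (hTIL : Stmt_TIL) {ℓ : ℝ} (hℓ : 0 < ℓ)
    {G : ℝ → ℝ} (hGc : Continuous G) (hG : ∀ s, ℓ ^ 2 / 32 ≤ s → G s = 0) {x : E}
    (hx : x ∈ Lam ℓ) (σ : Fin 3 → Fin 3) {y : E} (hy : y ∈ Lam ℓ) :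
    ∑ τ, ∫ z, FC ℓ G x σ τ (z, y) ∂(nuc ℓ) = (ℓ ^ 3)⁻¹ * HH ℓ G x (img ℓ σ y) := by
  rw [← sB hMES hIMG hTIL hℓ hGc hG hx σ hy]
  refine Finset.sum_congr rfl fun τ _ => ?_
  congr 1
  funext z
  show G (QT (img ℓ σ x) (img ℓ τ z) y) = G (QT (img ℓ σ x) y (img ℓ τ z))
  rw [swap]

/-- linearity -/
theorem linear (hBMC : Stmt_BMC) (μ : Measure (E × E)) [IsProbabilityMeasure μ]
    (A B C : (Fin 3 → Fin 3) → (Fin 3 → Fin 3) → E × E → ℝ) (bA : ∀ σ τ, BM (A σ τ))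
    (bB : ∀ σ τ, BM (B σ τ)) (bC : ∀ σ τ, BM (C σ τ)) :
    ∫ p, 1 / 3 * ∑ σ : Fin 3 → Fin 3, ∑ τ : Fin 3 → Fin 3, (A σ τ p + B σ τ p + C σ τ p) ∂μ =
      1 / 3 * (∑ σ, ∑ τ, ∫ p, A σ τ p ∂μ + ∑ σ, ∑ τ, ∫ p, B σ τ p ∂μ +
        ∑ σ, ∑ τ, ∫ p, C σ τ p ∂μ) := by
  have hi : ∀ f : E × E → ℝ, BM f → Integrable f μ := fun f hf =>
    (hBMC.1 _ f f hf hf).2.2.2.2.2.2 _
  have h3 : ∀ σ τ, Integrable (fun p => A σ τ p + B σ τ p + C σ τ p) μ := fun σ τ =>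
    ((hi _ (bA σ τ)).add (hi _ (bB σ τ))).add (hi _ (bC σ τ))
  rw [integral_const_mul]
  congr 1
  rw [integral_finsetSum _ fun σ _ => integrable_finsetSum _ fun τ _ => h3 σ τ]
  rw [← Finset.sum_add_distrib, ← Finset.sum_add_distrib]
  refine Finset.sum_congr rfl fun σ _ => ?_
  rw [integral_finsetSum _ fun τ _ => h3 σ τ]
  rw [← Finset.sum_add_distrib, ← Finset.sum_add_distrib]
  refine Finset.sum_congr rfl fun τ _ => ?_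
  have h12 : Integrable (fun p => A σ τ p + B σ τ p) μ := (hi _ (bA σ τ)).add (hi _ (bB σ τ))
  rw [integral_add h12 (hi _ (bC σ τ)), integral_add (hi _ (bA σ τ)) (hi _ (bB σ τ))]

theorem bS (hBMC : Stmt_BMC) (A B C : (Fin 3 → Fin 3) → (Fin 3 → Fin 3) → E × E → ℝ)
    (bA : ∀ σ τ, BM (A σ τ)) (bB : ∀ σ τ, BM (B σ τ)) (bC : ∀ σ τ, BM (C σ τ)) :
    BM (fun p => 1 / 3 * ∑ σ : Fin 3 → Fin 3, ∑ τ : Fin 3 → Fin 3,
      (A σ τ p + B σ τ p + C σ τ p)) := by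
  have h1 : BM (fun p : E × E => ∑ σ : Fin 3 → Fin 3, ∑ τ : Fin 3 → Fin 3,
      (A σ τ p + B σ τ p + C σ τ p)) := by
    refine hBMC.2.2.1 _ _ Finset.univ (fun σ p => ∑ τ : Fin 3 → Fin 3,
      (A σ τ p + B σ τ p + C σ τ p)) fun σ _ => ?_
    refine hBMC.2.2.1 _ _ Finset.univ (fun τ p => (A σ τ p + B σ τ p + C σ τ p))
      fun τ _ => ?_
    have h2 := (hBMC.1 _ _ _ (bA σ τ) (bB σ τ)).1
    exact (hBMC.1 _ _ _ h2 (bC σ τ)).1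
  exact (hBMC.1 _ _ _ h1 h1).2.2.2.2.2.1 (1 / 3)

end IMM_

open IMM_

theorem imm_proof (hBMC : Stmt_BMC) (hMES : Stmt_MES) (hQTF : Stmt_QTF) (hIMG : Stmt_IMG)
    (hTIL : Stmt_TIL) : Stmt_IMM := by
  intro ℓ G hℓ hGc hG x hx
  have hQ : ∀ x y z : E, QT x y z = QQ (x - y, x - z) := fun x y z => (hQTF.1 x y z).1
  have hprob := (hMES ℓ hℓ).2.2.2.1
  have tA := sumup hBMC hMES hTIL hℓ hGc hG hQ hx (FA ℓ G x) (bA hIMG hℓ hGc hG x)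
    (fun σ y _ => sA hMES hTIL hℓ hGc x σ y)
  have tB := sumup hBMC hMES hTIL hℓ hGc hG hQ hx (FB ℓ G x) (bB hIMG hℓ hGc hG x)
    (fun σ y hy => sB hMES hIMG hTIL hℓ hGc hG hx σ hy)
  have tC' := sumup hBMC hMES hTIL hℓ hGc hG hQ hx (fun σ τ p => FC ℓ G x σ τ p.swap)
    (fun σ τ => hBMC.2.2.2.1 _ _ (FC ℓ G x σ τ) Prod.swap (bC hIMG hℓ hGc hG x σ τ)
      measurable_swap) (fun σ y hy => sC hMES hIMG hTIL hℓ hGc hG hx σ hy)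
  have tC : ∑ σ, ∑ τ, ∫ p, FC ℓ G x σ τ p ∂((nuc ℓ).prod (nuc ℓ)) =
      (ℓ ^ 6)⁻¹ * ∫ w : E × E, G (QQ w) := by
    rw [← tC']
    refine Finset.sum_congr rfl fun σ _ => Finset.sum_congr rfl fun τ _ => ?_
    exact (integral_prod_swap (FC ℓ G x σ τ)).symm
  have h1 := linear hBMC ((nuc ℓ).prod (nuc ℓ)) (FA ℓ G x) (FB ℓ G x) (FC ℓ G x)
    (bA hIMG hℓ hGc hG x) (bB hIMG hℓ hGc hG x) (bC hIMG hℓ hGc hG x)
  have h0 := dbl hBMC (nuc ℓ) (bS hBMC (FA ℓ G x) (FB ℓ G x) (FC ℓ G x)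
    (bA hIMG hℓ hGc hG x) (bB hIMG hℓ hGc hG x) (bC hIMG hℓ hGc hG x))
  rw [h1, tA, tB, tC] at h0
  refine Eq.trans ?_ (h0.trans (by ring))
  rfl

end Pool.Agent.TBL
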