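import Pool.Agent.TBL.Stmts

/-! # IMN: Neumann boundary conditions of the image sum -/

set_option autoImplicit false

open MeasureTheory Filter Topology
open scoped ContDiff

namespace Pool.Agent.TBL

open Pool.Agent.TBG

namespace IMN_

/-- reflection of a number -/
noncomputable def rf (l : ℝ) (k : Fin 3) (t : ℝ) : ℝ :=
  if k = 0 then t else if k = 1 then -t else 2 * l - t

theorem img_apply (l : ℝ) (σ : Fin 3 → Fin 3) (x : E) (c : Fin 3) :
    img l σ x c = rf l (σ c) (x c) := rfl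

theorem rf_zero (l t : ℝ) : rf l 0 t = t := by simp [rf]

theorem rf_one (l t : ℝ) : rf l 1 t = -t := by simp [rf]

theorem rf_two (l t : ℝ) : rf l 2 t = 2 * l - t := by
  have h1 : (2 : Fin 3) ≠ 0 := by decide
  have h2 : (2 : Fin 3) ≠ 1 := by decide
  simp [rf, h1, h2]

/-- the exchange of `0` and `k` in the coordinate `c` -/
def ex (c k : Fin 3) (σ : Fin 3 → Fin 3) : Fin 3 → Fin 3 :=
  Function.update σ c (Equiv.swap 0 k (σ c))

theorem ex_same (c k : Fin 3) (σ : Fin 3 → Fin 3) : ex c k σ c = Equiv.swap 0 k (σ c) := by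
  simp [ex]

theorem ex_ne {c c' : Fin 3} (h : c' ≠ c) (k : Fin 3) (σ : Fin 3 → Fin 3) :
    ex c k σ c' = σ c' := by
  simp [ex, h]

theorem ex_invol (c k : Fin 3) : Function.Involutive (ex c k) := by
  intro σ
  funext c'
  by_cases h : c' = c
  · subst h
    rw [ex_same, ex_same, Equiv.swap_apply_self]
  · rw [ex_ne h, ex_ne h]

theorem sum_zero {f : (Fin 3 → Fin 3) → ℝ} (c k : Fin 3) (h : ∀ σ, f (ex c k σ) = -f σ) :
    ∑ σ, f σ = 0 := by
  have h1 : ∑ σ, f (ex c k σ) = ∑ σ, f σ :=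
    Equiv.sum_comp ((ex_invol c k).toPerm) f
  have h2 : ∑ σ, f (ex c k σ) = -∑ σ, f σ := by
    rw [← Finset.sum_neg_distrib]
    exact Finset.sum_congr rfl fun σ _ => h σ
  linarith

theorem sum_zero2 {f : (Fin 3 → Fin 3) → (Fin 3 → Fin 3) → ℝ} (c k : Fin 3)
    (h : ∀ σ τ, f (ex c k σ) (ex c k τ) = -f σ τ) : ∑ σ, ∑ τ, f σ τ = 0 := by
  have h1 : ∑ σ, ∑ τ, f (ex c k σ) (ex c k τ) = ∑ σ, ∑ τ, f σ τ := by
    rw [← Equiv.sum_comp ((ex_invol c k).toPerm) (fun σ => ∑ τ, f σ τ)]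
    refine Finset.sum_congr rfl fun σ _ => ?_
    exact Equiv.sum_comp ((ex_invol c k).toPerm) (fun τ => f (ex c k σ) τ)
  have h2 : ∑ σ, ∑ τ, f (ex c k σ) (ex c k τ) = -∑ σ, ∑ τ, f σ τ := by
    rw [← Finset.sum_neg_distrib]
    refine Finset.sum_congr rfl fun σ _ => ?_
    rw [← Finset.sum_neg_distrib]
    exact Finset.sum_congr rfl fun τ _ => h σ τ
  linarith

theorem deriv_zero {l : ℝ} {G : ℝ → ℝ} (hG : ∀ s, l ^ 2 / 32 ≤ s → G s = 0) {s : ℝ}
    (hs : l ^ 2 / 32 < s) : deriv G s = 0 := by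
  have h1 : G =ᶠ[𝓝 s] fun _ => (0 : ℝ) := by
    filter_upwards [lt_mem_nhds hs] with t ht
    exact hG t ht.le
  rw [h1.deriv_eq]
  exact deriv_const s 0

theorem coord_le (a b : E) (c : Fin 3) : |a c - b c| ≤ ‖a - b‖ := by
  have h := PiLp.norm_apply_le (a - b) c
  simpa [Real.norm_eq_abs] using h

theorem far {l : ℝ} (hl : 0 < l) {s t : ℝ} (h1 : l ≤ |s|) (h2 : |s| ^ 2 ≤ 3 * t) :
    l ^ 2 / 32 < t := by
  have h3 : l ^ 2 ≤ |s| ^ 2 := pow_le_pow_left₀ hl.le h1 2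
  have h4 : 0 < l ^ 2 := pow_pos hl 2
  linarith

theorem dT_far {l : ℝ} (hQ : Stmt_QTF) (hl : 0 < l) {G : ℝ → ℝ}
    (hG : ∀ s, l ^ 2 / 32 ≤ s → G s = 0) (c : Fin 3) (a b d : E)
    (h : l ≤ |a c - b c| ∨ l ≤ |a c - d c|) : dT c G a b d = 0 := by
  unfold dT
  obtain ⟨-, -, -, -, q1, q2, -, -⟩ := hQ.1 a b d
  have h0 : l ^ 2 / 32 < QT a b d := by
    rcases h with h | h
    · exact far hl h ((pow_le_pow_left₀ (abs_nonneg _) (coord_le a b c) 2).trans q1)
    · exact far hl h ((pow_le_pow_left₀ (abs_nonneg _) (coord_le a d c) 2).trans q2)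
  rw [deriv_zero hG h0, zero_mul]

/-- the reflection in the coordinate `c` -/
def rho (c k : Fin 3) : Fin 3 → Fin 3 := fun c' => if c' = c then k else 0

theorem rho_same (c k : Fin 3) : rho c k c = k := by simp [rho]

theorem rho_ne {c c' : Fin 3} (h : c' ≠ c) (k : Fin 3) : rho c k c' = 0 := by simp [rho, h]

section

variable {l m : ℝ} {k j c : Fin 3} {G : ℝ → ℝ} {x y z : E}

theorem img_ex (hk0 : k ≠ 0) (hrf : ∀ t, rf l k t = 2 * m - t) (σ : Fin 3 → Fin 3)
    (hσ : σ c = 0 ∨ σ c = k) (y : E) : img l (ex c k σ) y = img l (rho c k) (img l σ y) := by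
  ext c'
  rw [img_apply, img_apply, img_apply]
  by_cases h : c' = c
  · subst h
    rw [ex_same, rho_same]
    rcases hσ with h1 | h1
    · rw [h1, Equiv.swap_apply_left, rf_zero]
    · rw [h1, Equiv.swap_apply_right, rf_zero, hrf, hrf]
      ring
  · rw [ex_ne h, rho_ne h, rf_zero]

theorem img_rho_fix (hrf : ∀ t, rf l k t = 2 * m - t) (hx : x c = m) :
    img l (rho c k) x = x := by
  ext c'
  rw [img_apply]
  by_cases h : c' = c
  · subst h
    rw [rho_same, hrf, hx]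
    ring
  · rw [rho_ne h, rf_zero]

theorem img_ex_fix (hrf : ∀ t, rf l k t = 2 * m - t) (hx : x c = m) (σ : Fin 3 → Fin 3)
    (hσ : σ c = 0 ∨ σ c = k) : img l (ex c k σ) x = img l σ x := by
  ext c'
  rw [img_apply, img_apply]
  by_cases h : c' = c
  · subst h
    rw [ex_same]
    rcases hσ with h1 | h1
    · rw [h1, Equiv.swap_apply_left, rf_zero, hrf, hx]
      ring
    · rw [h1, Equiv.swap_apply_right, rf_zero, hrf, hx]
      ring
  · rw [ex_ne h]

theorem sgi_ex (hk0 : k ≠ 0) (σ : Fin 3 → Fin 3) (hσ : σ c = 0 ∨ σ c = k) :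
    sgi (ex c k σ) c = -sgi σ c := by
  unfold sgi
  rw [ex_same]
  rcases hσ with h1 | h1
  · rw [h1, Equiv.swap_apply_left, if_neg hk0, if_pos rfl]
  · rw [h1, Equiv.swap_apply_right, if_neg hk0, if_pos rfl]
    ring

theorem ex_j (hj0 : j ≠ 0) (hjk : j ≠ k) (σ : Fin 3 → Fin 3) (hσ : σ c = j) :
    ex c k σ c = j := by
  rw [ex_same, hσ, Equiv.swap_apply_of_ne_of_ne hj0 hjk]

theorem face (hQ : Stmt_QTF) (hI : Stmt_IMG) (hK : Stmt_IMK) (hl : 0 < l) (hGs : ContDiff ℝ ∞ G)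
    (hG : ∀ s, l ^ 2 / 32 ≤ s → G s = 0) (hk0 : k ≠ 0) (hj0 : j ≠ 0) (hjk : j ≠ k)
    (hall : ∀ i : Fin 3, i = 0 ∨ i = k ∨ i = j) (hrf : ∀ t, rf l k t = 2 * m - t)
    (h1 : ∀ t, 0 ≤ t → t ≤ l → l ≤ |m - rf l j t|)
    (h2 : ∀ t, 0 ≤ t → t ≤ l → l ≤ |rf l j m - t|)
    (hx : x c = m) (hy : y ∈ Lam l) (hz : z ∈ Lam l) : dk c (Im l G) x y z = 0 := by
  rw [(hK l G hl hGs).2.1]
  have e1 : ∀ σ τ : Fin 3 → Fin 3,
      dT c G x (img l (ex c k σ) y) (img l (ex c k τ) z) = -dT c G x (img l σ y) (img l τ z) := by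
    intro σ τ
    by_cases hσ : σ c = j
    · rw [dT_far hQ hl hG c _ _ _ (Or.inl ?_), dT_far hQ hl hG c _ _ _ (Or.inl ?_), neg_zero]
      · rw [img_apply, hσ, hx]
        exact h1 _ (hy c).1 (hy c).2
      · rw [img_apply, ex_j hj0 hjk σ hσ, hx]
        exact h1 _ (hy c).1 (hy c).2
    by_cases hτ : τ c = j
    · rw [dT_far hQ hl hG c _ _ _ (Or.inr ?_), dT_far hQ hl hG c _ _ _ (Or.inr ?_), neg_zero]
      · rw [img_apply, hτ, hx]
        exact h1 _ (hz c).1 (hz c).2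
      · rw [img_apply, ex_j hj0 hjk τ hτ, hx]
        exact h1 _ (hz c).1 (hz c).2
    have hσ' : σ c = 0 ∨ σ c = k := by
      rcases hall (σ c) with h | h | h
      · exact Or.inl h
      · exact Or.inr h
      · exact absurd h hσ
    have hτ' : τ c = 0 ∨ τ c = k := by
      rcases hall (τ c) with h | h | h
      · exact Or.inl h
      · exact Or.inr h
      · exact absurd h hτ
    have hq : QT x (img l (ex c k σ) y) (img l (ex c k τ) z) = QT x (img l σ y) (img l τ z) := by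
      rw [img_ex hk0 hrf σ hσ', img_ex hk0 hrf τ hτ']
      have h := (hI l (rho c k) hl).2.2.2.1 x (img l σ y) (img l τ z)
      rw [img_rho_fix hrf hx] at h
      exact h
    unfold dT
    rw [hq, img_ex hk0 hrf σ hσ', img_ex hk0 hrf τ hτ', img_apply l (rho c k) (img l σ y),
      img_apply l (rho c k) (img l τ z), rho_same, hrf, hrf, hx]
    ring
  have e2 : ∀ (b d : E), b ∈ Lam l ∨ d ∈ Lam l → ∀ σ : Fin 3 → Fin 3,
      sgi (ex c k σ) c * dT c G (img l (ex c k σ) x) b d = -(sgi σ c * dT c G (img l σ x) b d) := by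
    intro b d hbd σ
    by_cases hσ : σ c = j
    · have hfar : ∀ σ' : Fin 3 → Fin 3, σ' c = j → dT c G (img l σ' x) b d = 0 := by
        intro σ' hσ'
        apply dT_far hQ hl hG
        rw [img_apply, hσ', hx]
        rcases hbd with h | h
        · exact Or.inl (h2 _ (h c).1 (h c).2)
        · exact Or.inr (h2 _ (h c).1 (h c).2)
      rw [hfar σ hσ, hfar _ (ex_j hj0 hjk σ hσ)]
      ring
    have hσ' : σ c = 0 ∨ σ c = k := by
      rcases hall (σ c) with h | h | h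
      · exact Or.inl h
      · exact Or.inr h
      · exact absurd h hσ
    rw [img_ex_fix hrf hx σ hσ', sgi_ex hk0 σ hσ']
    ring
  have s1 : ∑ σ : Fin 3 → Fin 3, ∑ τ : Fin 3 → Fin 3, dT c G x (img l σ y) (img l τ z) = 0 :=
    sum_zero2 c k e1
  have s2 : ∑ σ : Fin 3 → Fin 3, ∑ τ : Fin 3 → Fin 3,
      sgi σ c * dT c G (img l σ x) y (img l τ z) = 0 := by
    rw [Finset.sum_comm]
    exact Finset.sum_eq_zero fun τ _ => sum_zero c k (e2 y (img l τ z) (Or.inl hy))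
  have s3 : ∑ σ : Fin 3 → Fin 3, ∑ τ : Fin 3 → Fin 3,
      sgi σ c * dT c G (img l σ x) (img l τ y) z = 0 := by
    rw [Finset.sum_comm]
    exact Finset.sum_eq_zero fun τ _ => sum_zero c k (e2 (img l τ y) z (Or.inr hz))
  simp only [Finset.sum_add_distrib]
  rw [s1, s2, s3]
  ring

end

end IMN_

open IMN_ in
theorem imn_proof (hQ : Stmt_QTF) (hI : Stmt_IMG) (hK : Stmt_IMK) (_hS : Stmt_SKF) :
    Stmt_IMN := by
  intro l G hl hGs hG x _ y hy z hz c hc
  rcases hc with hc | hc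
  · refine face (k := 1) (j := 2) (m := 0) hQ hI hK hl hGs hG (by decide) (by decide) (by decide)
      (by decide) (fun t => by rw [rf_one]; ring) ?_ ?_ hc hy hz
    · intro t _ ht
      rw [rf_two, abs_of_nonpos (by linarith)]
      linarith
    · intro t _ ht
      rw [rf_two, abs_of_nonneg (by linarith)]
      linarith
  · refine face (k := 2) (j := 1) (m := l) hQ hI hK hl hGs hG (by decide) (by decide) (by decide)
      (by decide) (fun t => by rw [rf_two]) ?_ ?_ hc hy hz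
    · intro t h0 _
      rw [rf_one, abs_of_nonneg (by linarith)]
      linarith
    · intro t h0 _
      rw [rf_one, abs_of_nonpos (by linarith)]
      linarith

end Pool.Agent.TBL
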