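import Pool.Agent.TBL.Stmts

/-!
# Three-body Bose gases (MP_80dc41_mp), lower bound: module IMQ, the image sum is symmetric
-/

set_option autoImplicit false

open MeasureTheory Filter Topology
open scoped ContDiff

namespace Pool.Agent.TBL

open Pool.Agent.TBG

theorem imq_proof (hQTF : Stmt_QTF) : Stmt_IMQ := by
  intro ℓ G
  have h12 : ∀ x y z : E, QT x y z = QT y x z := fun x y z => (hQTF.1 x y z).2.2.1
  have h23 : ∀ x y z : E, QT x y z = QT x z y := fun x y z => (hQTF.1 x y z).2.2.2.1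
  refine ⟨fun x y z => ?_, fun x y z => ?_⟩
  · unfold Im
    congr 1
    simp only [Finset.sum_add_distrib]
    have hA : ∑ σ : Fin 3 → Fin 3, ∑ τ : Fin 3 → Fin 3, G (QT x (img ℓ σ y) (img ℓ τ z)) =
        ∑ σ : Fin 3 → Fin 3, ∑ τ : Fin 3 → Fin 3, G (QT (img ℓ σ y) x (img ℓ τ z)) :=
      Finset.sum_congr rfl fun σ _ => Finset.sum_congr rfl fun τ _ => by rw [h12]
    have hB : ∑ σ : Fin 3 → Fin 3, ∑ τ : Fin 3 → Fin 3, G (QT (img ℓ σ x) y (img ℓ τ z)) =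
        ∑ σ : Fin 3 → Fin 3, ∑ τ : Fin 3 → Fin 3, G (QT y (img ℓ σ x) (img ℓ τ z)) :=
      Finset.sum_congr rfl fun σ _ => Finset.sum_congr rfl fun τ _ => by rw [h12]
    have hC : ∑ σ : Fin 3 → Fin 3, ∑ τ : Fin 3 → Fin 3, G (QT (img ℓ σ x) (img ℓ τ y) z) =
        ∑ σ : Fin 3 → Fin 3, ∑ τ : Fin 3 → Fin 3, G (QT (img ℓ σ y) (img ℓ τ x) z) := by
      rw [Finset.sum_comm]
      exact Finset.sum_congr rfl fun σ _ => Finset.sum_congr rfl fun τ _ => by rw [h12]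
    rw [hA, hB, hC]
    ring
  · unfold Im
    congr 1
    simp only [Finset.sum_add_distrib]
    have hA : ∑ σ : Fin 3 → Fin 3, ∑ τ : Fin 3 → Fin 3, G (QT x (img ℓ σ y) (img ℓ τ z)) =
        ∑ σ : Fin 3 → Fin 3, ∑ τ : Fin 3 → Fin 3, G (QT x (img ℓ σ z) (img ℓ τ y)) := by
      rw [Finset.sum_comm]
      exact Finset.sum_congr rfl fun σ _ => Finset.sum_congr rfl fun τ _ => by rw [h23]
    have hB : ∑ σ : Fin 3 → Fin 3, ∑ τ : Fin 3 → Fin 3, G (QT (img ℓ σ x) y (img ℓ τ z)) =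
        ∑ σ : Fin 3 → Fin 3, ∑ τ : Fin 3 → Fin 3, G (QT (img ℓ σ x) (img ℓ τ z) y) :=
      Finset.sum_congr rfl fun σ _ => Finset.sum_congr rfl fun τ _ => by rw [h23]
    have hC : ∑ σ : Fin 3 → Fin 3, ∑ τ : Fin 3 → Fin 3, G (QT (img ℓ σ x) (img ℓ τ y) z) =
        ∑ σ : Fin 3 → Fin 3, ∑ τ : Fin 3 → Fin 3, G (QT (img ℓ σ x) z (img ℓ τ y)) :=
      Finset.sum_congr rfl fun σ _ => Finset.sum_congr rfl fun τ _ => by rw [h23]
    rw [hA, hB, hC]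
    ring

end Pool.Agent.TBL
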