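import Pool.Agent.TBL.Stmts

/-!
# TBL, module IMX: the images are close to the boundary
-/

set_option autoImplicit false

open MeasureTheory Filter Topology
open scoped ContDiff

namespace Pool.Agent.TBL

open Pool.Agent.TBG

namespace IMX_

/-- the weight of the boundary dominates its terms -/
theorem bd_ge (ℓ : ℝ) (x : E) (c : Fin 3) :
    ((1 + |x c|) ^ 4)⁻¹ ≤ bd ℓ x ∧ ((1 + |ℓ - x c|) ^ 4)⁻¹ ≤ bd ℓ x := by
  have h0 : ∀ c ∈ (Finset.univ : Finset (Fin 3)),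
      0 ≤ ((1 + |x c|) ^ 4)⁻¹ + ((1 + |ℓ - x c|) ^ 4)⁻¹ := fun c _ => by positivity
  have h1 : ((1 + |x c|) ^ 4)⁻¹ + ((1 + |ℓ - x c|) ^ 4)⁻¹ ≤ bd ℓ x := by
    unfold bd
    exact Finset.single_le_sum (f := fun c => ((1 + |x c|) ^ 4)⁻¹ + ((1 + |ℓ - x c|) ^ 4)⁻¹) h0
      (Finset.mem_univ c)
  have h2 : 0 ≤ ((1 + |x c|) ^ 4)⁻¹ := by positivity
  have h3 : 0 ≤ ((1 + |ℓ - x c|) ^ 4)⁻¹ := by positivity
  constructor <;> linarith

theorem prof {G : ℝ → ℝ} {B q r : ℝ} (hB : 0 < B) (hG : (1 + q) ^ 2 * G q ≤ B) (hq : 0 ≤ q)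
    (hr : r ^ 2 ≤ 3 * q) (hr0 : 0 ≤ r) : G q ≤ 36 * B * ((1 + r) ^ 4)⁻¹ := by
  have h1 : (1 + r) ^ 2 ≤ 6 * (1 + q) := by nlinarith [sq_nonneg (r - 1)]
  have h2 : (1 + r) ^ 4 ≤ 36 * (1 + q) ^ 2 := by
    have h3 : 0 ≤ (1 + r) ^ 2 := by positivity
    have h4 := mul_le_mul h1 h1 h3 (by positivity)
    calc (1 + r) ^ 4 = (1 + r) ^ 2 * (1 + r) ^ 2 := by ring
      _ ≤ 6 * (1 + q) * (6 * (1 + q)) := h4
      _ = 36 * (1 + q) ^ 2 := by ring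
  have h5 : 0 < (1 + r) ^ 4 := by positivity
  have h6 : 0 < (1 + q) ^ 2 := by positivity
  rw [← div_eq_mul_inv, le_div_iff₀ h5]
  by_cases hg : 0 ≤ G q
  · calc G q * (1 + r) ^ 4 ≤ G q * (36 * (1 + q) ^ 2) := mul_le_mul_of_nonneg_left h2 hg
      _ = 36 * ((1 + q) ^ 2 * G q) := by ring
      _ ≤ 36 * B := by linarith
  · push Not at hg
    have := mul_neg_of_neg_of_pos hg h5
    linarith

/-- a term with an image -/
theorem term {ℓ : ℝ} {G : ℝ → ℝ} {B : ℝ} (hB : 0 < B)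
    (hG : ∀ s, 0 ≤ s → 0 ≤ G s ∧ (1 + s) ^ 2 * G s ≤ B) {x : E} (hx : x ∈ Lam ℓ) {q d : ℝ}
    (hq : 0 ≤ q) (hd : d ^ 2 ≤ 3 * q) {c : Fin 3} (hc : x c ≤ d ∨ ℓ - x c ≤ d) :
    G q ≤ 36 * B * bd ℓ x := by
  obtain ⟨hb1, hb2⟩ := bd_ge ℓ x c
  obtain ⟨hx1, hx2⟩ := hx c
  rcases hc with h | h
  · have h1 : (x c) ^ 2 ≤ 3 * q := le_trans (pow_le_pow_left₀ hx1 h 2) hd
    have h2 := prof hB (hG q hq).2 hq h1 hx1
    rw [abs_of_nonneg hx1] at hb1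
    exact le_trans h2 (mul_le_mul_of_nonneg_left hb1 (by positivity))
  · have h0 : 0 ≤ ℓ - x c := by linarith
    have h1 : (ℓ - x c) ^ 2 ≤ 3 * q := le_trans (pow_le_pow_left₀ h0 h 2) hd
    have h2 := prof hB (hG q hq).2 hq h1 h0
    rw [abs_of_nonneg h0] at hb2
    exact le_trans h2 (mul_le_mul_of_nonneg_left hb2 (by positivity))

end IMX_

open IMX_ in
theorem imx_proof (hQTF : Stmt_QTF) (hIMG : Stmt_IMG) : Stmt_IMX := by
  refine ⟨26244, by norm_num, ?_⟩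
  intro ℓ G B hℓ hB hG x hx y hy z hz
  have hid : ∀ x : E, img ℓ (fun _ => 0) x = x := (hIMG ℓ (fun _ => 0) hℓ).2.2.2.2.1
  have hnear : ∀ σ : Fin 3 → Fin 3, σ ≠ (fun _ => 0) → ∀ y ∈ Lam ℓ, ∃ c : Fin 3,
      (x c ≤ ‖x - img ℓ σ y‖ ∧ x c ≤ ‖img ℓ σ x - y‖) ∨
        (ℓ - x c ≤ ‖x - img ℓ σ y‖ ∧ ℓ - x c ≤ ‖img ℓ σ x - y‖) := fun σ hσ y hy =>
    (hIMG ℓ σ hℓ).2.2.2.2.2.2.2.2 x hx y hy hσ
  have hq0 : ∀ a b d : E, 0 ≤ QT a b d := fun a b d => (hQTF.1 a b d).2.1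
  have hq1 : ∀ a b d : E, ‖a - b‖ ^ 2 ≤ 3 * QT a b d := fun a b d => (hQTF.1 a b d).2.2.2.2.1
  have hq2 : ∀ a b d : E, ‖a - d‖ ^ 2 ≤ 3 * QT a b d := fun a b d => (hQTF.1 a b d).2.2.2.2.2.1
  have hbd0 : 0 ≤ bd ℓ x := le_trans (by positivity) (bd_ge ℓ x 0).1
  have hK0 : 0 ≤ 36 * B * bd ℓ x := by positivity
  -- the three kinds
  have hA : ∀ σ τ : Fin 3 → Fin 3, ¬ (σ = (fun _ => 0) ∧ τ = (fun _ => 0)) →
      G (QT x (img ℓ σ y) (img ℓ τ z)) ≤ 36 * B * bd ℓ x := by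
    intro σ τ hne
    by_cases hσ : σ = (fun _ => 0)
    · have hτ : τ ≠ (fun _ => 0) := fun h => hne ⟨hσ, h⟩
      obtain ⟨c, hc⟩ := hnear τ hτ z hz
      refine term hB hG hx (hq0 _ _ _) (hq2 x (img ℓ σ y) (img ℓ τ z)) (c := c) ?_
      exact hc.imp And.left And.left
    · obtain ⟨c, hc⟩ := hnear σ hσ y hy
      refine term hB hG hx (hq0 _ _ _) (hq1 x (img ℓ σ y) (img ℓ τ z)) (c := c) ?_
      exact hc.imp And.left And.left
  have hBk : ∀ σ τ : Fin 3 → Fin 3, ¬ (σ = (fun _ => 0) ∧ τ = (fun _ => 0)) →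
      G (QT (img ℓ σ x) y (img ℓ τ z)) ≤ 36 * B * bd ℓ x := by
    intro σ τ hne
    by_cases hσ : σ = (fun _ => 0)
    · have hτ : τ ≠ (fun _ => 0) := fun h => hne ⟨hσ, h⟩
      obtain ⟨c, hc⟩ := hnear τ hτ z hz
      rw [hσ, hid]
      refine term hB hG hx (hq0 _ _ _) (hq2 x y (img ℓ τ z)) (c := c) ?_
      exact hc.imp And.left And.left
    · obtain ⟨c, hc⟩ := hnear σ hσ y hy
      refine term hB hG hx (hq0 _ _ _) (hq1 (img ℓ σ x) y (img ℓ τ z)) (c := c) ?_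
      exact hc.imp And.right And.right
  have hCk : ∀ σ τ : Fin 3 → Fin 3, ¬ (σ = (fun _ => 0) ∧ τ = (fun _ => 0)) →
      G (QT (img ℓ σ x) (img ℓ τ y) z) ≤ 36 * B * bd ℓ x := by
    intro σ τ hne
    by_cases hσ : σ = (fun _ => 0)
    · have hτ : τ ≠ (fun _ => 0) := fun h => hne ⟨hσ, h⟩
      obtain ⟨c, hc⟩ := hnear τ hτ y hy
      rw [hσ, hid]
      refine term hB hG hx (hq0 _ _ _) (hq1 x (img ℓ τ y) z) (c := c) ?_
      exact hc.imp And.left And.left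
    · obtain ⟨c, hc⟩ := hnear σ hσ z hz
      refine term hB hG hx (hq0 _ _ _) (hq2 (img ℓ σ x) (img ℓ τ y) z) (c := c) ?_
      exact hc.imp And.right And.right
  have hterm : ∀ σ τ : Fin 3 → Fin 3,
      G (QT x (img ℓ σ y) (img ℓ τ z)) + G (QT (img ℓ σ x) y (img ℓ τ z)) +
        G (QT (img ℓ σ x) (img ℓ τ y) z) ≤
      (if σ = (fun _ => 0) then (if τ = (fun _ => 0) then 3 * G (QT x y z) else 0) else 0) +
        108 * B * bd ℓ x := by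
    intro σ τ
    by_cases h : σ = (fun _ => 0) ∧ τ = (fun _ => 0)
    · rw [if_pos h.1, if_pos h.2, h.1, h.2, hid, hid, hid]
      linarith
    · have h1 := hA σ τ h
      have h2 := hBk σ τ h
      have h3 := hCk σ τ h
      have h4 : (0 : ℝ) ≤ (if σ = (fun _ => 0) then
          (if τ = (fun _ => 0) then 3 * G (QT x y z) else 0) else 0) := by
        have := (hG (QT x y z) (hq0 x y z)).1
        split_ifs <;> linarith
      linarith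
  have hsum : ∑ σ : Fin 3 → Fin 3, ∑ τ : Fin 3 → Fin 3,
      (G (QT x (img ℓ σ y) (img ℓ τ z)) + G (QT (img ℓ σ x) y (img ℓ τ z)) +
        G (QT (img ℓ σ x) (img ℓ τ y) z)) ≤ 3 * G (QT x y z) + 729 * (108 * B * bd ℓ x) := by
    refine le_trans (Finset.sum_le_sum fun σ _ => Finset.sum_le_sum fun τ _ => hterm σ τ) ?_
    have e1 : ∀ σ : Fin 3 → Fin 3, ∑ τ : Fin 3 → Fin 3,
        ((if σ = (fun _ => 0) then (if τ = (fun _ => 0) then 3 * G (QT x y z) else 0) else 0) +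
          108 * B * bd ℓ x) =
        (if σ = (fun _ => 0) then 3 * G (QT x y z) else 0) + 27 * (108 * B * bd ℓ x) := by
      intro σ
      rw [Finset.sum_add_distrib]
      congr 1
      · split_ifs with h
        · rw [Finset.sum_ite_eq' Finset.univ (fun _ => (0 : Fin 3)) (fun _ => 3 * G (QT x y z))]
          simp
        · simp
      · rw [Finset.sum_const, Finset.card_univ, nsmul_eq_mul]
        simp
    rw [Finset.sum_congr rfl fun σ _ => e1 σ, Finset.sum_add_distrib,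
      Finset.sum_ite_eq' Finset.univ (fun _ => (0 : Fin 3)) (fun _ => 3 * G (QT x y z)),
      if_pos (Finset.mem_univ _), Finset.sum_const, Finset.card_univ, nsmul_eq_mul]
    have e2 : ((Fintype.card (Fin 3 → Fin 3) : ℕ) : ℝ) = 27 := by simp
    rw [e2]
    linarith
  unfold Im
  linarith

end Pool.Agent.TBL
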