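import Pool.Agent.TBL.Stmts

/-!
# Three-body Bose gases (MP_80dc41_mp): module IMY, bounded profiles
-/

set_option autoImplicit false

open MeasureTheory Filter Topology
open scoped ContDiff

namespace Pool.Agent.TBL

open Pool.Agent.TBG

namespace IMY_

lemma bound (hQTF : Stmt_QTF) (ℓ : ℝ) (G : ℝ → ℝ) (B : ℝ) (hB : ∀ s, 0 ≤ s → |G s| ≤ B) (x y z : E) :
    |Im ℓ G x y z| ≤ 729 * B := by
  have hG : ∀ a b c : E, |G (QT a b c)| ≤ B := fun a b c => hB _ ((hQTF.1 a b c).2.1)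
  unfold Im
  rw [abs_mul, abs_of_pos (by norm_num : (0 : ℝ) < 1 / 3)]
  have h1 : |∑ σ : Fin 3 → Fin 3, ∑ τ : Fin 3 → Fin 3,
      (G (QT x (img ℓ σ y) (img ℓ τ z)) + G (QT (img ℓ σ x) y (img ℓ τ z)) + G (QT (img ℓ σ x) (img ℓ τ y) z))| ≤
      ∑ σ : Fin 3 → Fin 3, ∑ τ : Fin 3 → Fin 3, (B + B + B) := by
    refine (Finset.abs_sum_le_sum_abs _ _).trans (Finset.sum_le_sum (fun σ _ => ?_))
    refine (Finset.abs_sum_le_sum_abs _ _).trans (Finset.sum_le_sum (fun τ _ => ?_))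
    refine (abs_add_le _ _).trans (add_le_add ((abs_add_le _ _).trans (add_le_add (hG _ _ _) (hG _ _ _))) (hG _ _ _))
  have h2 : ∑ σ : Fin 3 → Fin 3, ∑ τ : Fin 3 → Fin 3, (B + B + B) = 729 * (B + B + B) := by
    simp only [Finset.sum_const, Finset.card_univ, Fintype.card_pi, Fintype.card_fin, Finset.prod_const,
      nsmul_eq_mul]
    norm_num
    ring
  rw [h2] at h1
  linarith

end IMY_

open IMY_

theorem imy_proof (_hBMC : Stmt_BMC) (hQTF : Stmt_QTF) (hIMG : Stmt_IMG) : Stmt_IMY := by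
  intro ℓ G B hℓ hG hB
  refine ⟨⟨?_, 729 * B, fun p => bound hQTF ℓ G B hB _ _ _⟩, fun x y z => bound hQTF ℓ G B hB x y z⟩
  have hQ : Continuous (fun p : E × E × E => QT p.1 p.2.1 p.2.2) := hQTF.2.1.continuous
  have hi : ∀ σ, Continuous (img ℓ σ) := fun σ => (hIMG ℓ σ hℓ).2.1.continuous
  have hcomp : ∀ f : E × E × E → E × E × E, Continuous f →
      Measurable (fun p => G (QT (f p).1 (f p).2.1 (f p).2.2)) := fun f hf =>
    hG.comp (hQ.comp hf).measurable
  unfold Im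
  refine Measurable.const_mul ?_ _
  refine Finset.measurable_sum _ (fun σ _ => Finset.measurable_sum _ (fun τ _ => ?_))
  have h1 := hcomp (fun p => (p.1, img ℓ σ p.2.1, img ℓ τ p.2.2))
    (by have := hi σ; have := hi τ; fun_prop)
  have h2 := hcomp (fun p => (img ℓ σ p.1, p.2.1, img ℓ τ p.2.2))
    (by have := hi σ; have := hi τ; fun_prop)
  have h3 := hcomp (fun p => (img ℓ σ p.1, img ℓ τ p.2.1, p.2.2))
    (by have := hi σ; have := hi τ; fun_prop)
  exact (h1.add h2).add h3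

end Pool.Agent.TBL
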