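import Pool.Agent.TBL.Stmts

/-!
# Module IMZ of squad TBL: the image sum of a profile with bounded support is a smooth kernel
-/

set_option autoImplicit false

open MeasureTheory Filter Topology
open scoped ContDiff

namespace Pool.Agent.TBL

open Pool.Agent.TBG

namespace IMZ_

/-- bounded profiles -/
lemma prof (H : ℝ → ℝ) (hH : Continuous H) (S : ℝ) (h0 : ∀ s, S < s → H s = 0) :
    ∃ B : ℝ, 0 ≤ B ∧ ∀ s, 0 ≤ s → |H s| * (1 + s) ≤ B := by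
  have hc : Continuous (fun s => |H s| * (1 + s)) := hH.abs.mul (continuous_const.add continuous_id)
  have hcomp : IsCompact (Set.Icc (0 : ℝ) (max S 0)) := isCompact_Icc
  obtain ⟨B, hB⟩ := (hcomp.image hc).bddAbove
  refine ⟨max B 0, le_max_right _ _, fun s hs => ?_⟩
  by_cases h : s ≤ max S 0
  · exact (hB ⟨s, ⟨hs, h⟩, rfl⟩).trans (le_max_left _ _)
  · push Not at h
    rw [h0 s (lt_of_le_of_lt (le_max_left _ _) h)]
    simp

/-- derivatives vanish where the function does -/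
lemma deriv_zero (H : ℝ → ℝ) (S : ℝ) (h0 : ∀ s, S < s → H s = 0) (s : ℝ) (hs : S < s) : deriv H s = 0 := by
  have : H =ᶠ[𝓝 s] (fun _ => 0) := by
    filter_upwards [Ioi_mem_nhds hs] with t ht using h0 t ht
  rw [this.deriv_eq]
  simp

lemma coord (v : E) (c : Fin 3) : |v c| ≤ ‖v‖ := by
  have := EuclideanSpace.norm_sq_eq v
  have h1 : (v c) ^ 2 ≤ ‖v‖ ^ 2 := by
    rw [this]
    have h2 := Finset.single_le_sum (f := fun i => ‖v i‖ ^ 2) (fun i _ => sq_nonneg _) (Finset.mem_univ c)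
    simpa using h2
  exact abs_le_of_sq_le_sq h1 (norm_nonneg _)

lemma dT_bound (hQTF : Stmt_QTF) (G : ℝ → ℝ) (B : ℝ) (hB : ∀ s, 0 ≤ s → |deriv G s| * (1 + s) ≤ B)
    (c : Fin 3) (a b d : E) : |dT c G a b d| ≤ 2 * B := by
  obtain ⟨_, hq0, _, _, _, _, _, h9⟩ := hQTF.1 a b d
  have hn : ‖(2 : ℝ) • a - b - d‖ ^ 2 ≤ 9 * QT a b d := by
    nlinarith [sq_nonneg ‖(2 : ℝ) • b - a - d‖, sq_nonneg ‖(2 : ℝ) • d - a - b‖]
  have hn2 : ‖(2 : ℝ) • a - b - d‖ ≤ 3 * (1 + QT a b d) := by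
    refine abs_le_of_sq_le_sq' ?_ (by linarith) |>.2
    nlinarith [hq0, mul_nonneg hq0 hq0]
  have hco := coord ((2 : ℝ) • a - b - d) c
  have hval : ((2 : ℝ) • a - b - d) c = 2 * a c - b c - d c := by simp
  rw [hval] at hco
  unfold dT
  rw [abs_mul, abs_mul, abs_of_nonneg (by norm_num : (0 : ℝ) ≤ 2 / 3)]
  calc |deriv G (QT a b d)| * (2 / 3 * |2 * a c - b c - d c|)
      ≤ |deriv G (QT a b d)| * (2 / 3 * (3 * (1 + QT a b d))) := by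
        apply mul_le_mul_of_nonneg_left _ (abs_nonneg _)
        linarith
    _ = 2 * (|deriv G (QT a b d)| * (1 + QT a b d)) := by ring
    _ ≤ 2 * B := by linarith [hB _ hq0]

lemma lT_bound (hQTF : Stmt_QTF) (G : ℝ → ℝ) (B B' : ℝ) (hB : ∀ s, 0 ≤ s → |deriv G s| * (1 + s) ≤ B)
    (hB' : ∀ s, 0 ≤ s → |deriv (deriv G) s| * (1 + s) ≤ B') (a b d : E) : |lT G a b d| ≤ 4 * B' + 4 * B := by
  obtain ⟨_, hq0, _, _, _, _, _, h9⟩ := hQTF.1 a b d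
  have hn : ‖(2 : ℝ) • a - b - d‖ ^ 2 ≤ 9 * QT a b d := by
    nlinarith [sq_nonneg ‖(2 : ℝ) • b - a - d‖, sq_nonneg ‖(2 : ℝ) • d - a - b‖]
  unfold lT
  have h1 : |deriv (deriv G) (QT a b d) * (4 / 9 * ‖(2 : ℝ) • a - b - d‖ ^ 2)| ≤ 4 * B' := by
    rw [abs_mul, abs_of_nonneg (by positivity : (0 : ℝ) ≤ 4 / 9 * ‖(2 : ℝ) • a - b - d‖ ^ 2)]
    calc |deriv (deriv G) (QT a b d)| * (4 / 9 * ‖(2 : ℝ) • a - b - d‖ ^ 2)
        ≤ |deriv (deriv G) (QT a b d)| * (4 * (1 + QT a b d)) := by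
          apply mul_le_mul_of_nonneg_left _ (abs_nonneg _)
          linarith
      _ = 4 * (|deriv (deriv G) (QT a b d)| * (1 + QT a b d)) := by ring
      _ ≤ 4 * B' := by linarith [hB' _ hq0]
  have h2 : |4 * deriv G (QT a b d)| ≤ 4 * B := by
    rw [abs_mul, abs_of_nonneg (by norm_num : (0 : ℝ) ≤ 4)]
    have h3 := hB _ hq0
    have h4 : |deriv G (QT a b d)| ≤ |deriv G (QT a b d)| * (1 + QT a b d) := by
      nlinarith [abs_nonneg (deriv G (QT a b d))]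
    linarith
  exact (abs_add_le _ _).trans (add_le_add h1 h2)

/-- the bound of a double sum -/
noncomputable def bdd (M : ℝ) : ℝ := 1 / 3 * ∑ _σ : Fin 3 → Fin 3, ∑ _τ : Fin 3 → Fin 3, M

/-- bounds for double sums -/
lemma sum_bound (F : (Fin 3 → Fin 3) → (Fin 3 → Fin 3) → ℝ) (M : ℝ) (hM : ∀ σ τ, |F σ τ| ≤ M) :
    |1 / 3 * ∑ σ, ∑ τ, F σ τ| ≤ bdd M := by
  unfold bdd
  rw [abs_mul, abs_of_nonneg (by norm_num : (0 : ℝ) ≤ 1 / 3)]
  apply mul_le_mul_of_nonneg_left _ (by norm_num)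
  refine (Finset.abs_sum_le_sum_abs _ _).trans (Finset.sum_le_sum fun σ _ => ?_)
  exact (Finset.abs_sum_le_sum_abs _ _).trans (Finset.sum_le_sum fun τ _ => hM σ τ)

lemma sgi_abs (σ : Fin 3 → Fin 3) (c : Fin 3) : |sgi σ c| = 1 := by
  unfold sgi
  split_ifs <;> simp

lemma three (x y z M : ℝ) (hx : |x| ≤ M) (hy : |y| ≤ M) (hz : |z| ≤ M) : |x + y + z| ≤ 3 * M := by
  rw [abs_le] at *
  constructor <;> linarith [hx.1, hx.2, hy.1, hy.2, hz.1, hz.2]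

end IMZ_

theorem imz_proof (_hBMC : Stmt_BMC) (hSKF : Stmt_SKF) (hQTF : Stmt_QTF) (_hIMG : Stmt_IMG)
    (hIMK : Stmt_IMK) : Stmt_IMZ := by
  intro ℓ G S hℓ hG hS
  obtain ⟨hsm, hdk, hLk⟩ := hIMK ℓ G hℓ hG
  obtain ⟨_, hk1, _, hk2⟩ := hSKF (Im ℓ G) hsm
  have hG1 : ContDiff ℝ ∞ (deriv G) := (contDiff_infty_iff_deriv.1 hG).2
  have hG2 : ContDiff ℝ ∞ (deriv (deriv G)) := (contDiff_infty_iff_deriv.1 hG1).2
  have z0 : ∀ s, S < s → G s = 0 := fun s hs => hS s hs.le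
  have z1 := IMZ_.deriv_zero G S z0
  have z2 := IMZ_.deriv_zero (deriv G) S z1
  obtain ⟨B0, hB0, hb0⟩ := IMZ_.prof G hG.continuous S z0
  obtain ⟨B1, hB1, hb1⟩ := IMZ_.prof (deriv G) hG1.continuous S z1
  obtain ⟨B2, hB2, hb2⟩ := IMZ_.prof (deriv (deriv G)) hG2.continuous S z2
  have g0 : ∀ a b d : E, |G (QT a b d)| ≤ B0 := by
    intro a b d
    have hq0 := (hQTF.1 a b d).2.1
    have h3 := hb0 _ hq0
    nlinarith [abs_nonneg (G (QT a b d))]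
  refine ⟨hsm, ⟨hsm.continuous.measurable, IMZ_.bdd (3 * B0), fun p => ?_⟩,
    fun c => ⟨(hk1 c).continuous.measurable, IMZ_.bdd (3 * (2 * B1)), fun p => ?_⟩,
    ⟨hk2.measurable, IMZ_.bdd (3 * (4 * B2 + 4 * B1)), fun p => ?_⟩⟩
  · exact IMZ_.sum_bound _ (3 * B0) fun σ τ => IMZ_.three _ _ _ _ (g0 _ _ _) (g0 _ _ _) (g0 _ _ _)
  · show |dk c (Im ℓ G) p.1 p.2.1 p.2.2| ≤ _
    rw [hdk]
    refine IMZ_.sum_bound _ (3 * (2 * B1)) fun σ τ => IMZ_.three _ _ _ _ ?_ ?_ ?_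
    · exact IMZ_.dT_bound hQTF G B1 hb1 _ _ _ _
    · rw [abs_mul, IMZ_.sgi_abs, one_mul]
      exact IMZ_.dT_bound hQTF G B1 hb1 _ _ _ _
    · rw [abs_mul, IMZ_.sgi_abs, one_mul]
      exact IMZ_.dT_bound hQTF G B1 hb1 _ _ _ _
  · show |Lk (Im ℓ G) p.1 p.2.1 p.2.2| ≤ _
    rw [hLk]
    refine IMZ_.sum_bound _ (3 * (4 * B2 + 4 * B1)) fun σ τ => IMZ_.three _ _ _ _ ?_ ?_ ?_ <;>
      exact IMZ_.lT_bound hQTF G B1 B2 hb1 hb2 _ _ _

end Pool.Agent.TBL
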