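import Pool.Agent.TBL.Stmts

/-!
# Three-body Bose gases (MP_80dc41_mp), lower bound: the kernel functions
-/

set_option autoImplicit false

open MeasureTheory Filter Topology
open scoped ContDiff

namespace Pool.Agent.TBL

open Pool.Agent.TBG

namespace KER_

lemma im_sub (ℓ : ℝ) (a b : ℝ → ℝ) (x y z : E) :
    Im ℓ (fun s => a s - b s) x y z = Im ℓ a x y z - Im ℓ b x y z := by
  simp only [Im]
  rw [← mul_sub, ← Finset.sum_sub_distrib]
  congr 1
  refine Finset.sum_congr rfl fun σ _ => ?_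
  rw [← Finset.sum_sub_distrib]
  refine Finset.sum_congr rfl fun τ _ => ?_
  ring

lemma cont_QQ : Continuous QQ := by
  unfold QQ
  fun_prop

end KER_

theorem ker_proof (_hB : Stmt_BMC) (hP : Stmt_PRF) (hS : Stmt_SCA) (hG : Stmt_GRF) (hIQ : Stmt_IMQ)
    (hIF : Stmt_IMF) (hIB : Stmt_IMB) (hIZ : Stmt_IMZ) (hIY : Stmt_IMY) (hIN : Stmt_IMN) (hIM : Stmt_IMM)
    (hID : Stmt_IMD) (hQ : Stmt_QSF) (hCQ : Stmt_CSQ) (hCW : Stmt_CSW) (hCG : Stmt_CSG) (hCT : Stmt_CST) :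
    Stmt_KER := by
  obtain ⟨CG, hCG0, hG⟩ := hG
  obtain ⟨CB, hCB0, hIB⟩ := hIB
  obtain ⟨Cq, hCq0, hCQ⟩ := hCQ
  obtain ⟨Cw, hCw0, hCW⟩ := hCW
  obtain ⟨Cg, hCg0, hCG⟩ := hCG
  obtain ⟨hW, hP1, hW01, -⟩ := hP
  obtain ⟨hSc, hww, -⟩ := hS
  have hp1 : 0 < CB * CG := mul_pos hCB0 hCG0
  have hp2 : 0 < 729 * CG * 8 ^ 6 := by positivity
  refine ⟨CB * CG + 729 * CG * 8 ^ 6 + Cq + Cw + Cg, by positivity, ?_⟩
  intro ℓ hℓ
  have h0 : 0 < ℓ := by linarith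
  have h1 : 1 ≤ ℓ := by linarith
  have hR : 1 ≤ ℓ / 8 := by linarith
  obtain ⟨sG, sg, hbd, hz, hint⟩ := hG (ℓ / 8) hR
  have e32 : ℓ ^ 2 / 32 = 2 * (ℓ / 8) ^ 2 := by ring
  have hz1 : ∀ s, ℓ ^ 2 / 32 ≤ s → GR (ℓ / 8) s = 0 := fun s hs => (hz s (by rw [← e32]; exact hs)).1
  have hz2 : ∀ s, ℓ ^ 2 / 32 ≤ s → gR (ℓ / 8) s = 0 := fun s hs => (hz s (by rw [← e32]; exact hs)).2
  have hIYg := hIY ℓ (gR (ℓ / 8)) (CG / (ℓ / 8) ^ 6) h0 sg.continuous.measurable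
    (fun s hs => (hbd s hs).2.2.2.2)
  have hb : (∫ z, ww phi0 z) = ∫ z : E × E, W1 (QQ z) := by
    refine integral_congr_ae (Filter.Eventually.of_forall fun z => hww z)
  have hD : ∀ x y z : E, 1 ≤ 1 + ‖x - y‖ + ‖x - z‖ := fun x y z => by
    have := norm_nonneg (x - y); have := norm_nonneg (x - z); linarith
  refine
    { sk := hIZ ℓ _ (2 * (ℓ / 8) ^ 2) h0 sG (fun s hs => (hz s hs).1)
      syφ := hIQ ℓ _
      syw := hIQ ℓ _
      syq := (hQ ℓ h0).1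
      syg := hIQ ℓ _
      bw := (hIY ℓ W1 1 h0 hW.continuous.measurable (fun s _ => by
        rw [abs_of_nonneg (hW01 s).1]; exact (hW01 s).2)).1
      bq := (hQ ℓ h0).2.1
      bg := hIYg.1
      neu := hIN ℓ _ h0 sG hz1
      eqn := ?_
      dec0 := ?_
      dec1 := ?_
      gb := ?_
      wq := (hQ ℓ h0).2.2
      dmean := hID ℓ _ h0 sG hz1
      gmean := ?_
      cst := ?_ }
  · intro x _ y _ z _
    rw [hIF ℓ _ h0 sG x y z, ← KER_.im_sub]
    congr 1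
    funext s
    simp only [LG, gR]
    ring
  · intro x hx y hy z hz'
    refine ((hIB ℓ _ CG h0 sG hCG0 (fun s hs => ⟨(hbd s hs).2.2.1, (hbd s hs).2.2.2.1⟩)).1 x hx y hy z hz').trans ?_
    refine div_le_div_of_nonneg_right ?_ (by positivity)
    linarith
  · intro x hx y hy z hz' c
    refine ((hIB ℓ _ CG h0 sG hCG0 (fun s hs => ⟨(hbd s hs).2.2.1, (hbd s hs).2.2.2.1⟩)).2 x hx y hy z hz' c).trans ?_
    refine div_le_div_of_nonneg_right ?_ (by positivity)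
    linarith
  · intro x _ y _ z _
    refine (hIYg.2 x y z).trans ?_
    have : 729 * (CG / (ℓ / 8) ^ 6) = 729 * CG * 8 ^ 6 / ℓ ^ 6 := by
      field_simp
    rw [this]
    refine div_le_div_of_nonneg_right ?_ (by positivity)
    linarith
  · intro x hx
    rw [hIM ℓ _ h0 sg.continuous hz2 x hx, hint, hb]
    ring
  · have hc := hCT ℓ hℓ
    have hq := hCQ ℓ h1
    have hw := hCW ℓ hℓ
    have hg := abs_le.1 (hCG ℓ hℓ)
    -- integrability
    obtain ⟨R, hRs⟩ := hSc.supp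
    have hsupp : ∀ F : ℝ → ℝ, Continuous F → Integrable (fun z : E × E => W1 (QQ z) * F (QQ z)) := by
      intro F hF
      refine Continuous.integrable_of_hasCompactSupport ?_ ?_
      · exact (hW.continuous.comp KER_.cont_QQ).mul (hF.comp KER_.cont_QQ)
      · refine HasCompactSupport.intro (isCompact_closedBall (0 : E × E) R) ?_
        intro z hz'
        have h2 : R < ‖z‖ := by
          by_contra hcon
          exact hz' (mem_closedBall_zero_iff.2 (not_lt.1 hcon))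
        have h3 : W1 (QQ z) = 0 := by
          rw [← hww z, ww, hRs z h2, neg_zero]
        rw [h3, zero_mul]
    have hadd : (∫ z : E × E, W1 (QQ z) * (1 - P1 (QQ z))) + (∫ z : E × E, W1 (QQ z) * P1 (QQ z)) =
        ∫ z : E × E, W1 (QQ z) := by
      rw [← integral_add (hsupp (fun s => 1 - P1 s) (continuous_const.sub hP1.continuous))
        (hsupp P1 hP1.continuous)]
      refine integral_congr_ae (Filter.Eventually.of_forall fun z => ?_)
      show W1 (QQ z) * (1 - P1 (QQ z)) + W1 (QQ z) * P1 (QQ z) = W1 (QQ z)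
      ring
    rw [hb, hc]
    have e1 : (∫ z : E × E, W1 (QQ z)) / ℓ ^ 6 =
        (ℓ ^ 6)⁻¹ * (∫ z : E × E, W1 (QQ z) * (1 - P1 (QQ z))) +
        (ℓ ^ 6)⁻¹ * (∫ z : E × E, W1 (QQ z) * P1 (QQ z)) := by
      rw [← mul_add, hadd]
      ring
    have e2 : (CB * CG + 729 * CG * 8 ^ 6 + Cq + Cw + Cg) / ℓ ^ 7 =
        (CB * CG + 729 * CG * 8 ^ 6) / ℓ ^ 7 + Cq / ℓ ^ 7 + Cw / ℓ ^ 7 + Cg / ℓ ^ 7 := by
      ring
    have e3 : 0 ≤ (CB * CG + 729 * CG * 8 ^ 6) / ℓ ^ 7 := by positivity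
    rw [e2]
    linarith [hg.1, hg.2]

end Pool.Agent.TBL
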