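import Pool.Agent.TBL.Stmts

/-!
# Module KIM of squad TBL: the kinetic energy of the particle `i`
-/

set_option autoImplicit false

open MeasureTheory Filter Topology
open scoped ContDiff

namespace Pool.Agent.TBL

open Pool.Agent.TBG

namespace KIM_

variable (hB : Stmt_BMC)

include hB

theorem add {α : Type} [MeasurableSpace α] {F G : α → ℝ} (hF : BM F) (hG : BM G) :
    BM (fun X => F X + G X) := (hB.1 α F G hF hG).1

theorem sub {α : Type} [MeasurableSpace α] {F G : α → ℝ} (hF : BM F) (hG : BM G) :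
    BM (fun X => F X - G X) := (hB.1 α F G hF hG).2.1

theorem mul {α : Type} [MeasurableSpace α] {F G : α → ℝ} (hF : BM F) (hG : BM G) :
    BM (fun X => F X * G X) := (hB.1 α F G hF hG).2.2.1

theorem sq {α : Type} [MeasurableSpace α] {F : α → ℝ} (hF : BM F) :
    BM (fun X => F X ^ 2) := (hB.1 α F F hF hF).2.2.2.1

theorem smul {α : Type} [MeasurableSpace α] {F : α → ℝ} (hF : BM F) (a : ℝ) :
    BM (fun X => a * F X) := (hB.1 α F F hF hF).2.2.2.2.2.1 a

theorem integ {α : Type} [MeasurableSpace α] {F : α → ℝ} (hF : BM F) (μ : Measure α)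
    [IsFiniteMeasure μ] : Integrable F μ := (hB.1 α F F hF hF).2.2.2.2.2.2 μ

theorem sum {α J : Type} [MeasurableSpace α] (s : Finset J) (F : J → α → ℝ)
    (h : ∀ p ∈ s, BM (F p)) : BM (fun X => ∑ p ∈ s, F p X) := hB.2.2.1 α J s F h

theorem comp {α β : Type} [MeasurableSpace α] [MeasurableSpace β] {F : α → ℝ} (hF : BM F)
    {f : β → α} (hf : Measurable f) : BM (fun X => F (f X)) := hB.2.2.2.1 α β F f hF hf

theorem int {α β : Type} [MeasurableSpace α] [MeasurableSpace β] (μ : Measure β)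
    [IsProbabilityMeasure μ] {F : α × β → ℝ} (hF : BM F) : BM (fun X => ∫ y, F (X, y) ∂μ) :=
  hB.2.2.2.2 α β μ F hF

end KIM_

open KIM_ in
theorem kim_proof (hBMC : Stmt_BMC) (hMES : Stmt_MES) (hMEP : Stmt_MEP) (hAVA : Stmt_AVA)
    (_hAVB : Stmt_AVB) (hATF : Stmt_ATF) (hSKF : Stmt_SKF) (hSLI : Stmt_SLI) (hQFB : Stmt_QFB)
    (hQFM : Stmt_QFM) (hOPK : Stmt_OPK) : Stmt_KIM := by
  intro ι _ _ ℓ C κ φ u i hℓ hR hφ hu huc
  have i1 : IsProbabilityMeasure (nuc ℓ) := (hMES ℓ hℓ).2.2.2.1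
  have i2 : IsProbabilityMeasure (PiM ι ℓ) := (hMEP ι ℓ hℓ).1
  obtain ⟨hub, hdb, hsl⟩ := hSLI ι u hu huc
  obtain ⟨hs1, -, -, -⟩ := hSKF φ hφ.smooth
  -- the averages
  set A : ι × ι → (ι → E) → ℝ := fun p => A3 ℓ i p.1 p.2 u with hA
  have hAb : ∀ p, BM (A p) := fun p => (hATF ι ℓ hℓ i p.1 p.2 u hub).1
  have hAi : ∀ p, Ind i (A p) := fun p => (hATF ι ℓ hℓ i p.1 p.2 u hub).2.1
  -- the terms
  set T1 : (ι → E) → ℝ := fun X => q1 ℓ κ (fun x => u (Function.update X i x))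
    (fun x => u (Function.update X i x)) with hT1
  set B : ι × ι → ι × ι → (ι → E) → ℝ := fun p p' X => A p X * A p' X *
    Qf ℓ κ (fun x => φ x (X p.1) (X p.2)) (fun x => φ x (X p'.1) (X p'.2)) with hBdef
  set D : ι × ι → Fin 3 → (ι → E) → ℝ := fun p c Y =>
    di i c u Y * dk c φ (Y i) (Y p.1) (Y p.2) * A p Y with hD
  have hBb : ∀ p p', BM (B p p') := by
    intro p p'
    have h1 := hQFM ℓ C κ φ hℓ hR hφ
    have h2 : Measurable fun X : ι → E => (((X p.1, X p.2), (X p'.1, X p'.2)) : (E × E) × (E × E)) :=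
      ((measurable_pi_apply _).prodMk (measurable_pi_apply _)).prodMk
        ((measurable_pi_apply _).prodMk (measurable_pi_apply _))
    exact mul hBMC (mul hBMC (hAb p) (hAb p')) (comp hBMC h1 h2)
  have hDb : ∀ p c, BM (D p c) := by
    intro p c
    have h2 : Measurable fun X : ι → E => ((X i, X p.1, X p.2) : E × E × E) :=
      (measurable_pi_apply _).prodMk ((measurable_pi_apply _).prodMk (measurable_pi_apply _))
    have h3 : BM (fun X : ι → E => dk c φ (X i) (X p.1) (X p.2)) := comp hBMC (hφ.b1 c) h2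
    exact mul hBMC (mul hBMC (hdb i c) h3) (hAb p)
  have hupd := (hAVA ι ℓ hℓ i u hub).2.2.1
  have hT1b : BM T1 := by
    have k1 : BM (fun p : ((ι → E) × E) × E => κ p.1.2 p.2) :=
      comp hBMC hR.bm ((measurable_snd.comp measurable_fst).prodMk measurable_snd)
    have k2 : BM (fun p : ((ι → E) × E) × E => u (Function.update p.1.1 i p.1.2)) :=
      comp hBMC hupd measurable_fst
    have k3 : BM (fun p : ((ι → E) × E) × E => u (Function.update p.1.1 i p.2)) :=
      comp hBMC hupd ((measurable_fst.comp measurable_fst).prodMk measurable_snd)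
    have k4 := sub hBMC k2 k3
    have k5 := mul hBMC k1 (mul hBMC k4 k4)
    have k6 := int hBMC (nuc ℓ) k5
    exact int hBMC (nuc ℓ) k6
  have hdu : ∀ c, BM (fun X => (di i c u X) ^ 2) := fun c => sq hBMC (hdb i c)
  -- pointwise inequality
  have hpt : ∀ X : ι → E, 1 / 6 * T1 X - 1 / 4 * (∑ p ∈ D2 i, ∑ p' ∈ D2 i, B p p' X)
      - ∑ p ∈ D2 i, ∑ c, av ℓ i (D p c) X ≤ ∑ c, av ℓ i (fun Y => (di i c u Y) ^ 2) X := by
    intro X
    set h : E → ℝ := fun x => u (Function.update X i x) with hh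
    set f : ι × ι → E → ℝ := fun p x => φ x (X p.1) (X p.2) with hf
    set a : ι × ι → ℝ := fun p => 1 / 2 * A p X with ha
    have hhc : ContDiff ℝ 1 h := (hsl i X).1
    have hfc : ∀ p ∈ D2 i, ContDiff ℝ 1 (f p) := fun p _ =>
      (hs1 (X p.1) (X p.2)).of_le (by exact_mod_cast le_top)
    obtain ⟨q1c, q1d, q1q⟩ := (hQFB ℓ C κ hℓ hR).2 (ι × ι) (D2 i) a f hfc
    have h1 := hOPK ℓ C κ h (fun x => ∑ p ∈ D2 i, a p * f p x) hℓ hR hhc q1c
    rw [q1q] at h1
    have e1 : ∑ p ∈ D2 i, ∑ p' ∈ D2 i, a p * a p' * Qf ℓ κ (f p) (f p') =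
        1 / 4 * (∑ p ∈ D2 i, ∑ p' ∈ D2 i, B p p' X) := by
      rw [Finset.mul_sum]
      refine Finset.sum_congr rfl fun p _ => ?_
      rw [Finset.mul_sum]
      refine Finset.sum_congr rfl fun p' _ => ?_
      simp only [hBdef, ha, hf]
      ring
    have hdx : ∀ c, BM (fun x : E => di i c u (Function.update X i x)) := by
      intro c
      have h2 := (hAVA ι ℓ hℓ i (di i c u) (hdb i c)).2.2.1
      exact comp hBMC h2 (measurable_const.prodMk measurable_id)
    have hkx : ∀ (c : Fin 3) (p : ι × ι), BM (fun x : E => dk c φ x (X p.1) (X p.2)) := by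
      intro c p
      have h2 : Measurable fun x : E => ((x, X p.1, X p.2) : E × E × E) :=
        measurable_id.prodMk measurable_const
      exact comp hBMC (hφ.b1 c) h2
    have e2 : ∀ (c : Fin 3) (p : ι × ι), p ∈ D2 i →
        av ℓ i (D p c) X = A p X * ∫ x, di i c u (Function.update X i x) *
          dk c φ x (X p.1) (X p.2) ∂(nuc ℓ) := by
      intro c p hp
      rw [D2, Finset.mem_filter] at hp
      obtain ⟨-, hp1, hp2, -⟩ := hp
      rw [av, ← integral_const_mul]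
      congr 1
      funext x
      simp only [hD]
      rw [Function.update_self, Function.update_of_ne hp1.symm, Function.update_of_ne hp2.symm,
        hAi p X x]
      ring
    have e3 : 2 * ∑ c, ∫ x, pd c h x * pd c (fun x => ∑ p ∈ D2 i, a p * f p x) x ∂(nuc ℓ) =
        ∑ p ∈ D2 i, ∑ c, av ℓ i (D p c) X := by
      rw [Finset.sum_comm, Finset.mul_sum]
      refine Finset.sum_congr rfl fun c _ => ?_
      have e4 : ∀ x, pd c h x * pd c (fun x => ∑ p ∈ D2 i, a p * f p x) x =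
          ∑ p ∈ D2 i, a p * (di i c u (Function.update X i x) * dk c φ x (X p.1) (X p.2)) := by
        intro x
        rw [q1d c x, hh, (hsl i X).2 c x, Finset.mul_sum]
        refine Finset.sum_congr rfl fun p _ => ?_
        simp only [hf, dk]
        ring
      simp_rw [e4]
      rw [integral_finsetSum]
      · rw [Finset.mul_sum]
        refine Finset.sum_congr rfl fun p hp => ?_
        rw [integral_const_mul, e2 c p hp]
        simp only [ha]
        ring
      · intro p _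
        exact integ hBMC (smul hBMC (mul hBMC (hdx c) (hkx c p)) (a p)) (nuc ℓ)
    have e5 : ∑ c, ∫ x, (pd c h x) ^ 2 ∂(nuc ℓ) = ∑ c, av ℓ i (fun Y => (di i c u Y) ^ 2) X := by
      refine Finset.sum_congr rfl fun c _ => ?_
      rw [av]
      congr 1
      funext x
      rw [hh, (hsl i X).2 c x]
    rw [e1, e3, e5] at h1
    exact h1
  -- integrate
  have hAvD : ∀ p c, BM (av ℓ i (D p c)) := fun p c => (hAVA ι ℓ hℓ i (D p c) (hDb p c)).1
  have hAvd : ∀ c, BM (av ℓ i (fun Y => (di i c u Y) ^ 2)) := fun c =>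
    (hAVA ι ℓ hℓ i _ (hdu c)).1
  have hI1 : Integrable (fun X => 1 / 6 * T1 X) (PiM ι ℓ) := integ hBMC (smul hBMC hT1b _) _
  have hSB : BM (fun X => ∑ p ∈ D2 i, ∑ p' ∈ D2 i, B p p' X) :=
    sum hBMC _ _ fun p _ => sum hBMC _ _ fun p' _ => hBb p p'
  have hI2 : Integrable (fun X => 1 / 4 * ∑ p ∈ D2 i, ∑ p' ∈ D2 i, B p p' X) (PiM ι ℓ) :=
    integ hBMC (smul hBMC hSB _) _
  have hI3 : Integrable (fun X => ∑ p ∈ D2 i, ∑ c, av ℓ i (D p c) X) (PiM ι ℓ) :=
    integ hBMC (sum hBMC _ _ fun p _ => sum hBMC _ _ fun c _ => hAvD p c) _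
  have hI4 : Integrable (fun X => ∑ c, av ℓ i (fun Y => (di i c u Y) ^ 2) X) (PiM ι ℓ) :=
    integ hBMC (sum hBMC _ _ fun c _ => hAvd c) _
  have hmain := integral_mono ((hI1.sub hI2).sub hI3) hI4 hpt
  have j1 : ∫ X, ((fun X => 1 / 6 * T1 X) - (fun X => 1 / 4 * ∑ p ∈ D2 i, ∑ p' ∈ D2 i, B p p' X) -
      fun X => ∑ p ∈ D2 i, ∑ c, av ℓ i (D p c) X) X ∂(PiM ι ℓ) =
      1 / 6 * qI ℓ κ i u - 1 / 4 * ∑ p ∈ D2 i, ∑ p' ∈ D2 i, Bf ℓ κ φ u i p.1 p.2 p'.1 p'.2 -
      ∑ p ∈ D2 i, ∑ c, ∫ X, di i c u X * dk c φ (X i) (X p.1) (X p.2) * A3 ℓ i p.1 p.2 u X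
        ∂(PiM ι ℓ) := by
    rw [integral_sub' (hI1.sub hI2) hI3, integral_sub' hI1 hI2, integral_const_mul,
      integral_const_mul]
    congr 1
    · congr 1
      congr 1
      rw [integral_finsetSum _ fun p _ => integ hBMC (sum hBMC _ _ fun p' _ => hBb p p') _]
      refine Finset.sum_congr rfl fun p _ => ?_
      rw [integral_finsetSum _ fun p' _ => integ hBMC (hBb p p') _]
      rfl
    · rw [integral_finsetSum _ fun p _ => integ hBMC (sum hBMC _ _ fun c _ => hAvD p c) _]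
      refine Finset.sum_congr rfl fun p _ => ?_
      rw [integral_finsetSum _ fun c _ => integ hBMC (hAvD p c) _]
      refine Finset.sum_congr rfl fun c _ => ?_
      exact (hAVA ι ℓ hℓ i (D p c) (hDb p c)).2.1
  have j2 : ∫ X, ∑ c, av ℓ i (fun Y => (di i c u Y) ^ 2) X ∂(PiM ι ℓ) =
      ∑ c, ∫ X, (di i c u X) ^ 2 ∂(PiM ι ℓ) := by
    rw [integral_finsetSum _ fun c _ => integ hBMC (hAvd c) _]
    refine Finset.sum_congr rfl fun c _ => ?_
    exact (hAVA ι ℓ hℓ i _ (hdu c)).2.1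
  rw [j2] at hmain
  refine le_trans (le_of_eq ?_) hmain
  rw [← j1]

end Pool.Agent.TBL
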