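import Pool.Agent.TBL.Stmts

/-! # LOB: the lower bound for all `b` -/

set_option autoImplicit false

open MeasureTheory Filter Topology
open scoped ContDiff

namespace Pool.Agent.TBL

open Pool.Agent.TBG

namespace LOB_

theorem vv_scale (hLTR : Pool.Agent.TBG.Stmt_LTR) {φ : E × E → ℝ} (hφ : ContDiff ℝ ∞ φ) (r : ℝ)
    (x y : E) : VV (fun z => φ (r⁻¹ • z)) x y = (r ^ 2)⁻¹ * VV φ (r⁻¹ • x) (r⁻¹ • y) := by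
  have h := ((hLTR φ hφ).2.1 r⁻¹ (x, y)).1
  unfold VV ww
  rw [h]
  have e : r⁻¹ • (x, y) = (r⁻¹ • x, r⁻¹ • y) := rfl
  rw [e]
  show -(r⁻¹ ^ 2 * Lap φ (r⁻¹ • x, r⁻¹ • y)) / (1 - φ (r⁻¹ • (x, y))) = _
  rw [e, inv_pow]
  ring

end LOB_

open LOB_ in
theorem lob_proof (hSCA : Stmt_SCA) (hCO0 : Stmt_CO0) (hFVL : Stmt_FVL) (hSCX : Stmt_SCX)
    (hDEN : Stmt_DEN) (hTHE : Pool.Agent.TBG.Stmt_THE) (hBME : Pool.Agent.TBG.Stmt_BME)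
    (hADM : Pool.Agent.TBG.Stmt_ADM) (hSCL : Pool.Agent.TBG.Stmt_SCL)
    (hLTR : Pool.Agent.TBG.Stmt_LTR) : Stmt_LOB := by
  intro b hb
  obtain ⟨hS, _, hb₀⟩ := hSCA
  obtain ⟨b₀, hb₀e⟩ : ∃ b₀ : ℝ, b₀ = ∫ z, ww phi0 z := ⟨_, rfl⟩
  rw [← hb₀e] at hb₀
  obtain ⟨r, hr, hr4⟩ : ∃ r : ℝ, 0 < r ∧ r ^ 4 * b₀ = b := by
    refine ⟨(b / b₀) ^ (1 / 4 : ℝ), Real.rpow_pos_of_pos (div_pos hb hb₀) _, ?_⟩
    have h1 : ((b / b₀) ^ (1 / 4 : ℝ)) ^ 4 = b / b₀ := by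
      rw [← Real.rpow_natCast, ← Real.rpow_mul (div_pos hb hb₀).le]
      norm_num
    rw [h1, div_mul_cancel₀ _ hb₀.ne']
  obtain ⟨hS', hw', _⟩ := hSCL phi0 r hr hS
  rw [← hb₀e, hr4] at hw'
  obtain ⟨hA, hCt, _⟩ := hADM _ hS'
  have hT0 : TLB (VV phi0) b₀ := by
    have h := hCO0
    unfold Stmt_CO0 at h
    rw [← hb₀e] at h
    exact hFVL _ _ (hADM _ hS).1 hb₀ h
  have hT : TLB (VV (fun z => phi0 (r⁻¹ • z))) b := by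
    rw [← hr4]
    exact hSCX (VV phi0) _ b₀ r hr (hADM _ hS).1 (fun x y => vv_scale hLTR hS.smooth r x y) hT0
  refine ⟨VV (fun z => phi0 (r⁻¹ • z)), hA, hCt, ?_, ?_⟩
  · rw [hBME _ hS', hw']
  · obtain ⟨K, ρ₀, δ, hK, hρ₀, hδ, hT⟩ := hT
    refine ⟨2 * K, ρ₀, by linarith, hρ₀, ?_⟩
    intro ρ hρ hρ'
    obtain ⟨_, _, t3, t4, t5⟩ := hTHE ρ hρ
    have hε : 0 < 2 * K * ρ ^ 2 / b := by positivity
    filter_upwards [t3.eventually_ge_atTop (δ / ρ), t5,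
      t4.eventually (lt_mem_nhds (show ρ - 2 * K * ρ ^ 2 / b < ρ by linarith))] with p h1 h2 h3
    have h4 := hDEN _ p.1 p.2 _ hA hCt h2 (hT ρ hρ hρ' p.2 h1 p.1)
    have hL3 : 0 < p.2 ^ 3 := pow_pos h2 3
    rw [le_div_iff₀ hL3]
    refine le_trans ?_ h4
    rw [lt_div_iff₀ hL3] at h3
    have h5 : ρ ^ 2 * b / 2 * ((ρ - 2 * K * ρ ^ 2 / b) * p.2 ^ 3) ≤ ρ ^ 2 * b / 2 * (p.1 : ℝ) :=
      mul_le_mul_of_nonneg_left h3.le (by positivity)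
    have h6 : ρ ^ 2 * b / 2 * ((ρ - 2 * K * ρ ^ 2 / b) * p.2 ^ 3) =
        (ρ ^ 3 * b / 2 - K * ρ ^ 4) * p.2 ^ 3 := by
      field_simp
    rw [h6] at h5
    linarith

end Pool.Agent.TBL
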