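import Pool.Agent.TBL.Stmts

/-!
# Squad TBL (MP_80dc41_mp), module MEP: the product measure
-/

set_option autoImplicit false

open MeasureTheory Filter Topology

namespace Pool.Agent.TBL

open Pool.Agent.TBG

namespace MEP_

theorem pi_smul {ι : Type} [Fintype ι] (c : ENNReal) (hc : c ≠ ⊤) (μ : Measure E) [IsFiniteMeasure μ] :
    Measure.pi (fun _ : ι => c • μ) = c ^ Fintype.card ι • Measure.pi (fun _ : ι => μ) := by
  haveI : IsFiniteMeasure (c • μ) := by
    refine ⟨?_⟩
    rw [Measure.smul_apply, smul_eq_mul]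
    exact ENNReal.mul_lt_top hc.lt_top (measure_lt_top μ _)
  refine Measure.pi_eq (fun s _ => ?_)
  rw [Measure.smul_apply, Measure.pi_pi, smul_eq_mul]
  simp only [Measure.smul_apply, smul_eq_mul]
  rw [Finset.prod_mul_distrib, Finset.prod_const, Finset.card_univ]

end MEP_

open MEP_ in
theorem mep_proof (hMES : Stmt_MES) : Stmt_MEP := by
  intro ι _ ℓ hℓ
  obtain ⟨m1, m2, m3, m4, m5, m6, m7, m8⟩ := hMES ℓ hℓ
  haveI := m4
  have hfin : IsFiniteMeasure ((volume : Measure E).restrict (Lam ℓ)) := by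
    refine ⟨?_⟩
    rw [Measure.restrict_apply_univ, m3]
    exact ENNReal.ofReal_lt_top
  refine ⟨?_, ?_, ?_⟩
  · unfold PiM
    infer_instance
  · rw [ae_all_iff]
    intro i
    exact (Measure.quasiMeasurePreserving_eval (fun _ : ι => nuc ℓ) i).ae m6
  · intro F
    have hc : (ENNReal.ofReal (ℓ ^ 3))⁻¹ ≠ ⊤ := by
      rw [Ne, ENNReal.inv_eq_top, ENNReal.ofReal_eq_zero, not_le]
      positivity
    have h1 : PiM ι ℓ = (ENNReal.ofReal (ℓ ^ 3))⁻¹ ^ Fintype.card ι •
        ((volume : Measure (ι → E)).restrict {X : ι → E | ∀ i, X i ∈ Lam ℓ}) := by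
      unfold PiM nuc
      rw [pi_smul _ hc]
      congr 1
      have h2 : {X : ι → E | ∀ i, X i ∈ Lam ℓ} = Set.univ.pi (fun _ : ι => Lam ℓ) := by
        ext X
        simp
      rw [h2, volume_pi]
      exact (Measure.restrict_pi_pi (fun _ : ι => (volume : Measure E)) (fun _ : ι => Lam ℓ)).symm
    rw [h1, integral_smul_measure, smul_eq_mul]
    congr 1
    rw [ENNReal.toReal_pow, ENNReal.toReal_inv, ENNReal.toReal_ofReal (by positivity), inv_pow]

end Pool.Agent.TBL
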