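import Pool.Agent.TBL.Stmts

/-! # MES: the measure of the cube -/

set_option autoImplicit false

open MeasureTheory Filter Topology

namespace Pool.Agent.TBL

open Pool.Agent.TBG

namespace MES_

/-- the open cube -/
def Lo (l : ℝ) : Set E := {x | ∀ c, 0 < x c ∧ x c < l}

theorem preim (l : ℝ) : (MeasurableEquiv.toLp 2 (Fin 3 → ℝ)) ⁻¹' (Lam l)
    = Set.pi Set.univ (fun _ : Fin 3 => Set.Icc 0 l) := by
  ext x
  constructor
  · intro h c _
    exact h c
  · intro h c
    exact h c (Set.mem_univ c)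

theorem preimo (l : ℝ) : (MeasurableEquiv.toLp 2 (Fin 3 → ℝ)) ⁻¹' (Lo l)
    = Set.pi Set.univ (fun _ : Fin 3 => Set.Ioo 0 l) := by
  ext x
  constructor
  · intro h c _
    exact h c
  · intro h c
    exact h c (Set.mem_univ c)

theorem meas (l : ℝ) : MeasurableSet (Lam l) := by
  have h : MeasurableSet ((MeasurableEquiv.toLp 2 (Fin 3 → ℝ)) ⁻¹' (Lam l)) := by
    rw [preim]
    exact MeasurableSet.univ_pi (fun _ => measurableSet_Icc)
  exact (MeasurableEquiv.measurableSet_preimage _).mp h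

theorem measo (l : ℝ) : MeasurableSet (Lo l) := by
  have h : MeasurableSet ((MeasurableEquiv.toLp 2 (Fin 3 → ℝ)) ⁻¹' (Lo l)) := by
    rw [preimo]
    exact MeasurableSet.univ_pi (fun _ => measurableSet_Ioo)
  exact (MeasurableEquiv.measurableSet_preimage _).mp h

theorem vol {l : ℝ} (hl : 0 < l) : volume (Lam l) = ENNReal.ofReal (l ^ 3) := by
  have hp := (EuclideanSpace.volume_preserving_symm_measurableEquiv_toLp (Fin 3)).symm
  have h1 := hp.measure_preimage (meas l).nullMeasurableSet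
  rw [← h1]
  have h2 : (MeasurableEquiv.toLp 2 (Fin 3 → ℝ)).symm.symm ⁻¹' (Lam l)
    = Set.pi Set.univ (fun _ : Fin 3 => Set.Icc 0 l) := preim l
  rw [h2, volume_pi_pi]
  simp only [Real.volume_Icc, Finset.prod_const, Finset.card_univ, Fintype.card_fin, sub_zero]
  rw [← ENNReal.ofReal_pow hl.le]

theorem volo {l : ℝ} (hl : 0 < l) : volume (Lo l) = ENNReal.ofReal (l ^ 3) := by
  have hp := (EuclideanSpace.volume_preserving_symm_measurableEquiv_toLp (Fin 3)).symm
  have h1 := hp.measure_preimage (measo l).nullMeasurableSet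
  rw [← h1]
  have h2 : (MeasurableEquiv.toLp 2 (Fin 3 → ℝ)).symm.symm ⁻¹' (Lo l)
    = Set.pi Set.univ (fun _ : Fin 3 => Set.Ioo 0 l) := preimo l
  rw [h2, volume_pi_pi]
  simp only [Real.volume_Ioo, Finset.prod_const, Finset.card_univ, Fintype.card_fin, sub_zero]
  rw [← ENNReal.ofReal_pow hl.le]

theorem compact (l : ℝ) : IsCompact (Lam l) := by
  have h1 : IsCompact (Set.pi Set.univ (fun _ : Fin 3 => Set.Icc (0 : ℝ) l)) :=
    isCompact_univ_pi fun _ => isCompact_Icc
  have h2 : Lam l = (WithLp.toLp 2) '' (Set.pi Set.univ (fun _ : Fin 3 => Set.Icc (0 : ℝ) l)) := by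
    ext x
    constructor
    · intro h
      exact ⟨WithLp.ofLp x, fun c _ => h c, rfl⟩
    · rintro ⟨y, hy, rfl⟩ c
      exact hy c (Set.mem_univ c)
  rw [h2]
  exact h1.image (PiLp.continuous_toLp 2 _)

theorem lo_sub (l : ℝ) : Lo l ⊆ Lam l := fun _ h c => ⟨(h c).1.le, (h c).2.le⟩

theorem ae_lo {l : ℝ} (hl : 0 < l) : ∀ᵐ x ∂(volume.restrict (Lam l)), x ∈ Lam l ∧ x ∈ Lo l := by
  rw [ae_restrict_iff' (meas l), ae_iff]
  have h1 : {x : E | ¬ (x ∈ Lam l → x ∈ Lam l ∧ x ∈ Lo l)} = Lam l \ Lo l := by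
    ext x
    simp only [Set.mem_setOf_eq, Set.mem_diff]
    tauto
  rw [h1, measure_diff (lo_sub l) (measo l).nullMeasurableSet (by
    rw [volo hl]; exact ENNReal.ofReal_ne_top), vol hl, volo hl, tsub_self]

end MES_

open MES_ in
theorem mes_proof : Stmt_MES := by
  intro l hl
  have hl3 : 0 < l ^ 3 := pow_pos hl 3
  have hc0 : ENNReal.ofReal (l ^ 3) ≠ 0 := by
    rw [Ne, ENNReal.ofReal_eq_zero]
    linarith
  have hct : (ENNReal.ofReal (l ^ 3))⁻¹ ≠ ⊤ := ENNReal.inv_ne_top.mpr hc0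
  have hint : ∀ f : E → ℝ, ∫ x, f x ∂(nuc l) = (l ^ 3)⁻¹ * ∫ x in Lam l, f x := by
    intro f
    unfold nuc
    rw [integral_smul_measure, ENNReal.toReal_inv, ENNReal.toReal_ofReal hl3.le, smul_eq_mul]
  refine ⟨meas l, compact l, vol hl, ⟨?_⟩, hint, ?_, ?_, ?_⟩
  · unfold nuc
    rw [Measure.smul_apply, Measure.restrict_apply_univ, vol hl, smul_eq_mul]
    exact ENNReal.inv_mul_cancel hc0 ENNReal.ofReal_ne_top
  · unfold nuc
    exact Measure.ae_smul_measure (ae_lo hl) _
  · intro f hf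
    unfold nuc
    exact (hf.continuousOn.integrableOn_compact (compact l)).smul_measure hct
  · intro f h0 hf
    refine ⟨?_, ?_⟩
    · unfold nuc
      exact (hf.restrict).smul_measure hct
    · rw [hint]
      apply mul_le_mul_of_nonneg_left _ (inv_nonneg.mpr hl3.le)
      exact setIntegral_le_integral hf (Eventually.of_forall h0)

end Pool.Agent.TBL
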