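import Pool.Agent.TBL.Stmts

/-!
# Three-body Bose gases (MP_80dc41_mp), lower bound: singular powers
-/

set_option autoImplicit false

open MeasureTheory Filter Topology

namespace Pool.Agent.TBL

open Pool.Agent.TBG

namespace NPP_

/-- truncated power -/
noncomputable def gp (p t : ℝ) : ℝ := if t < 1 then t ^ (-p) else 0

theorem gp_nonneg (p t : ℝ) (ht : 0 ≤ t) : 0 ≤ gp p t := by
  unfold gp
  split_ifs
  · exact Real.rpow_nonneg ht _
  · exact le_rfl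

theorem finrank_E : Module.finrank ℝ E = 3 := by simp

theorem integrable_gp (p : ℝ) (hp : p < 3) : Integrable (fun h : E => gp p ‖h‖) volume := by
  rw [MeasureTheory.integrable_fun_norm_addHaar (μ := (volume : Measure E)) (f := gp p), finrank_E]
  have h1 : IntegrableOn (fun y : ℝ => y ^ (2 - p)) (Set.Ioo 0 1) volume := by
    have := (intervalIntegral.intervalIntegrable_rpow' (a := 0) (b := 1) (r := 2 - p) (by linarith)).1
    exact this.mono_set Set.Ioo_subset_Ioc_self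
  have h2 : IntegrableOn (fun y : ℝ => y ^ (3 - 1) • gp p y) (Set.Ioo 0 1) volume := by
    refine h1.congr_fun (fun y hy => ?_) measurableSet_Ioo
    simp only [gp, hy.2, if_true, smul_eq_mul]
    rw [show (2 : ℝ) - p = ((3 - 1 : ℕ) : ℝ) + -p by norm_num; ring, Real.rpow_add hy.1, Real.rpow_natCast]
  have h3 : IntegrableOn (fun y : ℝ => y ^ (3 - 1) • gp p y) (Set.Ici 1) volume := by
    have : IntegrableOn (fun _ : ℝ => (0 : ℝ)) (Set.Ici 1) volume := integrableOn_zero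
    refine this.congr_fun (fun y hy => ?_) measurableSet_Ici
    have hy' : ¬ y < 1 := not_lt.2 (Set.mem_Ici.1 hy)
    simp only [gp, hy', if_false, smul_zero]
  have h4 : Set.Ioi (0 : ℝ) = Set.Ioo 0 1 ∪ Set.Ici 1 := by
    rw [Set.Ioo_union_Ici_eq_Ioi]; norm_num
  rw [h4]
  exact h2.union h3

theorem scale_int (p ℓ : ℝ) (hp : p < 3) (hℓ : 0 < ℓ) (x : E) :
    Integrable (fun y : E => ℓ ^ (-p) * gp p ‖ℓ⁻¹ • (x - y)‖) volume := by
  have h1 := (integrable_gp p hp).comp_smul (inv_ne_zero hℓ.ne')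
  exact (h1.comp_sub_left x).const_mul _

theorem scale_val (p ℓ : ℝ) (hℓ : 0 < ℓ) (x : E) :
    ∫ y : E, ℓ ^ (-p) * gp p ‖ℓ⁻¹ • (x - y)‖ = ℓ ^ (-p) * (ℓ ^ 3 * ∫ h : E, gp p ‖h‖) := by
  rw [integral_const_mul, integral_sub_left_eq_self (fun h : E => gp p ‖ℓ⁻¹ • h‖) volume x,
    Measure.integral_comp_smul volume (fun h : E => gp p ‖h‖) ℓ⁻¹, finrank_E]
  congr 1
  rw [smul_eq_mul, inv_pow, inv_inv, abs_of_pos (by positivity)]

theorem split (p ℓ : ℝ) (hp : 0 < p) (hℓ : 0 < ℓ) (x y : E) :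
    ‖x - y‖ ^ (-p) ≤ ℓ ^ (-p) * gp p ‖ℓ⁻¹ • (x - y)‖ + ℓ ^ (-p) := by
  rw [norm_smul, Real.norm_eq_abs, abs_of_pos (inv_pos.2 hℓ)]
  have hl : 0 ≤ ℓ ^ (-p) := Real.rpow_nonneg hℓ.le _
  unfold gp
  split_ifs with h
  · rw [Real.mul_rpow (inv_pos.2 hℓ).le (norm_nonneg _), ← mul_assoc, Real.inv_rpow hℓ.le,
      mul_inv_cancel₀ (Real.rpow_pos_of_pos hℓ _).ne', one_mul]
    linarith
  · rw [mul_zero, zero_add]
    have : ℓ ≤ ‖x - y‖ := by
      rw [not_lt, ← div_eq_inv_mul, le_div_iff₀ hℓ, one_mul] at h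
      exact h
    exact Real.rpow_le_rpow_of_nonpos hℓ this (by linarith)

end NPP_

open NPP_ in
theorem npp_proof (hMES : Stmt_MES) : Stmt_NPP := by
  intro p hp hp3
  refine ⟨(∫ h : E, gp p ‖h‖) + 1, ?_, ?_⟩
  · have : 0 ≤ ∫ h : E, gp p ‖h‖ := integral_nonneg (fun h => gp_nonneg p _ (norm_nonneg _))
    linarith
  · intro ℓ hℓ x
    obtain ⟨-, -, -, hprob, -, -, -, hnn⟩ := hMES ℓ hℓ
    obtain ⟨hi, hle⟩ := hnn (fun y : E => ℓ ^ (-p) * gp p ‖ℓ⁻¹ • (x - y)‖)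
      (fun y => mul_nonneg (Real.rpow_nonneg hℓ.le _) (gp_nonneg p _ (norm_nonneg _)))
      (scale_int p ℓ hp3 hℓ x)
    have hi2 : Integrable (fun y : E => ℓ ^ (-p) * gp p ‖ℓ⁻¹ • (x - y)‖ + ℓ ^ (-p)) (nuc ℓ) :=
      hi.add (integrable_const _)
    have hi3 : Integrable (fun y : E => ‖x - y‖ ^ (-p)) (nuc ℓ) := by
      refine hi2.mono' ?_ (Eventually.of_forall (fun y => ?_))
      · exact (Measurable.pow_const (by fun_prop) _).aestronglyMeasurable
      · rw [Real.norm_eq_abs, abs_of_nonneg (Real.rpow_nonneg (norm_nonneg _) _)]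
        exact split p ℓ hp hℓ x y
    refine ⟨hi3, ?_⟩
    refine (integral_mono hi3 hi2 (split p ℓ hp hℓ x)).trans ?_
    rw [integral_add hi (integrable_const _), integral_const]
    rw [scale_val p ℓ hℓ x] at hle
    have e1 : (ℓ ^ 3)⁻¹ * (ℓ ^ (-p) * (ℓ ^ 3 * ∫ h : E, gp p ‖h‖)) = ℓ ^ (-p) * ∫ h : E, gp p ‖h‖ := by
      have : ℓ ^ 3 ≠ 0 := by positivity
      field_simp
    rw [e1] at hle
    simp only [probReal_univ, one_smul]
    linarith

end Pool.Agent.TBL
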