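import Pool.Agent.TBL.Stmts

/-! # NQQ: decaying powers -/

set_option autoImplicit false

open MeasureTheory Filter Topology

namespace Pool.Agent.TBL

open Pool.Agent.TBG

namespace NQQ_

theorem fr : Module.finrank ℝ E = 3 := by simp

theorem int1 {p : ℝ} (hp : 3 < p) : Integrable (fun t : E => (1 + ‖t‖) ^ (-p)) := by
  refine integrable_one_add_norm ?_
  rw [fr]
  exact_mod_cast hp

theorem scale {p A : ℝ} (hA : 0 < A) (t : E) :
    (A + ‖t‖) ^ (-p) = A ^ (-p) * (1 + ‖A⁻¹ • t‖) ^ (-p) := by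
  have h1 : A + ‖t‖ = A * (1 + ‖A⁻¹ • t‖) := by
    rw [norm_smul, Real.norm_of_nonneg (inv_nonneg.2 hA.le)]
    field_simp
  rw [h1, Real.mul_rpow hA.le (by positivity)]

theorem int2 {p A : ℝ} (hp : 3 < p) (hA : 0 < A) : Integrable (fun t : E => (A + ‖t‖) ^ (-p)) := by
  have h : (fun t : E => (A + ‖t‖) ^ (-p)) =
      fun t : E => A ^ (-p) * (1 + ‖A⁻¹ • t‖) ^ (-p) := funext fun t => scale hA t
  rw [h]
  exact ((int1 hp).comp_smul (inv_ne_zero hA.ne')).const_mul _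

theorem val2 {p A : ℝ} (hA : 0 < A) : ∫ t : E, (A + ‖t‖) ^ (-p) =
    (∫ t : E, (1 + ‖t‖) ^ (-p)) * A ^ (3 - p) := by
  have h : (fun t : E => (A + ‖t‖) ^ (-p)) =
      fun t : E => A ^ (-p) * (1 + ‖A⁻¹ • t‖) ^ (-p) := funext fun t => scale hA t
  rw [h, integral_const_mul,
    Measure.integral_comp_smul volume (fun t : E => (1 + ‖t‖) ^ (-p)) A⁻¹, fr, smul_eq_mul]
  have h3 : |((A⁻¹) ^ 3)⁻¹| = A ^ (3 : ℝ) := by
    rw [abs_of_nonneg (by positivity), inv_pow, inv_inv]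
    exact (Real.rpow_natCast A 3).symm
  rw [h3, sub_eq_add_neg, Real.rpow_add hA]
  ring

end NQQ_

open NQQ_ in
theorem nqq_proof (hMES : Stmt_MES) : Stmt_NQQ := by
  intro p hp
  have hI : 0 ≤ ∫ t : E, (1 + ‖t‖) ^ (-p) := integral_nonneg fun t => by positivity
  refine ⟨(∫ t : E, (1 + ‖t‖) ^ (-p)) + 1, by linarith, ?_⟩
  intro ℓ hℓ A hA x
  obtain ⟨_, _, _, _, _, _, _, h8⟩ := hMES ℓ hℓ
  obtain ⟨_, h9⟩ := h8 (fun y => (A + ‖x - y‖) ^ (-p)) (fun y => by positivity)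
    ((int2 hp hA).comp_sub_left x)
  have h10 : ∫ y : E, (A + ‖x - y‖) ^ (-p) = ∫ t : E, (A + ‖t‖) ^ (-p) :=
    integral_sub_left_eq_self (fun t : E => (A + ‖t‖) ^ (-p)) volume x
  rw [h10, val2 hA] at h9
  refine h9.trans ?_
  have hAp : 0 ≤ A ^ (3 - p) := by positivity
  have hl : 0 ≤ (ℓ ^ 3)⁻¹ := by positivity
  have h11 : 0 ≤ (ℓ ^ 3)⁻¹ * A ^ (3 - p) := mul_nonneg hl hAp
  nlinarith

end Pool.Agent.TBL
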