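import Pool.Agent.TBL.Stmts

/-!
# TBL, module NUA: numerical integrals
-/

set_option autoImplicit false

open MeasureTheory Filter Topology
open scoped ContDiff

namespace Pool.Agent.TBL

open Pool.Agent.TBG

namespace NUA_

theorem rp (n : ℕ) {t : ℝ} (ht : 0 ≤ t) : t ^ (-(n : ℝ)) = (t ^ n)⁻¹ := by
  rw [Real.rpow_neg ht, Real.rpow_natCast]

theorem rp4 {t : ℝ} (ht : 0 ≤ t) : t ^ (-(4 : ℝ)) = (t ^ 4)⁻¹ := by
  have := rp 4 ht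
  exact_mod_cast this

theorem rp10 {t : ℝ} (ht : 0 ≤ t) : t ^ (-(10 : ℝ)) = (t ^ 10)⁻¹ := by
  have := rp 10 ht
  exact_mod_cast this

theorem rp5 {t : ℝ} (ht : 0 ≤ t) : t ^ (-(5 : ℝ)) = (t ^ 5)⁻¹ := by
  have := rp 5 ht
  exact_mod_cast this

theorem rp2 {t : ℝ} (ht : 0 ≤ t) : t ^ (-(2 : ℝ)) = (t ^ 2)⁻¹ := by
  have := rp 2 ht
  exact_mod_cast this

theorem half (x y z : E) : 1 / 2 * ((1 + ‖y - z‖) + ‖y - x‖) ≤ 1 + ‖x - y‖ + ‖x - z‖ := by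
  have h1 : ‖y - z‖ ≤ ‖y - x‖ + ‖x - z‖ := by
    have := norm_sub_le_norm_sub_add_norm_sub y x z
    exact this
  have h2 : ‖x - y‖ = ‖y - x‖ := norm_sub_rev x y
  have h3 := norm_nonneg (x - z)
  rw [h2]
  linarith

theorem half_pow (n : ℕ) (x y z : E) : ((1 + ‖x - y‖ + ‖x - z‖) ^ n)⁻¹ ≤
    2 ^ n * (((1 + ‖y - z‖) + ‖y - x‖) ^ n)⁻¹ := by
  have h0 : 0 < (1 + ‖y - z‖) + ‖y - x‖ := by positivity
  have h1 := half x y z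
  have h2 : (1 / 2 * ((1 + ‖y - z‖) + ‖y - x‖)) ^ n ≤ (1 + ‖x - y‖ + ‖x - z‖) ^ n :=
    pow_le_pow_left₀ (by positivity) h1 n
  have h3 : ((1 + ‖x - y‖ + ‖x - z‖) ^ n)⁻¹ ≤ ((1 / 2 * ((1 + ‖y - z‖) + ‖y - x‖)) ^ n)⁻¹ :=
    inv_anti₀ (by positivity) h2
  refine h3.trans (le_of_eq ?_)
  rw [mul_pow, mul_inv]
  congr 1
  rw [one_div, inv_pow, inv_inv]

theorem cont1 (n : ℕ) (x : E) (A : ℝ) (hA : 0 < A) :
    Continuous (fun y : E => ((A + ‖x - y‖) ^ n)⁻¹) := by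
  refine Continuous.inv₀ (by fun_prop) fun y => ?_
  positivity

theorem cont2 (n : ℕ) (y z : E) :
    Continuous (fun x : E => ((1 + ‖x - y‖ + ‖x - z‖) ^ n)⁻¹) := by
  refine Continuous.inv₀ (by fun_prop) fun x => ?_
  positivity

/-- the integrals of `D⁻ⁿ` in the first variable -/
theorem first (hMES : Stmt_MES) {ℓ : ℝ} (hℓ : 0 < ℓ) (n : ℕ) (y z : E) {B : ℝ}
    (hB : ∫ x, (((1 + ‖y - z‖) + ‖y - x‖) ^ n)⁻¹ ∂(nuc ℓ) ≤ B) :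
    ∫ x, ((1 + ‖x - y‖ + ‖x - z‖) ^ n)⁻¹ ∂(nuc ℓ) ≤ 2 ^ n * B := by
  obtain ⟨-, -, -, hp, -, -, hc, -⟩ := hMES ℓ hℓ
  have i1 : Integrable (fun x : E => ((1 + ‖x - y‖ + ‖x - z‖) ^ n)⁻¹) (nuc ℓ) :=
    hc _ (cont2 n y z)
  have i2 : Integrable (fun x : E => 2 ^ n * (((1 + ‖y - z‖) + ‖y - x‖) ^ n)⁻¹) (nuc ℓ) :=
    (hc _ (cont1 n y (1 + ‖y - z‖) (by positivity))).const_mul _
  calc ∫ x, ((1 + ‖x - y‖ + ‖x - z‖) ^ n)⁻¹ ∂(nuc ℓ)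
      ≤ ∫ x, 2 ^ n * (((1 + ‖y - z‖) + ‖y - x‖) ^ n)⁻¹ ∂(nuc ℓ) :=
        integral_mono i1 i2 fun x => half_pow n x y z
    _ = 2 ^ n * ∫ x, (((1 + ‖y - z‖) + ‖y - x‖) ^ n)⁻¹ ∂(nuc ℓ) := integral_const_mul _ _
    _ ≤ 2 ^ n * B := mul_le_mul_of_nonneg_left hB (by positivity)

theorem null (ℓ : ℝ) (x : E) : ∀ᵐ z ∂(nuc ℓ), z ≠ x := by
  rw [ae_iff]
  have h1 : {a : E | ¬ a ≠ x} = {x} := by
    ext a
    simp
  rw [h1]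
  unfold nuc
  rw [Measure.smul_apply, Measure.restrict_apply (measurableSet_singleton x)]
  have h2 : volume ({x} ∩ Lam ℓ) = 0 :=
    measure_mono_null Set.inter_subset_left (measure_singleton x)
  rw [h2, smul_zero]

theorem eight (x y z : E) : ((1 + ‖x - y‖ + ‖x - z‖) ^ 8)⁻¹ ≤
    ((1 + ‖x - y‖) ^ 4)⁻¹ * ((1 + ‖x - z‖) ^ 4)⁻¹ := by
  have h1 := norm_nonneg (x - y)
  have h2 := norm_nonneg (x - z)
  rw [← mul_inv]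
  apply inv_anti₀ (by positivity)
  calc (1 + ‖x - y‖) ^ 4 * (1 + ‖x - z‖) ^ 4
      ≤ (1 + ‖x - y‖ + ‖x - z‖) ^ 4 * (1 + ‖x - y‖ + ‖x - z‖) ^ 4 := by
        apply mul_le_mul
        · exact pow_le_pow_left₀ (by positivity) (by linarith) 4
        · exact pow_le_pow_left₀ (by positivity) (by linarith) 4
        · positivity
        · positivity
    _ = (1 + ‖x - y‖ + ‖x - z‖) ^ 8 := by ring

theorem double (hBMC : Stmt_BMC) (hMES : Stmt_MES) {ℓ : ℝ} (hℓ : 0 < ℓ) (x : E) {B : ℝ}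
    (hB : ∫ y, ((1 + ‖x - y‖) ^ 4)⁻¹ ∂(nuc ℓ) ≤ B) :
    ∫ y, ∫ z, ((1 + ‖x - y‖ + ‖x - z‖) ^ 8)⁻¹ ∂(nuc ℓ) ∂(nuc ℓ) ≤ B ^ 2 := by
  obtain ⟨-, -, -, hp, -, -, hc, -⟩ := hMES ℓ hℓ
  have hbm : BM (fun p : E × E => ((1 + ‖x - p.1‖ + ‖x - p.2‖) ^ 8)⁻¹) := by
    constructor
    · apply Continuous.measurable
      refine Continuous.inv₀ (by fun_prop) fun y => ?_
      positivity
    · refine ⟨1, fun p => ?_⟩
      rw [abs_of_nonneg (by positivity)]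
      apply inv_le_one_of_one_le₀
      apply one_le_pow₀
      have h1 := norm_nonneg (x - p.1)
      have h2 := norm_nonneg (x - p.2)
      linarith
  have hbm2 := hBMC.2.2.2.2 E E (nuc ℓ) _ hbm
  have i1 : Integrable (fun y : E => ∫ z, ((1 + ‖x - y‖ + ‖x - z‖) ^ 8)⁻¹ ∂(nuc ℓ)) (nuc ℓ) :=
    (hBMC.1 E _ _ hbm2 hbm2).2.2.2.2.2.2 (nuc ℓ)
  have j1 : Integrable (fun y : E => ((1 + ‖x - y‖) ^ 4)⁻¹) (nuc ℓ) :=
    hc _ (cont1 4 x 1 one_pos)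
  have h0 : 0 ≤ ∫ y, ((1 + ‖x - y‖) ^ 4)⁻¹ ∂(nuc ℓ) :=
    integral_nonneg fun y => by positivity
  calc ∫ y, ∫ z, ((1 + ‖x - y‖ + ‖x - z‖) ^ 8)⁻¹ ∂(nuc ℓ) ∂(nuc ℓ)
      ≤ ∫ y, ((1 + ‖x - y‖) ^ 4)⁻¹ * ∫ z, ((1 + ‖x - z‖) ^ 4)⁻¹ ∂(nuc ℓ) ∂(nuc ℓ) := by
        refine integral_mono i1 (j1.mul_const _) fun y => ?_
        show ∫ z, ((1 + ‖x - y‖ + ‖x - z‖) ^ 8)⁻¹ ∂(nuc ℓ) ≤
          ((1 + ‖x - y‖) ^ 4)⁻¹ * ∫ z, ((1 + ‖x - z‖) ^ 4)⁻¹ ∂(nuc ℓ)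
        rw [← integral_const_mul]
        refine integral_mono (hc _ ?_) (j1.const_mul _) fun z => eight x y z
        refine Continuous.inv₀ (by fun_prop) fun z => ?_
        positivity
    _ = (∫ y, ((1 + ‖x - y‖) ^ 4)⁻¹ ∂(nuc ℓ)) * ∫ z, ((1 + ‖x - z‖) ^ 4)⁻¹ ∂(nuc ℓ) :=
        integral_mul_const _ _
    _ ≤ B * B := mul_le_mul hB hB h0 (h0.trans hB)
    _ = B ^ 2 := by ring

end NUA_

open NUA_ in
theorem nua_proof (hBMC : Stmt_BMC) (hMES : Stmt_MES) (hNPP : Stmt_NPP) (hNQQ : Stmt_NQQ) :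
    Stmt_NUA := by
  obtain ⟨C4, hC4, h4⟩ := hNQQ 4 (by norm_num)
  obtain ⟨C10, hC10, h10⟩ := hNQQ 10 (by norm_num)
  obtain ⟨C7, hC7, h7⟩ := hNQQ (7 / 2) (by norm_num)
  obtain ⟨C5, hC5, h5⟩ := hNQQ 5 (by norm_num)
  obtain ⟨C2, hC2, h2⟩ := hNPP 2 (by norm_num) (by norm_num)
  refine ⟨C4 + 2 ^ 10 * C10 + C7 + 2 ^ 5 * C5 + C2 + C4 ^ 2, by positivity, fun ℓ hℓ => ?_⟩
  have hℓ0 : 0 < ℓ := by linarith
  have hℓ3 : 0 < ℓ ^ 3 := by positivity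
  have s4 := sq_nonneg C4
  have mono3 : ∀ {a b t : ℝ}, 0 ≤ t → a ≤ b → a * (ℓ ^ 3)⁻¹ * t ≤ b / ℓ ^ 3 * t := by
    intro a b t ht hab
    rw [div_eq_mul_inv]
    apply mul_le_mul_of_nonneg_right _ ht
    exact mul_le_mul_of_nonneg_right hab (by positivity)
  have ha : ∀ x : E, ∫ y, ((1 + ‖x - y‖) ^ 4)⁻¹ ∂(nuc ℓ) ≤ C4 / ℓ ^ 3 := by
    intro x
    have h := h4 ℓ hℓ0 1 one_pos x
    rw [Real.one_rpow, mul_one, ← div_eq_mul_inv] at h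
    refine le_trans (le_of_eq ?_) h
    refine integral_congr_ae (Eventually.of_forall fun y => ?_)
    show ((1 + ‖x - y‖) ^ 4)⁻¹ = (1 + ‖x - y‖) ^ (-(4 : ℝ))
    rw [rp4 (by positivity)]
  refine ⟨fun x => ?_, fun y z => ?_, fun y => ?_, fun x z => ?_, fun y z => ?_, fun x => ?_,
    fun x => ?_⟩
  · refine (ha x).trans ?_
    apply div_le_div_of_nonneg_right _ hℓ3.le
    linarith
  · have hA : (0 : ℝ) < 1 + ‖y - z‖ := by positivity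
    have h := h10 ℓ hℓ0 (1 + ‖y - z‖) hA y
    have e1 : (fun x : E => ((1 + ‖y - z‖) + ‖y - x‖) ^ (-(10 : ℝ))) =
        fun x : E => (((1 + ‖y - z‖) + ‖y - x‖) ^ 10)⁻¹ := by
      funext x
      exact rp10 (by positivity)
    have e2 : (1 + ‖y - z‖) ^ ((3 : ℝ) - 10) = ((1 + ‖y - z‖) ^ 7)⁻¹ := by
      have : (3 : ℝ) - 10 = -((7 : ℕ) : ℝ) := by norm_num
      rw [this, rp 7 hA.le]
    rw [e1, e2] at h
    refine (first hMES hℓ0 10 y z h).trans ?_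
    have h3 := mono3 (a := 2 ^ 10 * C10) (b := C4 + 2 ^ 10 * C10 + C7 + 2 ^ 5 * C5 + C2 + C4 ^ 2)
      (t := ((1 + ‖y - z‖) ^ 7)⁻¹) (by positivity) (by linarith)
    refine le_trans (le_of_eq ?_) h3
    ring
  · have h := h7 ℓ hℓ0 1 one_pos y
    rw [Real.one_rpow, mul_one, ← div_eq_mul_inv] at h
    have e1 : ∫ z, Real.sqrt (((1 + ‖y - z‖) ^ 7)⁻¹) ∂(nuc ℓ) =
        ∫ z, (1 + ‖y - z‖) ^ (-(7 / 2 : ℝ)) ∂(nuc ℓ) := by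
      refine integral_congr_ae (Eventually.of_forall fun z => ?_)
      show Real.sqrt (((1 + ‖y - z‖) ^ 7)⁻¹) = (1 + ‖y - z‖) ^ (-(7 / 2 : ℝ))
      have hp : (0 : ℝ) ≤ 1 + ‖y - z‖ := by positivity
      rw [Real.sqrt_eq_rpow, ← rp 7 hp, ← Real.rpow_mul hp]
      norm_num
    rw [e1]
    refine h.trans ?_
    apply div_le_div_of_nonneg_right _ hℓ3.le
    linarith
  · have hA : (0 : ℝ) < 1 + ‖x - z‖ := by positivity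
    have h := h5 ℓ hℓ0 (1 + ‖x - z‖) hA x
    have e1 : (fun y : E => ((1 + ‖x - z‖) + ‖x - y‖) ^ (-(5 : ℝ))) =
        fun y : E => ((1 + ‖x - y‖ + ‖x - z‖) ^ 5)⁻¹ := by
      funext y
      rw [rp5 (by positivity)]
      congr 2
      ring
    have e2 : (1 + ‖x - z‖) ^ ((3 : ℝ) - 5) = ((1 + ‖x - z‖) ^ 2)⁻¹ := by
      have : (3 : ℝ) - 5 = -((2 : ℕ) : ℝ) := by norm_num
      rw [this, rp 2 hA.le]
    rw [e1, e2] at h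
    refine h.trans ?_
    exact mono3 (by positivity) (by linarith)
  · have hA : (0 : ℝ) < 1 + ‖y - z‖ := by positivity
    have h := h5 ℓ hℓ0 (1 + ‖y - z‖) hA y
    have e1 : (fun x : E => ((1 + ‖y - z‖) + ‖y - x‖) ^ (-(5 : ℝ))) =
        fun x : E => (((1 + ‖y - z‖) + ‖y - x‖) ^ 5)⁻¹ := by
      funext x
      exact rp5 (by positivity)
    have e2 : (1 + ‖y - z‖) ^ ((3 : ℝ) - 5) = ((1 + ‖y - z‖) ^ 2)⁻¹ := by
      have : (3 : ℝ) - 5 = -((2 : ℕ) : ℝ) := by norm_num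
      rw [this, rp 2 hA.le]
    rw [e1, e2] at h
    refine (first hMES hℓ0 5 y z h).trans ?_
    have h3 := mono3 (a := 2 ^ 5 * C5) (b := C4 + 2 ^ 10 * C10 + C7 + 2 ^ 5 * C5 + C2 + C4 ^ 2)
      (t := ((1 + ‖y - z‖) ^ 2)⁻¹) (by positivity) (by linarith)
    refine le_trans (le_of_eq ?_) h3
    ring
  · obtain ⟨i1, h⟩ := h2 ℓ hℓ0 x
    rw [rp2 hℓ0.le, ← div_eq_mul_inv] at h
    obtain ⟨-, -, -, hp, -, -, hc, -⟩ := hMES ℓ hℓ0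
    have h3 : ∫ z, ((1 + ‖x - z‖) ^ 2)⁻¹ ∂(nuc ℓ) ≤ ∫ z, ‖x - z‖ ^ (-(2 : ℝ)) ∂(nuc ℓ) := by
      refine integral_mono_ae (hc _ (cont1 2 x 1 one_pos)) i1 ?_
      filter_upwards [null ℓ x] with z hz
      have hpos : 0 < ‖x - z‖ := norm_pos_iff.2 (sub_ne_zero.2 (Ne.symm hz))
      show ((1 + ‖x - z‖) ^ 2)⁻¹ ≤ ‖x - z‖ ^ (-(2 : ℝ))
      rw [rp2 hpos.le]
      apply inv_anti₀ (by positivity)
      exact pow_le_pow_left₀ hpos.le (by linarith) 2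
    refine (h3.trans h).trans ?_
    apply div_le_div_of_nonneg_right _ (by positivity)
    linarith
  · refine (double hBMC hMES hℓ0 x (ha x)).trans ?_
    rw [div_pow, ← pow_mul]
    apply div_le_div_of_nonneg_right _ (by positivity)
    linarith

end Pool.Agent.TBL
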