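import Pool.Agent.TBL.Stmts

/-!
# Squad TBL, module NUG: the weighted double integral
-/

set_option autoImplicit false

open MeasureTheory Filter Topology
open scoped ContDiff

namespace Pool.Agent.TBL

open Pool.Agent.TBG

namespace NUG_

/-- an inverse power as a real power -/
lemma ip {t : ℝ} (ht : 0 < t) (n : ℕ) : (t ^ n)⁻¹ = t ^ (-(n : ℝ)) := by
  rw [Real.rpow_neg ht.le, Real.rpow_natCast]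

/-- the first part -/
lemma fst_part {a s : ℝ} (ha : 0 < a) (hs : 0 ≤ s) :
    ((1 + a + s) ^ 5)⁻¹ * ((1 + s) ^ 2)⁻¹ ≤
      (1 + a) ^ (-(7 / 2) : ℝ) * (1 + s) ^ (-(7 / 2) : ℝ) := by
  have h1 : 0 < 1 + a + s := by linarith
  have h2 : 0 < 1 + s := by linarith
  have h3 : 0 < 1 + a := by linarith
  have e1 : ((1 + a + s) ^ 5)⁻¹ =
      (1 + a + s) ^ (-(7 / 2) : ℝ) * (1 + a + s) ^ (-(3 / 2) : ℝ) := by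
    rw [ip h1, ← Real.rpow_add h1]; norm_num
  have e2 : (1 + s) ^ (-(7 / 2) : ℝ) = (1 + s) ^ (-(3 / 2) : ℝ) * ((1 + s) ^ 2)⁻¹ := by
    rw [ip h2, ← Real.rpow_add h2]; norm_num
  have e3 : (1 + a + s) ^ (-(7 / 2) : ℝ) ≤ (1 + a) ^ (-(7 / 2) : ℝ) :=
    Real.rpow_le_rpow_of_nonpos h3 (by linarith) (by norm_num)
  have e4 : (1 + a + s) ^ (-(3 / 2) : ℝ) ≤ (1 + s) ^ (-(3 / 2) : ℝ) :=
    Real.rpow_le_rpow_of_nonpos h2 (by linarith) (by norm_num)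
  have p1 : 0 ≤ (1 + a + s) ^ (-(3 / 2) : ℝ) := Real.rpow_nonneg h1.le _
  have p2 : 0 ≤ (1 + a) ^ (-(7 / 2) : ℝ) := Real.rpow_nonneg h3.le _
  have p3 : 0 ≤ ((1 + s) ^ 2)⁻¹ := by positivity
  rw [e1, e2, ← mul_assoc]
  exact mul_le_mul_of_nonneg_right (mul_le_mul e3 e4 p1 p2) p3

/-- the second part -/
lemma snd_part {a s : ℝ} (ha : 0 < a) (hs : 0 ≤ s) :
    ((1 + a + s) ^ 5)⁻¹ * ((1 + s) ^ 2)⁻¹ * s ^ (3 / 2 : ℝ) ≤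
      a ^ (-(11 / 4) : ℝ) * s ^ (-(11 / 4) : ℝ) := by
  rcases hs.eq_or_lt with h0 | h0
  · rw [← h0, Real.zero_rpow (by norm_num : (3 / 2 : ℝ) ≠ 0), mul_zero]
    exact mul_nonneg (Real.rpow_nonneg ha.le _) (Real.rpow_nonneg le_rfl _)
  have h1 : 0 < 1 + a + s := by linarith
  have h2 : 0 < 1 + s := by linarith
  have e1 : ((1 + a + s) ^ 5)⁻¹ =
      (1 + a + s) ^ (-(11 / 4) : ℝ) * (1 + a + s) ^ (-(9 / 4) : ℝ) := by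
    rw [ip h1, ← Real.rpow_add h1]; norm_num
  have e3 : (1 + a + s) ^ (-(11 / 4) : ℝ) ≤ a ^ (-(11 / 4) : ℝ) :=
    Real.rpow_le_rpow_of_nonpos ha (by linarith) (by norm_num)
  have e4 : (1 + a + s) ^ (-(9 / 4) : ℝ) ≤ s ^ (-(9 / 4) : ℝ) :=
    Real.rpow_le_rpow_of_nonpos h0 (by linarith) (by norm_num)
  have e5 : ((1 + s) ^ 2)⁻¹ ≤ (s ^ 2)⁻¹ := by
    apply inv_anti₀ (by positivity)
    exact pow_le_pow_left₀ hs (by linarith) 2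
  have e6 : s ^ (-(11 / 4) : ℝ) = s ^ (-(9 / 4) : ℝ) * (s ^ 2)⁻¹ * s ^ (3 / 2 : ℝ) := by
    rw [ip h0, ← Real.rpow_add h0, ← Real.rpow_add h0]; norm_num
  have p1 : 0 ≤ (1 + a + s) ^ (-(9 / 4) : ℝ) := Real.rpow_nonneg h1.le _
  have p2 : 0 ≤ a ^ (-(11 / 4) : ℝ) := Real.rpow_nonneg ha.le _
  have p3 : 0 ≤ s ^ (3 / 2 : ℝ) := Real.rpow_nonneg hs _
  have p4 : 0 ≤ ((1 + s) ^ 2)⁻¹ := by positivity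
  have p5 : 0 ≤ s ^ (-(9 / 4) : ℝ) := Real.rpow_nonneg hs _
  calc ((1 + a + s) ^ 5)⁻¹ * ((1 + s) ^ 2)⁻¹ * s ^ (3 / 2 : ℝ)
      = ((1 + a + s) ^ (-(11 / 4) : ℝ) * (1 + a + s) ^ (-(9 / 4) : ℝ)) * ((1 + s) ^ 2)⁻¹ *
        s ^ (3 / 2 : ℝ) := by rw [e1]
    _ ≤ (a ^ (-(11 / 4) : ℝ) * s ^ (-(9 / 4) : ℝ)) * (s ^ 2)⁻¹ * s ^ (3 / 2 : ℝ) := by
        refine mul_le_mul_of_nonneg_right ?_ p3
        refine mul_le_mul (mul_le_mul e3 e4 p1 p2) e5 p4 (mul_nonneg p2 p5)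
    _ = a ^ (-(11 / 4) : ℝ) * s ^ (-(11 / 4) : ℝ) := by rw [e6]; ring

/-- the pointwise bound -/
lemma pw {ℓ : ℝ} (hℓ : 0 < ℓ) {x y : E} (z : E) (hxy : y ≠ x) :
    ((1 + ‖x - y‖ + ‖x - z‖) ^ 5)⁻¹ * ((1 + ‖y - z‖) ^ 2)⁻¹ * (Ur ℓ ‖y - z‖)⁻¹ ≤
      32 * ℓ * (1 + ‖x - y‖) ^ (-(7 / 2) : ℝ) * (1 + ‖y - z‖) ^ (-(7 / 2) : ℝ) +
      32 * ℓ ^ (1 / 2 : ℝ) * ‖x - y‖ ^ (-(11 / 4) : ℝ) * ‖y - z‖ ^ (-(11 / 4) : ℝ) := by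
  have ha : 0 < ‖x - y‖ := norm_pos_iff.2 (sub_ne_zero.2 (Ne.symm hxy))
  have hs : 0 ≤ ‖y - z‖ := norm_nonneg _
  have hc : 0 ≤ ‖x - z‖ := norm_nonneg _
  have ht : ‖y - z‖ ≤ ‖x - y‖ + ‖x - z‖ := by
    have := norm_sub_le (x - z) (x - y)
    have h2 : x - z - (x - y) = y - z := by abel
    rw [h2] at this
    linarith
  have hu : (Ur ℓ ‖y - z‖)⁻¹ = ℓ + ℓ ^ (1 / 2 : ℝ) * ‖y - z‖ ^ (3 / 2 : ℝ) := by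
    unfold Ur; rw [inv_inv]
  have f1 := fst_part ha hs
  have f2 := snd_part ha hs
  generalize ‖x - y‖ = a at *
  generalize ‖x - z‖ = c at *
  generalize ‖y - z‖ = s at *
  have hD : ((1 + a + c) ^ 5)⁻¹ ≤ 32 * ((1 + a + s) ^ 5)⁻¹ := by
    have h1 : (1 + a + s) ^ 5 ≤ (2 * (1 + a + c)) ^ 5 :=
      pow_le_pow_left₀ (by linarith) (by linarith) 5
    have h2 : 0 < (1 + a + s) ^ 5 := by positivity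
    have h3 : ((2 * (1 + a + c)) ^ 5)⁻¹ ≤ ((1 + a + s) ^ 5)⁻¹ := inv_anti₀ h2 h1
    have h4 : ((2 * (1 + a + c)) ^ 5)⁻¹ = ((1 + a + c) ^ 5)⁻¹ / 32 := by
      rw [mul_pow, mul_inv]; ring
    rw [h4] at h3
    linarith
  rw [hu]
  have hl : 0 ≤ ℓ ^ (1 / 2 : ℝ) := Real.rpow_nonneg hℓ.le _
  have hq : 0 ≤ ((1 + s) ^ 2)⁻¹ := by positivity
  have hw : 0 ≤ ℓ + ℓ ^ (1 / 2 : ℝ) * s ^ (3 / 2 : ℝ) :=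
    add_nonneg hℓ.le (mul_nonneg hl (Real.rpow_nonneg hs _))
  calc ((1 + a + c) ^ 5)⁻¹ * ((1 + s) ^ 2)⁻¹ * (ℓ + ℓ ^ (1 / 2 : ℝ) * s ^ (3 / 2 : ℝ))
      ≤ (32 * ((1 + a + s) ^ 5)⁻¹) * ((1 + s) ^ 2)⁻¹ *
        (ℓ + ℓ ^ (1 / 2 : ℝ) * s ^ (3 / 2 : ℝ)) :=
        mul_le_mul_of_nonneg_right (mul_le_mul_of_nonneg_right hD hq) hw
    _ = 32 * ℓ * (((1 + a + s) ^ 5)⁻¹ * ((1 + s) ^ 2)⁻¹) +
        32 * ℓ ^ (1 / 2 : ℝ) *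
          (((1 + a + s) ^ 5)⁻¹ * ((1 + s) ^ 2)⁻¹ * s ^ (3 / 2 : ℝ)) := by ring
    _ ≤ 32 * ℓ * ((1 + a) ^ (-(7 / 2) : ℝ) * (1 + s) ^ (-(7 / 2) : ℝ)) +
        32 * ℓ ^ (1 / 2 : ℝ) * (a ^ (-(11 / 4) : ℝ) * s ^ (-(11 / 4) : ℝ)) :=
        add_le_add (mul_le_mul_of_nonneg_left f1 (by positivity))
          (mul_le_mul_of_nonneg_left f2 (by positivity))
    _ = _ := by ring

/-- points are null sets -/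
lemma ae_ne (ℓ : ℝ) (x : E) : ∀ᵐ y ∂(nuc ℓ), y ≠ x := by
  rw [ae_iff]
  have h : {a : E | ¬ a ≠ x} = {x} := by ext a; simp
  rw [h]
  unfold nuc
  simp

lemma nonneg_f (ℓ : ℝ) (hℓ : 0 < ℓ) (x y z : E) :
    0 ≤ ((1 + ‖x - y‖ + ‖x - z‖) ^ 5)⁻¹ * ((1 + ‖y - z‖) ^ 2)⁻¹ * (Ur ℓ ‖y - z‖)⁻¹ := by
  have h1 : 0 ≤ (Ur ℓ ‖y - z‖)⁻¹ := by
    unfold Ur
    rw [inv_inv]
    exact add_nonneg hℓ.le (mul_nonneg (Real.rpow_nonneg hℓ.le _)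
      (Real.rpow_nonneg (norm_nonneg _) _))
  positivity

end NUG_

open NUG_ in
theorem nug_proof (_hBMC : Stmt_BMC) (hMES : Stmt_MES) (hNPP : Stmt_NPP) (hNQQ : Stmt_NQQ) :
    Stmt_NUG := by
  obtain ⟨C1, hC1, hQ⟩ := hNQQ (7 / 2) (by norm_num)
  obtain ⟨C2, hC2, hP⟩ := hNPP (11 / 4) (by norm_num) (by norm_num)
  refine ⟨32 * (C1 ^ 2 + C2 ^ 2), by positivity, fun ℓ hℓ x => ?_⟩
  have hℓ0 : 0 < ℓ := by linarith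
  obtain ⟨-, -, -, hprob, -, -, hcont, -⟩ := hMES ℓ hℓ0
  -- the two basic integrals
  have q1 : ∀ y : E, Integrable (fun z => (1 + ‖y - z‖) ^ (-(7 / 2) : ℝ)) (nuc ℓ) := by
    intro y
    refine hcont _ ?_
    refine Continuous.rpow_const (by fun_prop) fun z => Or.inl ?_
    have := norm_nonneg (y - z)
    linarith
  have q2 : ∀ y : E, ∫ z, (1 + ‖y - z‖) ^ (-(7 / 2) : ℝ) ∂(nuc ℓ) ≤ C1 * (ℓ ^ 3)⁻¹ := by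
    intro y
    have := hQ ℓ hℓ0 1 one_pos y
    rwa [Real.one_rpow, mul_one] at this
  have p1 : ∀ y : E, Integrable (fun z => ‖y - z‖ ^ (-(11 / 4) : ℝ)) (nuc ℓ) :=
    fun y => (hP ℓ hℓ0 y).1
  have p2 : ∀ y : E, ∫ z, ‖y - z‖ ^ (-(11 / 4) : ℝ) ∂(nuc ℓ) ≤ C2 * ℓ ^ (-(11 / 4) : ℝ) :=
    fun y => (hP ℓ hℓ0 y).2
  set A : ℝ := C1 * (ℓ ^ 3)⁻¹ with hA
  set B : ℝ := C2 * ℓ ^ (-(11 / 4) : ℝ) with hB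
  have hA0 : 0 ≤ A := by positivity
  have hl : 0 ≤ ℓ ^ (1 / 2 : ℝ) := Real.rpow_nonneg hℓ0.le _
  have hB0 : 0 ≤ B := mul_nonneg hC2.le (Real.rpow_nonneg hℓ0.le _)
  -- inner integral
  have inner : ∀ y : E, y ≠ x → ∫ z, ((1 + ‖x - y‖ + ‖x - z‖) ^ 5)⁻¹ *
      ((1 + ‖y - z‖) ^ 2)⁻¹ * (Ur ℓ ‖y - z‖)⁻¹ ∂(nuc ℓ) ≤
      32 * ℓ * A * (1 + ‖x - y‖) ^ (-(7 / 2) : ℝ) +
      32 * ℓ ^ (1 / 2 : ℝ) * B * ‖x - y‖ ^ (-(11 / 4) : ℝ) := by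
    intro y hy
    have i1 : Integrable (fun z => 32 * ℓ * (1 + ‖x - y‖) ^ (-(7 / 2) : ℝ) *
        (1 + ‖y - z‖) ^ (-(7 / 2) : ℝ)) (nuc ℓ) := (q1 y).const_mul _
    have i2 : Integrable (fun z => 32 * ℓ ^ (1 / 2 : ℝ) * ‖x - y‖ ^ (-(11 / 4) : ℝ) *
        ‖y - z‖ ^ (-(11 / 4) : ℝ)) (nuc ℓ) := (p1 y).const_mul _
    refine (integral_mono_of_nonneg (Eventually.of_forall fun z => nonneg_f ℓ hℓ0 x y z)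
      (i1.add i2) (Eventually.of_forall fun z => pw hℓ0 z hy)).trans ?_
    have h3 : ∫ z, ((fun z => 32 * ℓ * (1 + ‖x - y‖) ^ (-(7 / 2) : ℝ) *
        (1 + ‖y - z‖) ^ (-(7 / 2) : ℝ)) + fun z => 32 * ℓ ^ (1 / 2 : ℝ) *
        ‖x - y‖ ^ (-(11 / 4) : ℝ) * ‖y - z‖ ^ (-(11 / 4) : ℝ)) z ∂(nuc ℓ) =
        32 * ℓ * (1 + ‖x - y‖) ^ (-(7 / 2) : ℝ) * ∫ z, (1 + ‖y - z‖) ^ (-(7 / 2) : ℝ) ∂(nuc ℓ) +
        32 * ℓ ^ (1 / 2 : ℝ) * ‖x - y‖ ^ (-(11 / 4) : ℝ) *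
          ∫ z, ‖y - z‖ ^ (-(11 / 4) : ℝ) ∂(nuc ℓ) := by
      rw [integral_add' i1 i2, integral_const_mul, integral_const_mul]
    rw [h3]
    have c1 : 0 ≤ 32 * ℓ * (1 + ‖x - y‖) ^ (-(7 / 2) : ℝ) := by positivity
    have c2 : 0 ≤ 32 * ℓ ^ (1 / 2 : ℝ) * ‖x - y‖ ^ (-(11 / 4) : ℝ) := by positivity
    calc _ ≤ 32 * ℓ * (1 + ‖x - y‖) ^ (-(7 / 2) : ℝ) * A +
        32 * ℓ ^ (1 / 2 : ℝ) * ‖x - y‖ ^ (-(11 / 4) : ℝ) * B :=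
          add_le_add (mul_le_mul_of_nonneg_left (q2 y) c1) (mul_le_mul_of_nonneg_left (p2 y) c2)
      _ = _ := by ring
  -- outer integral
  have i1 : Integrable (fun y => 32 * ℓ * A * (1 + ‖x - y‖) ^ (-(7 / 2) : ℝ)) (nuc ℓ) :=
    (q1 x).const_mul _
  have i2 : Integrable (fun y => 32 * ℓ ^ (1 / 2 : ℝ) * B * ‖x - y‖ ^ (-(11 / 4) : ℝ)) (nuc ℓ) :=
    (p1 x).const_mul _
  refine (integral_mono_of_nonneg (Eventually.of_forall fun y =>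
    integral_nonneg fun z => nonneg_f ℓ hℓ0 x y z) (i1.add i2)
    ((ae_ne ℓ x).mono fun y hy => inner y hy)).trans ?_
  rw [integral_add' i1 i2, integral_const_mul, integral_const_mul]
  have c1 : 0 ≤ 32 * ℓ * A := by positivity
  have c2 : 0 ≤ 32 * ℓ ^ (1 / 2 : ℝ) * B := by positivity
  refine (add_le_add (mul_le_mul_of_nonneg_left (q2 x) c1)
    (mul_le_mul_of_nonneg_left (p2 x) c2)).trans (le_of_eq ?_)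
  have r1 : ℓ ^ (1 / 2 : ℝ) * (ℓ ^ (-(11 / 4) : ℝ) * ℓ ^ (-(11 / 4) : ℝ)) = (ℓ ^ 5)⁻¹ := by
    rw [ip hℓ0, ← Real.rpow_add hℓ0, ← Real.rpow_add hℓ0]; norm_num
  have r2 : ℓ * ((ℓ ^ 3)⁻¹ * (ℓ ^ 3)⁻¹) = (ℓ ^ 5)⁻¹ := by
    field_simp
  calc 32 * ℓ * A * A + 32 * ℓ ^ (1 / 2 : ℝ) * B * B
      = 32 * C1 ^ 2 * (ℓ * ((ℓ ^ 3)⁻¹ * (ℓ ^ 3)⁻¹)) +
        32 * C2 ^ 2 * (ℓ ^ (1 / 2 : ℝ) * (ℓ ^ (-(11 / 4) : ℝ) * ℓ ^ (-(11 / 4) : ℝ))) := by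
        rw [hA, hB]; ring
    _ = 32 * (C1 ^ 2 + C2 ^ 2) / ℓ ^ 5 := by rw [r1, r2]; ring

end Pool.Agent.TBL
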