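import Pool.Agent.TBL.Stmts

set_option autoImplicit false

open MeasureTheory Filter Topology
open scoped ContDiff

namespace Pool.Agent.TBL

open Pool.Agent.TBG

theorem num_proof (h1 : Stmt_NUA) (h2 : Stmt_NUG) : Stmt_NUM := by
  obtain ⟨C, hC, h1⟩ := h1
  obtain ⟨C', hC', h2⟩ := h2
  refine ⟨max C C', lt_max_of_lt_left hC, fun ℓ hℓ => ?_⟩
  obtain ⟨a, b, c, d, e, f, h⟩ := h1 ℓ hℓ
  have g := h2 ℓ hℓ
  have hℓ0 : 0 < ℓ := by linarith
  have m1 : ∀ n : ℕ, C / ℓ ^ n ≤ max C C' / ℓ ^ n := fun n =>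
    div_le_div_of_nonneg_right (le_max_left _ _) (by positivity)
  have m2 : ∀ n : ℕ, C' / ℓ ^ n ≤ max C C' / ℓ ^ n := fun n =>
    div_le_div_of_nonneg_right (le_max_right _ _) (by positivity)
  have m3 : ∀ (n k : ℕ) (y z : E), C / ℓ ^ n * ((1 + ‖y - z‖) ^ k)⁻¹ ≤
      max C C' / ℓ ^ n * ((1 + ‖y - z‖) ^ k)⁻¹ := fun n k y z =>
    mul_le_mul_of_nonneg_right (m1 n) (by positivity)
  exact
    { a := fun x => (a x).trans (m1 3)
      b := fun y z => (b y z).trans (m3 3 7 y z)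
      c := fun y => (c y).trans (m1 3)
      d := fun x z => (d x z).trans (m3 3 2 x z)
      e := fun y z => (e y z).trans (m3 3 2 y z)
      f := fun x => (f x).trans (m1 2)
      g := fun x => (g x).trans (m2 5)
      h := fun x => (h x).trans (m1 6) }

end Pool.Agent.TBL
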