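import Pool.Agent.TBL.Stmts

/-!
# TBL, module OPD: derivative of the integral operators
-/

set_option autoImplicit false

open MeasureTheory Filter Topology
open scoped ContDiff

namespace Pool.Agent.TBL

open Pool.Agent.TBG

namespace OPD_

/-- coordinates -/
noncomputable def pj (c : Fin 3) : E →L[ℝ] ℝ := EuclideanSpace.proj c

theorem pj_apply (c : Fin 3) (v : E) : pj c v = v c := rfl

/-- the derivative of `φ` in the first variable -/
noncomputable def D (φ : E → E → E → ℝ) (x y z : E) : E →L[ℝ] ℝ := ∑ c, dk c φ x y z • pj c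

theorem sum_ev (v : E) : v = ∑ c, v c • ev c := by
  ext d
  fin_cases d <;> simp [ev, Fin.sum_univ_three]

theorem hasFDerivAt_D {φ : E → E → E → ℝ} (h : ∀ y z, ContDiff ℝ ∞ (fun x => φ x y z))
    (x y z : E) : HasFDerivAt (fun x' => φ x' y z) (D φ x y z) x := by
  have h1 : DifferentiableAt ℝ (fun x' => φ x' y z) x :=
    (h y z).differentiable (by simp) x
  have e : fderiv ℝ (fun x' => φ x' y z) x = D φ x y z := by
    ext v
    have h2 : fderiv ℝ (fun x' => φ x' y z) x v =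
        ∑ c, v c * fderiv ℝ (fun x' => φ x' y z) x (ev c) := by
      conv_lhs => rw [sum_ev v]
      rw [map_sum]
      refine Finset.sum_congr rfl fun c _ => ?_
      rw [map_smul, smul_eq_mul]
    rw [h2]
    unfold D
    rw [ContinuousLinearMap.sum_apply]
    refine Finset.sum_congr rfl fun c _ => ?_
    rw [ContinuousLinearMap.smul_apply, pj_apply, smul_eq_mul, mul_comm]
    rfl
  rw [← e]
  exact h1.hasFDerivAt

end OPD_

open OPD_ in
theorem opd_proof (hBMC : Stmt_BMC) (hMES : Stmt_MES) (hSKF : Stmt_SKF) : Stmt_OPD := by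
  intro ℓ φ a hℓ hφ ha
  obtain ⟨b1, -, -, b4, -⟩ := hBMC
  obtain ⟨k1, k2, k3, -⟩ := hSKF φ hφ.smooth
  have hprob : IsProbabilityMeasure (nuc ℓ) := (hMES ℓ hℓ).2.2.2.1
  -- general facts for a bounded kernel
  have hker : ∀ ψ : E → E → E → ℝ, BM3 ψ → ∀ x,
      BM (fun p : E × E => ψ x p.1 p.2 * a p.1 p.2) := by
    intro ψ hψ x
    have h1 : BM (fun p : E × E => ψ x p.1 p.2) :=
      b4 (E × E × E) (E × E) (fun p => ψ p.1 p.2.1 p.2.2) (fun p => (x, p.1, p.2)) hψ
        (by fun_prop)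
    exact (b1 _ _ _ h1 ha).2.2.1
  have hint : ∀ F : E × E → ℝ, BM F → Integrable F ((nuc ℓ).prod (nuc ℓ)) :=
    fun F hF => (b1 _ F F hF hF).2.2.2.2.2.2 _
  have hconv : ∀ ψ : E → E → E → ℝ, BM3 ψ → ∀ x,
      ∫ y, ∫ z, ψ x y z * a y z ∂(nuc ℓ) ∂(nuc ℓ) =
        ∫ p : E × E, ψ x p.1 p.2 * a p.1 p.2 ∂((nuc ℓ).prod (nuc ℓ)) := by
    intro ψ hψ x
    rw [integral_prod _ (hint _ (hker ψ hψ x))]
  obtain ⟨A, hA⟩ := ha.2
  have hA0 : 0 ≤ A := (abs_nonneg _).trans (hA (0, 0))
  -- continuity of the integrals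
  have hcont : ∀ c, Continuous fun x => ∫ y, ∫ z, dk c φ x y z * a y z ∂(nuc ℓ) ∂(nuc ℓ) := by
    intro c
    have e : (fun x => ∫ y, ∫ z, dk c φ x y z * a y z ∂(nuc ℓ) ∂(nuc ℓ)) =
        fun x => ∫ p : E × E, dk c φ x p.1 p.2 * a p.1 p.2 ∂((nuc ℓ).prod (nuc ℓ)) := by
      funext x
      exact hconv _ (hφ.b1 c) x
    rw [e]
    obtain ⟨B, hB⟩ := (hφ.b1 c).2
    refine continuous_of_dominated (bound := fun _ => B * A) ?_ ?_ (integrable_const _) ?_
    · intro x
      exact (hker _ (hφ.b1 c) x).1.aestronglyMeasurable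
    · intro x
      refine Eventually.of_forall fun p => ?_
      rw [norm_mul, Real.norm_eq_abs, Real.norm_eq_abs]
      exact mul_le_mul (hB (x, p.1, p.2)) (hA p) (abs_nonneg _)
        ((abs_nonneg _).trans (hB (x, p.1, p.2)))
    · refine Eventually.of_forall fun p => ?_
      exact ((k3 c p.1 p.2).continuous).mul continuous_const
  choose B hB using fun c => (hφ.b1 c).2
  have hder : ∀ x, HasFDerivAt (fun x => ∫ y, ∫ z, φ x y z * a y z ∂(nuc ℓ) ∂(nuc ℓ))
      (∑ c, (∫ y, ∫ z, dk c φ x y z * a y z ∂(nuc ℓ) ∂(nuc ℓ)) • pj c) x := by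
    intro x
    have e : (fun x => ∫ y, ∫ z, φ x y z * a y z ∂(nuc ℓ) ∂(nuc ℓ)) =
        fun x => ∫ p : E × E, φ x p.1 p.2 * a p.1 p.2 ∂((nuc ℓ).prod (nuc ℓ)) := by
      funext x
      exact hconv _ hφ.b0 x
    rw [e]
    have hmain := hasFDerivAt_integral_of_dominated_of_fderiv_le
      (μ := (nuc ℓ).prod (nuc ℓ)) (𝕜 := ℝ)
      (F := fun (x : E) (p : E × E) => φ x p.1 p.2 * a p.1 p.2)
      (F' := fun (x : E) (p : E × E) => ∑ c, (dk c φ x p.1 p.2 * a p.1 p.2) • pj c)
      (x₀ := x) (s := Set.univ) (bound := fun _ => ∑ c, B c * A * ‖pj c‖) univ_mem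
      (Eventually.of_forall fun x => (hker _ hφ.b0 x).1.aestronglyMeasurable)
      (hint _ (hker _ hφ.b0 x))
      (by
        have := Finset.aestronglyMeasurable_fun_sum (μ := (nuc ℓ).prod (nuc ℓ)) Finset.univ
          (f := fun (c : Fin 3) (p : E × E) => (dk c φ x p.1 p.2 * a p.1 p.2) • pj c)
          (fun c _ => ((hker _ (hφ.b1 c) x).1.aestronglyMeasurable).smul_const (pj c))
        exact this)
      (by
        refine Eventually.of_forall fun p x' _ => ?_
        refine (norm_sum_le _ _).trans (Finset.sum_le_sum fun c _ => ?_)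
        rw [norm_smul, norm_mul, Real.norm_eq_abs, Real.norm_eq_abs]
        refine mul_le_mul_of_nonneg_right ?_ (norm_nonneg _)
        exact mul_le_mul (hB c (x', p.1, p.2)) (hA p) (abs_nonneg _)
          ((abs_nonneg _).trans (hB c (x', p.1, p.2))))
      (integrable_const _)
      (by
        refine Eventually.of_forall fun p x' _ => ?_
        have h1 := (hasFDerivAt_D k1 x' p.1 p.2).mul_const (a p.1 p.2)
        have e2 : a p.1 p.2 • D φ x' p.1 p.2 =
            ∑ c, (dk c φ x' p.1 p.2 * a p.1 p.2) • pj c := by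
          unfold D
          rw [Finset.smul_sum]
          refine Finset.sum_congr rfl fun c _ => ?_
          rw [smul_smul, mul_comm]
        rw [← e2]
        exact h1)
    have e3 : ∫ p : E × E, ∑ c, (dk c φ x p.1 p.2 * a p.1 p.2) • pj c ∂((nuc ℓ).prod (nuc ℓ)) =
        ∑ c, (∫ y, ∫ z, dk c φ x y z * a y z ∂(nuc ℓ) ∂(nuc ℓ)) • pj c := by
      rw [integral_finsetSum]
      · refine Finset.sum_congr rfl fun c _ => ?_
        rw [integral_smul_const, hconv _ (hφ.b1 c) x]
      · intro c _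
        exact (hint _ (hker _ (hφ.b1 c) x)).smul_const _
    rw [← e3]
    exact hmain
  have hfd : fderiv ℝ (fun x => ∫ y, ∫ z, φ x y z * a y z ∂(nuc ℓ) ∂(nuc ℓ)) =
      fun x => ∑ c, (∫ y, ∫ z, dk c φ x y z * a y z ∂(nuc ℓ) ∂(nuc ℓ)) • pj c :=
    funext fun x => (hder x).fderiv
  constructor
  · rw [contDiff_one_iff_fderiv]
    refine ⟨fun x => (hder x).differentiableAt, ?_⟩
    rw [hfd]
    exact continuous_finsetSum _ fun c _ => (hcont c).smul continuous_const
  · intro c x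
    unfold pd
    rw [hfd, ContinuousLinearMap.sum_apply]
    have : ∀ d : Fin 3, ((∫ y, ∫ z, dk d φ x y z * a y z ∂(nuc ℓ) ∂(nuc ℓ)) • pj d) (ev c) =
        if d = c then ∫ y, ∫ z, dk d φ x y z * a y z ∂(nuc ℓ) ∂(nuc ℓ) else 0 := by
      intro d
      rw [ContinuousLinearMap.smul_apply, pj_apply, smul_eq_mul]
      unfold ev
      by_cases h : d = c
      · subst h
        simp
      · simp [h]
    rw [Finset.sum_congr rfl fun d _ => this d, Finset.sum_ite_eq' Finset.univ c,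
      if_pos (Finset.mem_univ c)]

end Pool.Agent.TBL
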