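import Pool.Agent.TBL.Stmts

/-!
# TBL, module OPK: completing the square for one particle
-/

set_option autoImplicit false

open MeasureTheory Filter Topology
open scoped ContDiff

namespace Pool.Agent.TBL

open Pool.Agent.TBG

namespace OPK_

variable {ℓ : ℝ}

/-- integrability of the integrand of the jump form -/
theorem int_prod (hM : Stmt_MES) (hℓ : 0 < ℓ) {κ : E → E → ℝ} (hκ : BM2 κ) {f g : E → ℝ}
    (hf : Continuous f) (hg : Continuous g) :
    Integrable (fun p : E × E => κ p.1 p.2 * ((f p.1 - f p.2) * (g p.1 - g p.2)))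
      ((nuc ℓ).prod (nuc ℓ)) := by
  obtain ⟨-, -, -, hP, -, -, hI, -⟩ := hM ℓ hℓ
  obtain ⟨hm, C, hC⟩ := hκ
  have hfg := hI (fun x => f x * g x) (hf.mul hg)
  have e1 : Integrable (fun p : E × E => f p.1 * g p.1) ((nuc ℓ).prod (nuc ℓ)) :=
    hfg.comp_fst (nuc ℓ)
  have e2 : Integrable (fun p : E × E => f p.2 * g p.2) ((nuc ℓ).prod (nuc ℓ)) :=
    hfg.comp_snd (nuc ℓ)
  have e3 : Integrable (fun p : E × E => f p.1 * g p.2) ((nuc ℓ).prod (nuc ℓ)) :=
    (hI f hf).mul_prod (hI g hg)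
  have e4 : Integrable (fun p : E × E => g p.1 * f p.2) ((nuc ℓ).prod (nuc ℓ)) :=
    (hI g hg).mul_prod (hI f hf)
  have e5 : Integrable (fun p : E × E => (f p.1 - f p.2) * (g p.1 - g p.2))
      ((nuc ℓ).prod (nuc ℓ)) := by
    have : (fun p : E × E => (f p.1 - f p.2) * (g p.1 - g p.2)) =
        fun p => (f p.1 * g p.1 - f p.1 * g p.2) - (g p.1 * f p.2 - f p.2 * g p.2) := by
      funext p; ring
    rw [this]
    exact (e1.sub e3).sub (e4.sub e2)
  exact e5.bdd_mul (c := C) hm.aestronglyMeasurable (Eventually.of_forall fun p => hC p)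

theorem q1_eq (hM : Stmt_MES) (hℓ : 0 < ℓ) {κ : E → E → ℝ} (hκ : BM2 κ) {f g : E → ℝ}
    (hf : Continuous f) (hg : Continuous g) :
    q1 ℓ κ f g = ∫ p : E × E, κ p.1 p.2 * ((f p.1 - f p.2) * (g p.1 - g p.2))
      ∂((nuc ℓ).prod (nuc ℓ)) := by
  have hP : IsProbabilityMeasure (nuc ℓ) := (hM ℓ hℓ).2.2.2.1
  rw [integral_prod _ (int_prod hM hℓ hκ hf hg)]
  rfl

theorem pd_cont {f : E → ℝ} (hf : ContDiff ℝ 1 f) (c : Fin 3) : Continuous (pd c f) := by
  unfold pd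
  exact (hf.continuous_fderiv one_ne_zero).clm_apply continuous_const

theorem pd_add {h f : E → ℝ} (hh : ContDiff ℝ 1 h) (hf : ContDiff ℝ 1 f) (c : Fin 3) (x : E) :
    pd c (fun x => h x + f x) x = pd c h x + pd c f x := by
  unfold pd
  rw [fderiv_fun_add (hh.differentiable one_ne_zero).differentiableAt
    (hf.differentiable one_ne_zero).differentiableAt]
  rfl

theorem grad_sq (hM : Stmt_MES) (hℓ : 0 < ℓ) {h f : E → ℝ} (hh : ContDiff ℝ 1 h)
    (hf : ContDiff ℝ 1 f) :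
    ∑ c, ∫ x, (pd c (fun x => h x + f x) x) ^ 2 ∂(nuc ℓ) =
      ∑ c, ∫ x, (pd c h x) ^ 2 ∂(nuc ℓ) + 2 * ∑ c, ∫ x, pd c h x * pd c f x ∂(nuc ℓ) +
        ∑ c, ∫ x, pd c f x * pd c f x ∂(nuc ℓ) := by
  obtain ⟨-, -, -, hP, -, -, hI, -⟩ := hM ℓ hℓ
  rw [Finset.mul_sum, ← Finset.sum_add_distrib, ← Finset.sum_add_distrib]
  apply Finset.sum_congr rfl
  intro c _
  have ch := pd_cont hh c
  have cf := pd_cont hf c
  have i1 : Integrable (fun x => (pd c h x) ^ 2) (nuc ℓ) := hI _ (ch.pow 2)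
  have i2 : Integrable (fun x => 2 * (pd c h x * pd c f x)) (nuc ℓ) :=
    (hI _ (ch.mul cf)).const_mul 2
  have i3 : Integrable (fun x => pd c f x * pd c f x) (nuc ℓ) := hI _ (cf.mul cf)
  have i12 : Integrable (fun x => (pd c h x) ^ 2 + 2 * (pd c h x * pd c f x)) (nuc ℓ) := i1.add i2
  have e : (fun x => (pd c (fun x => h x + f x) x) ^ 2) =
      fun x => ((pd c h x) ^ 2 + 2 * (pd c h x * pd c f x)) + pd c f x * pd c f x := by
    funext x
    rw [pd_add hh hf]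
    ring
  rw [e, integral_add i12 i3, integral_add i1 i2, integral_const_mul]

theorem q1_lower (hM : Stmt_MES) (hℓ : 0 < ℓ) {κ : E → E → ℝ} (hκ : BM2 κ)
    (h0 : ∀ x y, 0 ≤ κ x y) {h f : E → ℝ} (hh : Continuous h) (hf : Continuous f) :
    1 / 2 * q1 ℓ κ h h - q1 ℓ κ f f ≤ q1 ℓ κ (fun x => h x + f x) (fun x => h x + f x) := by
  have hG : Continuous (fun x => h x + f x) := hh.add hf
  have ih := int_prod hM hℓ hκ hh hh
  have if' := int_prod hM hℓ hκ hf hf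
  rw [q1_eq hM hℓ hκ hh hh, q1_eq hM hℓ hκ hf hf, q1_eq hM hℓ hκ hG hG, ← integral_const_mul,
    ← integral_sub (ih.const_mul _) if']
  apply integral_mono ((ih.const_mul _).sub if') (int_prod hM hℓ hκ hG hG)
  intro p
  simp only [Pi.sub_apply]
  have hk := h0 p.1 p.2
  nlinarith [mul_nonneg hk (sq_nonneg ((h p.1 - h p.2) + 2 * (f p.1 - f p.2)))]

end OPK_

theorem opk_proof (_hBMC : Stmt_BMC) (hMES : Stmt_MES) (_hQFB : Stmt_QFB) : Stmt_OPK := by
  intro ℓ C κ h f hℓ hκ hh hf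
  have h1 := hκ.k2 (fun x => h x + f x) (hh.add hf)
  rw [OPK_.grad_sq hMES hℓ hh hf] at h1
  have h2 := OPK_.q1_lower hMES hℓ hκ.bm hκ.nonneg hh.continuous hf.continuous
  unfold Qf
  linarith

end Pool.Agent.TBL
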