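import Pool.Agent.TBL.Stmts

/-!
# TBL, module OPQ: the form `Qf` of integrated functions
-/

set_option autoImplicit false

open MeasureTheory Filter Topology
open scoped ContDiff

namespace Pool.Agent.TBL

open Pool.Agent.TBG

namespace OPQ_

theorem bm_mul (hB : Stmt_BMC) {α : Type} [MeasurableSpace α] {F G : α → ℝ} (hF : BM F)
    (hG : BM G) : BM (fun X => F X * G X) := (hB.1 α F G hF hG).2.2.1

theorem bm_sub (hB : Stmt_BMC) {α : Type} [MeasurableSpace α] {F G : α → ℝ} (hF : BM F)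
    (hG : BM G) : BM (fun X => F X - G X) := (hB.1 α F G hF hG).2.1

theorem bm_comp (hB : Stmt_BMC) {α β : Type} [MeasurableSpace α] [MeasurableSpace β] {F : α → ℝ}
    (hF : BM F) {f : β → α} (hf : Measurable f) : BM (fun X => F (f X)) :=
  hB.2.2.2.1 α β F f hF hf

theorem bm_int (hB : Stmt_BMC) {α : Type} [MeasurableSpace α] {F : α → ℝ} (hF : BM F)
    (μ : Measure α) [IsFiniteMeasure μ] : Integrable F μ := (hB.1 α F F hF hF).2.2.2.2.2.2 μ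

theorem bm_par (hB : Stmt_BMC) {α β : Type} [MeasurableSpace α] [MeasurableSpace β]
    (μ : Measure β) [IsProbabilityMeasure μ] {F : α × β → ℝ} (hF : BM F) :
    BM (fun X => ∫ y, F (X, y) ∂μ) := hB.2.2.2.2 α β μ F hF

/-- Fubini for products -/
theorem fub (hB : Stmt_BMC) {α β : Type} [MeasurableSpace α] [MeasurableSpace β]
    (ν : Measure α) [IsProbabilityMeasure ν] (ρ : Measure β) [IsProbabilityMeasure ρ]
    (w : α → ℝ) (F : α → β → ℝ) (a a' : β → ℝ) (hw : BM w)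
    (hF : BM (fun p : α × β => F p.1 p.2)) (ha : BM a) (ha' : BM a') :
    ∫ p : β × β, a p.1 * a' p.2 * (∫ t, w t * (F t p.1 * F t p.2) ∂ν) ∂(ρ.prod ρ) =
      ∫ t, w t * ((∫ q, F t q * a q ∂ρ) * (∫ q, F t q * a' q ∂ρ)) ∂ν := by
  have hG : BM (fun s : (β × β) × α =>
      a s.1.1 * a' s.1.2 * (w s.2 * (F s.2 s.1.1 * F s.2 s.1.2))) := by
    have h1 : BM (fun s : (β × β) × α => a s.1.1) := bm_comp hB ha (by fun_prop)
    have h2 : BM (fun s : (β × β) × α => a' s.1.2) := bm_comp hB ha' (by fun_prop)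
    have h3 : BM (fun s : (β × β) × α => w s.2) := bm_comp hB hw (by fun_prop)
    have h4 : BM (fun s : (β × β) × α => F s.2 s.1.1) :=
      bm_comp hB hF (f := fun s : (β × β) × α => (s.2, s.1.1)) (by fun_prop)
    have h5 : BM (fun s : (β × β) × α => F s.2 s.1.2) :=
      bm_comp hB hF (f := fun s : (β × β) × α => (s.2, s.1.2)) (by fun_prop)
    exact bm_mul hB (bm_mul hB h1 h2) (bm_mul hB h3 (bm_mul hB h4 h5))
  have e1 : ∀ p : β × β, a p.1 * a' p.2 * (∫ t, w t * (F t p.1 * F t p.2) ∂ν) =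
      ∫ t, a p.1 * a' p.2 * (w t * (F t p.1 * F t p.2)) ∂ν := fun p => by
    rw [integral_const_mul]
  simp_rw [e1]
  rw [integral_integral_swap (f := fun (p : β × β) (t : α) =>
    a p.1 * a' p.2 * (w t * (F t p.1 * F t p.2))) (bm_int hB hG _)]
  refine integral_congr_ae (Eventually.of_forall fun t => ?_)
  show ∫ p : β × β, a p.1 * a' p.2 * (w t * (F t p.1 * F t p.2)) ∂(ρ.prod ρ) =
    w t * ((∫ q, F t q * a q ∂ρ) * (∫ q, F t q * a' q ∂ρ))
  rw [← integral_prod_mul (μ := ρ) (ν := ρ) (fun q => F t q * a q) (fun q => F t q * a' q),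
    ← integral_const_mul]
  refine integral_congr_ae (Eventually.of_forall fun p => ?_)
  show a p.1 * a' p.2 * (w t * (F t p.1 * F t p.2)) =
    w t * (F t p.1 * a p.1 * (F t p.2 * a' p.2))
  ring

end OPQ_

open OPQ_ in
theorem opq_proof (hBMC : Stmt_BMC) (hMES : Stmt_MES) (_hSKF : Stmt_SKF) (hOPD : Stmt_OPD)
    (hQFM : Stmt_QFM) : Stmt_OPQ := by
  intro ℓ C κ φ a a' hℓ hκ hφ ha ha'
  have hprob : IsProbabilityMeasure (nuc ℓ) := (hMES ℓ hℓ).2.2.2.1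
  set μ : Measure E := nuc ℓ with hμ
  set b : E × E → ℝ := fun q => a q.1 q.2 with hb
  set b' : E × E → ℝ := fun q => a' q.1 q.2 with hb'
  have hbB : BM b := ha
  have hbB' : BM b' := ha'
  -- the functions of one particle
  have hconv : ∀ (ψ : E → E → E → ℝ) (d : E → E → ℝ), BM3 ψ → BM2 d → ∀ x,
      ∫ y, ∫ z, ψ x y z * d y z ∂μ ∂μ =
        ∫ q : E × E, ψ x q.1 q.2 * d q.1 q.2 ∂(μ.prod μ) := by
    intro ψ d hψ hd x
    have h1 : BM (fun q : E × E => ψ x q.1 q.2) :=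
      bm_comp hBMC hψ (f := fun q : E × E => (x, q.1, q.2)) (by fun_prop)
    rw [integral_prod _ (bm_int hBMC (bm_mul hBMC h1 hd) _)]
  -- the left side
  have hL : ∫ y, ∫ z, ∫ y', ∫ z', a y z * a' y' z' *
      Qf ℓ κ (fun x => φ x y z) (fun x => φ x y' z') ∂μ ∂μ ∂μ ∂μ =
      ∫ p : (E × E) × (E × E), b p.1 * b' p.2 *
        Qf ℓ κ (fun x => φ x p.1.1 p.1.2) (fun x => φ x p.2.1 p.2.2)
        ∂((μ.prod μ).prod (μ.prod μ)) := by
    have hQ := hQFM ℓ C κ φ hℓ hκ hφ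
    have h1 : BM (fun p : (E × E) × (E × E) => b p.1) := bm_comp hBMC hbB (by fun_prop)
    have h2 : BM (fun p : (E × E) × (E × E) => b' p.2) := bm_comp hBMC hbB' (by fun_prop)
    have hG := bm_mul hBMC (bm_mul hBMC h1 h2) hQ
    rw [integral_prod _ (bm_int hBMC hG _)]
    have hpar := bm_par hBMC (μ.prod μ) hG
    rw [integral_prod _ (bm_int hBMC hpar _)]
    refine integral_congr_ae (Eventually.of_forall fun y => ?_)
    refine integral_congr_ae (Eventually.of_forall fun z => ?_)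
    have hs : BM (fun q : E × E => b (y, z) * b' q *
        Qf ℓ κ (fun x => φ x y z) (fun x => φ x q.1 q.2)) :=
      bm_comp hBMC hG (f := fun q : E × E => ((y, z), q)) (by fun_prop)
    show _ = ∫ q : E × E, b (y, z) * b' q *
        Qf ℓ κ (fun x => φ x y z) (fun x => φ x q.1 q.2) ∂(μ.prod μ)
    rw [integral_prod _ (bm_int hBMC hs _)]
  rw [hL]
  -- the form of two slices
  have hQe : ∀ p : (E × E) × (E × E),
      Qf ℓ κ (fun x => φ x p.1.1 p.1.2) (fun x => φ x p.2.1 p.2.2) =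
      ∑ c, (∫ x, 1 * (dk c φ x p.1.1 p.1.2 * dk c φ x p.2.1 p.2.2) ∂μ) +
        1 / 3 * ∫ t : E × E, κ t.1 t.2 * ((φ t.1 p.1.1 p.1.2 - φ t.2 p.1.1 p.1.2) *
          (φ t.1 p.2.1 p.2.2 - φ t.2 p.2.1 p.2.2)) ∂(μ.prod μ) := by
    intro p
    have hJ : BM (fun t : E × E => κ t.1 t.2 * ((φ t.1 p.1.1 p.1.2 - φ t.2 p.1.1 p.1.2) *
          (φ t.1 p.2.1 p.2.2 - φ t.2 p.2.1 p.2.2))) := by
      have g1 : ∀ q : E × E, BM (fun t : E × E => φ t.1 q.1 q.2 - φ t.2 q.1 q.2) := fun q =>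
        bm_sub hBMC
          (bm_comp hBMC hφ.b0 (f := fun t : E × E => (t.1, q.1, q.2)) (by fun_prop))
          (bm_comp hBMC hφ.b0 (f := fun t : E × E => (t.2, q.1, q.2)) (by fun_prop))
      exact bm_mul hBMC hκ.bm (bm_mul hBMC (g1 p.1) (g1 p.2))
    rw [integral_prod _ (bm_int hBMC hJ _)]
    unfold Qf q1
    congr 1
    refine Finset.sum_congr rfl fun c _ => ?_
    refine integral_congr_ae (Eventually.of_forall fun x => ?_)
    show pd c (fun x => φ x p.1.1 p.1.2) x * pd c (fun x => φ x p.2.1 p.2.2) x =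
      1 * (dk c φ x p.1.1 p.1.2 * dk c φ x p.2.1 p.2.2)
    rw [one_mul]
    rfl
  have hone : BM (fun _ : E => (1 : ℝ)) := hBMC.2.1 E 1
  have hgr : ∀ c, ∫ p : (E × E) × (E × E), b p.1 * b' p.2 *
      (∫ x, 1 * (dk c φ x p.1.1 p.1.2 * dk c φ x p.2.1 p.2.2) ∂μ)
        ∂((μ.prod μ).prod (μ.prod μ)) =
      ∫ x, 1 * ((∫ q : E × E, dk c φ x q.1 q.2 * b q ∂(μ.prod μ)) *
        (∫ q : E × E, dk c φ x q.1 q.2 * b' q ∂(μ.prod μ))) ∂μ := fun c =>
    fub hBMC μ (μ.prod μ) (fun _ => 1) (fun x q => dk c φ x q.1 q.2) b b' hone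
      (bm_comp hBMC (hφ.b1 c) (f := fun p : E × (E × E) => (p.1, p.2.1, p.2.2)) (by fun_prop))
      hbB hbB'
  have hju : ∫ p : (E × E) × (E × E), b p.1 * b' p.2 *
      (∫ t : E × E, κ t.1 t.2 * ((φ t.1 p.1.1 p.1.2 - φ t.2 p.1.1 p.1.2) *
          (φ t.1 p.2.1 p.2.2 - φ t.2 p.2.1 p.2.2)) ∂(μ.prod μ))
        ∂((μ.prod μ).prod (μ.prod μ)) =
      ∫ t : E × E, κ t.1 t.2 *
        ((∫ q : E × E, (φ t.1 q.1 q.2 - φ t.2 q.1 q.2) * b q ∂(μ.prod μ)) *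
        (∫ q : E × E, (φ t.1 q.1 q.2 - φ t.2 q.1 q.2) * b' q ∂(μ.prod μ))) ∂(μ.prod μ) :=
    fub hBMC (μ.prod μ) (μ.prod μ) (fun t : E × E => κ t.1 t.2)
      (fun t q => φ t.1 q.1 q.2 - φ t.2 q.1 q.2) b b' hκ.bm
      (bm_sub hBMC
        (bm_comp hBMC hφ.b0 (f := fun p : (E × E) × (E × E) => (p.1.1, p.2.1, p.2.2))
          (by fun_prop))
        (bm_comp hBMC hφ.b0 (f := fun p : (E × E) × (E × E) => (p.1.2, p.2.1, p.2.2))
          (by fun_prop)))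
      hbB hbB'
  -- integrability of the two parts
  have hb1 : BM (fun p : (E × E) × (E × E) => b p.1 * b' p.2) :=
    bm_mul hBMC (bm_comp hBMC hbB (by fun_prop)) (bm_comp hBMC hbB' (by fun_prop))
  have hIg : ∀ c, BM (fun p : (E × E) × (E × E) =>
      ∫ x, 1 * (dk c φ x p.1.1 p.1.2 * dk c φ x p.2.1 p.2.2) ∂μ) := fun c => by
    have g1 : BM (fun s : ((E × E) × (E × E)) × E => dk c φ s.2 s.1.1.1 s.1.1.2) :=
      bm_comp hBMC (hφ.b1 c)
        (f := fun s : ((E × E) × (E × E)) × E => (s.2, s.1.1.1, s.1.1.2)) (by fun_prop)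
    have g2 : BM (fun s : ((E × E) × (E × E)) × E => dk c φ s.2 s.1.2.1 s.1.2.2) :=
      bm_comp hBMC (hφ.b1 c)
        (f := fun s : ((E × E) × (E × E)) × E => (s.2, s.1.2.1, s.1.2.2)) (by fun_prop)
    have g3 : BM (fun _ : ((E × E) × (E × E)) × E => (1 : ℝ)) := hBMC.2.1 _ 1
    exact bm_par hBMC μ (bm_mul hBMC g3 (bm_mul hBMC g1 g2))
  have hIj : BM (fun p : (E × E) × (E × E) =>
      ∫ t : E × E, κ t.1 t.2 * ((φ t.1 p.1.1 p.1.2 - φ t.2 p.1.1 p.1.2) *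
          (φ t.1 p.2.1 p.2.2 - φ t.2 p.2.1 p.2.2)) ∂(μ.prod μ)) := by
    have g0 : BM (fun s : ((E × E) × (E × E)) × (E × E) => κ s.2.1 s.2.2) :=
      bm_comp hBMC hκ.bm (f := fun s : ((E × E) × (E × E)) × (E × E) => s.2) (by fun_prop)
    have g1 : BM (fun s : ((E × E) × (E × E)) × (E × E) =>
        φ s.2.1 s.1.1.1 s.1.1.2 - φ s.2.2 s.1.1.1 s.1.1.2) := bm_sub hBMC
      (bm_comp hBMC hφ.b0 (f := fun s : ((E × E) × (E × E)) × (E × E) =>
        (s.2.1, s.1.1.1, s.1.1.2)) (by fun_prop))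
      (bm_comp hBMC hφ.b0 (f := fun s : ((E × E) × (E × E)) × (E × E) =>
        (s.2.2, s.1.1.1, s.1.1.2)) (by fun_prop))
    have g2 : BM (fun s : ((E × E) × (E × E)) × (E × E) =>
        φ s.2.1 s.1.2.1 s.1.2.2 - φ s.2.2 s.1.2.1 s.1.2.2) := bm_sub hBMC
      (bm_comp hBMC hφ.b0 (f := fun s : ((E × E) × (E × E)) × (E × E) =>
        (s.2.1, s.1.2.1, s.1.2.2)) (by fun_prop))
      (bm_comp hBMC hφ.b0 (f := fun s : ((E × E) × (E × E)) × (E × E) =>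
        (s.2.2, s.1.2.1, s.1.2.2)) (by fun_prop))
    exact bm_par hBMC (μ.prod μ) (bm_mul hBMC g0 (bm_mul hBMC g1 g2))
  have hsplit : ∫ p : (E × E) × (E × E), b p.1 * b' p.2 *
        Qf ℓ κ (fun x => φ x p.1.1 p.1.2) (fun x => φ x p.2.1 p.2.2)
        ∂((μ.prod μ).prod (μ.prod μ)) =
      ∑ c, (∫ p : (E × E) × (E × E), b p.1 * b' p.2 *
        (∫ x, 1 * (dk c φ x p.1.1 p.1.2 * dk c φ x p.2.1 p.2.2) ∂μ)
          ∂((μ.prod μ).prod (μ.prod μ))) +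
      1 / 3 * ∫ p : (E × E) × (E × E), b p.1 * b' p.2 *
        (∫ t : E × E, κ t.1 t.2 * ((φ t.1 p.1.1 p.1.2 - φ t.2 p.1.1 p.1.2) *
          (φ t.1 p.2.1 p.2.2 - φ t.2 p.2.1 p.2.2)) ∂(μ.prod μ))
        ∂((μ.prod μ).prod (μ.prod μ)) := by
    rw [← integral_finsetSum _ fun c _ => bm_int hBMC (bm_mul hBMC hb1 (hIg c)) _,
      ← integral_const_mul, ← integral_add
        (integrable_finsetSum _ fun c _ => bm_int hBMC (bm_mul hBMC hb1 (hIg c)) _)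
        ((bm_int hBMC (bm_mul hBMC hb1 hIj) _).const_mul _)]
    refine integral_congr_ae (Eventually.of_forall fun p => ?_)
    show b p.1 * b' p.2 * Qf ℓ κ (fun x => φ x p.1.1 p.1.2) (fun x => φ x p.2.1 p.2.2) = _
    rw [hQe p, mul_add, Finset.mul_sum]
    ring
  rw [hsplit, hju]
  simp_rw [hgr]
  -- the right side
  obtain ⟨-, hp⟩ := hOPD ℓ φ a hℓ hφ ha
  obtain ⟨-, hp'⟩ := hOPD ℓ φ a' hℓ hφ ha'
  have hqa : BM (fun x : E => ∫ q : E × E, φ x q.1 q.2 * b q ∂(μ.prod μ)) :=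
    bm_par hBMC (μ.prod μ) (bm_mul hBMC
      (bm_comp hBMC hφ.b0 (f := fun p : E × (E × E) => (p.1, p.2.1, p.2.2)) (by fun_prop))
      (bm_comp hBMC hbB (f := fun p : E × (E × E) => p.2) (by fun_prop)))
  have hqa' : BM (fun x : E => ∫ q : E × E, φ x q.1 q.2 * b' q ∂(μ.prod μ)) :=
    bm_par hBMC (μ.prod μ) (bm_mul hBMC
      (bm_comp hBMC hφ.b0 (f := fun p : E × (E × E) => (p.1, p.2.1, p.2.2)) (by fun_prop))
      (bm_comp hBMC hbB' (f := fun p : E × (E × E) => p.2) (by fun_prop)))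
  have hsl : ∀ (d : E × E → ℝ), BM d → ∀ x : E,
      Integrable (fun q : E × E => φ x q.1 q.2 * d q) (μ.prod μ) := fun d hd x =>
    bm_int hBMC (bm_mul hBMC
      (bm_comp hBMC hφ.b0 (f := fun q : E × E => (x, q.1, q.2)) (by fun_prop)) hd) _
  have hdiff : ∀ (d : E × E → ℝ), BM d → ∀ t : E × E,
      ∫ q : E × E, (φ t.1 q.1 q.2 - φ t.2 q.1 q.2) * d q ∂(μ.prod μ) =
      (∫ q : E × E, φ t.1 q.1 q.2 * d q ∂(μ.prod μ)) -
        ∫ q : E × E, φ t.2 q.1 q.2 * d q ∂(μ.prod μ) := by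
    intro d hd t
    rw [← integral_sub (hsl d hd t.1) (hsl d hd t.2)]
    refine integral_congr_ae (Eventually.of_forall fun q => ?_)
    show (φ t.1 q.1 q.2 - φ t.2 q.1 q.2) * d q = φ t.1 q.1 q.2 * d q - φ t.2 q.1 q.2 * d q
    ring
  unfold Qf q1
  congr 1
  · refine Finset.sum_congr rfl fun c _ => ?_
    refine integral_congr_ae (Eventually.of_forall fun x => ?_)
    show 1 * ((∫ q : E × E, dk c φ x q.1 q.2 * b q ∂(μ.prod μ)) *
        (∫ q : E × E, dk c φ x q.1 q.2 * b' q ∂(μ.prod μ))) =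
      pd c (fun x => ∫ y, ∫ z, φ x y z * a y z ∂μ ∂μ) x *
        pd c (fun x => ∫ y, ∫ z, φ x y z * a' y z ∂μ ∂μ) x
    rw [hp c x, hp' c x, one_mul, hconv _ a (hφ.b1 c) ha x, hconv _ a' (hφ.b1 c) ha' x]
  · congr 1
    have hT : BM (fun t : E × E => κ t.1 t.2 *
        (((∫ q : E × E, φ t.1 q.1 q.2 * b q ∂(μ.prod μ)) -
          ∫ q : E × E, φ t.2 q.1 q.2 * b q ∂(μ.prod μ)) *
        ((∫ q : E × E, φ t.1 q.1 q.2 * b' q ∂(μ.prod μ)) -
          ∫ q : E × E, φ t.2 q.1 q.2 * b' q ∂(μ.prod μ)))) := by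
      refine bm_mul hBMC hκ.bm (bm_mul hBMC ?_ ?_)
      · exact bm_sub hBMC (bm_comp hBMC hqa (f := fun t : E × E => t.1) (by fun_prop))
          (bm_comp hBMC hqa (f := fun t : E × E => t.2) (by fun_prop))
      · exact bm_sub hBMC (bm_comp hBMC hqa' (f := fun t : E × E => t.1) (by fun_prop))
          (bm_comp hBMC hqa' (f := fun t : E × E => t.2) (by fun_prop))
    have e1 : ∫ t : E × E, κ t.1 t.2 *
        ((∫ q : E × E, (φ t.1 q.1 q.2 - φ t.2 q.1 q.2) * b q ∂(μ.prod μ)) *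
        (∫ q : E × E, (φ t.1 q.1 q.2 - φ t.2 q.1 q.2) * b' q ∂(μ.prod μ))) ∂(μ.prod μ) =
        ∫ t : E × E, κ t.1 t.2 *
        (((∫ q : E × E, φ t.1 q.1 q.2 * b q ∂(μ.prod μ)) -
          ∫ q : E × E, φ t.2 q.1 q.2 * b q ∂(μ.prod μ)) *
        ((∫ q : E × E, φ t.1 q.1 q.2 * b' q ∂(μ.prod μ)) -
          ∫ q : E × E, φ t.2 q.1 q.2 * b' q ∂(μ.prod μ))) ∂(μ.prod μ) := by
      refine integral_congr_ae (Eventually.of_forall fun t => ?_)
      show κ t.1 t.2 * ((∫ q : E × E, (φ t.1 q.1 q.2 - φ t.2 q.1 q.2) * b q ∂(μ.prod μ)) *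
        (∫ q : E × E, (φ t.1 q.1 q.2 - φ t.2 q.1 q.2) * b' q ∂(μ.prod μ))) = _
      rw [hdiff b hbB t, hdiff b' hbB' t]
    rw [e1, integral_prod _ (bm_int hBMC hT _)]
    refine integral_congr_ae (Eventually.of_forall fun x => ?_)
    refine integral_congr_ae (Eventually.of_forall fun x' => ?_)
    show κ x x' * (((∫ q : E × E, φ x q.1 q.2 * b q ∂(μ.prod μ)) -
          ∫ q : E × E, φ x' q.1 q.2 * b q ∂(μ.prod μ)) *
        ((∫ q : E × E, φ x q.1 q.2 * b' q ∂(μ.prod μ)) -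
          ∫ q : E × E, φ x' q.1 q.2 * b' q ∂(μ.prod μ))) =
      κ x x' * (((∫ y, ∫ z, φ x y z * a y z ∂μ ∂μ) - ∫ y, ∫ z, φ x' y z * a y z ∂μ ∂μ) *
        ((∫ y, ∫ z, φ x y z * a' y z ∂μ ∂μ) - ∫ y, ∫ z, φ x' y z * a' y z ∂μ ∂μ))
    rw [hconv _ a hφ.b0 ha x, hconv _ a hφ.b0 ha x', hconv _ a' hφ.b0 ha' x,
      hconv _ a' hφ.b0 ha' x']

end Pool.Agent.TBL
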