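import Pool.Agent.TBL.Stmts

/-!
# TBL, module OPU: the weighted norm of `QQa` is bounded by the reserve
-/

set_option autoImplicit false

open MeasureTheory Filter Topology
open scoped ContDiff

namespace Pool.Agent.TBL

open Pool.Agent.TBG

namespace OPU_

/-- Jensen -/
theorem jensen {μ : Measure E} [IsProbabilityMeasure μ] {f : E → ℝ} (hf : Integrable f μ)
    (hf2 : Integrable (fun x => f x ^ 2) μ) : (∫ x, f x ∂μ) ^ 2 ≤ ∫ x, f x ^ 2 ∂μ := by
  set m := ∫ x, f x ∂μ with hm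
  have h0 : 0 ≤ ∫ x, (f x - m) ^ 2 ∂μ := integral_nonneg fun x => sq_nonneg _
  have h1 : ∫ x, (f x - m) ^ 2 ∂μ = (∫ x, f x ^ 2 ∂μ) - m ^ 2 := by
    have e : (fun x => (f x - m) ^ 2) = fun x => f x ^ 2 - (2 * m * f x - m ^ 2) := by
      funext x
      ring
    have i1 : Integrable (fun x => 2 * m * f x) μ := hf.const_mul (2 * m)
    have i2 : Integrable (fun _ : E => m ^ 2) μ := integrable_const _
    have i3 : Integrable (fun x => 2 * m * f x - m ^ 2) μ := i1.sub i2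
    rw [e, integral_sub hf2 i3, integral_sub i1 i2, integral_const_mul, ← hm]
    simp
    ring
  linarith

theorem swap2 (hBMC : Stmt_BMC) {μ : Measure E} [IsProbabilityMeasure μ] {a : E → E → ℝ}
    (ha : BM2 a) : ∫ y, ∫ z, a y z ∂μ ∂μ = ∫ z, ∫ y, a y z ∂μ ∂μ :=
  integral_integral_swap ((hBMC.1 (E × E) _ _ ha ha).2.2.2.2.2.2 (μ.prod μ))

theorem bm_swap (hBMC : Stmt_BMC) {a : E → E → ℝ} (ha : BM2 a) : BM2 (fun z y => a y z) :=
  hBMC.2.2.2.1 (E × E) (E × E) _ (fun p => (p.2, p.1)) ha (by fun_prop)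

theorem bm_av (hBMC : Stmt_BMC) {μ : Measure E} [IsProbabilityMeasure μ] {a : E → E → ℝ}
    (ha : BM2 a) : BM (fun y => ∫ z, a y z ∂μ) :=
  hBMC.2.2.2.2 E E μ (fun p => a p.1 p.2) ha

theorem bm_fst (hBMC : Stmt_BMC) {f : E → ℝ} (hf : BM f) : BM2 (fun y _ => f y) :=
  hBMC.2.2.2.1 E (E × E) f (fun p => p.1) hf (by fun_prop)

theorem bm_snd (hBMC : Stmt_BMC) {f : E → ℝ} (hf : BM f) : BM2 (fun _ z => f z) :=
  hBMC.2.2.2.1 E (E × E) f (fun p => p.2) hf (by fun_prop)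

theorem bm_sec (hBMC : Stmt_BMC) {a : E → E → ℝ} (ha : BM2 a) (y : E) : BM (fun z => a y z) :=
  hBMC.2.2.2.1 (E × E) E _ (fun z => (y, z)) ha (by fun_prop)

/-- averages of functions of three particles -/
theorem bm_av3 (hBMC : Stmt_BMC) {μ : Measure E} [IsProbabilityMeasure μ] {G : E → E → E → ℝ}
    (hG : BM3 G) : BM2 (fun x y => ∫ z, G x y z ∂μ) :=
  hBMC.2.2.2.2 (E × E) E μ (fun p => G p.1.1 p.1.2 p.2)
    (hBMC.2.2.2.1 (E × E × E) ((E × E) × E) _ (fun p => (p.1.1, p.1.2, p.2)) hG (by fun_prop))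

theorem bm_av3' (hBMC : Stmt_BMC) {μ : Measure E} [IsProbabilityMeasure μ] {G : E → E → E → ℝ}
    (hG : BM3 G) : BM2 (fun x z => ∫ y, G x y z ∂μ) :=
  hBMC.2.2.2.2 (E × E) E μ (fun p => G p.1.1 p.2 p.1.2)
    (hBMC.2.2.2.1 (E × E × E) ((E × E) × E) _ (fun p => (p.1.1, p.2, p.1.2)) hG (by fun_prop))

theorem bm_sec3 (hBMC : Stmt_BMC) {G : E → E → E → ℝ} (hG : BM3 G) (x : E) :
    BM2 (fun y z => G x y z) :=
  hBMC.2.2.2.1 (E × E × E) (E × E) _ (fun p => (x, p.1, p.2)) hG (by fun_prop)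

theorem swap3 (hBMC : Stmt_BMC) {μ : Measure E} [IsProbabilityMeasure μ] {G : E → E → E → ℝ}
    (hG : BM3 G) : ∫ x, ∫ y, ∫ z, G x y z ∂μ ∂μ ∂μ = ∫ z, ∫ x, ∫ y, G x y z ∂μ ∂μ ∂μ := by
  have e1 : ∀ x, ∫ y, ∫ z, G x y z ∂μ ∂μ = ∫ z, ∫ y, G x y z ∂μ ∂μ := fun x =>
    swap2 hBMC (bm_sec3 hBMC hG x)
  simp only [e1]
  exact swap2 hBMC (bm_av3' hBMC hG)

end OPU_

open OPU_ in
theorem opu_proof (hBMC : Stmt_BMC) (hMES : Stmt_MES) : Stmt_OPU := by
  intro ℓ C κ a hℓ hC hR ha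
  have : IsProbabilityMeasure (nuc ℓ) := (hMES ℓ hℓ).2.2.2.1
  set μ := nuc ℓ with hμ
  have int1 : ∀ {f : E → ℝ}, BM f → Integrable f μ := fun {f} hf =>
    (hBMC.1 E _ _ hf hf).2.2.2.2.2.2 μ
  set A1 : E → ℝ := fun z => ∫ y', a y' z ∂μ with hA1
  set A2 : E → ℝ := fun y => ∫ z', a y z' ∂μ with hA2
  set P : ℝ := ∫ y', ∫ z', a y' z' ∂μ ∂μ with hP
  have bA1 : BM A1 := bm_av hBMC (bm_swap hBMC ha)
  have bA2 : BM A2 := bm_av hBMC ha
  -- the weight
  have bU : BM2 (fun y z => Ur ℓ ‖y - z‖) := by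
    refine ⟨?_, ℓ⁻¹, ?_⟩
    · unfold Ur
      fun_prop
    · intro p
      unfold Ur
      rw [abs_of_nonneg (by positivity)]
      apply inv_anti₀ hℓ
      have : 0 ≤ ℓ ^ (1 / 2 : ℝ) * ‖p.1 - p.2‖ ^ (3 / 2 : ℝ) := by positivity
      linarith
  set q : E → E → ℝ := fun y z => a y z - A1 z - A2 y + P with hq
  have bq : BM2 q := by
    have h1 : BM2 (fun y z => a y z - A1 z) := (hBMC.1 (E × E) _ _ ha (bm_snd hBMC bA1)).2.1
    have h2 : BM2 (fun y z => a y z - A1 z - A2 y) :=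
      (hBMC.1 (E × E) _ _ h1 (bm_fst hBMC bA2)).2.1
    exact (hBMC.1 (E × E) _ _ h2 (hBMC.2.1 (E × E) P)).1
  have bq2 : BM2 (fun y z => q y z ^ 2) := (hBMC.1 (E × E) _ _ bq bq).2.2.2.1
  have bUq : BM2 (fun y z => Ur ℓ ‖y - z‖ * q y z ^ 2) := (hBMC.1 (E × E) _ _ bU bq2).2.2.1
  -- the jump form of functions of two particles
  have jG : ∀ {g : E → E → ℝ}, BM2 g → BM3 (fun x y z => κ x y * ((g x z - g y z) *
      (g x z - g y z))) := by
    intro g hg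
    have g1 : BM3 (fun x _ z => g x z) :=
      hBMC.2.2.2.1 (E × E) (E × E × E) _ (fun p => (p.1, p.2.2)) hg (by fun_prop)
    have g2 : BM3 (fun _ y z => g y z) :=
      hBMC.2.2.2.1 (E × E) (E × E × E) _ (fun p => (p.2.1, p.2.2)) hg (by fun_prop)
    have g3 : BM3 (fun x y _ => κ x y) :=
      hBMC.2.2.2.1 (E × E) (E × E × E) _ (fun p => (p.1, p.2.1)) hR.bm (by fun_prop)
    have g4 : BM3 (fun x y z => g x z - g y z) := (hBMC.1 (E × E × E) _ _ g1 g2).2.1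
    have g5 : BM3 (fun x y z => (g x z - g y z) * (g x z - g y z)) :=
      (hBMC.1 (E × E × E) _ _ g4 g4).2.2.1
    exact (hBMC.1 (E × E × E) _ _ g3 g5).2.2.1
  have jBM : ∀ {g : E → E → ℝ}, BM2 g → BM (fun z => q1 ℓ κ (fun y => g y z) (fun y => g y z)) := by
    intro g hg
    have h1 := bm_av3' hBMC (μ := μ) (jG hg)
    exact bm_av hBMC (bm_swap hBMC h1)
  -- functions
  have bf : BM2 (fun y z => a y z - A2 y) := (hBMC.1 (E × E) _ _ ha (bm_fst hBMC bA2)).2.1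
  have hmean : ∀ z, ∫ y, (a y z - A2 y) ∂μ = A1 z - P := by
    intro z
    rw [integral_sub (int1 (bm_sec hBMC (bm_swap hBMC ha) z)) (int1 bA2)]
  have k4 : ∀ z, ∫ y, Ur ℓ ‖y - z‖ * q y z ^ 2 ∂μ ≤
      C * q1 ℓ κ (fun y => a y z - A2 y) (fun y => a y z - A2 y) := by
    intro z
    have h := hR.k4 (fun y => a y z - A2 y) (bm_sec hBMC (bm_swap hBMC bf) z) z
    refine (le_of_eq ?_).trans h
    apply integral_congr_ae
    filter_upwards with y
    have := hmean z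
    simp only [hq]
    rw [this]
    ring
  have two : ∀ z, q1 ℓ κ (fun y => a y z - A2 y) (fun y => a y z - A2 y) ≤
      2 * q1 ℓ κ (fun y => a y z) (fun y => a y z) + 2 * q1 ℓ κ A2 A2 := by
    intro z
    unfold q1
    have bA22 : BM2 (fun y _ => A2 y) := bm_fst hBMC bA2
    have s1 : ∀ {g : E → E → ℝ}, BM2 g → BM2 (fun x y => κ x y * ((g x z - g y z) *
        (g x z - g y z))) := by
      intro g hg
      exact hBMC.2.2.2.1 (E × E × E) (E × E) _ (fun p => (p.1, p.2, z)) (jG hg) (by fun_prop)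
    have i1 := s1 ha
    have i2 : BM2 (fun x y => κ x y * ((A2 x - A2 y) * (A2 x - A2 y))) := s1 bA22
    have i3 := s1 bf
    have i12 : BM2 (fun x y => 2 * (κ x y * ((a x z - a y z) * (a x z - a y z))) +
        2 * (κ x y * ((A2 x - A2 y) * (A2 x - A2 y)))) :=
      (hBMC.1 (E × E) _ _ ((hBMC.1 (E × E) _ _ i1 i1).2.2.2.2.2.1 2)
        ((hBMC.1 (E × E) _ _ i2 i2).2.2.2.2.2.1 2)).1
    have e : 2 * (∫ x, ∫ y, κ x y * ((a x z - a y z) * (a x z - a y z)) ∂μ ∂μ) +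
        2 * (∫ x, ∫ y, κ x y * ((A2 x - A2 y) * (A2 x - A2 y)) ∂μ ∂μ) =
        ∫ x, ∫ y, (2 * (κ x y * ((a x z - a y z) * (a x z - a y z))) +
        2 * (κ x y * ((A2 x - A2 y) * (A2 x - A2 y)))) ∂μ ∂μ := by
      rw [← integral_const_mul, ← integral_const_mul,
        ← integral_add ((int1 (bm_av hBMC i1)).const_mul 2) ((int1 (bm_av hBMC i2)).const_mul 2)]
      apply integral_congr_ae
      filter_upwards with x
      rw [integral_add ((int1 (bm_sec hBMC i1 x)).const_mul 2)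
        ((int1 (bm_sec hBMC i2 x)).const_mul 2), integral_const_mul, integral_const_mul]
    rw [e]
    refine integral_mono (int1 (bm_av hBMC i3)) (int1 (bm_av hBMC i12)) fun x => ?_
    refine integral_mono (int1 (bm_sec hBMC i3 x)) (int1 (bm_sec hBMC i12 x)) fun y => ?_
    simp only
    have h1 : (a x z - A2 x - (a y z - A2 y)) * (a x z - A2 x - (a y z - A2 y)) ≤
        2 * ((a x z - a y z) * (a x z - a y z)) + 2 * ((A2 x - A2 y) * (A2 x - A2 y)) := by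
      nlinarith [sq_nonneg ((a x z - a y z) + (A2 x - A2 y))]
    have h2 := mul_le_mul_of_nonneg_left h1 (hR.nonneg x y)
    linarith
  have jen : q1 ℓ κ A2 A2 ≤ ∫ z, q1 ℓ κ (fun y => a y z) (fun y => a y z) ∂μ := by
    have e1 : ∫ z, q1 ℓ κ (fun y => a y z) (fun y => a y z) ∂μ =
        ∫ x, ∫ y, ∫ z, κ x y * ((a x z - a y z) * (a x z - a y z)) ∂μ ∂μ ∂μ :=
      (swap3 hBMC (jG ha)).symm
    rw [e1]
    unfold q1
    have i2 : BM2 (fun x y => κ x y * ((A2 x - A2 y) * (A2 x - A2 y))) := by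
      have h1 : BM2 (fun x y => A2 x - A2 y) :=
        (hBMC.1 (E × E) _ _ (bm_fst hBMC bA2) (bm_snd hBMC bA2)).2.1
      have h2 : BM2 (fun x y => (A2 x - A2 y) * (A2 x - A2 y)) :=
        (hBMC.1 (E × E) _ _ h1 h1).2.2.1
      exact (hBMC.1 (E × E) _ _ hR.bm h2).2.2.1
    have i3 : BM2 (fun x y => ∫ z, κ x y * ((a x z - a y z) * (a x z - a y z)) ∂μ) :=
      bm_av3 hBMC (jG ha)
    refine integral_mono (int1 (bm_av hBMC i2)) (int1 (bm_av hBMC i3)) fun x => ?_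
    refine integral_mono (int1 (bm_sec hBMC i2 x)) (int1 (bm_sec hBMC i3 x)) fun y => ?_
    simp only
    rw [integral_const_mul]
    refine mul_le_mul_of_nonneg_left ?_ (hR.nonneg x y)
    have s1 : BM (fun z => a x z) := bm_sec hBMC ha x
    have s2 : BM (fun z => a y z) := bm_sec hBMC ha y
    have s3 : BM (fun z => a x z - a y z) := (hBMC.1 E _ _ s1 s2).2.1
    have s4 : BM (fun z => (a x z - a y z) ^ 2) := (hBMC.1 E _ _ s3 s3).2.2.2.1
    have h1 := jensen (int1 s3) (int1 s4)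
    rw [integral_sub (int1 s1) (int1 s2)] at h1
    have h2 : (fun z => (a x z - a y z) ^ 2) = fun z => (a x z - a y z) * (a x z - a y z) := by
      funext z
      ring
    rw [h2] at h1
    rw [← pow_two]
    exact h1
  -- assembly
  have bJ := jBM ha
  have bJf := jBM bf
  have main : ∫ z, ∫ y, Ur ℓ ‖y - z‖ * q y z ^ 2 ∂μ ∂μ ≤
      C * ∫ z, q1 ℓ κ (fun y => a y z - A2 y) (fun y => a y z - A2 y) ∂μ := by
    rw [← integral_const_mul]
    exact integral_mono (int1 (bm_av hBMC (bm_swap hBMC bUq))) ((int1 bJf).const_mul C) k4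
  have main2 : ∫ z, q1 ℓ κ (fun y => a y z - A2 y) (fun y => a y z - A2 y) ∂μ ≤
      2 * (∫ z, q1 ℓ κ (fun y => a y z) (fun y => a y z) ∂μ) + 2 * q1 ℓ κ A2 A2 := by
    have e : 2 * (∫ z, q1 ℓ κ (fun y => a y z) (fun y => a y z) ∂μ) + 2 * q1 ℓ κ A2 A2 =
        ∫ z, (2 * q1 ℓ κ (fun y => a y z) (fun y => a y z) + 2 * q1 ℓ κ A2 A2) ∂μ := by
      rw [integral_add ((int1 bJ).const_mul 2) (integrable_const _), integral_const_mul]
      simp
    rw [e]
    exact integral_mono (int1 bJf) (((int1 bJ).const_mul 2).add (integrable_const _)) two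
  have goal : ∫ y, ∫ z, Ur ℓ ‖y - z‖ * q y z ^ 2 ∂μ ∂μ ≤
      4 * C * ∫ z, q1 ℓ κ (fun y => a y z) (fun y => a y z) ∂μ := by
    rw [swap2 hBMC bUq]
    refine main.trans ?_
    have h1 : ∫ z, q1 ℓ κ (fun y => a y z - A2 y) (fun y => a y z - A2 y) ∂μ ≤
        4 * ∫ z, q1 ℓ κ (fun y => a y z) (fun y => a y z) ∂μ := by linarith
    have h2 := mul_le_mul_of_nonneg_left h1 hC.le
    linarith
  exact goal

end Pool.Agent.TBL
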