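import Pool.Agent.TBL.Stmts

/-!
# TBL, module OPW: weighted Schur test
-/

set_option autoImplicit false

open MeasureTheory Filter Topology
open scoped ContDiff

namespace Pool.Agent.TBL

open Pool.Agent.TBG

namespace OPW_

theorem Ur_pos {ℓ s : ℝ} (hℓ : 0 < ℓ) (hs : 0 ≤ s) : 0 < Ur ℓ s := by
  unfold Ur
  have h1 : 0 ≤ ℓ ^ (1 / 2 : ℝ) := Real.rpow_nonneg hℓ.le _
  have h2 : 0 ≤ s ^ (3 / 2 : ℝ) := Real.rpow_nonneg hs _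
  positivity

theorem Ur_le {ℓ s : ℝ} (hℓ : 1 ≤ ℓ) (hs : 0 ≤ s) : Ur ℓ s ≤ 1 := by
  unfold Ur
  have h1 : 0 ≤ ℓ ^ (1 / 2 : ℝ) := Real.rpow_nonneg (by linarith) _
  have h2 : 0 ≤ s ^ (3 / 2 : ℝ) := Real.rpow_nonneg hs _
  have h3 : 0 ≤ ℓ ^ (1 / 2 : ℝ) * s ^ (3 / 2 : ℝ) := mul_nonneg h1 h2
  exact inv_le_one_of_one_le₀ (by linarith)

/-- `1/Ur ≤ 2 ℓ (1+s)²` -/
theorem Ur_inv_le {ℓ s : ℝ} (hℓ : 1 ≤ ℓ) (hs : 0 ≤ s) : (Ur ℓ s)⁻¹ ≤ 2 * ℓ * (1 + s) ^ 2 := by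
  unfold Ur
  rw [inv_inv]
  have h1 : ℓ ^ (1 / 2 : ℝ) ≤ ℓ := by
    calc ℓ ^ (1 / 2 : ℝ) ≤ ℓ ^ (1 : ℝ) := Real.rpow_le_rpow_of_exponent_le hℓ (by norm_num)
      _ = ℓ := Real.rpow_one ℓ
  have h2 : s ^ (3 / 2 : ℝ) ≤ (1 + s) ^ 2 := by
    calc s ^ (3 / 2 : ℝ) ≤ (1 + s) ^ (3 / 2 : ℝ) :=
          Real.rpow_le_rpow hs (by linarith) (by norm_num)
      _ ≤ (1 + s) ^ (2 : ℝ) := Real.rpow_le_rpow_of_exponent_le (by linarith) (by norm_num)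
      _ = (1 + s) ^ 2 := by norm_cast
  have h3 : 0 ≤ s ^ (3 / 2 : ℝ) := Real.rpow_nonneg hs _
  have h4 : ℓ ^ (1 / 2 : ℝ) * s ^ (3 / 2 : ℝ) ≤ ℓ * (1 + s) ^ 2 := by
    apply mul_le_mul h1 h2 h3 (by linarith)
  have h5 : ℓ ≤ ℓ * (1 + s) ^ 2 := by
    have : 1 ≤ (1 + s) ^ 2 := by nlinarith
    nlinarith
  linarith

theorem measurable_Ur (ℓ : ℝ) : Measurable (fun s : ℝ => Ur ℓ s) := by
  unfold Ur
  fun_prop

end OPW_

open OPW_ in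
theorem opw_proof (hBMC : Stmt_BMC) (hMES : Stmt_MES) (hNUM : Stmt_NUM) : Stmt_OPW := by
  intro C hC
  obtain ⟨CN, hCN, hN⟩ := hNUM
  refine ⟨C ^ 2 * CN ^ 2, by positivity, fun ℓ hℓ k a hk ha hka => ?_⟩
  have num := hN ℓ hℓ
  have hℓ0 : 0 < ℓ := by linarith
  obtain ⟨-, -, -, hprob, -⟩ := hMES ℓ hℓ0
  obtain ⟨hB1, hB2, hB3, hB4, hB5⟩ := hBMC
  have hint : ∀ {α : Type} [MeasurableSpace α] {F : α → ℝ} (μ : Measure α) [IsFiniteMeasure μ],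
      BM F → Integrable F μ := fun {α} _ {F} μ _ h => (hB1 α F F h h).2.2.2.2.2.2 μ
  -- the functions
  let D : E × E × E → ℝ := fun p => ((1 + ‖p.1 - p.2.1‖ + ‖p.1 - p.2.2‖) ^ 5)⁻¹
  let s : E × E × E → ℝ := fun p => ‖p.2.1 - p.2.2‖
  have hDpos : ∀ p, 0 < D p := fun p => by
    have h1 := norm_nonneg (p.1 - p.2.1)
    have h2 := norm_nonneg (p.1 - p.2.2)
    show 0 < ((1 + ‖p.1 - p.2.1‖ + ‖p.1 - p.2.2‖) ^ 5)⁻¹
    positivity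
  have hs0 : ∀ p, 0 ≤ s p := fun p => norm_nonneg _
  have hD1 : ∀ p, D p * (1 + s p) ^ 2 ≤ 1 := fun p => by
    have h1 := norm_nonneg (p.1 - p.2.1)
    have h2 := norm_nonneg (p.1 - p.2.2)
    have h3 : s p ≤ ‖p.1 - p.2.1‖ + ‖p.1 - p.2.2‖ := by
      have : p.2.1 - p.2.2 = -(p.1 - p.2.1) + (p.1 - p.2.2) := by abel
      show ‖p.2.1 - p.2.2‖ ≤ _
      rw [this]
      refine (norm_add_le _ _).trans ?_
      rw [norm_neg]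
    have h4 := hs0 p
    show ((1 + ‖p.1 - p.2.1‖ + ‖p.1 - p.2.2‖) ^ 5)⁻¹ * (1 + s p) ^ 2 ≤ 1
    set T := 1 + ‖p.1 - p.2.1‖ + ‖p.1 - p.2.2‖ with hT
    have hT1 : 1 + s p ≤ T := by rw [hT]; linarith
    have hT2 : 1 ≤ T := by linarith
    rw [inv_mul_le_iff₀ (by positivity), mul_one]
    calc (1 + s p) ^ 2 ≤ T ^ 2 := by gcongr
      _ ≤ T ^ 5 := pow_le_pow_right₀ hT2 (by norm_num)
  have hD2 : ∀ p, D p ≤ 1 := fun p => by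
    have h1 : (1 : ℝ) ≤ (1 + s p) ^ 2 := by nlinarith [hs0 p]
    nlinarith [hD1 p, hDpos p]
  have hmD : Measurable D := by
    show Measurable fun p : E × E × E => ((1 + ‖p.1 - p.2.1‖ + ‖p.1 - p.2.2‖) ^ 5)⁻¹
    fun_prop
  have hms : Measurable s := by
    show Measurable fun p : E × E × E => ‖p.2.1 - p.2.2‖
    fun_prop
  have hmU : Measurable fun p => Ur ℓ (s p) := (measurable_Ur ℓ).comp hms
  -- `P1 = D (1+s)^-2 / Ur`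
  let P1 : E × E × E → ℝ := fun p => D p * ((1 + s p) ^ 2)⁻¹ * (Ur ℓ (s p))⁻¹
  have hP1 : BM P1 := by
    refine ⟨by
      show Measurable fun p => D p * ((1 + s p) ^ 2)⁻¹ * (Ur ℓ (s p))⁻¹
      fun_prop, 2 * ℓ, fun p => ?_⟩
    have h1 := Ur_pos hℓ0 (hs0 p)
    have h2 := Ur_inv_le hℓ (hs0 p)
    have h3 : 0 < (1 + s p) ^ 2 := by have := hs0 p; positivity
    have h4 : 0 ≤ P1 p := by
      show 0 ≤ D p * ((1 + s p) ^ 2)⁻¹ * (Ur ℓ (s p))⁻¹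
      have := hDpos p
      positivity
    rw [abs_of_nonneg h4]
    show D p * ((1 + s p) ^ 2)⁻¹ * (Ur ℓ (s p))⁻¹ ≤ 2 * ℓ
    calc D p * ((1 + s p) ^ 2)⁻¹ * (Ur ℓ (s p))⁻¹
        ≤ 1 * ((1 + s p) ^ 2)⁻¹ * (2 * ℓ * (1 + s p) ^ 2) := by
          apply mul_le_mul _ h2 (inv_nonneg.2 h1.le) (by positivity)
          exact mul_le_mul_of_nonneg_right (hD2 p) (by positivity)
      _ = 2 * ℓ := by
          rw [one_mul, mul_comm (2 * ℓ), ← mul_assoc, inv_mul_cancel₀ h3.ne', one_mul]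
  -- `P2 = D (1+s)^2 Ur a²`
  have haB : BM (fun p : E × E × E => a p.2.1 p.2.2) :=
    hB4 (E × E) (E × E × E) (fun p => a p.1 p.2) (fun p => p.2) ha measurable_snd
  obtain ⟨ham, A, hA⟩ := haB
  let P2 : E × E × E → ℝ := fun p => D p * ((1 + s p) ^ 2 * Ur ℓ (s p) * a p.2.1 p.2.2 ^ 2)
  have hP2 : BM P2 := by
    refine ⟨hmD.mul ((((measurable_const.add hms).pow_const 2).mul hmU).mul (ham.pow_const 2)),
      A ^ 2, fun p => ?_⟩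
    have h1 := Ur_pos hℓ0 (hs0 p)
    have h2 := Ur_le hℓ (hs0 p)
    have h3 : 0 < (1 + s p) ^ 2 := by have := hs0 p; positivity
    have h5 := hDpos p
    have h4 : 0 ≤ P2 p := by
      show 0 ≤ D p * ((1 + s p) ^ 2 * Ur ℓ (s p) * a p.2.1 p.2.2 ^ 2)
      positivity
    rw [abs_of_nonneg h4]
    show D p * ((1 + s p) ^ 2 * Ur ℓ (s p) * a p.2.1 p.2.2 ^ 2) ≤ A ^ 2
    have h6 : a p.2.1 p.2.2 ^ 2 ≤ A ^ 2 := by
      rw [← sq_abs]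
      have := hA p
      gcongr
    calc D p * ((1 + s p) ^ 2 * Ur ℓ (s p) * a p.2.1 p.2.2 ^ 2)
        = (D p * (1 + s p) ^ 2) * Ur ℓ (s p) * a p.2.1 p.2.2 ^ 2 := by ring
      _ ≤ 1 * 1 * A ^ 2 := by
          have := hD1 p
          gcongr
      _ = A ^ 2 := by ring
  have hkk : BM (fun p : E × E × E => k p.1 p.2.1 p.2.2 * a p.2.1 p.2.2) :=
    (hB1 _ _ _ hk ⟨ham, A, hA⟩).2.2.1
  -- slices
  have hsl : ∀ {F : E × E × E → ℝ}, BM F → ∀ x, BM (fun q : E × E => F (x, q)) := fun {F} hF x =>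
    hB4 (E × E × E) (E × E) F (fun q => (x, q)) hF (by fun_prop)
  have hfub : ∀ {F : E × E × E → ℝ}, BM F → ∀ x, ∫ y, ∫ z, F (x, y, z) ∂(nuc ℓ) ∂(nuc ℓ) =
      ∫ q, F (x, q) ∂((nuc ℓ).prod (nuc ℓ)) := fun {F} hF x => by
    have := integral_prod (fun q : E × E => F (x, q)) (hint ((nuc ℓ).prod (nuc ℓ)) (hsl hF x))
    rw [this]
  have hBint : ∀ {F : E × E × E → ℝ}, BM F →
      BM (fun x => ∫ q, F (x, q) ∂((nuc ℓ).prod (nuc ℓ))) := fun {F} hF =>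
    hB5 E (E × E) ((nuc ℓ).prod (nuc ℓ)) F hF
  -- Cauchy-Schwarz
  have hCS : ∀ x, (∫ y, ∫ z, k x y z * a y z ∂(nuc ℓ) ∂(nuc ℓ)) ^ 2 ≤
      (C * CN / ℓ ^ 5) * (C * ∫ q, P2 (x, q) ∂((nuc ℓ).prod (nuc ℓ))) := by
    intro x
    have e0 := hfub hkk x
    simp only at e0
    rw [e0]
    set K := ∫ q : E × E, k x q.1 q.2 * a q.1 q.2 ∂((nuc ℓ).prod (nuc ℓ)) with hK
    set A1 := ∫ q, P1 (x, q) ∂((nuc ℓ).prod (nuc ℓ)) with hA1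
    set B1 := ∫ q, P2 (x, q) ∂((nuc ℓ).prod (nuc ℓ)) with hB1'
    have i0 := hint ((nuc ℓ).prod (nuc ℓ)) (hsl hkk x)
    have i1 := hint ((nuc ℓ).prod (nuc ℓ)) (hsl hP1 x)
    have i2 := hint ((nuc ℓ).prod (nuc ℓ)) (hsl hP2 x)
    have hq : ∀ t : ℝ, 0 ≤ (C * A1) * (t * t) + (2 * K) * t + C * B1 := by
      intro t
      have e1 : (C * A1) * (t * t) + (2 * K) * t + C * B1 =
          ∫ q, (C * (t * t) * P1 (x, q) + 2 * t * (k x q.1 q.2 * a q.1 q.2) + C * P2 (x, q))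
            ∂((nuc ℓ).prod (nuc ℓ)) := by
        have a1 : Integrable (fun q : E × E => C * (t * t) * P1 (x, q))
            ((nuc ℓ).prod (nuc ℓ)) := i1.const_mul _
        have a2 : Integrable (fun q : E × E => 2 * t * (k x q.1 q.2 * a q.1 q.2))
            ((nuc ℓ).prod (nuc ℓ)) := i0.const_mul _
        have a3 : Integrable (fun q : E × E => C * P2 (x, q))
            ((nuc ℓ).prod (nuc ℓ)) := i2.const_mul _
        have a12 : Integrable (fun q : E × E => C * (t * t) * P1 (x, q) +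
            2 * t * (k x q.1 q.2 * a q.1 q.2)) ((nuc ℓ).prod (nuc ℓ)) := a1.add a2
        rw [integral_add a12 a3, integral_add a1 a2, integral_const_mul,
          integral_const_mul, integral_const_mul]
        ring
      rw [e1]
      refine integral_nonneg fun q => ?_
      show 0 ≤ C * (t * t) * P1 (x, q) + 2 * t * (k x q.1 q.2 * a q.1 q.2) + C * P2 (x, q)
      have h1 := Ur_pos hℓ0 (hs0 (x, q))
      have h3 : 0 < (1 + s (x, q)) ^ 2 := by have := hs0 (x, q); positivity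
      have h5 := hDpos (x, q)
      set m := (1 + s (x, q)) ^ 2 * Ur ℓ (s (x, q)) with hm
      have hmpos : 0 < m := by positivity
      have e2 : P1 (x, q) = D (x, q) * m⁻¹ := by
        show D (x, q) * ((1 + s (x, q)) ^ 2)⁻¹ * (Ur ℓ (s (x, q)))⁻¹ = _
        rw [hm, mul_inv]; ring
      have e3 : P2 (x, q) = D (x, q) * (m * a q.1 q.2 ^ 2) := rfl
      have e4 : |k x q.1 q.2| ≤ C * D (x, q) := by
        have := hka x q.1 q.2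
        rw [div_eq_mul_inv] at this
        exact this
      rw [e2, e3]
      have e5 : |2 * t * (k x q.1 q.2 * a q.1 q.2)| ≤ 2 * |t| * (C * D (x, q) * |a q.1 q.2|) := by
        rw [abs_mul, abs_mul, abs_mul, abs_two]
        have := abs_nonneg t
        have := abs_nonneg (a q.1 q.2)
        gcongr
      have e6 : 0 ≤ (|t| - m * |a q.1 q.2|) ^ 2 * m⁻¹ := by positivity
      have e7 : (|t| - m * |a q.1 q.2|) ^ 2 * m⁻¹ =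
          t * t * m⁻¹ - 2 * |t| * |a q.1 q.2| + m * a q.1 q.2 ^ 2 := by
        have : m * m⁻¹ = 1 := mul_inv_cancel₀ hmpos.ne'
        calc (|t| - m * |a q.1 q.2|) ^ 2 * m⁻¹ = |t| ^ 2 * m⁻¹ - 2 * |t| * |a q.1 q.2| * (m * m⁻¹)
              + |a q.1 q.2| ^ 2 * m * (m * m⁻¹) := by ring
          _ = _ := by rw [this, sq_abs, sq_abs]; ring
      rw [e7] at e6
      have e8 := neg_abs_le (2 * t * (k x q.1 q.2 * a q.1 q.2))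
      have e9 : 0 ≤ C * D (x, q) * (t * t * m⁻¹ - 2 * |t| * |a q.1 q.2| + m * a q.1 q.2 ^ 2) :=
        mul_nonneg (by positivity) e6
      nlinarith
    have hdisc := discrim_le_zero hq
    unfold discrim at hdisc
    have hKK : K ^ 2 ≤ (C * A1) * (C * B1) := by nlinarith
    have hB1n : 0 ≤ B1 := by
      refine integral_nonneg fun q => ?_
      show 0 ≤ D (x, q) * ((1 + s (x, q)) ^ 2 * Ur ℓ (s (x, q)) * a q.1 q.2 ^ 2)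
      have h1 := Ur_pos hℓ0 (hs0 (x, q))
      have h5 := hDpos (x, q)
      positivity
    have hA1b : A1 ≤ CN / ℓ ^ 5 := by
      rw [hA1, ← hfub hP1 x]
      exact num.g x
    refine hKK.trans ?_
    have : C * A1 ≤ C * CN / ℓ ^ 5 := by
      rw [mul_div_assoc]
      gcongr
    exact mul_le_mul_of_nonneg_right this (by positivity)
  -- integrate in `x`
  have hBK : BM (fun x => (∫ y, ∫ z, k x y z * a y z ∂(nuc ℓ) ∂(nuc ℓ)) ^ 2) := by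
    have h1 := hBint hkk
    have h2 : (fun x => ∫ y, ∫ z, k x y z * a y z ∂(nuc ℓ) ∂(nuc ℓ)) =
        fun x => ∫ q : E × E, k x q.1 q.2 * a q.1 q.2 ∂((nuc ℓ).prod (nuc ℓ)) := by
      funext x
      exact hfub hkk x
    have h3 := (hB1 _ _ _ h1 h1).2.2.2.1
    simp only at h3
    have h4 : (fun x => (∫ y, ∫ z, k x y z * a y z ∂(nuc ℓ) ∂(nuc ℓ)) ^ 2) =
        fun x => (∫ q : E × E, k x q.1 q.2 * a q.1 q.2 ∂((nuc ℓ).prod (nuc ℓ))) ^ 2 := by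
      funext x
      rw [congrFun h2 x]
    rw [h4]
    exact h3
  have hstep1 : ∫ x, (∫ y, ∫ z, k x y z * a y z ∂(nuc ℓ) ∂(nuc ℓ)) ^ 2 ∂(nuc ℓ) ≤
      (C * CN / ℓ ^ 5) * (C * ∫ x, ∫ q, P2 (x, q) ∂((nuc ℓ).prod (nuc ℓ)) ∂(nuc ℓ)) := by
    rw [← integral_const_mul, ← integral_const_mul]
    exact integral_mono (hint _ hBK) (((hint _ (hBint hP2)).const_mul C).const_mul _) hCS
  -- Fubini
  have hswap : ∫ x, ∫ q, P2 (x, q) ∂((nuc ℓ).prod (nuc ℓ)) ∂(nuc ℓ) =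
      ∫ q, ∫ x, P2 (x, q) ∂(nuc ℓ) ∂((nuc ℓ).prod (nuc ℓ)) :=
    integral_integral_swap (hint ((nuc ℓ).prod ((nuc ℓ).prod (nuc ℓ))) hP2)
  -- the inner integral
  have hW : BM (fun q : E × E => Ur ℓ ‖q.1 - q.2‖ * a q.1 q.2 ^ 2) := by
    obtain ⟨ha1, A', hA'⟩ := ha
    refine ⟨?_, A' ^ 2, fun q => ?_⟩
    · have h1 : Measurable fun q : E × E => Ur ℓ ‖q.1 - q.2‖ :=
        (measurable_Ur ℓ).comp (by fun_prop)
      exact h1.mul (ha1.pow_const 2)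
    · have h1 := Ur_pos hℓ0 (norm_nonneg (q.1 - q.2))
      have h2 := Ur_le hℓ (norm_nonneg (q.1 - q.2))
      have h6 : a q.1 q.2 ^ 2 ≤ A' ^ 2 := by
        rw [← sq_abs]
        have := hA' q
        gcongr
      rw [abs_of_nonneg (by positivity)]
      calc Ur ℓ ‖q.1 - q.2‖ * a q.1 q.2 ^ 2 ≤ 1 * A' ^ 2 := by gcongr
        _ = A' ^ 2 := one_mul _
  have hinner : ∀ q : E × E, ∫ x, P2 (x, q) ∂(nuc ℓ) ≤
      CN / ℓ ^ 3 * (Ur ℓ ‖q.1 - q.2‖ * a q.1 q.2 ^ 2) := by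
    intro q
    have e1 : (fun x => P2 (x, q)) = fun x => ((1 + ‖x - q.1‖ + ‖x - q.2‖) ^ 5)⁻¹ *
        ((1 + ‖q.1 - q.2‖) ^ 2 * Ur ℓ ‖q.1 - q.2‖ * a q.1 q.2 ^ 2) := rfl
    have e2 := num.e q.1 q.2
    have h1 := Ur_pos hℓ0 (norm_nonneg (q.1 - q.2))
    have h2 := norm_nonneg (q.1 - q.2)
    rw [e1, integral_mul_const]
    calc (∫ x, ((1 + ‖x - q.1‖ + ‖x - q.2‖) ^ 5)⁻¹ ∂(nuc ℓ)) *
          ((1 + ‖q.1 - q.2‖) ^ 2 * Ur ℓ ‖q.1 - q.2‖ * a q.1 q.2 ^ 2)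
        ≤ (CN / ℓ ^ 3 * ((1 + ‖q.1 - q.2‖) ^ 2)⁻¹) *
          ((1 + ‖q.1 - q.2‖) ^ 2 * Ur ℓ ‖q.1 - q.2‖ * a q.1 q.2 ^ 2) :=
          mul_le_mul_of_nonneg_right e2 (by positivity)
      _ = CN / ℓ ^ 3 * (Ur ℓ ‖q.1 - q.2‖ * a q.1 q.2 ^ 2) := by
          field_simp
  have hP2' : Integrable (fun q => ∫ x, P2 (x, q) ∂(nuc ℓ)) ((nuc ℓ).prod (nuc ℓ)) :=
    (hint ((nuc ℓ).prod ((nuc ℓ).prod (nuc ℓ))) hP2).integral_prod_right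
  have hstep2 : ∫ q, ∫ x, P2 (x, q) ∂(nuc ℓ) ∂((nuc ℓ).prod (nuc ℓ)) ≤
      CN / ℓ ^ 3 * ∫ y, ∫ z, Ur ℓ ‖y - z‖ * a y z ^ 2 ∂(nuc ℓ) ∂(nuc ℓ) := by
    have e1 : ∫ y, ∫ z, Ur ℓ ‖y - z‖ * a y z ^ 2 ∂(nuc ℓ) ∂(nuc ℓ) =
        ∫ q : E × E, Ur ℓ ‖q.1 - q.2‖ * a q.1 q.2 ^ 2 ∂((nuc ℓ).prod (nuc ℓ)) :=
      (integral_prod (fun q : E × E => Ur ℓ ‖q.1 - q.2‖ * a q.1 q.2 ^ 2) (hint _ hW)).symm
    rw [e1, ← integral_const_mul]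
    exact integral_mono hP2' ((hint _ hW).const_mul _) hinner
  calc ∫ x, (∫ y, ∫ z, k x y z * a y z ∂(nuc ℓ) ∂(nuc ℓ)) ^ 2 ∂(nuc ℓ)
      ≤ (C * CN / ℓ ^ 5) * (C * ∫ x, ∫ q, P2 (x, q) ∂((nuc ℓ).prod (nuc ℓ)) ∂(nuc ℓ)) := hstep1
    _ ≤ (C * CN / ℓ ^ 5) * (C *
        (CN / ℓ ^ 3 * ∫ y, ∫ z, Ur ℓ ‖y - z‖ * a y z ^ 2 ∂(nuc ℓ) ∂(nuc ℓ))) := by
        rw [hswap]
        gcongr
    _ = C ^ 2 * CN ^ 2 / ℓ ^ 8 * ∫ y, ∫ z, Ur ℓ ‖y - z‖ * a y z ^ 2 ∂(nuc ℓ) ∂(nuc ℓ) := by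
        field_simp

end Pool.Agent.TBL
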