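import Pool.Agent.TBL.Stmts

/-!
# Three-body Bose gases (MP_80dc41_mp): the Poincaré inequality on the cells
-/

set_option autoImplicit false

open MeasureTheory Filter Topology
open scoped ContDiff

namespace Pool.Agent.TBL

open Pool.Agent.TBG

namespace PCL_

/-- the corner of a cell -/
noncomputable def crk (ℓ : ℝ) (m : ℕ) (k : Fin 3 → Fin m) : E :=
  WithLp.toLp 2 (fun c => ((k c : ℕ) : ℝ) * (ℓ / m))

/-- the cell -/
noncomputable def Q (ℓ : ℝ) (m : ℕ) (k : Fin 3 → Fin m) : Set E := cub (ℓ / m) (crk ℓ m k)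

theorem mem_Q {ℓ : ℝ} {m : ℕ} (hℓ : 0 < ℓ) (hm : 0 < m) (k : Fin 3 → Fin m) (x : E) :
    x ∈ Q ℓ m k ↔ ∀ c, ⌊(m : ℝ) * x c / ℓ⌋ = ((k c : ℕ) : ℤ) := by
  have hm' : (0 : ℝ) < m := by exact_mod_cast hm
  have h0 : 0 < ℓ / m := div_pos hℓ hm'
  have key : ∀ c, (crk ℓ m k c ≤ x c ∧ x c < crk ℓ m k c + ℓ / m) ↔
      ⌊(m : ℝ) * x c / ℓ⌋ = ((k c : ℕ) : ℤ) := by
    intro c
    have h1 : crk ℓ m k c = ((k c : ℕ) : ℝ) * (ℓ / m) := rfl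
    rw [h1, Int.floor_eq_iff, Int.cast_natCast, le_div_iff₀ hℓ, div_lt_iff₀ hℓ]
    have h2 : ((k c : ℕ) : ℝ) * (ℓ / m) = ((k c : ℕ) : ℝ) * ℓ / m := by ring
    have h3 : ((k c : ℕ) : ℝ) * ℓ / m + ℓ / m = (((k c : ℕ) : ℝ) + 1) * ℓ / m := by ring
    rw [h2, h3, div_le_iff₀ hm', lt_div_iff₀ hm', mul_comm (x c)]
  exact forall_congr' key

theorem meas_eval (c : Fin 3) : Measurable (fun x : E => x c) :=
  (by fun_prop : Continuous (fun x : E => x c)).measurable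

theorem meas_Q (ℓ : ℝ) (m : ℕ) (k : Fin 3 → Fin m) : MeasurableSet (Q ℓ m k) := by
  have h1 : Q ℓ m k = ⋂ c, ({x : E | crk ℓ m k c ≤ x c} ∩ {x : E | x c < crk ℓ m k c + ℓ / m}) := by
    ext x
    rw [Set.mem_iInter]
    exact Iff.rfl
  rw [h1]
  exact MeasurableSet.iInter fun c =>
    (measurableSet_le measurable_const (meas_eval c)).inter
      (measurableSet_lt (meas_eval c) measurable_const)

theorem disj_Q {ℓ : ℝ} {m : ℕ} (hℓ : 0 < ℓ) (hm : 0 < m) :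
    Pairwise (Function.onFun Disjoint (Q ℓ m)) := by
  intro k k' hk
  refine Set.disjoint_left.2 fun x hx hx' => hk ?_
  funext c
  have h1 := (mem_Q hℓ hm k x).1 hx c
  have h2 := (mem_Q hℓ hm k' x).1 hx' c
  rw [h1] at h2
  exact Fin.ext (by exact_mod_cast h2)

theorem Q_sub {ℓ : ℝ} {m : ℕ} (hℓ : 0 < ℓ) (hm : 0 < m) (k : Fin 3 → Fin m) : Q ℓ m k ⊆ Lam ℓ := by
  intro x hx c
  have hm' : (0 : ℝ) < m := by exact_mod_cast hm
  have h1 := (hx c).1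
  have h2 := (hx c).2
  have h3 : crk ℓ m k c = ((k c : ℕ) : ℝ) * (ℓ / m) := rfl
  have h0 : 0 < ℓ / m := div_pos hℓ hm'
  have h4 : ((k c : ℕ) : ℝ) + 1 ≤ m := by exact_mod_cast (k c).isLt
  constructor
  · refine le_trans ?_ h1
    rw [h3]
    positivity
  · refine h2.le.trans ?_
    rw [h3]
    calc ((k c : ℕ) : ℝ) * (ℓ / m) + ℓ / m = (((k c : ℕ) : ℝ) + 1) * (ℓ / m) := by ring
      _ ≤ m * (ℓ / m) := mul_le_mul_of_nonneg_right h4 h0.le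
      _ = ℓ := by field_simp

theorem cell_Q {ℓ : ℝ} {m : ℕ} (hℓ : 0 < ℓ) (hm : 0 < m) (k : Fin 3 → Fin m) {x : E}
    (hx : x ∈ Q ℓ m k) (y : E) (r : ℝ) : cell ℓ m x y * r = (Q ℓ m k).indicator (fun _ => r) y := by
  have h1 := (mem_Q hℓ hm k x).1 hx
  have h2 : Same ℓ m x y ↔ y ∈ Q ℓ m k := by
    rw [mem_Q hℓ hm k y]
    unfold Same
    refine forall_congr' fun c => ?_
    rw [h1 c]
    exact eq_comm
  unfold cell
  by_cases h : y ∈ Q ℓ m k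
  · rw [if_pos (h2.2 h), Set.indicator_of_mem h, one_mul]
  · rw [if_neg (fun h' => h (h2.1 h')), Set.indicator_of_notMem h, zero_mul]

theorem cover {ℓ : ℝ} {m : ℕ} (hℓ : 0 < ℓ) (hm : 0 < m) {x : E} (hx : ∀ c, 0 < x c ∧ x c < ℓ) :
    x ∈ ⋃ k, Q ℓ m k := by
  have hm' : (0 : ℝ) < m := by exact_mod_cast hm
  have h1 : ∀ c, 0 ≤ ⌊(m : ℝ) * x c / ℓ⌋ := fun c =>
    Int.floor_nonneg.2 (div_nonneg (mul_nonneg hm'.le (hx c).1.le) hℓ.le)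
  have h2 : ∀ c, ⌊(m : ℝ) * x c / ℓ⌋ < m := by
    intro c
    rw [Int.floor_lt, Int.cast_natCast, div_lt_iff₀ hℓ]
    exact mul_lt_mul_of_pos_left (hx c).2 hm'
  refine Set.mem_iUnion.2 ⟨fun c => ⟨⌊(m : ℝ) * x c / ℓ⌋.toNat, ?_⟩, ?_⟩
  · have := h1 c
    have := h2 c
    omega
  · rw [mem_Q hℓ hm]
    intro c
    have := h1 c
    show _ = ((⌊(m : ℝ) * x c / ℓ⌋.toNat : ℕ) : ℤ)
    omega

theorem nuc_restrict {ℓ : ℝ} {s : Set E} (hs : MeasurableSet s) (h : s ⊆ Lam ℓ) :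
    (nuc ℓ).restrict s = (ENNReal.ofReal (ℓ ^ 3))⁻¹ • (volume.restrict s) := by
  unfold nuc
  rw [Measure.restrict_smul, Measure.restrict_restrict hs, Set.inter_eq_left.2 h]

theorem set_nuc {ℓ : ℝ} (hℓ : 0 < ℓ) {s : Set E} (hs : MeasurableSet s) (h : s ⊆ Lam ℓ) (g : E → ℝ) :
    ∫ x in s, g x ∂(nuc ℓ) = (ℓ ^ 3)⁻¹ * ∫ x in s, g x := by
  rw [nuc_restrict hs h, integral_smul_measure, ENNReal.toReal_inv,
    ENNReal.toReal_ofReal (by positivity), smul_eq_mul]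

end PCL_

open PCL_ in
theorem pcl_proof (_hB : Stmt_BMC) (hM : Stmt_MES) (_hC : Stmt_CEL) (hP : Stmt_PCO) : Stmt_PCL := by
  intro ℓ m f hℓ hm hf
  obtain ⟨-, -, -, hprob, hint, hae, hcont, -⟩ := hM ℓ hℓ
  have := hprob
  have hm' : (0 : ℝ) < m := by exact_mod_cast hm
  have hs : 0 < ℓ / m := div_pos hℓ hm'
  have hfc : Continuous f := hf.continuous
  -- decomposition of integrals
  have hdec : ∀ F : E → ℝ, (∀ k, IntegrableOn F (Q ℓ m k) (nuc ℓ)) →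
      ∫ x, F x ∂(nuc ℓ) = ∑ k, ∫ x in Q ℓ m k, F x ∂(nuc ℓ) := by
    intro F hF
    have h1 : (nuc ℓ).restrict (⋃ k, Q ℓ m k) = nuc ℓ :=
      Measure.restrict_eq_self_of_ae_mem (hae.mono fun x hx => cover hℓ hm hx.2)
    rw [← integral_iUnion_fintype (fun k => meas_Q ℓ m k) (disj_Q hℓ hm) hF, h1]
  -- the inner integral
  have hin : ∀ k, ∀ x ∈ Q ℓ m k, ∫ y, cell ℓ m x y * (f x - f y) ^ 2 ∂(nuc ℓ) =
      ∫ y in Q ℓ m k, (f x - f y) ^ 2 ∂(nuc ℓ) := by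
    intro k x hx
    rw [← integral_indicator (meas_Q ℓ m k)]
    refine integral_congr_ae (Eventually.of_forall fun y => ?_)
    show cell ℓ m x y * (f x - f y) ^ 2 = _
    rw [cell_Q hℓ hm k hx]
    by_cases h : y ∈ Q ℓ m k
    · rw [Set.indicator_of_mem h, Set.indicator_of_mem h]
    · rw [Set.indicator_of_notMem h, Set.indicator_of_notMem h]
  have hpoly : ∀ k, ∀ x, ∫ y in Q ℓ m k, (f x - f y) ^ 2 ∂(nuc ℓ) =
      f x ^ 2 * (∫ y in Q ℓ m k, (1 : ℝ) ∂(nuc ℓ)) - 2 * f x * (∫ y in Q ℓ m k, f y ∂(nuc ℓ))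
        + ∫ y in Q ℓ m k, f y ^ 2 ∂(nuc ℓ) := by
    intro k x
    have i1 : IntegrableOn (fun _ : E => (1 : ℝ)) (Q ℓ m k) (nuc ℓ) :=
      (hcont _ continuous_const).integrableOn
    have i2 : IntegrableOn f (Q ℓ m k) (nuc ℓ) := (hcont _ hfc).integrableOn
    have i3 : IntegrableOn (fun y => f y ^ 2) (Q ℓ m k) (nuc ℓ) :=
      (hcont _ (hfc.pow 2)).integrableOn
    have j1 : IntegrableOn (fun _ : E => f x ^ 2 * 1) (Q ℓ m k) (nuc ℓ) := i1.const_mul _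
    have j2 : IntegrableOn (fun y => 2 * f x * f y) (Q ℓ m k) (nuc ℓ) := i2.const_mul _
    have j3 : IntegrableOn (fun y => f x ^ 2 * 1 - 2 * f x * f y) (Q ℓ m k) (nuc ℓ) := j1.sub j2
    rw [← integral_const_mul, ← integral_const_mul, ← integral_sub j1 j2, ← integral_add j3 i3]
    refine integral_congr_ae (Eventually.of_forall fun y => ?_)
    show (f x - f y) ^ 2 = f x ^ 2 * 1 - 2 * f x * f y + f y ^ 2
    ring
  have hF : ∀ k, IntegrableOn (fun x => ∫ y, cell ℓ m x y * (f x - f y) ^ 2 ∂(nuc ℓ)) (Q ℓ m k)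
      (nuc ℓ) := by
    intro k
    have h1 : IntegrableOn (fun x => ∫ y in Q ℓ m k, (f x - f y) ^ 2 ∂(nuc ℓ)) (Q ℓ m k)
        (nuc ℓ) := by
      refine Integrable.integrableOn (hcont _ ?_)
      simp only [hpoly k]
      fun_prop
    exact h1.congr_fun (fun x hx => (hin k x hx).symm) (meas_Q ℓ m k)
  have hL : ∫ x, ∫ y, cell ℓ m x y * (f x - f y) ^ 2 ∂(nuc ℓ) ∂(nuc ℓ) =
      ∑ k, (ℓ ^ 3)⁻¹ * ((ℓ ^ 3)⁻¹ * ∫ x in Q ℓ m k, ∫ y in Q ℓ m k, (f x - f y) ^ 2) := by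
    rw [hdec _ hF]
    refine Finset.sum_congr rfl fun k _ => ?_
    rw [setIntegral_congr_fun (meas_Q ℓ m k) (fun x hx => hin k x hx),
      set_nuc hℓ (meas_Q ℓ m k) (Q_sub hℓ hm k)]
    congr 1
    rw [← integral_const_mul]
    refine integral_congr_ae (Eventually.of_forall fun x => ?_)
    exact set_nuc hℓ (meas_Q ℓ m k) (Q_sub hℓ hm k) _
  have hpd : ∀ c, Continuous (fun x => (pd c f x) ^ 2) := by
    intro c
    have h1 : Continuous (fun x => fderiv ℝ f x (ev c)) :=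
      (hf.continuous_fderiv (by norm_num)).clm_apply continuous_const
    exact h1.pow 2
  have hR : ∀ c, ∫ x, (pd c f x) ^ 2 ∂(nuc ℓ) =
      ∑ k, (ℓ ^ 3)⁻¹ * ∫ x in Q ℓ m k, (pd c f x) ^ 2 := by
    intro c
    rw [hdec _ fun k => (hcont _ (hpd c)).integrableOn]
    exact Finset.sum_congr rfl fun k _ => set_nuc hℓ (meas_Q ℓ m k) (Q_sub hℓ hm k) _
  rw [hL]
  simp only [hR]
  rw [Finset.sum_comm, Finset.mul_sum, Finset.mul_sum]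
  refine Finset.sum_le_sum fun k _ => ?_
  have h1 := hP (ℓ / m) (crk ℓ m k) f hs hf
  have h2 : (0 : ℝ) ≤ (m : ℝ) ^ 3 * ((ℓ ^ 3)⁻¹ * (ℓ ^ 3)⁻¹) := by positivity
  rw [← Finset.mul_sum]
  calc (m : ℝ) ^ 3 * ((ℓ ^ 3)⁻¹ * ((ℓ ^ 3)⁻¹ * ∫ x in Q ℓ m k, ∫ y in Q ℓ m k, (f x - f y) ^ 2))
      = (m : ℝ) ^ 3 * ((ℓ ^ 3)⁻¹ * (ℓ ^ 3)⁻¹) * ∫ x in Q ℓ m k, ∫ y in Q ℓ m k, (f x - f y) ^ 2 := by
        ring
    _ ≤ (m : ℝ) ^ 3 * ((ℓ ^ 3)⁻¹ * (ℓ ^ 3)⁻¹) *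
        (3 * (ℓ / m) ^ 5 * ∑ c, ∫ x in Q ℓ m k, (pd c f x) ^ 2) :=
        mul_le_mul_of_nonneg_left h1 h2
    _ = 3 * (ℓ / m) ^ 2 * ((ℓ ^ 3)⁻¹ * ∑ c, ∫ x in Q ℓ m k, (pd c f x) ^ 2) := by
        field_simp

end Pool.Agent.TBL
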