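import Pool.Agent.TBL.Stmts

/-!
# Squad TBL, module PCO: the Poincaré inequality in one cube
-/

set_option autoImplicit false

open MeasureTheory Set
open scoped ENNReal

namespace Pool.Agent.TBL

open Pool.Agent.TBG

namespace PCO_

/-- the double integral of the squared differences -/
noncomputable def LL {α : Type} [MeasurableSpace α] (μ : Measure α) (h : α → ℝ) : ℝ≥0∞ :=
  ∫⁻ x, ∫⁻ y, ENNReal.ofReal ((h x - h y) ^ 2) ∂μ ∂μ

theorem pt_ineq (A B C t : ℝ) (ht : 0 < t) :
    (A - C) ^ 2 ≤ (1 + t) * (A - B) ^ 2 + (1 + 1 / t) * (B - C) ^ 2 := by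
  have h : (1 + t) * (A - B) ^ 2 + (1 + 1 / t) * (B - C) ^ 2 - (A - C) ^ 2 =
      (t * (A - B) - (B - C)) ^ 2 / t := by
    field_simp
    ring
  have h2 : 0 ≤ (t * (A - B) - (B - C)) ^ 2 / t := by positivity
  linarith

theorem tens {α β : Type} [MeasurableSpace α] [MeasurableSpace β] (μ : Measure α) (ν : Measure β)
    [IsFiniteMeasure μ] [IsFiniteMeasure ν] (f : α × β → ℝ) (hf : Measurable f) (t : ℝ)
    (ht : 0 < t) :
    LL (μ.prod ν) f ≤
      ENNReal.ofReal (1 + t) * ν univ * ∫⁻ u, LL μ (fun x => f (x, u)) ∂ν +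
      ENNReal.ofReal (1 + 1 / t) * μ univ * ∫⁻ y, LL ν (fun u => f (y, u)) ∂μ := by
  have hA : Measurable fun q : (α × β) × α => ENNReal.ofReal ((f (q.1.1, q.1.2) - f (q.2, q.1.2)) ^ 2) := by
    fun_prop
  have hB : Measurable fun q : (α × β) × β => ENNReal.ofReal ((f (q.1.1, q.1.2) - f (q.1.1, q.2)) ^ 2) := by
    fun_prop
  set c1 := ENNReal.ofReal (1 + t) with hc1
  set c2 := ENNReal.ofReal (1 + 1 / t) with hc2
  have h1 : LL (μ.prod ν) f ≤ ∫⁻ z : α × β, ∫⁻ w : α × β,
      (c1 * ENNReal.ofReal ((f (z.1, z.2) - f (w.1, z.2)) ^ 2) +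
        c2 * ENNReal.ofReal ((f (w.1, z.2) - f (w.1, w.2)) ^ 2)) ∂(μ.prod ν) ∂(μ.prod ν) := by
    refine lintegral_mono fun z => lintegral_mono fun w => ?_
    rw [hc1, hc2, ← ENNReal.ofReal_mul (by positivity), ← ENNReal.ofReal_mul (by positivity),
      ← ENNReal.ofReal_add (by positivity) (by positivity)]
    exact ENNReal.ofReal_le_ofReal (pt_ineq _ _ _ t ht)
  refine h1.trans (le_of_eq ?_)
  have h2 : ∀ z : α × β, ∫⁻ w : α × β,
      (c1 * ENNReal.ofReal ((f (z.1, z.2) - f (w.1, z.2)) ^ 2) +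
        c2 * ENNReal.ofReal ((f (w.1, z.2) - f (w.1, w.2)) ^ 2)) ∂(μ.prod ν) =
      c1 * (ν univ * ∫⁻ y, ENNReal.ofReal ((f (z.1, z.2) - f (y, z.2)) ^ 2) ∂μ) +
      c2 * ∫⁻ y, ∫⁻ v, ENNReal.ofReal ((f (y, z.2) - f (y, v)) ^ 2) ∂ν ∂μ := by
    intro z
    rw [lintegral_add_left (by fun_prop), lintegral_const_mul _ (by fun_prop),
      lintegral_const_mul _ (by fun_prop), lintegral_prod _ (by fun_prop),
      lintegral_prod _ (by fun_prop)]
    congr 2
    rw [← lintegral_const_mul _ (by fun_prop)]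
    refine lintegral_congr fun y => ?_
    have := lintegral_const (μ := ν) (ENNReal.ofReal ((f (z.1, z.2) - f (y, z.2)) ^ 2))
    rw [mul_comm] at this
    exact this
  rw [lintegral_congr h2]
  have mA : Measurable fun z : α × β => ∫⁻ y, ENNReal.ofReal ((f (z.1, z.2) - f (y, z.2)) ^ 2) ∂μ :=
    Measurable.lintegral_prod_right' (f := fun q : (α × β) × α =>
      ENNReal.ofReal ((f (q.1.1, q.1.2) - f (q.2, q.1.2)) ^ 2)) hA
  have mB : Measurable fun z : α × β => ∫⁻ y, ∫⁻ v, ENNReal.ofReal ((f (y, z.2) - f (y, v)) ^ 2) ∂ν ∂μ := by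
    have m1 : Measurable fun q : (α × β) × α => ∫⁻ v, ENNReal.ofReal ((f (q.2, q.1.2) - f (q.2, v)) ^ 2) ∂ν :=
      Measurable.lintegral_prod_right' (f := fun q : ((α × β) × α) × β =>
        ENNReal.ofReal ((f (q.1.2, q.1.1.2) - f (q.1.2, q.2)) ^ 2)) (by fun_prop)
    exact Measurable.lintegral_prod_right' (f := fun q : (α × β) × α =>
      ∫⁻ v, ENNReal.ofReal ((f (q.2, q.1.2) - f (q.2, v)) ^ 2) ∂ν) m1
  rw [lintegral_add_left (by fun_prop), lintegral_const_mul _ (by fun_prop),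
    lintegral_const_mul _ mA, lintegral_const_mul _ mB]
  congr 1
  · rw [mul_assoc, lintegral_prod_symm _ mA.aemeasurable]
    rfl
  · rw [mul_assoc, lintegral_prod _ mB.aemeasurable]
    simp only [lintegral_const]
    rw [mul_comm _ (μ univ)]
    congr 2
    have mC : Measurable (Function.uncurry fun (u : β) (y : α) =>
        ∫⁻ v, ENNReal.ofReal ((f (y, u) - f (y, v)) ^ 2) ∂ν) :=
      Measurable.lintegral_prod_right' (f := fun q : (β × α) × β =>
        ENNReal.ofReal ((f (q.1.2, q.1.1) - f (q.1.2, q.2)) ^ 2)) (by fun_prop)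
    rw [lintegral_lintegral_swap mC.aemeasurable]
    rfl

theorem cs0 {h' : ℝ → ℝ} (hc : Continuous h') {p q : ℝ} (hpq : p < q) :
    (∫ r in p..q, h' r) ^ 2 ≤ (q - p) * ∫ r in p..q, h' r ^ 2 := by
  set I1 := ∫ r in p..q, h' r with hI1
  set D := q - p with hD
  have hD0 : 0 < D := by rw [hD]; linarith
  have h1 : 0 ≤ ∫ r in p..q, (h' r - I1 / D) ^ 2 :=
    intervalIntegral.integral_nonneg hpq.le fun r _ => sq_nonneg _
  have h2 : ∫ r in p..q, (h' r - I1 / D) ^ 2 =
      (∫ r in p..q, h' r ^ 2) - 2 * (I1 / D) * I1 + (I1 / D) ^ 2 * D := by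
    have e : ∀ r, (h' r - I1 / D) ^ 2 = h' r ^ 2 - 2 * (I1 / D) * h' r + (I1 / D) ^ 2 := fun r => by ring
    simp_rw [e]
    rw [intervalIntegral.integral_add, intervalIntegral.integral_sub,
      intervalIntegral.integral_const_mul, intervalIntegral.integral_const, smul_eq_mul]
    · ring
    · exact (hc.pow 2).intervalIntegrable _ _
    · exact (hc.const_mul _).intervalIntegrable _ _
    · exact ((hc.pow 2).sub (hc.const_mul _)).intervalIntegrable _ _
    · exact intervalIntegrable_const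
  rw [h2] at h1
  have h3 : 2 * (I1 / D) * I1 - (I1 / D) ^ 2 * D = I1 ^ 2 / D := by
    field_simp
    ring
  have h4 : I1 ^ 2 / D ≤ ∫ r in p..q, h' r ^ 2 := by linarith
  rw [div_le_iff₀ hD0] at h4
  linarith

theorem cs1 {h h' : ℝ → ℝ} (hd : ∀ x, HasDerivAt h (h' x) x) (hc : Continuous h') {a s : ℝ} :
    ∀ t ∈ Ico a (a + s), ∀ t' ∈ Ico a (a + s),
      (h t - h t') ^ 2 ≤ s * ∫ r in Ico a (a + s), h' r ^ 2 := by
  have key : ∀ t ∈ Ico a (a + s), ∀ t' ∈ Ico a (a + s), t' < t →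
      (h t - h t') ^ 2 ≤ s * ∫ r in Ico a (a + s), h' r ^ 2 := by
    intro t ht t' ht' hlt
    have h1 : ∫ r in t'..t, h' r = h t - h t' :=
      intervalIntegral.integral_eq_sub_of_hasDerivAt (fun x _ => hd x) (hc.intervalIntegrable _ _)
    rw [← h1]
    refine (cs0 hc hlt).trans ?_
    have hI : IntegrableOn (fun r => h' r ^ 2) (Ico a (a + s)) volume :=
      ((hc.pow 2).integrableOn_Icc (a := a) (b := a + s)).mono_set Ico_subset_Icc_self
    have h2 : ∫ r in t'..t, h' r ^ 2 ≤ ∫ r in Ico a (a + s), h' r ^ 2 := by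
      rw [intervalIntegral.integral_of_le hlt.le]
      refine setIntegral_mono_set hI (ae_of_all _ fun r => sq_nonneg _) ?_
      refine (Filter.Eventually.of_forall ?_)
      intro r hr
      exact ⟨ht'.1.trans hr.1.le, lt_of_le_of_lt hr.2 ht.2⟩
    have h3 : 0 ≤ ∫ r in t'..t, h' r ^ 2 :=
      intervalIntegral.integral_nonneg hlt.le fun r _ => sq_nonneg _
    have h4 : t - t' ≤ s := by
      have := ht.2
      have := ht'.1
      linarith
    have h5 : 0 ≤ t - t' := by linarith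
    calc (t - t') * ∫ r in t'..t, h' r ^ 2 ≤ s * ∫ r in t'..t, h' r ^ 2 :=
          mul_le_mul_of_nonneg_right h4 h3
      _ ≤ s * ∫ r in Ico a (a + s), h' r ^ 2 := mul_le_mul_of_nonneg_left h2 (h5.trans h4)
  intro t ht t' ht'
  rcases lt_trichotomy t' t with h1 | h1 | h1
  · exact key t ht t' ht' h1
  · subst h1
    have h0 : 0 ≤ s := by
      have := ht.1
      have := ht.2
      linarith
    have : 0 ≤ ∫ r in Ico a (a + s), h' r ^ 2 := setIntegral_nonneg measurableSet_Ico fun r _ => sq_nonneg _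
    simp only [sub_self, ne_eq, OfNat.ofNat_ne_zero, not_false_eq_true, zero_pow]
    positivity
  · have := key t' ht' t ht h1
    rw [show (h t - h t') ^ 2 = (h t' - h t) ^ 2 by ring]
    exact this

/-- the measure on one side -/
noncomputable def mu1 (a s : ℝ) : Measure ℝ := volume.restrict (Ico a (a + s))

instance (a s : ℝ) : IsFiniteMeasure (mu1 a s) := by
  unfold mu1
  infer_instance

theorem mu1_univ (a s : ℝ) : mu1 a s univ = ENNReal.ofReal s := by
  unfold mu1
  rw [Measure.restrict_apply_univ, Real.volume_Ico, add_sub_cancel_left]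

theorem one {h h' : ℝ → ℝ} (hd : ∀ x, HasDerivAt h (h' x) x) (hc : Continuous h') {a s : ℝ}
    (hs : 0 < s) : LL (mu1 a s) h ≤ ENNReal.ofReal (s ^ 3) * ∫⁻ r, ENNReal.ofReal (h' r ^ 2) ∂(mu1 a s) := by
  have hI : IntegrableOn (fun r => h' r ^ 2) (Ico a (a + s)) volume :=
    ((hc.pow 2).integrableOn_Icc (a := a) (b := a + s)).mono_set Ico_subset_Icc_self
  set J := ∫ r in Ico a (a + s), h' r ^ 2 with hJ
  have hJ0 : 0 ≤ J := setIntegral_nonneg measurableSet_Ico fun r _ => sq_nonneg _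
  have e1 : ∫⁻ r, ENNReal.ofReal (h' r ^ 2) ∂(mu1 a s) = ENNReal.ofReal J := by
    rw [hJ, ofReal_integral_eq_lintegral_ofReal hI (ae_of_all _ fun r => sq_nonneg _)]
    rfl
  have e2 : LL (mu1 a s) h ≤ ∫⁻ x, ∫⁻ y, ENNReal.ofReal (s * J) ∂(mu1 a s) ∂(mu1 a s) := by
    unfold LL
    refine lintegral_mono_ae ?_
    unfold mu1
    filter_upwards [ae_restrict_mem measurableSet_Ico] with x hx
    refine lintegral_mono_ae ?_
    filter_upwards [ae_restrict_mem measurableSet_Ico] with y hy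
    exact ENNReal.ofReal_le_ofReal (cs1 hd hc x hx y hy)
  refine e2.trans (le_of_eq ?_)
  rw [lintegral_const, lintegral_const, mu1_univ, e1, ← ENNReal.ofReal_mul (by positivity),
    ← ENNReal.ofReal_mul (by positivity), ← ENNReal.ofReal_mul (by positivity)]
  congr 1
  ring

/-- three coordinates -/
noncomputable def Psi (p : ℝ × ℝ × ℝ) : E := WithLp.toLp 2 ![p.1, p.2.1, p.2.2]

/-- the product measure -/
noncomputable def PP (s : ℝ) (a : E) : Measure (ℝ × ℝ × ℝ) :=
  (mu1 (a 0) s).prod ((mu1 (a 1) s).prod (mu1 (a 2) s))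

instance (s : ℝ) (a : E) : IsFiniteMeasure (PP s a) := by
  unfold PP
  infer_instance

theorem mp (s : ℝ) (a : E) : MeasurePreserving Psi (PP s a) (volume.restrict (cub s a)) := by
  set μ : Fin 3 → Measure ℝ := fun c => mu1 (a c) s with hμ
  have h2 := (measurePreserving_piFinTwo (fun j : Fin 2 => μ ((0 : Fin 3).succAbove j))).symm
  have h1 := (measurePreserving_piFinSuccAbove μ 0).symm
  have h3 : MeasurePreserving (Prod.map (id : ℝ → ℝ)
      (MeasurableEquiv.piFinTwo (fun _ : Fin 2 => ℝ)).symm) (PP s a)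
      ((μ 0).prod (Measure.pi fun j : Fin 2 => μ ((0 : Fin 3).succAbove j))) :=
    (MeasurePreserving.id (μ 0)).prod h2
  have h4 : MeasurePreserving (WithLp.toLp 2 : (Fin 3 → ℝ) → E) (Measure.pi μ)
      (volume.restrict (cub s a)) := by
    have h5 := (PiLp.volume_preserving_toLp (Fin 3)).restrict_preimage (s := cub s a) (by
      have : cub s a = ⋂ c : Fin 3, ({x : E | a c ≤ x c} ∩ {x : E | x c < a c + s}) := by
        ext x
        simp only [cub, Set.mem_ofPred_eq, mem_iInter, mem_inter_iff]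
      rw [this]
      refine MeasurableSet.iInter fun c => MeasurableSet.inter ?_ ?_
      · exact measurableSet_le measurable_const (by fun_prop)
      · exact measurableSet_lt (by fun_prop) measurable_const)
    have h6 : (WithLp.toLp 2 : (Fin 3 → ℝ) → E) ⁻¹' cub s a =
        Set.univ.pi fun c => Ico (a c) (a c + s) := by
      ext x
      simp [cub, mem_pi]
    rw [h6] at h5
    have h7 : (volume : Measure (Fin 3 → ℝ)).restrict (Set.univ.pi fun c => Ico (a c) (a c + s)) =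
        Measure.pi μ := by
      rw [volume_pi, Measure.restrict_pi_pi]
      rfl
    rw [h7] at h5
    exact h5
  have h8 := h4.comp (h1.comp h3)
  have h9 : (WithLp.toLp 2 : (Fin 3 → ℝ) → E) ∘ ((MeasurableEquiv.piFinSuccAbove (fun _ => ℝ) (0 : Fin 3)).symm ∘
      (Prod.map (id : ℝ → ℝ) (MeasurableEquiv.piFinTwo (fun _ : Fin 2 => ℝ)).symm)) = Psi := by
    funext p
    ext c
    fin_cases c <;> simp [Psi, MeasurableEquiv.piFinSuccAbove_symm_apply, MeasurableEquiv.piFinTwo_symm_apply]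
  rw [h9] at h8
  exact h8

theorem cont_Psi : Continuous Psi := by
  unfold Psi
  refine (PiLp.continuous_toLp 2 _).comp (continuous_pi fun c => ?_)
  fin_cases c
  · exact continuous_fst
  · exact continuous_fst.comp continuous_snd
  · exact continuous_snd.comp continuous_snd

theorem hasDeriv {f : E → ℝ} (hf : ContDiff ℝ 1 f) (c : Fin 3) {L : ℝ → E} (w : E)
    (hL : ∀ t, L t = w + t • ev c) (t : ℝ) :
    HasDerivAt (fun t => f (L t)) (pd c f (L t)) t := by
  have h1 : HasDerivAt L (ev c) t := by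
    have h2 : L = fun t => w + t • ev c := funext hL
    rw [h2]
    have h3 := ((hasDerivAt_id t).smul_const (ev c)).const_add w
    rw [one_smul] at h3
    exact h3
  exact ((hf.differentiable (by norm_num)) (L t)).hasFDerivAt.comp_hasDerivAt t h1

theorem cont_pd {f : E → ℝ} (hf : ContDiff ℝ 1 f) (c : Fin 3) : Continuous (pd c f) := by
  unfold pd
  exact (hf.continuous_fderiv (by norm_num)).clm_apply continuous_const

theorem line0 (w : ℝ × ℝ) (t : ℝ) : Psi (t, w) = Psi (0, w) + t • ev 0 := by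
  ext c
  fin_cases c <;> simp [Psi, ev]

theorem line1 (y v : ℝ) (t : ℝ) : Psi (y, t, v) = Psi (y, 0, v) + t • ev 1 := by
  ext c
  fin_cases c <;> simp [Psi, ev]

theorem line2 (y u : ℝ) (t : ℝ) : Psi (y, u, t) = Psi (y, u, 0) + t • ev 2 := by
  ext c
  fin_cases c <;> simp [Psi, ev]

theorem main3 {f : E → ℝ} (hf : ContDiff ℝ 1 f) {s : ℝ} (hs : 0 < s) (a : E) :
    LL (PP s a) (fun p => f (Psi p)) ≤
      ENNReal.ofReal (3 * s ^ 5) * ∑ c, ∫⁻ p, ENNReal.ofReal (pd c f (Psi p) ^ 2) ∂(PP s a) := by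
  have hm : Measurable fun p => f (Psi p) := (hf.continuous.comp cont_Psi).measurable
  have hD : ∀ c, Continuous fun p => pd c f (Psi p) := fun c => (cont_pd hf c).comp cont_Psi
  have hDm : ∀ c, Measurable fun p => ENNReal.ofReal (pd c f (Psi p) ^ 2) := fun c =>
    ENNReal.measurable_ofReal.comp ((hD c).pow 2).measurable
  set I : Fin 3 → ℝ≥0∞ := fun c => ∫⁻ p, ENNReal.ofReal (pd c f (Psi p) ^ 2) ∂(PP s a) with hI
  have b0 : ∫⁻ w, LL (mu1 (a 0) s) (fun x => f (Psi (x, w))) ∂((mu1 (a 1) s).prod (mu1 (a 2) s)) ≤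
      ENNReal.ofReal (s ^ 3) * I 0 := by
    calc ∫⁻ w, LL (mu1 (a 0) s) (fun x => f (Psi (x, w))) ∂((mu1 (a 1) s).prod (mu1 (a 2) s))
        ≤ ∫⁻ w, ENNReal.ofReal (s ^ 3) * ∫⁻ r, ENNReal.ofReal (pd 0 f (Psi (r, w)) ^ 2)
            ∂(mu1 (a 0) s) ∂((mu1 (a 1) s).prod (mu1 (a 2) s)) :=
          lintegral_mono fun w => one (hasDeriv hf 0 (L := fun t => Psi (t, w)) (Psi (0, w)) (line0 w))
            ((hD 0).comp (by fun_prop : Continuous fun t : ℝ => (t, w))) hs
      _ = ENNReal.ofReal (s ^ 3) * ∫⁻ w, ∫⁻ r, ENNReal.ofReal (pd 0 f (Psi (r, w)) ^ 2)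
            ∂(mu1 (a 0) s) ∂((mu1 (a 1) s).prod (mu1 (a 2) s)) := by
          rw [lintegral_const_mul]
          exact Measurable.lintegral_prod_right' (f := fun q : (ℝ × ℝ) × ℝ =>
            ENNReal.ofReal (pd 0 f (Psi (q.2, q.1)) ^ 2))
            ((hDm 0).comp (by fun_prop : Measurable fun q : (ℝ × ℝ) × ℝ => (q.2, q.1)))
      _ = ENNReal.ofReal (s ^ 3) * I 0 := by
          congr 1
          exact (lintegral_prod_symm _ (hDm 0).aemeasurable).symm
  have b1 : ∫⁻ y, ∫⁻ v, LL (mu1 (a 1) s) (fun u => f (Psi (y, u, v))) ∂(mu1 (a 2) s) ∂(mu1 (a 0) s) ≤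
      ENNReal.ofReal (s ^ 3) * I 1 := by
    calc ∫⁻ y, ∫⁻ v, LL (mu1 (a 1) s) (fun u => f (Psi (y, u, v))) ∂(mu1 (a 2) s) ∂(mu1 (a 0) s)
        ≤ ∫⁻ y, ∫⁻ v, ENNReal.ofReal (s ^ 3) * ∫⁻ r, ENNReal.ofReal (pd 1 f (Psi (y, r, v)) ^ 2)
            ∂(mu1 (a 1) s) ∂(mu1 (a 2) s) ∂(mu1 (a 0) s) :=
          lintegral_mono fun y => lintegral_mono fun v =>
            one (hasDeriv hf 1 (L := fun t => Psi (y, t, v)) (Psi (y, 0, v)) (line1 y v))
            ((hD 1).comp (by fun_prop : Continuous fun t : ℝ => (y, t, v))) hs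
      _ = ENNReal.ofReal (s ^ 3) * I 1 := by
          have m2 : ∀ y : ℝ, Measurable fun v => ∫⁻ r, ENNReal.ofReal (pd 1 f (Psi (y, r, v)) ^ 2) ∂(mu1 (a 1) s) :=
            fun y => Measurable.lintegral_prod_right' (f := fun q : ℝ × ℝ =>
              ENNReal.ofReal (pd 1 f (Psi (y, q.2, q.1)) ^ 2))
              ((hDm 1).comp (by fun_prop : Measurable fun q : ℝ × ℝ => (y, q.2, q.1)))
          have e1 : ∀ y : ℝ, ∫⁻ v, ENNReal.ofReal (s ^ 3) * ∫⁻ r, ENNReal.ofReal (pd 1 f (Psi (y, r, v)) ^ 2)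
              ∂(mu1 (a 1) s) ∂(mu1 (a 2) s) = ENNReal.ofReal (s ^ 3) *
              ∫⁻ w, ENNReal.ofReal (pd 1 f (Psi (y, w)) ^ 2) ∂((mu1 (a 1) s).prod (mu1 (a 2) s)) := by
            intro y
            rw [lintegral_const_mul _ (m2 y)]
            congr 1
            exact (lintegral_prod_symm _ ((hDm 1).comp
              (by fun_prop : Measurable fun w : ℝ × ℝ => (y, w))).aemeasurable).symm
          rw [lintegral_congr e1, lintegral_const_mul]
          · congr 1
            exact (lintegral_prod _ (hDm 1).aemeasurable).symm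
          · exact Measurable.lintegral_prod_right' (f := fun q : ℝ × (ℝ × ℝ) =>
              ENNReal.ofReal (pd 1 f (Psi q) ^ 2)) (hDm 1)
  have b2 : ∫⁻ y, ∫⁻ u, LL (mu1 (a 2) s) (fun v => f (Psi (y, u, v))) ∂(mu1 (a 1) s) ∂(mu1 (a 0) s) ≤
      ENNReal.ofReal (s ^ 3) * I 2 := by
    calc ∫⁻ y, ∫⁻ u, LL (mu1 (a 2) s) (fun v => f (Psi (y, u, v))) ∂(mu1 (a 1) s) ∂(mu1 (a 0) s)
        ≤ ∫⁻ y, ∫⁻ u, ENNReal.ofReal (s ^ 3) * ∫⁻ r, ENNReal.ofReal (pd 2 f (Psi (y, u, r)) ^ 2)
            ∂(mu1 (a 2) s) ∂(mu1 (a 1) s) ∂(mu1 (a 0) s) :=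
          lintegral_mono fun y => lintegral_mono fun u =>
            one (hasDeriv hf 2 (L := fun t => Psi (y, u, t)) (Psi (y, u, 0)) (line2 y u))
            ((hD 2).comp (by fun_prop : Continuous fun t : ℝ => (y, u, t))) hs
      _ = ENNReal.ofReal (s ^ 3) * I 2 := by
          have m2 : ∀ y : ℝ, Measurable fun u => ∫⁻ r, ENNReal.ofReal (pd 2 f (Psi (y, u, r)) ^ 2) ∂(mu1 (a 2) s) :=
            fun y => Measurable.lintegral_prod_right' (f := fun q : ℝ × ℝ =>
              ENNReal.ofReal (pd 2 f (Psi (y, q.1, q.2)) ^ 2))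
              ((hDm 2).comp (by fun_prop : Measurable fun q : ℝ × ℝ => (y, q.1, q.2)))
          have e1 : ∀ y : ℝ, ∫⁻ u, ENNReal.ofReal (s ^ 3) * ∫⁻ r, ENNReal.ofReal (pd 2 f (Psi (y, u, r)) ^ 2)
              ∂(mu1 (a 2) s) ∂(mu1 (a 1) s) = ENNReal.ofReal (s ^ 3) *
              ∫⁻ w, ENNReal.ofReal (pd 2 f (Psi (y, w)) ^ 2) ∂((mu1 (a 1) s).prod (mu1 (a 2) s)) := by
            intro y
            rw [lintegral_const_mul _ (m2 y)]
            congr 1
            exact (lintegral_prod _ ((hDm 2).comp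
              (by fun_prop : Measurable fun w : ℝ × ℝ => (y, w))).aemeasurable).symm
          rw [lintegral_congr e1, lintegral_const_mul]
          · congr 1
            exact (lintegral_prod _ (hDm 2).aemeasurable).symm
          · exact Measurable.lintegral_prod_right' (f := fun q : ℝ × (ℝ × ℝ) =>
              ENNReal.ofReal (pd 2 f (Psi q) ^ 2)) (hDm 2)
  have b12 : ∫⁻ y, LL ((mu1 (a 1) s).prod (mu1 (a 2) s)) (fun w => f (Psi (y, w))) ∂(mu1 (a 0) s) ≤
      ENNReal.ofReal (1 + 1) * ENNReal.ofReal s * (ENNReal.ofReal (s ^ 3) * I 1) +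
      ENNReal.ofReal (1 + 1 / 1) * ENNReal.ofReal s * (ENNReal.ofReal (s ^ 3) * I 2) := by
    have hm3 : ∀ y : ℝ, Measurable fun w : ℝ × ℝ => f (Psi (y, w)) := fun y =>
      hm.comp (by fun_prop : Measurable fun w : ℝ × ℝ => (y, w))
    have m1 : Measurable fun y => ∫⁻ v, LL (mu1 (a 1) s) (fun u => f (Psi (y, u, v))) ∂(mu1 (a 2) s) := by
      unfold LL
      have k0 : Measurable fun q : ((ℝ × ℝ) × ℝ) × ℝ =>
          ENNReal.ofReal ((f (Psi (q.1.1.1, q.1.2, q.1.1.2)) - f (Psi (q.1.1.1, q.2, q.1.1.2))) ^ 2) := by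
        refine ENNReal.measurable_ofReal.comp (Measurable.pow_const (Measurable.sub ?_ ?_) 2)
        · exact hm.comp (by fun_prop : Measurable fun q : ((ℝ × ℝ) × ℝ) × ℝ => (q.1.1.1, q.1.2, q.1.1.2))
        · exact hm.comp (by fun_prop : Measurable fun q : ((ℝ × ℝ) × ℝ) × ℝ => (q.1.1.1, q.2, q.1.1.2))
      have k1 : Measurable fun q : (ℝ × ℝ) × ℝ => ∫⁻ u',
          ENNReal.ofReal ((f (Psi (q.1.1, q.2, q.1.2)) - f (Psi (q.1.1, u', q.1.2))) ^ 2) ∂(mu1 (a 1) s) :=
        Measurable.lintegral_prod_right' (f := fun q : ((ℝ × ℝ) × ℝ) × ℝ =>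
          ENNReal.ofReal ((f (Psi (q.1.1.1, q.1.2, q.1.1.2)) - f (Psi (q.1.1.1, q.2, q.1.1.2))) ^ 2)) k0
      have k2 : Measurable fun q : ℝ × ℝ => ∫⁻ u, ∫⁻ u',
          ENNReal.ofReal ((f (Psi (q.1, u, q.2)) - f (Psi (q.1, u', q.2))) ^ 2) ∂(mu1 (a 1) s) ∂(mu1 (a 1) s) :=
        Measurable.lintegral_prod_right' (f := fun q : (ℝ × ℝ) × ℝ => ∫⁻ u',
          ENNReal.ofReal ((f (Psi (q.1.1, q.2, q.1.2)) - f (Psi (q.1.1, u', q.1.2))) ^ 2) ∂(mu1 (a 1) s)) k1
      exact Measurable.lintegral_prod_right' (f := fun q : ℝ × ℝ => ∫⁻ u, ∫⁻ u',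
          ENNReal.ofReal ((f (Psi (q.1, u, q.2)) - f (Psi (q.1, u', q.2))) ^ 2) ∂(mu1 (a 1) s) ∂(mu1 (a 1) s)) k2
    calc ∫⁻ y, LL ((mu1 (a 1) s).prod (mu1 (a 2) s)) (fun w => f (Psi (y, w))) ∂(mu1 (a 0) s)
        ≤ ∫⁻ y, (ENNReal.ofReal (1 + 1) * ENNReal.ofReal s *
              ∫⁻ v, LL (mu1 (a 1) s) (fun u => f (Psi (y, u, v))) ∂(mu1 (a 2) s) +
            ENNReal.ofReal (1 + 1 / 1) * ENNReal.ofReal s *
              ∫⁻ u, LL (mu1 (a 2) s) (fun v => f (Psi (y, u, v))) ∂(mu1 (a 1) s)) ∂(mu1 (a 0) s) := by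
          refine lintegral_mono fun y => ?_
          have := tens (mu1 (a 1) s) (mu1 (a 2) s) (fun w => f (Psi (y, w))) (hm3 y) 1 one_pos
          rw [mu1_univ, mu1_univ] at this
          exact this
      _ = ENNReal.ofReal (1 + 1) * ENNReal.ofReal s *
            ∫⁻ y, ∫⁻ v, LL (mu1 (a 1) s) (fun u => f (Psi (y, u, v))) ∂(mu1 (a 2) s) ∂(mu1 (a 0) s) +
          ENNReal.ofReal (1 + 1 / 1) * ENNReal.ofReal s *
            ∫⁻ y, ∫⁻ u, LL (mu1 (a 2) s) (fun v => f (Psi (y, u, v))) ∂(mu1 (a 1) s) ∂(mu1 (a 0) s) := by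
          rw [lintegral_add_left (m1.const_mul _), lintegral_const_mul _ m1]
          congr 1
          rw [lintegral_const_mul']
          exact ENNReal.mul_ne_top ENNReal.ofReal_ne_top ENNReal.ofReal_ne_top
      _ ≤ _ := by gcongr
  have hT := tens (mu1 (a 0) s) ((mu1 (a 1) s).prod (mu1 (a 2) s)) (fun p => f (Psi p)) hm 2 two_pos
  have hu : ((mu1 (a 1) s).prod (mu1 (a 2) s)) univ = ENNReal.ofReal s * ENNReal.ofReal s := by
    rw [← univ_prod_univ, Measure.prod_prod, mu1_univ, mu1_univ]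
  rw [hu, mu1_univ] at hT
  refine hT.trans ?_
  calc _ ≤ ENNReal.ofReal (1 + 2) * (ENNReal.ofReal s * ENNReal.ofReal s) *
        (ENNReal.ofReal (s ^ 3) * I 0) +
      ENNReal.ofReal (1 + 1 / 2) * ENNReal.ofReal s *
        (ENNReal.ofReal (1 + 1) * ENNReal.ofReal s * (ENNReal.ofReal (s ^ 3) * I 1) +
        ENNReal.ofReal (1 + 1 / 1) * ENNReal.ofReal s * (ENNReal.ofReal (s ^ 3) * I 2)) := by
        gcongr
    _ = ENNReal.ofReal (3 * s ^ 5) * ∑ c, I c := by
        rw [Fin.sum_univ_three, mul_add, mul_add, mul_add, add_assoc]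
        have e0 : ENNReal.ofReal (1 + 2) * (ENNReal.ofReal s * ENNReal.ofReal s) *
            ENNReal.ofReal (s ^ 3) = ENNReal.ofReal (3 * s ^ 5) := by
          rw [← ENNReal.ofReal_mul hs.le, ← ENNReal.ofReal_mul (by norm_num),
            ← ENNReal.ofReal_mul (by positivity)]
          congr 1
          ring
        have e1 : ENNReal.ofReal (1 + 1 / 2) * ENNReal.ofReal s *
            (ENNReal.ofReal (1 + 1) * ENNReal.ofReal s * ENNReal.ofReal (s ^ 3)) =
            ENNReal.ofReal (3 * s ^ 5) := by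
          rw [← ENNReal.ofReal_mul (by norm_num), ← ENNReal.ofReal_mul (by norm_num),
            ← ENNReal.ofReal_mul (by positivity), ← ENNReal.ofReal_mul (by positivity)]
          congr 1
          ring
        have e2 : ENNReal.ofReal (1 + 1 / 2) * ENNReal.ofReal s *
            (ENNReal.ofReal (1 + 1 / 1) * ENNReal.ofReal s * ENNReal.ofReal (s ^ 3)) =
            ENNReal.ofReal (3 * s ^ 5) := by
          rw [← ENNReal.ofReal_mul (by norm_num), ← ENNReal.ofReal_mul (by norm_num),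
            ← ENNReal.ofReal_mul (by positivity), ← ENNReal.ofReal_mul (by positivity)]
          congr 1
          ring
        congr 1
        · rw [← e0]
          ring
        · congr 1
          · rw [← e1]
            ring
          · rw [← e2]
            ring

end PCO_

open PCO_ in
theorem pco_proof : Stmt_PCO := by
  intro s a f hs hf
  have hmp := mp s a
  have hfm : Measurable f := hf.continuous.measurable
  have hD : ∀ c, Continuous (pd c f) := fun c => cont_pd hf c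
  have hfin : IsFiniteMeasure (volume.restrict (cub s a)) := by
    constructor
    rw [← hmp.measure_preimage MeasurableSet.univ.nullMeasurableSet]
    exact measure_lt_top _ _
  have key := main3 hf hs a
  have eL : LL (PP s a) (fun p => f (Psi p)) =
      ∫⁻ x in cub s a, ∫⁻ y in cub s a, ENNReal.ofReal ((f x - f y) ^ 2) := by
    have m0 : Measurable fun q : E × E => ENNReal.ofReal ((f q.1 - f q.2) ^ 2) := by fun_prop
    have m1 : Measurable fun x : E => ∫⁻ y in cub s a, ENNReal.ofReal ((f x - f y) ^ 2) :=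
      Measurable.lintegral_prod_right' (f := fun q : E × E => ENNReal.ofReal ((f q.1 - f q.2) ^ 2)) m0
    rw [← hmp.lintegral_comp m1]
    unfold LL
    refine lintegral_congr fun p => ?_
    have m2 : Measurable fun y : E => ENNReal.ofReal ((f (Psi p) - f y) ^ 2) := by fun_prop
    exact hmp.lintegral_comp m2
  have eR : ∀ c, ∫⁻ p, ENNReal.ofReal (pd c f (Psi p) ^ 2) ∂(PP s a) =
      ∫⁻ x in cub s a, ENNReal.ofReal (pd c f x ^ 2) := fun c =>
    hmp.lintegral_comp (ENNReal.measurable_ofReal.comp ((hD c).pow 2).measurable)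
  have hint : ∀ c, Integrable (fun x => pd c f x ^ 2) (volume.restrict (cub s a)) := by
    intro c
    have hcomp : IsCompact (closure (cub s a)) := by
      refine Metric.isCompact_of_isClosed_isBounded isClosed_closure ?_
      refine Bornology.IsBounded.closure ?_
      have hb : cub s a ⊆ (WithLp.toLp 2 : (Fin 3 → ℝ) → E) '' (Set.univ.pi fun c => Icc (a c) (a c + s)) := by
        intro x hx
        refine ⟨WithLp.ofLp x, ?_, rfl⟩
        intro c _
        exact ⟨(hx c).1, (hx c).2.le⟩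
      exact ((isCompact_univ_pi fun c => isCompact_Icc).image (PiLp.continuous_toLp 2 _)).isBounded.subset hb
    exact (((hD c).pow 2).continuousOn.integrableOn_compact hcomp).mono_set subset_closure
  have hR : ENNReal.ofReal (3 * s ^ 5 * ∑ c, ∫ x in cub s a, pd c f x ^ 2) =
      ENNReal.ofReal (3 * s ^ 5) * ∑ c, ∫⁻ x in cub s a, ENNReal.ofReal (pd c f x ^ 2) := by
    rw [ENNReal.ofReal_mul (by positivity), ENNReal.ofReal_sum_of_nonneg
      (fun c _ => integral_nonneg fun x => sq_nonneg _)]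
    congr 1
    refine Finset.sum_congr rfl fun c _ => ?_
    exact ofReal_integral_eq_lintegral_ofReal (hint c) (ae_of_all _ fun x => sq_nonneg _)
  rw [eL] at key
  simp_rw [eR] at key
  rw [← hR] at key
  have hS0 : 0 ≤ 3 * s ^ 5 * ∑ c, ∫ x in cub s a, pd c f x ^ 2 :=
    mul_nonneg (by positivity) (Finset.sum_nonneg fun c _ => integral_nonneg fun x => sq_nonneg _)
  have i1 : ∀ x, ∫ y in cub s a, (f x - f y) ^ 2 =
      (∫⁻ y in cub s a, ENNReal.ofReal ((f x - f y) ^ 2)).toReal := fun x =>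
    integral_eq_lintegral_of_nonneg_ae (ae_of_all _ fun y => sq_nonneg _)
      (by fun_prop : Measurable fun y => (f x - f y) ^ 2).aestronglyMeasurable
  have i2 : StronglyMeasurable fun x => ∫ y in cub s a, (f x - f y) ^ 2 :=
    StronglyMeasurable.integral_prod_right (f := fun x y => (f x - f y) ^ 2)
      (by fun_prop : Measurable (Function.uncurry fun x y : E => (f x - f y) ^ 2)).stronglyMeasurable
  rw [integral_eq_lintegral_of_nonneg_ae (ae_of_all _ fun x => integral_nonneg fun y => sq_nonneg _)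
    i2.aestronglyMeasurable]
  refine ENNReal.toReal_le_of_le_ofReal hS0 (le_trans (lintegral_mono fun x => ?_) key)
  rw [i1 x]
  exact ENNReal.ofReal_toReal_le

end Pool.Agent.TBL
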