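import Pool.Agent.TBL.Stmts

set_option autoImplicit false

open MeasureTheory Filter Topology
open scoped ContDiff

namespace Pool.Agent.TBL

open Pool.Agent.TBG

namespace POM_

variable {ι : Type}

lemma bmMul (hB : Stmt_BMC) {α : Type} [MeasurableSpace α] {F G : α → ℝ} (hF : BM F) (hG : BM G) :
    BM (fun X => F X * G X) := (hB.1 α F G hF hG).2.2.1

lemma bmSub (hB : Stmt_BMC) {α : Type} [MeasurableSpace α] {F G : α → ℝ} (hF : BM F) (hG : BM G) :
    BM (fun X => F X - G X) := (hB.1 α F G hF hG).2.1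

lemma bmSq (hB : Stmt_BMC) {α : Type} [MeasurableSpace α] {F : α → ℝ} (hF : BM F) :
    BM (fun X => F X ^ 2) := (hB.1 α F F hF hF).2.2.2.1

lemma bmSmul (hB : Stmt_BMC) {α : Type} [MeasurableSpace α] {F : α → ℝ} (a : ℝ) (hF : BM F) :
    BM (fun X => a * F X) := (hB.1 α F F hF hF).2.2.2.2.2.1 a

lemma bmInt (hB : Stmt_BMC) {α : Type} [MeasurableSpace α] {F : α → ℝ} (hF : BM F) (μ : Measure α)
    [IsFiniteMeasure μ] : Integrable F μ := (hB.1 α F F hF hF).2.2.2.2.2.2 μ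

lemma bm3 (hB : Stmt_BMC) {k : E → E → E → ℝ} (hk : BM3 k) (i j l : ι) :
    BM (fun X : ι → E => k (X i) (X j) (X l)) := by
  have := hB.2.2.2.1 (E × E × E) (ι → E) (fun p : E × E × E => k p.1 p.2.1 p.2.2)
    (fun X => (X i, X j, X l)) hk (by fun_prop)
  exact this

lemma bmV {V : E → E → ℝ} (hV : Admissible V) (i j l : ι) :
    BM (fun X : ι → E => V (X i - X j) (X i - X l)) := by
  refine ⟨?_, ?_⟩
  · have : (fun X : ι → E => V (X i - X j) (X i - X l)) =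
      (fun z : E × E => V z.1 z.2) ∘ (fun X : ι → E => (X i - X j, X i - X l)) := rfl
    rw [this]
    exact hV.meas.comp (by fun_prop)
  · obtain ⟨C, hC⟩ := hV.bdd
    exact ⟨C, fun X => by rw [abs_of_nonneg (hV.nonneg _ _)]; exact hC _ _⟩

end POM_

open POM_ in
theorem pom_proof (hB : Stmt_BMC) (hM : Stmt_MEP) (hA : Stmt_ATF) (hF : Stmt_FAT) : Stmt_POM := by
  intro ι _ _ V ℓ C b φ w q g u hℓ hV hK hu
  obtain ⟨hprob, hae, -⟩ := hM ι ℓ hℓ
  have := hprob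
  have hpot : ∫ X, potS V X * u X ^ 2 ∂(PiM ι ℓ) =
      1 / 6 * ∑ t ∈ D3 ι, ∫ X, V (X t.1 - X t.2.1) (X t.1 - X t.2.2) * u X ^ 2 ∂(PiM ι ℓ) := by
    rw [← integral_finsetSum, ← integral_const_mul]
    · refine integral_congr_ae (ae_of_all _ fun X => ?_)
      simp only [potS]
      rw [Finset.mul_sum, Finset.sum_mul, Finset.mul_sum]
      refine Finset.sum_congr rfl fun t _ => ?_
      ring
    · intro t _
      exact bmInt hB (bmMul hB (bmV hV _ _ _) (bmSq hB hu)) _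
  rw [hpot]
  have key : ∀ t ∈ D3 ι,
      2 * ∫ X, u X * w (X t.1) (X t.2.1) (X t.2.2) * A3 ℓ t.1 t.2.1 t.2.2 u X ∂(PiM ι ℓ)
        - (∫ x, ∫ y, ∫ z, q x y z ∂(nuc ℓ) ∂(nuc ℓ) ∂(nuc ℓ)) * ns ℓ (A3 ℓ t.1 t.2.1 t.2.2 u) ≤
      ∫ X, V (X t.1 - X t.2.1) (X t.1 - X t.2.2) * u X ^ 2 ∂(PiM ι ℓ) := by
    intro t ht
    simp only [D3, Finset.mem_filter, Finset.mem_univ, true_and] at ht
    obtain ⟨i, j, k⟩ := t
    simp only at ht ⊢
    obtain ⟨hij, hik, hjk⟩ := ht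
    obtain ⟨hBA, hI, hJ, hKk, -⟩ := hA ι ℓ hℓ i j k u hu
    set A := A3 ℓ i j k u with hAdef
    have hsqInd : ∀ m, Ind m A → Ind m (fun X => A X ^ 2) := by
      intro m hm X y
      simp only
      rw [hm X y]
    have hq := hF ι ℓ hℓ q (fun X => A X ^ 2) i j k hij hik hjk hK.bq (bmSq hB hBA) (hsqInd i hI)
      (hsqInd j hJ) (hsqInd k hKk)
    have hns : ns ℓ A = ∫ X, A X ^ 2 ∂(PiM ι ℓ) := rfl
    rw [hns, ← hq, ← integral_const_mul, ← integral_sub]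
    · refine integral_mono_ae ?_ ?_ ?_
      · exact bmInt hB (bmSub hB (bmSmul hB 2 (bmMul hB (bmMul hB hu (bm3 hB hK.bw i j k)) hBA))
          (bmMul hB (bm3 hB hK.bq i j k) (bmSq hB hBA))) _
      · exact bmInt hB (bmMul hB (bmV hV i j k) (bmSq hB hu)) _
      · filter_upwards [hae] with X hX
        have := hK.wq (X i) (hX i).1 (X j) (hX j).1 (X k) (hX k).1 (u X) (A X)
        nlinarith [this]
    · exact bmInt hB (bmSmul hB 2 (bmMul hB (bmMul hB hu (bm3 hB hK.bw i j k)) hBA)) _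
    · exact bmInt hB (bmMul hB (bm3 hB hK.bq i j k) (bmSq hB hBA)) _
  have hsum := Finset.sum_le_sum key
  rw [Finset.sum_sub_distrib, ← Finset.mul_sum, ← Finset.mul_sum] at hsum
  linarith

end Pool.Agent.TBL
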