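import Pool.Agent.TBL.Stmts

/-!
# Squad TBL (MP_80dc41_mp), module PQF: the projections
-/

set_option autoImplicit false

open MeasureTheory Filter Topology

namespace Pool.Agent.TBL

open Pool.Agent.TBG

theorem pqf_proof (hBMC : Stmt_BMC) (hMEP : Stmt_MEP) (hAVA : Stmt_AVA) (hAVB : Stmt_AVB) :
    Stmt_PQF := by
  intro ι _ _ ℓ hℓ
  obtain ⟨b1, b2, b3, b4, b5⟩ := hBMC
  have p1 : IsProbabilityMeasure (PiM ι ℓ) := (hMEP ι ℓ hℓ).1
  have hint : ∀ F : (ι → E) → ℝ, BM F → Integrable F (PiM ι ℓ) :=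
    fun F hF => (b1 _ F F hF hF).2.2.2.2.2.2 _
  have hadd : ∀ F G : (ι → E) → ℝ, BM F → BM G → BM (fun X => F X + G X) :=
    fun F G hF hG => (b1 _ F G hF hG).1
  have hsub : ∀ F G : (ι → E) → ℝ, BM F → BM G → BM (fun X => F X - G X) :=
    fun F G hF hG => (b1 _ F G hF hG).2.1
  have hmul : ∀ F G : (ι → E) → ℝ, BM F → BM G → BM (fun X => F X * G X) :=
    fun F G hF hG => (b1 _ F G hF hG).2.2.1
  have hav : ∀ (i : ι) (F : (ι → E) → ℝ), BM F → BM (av ℓ i F) :=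
    fun i F hF => (hAVA ι ℓ hℓ i F hF).1
  have hQ : ∀ (i : ι) (F : (ι → E) → ℝ), BM F → BM (Qa ℓ i F) :=
    fun i F hF => hsub F (av ℓ i F) hF (hav i F hF)
  have hcomm : ∀ (i j : ι) (F : (ι → E) → ℝ), BM F → av ℓ i (av ℓ j F) = av ℓ j (av ℓ i F) :=
    fun i j F hF => (hAVA ι ℓ hℓ i F hF).2.2.2.1 j
  -- `∫ PF G = ∫ PF PG`
  have key : ∀ (i : ι) (F G : (ι → E) → ℝ), BM F → BM G →
      ∫ X, av ℓ i F X * G X ∂(PiM ι ℓ) = ∫ X, av ℓ i F X * av ℓ i G X ∂(PiM ι ℓ) := by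
    intro i F G hF hG
    have h1 := (hAVA ι ℓ hℓ i _ (hmul _ _ (hav i F hF) hG)).2.1
    rw [← h1, (hAVB ι ℓ hℓ i).2.2.1 G (av ℓ i F) ((hAVB ι ℓ hℓ i).1 F)]
  have hsa : ∀ (i : ι) (F G : (ι → E) → ℝ), BM F → BM G →
      ∫ X, av ℓ i F X * G X ∂(PiM ι ℓ) = ∫ X, F X * av ℓ i G X ∂(PiM ι ℓ) := by
    intro i F G hF hG
    rw [key i F G hF hG]
    have h1 := key i G F hG hF
    have h2 : ∫ X, F X * av ℓ i G X ∂(PiM ι ℓ) = ∫ X, av ℓ i G X * F X ∂(PiM ι ℓ) := by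
      congr 1
      funext X
      ring
    rw [h2, h1]
    congr 1
    funext X
    ring
  have hns0 : ∀ F : (ι → E) → ℝ, 0 ≤ ns ℓ F := fun F => integral_nonneg fun X => sq_nonneg _
  have hpyth : ∀ (i : ι) (F : (ι → E) → ℝ), BM F → ns ℓ F = ns ℓ (av ℓ i F) + ns ℓ (Qa ℓ i F) := by
    intro i F hF
    have h1 := key i F F hF hF
    have h2 := hint _ (hmul _ _ (hav i F hF) hF)
    have h3 := hint _ (hmul _ _ (hav i F hF) (hav i F hF))
    have h4 := hint _ (hmul _ _ hF hF)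
    have e1 : ns ℓ (Qa ℓ i F) = ∫ X, (F X * F X - 2 * (av ℓ i F X * F X)) + av ℓ i F X * av ℓ i F X
        ∂(PiM ι ℓ) := by
      unfold ns Qa
      congr 1
      funext X
      ring
    have h5 : Integrable (fun X => F X * F X - 2 * (av ℓ i F X * F X)) (PiM ι ℓ) :=
      h4.sub (h2.const_mul 2)
    rw [e1, integral_add h5 h3, integral_sub h4 (h2.const_mul 2), integral_const_mul, h1]
    have e2 : ns ℓ F = ∫ X, F X * F X ∂(PiM ι ℓ) := by
      unfold ns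
      congr 1
      funext X
      ring
    have e3 : ns ℓ (av ℓ i F) = ∫ X, av ℓ i F X * av ℓ i F X ∂(PiM ι ℓ) := by
      unfold ns
      congr 1
      funext X
      ring
    rw [e2, e3]
    ring
  have hleP : ∀ (i : ι) (F : (ι → E) → ℝ), BM F → ns ℓ (av ℓ i F) ≤ ns ℓ F := by
    intro i F hF
    rw [hpyth i F hF]
    linarith [hns0 (Qa ℓ i F)]
  have hleQ : ∀ (i : ι) (F : (ι → E) → ℝ), BM F → ns ℓ (Qa ℓ i F) ≤ ns ℓ F := by
    intro i F hF
    have := hpyth i F hF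
    linarith [hns0 (av ℓ i F)]
  have hPQ : ∀ (i j : ι) (F : (ι → E) → ℝ), BM F → av ℓ j (Qa ℓ i F) = Qa ℓ i (av ℓ j F) := by
    intro i j F hF
    have h1 := (hAVB ι ℓ hℓ j).2.2.2.2.2.1 F (av ℓ i F) hF (hav i F hF)
    have h2 : av ℓ j (Qa ℓ i F) = fun X => av ℓ j F X - av ℓ j (av ℓ i F) X := h1
    rw [h2, hcomm j i F hF]
    rfl
  have hQQ : ∀ (i j : ι) (F : (ι → E) → ℝ), BM F → Qa ℓ j (Qa ℓ i F) = Qa ℓ i (Qa ℓ j F) := by
    intro i j F hF
    funext X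
    show Qa ℓ i F X - av ℓ j (Qa ℓ i F) X = Qa ℓ j F X - av ℓ i (Qa ℓ j F) X
    rw [hPQ i j F hF, hPQ j i F hF]
    show F X - av ℓ i F X - (av ℓ j F X - av ℓ i (av ℓ j F) X) =
      F X - av ℓ j F X - (av ℓ i F X - av ℓ j (av ℓ i F) X)
    rw [hcomm i j F hF]
    ring
  intro i F G hF hG
  refine ⟨hQ i F hF, hns0 F, hsa i F G hF hG, ?_, hpyth i F hF, hleP i F hF, hleQ i F hF, ?_,
    fun j => hPQ i j F hF, ?_, ?_, fun j => hQQ i j F hF, ?_⟩
  · have h1 := hint _ (hmul _ _ hF hG)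
    have h2 := hint _ (hmul _ _ (hav i F hF) hG)
    have h3 := hint _ (hmul _ _ hF (hav i G hG))
    have e1 : ∫ X, Qa ℓ i F X * G X ∂(PiM ι ℓ) = ∫ X, F X * G X - av ℓ i F X * G X ∂(PiM ι ℓ) := by
      unfold Qa
      congr 1
      funext X
      ring
    have e2 : ∫ X, F X * Qa ℓ i G X ∂(PiM ι ℓ) = ∫ X, F X * G X - F X * av ℓ i G X ∂(PiM ι ℓ) := by
      unfold Qa
      congr 1
      funext X
      ring
    rw [e1, e2, integral_sub h1 h2, integral_sub h1 h3, hsa i F G hF hG]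
  · have h1 := (hAVB ι ℓ hℓ i).2.2.2.2.2.1 F (av ℓ i F) hF (hav i F hF)
    have h2 : av ℓ i (Qa ℓ i F) = fun X => av ℓ i F X - av ℓ i (av ℓ i F) X := h1
    rw [h2, (hAVB ι ℓ hℓ i).2.2.2.1 (av ℓ i F) ((hAVB ι ℓ hℓ i).1 F)]
    funext X
    exact sub_self _
  · intro j
    rw [← hPQ j i F hF]
    exact hleP i _ (hQ j F hF)
  · intro j
    rw [hQQ i j F hF]
    exact hleQ i _ (hQ j F hF)
  · have h1 := hint _ (hmul _ _ hF hF)
    have h2 := hint _ (hmul _ _ hF hG)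
    have h3 := hint _ (hmul _ _ hG hG)
    have e1 : ns ℓ F = ∫ X, F X * F X ∂(PiM ι ℓ) := by
      unfold ns
      congr 1
      funext X
      ring
    have e2 : ns ℓ G = ∫ X, G X * G X ∂(PiM ι ℓ) := by
      unfold ns
      congr 1
      funext X
      ring
    have hpos : ∀ t : ℝ, 0 ≤ ns ℓ F * (t * t) + 2 * (∫ X, F X * G X ∂(PiM ι ℓ)) * t + ns ℓ G := by
      intro t
      have h4 : 0 ≤ ∫ X, (t * F X + G X) ^ 2 ∂(PiM ι ℓ) := integral_nonneg fun X => sq_nonneg _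
      have e3 : ∫ X, (t * F X + G X) ^ 2 ∂(PiM ι ℓ) =
          ∫ X, ((t * t) * (F X * F X) + (2 * t) * (F X * G X)) + G X * G X ∂(PiM ι ℓ) := by
        congr 1
        funext X
        ring
      have h5 : Integrable (fun X => (t * t) * (F X * F X) + (2 * t) * (F X * G X)) (PiM ι ℓ) :=
        (h1.const_mul _).add (h2.const_mul _)
      rw [e3, integral_add h5 h3, integral_add (h1.const_mul _) (h2.const_mul _),
        integral_const_mul, integral_const_mul, ← e1, ← e2] at h4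
      linarith
    have h6 := discrim_le_zero hpos
    unfold discrim at h6
    nlinarith

end Pool.Agent.TBL
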