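import Pool.Agent.TBL.Stmts

/-!
# Three-body Bose gases (MP_80dc41_mp), module PRF: the profiles
-/

set_option autoImplicit false

open MeasureTheory Filter Topology
open scoped ContDiff

namespace Pool.Agent.TBL

open Pool.Agent.TBG

namespace PRF_

lemma W1_smooth : ContDiff ℝ ∞ W1 := by
  unfold W1
  exact contDiff_const.sub (Real.smoothTransition.contDiff.comp (by fun_prop))

lemma W1_cont : Continuous W1 := W1_smooth.continuous

lemma W1_nonneg (s : ℝ) : 0 ≤ W1 s := by
  unfold W1; linarith [Real.smoothTransition.le_one (2 * s - 1)]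

lemma W1_le (s : ℝ) : W1 s ≤ 1 := by
  unfold W1; linarith [Real.smoothTransition.nonneg (2 * s - 1)]

lemma W1_pos {s : ℝ} (h : s < 1) : 0 < W1 s := by
  unfold W1; linarith [Real.smoothTransition.lt_one_of_lt_one (x := 2 * s - 1) (by linarith)]

lemma W1_zero {s : ℝ} (h : 1 ≤ s) : W1 s = 0 := by
  unfold W1; rw [Real.smoothTransition.one_of_one_le (by linarith), sub_self]

lemma W1_one {s : ℝ} (h : s ≤ 1 / 2) : W1 s = 1 := by
  unfold W1; rw [Real.smoothTransition.zero_of_nonpos (by linarith), sub_zero]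

lemma W1_anti : Antitone W1 := by
  intro a b hab
  unfold W1
  linarith [Real.smoothTransition.monotone (show 2 * a - 1 ≤ 2 * b - 1 by linarith)]

/-- the primitive -/
noncomputable def F (s : ℝ) : ℝ := ∫ τ in (0 : ℝ)..s, τ ^ 2 * W1 τ

lemma cF : Continuous fun τ : ℝ => τ ^ 2 * W1 τ := (by fun_prop : Continuous fun τ : ℝ => τ ^ 2).mul W1_cont

lemma F_deriv (s : ℝ) : HasDerivAt F (s ^ 2 * W1 s) s := by
  unfold F
  exact intervalIntegral.integral_hasDerivAt_right (cF.intervalIntegrable 0 s)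
    (cF.stronglyMeasurableAtFilter _ _) cF.continuousAt

lemma F_smooth : ContDiff ℝ ∞ F := by
  rw [contDiff_infty_iff_deriv]
  refine ⟨fun s => (F_deriv s).differentiableAt, ?_⟩
  have : deriv F = fun s => s ^ 2 * W1 s := by
    funext s; exact (F_deriv s).deriv
  rw [this]
  exact (by fun_prop : ContDiff ℝ ∞ fun s : ℝ => s ^ 2).mul W1_smooth

lemma F_one : F 1 = M1 := rfl

lemma F_ge {s : ℝ} (h : 1 ≤ s) : F s = M1 := by
  have h1 : F s = F 1 + ∫ τ in (1 : ℝ)..s, τ ^ 2 * W1 τ := by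
    unfold F
    rw [intervalIntegral.integral_add_adjacent_intervals (cF.intervalIntegrable _ _)
      (cF.intervalIntegrable _ _)]
  have h2 : ∫ τ in (1 : ℝ)..s, τ ^ 2 * W1 τ = ∫ τ in (1 : ℝ)..s, (0 : ℝ) := by
    apply intervalIntegral.integral_congr
    intro τ hτ
    rw [Set.uIcc_of_le h] at hτ
    show τ ^ 2 * W1 τ = 0
    rw [W1_zero hτ.1, mul_zero]
  rw [h1, h2, F_one]; simp

lemma M1_pos : 0 < M1 := by
  have h1 : M1 = F (1 / 2) + ∫ τ in (1 / 2 : ℝ)..1, τ ^ 2 * W1 τ := by
    rw [← F_one]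
    unfold F
    rw [intervalIntegral.integral_add_adjacent_intervals (cF.intervalIntegrable _ _)
      (cF.intervalIntegrable _ _)]
  have h2 : F (1 / 2) = ∫ τ in (0 : ℝ)..(1 / 2), τ ^ 2 := by
    unfold F
    apply intervalIntegral.integral_congr
    intro τ hτ
    rw [Set.uIcc_of_le (by norm_num)] at hτ
    show τ ^ 2 * W1 τ = τ ^ 2
    rw [W1_one hτ.2, mul_one]
  have h3 : 0 ≤ ∫ τ in (1 / 2 : ℝ)..1, τ ^ 2 * W1 τ :=
    intervalIntegral.integral_nonneg (by norm_num)
      (fun τ _ => mul_nonneg (sq_nonneg _) (W1_nonneg _))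
  rw [h1, h2, integral_pow]
  norm_num at h3 ⊢
  linarith

lemma M1_le : M1 ≤ 1 / 3 := by
  have h1 : M1 ≤ ∫ t in (0 : ℝ)..1, t ^ 2 := by
    unfold M1
    apply intervalIntegral.integral_mono_on (by norm_num) (cF.intervalIntegrable _ _)
      ((by fun_prop : Continuous fun t : ℝ => t ^ 2).intervalIntegrable _ _)
    intro t _
    have := mul_le_mul_of_nonneg_left (W1_le t) (sq_nonneg t)
    simpa using this
  rw [integral_pow] at h1
  norm_num at h1
  linarith

lemma p1_ne {s : ℝ} (hs : s ≠ 0) : p1 s = F s / (4 * s ^ 3) := by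
  unfold p1 F
  have h1 : ∀ t : ℝ, t ^ 2 * W1 (s * t) = (s ^ 2)⁻¹ * ((fun τ => τ ^ 2 * W1 τ) (s * t)) := by
    intro t
    show t ^ 2 * W1 (s * t) = (s ^ 2)⁻¹ * ((s * t) ^ 2 * W1 (s * t))
    field_simp
  simp_rw [h1]
  rw [intervalIntegral.integral_const_mul,
    intervalIntegral.integral_comp_mul_left (fun τ => τ ^ 2 * W1 τ) hs, mul_zero, mul_one,
    smul_eq_mul]
  field_simp

lemma p1_small {s : ℝ} (hs : s ≤ 1 / 2) : p1 s = 1 / 12 := by
  unfold p1
  have h2 : ∫ t in (0 : ℝ)..1, t ^ 2 * W1 (s * t) = ∫ t in (0 : ℝ)..1, t ^ 2 := by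
    apply intervalIntegral.integral_congr
    intro t ht
    rw [Set.uIcc_of_le (by norm_num)] at ht
    show t ^ 2 * W1 (s * t) = t ^ 2
    rw [W1_one, mul_one]
    rcases le_total 0 s with h | h
    · nlinarith [ht.1, ht.2]
    · nlinarith [ht.1, ht.2]
  rw [h2, integral_pow]
  norm_num

lemma p1_smooth : ContDiff ℝ ∞ p1 := by
  rw [contDiff_iff_contDiffAt]
  intro s
  by_cases hs : s < 1 / 2
  · have h1 : p1 =ᶠ[𝓝 s] fun _ => 1 / 12 := by
      filter_upwards [Iio_mem_nhds hs] with x hx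
      exact p1_small (le_of_lt hx)
    exact (contDiffAt_const).congr_of_eventuallyEq h1
  · push Not at hs
    have h1 : p1 =ᶠ[𝓝 s] fun x => F x / (4 * x ^ 3) := by
      have : (1 / 4 : ℝ) < s := by linarith
      filter_upwards [Ioi_mem_nhds this] with x hx
      have hx' : (1 / 4 : ℝ) < x := hx
      exact p1_ne (by linarith)
    refine ContDiffAt.congr_of_eventuallyEq ?_ h1
    refine F_smooth.contDiffAt.div (by fun_prop) ?_
    have : 0 < s := by linarith
    positivity

lemma p1_cont : Continuous p1 := p1_smooth.continuous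

/-- the ODE -/
lemma p1_ode (s : ℝ) : 4 * s * deriv p1 s + 12 * p1 s = W1 s := by
  by_cases hs : s < 1 / 2
  · have h1 : p1 =ᶠ[𝓝 s] fun _ => 1 / 12 := by
      filter_upwards [Iio_mem_nhds hs] with x hx
      exact p1_small (le_of_lt hx)
    rw [h1.deriv_eq, p1_small hs.le, W1_one hs.le]
    simp
  · push Not at hs
    have hs0 : 0 < s := by linarith
    have h1 : p1 =ᶠ[𝓝 s] fun x => F x / (4 * x ^ 3) := by
      have : (1 / 4 : ℝ) < s := by linarith
      filter_upwards [Ioi_mem_nhds this] with x hx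
      have hx' : (1 / 4 : ℝ) < x := hx
      exact p1_ne (by linarith)
    have h2 : HasDerivAt (fun x : ℝ => 4 * x ^ 3) (4 * (3 * s ^ 2)) s := by
      have := (hasDerivAt_pow 3 s).const_mul 4
      simpa using this
    have h3 : HasDerivAt (fun x => F x / (4 * x ^ 3))
        ((s ^ 2 * W1 s * (4 * s ^ 3) - F s * (4 * (3 * s ^ 2))) / (4 * s ^ 3) ^ 2) s :=
      (F_deriv s).div h2 (by positivity)
    rw [h1.deriv_eq, h3.deriv, p1_ne hs0.ne']
    field_simp
    ring

lemma p1_nonneg (s : ℝ) : 0 ≤ p1 s := by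
  unfold p1
  have : 0 ≤ ∫ t in (0 : ℝ)..1, t ^ 2 * W1 (s * t) :=
    intervalIntegral.integral_nonneg (by norm_num)
      (fun t _ => mul_nonneg (sq_nonneg _) (W1_nonneg _))
  linarith

lemma p1_le (s : ℝ) : p1 s ≤ 1 / 12 := by
  have h1 : ∫ t in (0 : ℝ)..1, t ^ 2 * W1 (s * t) ≤ ∫ t in (0 : ℝ)..1, t ^ 2 := by
    apply intervalIntegral.integral_mono_on (by norm_num)
    · apply Continuous.intervalIntegrable
      exact (by fun_prop : Continuous fun t : ℝ => t ^ 2).mul (W1_cont.comp (by fun_prop))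
    · exact (by fun_prop : Continuous fun t : ℝ => t ^ 2).intervalIntegrable _ _
    · intro t _
      have := mul_le_mul_of_nonneg_left (W1_le (s * t)) (sq_nonneg t)
      simpa using this
  rw [integral_pow] at h1
  norm_num at h1
  unfold p1
  linarith

lemma p1_large {s : ℝ} (h : 1 ≤ s) : p1 s = M1 / (4 * s ^ 3) := by
  rw [p1_ne (by linarith), F_ge h]

lemma P1_hasDeriv (s : ℝ) : HasDerivAt P1 (-p1 s) s := by
  unfold P1
  have := (intervalIntegral.integral_hasDerivAt_left (p1_cont.intervalIntegrable s 1)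
    (p1_cont.stronglyMeasurableAtFilter _ _) p1_cont.continuousAt).const_add (M1 / 8)
  exact this

lemma P1_deriv : deriv P1 = fun s => -p1 s := by
  funext s; exact (P1_hasDeriv s).deriv

lemma P1_smooth : ContDiff ℝ ∞ P1 := by
  rw [contDiff_infty_iff_deriv]
  refine ⟨fun s => (P1_hasDeriv s).differentiableAt, ?_⟩
  rw [P1_deriv]
  exact p1_smooth.neg

lemma P1_one : P1 1 = M1 / 8 := by
  unfold P1; simp

lemma P1_anti : Antitone P1 := by
  apply antitone_of_deriv_nonpos (fun s => (P1_hasDeriv s).differentiableAt)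
  intro s
  rw [P1_deriv]
  show -p1 s ≤ 0
  linarith [p1_nonneg s]

lemma P1_zero_le : P1 0 ≤ 1 / 8 := by
  unfold P1
  have h1 : ∫ σ in (0 : ℝ)..1, p1 σ ≤ ∫ σ in (0 : ℝ)..1, (1 / 12 : ℝ) := by
    apply intervalIntegral.integral_mono_on (by norm_num) (p1_cont.intervalIntegrable _ _)
      (continuous_const.intervalIntegrable _ _)
    intro t _
    exact p1_le t
  rw [intervalIntegral.integral_const] at h1
  norm_num at h1
  have := M1_le
  linarith

lemma P1_large {s : ℝ} (h : 1 ≤ s) : P1 s = M1 / (8 * s ^ 2) := by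
  have hs0 : 0 < s := by linarith
  have key : ∫ σ in (1 : ℝ)..s, p1 σ = M1 / 8 - M1 / (8 * s ^ 2) := by
    have h1 : ∫ σ in (1 : ℝ)..s, p1 σ = (-(M1 / (8 * s ^ 2))) - (-(M1 / (8 * 1 ^ 2))) := by
      apply intervalIntegral.integral_eq_sub_of_hasDerivAt (f := fun x : ℝ => -(M1 / (8 * x ^ 2)))
      · intro x hx
        rw [Set.uIcc_of_le h] at hx
        have hx0 : 0 < x := by linarith [hx.1]
        rw [p1_large hx.1]
        have h2 : HasDerivAt (fun x : ℝ => 8 * x ^ 2) (8 * (2 * x)) x := by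
          have := (hasDerivAt_pow 2 x).const_mul 8
          simpa using this
        have h3 := ((hasDerivAt_const x M1).div h2 (by positivity)).neg
        have h4 : -((0 * (8 * x ^ 2) - M1 * (8 * (2 * x))) / (8 * x ^ 2) ^ 2) = M1 / (4 * x ^ 3) := by
          field_simp
          ring
        rw [h4] at h3
        exact h3
      · exact p1_cont.intervalIntegrable _ _
    rw [h1]; ring
  unfold P1
  rw [intervalIntegral.integral_symm, key]
  ring

end PRF_

open PRF_ in
theorem prf_proof : Stmt_PRF := by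
  have hM := M1_pos
  have hM' := M1_le
  refine ⟨W1_smooth, P1_smooth, fun s => ⟨W1_nonneg s, W1_le s⟩, fun s hs => W1_pos hs,
    fun s hs => W1_zero hs, W1_anti, ?_, ?_, ?_, hM, hM', fun s hs => P1_large hs⟩
  · intro s
    have h1 : deriv (fun s => -p1 s) s = -deriv p1 s := by
      rw [deriv.fun_neg]
    rw [P1_deriv, h1]
    have := p1_ode s
    linarith
  · intro s hs
    have h0 : P1 s ≤ 1 / 8 := (P1_anti hs).trans P1_zero_le
    have habs : |deriv P1 s| = p1 s := by
      rw [P1_deriv]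
      show |-p1 s| = p1 s
      rw [abs_neg, abs_of_nonneg (p1_nonneg s)]
    rcases le_total s 1 with h | h
    · have h1 : M1 / 8 ≤ P1 s := by rw [← P1_one]; exact P1_anti h
      refine ⟨by linarith, h0, ?_, ?_⟩
      · have h2 : (1 + s) ^ 2 ≤ 4 := by nlinarith
        have h3 : 0 ≤ P1 s := by linarith
        nlinarith
      · rw [habs]
        have h2 : (1 + s) ^ 3 ≤ 8 := by
          have : (1 + s) ^ 3 ≤ 2 ^ 3 := pow_le_pow_left₀ (by linarith) (by linarith) 3
          linarith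
        have h3 := p1_nonneg s
        have h4 := p1_le s
        nlinarith
    · have hs0 : 0 < s := by linarith
      have h1 := P1_large h
      refine ⟨by rw [h1]; positivity, h0, ?_, ?_⟩
      · rw [h1]
        have h2 : (1 + s) ^ 2 ≤ 4 * s ^ 2 := by nlinarith
        have h3 : (1 + s) ^ 2 * (M1 / (8 * s ^ 2)) ≤ 4 * s ^ 2 * (M1 / (8 * s ^ 2)) :=
          mul_le_mul_of_nonneg_right h2 (by positivity)
        have h4 : 4 * s ^ 2 * (M1 / (8 * s ^ 2)) = M1 / 2 := by
          field_simp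
          norm_num
        linarith
      · rw [habs, p1_large h]
        have h2 : (1 + s) ^ 3 ≤ 8 * s ^ 3 := by
          have : (1 + s) ^ 3 ≤ (2 * s) ^ 3 := pow_le_pow_left₀ (by linarith) (by linarith) 3
          nlinarith
        have h3 : (1 + s) ^ 3 * (M1 / (4 * s ^ 3)) ≤ 8 * s ^ 3 * (M1 / (4 * s ^ 3)) :=
          mul_le_mul_of_nonneg_right h2 (by positivity)
        have h4 : 8 * s ^ 3 * (M1 / (4 * s ^ 3)) = 2 * M1 := by
          field_simp
          norm_num
        linarith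
  · refine ⟨M1 / 8, by positivity, fun s hs => ?_⟩
    rcases le_total s 1 with h | h
    · have h1 : M1 / 8 ≤ P1 s := by rw [← P1_one]; exact P1_anti h
      have h2 : 1 ≤ (1 + s) ^ 2 := by nlinarith
      have h3 : 0 ≤ P1 s := by linarith
      nlinarith
    · have hs0 : 0 < s := by linarith
      rw [P1_large h]
      have h2 : s ^ 2 ≤ (1 + s) ^ 2 := by nlinarith
      have h3 : s ^ 2 * (M1 / (8 * s ^ 2)) ≤ (1 + s) ^ 2 * (M1 / (8 * s ^ 2)) :=
        mul_le_mul_of_nonneg_right h2 (by positivity)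
      have h4 : s ^ 2 * (M1 / (8 * s ^ 2)) = M1 / 8 := by
        field_simp
      linarith

end Pool.Agent.TBL
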