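import Pool.Agent.TBL.Stmts

/-! # PSA: the interaction of disjoint clusters -/

set_option autoImplicit false

open MeasureTheory Filter Topology

namespace Pool.Agent.TBL

open Pool.Agent.TBG

namespace PSA_

variable {ι : Type} [Fintype ι] [DecidableEq ι]

/-- the triples in `S` -/
def T3 (S : Finset ι) : Finset (ι × ι × ι) :=
  (D3 ι).filter (fun t => t.1 ∈ S ∧ t.2.1 ∈ S ∧ t.2.2 ∈ S)

theorem potS_sub (V : E → E → ℝ) (S : Finset ι) (X : ι → E) :
    potS V (fun i : {i // i ∈ S} => X i) =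
      1 / 6 * ∑ t ∈ T3 S, V (X t.1 - X t.2.1) (X t.1 - X t.2.2) := by
  unfold potS
  congr 1
  refine Finset.sum_bij (fun t _ => ((t.1 : ι), (t.2.1 : ι), (t.2.2 : ι))) ?_ ?_ ?_ ?_
  · intro t ht
    unfold D3 at ht
    rw [Finset.mem_filter] at ht
    obtain ⟨_, h1, h2, h3⟩ := ht
    unfold T3 D3
    rw [Finset.mem_filter, Finset.mem_filter]
    exact ⟨⟨Finset.mem_univ _, fun h => h1 (Subtype.ext h), fun h => h2 (Subtype.ext h),
      fun h => h3 (Subtype.ext h)⟩, t.1.2, t.2.1.2, t.2.2.2⟩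
  · intro t _ t' _ h
    obtain ⟨a, b, c⟩ := t
    obtain ⟨a', b', c'⟩ := t'
    simp only [Prod.mk.injEq] at h ⊢
    exact ⟨Subtype.ext h.1, Subtype.ext h.2.1, Subtype.ext h.2.2⟩
  · intro t ht
    unfold T3 D3 at ht
    rw [Finset.mem_filter, Finset.mem_filter] at ht
    obtain ⟨⟨_, h1, h2, h3⟩, g1, g2, g3⟩ := ht
    refine ⟨(⟨t.1, g1⟩, ⟨t.2.1, g2⟩, ⟨t.2.2, g3⟩), ?_, rfl⟩
    unfold D3
    rw [Finset.mem_filter]
    refine ⟨Finset.mem_univ _, ?_, ?_, ?_⟩
    · intro h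
      exact h1 (congrArg Subtype.val h)
    · intro h
      exact h2 (congrArg Subtype.val h)
    · intro h
      exact h3 (congrArg Subtype.val h)
  · intro t _
    rfl

end PSA_

open PSA_ in
theorem psa_proof : Stmt_PSA := by
  intro V ι K _ _ s S X hV hdis
  have h1 : ∑ k ∈ s, potS V (fun i : {i // i ∈ S k} => X i) =
      1 / 6 * ∑ k ∈ s, ∑ t ∈ T3 (S k), V (X t.1 - X t.2.1) (X t.1 - X t.2.2) := by
    rw [Finset.mul_sum]
    exact Finset.sum_congr rfl fun k _ => potS_sub V (S k) X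
  rw [h1, ← Finset.sum_biUnion]
  · unfold potS
    refine mul_le_mul_of_nonneg_left ?_ (by norm_num)
    refine Finset.sum_le_sum_of_subset_of_nonneg ?_ (fun t _ _ => hV.nonneg _ _)
    intro t ht
    obtain ⟨k, _, hk⟩ := Finset.mem_biUnion.1 ht
    exact (Finset.mem_filter.1 hk).1
  · intro k hk k' hk' hne
    show Disjoint (T3 (S k)) (T3 (S k'))
    rw [Finset.disjoint_left]
    intro t ht ht'
    have g1 := (Finset.mem_filter.1 ht).2.1
    have g2 := (Finset.mem_filter.1 ht').2.1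
    exact (Finset.disjoint_left.1 (hdis k hk k' hk' hne)) g1 g2

end Pool.Agent.TBL
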