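import Pool.Agent.TBL.Stmts
import Pool.Agent.TBG.PRM

/-!
# Three-body Bose gases (MP_80dc41_mp): the interaction energy as a symmetric sum
-/

set_option autoImplicit false

namespace Pool.Agent.TBL

open Pool.Agent.TBG

theorem pte_proof : Stmt_PTE := by
  intro V N X hV
  set g : Fin N → Fin N → Fin N → ℝ := fun i j k => V (X i - X j) (X i - X k) with hg
  have h1 : ∀ i j k, g i j k = g i k j := fun i j k => hV.symm _ _
  have h2 : ∀ i j k, g i j k = g j i k := fun i j k => (hV.tri (X i) (X j) (X k)).1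
  have key := PRM_.main6 g h1 h2
  have e1 : pot V X = ∑ i, ∑ j, ∑ k, PRM_.s i j k * g i j k := by
    unfold pot PRM_.s
    refine Finset.sum_congr rfl fun i _ => Finset.sum_congr rfl fun j _ =>
      Finset.sum_congr rfl fun k _ => ?_
    split_ifs
    · rw [one_mul]
    · rw [zero_mul]
  have e2 : ∑ t ∈ D3 (Fin N), V (X t.1 - X t.2.1) (X t.1 - X t.2.2) =
      ∑ i, ∑ j, ∑ k, PRM_.d i j k * g i j k := by
    unfold D3 PRM_.d
    rw [Finset.sum_filter, ← Finset.univ_product_univ, Finset.sum_product]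
    refine Finset.sum_congr rfl fun i _ => ?_
    rw [← Finset.univ_product_univ, Finset.sum_product]
    refine Finset.sum_congr rfl fun j _ => Finset.sum_congr rfl fun k _ => ?_
    by_cases h : i ≠ j ∧ j ≠ k ∧ i ≠ k
    · rw [if_pos h, one_mul, if_pos ⟨h.1, h.2.2, h.2.1⟩]
    · rw [if_neg h, zero_mul, if_neg]
      intro h'
      exact h ⟨h'.1, h'.2.2, h'.2.1⟩
  unfold potS
  rw [e2, e1, ← key]
  ring

end Pool.Agent.TBL
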