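import Pool.Agent.TBL.Stmts

/-!
# TBL, module QFB: the form `Qf`
-/

set_option autoImplicit false

open MeasureTheory Filter Topology
open scoped ContDiff

namespace Pool.Agent.TBL

open Pool.Agent.TBG

namespace QFB_

/-- weighted Cauchy-Schwarz inequality -/
theorem cs {α : Type} [MeasurableSpace α] (μ : Measure α) (w u v : α → ℝ) (hw : ∀ x, 0 ≤ w x)
    (h1 : Integrable (fun x => w x * (u x * u x)) μ) (h2 : Integrable (fun x => w x * (u x * v x)) μ)
    (h3 : Integrable (fun x => w x * (v x * v x)) μ) :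
    |∫ x, w x * (u x * v x) ∂μ| ≤
      Real.sqrt (∫ x, w x * (u x * u x) ∂μ) * Real.sqrt (∫ x, w x * (v x * v x) ∂μ) := by
  set a := ∫ x, w x * (v x * v x) ∂μ with ha
  set b := ∫ x, w x * (u x * v x) ∂μ with hb
  set c := ∫ x, w x * (u x * u x) ∂μ with hc
  have hnn : ∀ t : ℝ, 0 ≤ a * (t * t) + (2 * b) * t + c := by
    intro t
    have hI : ∫ x, w x * ((u x + t * v x) * (u x + t * v x)) ∂μ = a * (t * t) + (2 * b) * t + c := by
      have : (fun x => w x * ((u x + t * v x) * (u x + t * v x))) =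
          fun x => (w x * (u x * u x) + (2 * t) * (w x * (u x * v x))) +
            (t * t) * (w x * (v x * v x)) := by
        funext x; ring
      have e12 : Integrable (fun x => w x * (u x * u x) + (2 * t) * (w x * (u x * v x))) μ :=
        h1.add (h2.const_mul _)
      rw [this, integral_add e12 (h3.const_mul _),
        integral_add h1 (h2.const_mul _), integral_const_mul, integral_const_mul]
      ring
    rw [← hI]
    apply integral_nonneg
    intro x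
    exact mul_nonneg (hw x) (mul_self_nonneg _)
  have hd := discrim_le_zero hnn
  unfold discrim at hd
  have hc0 : 0 ≤ c := integral_nonneg fun x => mul_nonneg (hw x) (mul_self_nonneg _)
  rw [← Real.sqrt_mul hc0, ← Real.sqrt_sq_eq_abs]
  apply Real.sqrt_le_sqrt
  nlinarith

section

variable {ℓ : ℝ}

/-- integrability of the integrand of the jump form -/
theorem int_prod (hM : Stmt_MES) (hℓ : 0 < ℓ) {κ : E → E → ℝ} (hκ : BM2 κ) {f g : E → ℝ}
    (hf : Continuous f) (hg : Continuous g) :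
    Integrable (fun p : E × E => κ p.1 p.2 * ((f p.1 - f p.2) * (g p.1 - g p.2)))
      ((nuc ℓ).prod (nuc ℓ)) := by
  obtain ⟨-, -, -, hP, -, -, hI, -⟩ := hM ℓ hℓ
  obtain ⟨hm, C, hC⟩ := hκ
  have hfg := hI (fun x => f x * g x) (hf.mul hg)
  have e1 : Integrable (fun p : E × E => f p.1 * g p.1) ((nuc ℓ).prod (nuc ℓ)) :=
    hfg.comp_fst (nuc ℓ)
  have e2 : Integrable (fun p : E × E => f p.2 * g p.2) ((nuc ℓ).prod (nuc ℓ)) :=
    hfg.comp_snd (nuc ℓ)
  have e3 : Integrable (fun p : E × E => f p.1 * g p.2) ((nuc ℓ).prod (nuc ℓ)) :=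
    (hI f hf).mul_prod (hI g hg)
  have e4 : Integrable (fun p : E × E => g p.1 * f p.2) ((nuc ℓ).prod (nuc ℓ)) :=
    (hI g hg).mul_prod (hI f hf)
  have e5 : Integrable (fun p : E × E => (f p.1 - f p.2) * (g p.1 - g p.2))
      ((nuc ℓ).prod (nuc ℓ)) := by
    have : (fun p : E × E => (f p.1 - f p.2) * (g p.1 - g p.2)) =
        fun p => (f p.1 * g p.1 - f p.1 * g p.2) - (g p.1 * f p.2 - f p.2 * g p.2) := by
      funext p; ring
    rw [this]
    exact (e1.sub e3).sub (e4.sub e2)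
  exact e5.bdd_mul (c := C) hm.aestronglyMeasurable (Eventually.of_forall fun p => hC p)

theorem q1_eq (hM : Stmt_MES) (hℓ : 0 < ℓ) {κ : E → E → ℝ} (hκ : BM2 κ) {f g : E → ℝ}
    (hf : Continuous f) (hg : Continuous g) :
    q1 ℓ κ f g = ∫ p : E × E, κ p.1 p.2 * ((f p.1 - f p.2) * (g p.1 - g p.2))
      ∂((nuc ℓ).prod (nuc ℓ)) := by
  have hP : IsProbabilityMeasure (nuc ℓ) := (hM ℓ hℓ).2.2.2.1
  rw [integral_prod _ (int_prod hM hℓ hκ hf hg)]
  rfl

theorem q1_cs (hM : Stmt_MES) (hℓ : 0 < ℓ) {κ : E → E → ℝ} (hκ : BM2 κ)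
    (h0 : ∀ x y, 0 ≤ κ x y) {f g : E → ℝ} (hf : Continuous f) (hg : Continuous g) :
    |q1 ℓ κ f g| ≤ Real.sqrt (q1 ℓ κ f f) * Real.sqrt (q1 ℓ κ g g) := by
  rw [q1_eq hM hℓ hκ hf hg, q1_eq hM hℓ hκ hf hf, q1_eq hM hℓ hκ hg hg]
  exact cs ((nuc ℓ).prod (nuc ℓ)) (fun p : E × E => κ p.1 p.2) (fun p => f p.1 - f p.2)
    (fun p => g p.1 - g p.2) (fun p => h0 p.1 p.2) (int_prod hM hℓ hκ hf hf)
    (int_prod hM hℓ hκ hf hg) (int_prod hM hℓ hκ hg hg)

theorem pd_cont {f : E → ℝ} (hf : ContDiff ℝ 1 f) (c : Fin 3) : Continuous (pd c f) := by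
  unfold pd
  exact (hf.continuous_fderiv one_ne_zero).clm_apply continuous_const

theorem pd_cs (hM : Stmt_MES) (hℓ : 0 < ℓ) {f g : E → ℝ} (hf : ContDiff ℝ 1 f)
    (hg : ContDiff ℝ 1 g) (c : Fin 3) :
    |∫ x, pd c f x * pd c g x ∂(nuc ℓ)| ≤
      Real.sqrt (∫ x, (pd c f x) ^ 2 ∂(nuc ℓ)) * Real.sqrt (∫ x, (pd c g x) ^ 2 ∂(nuc ℓ)) := by
  obtain ⟨-, -, -, hP, -, -, hI, -⟩ := hM ℓ hℓ
  have hf' := pd_cont hf c
  have hg' := pd_cont hg c
  have h := cs (nuc ℓ) (fun _ => 1) (pd c f) (pd c g) (fun _ => zero_le_one)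
    (hI _ (by fun_prop)) (hI _ (by fun_prop)) (hI _ (by fun_prop))
  simp only [one_mul] at h
  simpa only [sq] using h

theorem bound (hM : Stmt_MES) {C : ℝ} {κ : E → E → ℝ} (hℓ : 0 < ℓ) (hκ : Rsv ℓ C κ)
    {f g : E → ℝ} (hf : ContDiff ℝ 1 f) (hg : ContDiff ℝ 1 g) : |Qf ℓ κ f g| ≤
    2 * (Real.sqrt (∑ c, ∫ x, (pd c f x) ^ 2 ∂(nuc ℓ)) *
      Real.sqrt (∑ c, ∫ x, (pd c g x) ^ 2 ∂(nuc ℓ))) := by
  set A := ∑ c, ∫ x, (pd c f x) ^ 2 ∂(nuc ℓ) with hA
  set B := ∑ c, ∫ x, (pd c g x) ^ 2 ∂(nuc ℓ) with hB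
  have hA0 : 0 ≤ A := Finset.sum_nonneg fun c _ => integral_nonneg fun x => sq_nonneg _
  have hB0 : 0 ≤ B := Finset.sum_nonneg fun c _ => integral_nonneg fun x => sq_nonneg _
  have h1 : |∑ c, ∫ x, pd c f x * pd c g x ∂(nuc ℓ)| ≤ Real.sqrt A * Real.sqrt B := by
    refine (Finset.abs_sum_le_sum_abs _ _).trans ?_
    refine (Finset.sum_le_sum fun c _ => pd_cs hM hℓ hf hg c).trans ?_
    exact Real.sum_sqrt_mul_sqrt_le _ (fun c => integral_nonneg fun x => sq_nonneg _)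
      (fun c => integral_nonneg fun x => sq_nonneg _)
  have h2 : |q1 ℓ κ f g| ≤ 3 * (Real.sqrt A * Real.sqrt B) := by
    refine (q1_cs hM hℓ hκ.bm hκ.nonneg hf.continuous hg.continuous).trans ?_
    have e1 := Real.sqrt_le_sqrt (hκ.k2 f hf)
    have e2 := Real.sqrt_le_sqrt (hκ.k2 g hg)
    have e3 : Real.sqrt (3 * A) * Real.sqrt (3 * B) = 3 * (Real.sqrt A * Real.sqrt B) := by
      rw [Real.sqrt_mul (by norm_num) A, Real.sqrt_mul (by norm_num) B]
      have : Real.sqrt 3 * Real.sqrt 3 = 3 := Real.mul_self_sqrt (by norm_num)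
      calc Real.sqrt 3 * Real.sqrt A * (Real.sqrt 3 * Real.sqrt B)
          = (Real.sqrt 3 * Real.sqrt 3) * (Real.sqrt A * Real.sqrt B) := by ring
        _ = _ := by rw [this]
    rw [← e3]
    exact mul_le_mul e1 e2 (Real.sqrt_nonneg _) (Real.sqrt_nonneg _)
  unfold Qf
  refine (abs_add_le _ _).trans ?_
  rw [abs_mul, abs_of_pos (by norm_num : (0 : ℝ) < 1 / 3)]
  linarith

theorem pd_sum {J : Type} (s : Finset J) (a : J → ℝ) (f : J → E → ℝ)
    (hf : ∀ p ∈ s, ContDiff ℝ 1 (f p)) (c : Fin 3) (x : E) :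
    pd c (fun x => ∑ p ∈ s, a p * f p x) x = ∑ p ∈ s, a p * pd c (f p) x := by
  have h : HasFDerivAt (fun x => ∑ p ∈ s, a p * f p x) (∑ p ∈ s, a p • fderiv ℝ (f p) x) x := by
    apply HasFDerivAt.fun_sum
    intro p hp
    exact (((hf p hp).differentiable one_ne_zero).differentiableAt.hasFDerivAt).const_mul (a p)
  unfold pd
  rw [h.fderiv]
  simp

theorem sum_contDiff {J : Type} (s : Finset J) (a : J → ℝ) (f : J → E → ℝ)
    (hf : ∀ p ∈ s, ContDiff ℝ 1 (f p)) : ContDiff ℝ 1 (fun x => ∑ p ∈ s, a p * f p x) :=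
  ContDiff.sum fun p hp => contDiff_const.mul (hf p hp)

theorem symm (κ : E → E → ℝ) (f g : E → ℝ) : Qf ℓ κ f g = Qf ℓ κ g f := by
  unfold Qf q1
  congr 1
  · apply Finset.sum_congr rfl
    intro c _
    congr 1
    funext x
    ring
  · congr 2
    funext x
    congr 1
    funext y
    ring

theorem lin (hM : Stmt_MES) {κ : E → E → ℝ} (hℓ : 0 < ℓ) (hκ : BM2 κ) {J : Type}
    (s : Finset J) (a : J → ℝ) (f : J → E → ℝ) (hf : ∀ p ∈ s, ContDiff ℝ 1 (f p)) {g : E → ℝ}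
    (hg : ContDiff ℝ 1 g) :
    Qf ℓ κ (fun x => ∑ p ∈ s, a p * f p x) g = ∑ p ∈ s, a p * Qf ℓ κ (f p) g := by
  obtain ⟨-, -, -, hP, -, -, hI, -⟩ := hM ℓ hℓ
  have h1 : ∀ c, ∫ x, pd c (fun x => ∑ p ∈ s, a p * f p x) x * pd c g x ∂(nuc ℓ) =
      ∑ p ∈ s, a p * ∫ x, pd c (f p) x * pd c g x ∂(nuc ℓ) := by
    intro c
    have e : (fun x => pd c (fun x => ∑ p ∈ s, a p * f p x) x * pd c g x) =
        fun x => ∑ p ∈ s, a p * (pd c (f p) x * pd c g x) := by
      funext x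
      rw [pd_sum s a f hf, Finset.sum_mul]
      apply Finset.sum_congr rfl
      intro p _
      ring
    rw [e, integral_finset_sum]
    · apply Finset.sum_congr rfl
      intro p _
      rw [integral_const_mul]
    · intro p hp
      exact (hI _ ((pd_cont (hf p hp) c).mul (pd_cont hg c))).const_mul _
  have h2 : q1 ℓ κ (fun x => ∑ p ∈ s, a p * f p x) g = ∑ p ∈ s, a p * q1 ℓ κ (f p) g := by
    rw [q1_eq hM hℓ hκ (sum_contDiff s a f hf).continuous hg.continuous]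
    have e : (fun q : E × E => κ q.1 q.2 * (((fun x => ∑ p ∈ s, a p * f p x) q.1 -
        (fun x => ∑ p ∈ s, a p * f p x) q.2) * (g q.1 - g q.2))) =
        fun q => ∑ p ∈ s, a p * (κ q.1 q.2 * ((f p q.1 - f p q.2) * (g q.1 - g q.2))) := by
      funext q
      simp only
      rw [← Finset.sum_sub_distrib, Finset.sum_mul, Finset.mul_sum]
      apply Finset.sum_congr rfl
      intro p _
      ring
    rw [e, integral_finset_sum]
    · apply Finset.sum_congr rfl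
      intro p hp
      rw [integral_const_mul, q1_eq hM hℓ hκ (hf p hp).continuous hg.continuous]
    · intro p hp
      exact (int_prod hM hℓ hκ (hf p hp).continuous hg.continuous).const_mul _
  unfold Qf
  rw [h2]
  simp_rw [h1]
  rw [Finset.sum_comm, Finset.mul_sum, ← Finset.sum_add_distrib]
  apply Finset.sum_congr rfl
  intro p _
  rw [← Finset.mul_sum]
  ring

end

end QFB_

theorem qfb_proof (_hBMC : Stmt_BMC) (hMES : Stmt_MES) : Stmt_QFB := by
  intro ℓ C κ hℓ hκ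
  refine ⟨fun f g hf hg => QFB_.bound hMES hℓ hκ hf hg, fun J s a f hf => ⟨?_, ?_, ?_⟩⟩
  · exact QFB_.sum_contDiff s a f hf
  · exact fun c x => QFB_.pd_sum s a f hf c x
  · rw [QFB_.lin hMES hℓ hκ.bm s a f hf (QFB_.sum_contDiff s a f hf)]
    apply Finset.sum_congr rfl
    intro p hp
    rw [QFB_.symm, QFB_.lin hMES hℓ hκ.bm s a f hf (hf p hp), Finset.mul_sum]
    apply Finset.sum_congr rfl
    intro p' _
    rw [QFB_.symm]
    ring

end Pool.Agent.TBL
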