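import Pool.Agent.TBL.Stmts

/-!
# TBL, module QFM: measurability of `Qf`
-/

set_option autoImplicit false

open MeasureTheory Filter Topology

namespace Pool.Agent.TBL

open Pool.Agent.TBG

theorem qfm_proof (hBMC : Stmt_BMC) (hMES : Stmt_MES) (_hSKF : Stmt_SKF) : Stmt_QFM := by
  intro ℓ C κ φ hℓ hR hφ
  obtain ⟨b1, -, b3, b4, b5⟩ := hBMC
  have hprob : IsProbabilityMeasure (nuc ℓ) := (hMES ℓ hℓ).2.2.2.1
  have bmul : ∀ (α : Type) [MeasurableSpace α] (F G : α → ℝ), BM F → BM G →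
      BM (fun X => F X * G X) := fun α _ F G hF hG => (b1 α F G hF hG).2.2.1
  have bsub : ∀ (α : Type) [MeasurableSpace α] (F G : α → ℝ), BM F → BM G →
      BM (fun X => F X - G X) := fun α _ F G hF hG => (b1 α F G hF hG).2.1
  have badd : ∀ (α : Type) [MeasurableSpace α] (F G : α → ℝ), BM F → BM G →
      BM (fun X => F X + G X) := fun α _ F G hF hG => (b1 α F G hF hG).1
  have bcst : ∀ (α : Type) [MeasurableSpace α] (F : α → ℝ) (a : ℝ), BM F →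
      BM (fun X => a * F X) := fun α _ F a hF => (b1 α F F hF hF).2.2.2.2.2.1 a
  unfold Qf
  refine badd _ _ _ ?_ (bcst _ _ _ ?_)
  · refine b3 _ _ _ _ fun c _ => ?_
    refine b5 ((E × E) × (E × E)) E (nuc ℓ)
      (fun q => pd c (fun x => φ x q.1.1.1 q.1.1.2) q.2 * pd c (fun x => φ x q.1.2.1 q.1.2.2) q.2) ?_
    refine bmul _ _ _ ?_ ?_
    · exact b4 _ _ _ (fun q : ((E × E) × (E × E)) × E => (q.2, q.1.1.1, q.1.1.2)) (hφ.b1 c)
        (by fun_prop)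
    · exact b4 _ _ _ (fun q : ((E × E) × (E × E)) × E => (q.2, q.1.2.1, q.1.2.2)) (hφ.b1 c)
        (by fun_prop)
  · unfold q1
    refine b5 ((E × E) × (E × E)) E (nuc ℓ) (fun q => ∫ y, κ q.2 y *
      ((φ q.2 q.1.1.1 q.1.1.2 - φ y q.1.1.1 q.1.1.2) *
        (φ q.2 q.1.2.1 q.1.2.2 - φ y q.1.2.1 q.1.2.2)) ∂(nuc ℓ)) ?_
    refine b5 (((E × E) × (E × E)) × E) E (nuc ℓ) (fun r => κ r.1.2 r.2 *
      ((φ r.1.2 r.1.1.1.1 r.1.1.1.2 - φ r.2 r.1.1.1.1 r.1.1.1.2) *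
        (φ r.1.2 r.1.1.2.1 r.1.1.2.2 - φ r.2 r.1.1.2.1 r.1.1.2.2))) ?_
    refine bmul _ _ _ ?_ (bmul _ _ _ (bsub _ _ _ ?_ ?_) (bsub _ _ _ ?_ ?_))
    · exact b4 _ _ _ (fun r : (((E × E) × (E × E)) × E) × E => (r.1.2, r.2)) hR.bm (by fun_prop)
    · exact b4 _ _ _ (fun r : (((E × E) × (E × E)) × E) × E =>
        (r.1.2, r.1.1.1.1, r.1.1.1.2)) hφ.b0 (by fun_prop)
    · exact b4 _ _ _ (fun r : (((E × E) × (E × E)) × E) × E =>
        (r.2, r.1.1.1.1, r.1.1.1.2)) hφ.b0 (by fun_prop)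
    · exact b4 _ _ _ (fun r : (((E × E) × (E × E)) × E) × E =>
        (r.1.2, r.1.1.2.1, r.1.1.2.2)) hφ.b0 (by fun_prop)
    · exact b4 _ _ _ (fun r : (((E × E) × (E × E)) × E) × E =>
        (r.2, r.1.1.2.1, r.1.1.2.2)) hφ.b0 (by fun_prop)

end Pool.Agent.TBL
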