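import Pool.Agent.TBL.Stmts

/-!
# TBL, module QIA: the jump form of a particle
-/

set_option autoImplicit false

open MeasureTheory Filter Topology

namespace Pool.Agent.TBL

open Pool.Agent.TBG

namespace QIA_

/-- the difference of two values -/
def Df {ι : Type} [DecidableEq ι] (l : ι) (u : (ι → E) → ℝ) (x y : E) (X : ι → E) : ℝ :=
  u (Function.update X l x) - u (Function.update X l y)

end QIA_

open QIA_ in
theorem qia_proof (hBMC : Stmt_BMC) (hMES : Stmt_MES) (hMEP : Stmt_MEP) (hAVA : Stmt_AVA)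
    (hAVB : Stmt_AVB) (_hATF : Stmt_ATF) : Stmt_QIA := by
  intro ι _ _ ℓ C κ u l hℓ hR hu
  obtain ⟨b1, -, -, b4, b5⟩ := hBMC
  have hprob : IsProbabilityMeasure (nuc ℓ) := (hMES ℓ hℓ).2.2.2.1
  have hprobP : IsProbabilityMeasure (PiM ι ℓ) := (hMEP ι ℓ hℓ).1
  have bmul : ∀ (α : Type) [MeasurableSpace α] (F G : α → ℝ), BM F → BM G →
      BM (fun X => F X * G X) := fun α _ F G hF hG => (b1 α F G hF hG).2.2.1
  have bsub : ∀ (α : Type) [MeasurableSpace α] (F G : α → ℝ), BM F → BM G →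
      BM (fun X => F X - G X) := fun α _ F G hF hG => (b1 α F G hF hG).2.1
  have bsq : ∀ (α : Type) [MeasurableSpace α] (F : α → ℝ), BM F →
      BM (fun X => F X ^ 2) := fun α _ F hF => (b1 α F F hF hF).2.2.2.1
  have bint : ∀ (α : Type) [MeasurableSpace α] (F : α → ℝ) (μ : Measure α) [IsFiniteMeasure μ],
      BM F → Integrable F μ := fun α _ F μ _ hF => (b1 α F F hF hF).2.2.2.2.2.2 μ
  -- joint measurability of the differences
  have hD : ∀ v : (ι → E) → ℝ, BM v →
      BM (fun p : (ι → E) × (E × E) => κ p.2.1 p.2.2 * Df l v p.2.1 p.2.2 p.1 ^ 2) := by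
    intro v hv
    have h0 : BM (fun p : (ι → E) × E => v (Function.update p.1 l p.2)) :=
      (hAVA ι ℓ hℓ l v hv).2.2.1
    have h1 : BM (fun p : (ι → E) × (E × E) => v (Function.update p.1 l p.2.1)) :=
      b4 _ _ _ (fun p : (ι → E) × (E × E) => (p.1, p.2.1)) h0 (by fun_prop)
    have h2 : BM (fun p : (ι → E) × (E × E) => v (Function.update p.1 l p.2.2)) :=
      b4 _ _ _ (fun p : (ι → E) × (E × E) => (p.1, p.2.2)) h0 (by fun_prop)
    have h3 : BM (fun p : (ι → E) × (E × E) => κ p.2.1 p.2.2) :=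
      b4 _ _ _ (fun p : (ι → E) × (E × E) => p.2) hR.bm (by fun_prop)
    exact bmul _ _ _ h3 (bsq _ _ (bsub _ _ _ h1 h2))
  have hDx : ∀ (v : (ι → E) → ℝ) (x y : E), BM v → BM (Df l v x y) := by
    intro v x y hv
    have h0 : BM (fun p : (ι → E) × E => v (Function.update p.1 l p.2)) :=
      (hAVA ι ℓ hℓ l v hv).2.2.1
    have h1 : BM (fun X : ι → E => v (Function.update X l x)) :=
      b4 _ _ _ (fun X : ι → E => (X, x)) h0 (by fun_prop)
    have h2 : BM (fun X : ι → E => v (Function.update X l y)) :=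
      b4 _ _ _ (fun X : ι → E => (X, y)) h0 (by fun_prop)
    exact bsub _ _ _ h1 h2
  -- the integrand for fixed `X`
  have hq1 : ∀ (v : (ι → E) → ℝ), BM v → ∀ X : ι → E,
      q1 ℓ κ (fun x => v (Function.update X l x)) (fun x => v (Function.update X l x)) =
        ∫ p : E × E, κ p.1 p.2 * Df l v p.1 p.2 X ^ 2 ∂((nuc ℓ).prod (nuc ℓ)) := by
    intro v hv X
    have hB : BM (fun p : E × E => κ p.1 p.2 * Df l v p.1 p.2 X ^ 2) :=
      b4 _ _ _ (fun p : E × E => (X, p)) (hD v hv) (by fun_prop)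
    rw [integral_prod _ (bint _ _ _ hB)]
    unfold q1
    refine integral_congr_ae (Eventually.of_forall fun x => ?_)
    refine integral_congr_ae (Eventually.of_forall fun y => ?_)
    show κ x y * ((v (Function.update X l x) - v (Function.update X l y)) *
      (v (Function.update X l x) - v (Function.update X l y))) = κ x y * Df l v x y X ^ 2
    unfold Df
    ring
  have hq1B : ∀ (v : (ι → E) → ℝ), BM v → BM (fun X : ι → E =>
      q1 ℓ κ (fun x => v (Function.update X l x)) (fun x => v (Function.update X l x))) := by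
    intro v hv
    have e : (fun X : ι → E =>
        q1 ℓ κ (fun x => v (Function.update X l x)) (fun x => v (Function.update X l x))) =
        fun X => ∫ p : E × E, κ p.1 p.2 * Df l v p.1 p.2 X ^ 2 ∂((nuc ℓ).prod (nuc ℓ)) :=
      funext (hq1 v hv)
    rw [e]
    exact b5 (ι → E) (E × E) ((nuc ℓ).prod (nuc ℓ)) _ (hD v hv)
  -- swapping
  have hqI : ∀ (v : (ι → E) → ℝ), BM v → qI ℓ κ l v =
      ∫ p : E × E, κ p.1 p.2 * ns ℓ (Df l v p.1 p.2) ∂((nuc ℓ).prod (nuc ℓ)) := by
    intro v hv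
    unfold qI
    rw [integral_congr_ae (Eventually.of_forall (hq1 v hv)),
      integral_integral_swap (f := fun (X : ι → E) (p : E × E) =>
        κ p.1 p.2 * Df l v p.1 p.2 X ^ 2) (bint _ _ _ (hD v hv))]
    refine integral_congr_ae (Eventually.of_forall fun p => ?_)
    show ∫ X, κ p.1 p.2 * Df l v p.1 p.2 X ^ 2 ∂(PiM ι ℓ) = _
    rw [integral_const_mul]
    rfl
  have hnsB : ∀ (v : (ι → E) → ℝ), BM v →
      BM (fun p : E × E => κ p.1 p.2 * ns ℓ (Df l v p.1 p.2)) := by
    intro v hv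
    have h1 : BM (fun q : (E × E) × (ι → E) => κ q.1.1 q.1.2 * Df l v q.1.1 q.1.2 q.2 ^ 2) :=
      b4 _ _ _ (fun q : (E × E) × (ι → E) => (q.2, q.1)) (hD v hv) (by fun_prop)
    have h2 := b5 (E × E) (ι → E) (PiM ι ℓ) _ h1
    have e : (fun p : E × E => κ p.1 p.2 * ns ℓ (Df l v p.1 p.2)) =
        fun p : E × E => ∫ X, κ p.1 p.2 * Df l v p.1 p.2 X ^ 2 ∂(PiM ι ℓ) := by
      funext p
      rw [integral_const_mul]
      rfl
    rw [e]
    exact h2
  -- the third claim
  have h3 : ∀ (v : (ι → E) → ℝ), BM v → ∀ i, i ≠ l → qI ℓ κ l (av ℓ i v) ≤ qI ℓ κ l v := by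
    intro v hv i hil
    have hav : BM (av ℓ i v) := (hAVA ι ℓ hℓ i v hv).1
    rw [hqI v hv, hqI _ hav]
    refine integral_mono (bint _ _ _ (hnsB _ hav)) (bint _ _ _ (hnsB v hv)) fun p => ?_
    refine mul_le_mul_of_nonneg_left ?_ (hR.nonneg _ _)
    -- the difference of the average is the average of the difference
    have e1 : Df l (av ℓ i v) p.1 p.2 = av ℓ i (Df l v p.1 p.2) := by
      funext X
      unfold Df av
      have hB0 : BM (fun q : (ι → E) × E => v (Function.update q.1 i q.2)) :=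
        (hAVA ι ℓ hℓ i v hv).2.2.1
      have hx : ∀ x : E, Integrable (fun w => v (Function.update (Function.update X l x) i w))
          (nuc ℓ) := fun x =>
        bint _ _ _ (b4 _ _ _ (fun w : E => (Function.update X l x, w)) hB0 (by fun_prop))
      rw [← integral_sub (hx p.1) (hx p.2)]
      refine integral_congr_ae (Eventually.of_forall fun w => ?_)
      show v (Function.update (Function.update X l p.1) i w) -
        v (Function.update (Function.update X l p.2) i w) =
        v (Function.update (Function.update X i w) l p.1) -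
        v (Function.update (Function.update X i w) l p.2)
      rw [Function.update_comm hil w p.1 X, Function.update_comm hil w p.2 X]
    rw [e1]
    have hF := hDx v p.1 p.2 hv
    unfold ns
    have e2 : ∫ X, Df l v p.1 p.2 X ^ 2 ∂(PiM ι ℓ) =
        ∫ X, av ℓ i (fun Y => Df l v p.1 p.2 Y ^ 2) X ∂(PiM ι ℓ) :=
      ((hAVA ι ℓ hℓ i _ (bsq _ _ hF)).2.1).symm
    rw [e2]
    refine integral_mono (bint _ _ _ (bsq _ _ (hAVA ι ℓ hℓ i _ hF).1))
      (bint _ _ _ (hAVA ι ℓ hℓ i _ (bsq _ _ hF)).1) fun X => ?_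
    -- Jensen
    have hone : BM (fun _ : ι → E => (1 : ℝ)) := ⟨measurable_const, 1, fun _ => by simp⟩
    have h4 := (hAVB ι ℓ hℓ i).2.2.2.2.2.2.2.2 (Df l v p.1 p.2) (fun _ => 1) hF hone X
    have e3 : av ℓ i (fun Y => (fun _ : ι → E => (1 : ℝ)) Y ^ 2) X = 1 := by
      unfold av
      simp
    have e4 : av ℓ i (fun Y => Df l v p.1 p.2 Y * (fun _ : ι → E => (1 : ℝ)) Y) X =
        av ℓ i (Df l v p.1 p.2) X := by
      unfold av
      simp
    rw [e3, e4, mul_one] at h4
    exact h4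
  refine ⟨?_, ?_, h3 u hu, ?_⟩
  · rw [hqI u hu]
    refine integral_nonneg fun p => mul_nonneg (hR.nonneg _ _) ?_
    unfold ns
    exact integral_nonneg fun X => sq_nonneg _
  · have hQ : BM (Qa ℓ l u) := bsub _ _ _ hu (hAVA ι ℓ hℓ l u hu).1
    have e1 : ns ℓ (Qa ℓ l u) = ∫ X, av ℓ l (fun Y => Qa ℓ l u Y ^ 2) X ∂(PiM ι ℓ) :=
      ((hAVA ι ℓ hℓ l _ (bsq _ _ hQ)).2.1).symm
    rw [e1, ← integral_const_mul]
    unfold qI
    have hBav := (hAVA ι ℓ hℓ l _ (bsq _ _ hQ)).1
    refine integral_mono ((bint _ _ _ hBav).const_mul _) (bint _ _ _ (hq1B u hu)) fun X => ?_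
    have h0 : BM (fun p : (ι → E) × E => u (Function.update p.1 l p.2)) :=
      (hAVA ι ℓ hℓ l u hu).2.2.1
    have h1 : BM (fun x : E => u (Function.update X l x)) :=
      b4 _ _ _ (fun x : E => (X, x)) h0 (by fun_prop)
    have h2 := hR.k3 (fun x => u (Function.update X l x)) h1
    refine le_trans (le_of_eq ?_) h2
    congr 1
    unfold av Qa
    refine integral_congr_ae (Eventually.of_forall fun x => ?_)
    show (u (Function.update X l x) - av ℓ l u (Function.update X l x)) ^ 2 = _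
    unfold av
    simp only [Function.update_idem]
  · intro i j k hi hj hk
    have hk1 : BM (av ℓ k u) := (hAVA ι ℓ hℓ k u hu).1
    have hj1 : BM (av ℓ j (av ℓ k u)) := (hAVA ι ℓ hℓ j _ hk1).1
    exact (h3 _ hj1 i hi).trans ((h3 _ hk1 j hj).trans (h3 u hu k hk))

end Pool.Agent.TBL
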