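import Pool.Agent.TBL.Stmts

/-!
# TBL, module QSF: the function `w² / V`
-/

set_option autoImplicit false

open MeasureTheory Filter Topology
open scoped ContDiff

namespace Pool.Agent.TBL

open Pool.Agent.TBG

namespace QSF_

/-- the potential in terms of the profiles -/
theorem vv_eq (hSCA : Stmt_SCA) (hQTF : Stmt_QTF) (x y z : E) :
    VV phi0 (x - y) (x - z) = W1 (QT x y z) / (1 - P1 (QT x y z)) := by
  unfold VV
  rw [hSCA.2.1, (hQTF.1 x y z).1]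
  rfl

theorem term_le {ℓ : ℝ} (hℓ : 0 < ℓ) (hPRF : Stmt_PRF) (hIMG : Stmt_IMG) {x y z : E}
    (hx : x ∈ Lam ℓ) (hy : y ∈ Lam ℓ) (hz : z ∈ Lam ℓ) (σ τ υ : Fin 3 → Fin 3) :
    W1 (QT (img ℓ σ x) (img ℓ τ y) (img ℓ υ z)) ≤ W1 (QT x y z) := by
  obtain ⟨-, -, -, -, -, han, -⟩ := hPRF
  exact han ((hIMG ℓ σ hℓ).2.2.2.2.2.2.2.1 x hx y hy z hz τ υ)

/-- the bounds on the charge -/
theorem im_le {ℓ : ℝ} (hℓ : 0 < ℓ) (hPRF : Stmt_PRF) (hIMG : Stmt_IMG) {x y z : E}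
    (hx : x ∈ Lam ℓ) (hy : y ∈ Lam ℓ) (hz : z ∈ Lam ℓ) :
    0 ≤ Im ℓ W1 x y z ∧ Im ℓ W1 x y z ≤ 729 * W1 (QT x y z) := by
  have h0 : ∀ s, 0 ≤ W1 s := fun s => (hPRF.2.2.1 s).1
  have hid : ∀ x : E, img ℓ (fun _ => 0) x = x := (hIMG ℓ (fun _ => 0) hℓ).2.2.2.2.1
  unfold Im
  constructor
  · apply mul_nonneg (by norm_num)
    refine Finset.sum_nonneg fun σ _ => Finset.sum_nonneg fun τ _ => ?_
    exact add_nonneg (add_nonneg (h0 _) (h0 _)) (h0 _)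
  · have hterm : ∀ σ τ : Fin 3 → Fin 3, W1 (QT x (img ℓ σ y) (img ℓ τ z)) +
        W1 (QT (img ℓ σ x) y (img ℓ τ z)) + W1 (QT (img ℓ σ x) (img ℓ τ y) z) ≤
        3 * W1 (QT x y z) := by
      intro σ τ
      have h1 := term_le hℓ hPRF hIMG hx hy hz (fun _ => 0) σ τ
      have h2 := term_le hℓ hPRF hIMG hx hy hz σ (fun _ => 0) τ
      have h3 := term_le hℓ hPRF hIMG hx hy hz σ τ (fun _ => 0)
      rw [hid] at h1 h2 h3
      linarith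
    have hsum : ∑ σ : Fin 3 → Fin 3, ∑ τ : Fin 3 → Fin 3,
        (W1 (QT x (img ℓ σ y) (img ℓ τ z)) + W1 (QT (img ℓ σ x) y (img ℓ τ z)) +
          W1 (QT (img ℓ σ x) (img ℓ τ y) z)) ≤
        ∑ _σ : Fin 3 → Fin 3, ∑ _τ : Fin 3 → Fin 3, 3 * W1 (QT x y z) :=
      Finset.sum_le_sum fun σ _ => Finset.sum_le_sum fun τ _ => hterm σ τ
    have hcard : ∑ _σ : Fin 3 → Fin 3, ∑ _τ : Fin 3 → Fin 3, 3 * W1 (QT x y z) =
        2187 * W1 (QT x y z) := by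
      rw [Finset.sum_const, Finset.sum_const, Finset.card_univ, Fintype.card_fun, Fintype.card_fin]
      simp only [nsmul_eq_mul]
      norm_num
      ring
    rw [hcard] at hsum
    linarith

theorem lam_meas (ℓ : ℝ) : MeasurableSet (Lam ℓ) := by
  have h : Lam ℓ = ⋂ c : Fin 3, {x : E | 0 ≤ x c ∧ x c ≤ ℓ} := by
    ext x
    simp [Lam]
  rw [h]
  refine MeasurableSet.iInter fun c => ?_
  apply IsClosed.measurableSet
  have hc : Continuous fun x : E => x c := by fun_prop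
  exact (isClosed_le continuous_const hc).inter (isClosed_le hc continuous_const)

/-- the value of `qS` on the cube -/
theorem qs_of_mem {ℓ : ℝ} {x y z : E} (hx : x ∈ Lam ℓ) (hy : y ∈ Lam ℓ) (hz : z ∈ Lam ℓ) :
    qS ℓ x y z = (Im ℓ W1 x y z) ^ 2 / VV phi0 (x - y) (x - z) := by
  unfold qS
  rw [if_pos ⟨hx, hy, hz⟩]

theorem qs_of_not {ℓ : ℝ} {x y z : E} (h : ¬ (x ∈ Lam ℓ ∧ y ∈ Lam ℓ ∧ z ∈ Lam ℓ)) :
    qS ℓ x y z = 0 := by
  unfold qS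
  rw [if_neg h]

/-- the potential is positive or everything vanishes -/
theorem cases' {ℓ : ℝ} (hℓ : 0 < ℓ) (hPRF : Stmt_PRF) (hSCA : Stmt_SCA) (hQTF : Stmt_QTF)
    (hIMG : Stmt_IMG) {x y z : E} (hx : x ∈ Lam ℓ) (hy : y ∈ Lam ℓ) (hz : z ∈ Lam ℓ) :
    (0 < VV phi0 (x - y) (x - z) ∧ W1 (QT x y z) ≤ VV phi0 (x - y) (x - z)) ∨
      (VV phi0 (x - y) (x - z) = 0 ∧ Im ℓ W1 x y z = 0) := by
  have hq : 0 ≤ QT x y z := (hQTF.1 x y z).2.1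
  obtain ⟨hp1, hp2, -⟩ := hPRF.2.2.2.2.2.2.2.1 _ hq
  have hw := (hPRF.2.2.1 (QT x y z)).1
  rw [vv_eq hSCA hQTF]
  rcases hw.lt_or_eq with h | h
  · left
    constructor
    · apply div_pos h
      linarith
    · rw [le_div_iff₀ (by linarith)]
      nlinarith
  · right
    constructor
    · rw [← h, zero_div]
    · obtain ⟨h1, h2⟩ := im_le hℓ hPRF hIMG hx hy hz
      rw [← h, mul_zero] at h2
      exact le_antisymm h2 h1

end QSF_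

open QSF_ in
theorem qsf_proof (_hBMC : Stmt_BMC) (hPRF : Stmt_PRF) (hSCA : Stmt_SCA) (hQTF : Stmt_QTF)
    (hIMG : Stmt_IMG) (_hIMW : Stmt_IMW) (hIMY : Stmt_IMY) (hIMQ : Stmt_IMQ) : Stmt_QSF := by
  intro ℓ hℓ
  have hsy := hIMQ ℓ W1
  refine ⟨⟨fun x y z => ?_, fun x y z => ?_⟩, ⟨?_, 729 ^ 2, fun p => ?_⟩, ?_⟩
  · by_cases h : x ∈ Lam ℓ ∧ y ∈ Lam ℓ ∧ z ∈ Lam ℓ
    · rw [qs_of_mem h.1 h.2.1 h.2.2, qs_of_mem h.2.1 h.1 h.2.2, vv_eq hSCA hQTF,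
        vv_eq hSCA hQTF, hsy.s1 x y z, (hQTF.1 x y z).2.2.1]
    · rw [qs_of_not h, qs_of_not]
      intro h'
      exact h ⟨h'.2.1, h'.1, h'.2.2⟩
  · by_cases h : x ∈ Lam ℓ ∧ y ∈ Lam ℓ ∧ z ∈ Lam ℓ
    · rw [qs_of_mem h.1 h.2.1 h.2.2, qs_of_mem h.1 h.2.2 h.2.1, vv_eq hSCA hQTF,
        vv_eq hSCA hQTF, hsy.s2 x y z, (hQTF.1 x y z).2.2.2.1]
    · rw [qs_of_not h, qs_of_not]
      intro h'
      exact h ⟨h'.1, h'.2.2, h'.2.1⟩
  · have hW : Continuous W1 := hPRF.1.continuous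
    have hP : Continuous P1 := hPRF.2.1.continuous
    have hQ : Continuous (fun p : E × E × E => QT p.1 p.2.1 p.2.2) := hQTF.2.1.continuous
    have him : Measurable (fun p : E × E × E => Im ℓ W1 p.1 p.2.1 p.2.2) :=
      (hIMY ℓ W1 1 hℓ hW.measurable (fun s _ => by
        obtain ⟨h1, h2⟩ := hPRF.2.2.1 s
        rw [abs_of_nonneg h1]
        exact h2)).1.1
    have e : (fun p : E × E × E => qS ℓ p.1 p.2.1 p.2.2) = fun p : E × E × E =>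
        Set.indicator {p : E × E × E | p.1 ∈ Lam ℓ ∧ p.2.1 ∈ Lam ℓ ∧ p.2.2 ∈ Lam ℓ}
          (fun p : E × E × E => (Im ℓ W1 p.1 p.2.1 p.2.2) ^ 2 /
            (W1 (QT p.1 p.2.1 p.2.2) / (1 - P1 (QT p.1 p.2.1 p.2.2)))) p := by
      funext p
      by_cases h : p.1 ∈ Lam ℓ ∧ p.2.1 ∈ Lam ℓ ∧ p.2.2 ∈ Lam ℓ
      · rw [Set.indicator_of_mem (show p ∈ {p : E × E × E | p.1 ∈ Lam ℓ ∧ p.2.1 ∈ Lam ℓ ∧
          p.2.2 ∈ Lam ℓ} from h), qs_of_mem h.1 h.2.1 h.2.2, vv_eq hSCA hQTF]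
      · rw [Set.indicator_of_notMem (show p ∉ {p : E × E × E | p.1 ∈ Lam ℓ ∧ p.2.1 ∈ Lam ℓ ∧
          p.2.2 ∈ Lam ℓ} from h), qs_of_not h]
    rw [e]
    have hset : MeasurableSet {p : E × E × E | p.1 ∈ Lam ℓ ∧ p.2.1 ∈ Lam ℓ ∧ p.2.2 ∈ Lam ℓ} := by
      have h1 : MeasurableSet {p : E × E × E | p.1 ∈ Lam ℓ} := measurable_fst (lam_meas ℓ)
      have h2 : MeasurableSet {p : E × E × E | p.2.1 ∈ Lam ℓ} :=
        (measurable_fst.comp measurable_snd) (lam_meas ℓ)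
      have h3 : MeasurableSet {p : E × E × E | p.2.2 ∈ Lam ℓ} :=
        (measurable_snd.comp measurable_snd) (lam_meas ℓ)
      exact h1.inter (h2.inter h3)
    apply Measurable.indicator _ hset
    exact (him.pow_const 2).div ((hW.comp hQ).measurable.div
      (measurable_const.sub (hP.comp hQ).measurable))
  · obtain ⟨x, y, z⟩ := p
    show |qS ℓ x y z| ≤ 729 ^ 2
    by_cases h : x ∈ Lam ℓ ∧ y ∈ Lam ℓ ∧ z ∈ Lam ℓ
    · rw [qs_of_mem h.1 h.2.1 h.2.2]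
      rcases cases' hℓ hPRF hSCA hQTF hIMG h.1 h.2.1 h.2.2 with ⟨h1, h2⟩ | ⟨h1, -⟩
      · obtain ⟨h3, h4⟩ := im_le hℓ hPRF hIMG h.1 h.2.1 h.2.2
        obtain ⟨h5, h6⟩ := hPRF.2.2.1 (QT x y z)
        rw [abs_of_nonneg (by positivity), div_le_iff₀ h1]
        calc (Im ℓ W1 x y z) ^ 2 ≤ (729 * W1 (QT x y z)) ^ 2 := pow_le_pow_left₀ h3 h4 2
          _ = 729 ^ 2 * (W1 (QT x y z) * W1 (QT x y z)) := by ring
          _ ≤ 729 ^ 2 * (1 * VV phi0 (x - y) (x - z)) := by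
              apply mul_le_mul_of_nonneg_left _ (by norm_num)
              exact mul_le_mul h6 h2 h5 (by norm_num)
          _ = 729 ^ 2 * VV phi0 (x - y) (x - z) := by ring
      · rw [h1, div_zero, abs_zero]
        norm_num
    · rw [qs_of_not h, abs_zero]
      norm_num
  · intro x hx y hy z hz s t
    rw [qs_of_mem hx hy hz]
    rcases cases' hℓ hPRF hSCA hQTF hIMG hx hy hz with ⟨h1, -⟩ | ⟨h1, h2⟩
    · have e : VV phi0 (x - y) (x - z) * s ^ 2 - 2 * Im ℓ W1 x y z * s * t +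
          (Im ℓ W1 x y z) ^ 2 / VV phi0 (x - y) (x - z) * t ^ 2 =
          VV phi0 (x - y) (x - z) * (s - Im ℓ W1 x y z / VV phi0 (x - y) (x - z) * t) ^ 2 := by
        field_simp
        ring
      rw [e]
      positivity
    · rw [h1, h2]
      simp

end Pool.Agent.TBL
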