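import Pool.Agent.TBL.Stmts

/-!
# Three-body Bose gases (MP_80dc41_mp), lower bound: module QTF, the quadratic form in the positions
-/

set_option autoImplicit false

open MeasureTheory Filter Topology
open scoped ContDiff

namespace Pool.Agent.TBL

open Pool.Agent.TBG

namespace QTF_

theorem inner_ev (x : E) (c : Fin 3) : inner ℝ x (ev c) = x c := by
  unfold ev
  rw [EuclideanSpace.inner_single_right]
  simp

theorem nsq (x : E) : ‖x‖ ^ 2 = ∑ c, x c ^ 2 := by
  rw [EuclideanSpace.norm_sq_eq]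
  simp

theorem qt_fderiv (x y z : E) : HasFDerivAt (fun x' => QT x' y z)
    ((3⁻¹ : ℝ) • ((2 • innerSL ℝ (x - y)) + (2 • innerSL ℝ (x - z)))) x := by
  have h1 : HasFDerivAt (fun x' : E => ‖x' - y‖ ^ 2) (2 • innerSL ℝ (x - y)) x := by
    have := ((hasFDerivAt_id (𝕜 := ℝ) x).sub_const y).norm_sq
    simpa using this
  have h2 : HasFDerivAt (fun x' : E => ‖x' - z‖ ^ 2) (2 • innerSL ℝ (x - z)) x := by
    have := ((hasFDerivAt_id (𝕜 := ℝ) x).sub_const z).norm_sq
    simpa using this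
  have h := ((h1.add h2).add_const (‖y - z‖ ^ 2)).const_smul (3⁻¹ : ℝ)
  refine h.congr_of_eventuallyEq (Eventually.of_forall (fun w => ?_))
  simp [QT, div_eq_inv_mul]

theorem qt_ev (x y z : E) (c : Fin 3) :
    ((3⁻¹ : ℝ) • ((2 • innerSL ℝ (x - y)) + (2 • innerSL ℝ (x - z)))) (ev c) =
      2 / 3 * (2 * x c - y c - z c) := by
  simp only [_root_.smul_apply, _root_.add_apply, innerSL_apply_apply,
    inner_ev, PiLp.sub_apply, smul_eq_mul, nsmul_eq_mul]
  push_cast
  ring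

theorem qt_ex (x y z : E) : ∃ L : E →L[ℝ] ℝ, HasFDerivAt (fun x' => QT x' y z) L x ∧
    ∀ c, L (ev c) = 2 / 3 * (2 * x c - y c - z c) :=
  ⟨_, qt_fderiv x y z, fun c => qt_ev x y z c⟩

theorem coord_fderiv (x : E) (c : Fin 3) : HasFDerivAt (fun x' : E => x' c)
    (EuclideanSpace.proj c : E →L[ℝ] ℝ) x := by
  exact (EuclideanSpace.proj c : E →L[ℝ] ℝ).hasFDerivAt

theorem pd_qt (G : ℝ → ℝ) (hG : ContDiff ℝ ∞ G) (x y z : E) (c : Fin 3) :
    pd c (fun x' => G (QT x' y z)) x = dT c G x y z := by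
  have hd : HasDerivAt G (deriv G (QT x y z)) (QT x y z) :=
    ((hG.differentiable (by simp)) _).hasDerivAt
  obtain ⟨L, hL, hLe⟩ := qt_ex x y z
  have h := hd.comp_hasFDerivAt x hL
  unfold pd dT
  have h' : fderiv ℝ (fun x' => G (QT x' y z)) x = _ := h.fderiv
  rw [h', _root_.smul_apply, hLe, smul_eq_mul]

theorem pd_pd_qt (G : ℝ → ℝ) (hG : ContDiff ℝ ∞ G) (x y z : E) (c : Fin 3) :
    pd c (fun x' => pd c (fun x'' => G (QT x'' y z)) x') x =
      deriv (deriv G) (QT x y z) * (4 / 9 * (2 * x c - y c - z c) ^ 2) + 4 / 3 * deriv G (QT x y z) := by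
  have h0 : (fun x' => pd c (fun x'' => G (QT x'' y z)) x') = fun x' =>
      deriv G (QT x' y z) * (2 / 3 * (2 * x' c - y c - z c)) := by
    funext x'
    rw [pd_qt G hG x' y z c]
    rfl
  rw [h0]
  have hG' : ContDiff ℝ ∞ (deriv G) := (contDiff_infty_iff_deriv.1 hG).2
  have hd : HasDerivAt (deriv G) (deriv (deriv G) (QT x y z)) (QT x y z) :=
    ((hG'.differentiable (by simp)) _).hasDerivAt
  obtain ⟨L, hL, hLe⟩ := qt_ex x y z
  have h1 := hd.comp_hasFDerivAt x hL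
  have h2 : HasFDerivAt (fun x' : E => 2 / 3 * (2 * x' c - y c - z c))
      ((2 / 3 : ℝ) • ((2 : ℝ) • (EuclideanSpace.proj c : E →L[ℝ] ℝ))) x :=
    ((((coord_fderiv x c).const_mul (2 : ℝ)).sub_const (y c)).sub_const (z c)).const_mul (2 / 3 : ℝ)
  have h3 := h1.mul h2
  have h3' : HasFDerivAt (fun x' => deriv G (QT x' y z) * (2 / 3 * (2 * x' c - y c - z c))) _ x := h3
  unfold pd
  rw [h3'.fderiv]
  have hev : (ev c : E) c = 1 := by
    unfold ev
    simp
  have hp : (EuclideanSpace.proj c : E →L[ℝ] ℝ) (ev c) = 1 := hev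
  simp only [_root_.add_apply, _root_.smul_apply, hp, hLe, smul_eq_mul, Function.comp_apply]
  ring

end QTF_

open QTF_

theorem qtf_proof (hQFO : Pool.Agent.TBG.Stmt_QFO) : Stmt_QTF := by
  obtain ⟨qsm, qg, ql, qb, qs, qn⟩ := hQFO
  have hqq : ∀ x y z : E, QT x y z = QQ (x - y, x - z) := by
    intro x y z
    unfold QT QQ
    have : (x - y) - (x - z) = z - y := by abel
    simp only [this]
    rw [norm_sub_rev z y]
  refine ⟨fun x y z => ⟨hqq x y z, ?_, ?_, ?_, ?_, ?_, ?_, ?_⟩, ?_, fun G x y z hG => ⟨fun c => pd_qt G hG x y z c, ?_⟩⟩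
  · unfold QT
    positivity
  · unfold QT
    rw [norm_sub_rev y x]
    ring
  · unfold QT
    rw [norm_sub_rev z y]
    ring
  · unfold QT
    nlinarith [sq_nonneg ‖x - z‖, sq_nonneg ‖y - z‖]
  · unfold QT
    nlinarith [sq_nonneg ‖x - y‖, sq_nonneg ‖y - z‖]
  · unfold QT
    nlinarith [sq_nonneg ‖x - y‖, sq_nonneg ‖y - z‖, sq_nonneg ‖x - z‖, sq_nonneg (‖x - y‖ - 1),
      sq_nonneg (‖x - z‖ - 1), sq_nonneg (‖x - z‖ - ‖x - y‖)]
  · unfold QT
    simp only [nsq, PiLp.sub_apply, PiLp.smul_apply, smul_eq_mul]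
    rw [mul_div_assoc']
    rw [← Finset.sum_add_distrib, ← Finset.sum_add_distrib, ← Finset.sum_add_distrib, ← Finset.sum_add_distrib,
      Finset.mul_sum, Finset.sum_div]
    refine Finset.sum_congr rfl (fun c _ => ?_)
    ring
  · unfold QT
    have h1 : ContDiff ℝ ∞ (fun p : E × E × E => p.1) := contDiff_fst
    have h2 : ContDiff ℝ ∞ (fun p : E × E × E => p.2.1) := contDiff_fst.comp contDiff_snd
    have h3 : ContDiff ℝ ∞ (fun p : E × E × E => p.2.2) := contDiff_snd.comp contDiff_snd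
    exact ((((h1.sub h2).norm_sq ℝ).add ((h1.sub h3).norm_sq ℝ)).add ((h2.sub h3).norm_sq ℝ)).div_const 3
  · simp only [pd_pd_qt G hG x y z]
    rw [Finset.sum_add_distrib, ← Finset.mul_sum, ← Finset.mul_sum]
    unfold lT
    rw [nsq]
    simp only [PiLp.sub_apply, PiLp.smul_apply, smul_eq_mul, Finset.sum_const, Finset.card_univ, Fintype.card_fin,
      nsmul_eq_mul]
    push_cast
    ring

end Pool.Agent.TBL
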