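import Pool.Agent.TBL.Stmts

/-!
# Module RSV (MP_80dc41_mp, squad TBL): the jump kernel
-/

set_option autoImplicit false

open MeasureTheory Filter Topology

namespace Pool.Agent.TBL

open Pool.Agent.TBG

namespace RSV_

/-- elementary facts on bounded measurable functions, extracted from `Stmt_BMC` -/
theorem bm_sub (h : Stmt_BMC) {α : Type} [MeasurableSpace α] {F G : α → ℝ} (hF : BM F) (hG : BM G) :
    BM (fun X => F X - G X) := (h.1 α F G hF hG).2.1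

theorem bm_mul (h : Stmt_BMC) {α : Type} [MeasurableSpace α] {F G : α → ℝ} (hF : BM F) (hG : BM G) :
    BM (fun X => F X * G X) := (h.1 α F G hF hG).2.2.1

theorem bm_sq (h : Stmt_BMC) {α : Type} [MeasurableSpace α] {F : α → ℝ} (hF : BM F) :
    BM (fun X => F X ^ 2) := (h.1 α F F hF hF).2.2.2.1

theorem bm_smul (h : Stmt_BMC) {α : Type} [MeasurableSpace α] {F : α → ℝ} (hF : BM F) (a : ℝ) :
    BM (fun X => a * F X) := (h.1 α F F hF hF).2.2.2.2.2.1 a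

theorem bm_int (h : Stmt_BMC) {α : Type} [MeasurableSpace α] {F : α → ℝ} (hF : BM F) (μ : Measure α)
    [IsFiniteMeasure μ] : Integrable F μ := (h.1 α F F hF hF).2.2.2.2.2.2 μ

theorem bm_sum (h : Stmt_BMC) {α J : Type} [MeasurableSpace α] (s : Finset J) (F : J → α → ℝ)
    (hF : ∀ p ∈ s, BM (F p)) : BM (fun X => ∑ p ∈ s, F p X) := h.2.2.1 α J s F hF

theorem bm_comp (h : Stmt_BMC) {α β : Type} [MeasurableSpace α] [MeasurableSpace β] {F : α → ℝ}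
    (hF : BM F) {f : β → α} (hf : Measurable f) : BM (fun X => F (f X)) := h.2.2.2.1 α β F f hF hf

theorem bm_fub (h : Stmt_BMC) {α β : Type} [MeasurableSpace α] [MeasurableSpace β] (μ : Measure β)
    [IsProbabilityMeasure μ] {F : α × β → ℝ} (hF : BM F) : BM (fun X => ∫ y, F (X, y) ∂μ) :=
  h.2.2.2.2 α β μ F hF

/-- one slice of the kernel -/
theorem bm_slice (h : Stmt_BMC) {a : E → E → ℝ} (ha : BM2 a) (x : E) : BM (fun y => a x y) :=
  bm_comp h (F := fun p : E × E => a p.1 p.2) ha (f := fun y => (x, y)) measurable_prodMk_left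

/-- the kernel `cell * (f x - f y)^2` is bounded and measurable -/
theorem bm_cellf (h : Stmt_BMC) {a : E → E → ℝ} (ha : BM2 a) {f : E → ℝ} (hf : BM f) :
    BM2 (fun x y => a x y * (f x - f y) ^ 2) := by
  have h1 : BM (fun p : E × E => f p.1) := bm_comp h hf measurable_fst
  have h2 : BM (fun p : E × E => f p.2) := bm_comp h hf measurable_snd
  exact bm_mul h (F := fun p : E × E => a p.1 p.2) ha (bm_sq h (bm_sub h h1 h2))

/-- the jump form of the kernel `kap0` on bounded measurable functions -/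
theorem q1_kap0 (hB : Stmt_BMC) (hM : Stmt_MES) (hC : Stmt_CEL) (ℓ : ℝ) (hℓ : 0 < ℓ) (J : ℕ) (f : E → ℝ)
    (hf : BM f) : q1 ℓ (kap0 ℓ J) f f = 1 / 2 * (ℓ ^ 2)⁻¹ * ∑ j ∈ Finset.range (J + 1), (128 : ℝ) ^ j *
      (((16 ^ j : ℕ) : ℝ) ^ 3 * ∫ x, ∫ y, cell ℓ (16 ^ j) x y * (f x - f y) ^ 2 ∂(nuc ℓ) ∂(nuc ℓ)) := by
  haveI : IsProbabilityMeasure (nuc ℓ) := (hM ℓ hℓ).2.2.2.1
  have hcell : ∀ j : ℕ, BM2 (cell ℓ (16 ^ j)) := fun j => (hC ℓ (16 ^ j) hℓ (by positivity)).1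
  have hk : ∀ j : ℕ, BM2 (fun x y => cell ℓ (16 ^ j) x y * (f x - f y) ^ 2) := fun j => bm_cellf hB (hcell j) hf
  unfold q1
  have e1 : ∀ x : E, ∫ y, kap0 ℓ J x y * ((f x - f y) * (f x - f y)) ∂(nuc ℓ) =
      ∑ j ∈ Finset.range (J + 1), (1 / 2 * (ℓ ^ 2)⁻¹ * ((128 : ℝ) ^ j * ((16 ^ j : ℕ) : ℝ) ^ 3)) *
        ∫ y, cell ℓ (16 ^ j) x y * (f x - f y) ^ 2 ∂(nuc ℓ) := by
    intro x
    have e2 : ∀ y : E, kap0 ℓ J x y * ((f x - f y) * (f x - f y)) =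
        ∑ j ∈ Finset.range (J + 1), (1 / 2 * (ℓ ^ 2)⁻¹ * ((128 : ℝ) ^ j * ((16 ^ j : ℕ) : ℝ) ^ 3)) *
        (cell ℓ (16 ^ j) x y * (f x - f y) ^ 2) := by
      intro y
      unfold kap0
      rw [Finset.mul_sum, Finset.sum_mul]
      refine Finset.sum_congr rfl fun j _ => ?_
      ring
    rw [integral_congr_ae (Eventually.of_forall e2), integral_finsetSum]
    · refine Finset.sum_congr rfl fun j _ => ?_
      rw [integral_const_mul]
    · intro j _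
      exact (bm_int hB (bm_slice hB (hk j) x) (nuc ℓ)).const_mul _
  rw [integral_congr_ae (Eventually.of_forall e1), integral_finsetSum]
  · rw [Finset.mul_sum]
    refine Finset.sum_congr rfl fun j _ => ?_
    rw [integral_const_mul]
    ring
  · intro j _
    have h3 : BM (fun x : E => ∫ y, cell ℓ (16 ^ j) x y * (f x - f y) ^ 2 ∂(nuc ℓ)) :=
      bm_fub hB (nuc ℓ) (F := fun p : E × E => cell ℓ (16 ^ j) p.1 p.2 * (f p.1 - f p.2) ^ 2) (hk j)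
    exact (bm_int hB h3 (nuc ℓ)).const_mul _

/-- the same in terms of the averages over the cells -/
theorem q1_am (hB : Stmt_BMC) (hM : Stmt_MES) (hC : Stmt_CEL) (hA : Stmt_AMF) (ℓ : ℝ) (hℓ : 0 < ℓ) (J : ℕ)
    (f : E → ℝ) (hf : BM f) : q1 ℓ (kap0 ℓ J) f f = (ℓ ^ 2)⁻¹ * ∑ j ∈ Finset.range (J + 1), (128 : ℝ) ^ j *
      ∫ x, (f x - Am ℓ (16 ^ j) f x) ^ 2 ∂(nuc ℓ) := by
  rw [q1_kap0 hB hM hC ℓ hℓ J f hf, Finset.mul_sum, Finset.mul_sum]
  refine Finset.sum_congr rfl fun j _ => ?_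
  rw [(hA ℓ (16 ^ j) f hℓ (by positivity) hf).2.1]
  ring

/-- truncation of a continuous function outside the cube -/
theorem trunc (hM : Stmt_MES) (ℓ : ℝ) (hℓ : 0 < ℓ) (f : E → ℝ) (hf : Continuous f) :
    BM ((Lam ℓ).indicator f) ∧ ∀ᵐ x ∂(nuc ℓ), (Lam ℓ).indicator f x = f x := by
  obtain ⟨hm, hc, -, -, -, hae, -⟩ := hM ℓ hℓ
  refine ⟨⟨hf.measurable.indicator hm, ?_⟩, ?_⟩
  · obtain ⟨C, hC⟩ := hc.exists_bound_of_continuousOn hf.continuousOn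
    refine ⟨max C 0, fun x => ?_⟩
    by_cases hx : x ∈ Lam ℓ
    · rw [Set.indicator_of_mem hx]
      exact (hC x hx).trans (le_max_left _ _)
    · rw [Set.indicator_of_notMem hx, abs_zero]
      exact le_max_right _ _
  · filter_upwards [hae] with x hx
    exact Set.indicator_of_mem hx.1 f

/-- double integrals depend only on the values on the cube -/
theorem dbl_congr (ℓ : ℝ) (f g : E → ℝ) (hfg : ∀ᵐ x ∂(nuc ℓ), f x = g x) (a : E → E → ℝ) (P : ℝ → ℝ → ℝ) :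
    ∫ x, ∫ y, a x y * P (f x) (f y) ∂(nuc ℓ) ∂(nuc ℓ) = ∫ x, ∫ y, a x y * P (g x) (g y) ∂(nuc ℓ) ∂(nuc ℓ) := by
  refine integral_congr_ae ?_
  filter_upwards [hfg] with x hx
  refine integral_congr_ae ?_
  filter_upwards [hfg] with y hy
  rw [hx, hy]

theorem geo128 (J : ℕ) : ∑ j ∈ Finset.range (J + 1), (128 : ℝ) ^ j ≤ 2 * (128 : ℝ) ^ J := by
  induction J with
  | zero => norm_num
  | succ n ih =>
    rw [Finset.sum_range_succ]
    have : (0 : ℝ) < 128 ^ n := by positivity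
    rw [pow_succ]
    linarith

theorem geo2 (J : ℕ) : ∑ j ∈ Finset.range (J + 1), (1 / 2 : ℝ) ^ j ≤ 2 := by
  have h : ∀ n : ℕ, ∑ j ∈ Finset.range n, (1 / 2 : ℝ) ^ j = 2 - 2 * (1 / 2 : ℝ) ^ n := by
    intro n
    induction n with
    | zero => norm_num
    | succ n ih =>
      rw [Finset.sum_range_succ, ih, pow_succ]
      ring
  rw [h]
  have : (0 : ℝ) < (1 / 2 : ℝ) ^ (J + 1) := by positivity
  linarith

end RSV_

open RSV_ in
theorem rsv_proof (hB : Stmt_BMC) (hM : Stmt_MES) (hC : Stmt_CEL) (hA : Stmt_AMF) (hP : Stmt_PCL)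
    (hT : Stmt_TEL) : Stmt_RSV := by
  obtain ⟨C₀, hC₀, hT⟩ := hT
  refine ⟨max 1 C₀, by positivity, fun ℓ hℓ1 => ?_⟩
  have hℓ : 0 < ℓ := lt_of_lt_of_le one_pos hℓ1
  obtain ⟨J, hJ1, hJ2⟩ := exists_nat_pow_near hℓ1 (by norm_num : (1 : ℝ) < 128)
  haveI : IsProbabilityMeasure (nuc ℓ) := (hM ℓ hℓ).2.2.2.1
  have hcell : ∀ j : ℕ, BM2 (cell ℓ (16 ^ j)) := fun j => (hC ℓ (16 ^ j) hℓ (by positivity)).1
  have hc0 : ∀ (j : ℕ) (x y : E), 0 ≤ cell ℓ (16 ^ j) x y := fun j => (hC ℓ (16 ^ j) hℓ (by positivity)).2.1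
  have hcs : ∀ (j : ℕ) (x y : E), cell ℓ (16 ^ j) x y = cell ℓ (16 ^ j) y x :=
    fun j => (hC ℓ (16 ^ j) hℓ (by positivity)).2.2.1
  have hc1 : ∀ (j : ℕ) (x : E), ((16 ^ j : ℕ) : ℝ) ^ 3 * ∫ y, cell ℓ (16 ^ j) x y ∂(nuc ℓ) ≤ 1 :=
    fun j => (hC ℓ (16 ^ j) hℓ (by positivity)).2.2.2.2.1
  have hκ0 : ∀ x y, 0 ≤ kap0 ℓ J x y := by
    intro x y
    unfold kap0
    have : ∀ j ∈ Finset.range (J + 1), 0 ≤ (128 : ℝ) ^ j * (((16 ^ j : ℕ) : ℝ) ^ 3 * cell ℓ (16 ^ j) x y) := by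
      intro j _
      have := hc0 j x y
      positivity
    have := Finset.sum_nonneg this
    positivity
  have hq0 : ∀ f : E → ℝ, 0 ≤ q1 ℓ (kap0 ℓ J) f f := by
    intro f
    unfold q1
    refine integral_nonneg fun x => integral_nonneg fun y => ?_
    exact mul_nonneg (hκ0 x y) (mul_self_nonneg _)
  refine ⟨kap0 ℓ J, ?_, hκ0, ?_, ?_, ?_, ?_, ?_⟩
  · -- bounded and measurable
    unfold BM2 kap0
    refine bm_smul hB (bm_sum hB (Finset.range (J + 1))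
      (fun j (p : E × E) => (128 : ℝ) ^ j * (((16 ^ j : ℕ) : ℝ) ^ 3 * cell ℓ (16 ^ j) p.1 p.2)) ?_) _
    intro j _
    exact bm_smul hB (bm_smul hB (hcell j) _) _
  · -- symmetry
    intro x y
    unfold kap0
    refine congrArg _ (Finset.sum_congr rfl fun j _ => ?_)
    rw [hcs j x y]
  · -- total rate
    intro x
    have e1 : ∫ y, kap0 ℓ J x y ∂(nuc ℓ) = 1 / 2 * (ℓ ^ 2)⁻¹ * ∑ j ∈ Finset.range (J + 1), (128 : ℝ) ^ j *
        (((16 ^ j : ℕ) : ℝ) ^ 3 * ∫ y, cell ℓ (16 ^ j) x y ∂(nuc ℓ)) := by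
      unfold kap0
      rw [integral_const_mul, integral_finsetSum]
      · refine congrArg _ (Finset.sum_congr rfl fun j _ => ?_)
        rw [integral_const_mul, integral_const_mul]
      · intro j _
        exact (((bm_int hB (bm_slice hB (hcell j) x) (nuc ℓ)).const_mul _).const_mul _)
    have e2 : ∑ j ∈ Finset.range (J + 1), (128 : ℝ) ^ j *
        (((16 ^ j : ℕ) : ℝ) ^ 3 * ∫ y, cell ℓ (16 ^ j) x y ∂(nuc ℓ)) ≤ 2 * (128 : ℝ) ^ J := by
      refine le_trans (Finset.sum_le_sum (g := fun j => (128 : ℝ) ^ j) fun j _ => ?_) (geo128 J)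
      have := mul_le_mul_of_nonneg_left (hc1 j x) (by positivity : (0 : ℝ) ≤ (128 : ℝ) ^ j)
      rwa [mul_one] at this
    rw [e1]
    calc 1 / 2 * (ℓ ^ 2)⁻¹ * ∑ j ∈ Finset.range (J + 1), (128 : ℝ) ^ j *
        (((16 ^ j : ℕ) : ℝ) ^ 3 * ∫ y, cell ℓ (16 ^ j) x y ∂(nuc ℓ))
        ≤ 1 / 2 * (ℓ ^ 2)⁻¹ * (2 * ℓ) := by
          refine mul_le_mul_of_nonneg_left (e2.trans ?_) (by positivity)
          linarith
      _ = 1 / ℓ := by field_simp
      _ ≤ max 1 C₀ / ℓ := by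
          gcongr
          exact le_max_left _ _
  · -- smooth functions
    intro f hf
    obtain ⟨hg, hgf⟩ := trunc hM ℓ hℓ f hf.continuous
    have e1 : q1 ℓ (kap0 ℓ J) f f = q1 ℓ (kap0 ℓ J) ((Lam ℓ).indicator f) ((Lam ℓ).indicator f) := by
      unfold q1
      exact (dbl_congr ℓ _ _ hgf (kap0 ℓ J) (fun s t => (s - t) * (s - t))).symm
    have e2 : ∀ j : ℕ, ∫ x, ∫ y, cell ℓ (16 ^ j) x y *
        ((Lam ℓ).indicator f x - (Lam ℓ).indicator f y) ^ 2 ∂(nuc ℓ) ∂(nuc ℓ) =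
        ∫ x, ∫ y, cell ℓ (16 ^ j) x y * (f x - f y) ^ 2 ∂(nuc ℓ) ∂(nuc ℓ) := fun j =>
      dbl_congr ℓ _ _ hgf (cell ℓ (16 ^ j)) (fun s t => (s - t) ^ 2)
    set D : ℝ := ∑ c, ∫ x, (pd c f x) ^ 2 ∂(nuc ℓ) with hD
    have hD0 : 0 ≤ D := Finset.sum_nonneg fun c _ => integral_nonneg fun x => sq_nonneg _
    rw [e1, q1_kap0 hB hM hC ℓ hℓ J _ hg]
    have e3 : ∀ j ∈ Finset.range (J + 1), (128 : ℝ) ^ j *
        (((16 ^ j : ℕ) : ℝ) ^ 3 * ∫ x, ∫ y, cell ℓ (16 ^ j) x y *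
          ((Lam ℓ).indicator f x - (Lam ℓ).indicator f y) ^ 2 ∂(nuc ℓ) ∂(nuc ℓ)) ≤
        (3 * ℓ ^ 2 * D) * (1 / 2 : ℝ) ^ j := by
      intro j _
      rw [e2 j]
      refine le_trans (mul_le_mul_of_nonneg_left (hP ℓ (16 ^ j) f hℓ (by positivity) hf) (by positivity)) ?_
      rw [← hD]
      apply le_of_eq
      push_cast
      rw [div_pow, ← pow_mul, one_div, inv_pow, mul_comm j 2, pow_mul]
      have h256 : ((16 : ℝ) ^ 2) ^ j = (128 : ℝ) ^ j * 2 ^ j := by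
        rw [← mul_pow]; norm_num
      rw [h256]
      field_simp
    calc 1 / 2 * (ℓ ^ 2)⁻¹ * ∑ j ∈ Finset.range (J + 1), (128 : ℝ) ^ j *
        (((16 ^ j : ℕ) : ℝ) ^ 3 * ∫ x, ∫ y, cell ℓ (16 ^ j) x y *
          ((Lam ℓ).indicator f x - (Lam ℓ).indicator f y) ^ 2 ∂(nuc ℓ) ∂(nuc ℓ))
        ≤ 1 / 2 * (ℓ ^ 2)⁻¹ * ∑ j ∈ Finset.range (J + 1), (3 * ℓ ^ 2 * D) * (1 / 2 : ℝ) ^ j :=
          mul_le_mul_of_nonneg_left (Finset.sum_le_sum e3) (by positivity)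
      _ = (3 / 2 * D) * ∑ j ∈ Finset.range (J + 1), (1 / 2 : ℝ) ^ j := by
          rw [← Finset.mul_sum]
          field_simp
      _ ≤ (3 / 2 * D) * 2 := mul_le_mul_of_nonneg_left (geo2 J) (by positivity)
      _ = 3 * D := by ring
  · -- variance
    intro f hf
    rw [q1_am hB hM hC hA ℓ hℓ J f hf]
    refine mul_le_mul_of_nonneg_left ?_ (by positivity)
    have e0 : ∫ x, (f x - ∫ y, f y ∂(nuc ℓ)) ^ 2 ∂(nuc ℓ) =
        (128 : ℝ) ^ 0 * ∫ x, (f x - Am ℓ (16 ^ 0) f x) ^ 2 ∂(nuc ℓ) := by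
      rw [pow_zero, one_mul]
      refine integral_congr_ae ?_
      filter_upwards [(hA ℓ (16 ^ 0) f hℓ (by positivity) hf).2.2.2.2 (by norm_num)] with x hx
      rw [hx]
    rw [e0]
    refine Finset.single_le_sum (f := fun j : ℕ => (128 : ℝ) ^ j *
      ∫ x, (f x - Am ℓ (16 ^ j) f x) ^ 2 ∂(nuc ℓ)) (fun j _ => ?_) (Finset.mem_range.2 (Nat.succ_pos J))
    exact mul_nonneg (by positivity) (integral_nonneg fun x => sq_nonneg _)
  · -- the weight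
    intro f hf z
    refine (hT ℓ J f z hℓ1 hJ2 hf).trans ?_
    rw [← q1_am hB hM hC hA ℓ hℓ J f hf]
    exact mul_le_mul_of_nonneg_right (le_max_right _ _) (hq0 f)

end Pool.Agent.TBL
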