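import Pool.Agent.TBL.Stmts

/-!
# Three-body Bose gases (MP_80dc41_mp), lower bound: module SCA, the scattering function
-/

set_option autoImplicit false

open MeasureTheory Filter Topology
open scoped ContDiff

namespace Pool.Agent.TBL

open Pool.Agent.TBG

namespace SCA_

theorem key_low (s r : ℝ) (hr : 0 ≤ r) (h : s ≤ 2 * r ^ 2) : 1 + s ≤ 2 * (1 + r) ^ 2 := by
  nlinarith [sq_nonneg r]

theorem key_upp (s r : ℝ) (h : r ^ 2 ≤ 3 * s) : (1 + r) ^ 2 ≤ 6 * (1 + s) := by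
  nlinarith [sq_nonneg (r - 1)]

end SCA_

open SCA_

theorem sca_proof (hPRF : Stmt_PRF) (hLPC : Pool.Agent.TBG.Stmt_LPC) (hQFO : Pool.Agent.TBG.Stmt_QFO) :
    Stmt_SCA := by
  obtain ⟨wsm, psm, w01, wpos, w1, _, plap, pb, ⟨c, hc, pc⟩, _, _, _⟩ := hPRF
  obtain ⟨qsm, qg, ql, qb, qs, _⟩ := hQFO
  have hch := hLPC P1 QQ Set.univ isOpen_univ psm.contDiffOn qsm (fun _ => Set.mem_univ _)
  have hgsq : ∀ z, gsq phi0 z = deriv P1 (QQ z) ^ 2 * (4 * QQ z) := by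
    intro z
    have h := (hch z).2.2.1
    rw [qg z] at h
    exact h
  have hlap : ∀ z, Lap phi0 z = deriv P1 (QQ z) * 12 + deriv (deriv P1) (QQ z) * (4 * QQ z) := by
    intro z
    have h := (hch z).2.2.2
    rw [qg z, ql z] at h
    exact h
  have hlap' : ∀ z, Lap phi0 z = -W1 (QQ z) := by
    intro z
    rw [hlap, ← plap (QQ z)]
    ring
  have hww : ∀ z, ww phi0 z = W1 (QQ z) := by
    intro z
    unfold ww
    rw [hlap' z, neg_neg]
  have hlow : ∀ z, 1 + QQ z ≤ 2 * (1 + ‖z‖) ^ 2 := fun z =>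
    key_low _ _ (norm_nonneg z) (qb z).2.1
  have hupp : ∀ z, (1 + ‖z‖) ^ 2 ≤ 6 * (1 + QQ z) := fun z => key_upp _ _ (qb z).2.2
  have hcont : Continuous (ww phi0) := by
    have h3 : ww phi0 = fun z => W1 (QQ z) := funext hww
    rw [h3]
    exact wsm.continuous.comp qsm.continuous
  have hfar : ∀ z, 2 < ‖z‖ → ww phi0 z = 0 := by
    intro z hz
    rw [hww z]
    refine w1 _ ?_
    have h1 := (qb z).2.2
    nlinarith
  have hcpt : HasCompactSupport (ww phi0) := by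
    refine HasCompactSupport.intro (isCompact_closedBall (0 : E × E) 2) fun z hz => ?_
    rw [mem_closedBall_zero_iff, not_le] at hz
    exact hfar z hz
  refine ⟨⟨?_, ?_, ?_, ?_, ?_, ?_, ?_, ?_, ?_⟩, hww, ?_⟩
  · exact psm.comp qsm
  · intro x y
    unfold phi0
    rw [(qs x y).1]
  · intro x y
    unfold phi0
    rw [(qs x y).2]
  · intro z
    have h := (pb (QQ z) (qb z).1).2.1
    unfold phi0
    linarith
  · refine ⟨c / 4, by positivity, fun z => ?_⟩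
    have h1 := pc (QQ z) (qb z).1
    have h5 := (pb (QQ z) (qb z).1).1.le
    have h2 := hlow z
    have h0 := (qb z).1
    have h3 : (1 + QQ z) ^ 2 ≤ (2 * (1 + ‖z‖) ^ 2) ^ 2 := pow_le_pow_left₀ (by linarith) h2 2
    have h4 : (2 * (1 + ‖z‖) ^ 2) ^ 2 = 4 * (1 + ‖z‖) ^ 4 := by ring
    rw [h4] at h3
    have h6 := mul_le_mul_of_nonneg_right h3 h5
    unfold phi0
    linarith
  · refine ⟨36, fun z => ?_⟩
    obtain ⟨h5, _, h1', _⟩ := pb (QQ z) (qb z).1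
    have h2 := hupp z
    have h0 := (qb z).1
    have h3 : ((1 + ‖z‖) ^ 2) ^ 2 ≤ (6 * (1 + QQ z)) ^ 2 := pow_le_pow_left₀ (sq_nonneg _) h2 2
    have h4 : ((1 + ‖z‖) ^ 2) ^ 2 = (1 + ‖z‖) ^ 4 := by ring
    have h4' : (6 * (1 + QQ z)) ^ 2 = 36 * (1 + QQ z) ^ 2 := by ring
    rw [h4, h4'] at h3
    have h6 := mul_le_mul_of_nonneg_right h3 h5.le
    unfold phi0
    linarith
  · refine ⟨6 ^ 5 * 4, fun z => ?_⟩
    obtain ⟨_, _, _, h1⟩ := pb (QQ z) (qb z).1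
    have h2 := hupp z
    have h0 := (qb z).1
    have h3 : ((1 + ‖z‖) ^ 2) ^ 5 ≤ (6 * (1 + QQ z)) ^ 5 := pow_le_pow_left₀ (sq_nonneg _) h2 5
    have h4 : ((1 + ‖z‖) ^ 2) ^ 5 = (1 + ‖z‖) ^ 10 := by ring
    rw [h4] at h3
    rw [hgsq z]
    have h5 : 0 ≤ deriv P1 (QQ z) ^ 2 * (4 * QQ z) := by positivity
    have h6 := mul_le_mul_of_nonneg_right h3 h5
    have h7 : ((1 + QQ z) ^ 3 * |deriv P1 (QQ z)|) ^ 2 ≤ 1 ^ 2 :=
      pow_le_pow_left₀ (by positivity) h1 2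
    have h8 : ((1 + QQ z) ^ 3 * |deriv P1 (QQ z)|) ^ 2 =
        (1 + QQ z) ^ 6 * deriv P1 (QQ z) ^ 2 := by
      rw [mul_pow, sq_abs]
      ring
    rw [h8, one_pow] at h7
    have h9 : (6 * (1 + QQ z)) ^ 5 * (deriv P1 (QQ z) ^ 2 * (4 * QQ z)) ≤
        6 ^ 5 * 4 * ((1 + QQ z) ^ 6 * deriv P1 (QQ z) ^ 2) := by
      have h10 : 6 ^ 5 * 4 * ((1 + QQ z) ^ 6 * deriv P1 (QQ z) ^ 2) -
          (6 * (1 + QQ z)) ^ 5 * (deriv P1 (QQ z) ^ 2 * (4 * QQ z)) =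
          6 ^ 5 * 4 * ((1 + QQ z) ^ 5 * deriv P1 (QQ z) ^ 2) := by ring
      have h11 : 0 ≤ 6 ^ 5 * 4 * ((1 + QQ z) ^ 5 * deriv P1 (QQ z) ^ 2) := by positivity
      linarith
    calc (1 + ‖z‖) ^ 10 * (deriv P1 (QQ z) ^ 2 * (4 * QQ z)) ≤ _ := h6
      _ ≤ _ := h9
      _ ≤ 6 ^ 5 * 4 * 1 := by
        refine mul_le_mul_of_nonneg_left h7 (by norm_num)
      _ = 6 ^ 5 * 4 := by ring
  · intro z
    rw [hlap' z, Left.neg_nonpos_iff]
    exact (w01 _).1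
  · refine ⟨2, fun z hz => ?_⟩
    have h := hfar z hz
    unfold ww at h
    linarith
  · refine hcont.integral_pos_of_hasCompactSupport_nonneg_nonzero (x := 0) hcpt ?_ ?_
    · intro z
      show 0 ≤ ww phi0 z
      rw [hww z]
      exact (w01 _).1
    · rw [hww]
      have h0 : QQ (0 : E × E) = 0 := by
        unfold QQ
        simp
      rw [h0]
      exact (wpos 0 (by norm_num)).ne'

end Pool.Agent.TBL
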