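import Pool.Agent.TBL.Stmts

/-!
# TBL, module SCH: the Schur test
-/

set_option autoImplicit false

open MeasureTheory Filter Topology
open scoped ContDiff

namespace Pool.Agent.TBL

open Pool.Agent.TBG

namespace SCH_

theorem quad {a b c : ℝ} (h : ∀ t : ℝ, 0 ≤ c - 2 * t * b + t ^ 2 * a) : b ^ 2 ≤ a * c := by
  have h1 : ∀ t : ℝ, 0 ≤ a * (t * t) + (-2 * b) * t + c := by
    intro t
    have := h t
    nlinarith
  have h2 := discrim_le_zero h1
  unfold discrim at h2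
  nlinarith

theorem bm_swap (hBMC : Stmt_BMC) {a : E → E → ℝ} (ha : BM2 a) : BM2 (fun z y => a y z) :=
  hBMC.2.2.2.1 (E × E) (E × E) _ (fun p => (p.2, p.1)) ha (by fun_prop)

theorem bm_av (hBMC : Stmt_BMC) {μ : Measure E} [IsProbabilityMeasure μ] {a : E → E → ℝ}
    (ha : BM2 a) : BM (fun y => ∫ z, a y z ∂μ) :=
  hBMC.2.2.2.2 E E μ (fun p => a p.1 p.2) ha

theorem bm_snd (hBMC : Stmt_BMC) {f : E → ℝ} (hf : BM f) : BM2 (fun _ z => f z) :=
  hBMC.2.2.2.1 E (E × E) f (fun p => p.2) hf (by fun_prop)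

theorem bm_sec (hBMC : Stmt_BMC) {a : E → E → ℝ} (ha : BM2 a) (y : E) : BM (fun z => a y z) :=
  hBMC.2.2.2.1 (E × E) E _ (fun z => (y, z)) ha (by fun_prop)

end SCH_

open SCH_ in
theorem sch_proof (hBMC : Stmt_BMC) (hMES : Stmt_MES) : Stmt_SCH := by
  intro ℓ k h B f hℓ hB hk hh hf hkh h1 h2
  have : IsProbabilityMeasure (nuc ℓ) := (hMES ℓ hℓ).2.2.2.1
  set μ := nuc ℓ with hμ
  have int1 : ∀ {f : E → ℝ}, BM f → Integrable f μ := fun {f} hf =>
    (hBMC.1 E _ _ hf hf).2.2.2.2.2.2 μ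
  have bf2 : BM (fun z => f z ^ 2) := (hBMC.1 E _ _ hf hf).2.2.2.1
  have baf : BM (fun z => |f z|) := (hBMC.1 E _ _ hf hf).2.2.2.2.1
  have bhf2 : BM2 (fun x z => h x z * f z ^ 2) :=
    (hBMC.1 (E × E) _ _ hh (bm_snd hBMC bf2)).2.2.1
  have bkf : BM2 (fun x z => k x z * f z) := (hBMC.1 (E × E) _ _ hk (bm_snd hBMC hf)).2.2.1
  have hh0 : ∀ x z, 0 ≤ h x z := fun x z => (abs_nonneg _).trans (hkh x z)
  have c1 : ∀ x, (∫ z, k x z * f z ∂μ) ^ 2 ≤ B * ∫ z, h x z * f z ^ 2 ∂μ := by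
    intro x
    have sh : BM (fun z => h x z) := bm_sec hBMC hh x
    have shf2 : BM (fun z => h x z * f z ^ 2) := bm_sec hBMC bhf2 x
    have shaf : BM (fun z => h x z * |f z|) := (hBMC.1 E _ _ sh baf).2.2.1
    have skf : BM (fun z => k x z * f z) := bm_sec hBMC bkf x
    have skf' : BM (fun z => |k x z * f z|) := (hBMC.1 E _ _ skf skf).2.2.2.2.1
    have e1 : |∫ z, k x z * f z ∂μ| ≤ ∫ z, h x z * |f z| ∂μ := by
      refine abs_integral_le_integral_abs.trans ?_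
      refine integral_mono (int1 skf') (int1 shaf) fun z => ?_
      simp only
      rw [abs_mul]
      exact mul_le_mul_of_nonneg_right (hkh x z) (abs_nonneg _)
    have e2 : (∫ z, h x z * |f z| ∂μ) ^ 2 ≤ B * ∫ z, h x z * f z ^ 2 ∂μ := by
      apply quad
      intro t
      have g1 : 0 ≤ ∫ z, h x z * (|f z| - t) ^ 2 ∂μ :=
        integral_nonneg fun z => mul_nonneg (hh0 x z) (sq_nonneg _)
      have g2 : ∫ z, h x z * (|f z| - t) ^ 2 ∂μ = (∫ z, h x z * f z ^ 2 ∂μ) -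
          2 * t * (∫ z, h x z * |f z| ∂μ) + t ^ 2 * ∫ z, h x z ∂μ := by
        have e : (fun z => h x z * (|f z| - t) ^ 2) = fun z =>
            (h x z * f z ^ 2 - 2 * t * (h x z * |f z|)) + t ^ 2 * h x z := by
          funext z
          have : |f z| ^ 2 = f z ^ 2 := sq_abs _
          linear_combination h x z * this
        have i2 : Integrable (fun z => 2 * t * (h x z * |f z|)) μ := (int1 shaf).const_mul _
        have i3 : Integrable (fun z => t ^ 2 * h x z) μ := (int1 sh).const_mul _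
        have i12 : Integrable (fun z => h x z * f z ^ 2 - 2 * t * (h x z * |f z|)) μ :=
          (int1 shf2).sub i2
        rw [e, integral_add i12 i3, integral_sub (int1 shf2) i2, integral_const_mul,
          integral_const_mul]
      rw [g2] at g1
      have := mul_le_mul_of_nonneg_left (h1 x) (sq_nonneg t)
      linarith
    have e3 : (∫ z, k x z * f z ∂μ) ^ 2 ≤ (∫ z, h x z * |f z| ∂μ) ^ 2 := by
      rw [← sq_abs (∫ z, k x z * f z ∂μ)]
      exact pow_le_pow_left₀ (abs_nonneg _) e1 2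
    exact e3.trans e2
  have bT : BM (fun x => ∫ z, k x z * f z ∂μ) := bm_av hBMC bkf
  have bT2 := (hBMC.1 E _ _ bT bT).2.2.2.1
  have bR : BM (fun x => ∫ z, h x z * f z ^ 2 ∂μ) := bm_av hBMC bhf2
  have c2 : ∫ x, (∫ z, k x z * f z ∂μ) ^ 2 ∂μ ≤ B * ∫ x, ∫ z, h x z * f z ^ 2 ∂μ ∂μ := by
    rw [← integral_const_mul]
    exact integral_mono (int1 bT2) ((int1 bR).const_mul B) c1
  have c3 : ∫ x, ∫ z, h x z * f z ^ 2 ∂μ ∂μ = ∫ z, ∫ x, h x z * f z ^ 2 ∂μ ∂μ :=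
    integral_integral_swap ((hBMC.1 (E × E) _ _ bhf2 bhf2).2.2.2.2.2.2 (μ.prod μ))
  have bS : BM (fun z => ∫ x, h x z * f z ^ 2 ∂μ) := bm_av hBMC (bm_swap hBMC bhf2)
  have c4 : ∫ z, ∫ x, h x z * f z ^ 2 ∂μ ∂μ ≤ B * ∫ z, f z ^ 2 ∂μ := by
    rw [← integral_const_mul]
    refine integral_mono (int1 bS) ((int1 bf2).const_mul B) fun z => ?_
    simp only
    rw [integral_mul_const]
    exact mul_le_mul_of_nonneg_right (h2 z) (sq_nonneg _)
  calc ∫ x, (∫ z, k x z * f z ∂μ) ^ 2 ∂μ ≤ B * ∫ x, ∫ z, h x z * f z ^ 2 ∂μ ∂μ := c2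
    _ = B * ∫ z, ∫ x, h x z * f z ^ 2 ∂μ ∂μ := by rw [c3]
    _ ≤ B * (B * ∫ z, f z ^ 2 ∂μ) := mul_le_mul_of_nonneg_left c4 hB
    _ = B ^ 2 * ∫ z, f z ^ 2 ∂μ := by ring

end Pool.Agent.TBL
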