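import Pool.Agent.TBL.Stmts

/-!
# Three-body Bose gases (MP_80dc41_mp), lower bound: module SCX, scaling
-/

set_option autoImplicit false

open MeasureTheory Filter Topology
open scoped ContDiff

namespace Pool.Agent.TBL

open Pool.Agent.TBG

namespace SCX_

variable {N : ℕ}

theorem box_scale (r L : ℝ) (hr : 0 < r) (Y : Fin N → E) : r • Y ∈ box N L ↔ Y ∈ box N (L / r) := by
  show (∀ i c, |(r • Y) i c| < L / 2) ↔ ∀ i c, |Y i c| < L / r / 2
  refine forall_congr' fun i => forall_congr' fun c => ?_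
  have h1 : (r • Y) i c = r * Y i c := rfl
  rw [h1, abs_mul, abs_of_pos hr]
  constructor
  · intro h
    rw [div_div, mul_comm r 2, ← div_div, lt_div_iff₀ hr]
    linarith
  · intro h
    rw [div_div, mul_comm r 2, ← div_div, lt_div_iff₀ hr] at h
    linarith

theorem box_meas (L : ℝ) : MeasurableSet (box N L) := by
  unfold box
  have h : {X : Fin N → E | ∀ i c, |X i c| < L / 2} = ⋂ i, ⋂ c, {X | |X i c| < L / 2} := by
    ext X
    simp
  rw [h]
  refine MeasurableSet.iInter fun i => MeasurableSet.iInter fun c => ?_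
  refine measurableSet_lt ?_ measurable_const
  have : Continuous (fun X : Fin N → E => |X i c|) := by fun_prop
  exact this.measurable

theorem int_scale (r L : ℝ) (hr : 0 < r) :
    ∃ J : ℝ, 0 < J ∧ ∀ F : (Fin N → E) → ℝ, ∫ Y in box N (L / r), F (r • Y) = J * ∫ X in box N L, F X := by
  refine ⟨|(r ^ (Module.finrank ℝ (Fin N → E)))⁻¹|, by positivity, fun F => ?_⟩
  rw [← integral_indicator (box_meas _), ← integral_indicator (box_meas _)]
  have h := Measure.integral_comp_smul (volume : Measure (Fin N → E)) ((box N L).indicator F) r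
  rw [smul_eq_mul] at h
  rw [← h]
  refine integral_congr_ae (Eventually.of_forall fun Y => ?_)
  by_cases hY : Y ∈ box N (L / r)
  · have h2 := (box_scale r L hr Y).2 hY
    simp [Set.indicator_of_mem hY, Set.indicator_of_mem h2]
  · have h2 : r • Y ∉ box N L := fun h => hY ((box_scale r L hr Y).1 h)
    simp [Set.indicator_of_notMem hY, Set.indicator_of_notMem h2]

theorem di_scale (r : ℝ) (u : (Fin N → E) → ℝ) (hu : ContDiff ℝ ∞ u) (i : Fin N) (c : Fin 3) (Y : Fin N → E) :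
    di i c (fun Y => u (r • Y)) Y = r * di i c u (r • Y) := by
  unfold di
  have h1 : HasFDerivAt u (fderiv ℝ u (r • Y)) (r • Y) :=
    ((hu.differentiable (by simp)) _).hasFDerivAt
  have h2 : HasFDerivAt (fun Y : Fin N → E => r • Y) (r • ContinuousLinearMap.id ℝ (Fin N → E)) Y :=
    (hasFDerivAt_id Y).const_smul r
  have h3 := h1.comp Y h2
  have h4 : fderiv ℝ (fun Y => u (r • Y)) Y = _ := h3.fderiv
  rw [h4]
  simp

theorem pot_term (V V' : E → E → ℝ) (r : ℝ) (hr : 0 < r)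
    (hV : ∀ x y, V' x y = (r ^ 2)⁻¹ * V (r⁻¹ • x) (r⁻¹ • y)) (Y : Fin N → E) (t : Fin N × Fin N × Fin N) :
    V (Y t.1 - Y t.2.1) (Y t.1 - Y t.2.2) =
      r ^ 2 * V' ((r • Y) t.1 - (r • Y) t.2.1) ((r • Y) t.1 - (r • Y) t.2.2) := by
  have h1 : (r • Y) t.1 - (r • Y) t.2.1 = r • (Y t.1 - Y t.2.1) := by
    rw [Pi.smul_apply, Pi.smul_apply, smul_sub]
  have h2 : (r • Y) t.1 - (r • Y) t.2.2 = r • (Y t.1 - Y t.2.2) := by
    rw [Pi.smul_apply, Pi.smul_apply, smul_sub]
  rw [h1, h2, hV, smul_smul, smul_smul, inv_mul_cancel₀ hr.ne', one_smul, one_smul, ← mul_assoc,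
    mul_inv_cancel₀ (pow_pos hr 2).ne', one_mul]

theorem pot_scale (V V' : E → E → ℝ) (r : ℝ) (hr : 0 < r)
    (hV : ∀ x y, V' x y = (r ^ 2)⁻¹ * V (r⁻¹ • x) (r⁻¹ • y)) (Y : Fin N → E) :
    potS V Y = r ^ 2 * potS V' (r • Y) := by
  unfold potS
  have key : ∑ t ∈ D3 (Fin N), V (Y t.1 - Y t.2.1) (Y t.1 - Y t.2.2) =
      r ^ 2 * ∑ t ∈ D3 (Fin N), V' ((r • Y) t.1 - (r • Y) t.2.1) ((r • Y) t.1 - (r • Y) t.2.2) := by
    rw [Finset.mul_sum]
    refine Finset.sum_congr rfl fun t _ => ?_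
    exact pot_term V V' r hr hV Y t
  rw [key]
  ring

theorem lbs_scale (V V' : E → E → ℝ) (r L e : ℝ) (hr : 0 < r)
    (hV : ∀ x y, V' x y = (r ^ 2)⁻¹ * V (r⁻¹ • x) (r⁻¹ • y)) (h : LBs V N (L / r) (r ^ 2 * e)) :
    LBs V' N L e := by
  intro u hu hcu
  have hu' : ContDiff ℝ ∞ (fun Y : Fin N → E => u (r • Y)) := hu.comp (contDiff_const_smul r)
  have hcu' : HasCompactSupport (fun Y : Fin N → E => u (r • Y)) := hcu.comp_smul hr.ne'
  have h1 := h _ hu' hcu'
  obtain ⟨J, hJ, hI⟩ := int_scale (N := N) r L hr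
  have h2 : ∫ Y in box N (L / r), (fun Y : Fin N → E => u (r • Y)) Y ^ 2 = J * ∫ X in box N L, u X ^ 2 :=
    hI (fun X => u X ^ 2)
  have h3 : ∫ Y in box N (L / r), (∑ i, ∑ c, (di i c (fun Y : Fin N → E => u (r • Y)) Y) ^ 2 +
      potS V Y * (fun Y : Fin N → E => u (r • Y)) Y ^ 2) =
      r ^ 2 * (J * ∫ X in box N L, (∑ i, ∑ c, (di i c u X) ^ 2 + potS V' X * u X ^ 2)) := by
    rw [← hI, ← integral_const_mul]
    refine integral_congr_ae (Eventually.of_forall fun Y => ?_)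
    simp only [di_scale r u hu, pot_scale V V' r hr hV Y]
    rw [mul_add, Finset.mul_sum]
    congr 1
    · refine Finset.sum_congr rfl fun i _ => ?_
      rw [Finset.mul_sum]
      refine Finset.sum_congr rfl fun c _ => ?_
      ring
    · ring
  rw [h2, h3] at h1
  have hr2 : 0 < r ^ 2 := pow_pos hr 2
  have h4 : (r ^ 2 * J) * (e * ∫ X in box N L, u X ^ 2) ≤
      (r ^ 2 * J) * ∫ X in box N L, (∑ i, ∑ c, (di i c u X) ^ 2 + potS V' X * u X ^ 2) := by
    linarith
  exact le_of_mul_le_mul_left h4 (by positivity)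

end SCX_

open SCX_

theorem scx_proof : Stmt_SCX := by
  rintro V V' b r hr _ hV ⟨K, ρ₀, δ, hK, hρ₀, hδ, h⟩
  refine ⟨K * r ^ 7, ρ₀ / r ^ 3, δ / r ^ 2, by positivity, by positivity, by positivity, ?_⟩
  intro ρ hρ hρ' L hL N
  have h1 : 0 < r ^ 3 * ρ := by positivity
  have h2 : r ^ 3 * ρ < ρ₀ := by
    rw [lt_div_iff₀ (by positivity)] at hρ'
    linarith
  have h3 : δ / (r ^ 3 * ρ) ≤ L / r := by
    rw [div_le_iff₀ (by positivity)] at hL
    rw [div_le_iff₀ (by positivity)]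
    have h4 : L / r * (r ^ 3 * ρ) = (L * ρ) * r ^ 2 := by
      field_simp
    rw [h4]
    rwa [div_le_iff₀ (by positivity)] at hL
  have h4 := h (r ^ 3 * ρ) h1 h2 (L / r) h3 N
  refine lbs_scale V V' r L _ hr hV ?_
  convert h4 using 1
  field_simp

end Pool.Agent.TBL
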