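import Pool.Agent.TBL.Stmts

/-!
# TBL, module SFA: Cauchy-Schwarz for sums of excitations
-/

set_option autoImplicit false

open MeasureTheory Filter Topology

namespace Pool.Agent.TBL

open Pool.Agent.TBG

theorem sfa_proof (hBMC : Stmt_BMC) (hPQF : Stmt_PQF) (hAVA : Stmt_AVA) (hAVB : Stmt_AVB) :
    Stmt_SFA := by
  intro ι _ _ ℓ hℓ J h w H hH hw hh
  obtain ⟨b1, -, -, -, -⟩ := hBMC
  rcases J.eq_empty_or_nonempty with rfl | ⟨j0, hj0⟩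
  · unfold ns
    simp
  -- the measures are probability measures
  have hprob : IsProbabilityMeasure (nuc ℓ) := by
    have h1 := (hAVB ι ℓ hℓ j0).2.2.2.1 (fun _ => 1) (fun _ _ => rfl)
    have h2 := congrFun h1 (fun _ => 0)
    unfold av at h2
    rw [integral_const, smul_eq_mul, mul_one, measureReal_def] at h2
    constructor
    rw [← ENNReal.toReal_eq_one_iff]
    exact h2
  have hprobP : IsProbabilityMeasure (PiM ι ℓ) := by
    unfold PiM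
    infer_instance
  have hint : ∀ F : (ι → E) → ℝ, BM F → Integrable F (PiM ι ℓ) :=
    fun F hF => (b1 _ F F hF hF).2.2.2.2.2.2 (PiM ι ℓ)
  have hmul : ∀ F G : (ι → E) → ℝ, BM F → BM G → BM (fun X => F X * G X) :=
    fun F G hF hG => (b1 _ F G hF hG).2.2.1
  -- multiplication by a bounded function
  have hbd : ∀ G F : (ι → E) → ℝ, BM G → BM F → (∀ X, |G X| ≤ H) →
      ns ℓ (fun X => G X * F X) ≤ H ^ 2 * ns ℓ F := by
    intro G F hG hF hGH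
    unfold ns
    rw [← integral_const_mul]
    refine integral_mono (hint _ ?_) (hint _ ?_) fun X => ?_
    · exact (b1 _ _ _ (hmul G F hG hF) (hmul G F hG hF)).2.2.2.1
    · exact (b1 _ (fun X => F X ^ 2) (fun X => F X ^ 2) ((b1 _ F F hF hF).2.2.2.1)
        ((b1 _ F F hF hF).2.2.2.1)).2.2.2.2.2.1 (H ^ 2)
    · show (G X * F X) ^ 2 ≤ H ^ 2 * F X ^ 2
      rw [mul_pow]
      refine mul_le_mul_of_nonneg_right ?_ (sq_nonneg _)
      rw [← sq_abs]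
      exact pow_le_pow_left₀ (abs_nonneg _) (hGH X) 2
  have hav : ∀ (j : ι) (F : (ι → E) → ℝ), BM F → BM (av ℓ j F) := fun j F hF =>
    (hAVA ι ℓ hℓ j F hF).1
  have hQ : ∀ (j : ι) (F : (ι → E) → ℝ), BM F → BM (Qa ℓ j F) := fun j F hF =>
    (hPQF ι ℓ hℓ j F F hF hF).1
  have hns : ∀ F : (ι → E) → ℝ, BM F → 0 ≤ ns ℓ F := fun F hF =>
    (hPQF ι ℓ hℓ j0 F F hF hF).2.1
  have hself : ∀ (j : ι) (F G : (ι → E) → ℝ), BM F → BM G →
      ∫ X, Qa ℓ j F X * G X ∂(PiM ι ℓ) = ∫ X, F X * Qa ℓ j G X ∂(PiM ι ℓ) := fun j F G hF hG =>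
    (hPQF ι ℓ hℓ j F G hF hG).2.2.2.1
  have hPle : ∀ (j : ι) (F : (ι → E) → ℝ), BM F → ns ℓ (av ℓ j F) ≤ ns ℓ F := fun j F hF =>
    (hPQF ι ℓ hℓ j F F hF hF).2.2.2.2.2.1
  have hQle : ∀ (j : ι) (F : (ι → E) → ℝ), BM F → ns ℓ (Qa ℓ j F) ≤ ns ℓ F := fun j F hF =>
    (hPQF ι ℓ hℓ j F F hF hF).2.2.2.2.2.2.1
  have hPQ : ∀ (i j : ι) (F : (ι → E) → ℝ), BM F → av ℓ j (Qa ℓ i F) = Qa ℓ i (av ℓ j F) :=
    fun i j F hF => (hPQF ι ℓ hℓ i F F hF hF).2.2.2.2.2.2.2.2.1 j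
  have hQQ : ∀ (i j : ι) (F : (ι → E) → ℝ), BM F → Qa ℓ j (Qa ℓ i F) = Qa ℓ i (Qa ℓ j F) :=
    fun i j F hF => (hPQF ι ℓ hℓ i F F hF hF).2.2.2.2.2.2.2.2.2.2.2.1 j
  have hCS : ∀ (F G : (ι → E) → ℝ), BM F → BM G →
      (∫ X, F X * G X ∂(PiM ι ℓ)) ^ 2 ≤ ns ℓ F * ns ℓ G := fun F G hF hG =>
    (hPQF ι ℓ hℓ j0 F G hF hG).2.2.2.2.2.2.2.2.2.2.2.2
  -- the pieces
  set f : ι → (ι → E) → ℝ := fun j Y => h j Y * av ℓ j w Y with hf
  have hfB : ∀ j ∈ J, BM (f j) := fun j hj => hmul _ _ (hh j hj).1 (hav j w hw)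
  have hTB : ∀ j ∈ J, BM (Qa ℓ j (f j)) := fun j hj => hQ j _ (hfB j hj)
  set a : ι → ℝ := fun j => ns ℓ (Qa ℓ j w) with ha
  have ha0 : ∀ j, 0 ≤ a j := fun j => hns _ (hQ j w hw)
  -- moving a projection inside
  have hmove : ∀ j ∈ J, ∀ j' ∈ J, j' ≠ j →
      Qa ℓ j' (f j) = fun X => h j X * av ℓ j (Qa ℓ j' w) X := by
    intro j hj j' hj' hne
    have hind := (hh j hj).2.2 j' hj' hne
    funext X
    have e1 := congrFun ((hAVB ι ℓ hℓ j').2.2.1 (av ℓ j w) (h j) hind) X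
    show f j X - av ℓ j' (f j) X = _
    have e2 : av ℓ j' (f j) X = h j X * av ℓ j' (av ℓ j w) X := e1
    rw [e2, hPQ j' j w hw]
    show h j X * av ℓ j w X - h j X * av ℓ j' (av ℓ j w) X =
      h j X * (av ℓ j w X - av ℓ j' (av ℓ j w) X)
    ring
  have hoff : ∀ j ∈ J, ∀ j' ∈ J, j' ≠ j →
      ∫ X, Qa ℓ j (f j) X * Qa ℓ j' (f j') X ∂(PiM ι ℓ) ≤ H ^ 2 * ((a j + a j') / 2) := by
    intro j hj j' hj' hne
    have e1 : ∫ X, Qa ℓ j (f j) X * Qa ℓ j' (f j') X ∂(PiM ι ℓ) =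
        ∫ X, Qa ℓ j' (f j) X * Qa ℓ j (f j') X ∂(PiM ι ℓ) := by
      rw [← hself j' _ _ (hTB j hj) (hfB j' hj'), hQQ j j' (f j) (hfB j hj),
        hself j _ _ (hQ j' _ (hfB j hj)) (hfB j' hj')]
    rw [e1]
    have h1 : ns ℓ (Qa ℓ j' (f j)) ≤ H ^ 2 * a j' := by
      rw [hmove j hj j' hj' hne]
      refine (hbd _ _ (hh j hj).1 (hav j _ (hQ j' w hw)) (hh j hj).2.1).trans ?_
      exact mul_le_mul_of_nonneg_left (hPle j _ (hQ j' w hw)) (sq_nonneg _)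
    have h2 : ns ℓ (Qa ℓ j (f j')) ≤ H ^ 2 * a j := by
      rw [hmove j' hj' j hj hne.symm]
      refine (hbd _ _ (hh j' hj').1 (hav j' _ (hQ j w hw)) (hh j' hj').2.1).trans ?_
      exact mul_le_mul_of_nonneg_left (hPle j' _ (hQ j w hw)) (sq_nonneg _)
    have h3 := hCS _ _ (hQ j' _ (hfB j hj)) (hQ j _ (hfB j' hj'))
    have h4 : ns ℓ (Qa ℓ j' (f j)) * ns ℓ (Qa ℓ j (f j')) ≤ (H ^ 2 * a j') * (H ^ 2 * a j) :=
      mul_le_mul h1 h2 (hns _ (hQ j _ (hfB j' hj'))) (mul_nonneg (sq_nonneg _) (ha0 j'))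
    have h5 : (H ^ 2 * a j') * (H ^ 2 * a j) ≤ (H ^ 2 * ((a j + a j') / 2)) ^ 2 := by
      have : 0 ≤ (H ^ 2) ^ 2 * (a j - a j') ^ 2 := by positivity
      nlinarith
    have h6 := h3.trans (h4.trans h5)
    exact le_of_sq_le_sq h6 (mul_nonneg (sq_nonneg _) (by linarith [ha0 j, ha0 j']))
  have hdiag : ∀ j ∈ J, ∫ X, Qa ℓ j (f j) X * Qa ℓ j (f j) X ∂(PiM ι ℓ) ≤ H ^ 2 * ns ℓ w := by
    intro j hj
    have e1 : ∫ X, Qa ℓ j (f j) X * Qa ℓ j (f j) X ∂(PiM ι ℓ) = ns ℓ (Qa ℓ j (f j)) := by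
      unfold ns
      congr 1
      funext X
      rw [sq]
    rw [e1]
    refine (hQle j _ (hfB j hj)).trans ?_
    refine (hbd _ _ (hh j hj).1 (hav j w hw) (hh j hj).2.1).trans ?_
    exact mul_le_mul_of_nonneg_left (hPle j w hw) (sq_nonneg _)
  -- expansion
  have e1 : ns ℓ (fun X => ∑ j ∈ J, Qa ℓ j (fun Y => h j Y * av ℓ j w Y) X) =
      ∑ j ∈ J, ∑ j' ∈ J, ∫ X, Qa ℓ j (f j) X * Qa ℓ j' (f j') X ∂(PiM ι ℓ) := by
    unfold ns
    have e2 : ∀ X : ι → E, (∑ j ∈ J, Qa ℓ j (fun Y => h j Y * av ℓ j w Y) X) ^ 2 =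
        ∑ j ∈ J, ∑ j' ∈ J, Qa ℓ j (f j) X * Qa ℓ j' (f j') X := by
      intro X
      rw [sq, Finset.sum_mul_sum]
    simp_rw [e2]
    rw [integral_finsetSum]
    · refine Finset.sum_congr rfl fun j hj => ?_
      rw [integral_finsetSum]
      intro j' hj'
      exact hint _ (hmul _ _ (hTB j hj) (hTB j' hj'))
    · intro j hj
      refine integrable_finsetSum _ fun j' hj' => ?_
      exact hint _ (hmul _ _ (hTB j hj) (hTB j' hj'))
  rw [e1]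
  have h1 : ∀ j ∈ J, ∀ j' ∈ J, ∫ X, Qa ℓ j (f j) X * Qa ℓ j' (f j') X ∂(PiM ι ℓ) ≤
      (if j' = j then H ^ 2 * ns ℓ w else 0) + H ^ 2 * ((a j + a j') / 2) := by
    intro j hj j' hj'
    split_ifs with hc
    · subst hc
      have h2 := hdiag j' hj
      have h3 : 0 ≤ H ^ 2 * ((a j' + a j') / 2) :=
        mul_nonneg (sq_nonneg _) (by linarith [ha0 j'])
      linarith
    · rw [zero_add]
      exact hoff j hj j' hj' hc
  refine (Finset.sum_le_sum fun j hj => Finset.sum_le_sum fun j' hj' => h1 j hj j' hj').trans ?_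
  have e3 : ∀ j ∈ J, ∑ j' ∈ J, ((if j' = j then H ^ 2 * ns ℓ w else 0) +
      H ^ 2 * ((a j + a j') / 2)) = H ^ 2 * ns ℓ w + H ^ 2 / 2 * (J.card * a j + ∑ j' ∈ J, a j') := by
    intro j hj
    rw [Finset.sum_add_distrib, Finset.sum_ite_eq' J j, if_pos hj]
    congr 1
    have : ∀ j' ∈ J, H ^ 2 * ((a j + a j') / 2) = H ^ 2 / 2 * a j + H ^ 2 / 2 * a j' := by
      intro j' _
      ring
    rw [Finset.sum_congr rfl this, Finset.sum_add_distrib, Finset.sum_const, nsmul_eq_mul,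
      ← Finset.mul_sum]
    ring
  rw [Finset.sum_congr rfl e3, Finset.sum_add_distrib, Finset.sum_const, nsmul_eq_mul,
    ← Finset.mul_sum, Finset.sum_add_distrib, ← Finset.mul_sum, Finset.sum_const, nsmul_eq_mul]
  apply le_of_eq
  ring

end Pool.Agent.TBL
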