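import Pool.Agent.TBL.Stmts

/-!
# Squad TBL (MP_80dc41_mp), module SFB: the soft potential
-/

set_option autoImplicit false

open MeasureTheory Filter Topology

namespace Pool.Agent.TBL

open Pool.Agent.TBG

namespace SFB_

/-- `(i,j,k) ↦ (i,k,j)` -/
def e1 (ι : Type) : (ι × ι × ι) ≃ (ι × ι × ι) where
  toFun t := (t.1, t.2.2, t.2.1)
  invFun t := (t.1, t.2.2, t.2.1)
  left_inv _ := rfl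
  right_inv _ := rfl

/-- `(i,j,k) ↦ (j,k,i)` -/
def e2 (ι : Type) : (ι × ι × ι) ≃ (ι × ι × ι) where
  toFun t := (t.2.1, t.2.2, t.1)
  invFun t := (t.2.2, t.1, t.2.1)
  left_inv _ := rfl
  right_inv _ := rfl

theorem mem_D3 {ι : Type} [Fintype ι] [DecidableEq ι] (t : ι × ι × ι) :
    t ∈ D3 ι ↔ t.1 ≠ t.2.1 ∧ t.1 ≠ t.2.2 ∧ t.2.1 ≠ t.2.2 := by
  unfold D3
  rw [Finset.mem_filter]
  simp

end SFB_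

open SFB_ in
theorem sfb_proof (hATF : Stmt_ATF) (hSFC : Stmt_SFC) (hSFD : Stmt_SFD) : Stmt_SFB := by
  intro ι _ _ ℓ hℓ g H gb u hg hsg hH hgb hu
  obtain ⟨d1, d2⟩ := hSFD ι ℓ hℓ g H u hg hH hu
  have sA1 : ∀ i j k : ι, A3 ℓ i j k u = A3 ℓ j i k u := fun i j k =>
    (hATF ι ℓ hℓ i j k u hu).2.2.2.2.1
  have sA2 : ∀ i j k : ι, A3 ℓ i j k u = A3 ℓ i k j u := fun i j k =>
    (hATF ι ℓ hℓ i j k u hu).2.2.2.2.2.1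
  set B : ℝ := (Fintype.card ι : ℝ) ^ 2 * H * (∑ i, ns ℓ (Qa ℓ i u) + 1 / 2 * ns ℓ u) with hB
  set f2 : ι × ι × ι → ℝ := fun t => ∫ X, Qa ℓ t.1 (Qa ℓ t.2.1 (av ℓ t.2.2 u)) X *
    g (X t.1) (X t.2.1) (X t.2.2) * A3 ℓ t.1 t.2.1 t.2.2 u X ∂(PiM ι ℓ) with hf2
  set f3 : ι × ι × ι → ℝ := fun t => ∫ X, Qa ℓ t.1 (Qa ℓ t.2.1 u) X *
    g (X t.1) (X t.2.1) (X t.2.2) * A3 ℓ t.1 t.2.1 t.2.2 u X ∂(PiM ι ℓ) with hf3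
  have hmain : ∑ t ∈ D3 ι, ∫ X, u X * g (X t.1) (X t.2.1) (X t.2.2) *
      A3 ℓ t.1 t.2.1 t.2.2 u X ∂(PiM ι ℓ) =
      gb * ∑ t ∈ D3 ι, ns ℓ (A3 ℓ t.1 t.2.1 t.2.2 u) + ∑ t ∈ D3 ι, f2 (e1 ι t) +
        ∑ t ∈ D3 ι, f2 (e2 ι t) + ∑ t ∈ D3 ι, f3 t := by
    rw [Finset.mul_sum, ← Finset.sum_add_distrib, ← Finset.sum_add_distrib,
      ← Finset.sum_add_distrib]
    refine Finset.sum_congr rfl fun t ht => ?_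
    obtain ⟨h1, h2, h3⟩ := (mem_D3 t).1 ht
    rw [hSFC ι ℓ hℓ g gb u t.1 t.2.1 t.2.2 h1 h2 h3 hg hsg hgb hu]
    have q1 : f2 (e1 ι t) = ∫ X, Qa ℓ t.1 (Qa ℓ t.2.2 (av ℓ t.2.1 u)) X *
        g (X t.1) (X t.2.1) (X t.2.2) * A3 ℓ t.1 t.2.1 t.2.2 u X ∂(PiM ι ℓ) := by
      show ∫ X, Qa ℓ t.1 (Qa ℓ t.2.2 (av ℓ t.2.1 u)) X *
        g (X t.1) (X t.2.2) (X t.2.1) * A3 ℓ t.1 t.2.2 t.2.1 u X ∂(PiM ι ℓ) = _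
      rw [sA2 t.1 t.2.2 t.2.1]
      congr 1
      funext X
      rw [hsg.s2 (X t.1) (X t.2.2) (X t.2.1)]
    have q2 : f2 (e2 ι t) = ∫ X, Qa ℓ t.2.1 (Qa ℓ t.2.2 (av ℓ t.1 u)) X *
        g (X t.1) (X t.2.1) (X t.2.2) * A3 ℓ t.1 t.2.1 t.2.2 u X ∂(PiM ι ℓ) := by
      show ∫ X, Qa ℓ t.2.1 (Qa ℓ t.2.2 (av ℓ t.1 u)) X *
        g (X t.2.1) (X t.2.2) (X t.1) * A3 ℓ t.2.1 t.2.2 t.1 u X ∂(PiM ι ℓ) = _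
      rw [sA2 t.2.1 t.2.2 t.1, sA1 t.2.1 t.1 t.2.2]
      congr 1
      funext X
      rw [hsg.s2 (X t.2.1) (X t.2.2) (X t.1), hsg.s1 (X t.2.1) (X t.1) (X t.2.2)]
    rw [q1, q2]
  have r1 : ∑ t ∈ D3 ι, f2 (e1 ι t) = ∑ t ∈ D3 ι, f2 t := by
    refine Finset.sum_equiv (e1 ι) (fun t => ?_) (fun t _ => rfl)
    rw [mem_D3, mem_D3]
    show _ ↔ t.1 ≠ t.2.2 ∧ t.1 ≠ t.2.1 ∧ t.2.2 ≠ t.2.1
    constructor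
    · rintro ⟨a, b, c⟩
      exact ⟨b, a, c.symm⟩
    · rintro ⟨a, b, c⟩
      exact ⟨b, a, c.symm⟩
  have r2 : ∑ t ∈ D3 ι, f2 (e2 ι t) = ∑ t ∈ D3 ι, f2 t := by
    refine Finset.sum_equiv (e2 ι) (fun t => ?_) (fun t _ => rfl)
    rw [mem_D3, mem_D3]
    show _ ↔ t.2.1 ≠ t.2.2 ∧ t.2.1 ≠ t.1 ∧ t.2.2 ≠ t.1
    constructor
    · rintro ⟨a, b, c⟩
      exact ⟨c, a.symm, b.symm⟩
    · rintro ⟨a, b, c⟩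
      exact ⟨b.symm, c.symm, a⟩
  rw [hmain, r1, r2]
  have h1 := (abs_le.1 d1).1
  have h2 := (abs_le.1 d2).1
  have h1' : -B ≤ ∑ t ∈ D3 ι, f3 t := h1
  have h2' : -B ≤ ∑ t ∈ D3 ι, f2 t := h2
  linarith

end Pool.Agent.TBL
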