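import Pool.Agent.TBL.Stmts

/-!
# Squad TBL (MP_80dc41_mp), module SFC: the soft potential, decomposition
-/

set_option autoImplicit false

open MeasureTheory Filter Topology

namespace Pool.Agent.TBL

open Pool.Agent.TBG

namespace SFC_

theorem add6 {α : Type} [MeasurableSpace α] {μ : Measure α} {F1 F2 F3 F4 F5 F6 : α → ℝ}
    (I1 : Integrable F1 μ) (I2 : Integrable F2 μ) (I3 : Integrable F3 μ) (I4 : Integrable F4 μ)
    (I5 : Integrable F5 μ) (I6 : Integrable F6 μ) :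
    ∫ X, (F1 X + F2 X + F3 X + F4 X + F5 X + F6 X) ∂μ =
      ∫ X, F1 X ∂μ + ∫ X, F2 X ∂μ + ∫ X, F3 X ∂μ + ∫ X, F4 X ∂μ + ∫ X, F5 X ∂μ
        + ∫ X, F6 X ∂μ := by
  have e : (fun X => F1 X + F2 X + F3 X + F4 X + F5 X + F6 X) =
      F1 + F2 + F3 + F4 + F5 + F6 := rfl
  rw [e, integral_add' ((((I1.add I2).add I3).add I4).add I5) I6,
    integral_add' (((I1.add I2).add I3).add I4) I5, integral_add' ((I1.add I2).add I3) I4,
    integral_add' (I1.add I2) I3, integral_add' I1 I2]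

end SFC_

theorem sfc_proof (hBMC : Stmt_BMC) (hMES : Stmt_MES) (hPQF : Stmt_PQF) (hAVA : Stmt_AVA)
    (hAVB : Stmt_AVB) (hATF : Stmt_ATF) (_hFAT : Stmt_FAT) : Stmt_SFC := by
  intro ι _ _ ℓ hℓ g gb u i j k hij hik hjk hg hs hmean hu
  obtain ⟨b1, b2, b3, b4, b5⟩ := hBMC
  have hprob : IsProbabilityMeasure (nuc ℓ) := (hMES ℓ hℓ).2.2.2.1
  have hprobP : IsProbabilityMeasure (PiM ι ℓ) := by
    unfold PiM
    infer_instance
  have hint : ∀ F : (ι → E) → ℝ, BM F → Integrable F (PiM ι ℓ) :=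
    fun F hF => (b1 _ F F hF hF).2.2.2.2.2.2 (PiM ι ℓ)
  have hmul : ∀ F G : (ι → E) → ℝ, BM F → BM G → BM (fun X => F X * G X) :=
    fun F G hF hG => (b1 _ F G hF hG).2.2.1
  have hav : ∀ (j : ι) (F : (ι → E) → ℝ), BM F → BM (av ℓ j F) := fun j F hF =>
    (hAVA ι ℓ hℓ j F hF).1
  have hQ : ∀ (j : ι) (F : (ι → E) → ℝ), BM F → BM (Qa ℓ j F) := fun j F hF =>
    (hPQF ι ℓ hℓ j F F hF hF).1
  have hself : ∀ (j : ι) (F G : (ι → E) → ℝ), BM F → BM G →
      ∫ X, av ℓ j F X * G X ∂(PiM ι ℓ) = ∫ X, F X * av ℓ j G X ∂(PiM ι ℓ) := fun j F G hF hG =>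
    (hPQF ι ℓ hℓ j F G hF hG).2.2.1
  obtain ⟨hA, hAi, hAj, hAk, hA1, hA2, -, -, hA3⟩ := hATF ι ℓ hℓ i j k u hu
  set A := A3 ℓ i j k u with hAdef
  set gX : (ι → E) → ℝ := fun X => g (X i) (X j) (X k) with hgX
  have hgB : BM gX := by
    refine b4 _ _ (fun p : E × E × E => g p.1 p.2.1 p.2.2) (fun X : ι → E => (X i, X j, X k)) hg ?_
    exact (measurable_pi_apply i).prodMk ((measurable_pi_apply j).prodMk (measurable_pi_apply k))
  -- averages of `g`
  have hm2 : ∀ y, ∫ x, ∫ z, g x y z ∂(nuc ℓ) ∂(nuc ℓ) = gb := fun y => by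
    rw [← hmean y]
    refine integral_congr_ae (Filter.Eventually.of_forall fun x => ?_)
    exact integral_congr_ae (Filter.Eventually.of_forall fun z => hs.s1 x y z)
  have hm3 : ∀ z, ∫ x, ∫ y, g x y z ∂(nuc ℓ) ∂(nuc ℓ) = gb := fun z => by
    rw [← hm2 z]
    refine integral_congr_ae (Filter.Eventually.of_forall fun x => ?_)
    exact integral_congr_ae (Filter.Eventually.of_forall fun y => hs.s2 x y z)
  have av_jk : av ℓ j (av ℓ k gX) = fun _ => gb := by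
    funext X
    rw [← hmean (X i)]
    show ∫ y, ∫ z, gX (Function.update (Function.update X j y) k z) ∂(nuc ℓ) ∂(nuc ℓ) = _
    refine integral_congr_ae (Filter.Eventually.of_forall fun y => ?_)
    refine integral_congr_ae (Filter.Eventually.of_forall fun z => ?_)
    simp only [hgX]
    rw [Function.update_of_ne hik, Function.update_of_ne hij, Function.update_of_ne hjk,
      Function.update_self, Function.update_self]
  have av_ik : av ℓ i (av ℓ k gX) = fun _ => gb := by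
    funext X
    rw [← hm2 (X j)]
    show ∫ y, ∫ z, gX (Function.update (Function.update X i y) k z) ∂(nuc ℓ) ∂(nuc ℓ) = _
    refine integral_congr_ae (Filter.Eventually.of_forall fun y => ?_)
    refine integral_congr_ae (Filter.Eventually.of_forall fun z => ?_)
    simp only [hgX]
    rw [Function.update_of_ne hik, Function.update_self, Function.update_of_ne hjk,
      Function.update_of_ne hij.symm, Function.update_self]
  have av_ij : av ℓ i (av ℓ j gX) = fun _ => gb := by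
    funext X
    rw [← hm3 (X k)]
    show ∫ y, ∫ z, gX (Function.update (Function.update X i y) j z) ∂(nuc ℓ) ∂(nuc ℓ) = _
    refine integral_congr_ae (Filter.Eventually.of_forall fun y => ?_)
    refine integral_congr_ae (Filter.Eventually.of_forall fun z => ?_)
    simp only [hgX]
    rw [Function.update_of_ne hij, Function.update_self, Function.update_self,
      Function.update_of_ne hjk.symm, Function.update_of_ne hik.symm]
  -- decomposition of `u`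
  have dec : ∀ (l : ι) (F : (ι → E) → ℝ) (X : ι → E), F X = av ℓ l F X + Qa ℓ l F X := by
    intro l F X
    unfold Qa
    ring
  have avQ : ∀ (i' j' : ι) (F : (ι → E) → ℝ), BM F →
      av ℓ j' (Qa ℓ i' F) = Qa ℓ i' (av ℓ j' F) :=
    fun i' j' F hF => (hPQF ι ℓ hℓ i' F F hF hF).2.2.2.2.2.2.2.2.1 j'
  have QQ' : ∀ (i' j' : ι) (F : (ι → E) → ℝ), BM F →
      Qa ℓ j' (Qa ℓ i' F) = Qa ℓ i' (Qa ℓ j' F) :=
    fun i' j' F hF => (hPQF ι ℓ hℓ i' F F hF hF).2.2.2.2.2.2.2.2.2.2.2.1 j'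
  have avav : ∀ (i' j' : ι) (F : (ι → E) → ℝ), BM F →
      av ℓ i' (av ℓ j' F) = av ℓ j' (av ℓ i' F) :=
    fun i' j' F hF => (hAVA ι ℓ hℓ i' F hF).2.2.2.1 j'
  -- moving two averages: `∫ P_a P_b F g A = gb ∫ F A` 
  have mul1 : ∀ (l : ι) (F G : (ι → E) → ℝ), Ind l G →
      av ℓ l (fun X => G X * F X) = fun X => G X * av ℓ l F X :=
    fun l F G hG => (hAVB ι ℓ hℓ l).2.2.1 F G hG
  have move : ∀ (a b : ι) (F : (ι → E) → ℝ), BM F → Ind a A → Ind b A →
      av ℓ b (av ℓ a gX) = (fun _ => gb) →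
      ∫ X, av ℓ a (av ℓ b F) X * gX X * A X ∂(PiM ι ℓ) = gb * ∫ X, F X * A X ∂(PiM ι ℓ) := by
    intro a b F hF ha hb hgb
    have e1 : ∫ X, av ℓ a (av ℓ b F) X * gX X * A X ∂(PiM ι ℓ) =
        ∫ X, av ℓ a (av ℓ b F) X * (A X * gX X) ∂(PiM ι ℓ) := by
      congr 1
      funext X
      ring
    rw [e1, hself a _ _ (hav b F hF) (hmul _ _ hA hgB), mul1 a gX A ha,
      hself b _ _ hF (hmul _ _ hA (hav a _ hgB)), mul1 b _ A hb, hgb, ← integral_const_mul]
    congr 1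
    funext X
    ring
  -- the constants
  have hAA : ∀ l, Ind l A → av ℓ l A = A := fun l hl => (hAVB ι ℓ hℓ l).2.2.2.1 A hl
  have zeroQ : ∀ (l : ι) (F : (ι → E) → ℝ), BM F → Ind l A →
      ∫ X, Qa ℓ l F X * A X ∂(PiM ι ℓ) = 0 := by
    intro l F hF hl
    rw [(hPQF ι ℓ hℓ l F A hF hA).2.2.2.1]
    have e1 : Qa ℓ l A = fun _ => 0 := by
      funext X
      unfold Qa
      rw [hAA l hl, sub_self]
    rw [e1]
    simp
  -- the five terms
  have hBMprod : ∀ F : (ι → E) → ℝ, BM F → BM (fun X => F X * gX X * A X) :=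
    fun F hF => hmul _ _ (hmul _ _ hF hgB) hA
  have T0 : ∫ X, av ℓ j (av ℓ i u) X * gX X * A X ∂(PiM ι ℓ) = gb * ns ℓ A := by
    rw [move j i u hu hAj hAi av_ij, hA3]
  have T1 : ∫ X, Qa ℓ i (av ℓ k (av ℓ j u)) X * gX X * A X ∂(PiM ι ℓ) = 0 := by
    rw [← avQ i k _ (hav j u hu), ← avQ i j u hu,
      move k j _ (hQ i u hu) hAk hAj av_jk, zeroQ i u hu hAi, mul_zero]
  have T2 : ∫ X, Qa ℓ j (av ℓ k (av ℓ i u)) X * gX X * A X ∂(PiM ι ℓ) = 0 := by
    rw [← avQ j k _ (hav i u hu), ← avQ j i u hu,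
      move k i _ (hQ j u hu) hAk hAi av_ik, zeroQ j u hu hAj, mul_zero]
  -- pointwise decomposition
  have key : ∀ X, u X * gX X * A X =
      av ℓ j (av ℓ i u) X * gX X * A X
      + Qa ℓ i (av ℓ k (av ℓ j u)) X * gX X * A X
      + Qa ℓ j (av ℓ k (av ℓ i u)) X * gX X * A X
      + Qa ℓ i (Qa ℓ k (av ℓ j u)) X * gX X * A X
      + Qa ℓ j (Qa ℓ k (av ℓ i u)) X * gX X * A X
      + Qa ℓ i (Qa ℓ j u) X * gX X * A X := by
    intro X
    have e1 : u X = av ℓ j u X + Qa ℓ j u X := dec j u X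
    have e2 : av ℓ j u X = av ℓ i (av ℓ j u) X + Qa ℓ i (av ℓ j u) X := dec i _ X
    have e3 : Qa ℓ j u X = av ℓ i (Qa ℓ j u) X + Qa ℓ i (Qa ℓ j u) X := dec i _ X
    have e4 : Qa ℓ i (av ℓ j u) X =
        av ℓ k (Qa ℓ i (av ℓ j u)) X + Qa ℓ k (Qa ℓ i (av ℓ j u)) X := dec k _ X
    have e5 : av ℓ i (Qa ℓ j u) X =
        av ℓ k (av ℓ i (Qa ℓ j u)) X + Qa ℓ k (av ℓ i (Qa ℓ j u)) X := dec k _ X
    rw [avQ i k _ (hav j u hu), QQ' i k _ (hav j u hu)] at e4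
    rw [avQ j i u hu, avQ j k _ (hav i u hu), QQ' j k _ (hav i u hu)] at e5
    rw [avav i j u hu] at e2
    have e5' : av ℓ i (Qa ℓ j u) X =
        Qa ℓ j (av ℓ k (av ℓ i u)) X + Qa ℓ j (Qa ℓ k (av ℓ i u)) X := by
      rw [avQ j i u hu]
      exact e5
    rw [e1, e2, e3, e4, e5']
    ring
  have I1 := hint _ (hBMprod _ (hav j _ (hav i u hu)))
  have I2 := hint _ (hBMprod _ (hQ i _ (hav k _ (hav j u hu))))
  have I3 := hint _ (hBMprod _ (hQ j _ (hav k _ (hav i u hu))))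
  have I4 := hint _ (hBMprod _ (hQ i _ (hQ k _ (hav j u hu))))
  have I5 := hint _ (hBMprod _ (hQ j _ (hQ k _ (hav i u hu))))
  have I6 := hint _ (hBMprod _ (hQ i _ (hQ j u hu)))
  have e : ∫ X, u X * g (X i) (X j) (X k) * A X ∂(PiM ι ℓ) =
      ∫ X, (av ℓ j (av ℓ i u) X * gX X * A X
      + Qa ℓ i (av ℓ k (av ℓ j u)) X * gX X * A X
      + Qa ℓ j (av ℓ k (av ℓ i u)) X * gX X * A X
      + Qa ℓ i (Qa ℓ k (av ℓ j u)) X * gX X * A X
      + Qa ℓ j (Qa ℓ k (av ℓ i u)) X * gX X * A X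
      + Qa ℓ i (Qa ℓ j u) X * gX X * A X) ∂(PiM ι ℓ) :=
    integral_congr_ae (Filter.Eventually.of_forall key)
  rw [e, SFC_.add6 I1 I2 I3 I4 I5 I6, T0, T1, T2]
  simp only [add_zero]
  rfl

end Pool.Agent.TBL
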