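import Pool.Agent.TBL.Stmts

set_option autoImplicit false

open MeasureTheory Filter Topology
open scoped ContDiff

namespace Pool.Agent.TBL

open Pool.Agent.TBG

namespace SFD_

theorem core (hBMC : Stmt_BMC) (hPQF : Stmt_PQF) (hAVA : Stmt_AVA) (hATF : Stmt_ATF)
    (hSFA : Stmt_SFA) (hMEP : Stmt_MEP)
    {ι : Type} [Fintype ι] [DecidableEq ι] {ℓ : ℝ} (hℓ : 0 < ℓ) (g : E → E → E → ℝ) (H : ℝ)
    (u v : (ι → E) → ℝ) (hg : BM3 g) (hH : ∀ x y z, |g x y z| ≤ H) (hu : BM u) (hv : BM v)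
    (i k : ι) (hvu : ns ℓ (Qa ℓ i v) ≤ ns ℓ (Qa ℓ i u)) :
    (∑ j ∈ Finset.univ.filter (fun j => i ≠ j ∧ j ≠ k),
      ∫ X, Qa ℓ i (Qa ℓ j v) X * g (X i) (X j) (X k) * A3 ℓ i j k u X ∂(PiM ι ℓ)) ^ 2 ≤
    ns ℓ (Qa ℓ i u) * (H ^ 2 * (Fintype.card ι : ℝ) * (ns ℓ u + ∑ j, ns ℓ (Qa ℓ j u))) := by
  classical
  obtain ⟨hB1, -, hBsum, hBcomp, -⟩ := hBMC
  have hprob : IsProbabilityMeasure (PiM ι ℓ) := (hMEP ι ℓ hℓ).1
  have hH0 : 0 ≤ H := (abs_nonneg _).trans (hH 0 0 0)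
  set J := Finset.univ.filter (fun j => i ≠ j ∧ j ≠ k) with hJ
  set w := av ℓ i (av ℓ k u) with hw
  have bmk : BM (av ℓ k u) := (hAVA ι ℓ hℓ k u hu).1
  have bmw : BM w := (hAVA ι ℓ hℓ i _ bmk).1
  set h : ι → (ι → E) → ℝ := fun j X => g (X i) (X j) (X k) with hh
  have bmh : ∀ j, BM (h j) := by
    intro j
    exact hBcomp (E × E × E) (ι → E) (fun p => g p.1 p.2.1 p.2.2) (fun X => (X i, X j, X k)) hg
      (by fun_prop)
  have hA3 : ∀ j, A3 ℓ i j k u = av ℓ j w := fun j => (hATF ι ℓ hℓ i j k u hu).2.2.2.2.1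
  have bmavw : ∀ j, BM (av ℓ j w) := fun j => (hAVA ι ℓ hℓ j w bmw).1
  have bmG : ∀ j, BM (fun Y => h j Y * av ℓ j w Y) := fun j =>
    (hB1 _ _ _ (bmh j) (bmavw j)).2.2.1
  have bmQiv : BM (Qa ℓ i v) := (hPQF ι ℓ hℓ i v v hv hv).1
  have bmQG : ∀ j, BM (Qa ℓ j (fun Y => h j Y * av ℓ j w Y)) := fun j =>
    (hPQF ι ℓ hℓ j _ _ (bmG j) (bmG j)).1
  -- each term
  have hterm : ∀ j, ∫ X, Qa ℓ i (Qa ℓ j v) X * g (X i) (X j) (X k) * A3 ℓ i j k u X ∂(PiM ι ℓ) =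
      ∫ X, Qa ℓ i v X * Qa ℓ j (fun Y => h j Y * av ℓ j w Y) X ∂(PiM ι ℓ) := by
    intro j
    have h1 := (hPQF ι ℓ hℓ j (Qa ℓ i v) (fun Y => h j Y * av ℓ j w Y) bmQiv (bmG j)).2.2.2.1
    rw [← h1]
    have h2 := (hPQF ι ℓ hℓ j v v hv hv).2.2.2.2.2.2.2.2.2.2.2.1 i
    rw [h2, hA3 j]
    apply integral_congr_ae
    filter_upwards with X
    simp only [hh]
    ring
  have hsum : ∑ j ∈ J, ∫ X, Qa ℓ i (Qa ℓ j v) X * g (X i) (X j) (X k) * A3 ℓ i j k u X ∂(PiM ι ℓ) =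
      ∫ X, Qa ℓ i v X * (∑ j ∈ J, Qa ℓ j (fun Y => h j Y * av ℓ j w Y) X) ∂(PiM ι ℓ) := by
    rw [Finset.sum_congr rfl (fun j _ => hterm j)]
    rw [← integral_finsetSum]
    · apply integral_congr_ae
      filter_upwards with X
      rw [Finset.mul_sum]
    · intro j _
      have := (hB1 _ _ _ bmQiv (bmQG j)).2.2.1
      exact (hB1 _ _ _ this this).2.2.2.2.2.2 (PiM ι ℓ)
  rw [hsum]
  have bmS : BM (fun X => ∑ j ∈ J, Qa ℓ j (fun Y => h j Y * av ℓ j w Y) X) :=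
    hBsum (ι → E) ι J _ (fun j _ => bmQG j)
  have hCS := (hPQF ι ℓ hℓ i (Qa ℓ i v) (fun X => ∑ j ∈ J, Qa ℓ j (fun Y => h j Y * av ℓ j w Y) X)
    bmQiv bmS).2.2.2.2.2.2.2.2.2.2.2.2
  refine hCS.trans ?_
  have hns0 : ∀ F : (ι → E) → ℝ, BM F → 0 ≤ ns ℓ F := fun F hF => (hPQF ι ℓ hℓ i F F hF hF).2.1
  have hQ0 : ∀ j, 0 ≤ ns ℓ (Qa ℓ j u) := fun j => hns0 _ (hPQF ι ℓ hℓ j u u hu hu).1
  have hSF := hSFA ι ℓ hℓ J h w H hH0 bmw (by
    intro j hj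
    refine ⟨bmh j, fun X => hH _ _ _, ?_⟩
    intro j' hj' hne X y
    rw [hJ, Finset.mem_filter] at hj hj'
    simp only [hh]
    rw [Function.update_of_ne (fun h => hj'.2.1 h), Function.update_of_ne hne.symm,
      Function.update_of_ne (fun h => hj'.2.2 h.symm)])
  have hw1 : ns ℓ w ≤ ns ℓ u := by
    have h1 := (hPQF ι ℓ hℓ i (av ℓ k u) u bmk hu).2.2.2.2.2.1
    have h2 := (hPQF ι ℓ hℓ k u u hu hu).2.2.2.2.2.1
    exact h1.trans h2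
  have hw2 : ∀ j, ns ℓ (Qa ℓ j w) ≤ ns ℓ (Qa ℓ j u) := by
    intro j
    have h1 := (hPQF ι ℓ hℓ i (av ℓ k u) u bmk hu).2.2.2.2.2.2.2.2.2.1 j
    have h2 := (hPQF ι ℓ hℓ k u u hu hu).2.2.2.2.2.2.2.2.2.1 j
    exact h1.trans h2
  have hcard : (J.card : ℝ) ≤ Fintype.card ι := by
    have : J.card ≤ Fintype.card ι := Finset.card_le_univ J
    exact_mod_cast this
  have hSF2 : ns ℓ (fun X => ∑ j ∈ J, Qa ℓ j (fun Y => h j Y * av ℓ j w Y) X) ≤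
      H ^ 2 * (Fintype.card ι : ℝ) * (ns ℓ u + ∑ j, ns ℓ (Qa ℓ j u)) := by
    refine hSF.trans ?_
    have h1 : ∑ j ∈ J, ns ℓ (Qa ℓ j w) ≤ ∑ j, ns ℓ (Qa ℓ j u) := by
      calc ∑ j ∈ J, ns ℓ (Qa ℓ j w) ≤ ∑ j ∈ J, ns ℓ (Qa ℓ j u) :=
            Finset.sum_le_sum (fun j _ => hw2 j)
        _ ≤ _ := Finset.sum_le_sum_of_subset_of_nonneg (Finset.subset_univ _)
            (fun j _ _ => hQ0 j)
    have h2 : 0 ≤ ns ℓ w + ∑ j ∈ J, ns ℓ (Qa ℓ j w) := by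
      have h3 := hns0 w bmw
      have h4 : 0 ≤ ∑ j ∈ J, ns ℓ (Qa ℓ j w) :=
        Finset.sum_nonneg (fun j _ => hns0 _ (hPQF ι ℓ hℓ j w w bmw bmw).1)
      linarith
    apply mul_le_mul
    · exact mul_le_mul_of_nonneg_left hcard (by positivity)
    · linarith
    · exact h2
    · exact mul_nonneg (sq_nonneg _) (Nat.cast_nonneg _)
  have hSns : 0 ≤ ns ℓ (fun X => ∑ j ∈ J, Qa ℓ j (fun Y => h j Y * av ℓ j w Y) X) := hns0 _ bmS
  exact mul_le_mul hvu hSF2 hSns (hQ0 i)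

/-- from the bound for fixed `i`, `k` to the sum over the triples -/
theorem total {ι : Type} [Fintype ι] [DecidableEq ι] (f : ι → ι → ι → ℝ) (a : ι → ℝ) (H U : ℝ)
    (hH : 0 ≤ H) (hU : 0 ≤ U) (ha : ∀ i, 0 ≤ a i)
    (hf : ∀ i k, (∑ j ∈ Finset.univ.filter (fun j => i ≠ j ∧ j ≠ k), f i j k) ^ 2 ≤
      a i * (H ^ 2 * (Fintype.card ι : ℝ) * (U + ∑ j, a j))) :
    |∑ t ∈ D3 ι, f t.1 t.2.1 t.2.2| ≤ (Fintype.card ι : ℝ) ^ 2 * H * (∑ i, a i + 1 / 2 * U) := by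
  classical
  set n : ℝ := (Fintype.card ι : ℝ) with hn
  set Np := ∑ i, a i with hNp
  have hNp0 : 0 ≤ Np := Finset.sum_nonneg (fun i _ => ha i)
  set S : ι → ι → ℝ := fun i k => ∑ j, if (i ≠ j ∧ i ≠ k ∧ j ≠ k) then f i j k else 0 with hS
  have hsum : ∑ t ∈ D3 ι, f t.1 t.2.1 t.2.2 = ∑ p : ι × ι, S p.1 p.2 := by
    rw [D3, Finset.sum_filter, Fintype.sum_prod_type, Fintype.sum_prod_type]
    apply Finset.sum_congr rfl
    intro i _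
    rw [Fintype.sum_prod_type]
    simp only [hS]
    rw [Finset.sum_comm]
  have hS2 : ∀ i k, (S i k) ^ 2 ≤ a i * (H ^ 2 * n * (U + Np)) := by
    intro i k
    by_cases hik : i = k
    · have : S i k = 0 := by
        simp only [hS]
        apply Finset.sum_eq_zero
        intro j _
        rw [if_neg]
        rintro ⟨-, h, -⟩
        exact h hik
      rw [this]
      have h1 : 0 ≤ H ^ 2 * n * (U + Np) :=
        mul_nonneg (mul_nonneg (sq_nonneg _) (by positivity)) (by linarith)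
      have h2 := mul_nonneg (ha i) h1
      linarith
    · have : S i k = ∑ j ∈ Finset.univ.filter (fun j => i ≠ j ∧ j ≠ k), f i j k := by
        simp only [hS]
        rw [Finset.sum_filter]
        apply Finset.sum_congr rfl
        intro j _
        have : (i ≠ j ∧ i ≠ k ∧ j ≠ k) ↔ (i ≠ j ∧ j ≠ k) := by tauto
        simp only [this]
      rw [this]
      exact hf i k
  rw [hsum]
  apply abs_le_of_sq_le_sq
  · have h1 : (∑ p : ι × ι, S p.1 p.2) ^ 2 ≤ (Fintype.card (ι × ι) : ℝ) * ∑ p : ι × ι, (S p.1 p.2) ^ 2 := by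
      have := sq_sum_le_card_mul_sum_sq (s := (Finset.univ : Finset (ι × ι))) (f := fun p => S p.1 p.2)
      simpa using this
    have h2 : ∑ p : ι × ι, (S p.1 p.2) ^ 2 ≤ n * Np * (H ^ 2 * n * (U + Np)) := by
      calc ∑ p : ι × ι, (S p.1 p.2) ^ 2 ≤ ∑ p : ι × ι, a p.1 * (H ^ 2 * n * (U + Np)) :=
            Finset.sum_le_sum (fun p _ => hS2 p.1 p.2)
        _ = (∑ i : ι, ∑ _k : ι, a i) * (H ^ 2 * n * (U + Np)) := by
            rw [← Finset.sum_mul, Fintype.sum_prod_type]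
        _ = _ := by
            congr 1
            simp only [Finset.sum_const, Finset.card_univ, nsmul_eq_mul]
            rw [← Finset.mul_sum]
    have h3 : (Fintype.card (ι × ι) : ℝ) = n ^ 2 := by
      rw [Fintype.card_prod]
      push_cast
      ring
    rw [h3] at h1
    have hn0 : 0 ≤ n := by positivity
    calc (∑ p : ι × ι, S p.1 p.2) ^ 2 ≤ n ^ 2 * (n * Np * (H ^ 2 * n * (U + Np))) :=
          h1.trans (mul_le_mul_of_nonneg_left h2 (by positivity))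
      _ = (n ^ 2 * H) ^ 2 * (Np * (U + Np)) := by ring
      _ ≤ (n ^ 2 * H) ^ 2 * (Np + 1 / 2 * U) ^ 2 := by
          apply mul_le_mul_of_nonneg_left _ (by positivity)
          nlinarith [sq_nonneg U]
      _ = _ := by ring
  · positivity

end SFD_

/-- extra hypothesis at the end: MEP -/
theorem sfd_proof (hBMC : Stmt_BMC) (hPQF : Stmt_PQF) (hAVA : Stmt_AVA) (_hAVB : Stmt_AVB)
    (hATF : Stmt_ATF) (hSFA : Stmt_SFA) (hMEP : Stmt_MEP) : Stmt_SFD := by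
  intro ι _ _ ℓ hℓ g H u hg hH hu
  have hH0 : 0 ≤ H := (abs_nonneg _).trans (hH 0 0 0)
  have hU0 : 0 ≤ ns ℓ u := integral_nonneg (fun X => sq_nonneg _)
  have ha0 : ∀ i : ι, 0 ≤ ns ℓ (Qa ℓ i u) := fun i => integral_nonneg (fun X => sq_nonneg _)
  constructor
  · exact SFD_.total (fun i j k => ∫ X, Qa ℓ i (Qa ℓ j u) X * g (X i) (X j) (X k) *
      A3 ℓ i j k u X ∂(PiM ι ℓ)) (fun i => ns ℓ (Qa ℓ i u)) H (ns ℓ u) hH0 hU0 ha0
      (fun i k => SFD_.core hBMC hPQF hAVA hATF hSFA hMEP hℓ g H u u hg hH hu hu i k le_rfl)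
  · exact SFD_.total (fun i j k => ∫ X, Qa ℓ i (Qa ℓ j (av ℓ k u)) X * g (X i) (X j) (X k) *
      A3 ℓ i j k u X ∂(PiM ι ℓ)) (fun i => ns ℓ (Qa ℓ i u)) H (ns ℓ u) hH0 hU0 ha0
      (fun i k => SFD_.core hBMC hPQF hAVA hATF hSFA hMEP hℓ g H u (av ℓ k u) hg hH hu
        ((hAVA ι ℓ hℓ k u hu).1) i k ((hPQF ι ℓ hℓ k u u hu hu).2.2.2.2.2.2.2.2.2.1 i))

end Pool.Agent.TBL
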