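import Pool.Agent.TBL.Stmts

/-!
# Three-body Bose gases, lower bound: module SFK (the soft potential of a kernel)
-/

set_option autoImplicit false

open MeasureTheory Filter Topology
open scoped ContDiff

namespace Pool.Agent.TBL

open Pool.Agent.TBG

namespace SFK_

open Classical in
/-- the kernel `g` on the cube, constant elsewhere -/
noncomputable def g1 (ℓ a : ℝ) (g : E → E → E → ℝ) (x y z : E) : ℝ :=
  if x ∈ Lam ℓ ∧ y ∈ Lam ℓ ∧ z ∈ Lam ℓ then g x y z else a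

theorem g1_in {ℓ a : ℝ} {g : E → E → E → ℝ} {x y z : E} (hx : x ∈ Lam ℓ) (hy : y ∈ Lam ℓ)
    (hz : z ∈ Lam ℓ) : g1 ℓ a g x y z = g x y z := by
  rw [g1, if_pos ⟨hx, hy, hz⟩]

theorem g1_sy {ℓ a : ℝ} {g : E → E → E → ℝ} (hg : Sy3 g) : Sy3 (g1 ℓ a g) := by
  constructor
  · intro x y z
    by_cases h : x ∈ Lam ℓ ∧ y ∈ Lam ℓ ∧ z ∈ Lam ℓ
    · have h' : y ∈ Lam ℓ ∧ x ∈ Lam ℓ ∧ z ∈ Lam ℓ := ⟨h.2.1, h.1, h.2.2⟩
      rw [g1, g1, if_pos h, if_pos h']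
      exact hg.s1 x y z
    · have h' : ¬ (y ∈ Lam ℓ ∧ x ∈ Lam ℓ ∧ z ∈ Lam ℓ) := fun k => h ⟨k.2.1, k.1, k.2.2⟩
      rw [g1, g1, if_neg h, if_neg h']
  · intro x y z
    by_cases h : x ∈ Lam ℓ ∧ y ∈ Lam ℓ ∧ z ∈ Lam ℓ
    · have h' : x ∈ Lam ℓ ∧ z ∈ Lam ℓ ∧ y ∈ Lam ℓ := ⟨h.1, h.2.2, h.2.1⟩
      rw [g1, g1, if_pos h, if_pos h']
      exact hg.s2 x y z
    · have h' : ¬ (x ∈ Lam ℓ ∧ z ∈ Lam ℓ ∧ y ∈ Lam ℓ) := fun k => h ⟨k.1, k.2.2, k.2.1⟩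
      rw [g1, g1, if_neg h, if_neg h']

theorem g1_meas {ℓ a : ℝ} {g : E → E → E → ℝ} (hL : MeasurableSet (Lam ℓ))
    (hg : Measurable (fun p : E × E × E => g p.1 p.2.1 p.2.2)) :
    Measurable (fun p : E × E × E => g1 ℓ a g p.1 p.2.1 p.2.2) := by
  have hset : MeasurableSet {p : E × E × E | p.1 ∈ Lam ℓ ∧ p.2.1 ∈ Lam ℓ ∧ p.2.2 ∈ Lam ℓ} := by
    apply MeasurableSet.inter
    · exact measurable_fst hL
    · apply MeasurableSet.inter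
      · exact (measurable_fst.comp measurable_snd) hL
      · exact (measurable_snd.comp measurable_snd) hL
  unfold g1
  exact Measurable.ite hset hg measurable_const

end SFK_

open SFK_ in
theorem sfk_proof (_hBMC : Stmt_BMC) (hMES : Stmt_MES) (hMEP : Stmt_MEP) (_hAVA : Stmt_AVA)
    (_hATF : Stmt_ATF) (hSFB : Stmt_SFB) : Stmt_SFK := by
  intro ι _ _ V ℓ C b φ w q g u hℓ hC hb hK hu
  obtain ⟨hLm, -, -, hP, -, hae, -, -⟩ := hMES ℓ hℓ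
  obtain ⟨-, haeP, -⟩ := hMEP ι ℓ hℓ
  have hae' : ∀ᵐ x ∂(nuc ℓ), x ∈ Lam ℓ := hae.mono fun x h => h.1
  have h6 : 0 < ℓ ^ 6 := pow_pos hℓ 6
  have h0 : (0 : E) ∈ Lam ℓ := by
    intro c
    simp [hℓ.le]
  -- `b ≤ C`
  have hbC : b / ℓ ^ 6 ≤ C / ℓ ^ 6 := by
    rw [← hK.gmean 0 h0]
    refine (le_abs_self _).trans ?_
    rw [← Real.norm_eq_abs]
    have h1 : ∀ᵐ y ∂(nuc ℓ), ‖∫ z, g 0 y z ∂(nuc ℓ)‖ ≤ C / ℓ ^ 6 := by
      filter_upwards [hae'] with y hy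
      have h2 : ∀ᵐ z ∂(nuc ℓ), ‖g 0 y z‖ ≤ C / ℓ ^ 6 := by
        filter_upwards [hae'] with z hz
        exact hK.gb 0 h0 y hy z hz
      have h3 := norm_integral_le_of_norm_le_const h2
      rwa [probReal_univ, mul_one] at h3
    have h3 := norm_integral_le_of_norm_le_const h1
    rwa [probReal_univ, mul_one] at h3
  -- the bound
  have hbd : ∀ x y z, |g1 ℓ (b / ℓ ^ 6) g x y z| ≤ C / ℓ ^ 6 := by
    intro x y z
    by_cases h : x ∈ Lam ℓ ∧ y ∈ Lam ℓ ∧ z ∈ Lam ℓ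
    · rw [g1, if_pos h]
      exact hK.gb x h.1 y h.2.1 z h.2.2
    · rw [g1, if_neg h, abs_of_pos (by positivity)]
      exact hbC
  -- the means
  have hmean : ∀ x, ∫ y, ∫ z, g1 ℓ (b / ℓ ^ 6) g x y z ∂(nuc ℓ) ∂(nuc ℓ) = b / ℓ ^ 6 := by
    intro x
    by_cases hx : x ∈ Lam ℓ
    · rw [← hK.gmean x hx]
      apply integral_congr_ae
      filter_upwards [hae'] with y hy
      apply integral_congr_ae
      filter_upwards [hae'] with z hz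
      exact g1_in hx hy hz
    · have h1 : ∀ y z, g1 ℓ (b / ℓ ^ 6) g x y z = b / ℓ ^ 6 := by
        intro y z
        rw [g1, if_neg fun h => hx h.1]
      simp only [h1, integral_const, probReal_univ, one_smul]
  have hBM : BM3 (g1 ℓ (b / ℓ ^ 6) g) := ⟨g1_meas hLm hK.bg.1, C / ℓ ^ 6, fun p => hbd _ _ _⟩
  have key := hSFB ι ℓ hℓ (g1 ℓ (b / ℓ ^ 6) g) (C / ℓ ^ 6) (b / ℓ ^ 6) u hBM (g1_sy hK.syg) hbd
    hmean hu
  refine key.trans (le_of_eq ?_)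
  apply Finset.sum_congr rfl
  intro t _
  apply integral_congr_ae
  filter_upwards [haeP] with X hX
  rw [g1_in (hX t.1).1 (hX t.2.1).1 (hX t.2.2).1]

end Pool.Agent.TBL
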