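import Pool.Agent.TBL.Stmts

/-!
# Three-body Bose gases (MP_80dc41_mp), lower bound: slices
-/

set_option autoImplicit false
set_option linter.unusedSectionVars false

open MeasureTheory Filter Topology
open scoped ContDiff

namespace Pool.Agent.TBL

open Pool.Agent.TBG

namespace SLI_

variable {ι : Type} [Fintype ι] [DecidableEq ι]

theorem bm_of (u : (ι → E) → ℝ) (hc : Continuous u) (hs : HasCompactSupport u) : BM u := by
  refine ⟨hc.measurable, ?_⟩
  obtain ⟨C, hC⟩ := hs.exists_bound_of_continuous hc
  exact ⟨C, fun X => by simpa [Real.norm_eq_abs] using hC X⟩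

theorem hasFDerivAt_update (X : ι → E) (i : ι) (x : E) :
    HasFDerivAt (fun x => Function.update X i x) (ContinuousLinearMap.single ℝ (fun _ : ι => E) i) x := by
  rw [hasFDerivAt_pi']
  intro j
  by_cases h : j = i
  · subst h
    have e1 : (fun x => Function.update X j x j) = fun x : E => x := by
      funext x; simp
    have e2 : (ContinuousLinearMap.proj j).comp (ContinuousLinearMap.single ℝ (fun _ : ι => E) j) =
        ContinuousLinearMap.id ℝ E := by
      ext v
      simp
    rw [e1, e2]
    exact hasFDerivAt_id x
  · have e1 : (fun x => Function.update X i x j) = fun _ : E => X j := by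
      funext x; simp [h]
    have e2 : (ContinuousLinearMap.proj j).comp (ContinuousLinearMap.single ℝ (fun _ : ι => E) i) =
        (0 : E →L[ℝ] E) := by
      ext v
      simp [h]
    rw [e1, e2]
    exact hasFDerivAt_const _ x

theorem contDiff_update (X : ι → E) (i : ι) : ContDiff ℝ 1 (fun x : E => Function.update X i x) := by
  rw [contDiff_pi]
  intro j
  by_cases h : j = i
  · subst h
    have e1 : (fun x => Function.update X j x j) = fun x : E => x := by
      funext x; simp
    rw [e1]
    exact contDiff_id
  · have e1 : (fun x => Function.update X i x j) = fun _ : E => X j := by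
      funext x; simp [h]
    rw [e1]
    exact contDiff_const

end SLI_

open SLI_ in
theorem sli_proof (_h1 : Stmt_BMC) : Stmt_SLI := by
  intro ι _ _ u hu hs
  refine ⟨bm_of u hu.continuous hs, ?_, ?_⟩
  · intro i c
    have h1 : Continuous (fderiv ℝ u) := hu.continuous_fderiv (by norm_num)
    have h2 : HasCompactSupport (fderiv ℝ u) := hs.fderiv ℝ
    refine bm_of (di i c u) ?_ ?_
    · exact h1.clm_apply continuous_const
    · exact h2.comp_left (g := fun L : (ι → E) →L[ℝ] ℝ => L (Pi.single i (ev c))) (by simp)
  · intro i X
    refine ⟨hu.comp (contDiff_update X i), ?_⟩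
    intro c x
    have h1 := ((hu.differentiable (by norm_num) (Function.update X i x)).hasFDerivAt).comp x
      (hasFDerivAt_update X i x)
    unfold pd di
    have h2 : (fun x => u (Function.update X i x)) = u ∘ fun x => Function.update X i x := rfl
    rw [h2, h1.fderiv]
    simp

end Pool.Agent.TBL
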