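import Pool.Agent.TBL.Stmts

/-!
# TBL, module SLT: slices in two particles
-/

set_option autoImplicit false

open MeasureTheory Filter Topology

namespace Pool.Agent.TBL

open Pool.Agent.TBG

namespace SLT_

theorem measurable_up {ι : Type} [DecidableEq ι] (l : ι) :
    Measurable (fun p : (ι → E) × E => Function.update p.1 l p.2) := by
  refine measurable_pi_lambda _ fun i => ?_
  by_cases h : i = l
  · subst h
    simp only [Function.update_self]
    exact measurable_snd
  · simp only [Function.update_of_ne h]
    exact (measurable_pi_apply i).comp measurable_fst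

end SLT_

open SLT_ in
theorem slt_proof (hBMC : Stmt_BMC) (hMES : Stmt_MES) (_hMEP : Stmt_MEP) (hAVA : Stmt_AVA)
    (_hAVB : Stmt_AVB) : Stmt_SLT := by
  intro ι _ _ ℓ l m hℓ hlm
  obtain ⟨b1, -, -, b4, b5⟩ := hBMC
  have hprob : IsProbabilityMeasure (nuc ℓ) := (hMES ℓ hℓ).2.2.2.1
  have bmul : ∀ (α : Type) [MeasurableSpace α] (F G : α → ℝ), BM F → BM G →
      BM (fun X => F X * G X) := fun α _ F G hF hG => (b1 α F G hF hG).2.2.1
  have bsub : ∀ (α : Type) [MeasurableSpace α] (F G : α → ℝ), BM F → BM G →
      BM (fun X => F X - G X) := fun α _ F G hF hG => (b1 α F G hF hG).2.1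
  have bsq : ∀ (α : Type) [MeasurableSpace α] (F : α → ℝ), BM F →
      BM (fun X => F X ^ 2) := fun α _ F hF => (b1 α F F hF hF).2.2.2.1
  have hA : ∀ (i : ι) (F : (ι → E) → ℝ), BM F → BM (av ℓ i F) := fun i F hF =>
    (hAVA ι ℓ hℓ i F hF).1
  have hI : ∀ (i : ι) (F : (ι → E) → ℝ), BM F →
      ∫ X, av ℓ i F X ∂(PiM ι ℓ) = ∫ X, F X ∂(PiM ι ℓ) := fun i F hF =>
    (hAVA ι ℓ hℓ i F hF).2.1
  have first : ∀ F : (ι → E) → ℝ, BM F → ∫ X, F X ∂(PiM ι ℓ) =
      ∫ X, ∫ y, ∫ z, F (Function.update (Function.update X l y) m z) ∂(nuc ℓ) ∂(nuc ℓ)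
        ∂(PiM ι ℓ) := by
    intro F hF
    rw [← hI m F hF, ← hI l _ (hA m F hF)]
    rfl
  refine ⟨first, fun A hAB => ⟨?_, ?_, ?_, ?_⟩⟩
  · have h0 : BM (fun q : (ι → E) × E => A (Function.update q.1 m q.2)) :=
      (hAVA ι ℓ hℓ m A hAB).2.2.1
    refine b4 _ _ _ (fun p : (ι → E) × (E × E) => (Function.update p.1 l p.2.1, p.2.2)) h0 ?_
    refine Measurable.prodMk ?_ (by fun_prop)
    exact (measurable_up l).comp
      (f := fun p : (ι → E) × (E × E) => (p.1, p.2.1)) (by fun_prop)
  · have hQ : BM (Qa ℓ l A) := bsub _ _ _ hAB (hA l A hAB)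
    unfold ns
    rw [first _ (bsq _ _ hQ)]
    refine integral_congr_ae (Eventually.of_forall fun X => ?_)
    refine integral_congr_ae (Eventually.of_forall fun y => ?_)
    refine integral_congr_ae (Eventually.of_forall fun z => ?_)
    show _ = (A (Function.update (Function.update X l y) m z) -
      ∫ y', A (Function.update (Function.update (Function.update X l y) m z) l y') ∂(nuc ℓ)) ^ 2
    have e : ∀ y' : E, Function.update (Function.update (Function.update X l y) m z) l y' =
        Function.update (Function.update X l y') m z := by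
      intro y'
      rw [Function.update_comm hlm.symm z y' (Function.update X l y), Function.update_idem]
    simp only [e]
  · have hQ : BM (Qa ℓ m A) := bsub _ _ _ hAB (hA m A hAB)
    unfold ns
    rw [first _ (bsq _ _ hQ)]
    refine integral_congr_ae (Eventually.of_forall fun X => ?_)
    refine integral_congr_ae (Eventually.of_forall fun y => ?_)
    refine integral_congr_ae (Eventually.of_forall fun z => ?_)
    show _ = (A (Function.update (Function.update X l y) m z) -
      ∫ z', A (Function.update (Function.update (Function.update X l y) m z) m z') ∂(nuc ℓ)) ^ 2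
    simp only [Function.update_idem]
  · intro κ hκ
    -- the slice form is bounded and measurable
    have hG : BM (fun X : ι → E =>
        q1 ℓ κ (fun x => A (Function.update X l x)) (fun x => A (Function.update X l x))) := by
      have h0 : BM (fun q : (ι → E) × E => A (Function.update q.1 l q.2)) :=
        (hAVA ι ℓ hℓ l A hAB).2.2.1
      unfold q1
      refine b5 (ι → E) E (nuc ℓ) (fun q => ∫ y, κ q.2 y *
        ((A (Function.update q.1 l q.2) - A (Function.update q.1 l y)) *
          (A (Function.update q.1 l q.2) - A (Function.update q.1 l y))) ∂(nuc ℓ)) ?_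
      refine b5 ((ι → E) × E) E (nuc ℓ) (fun r => κ r.1.2 r.2 *
        ((A (Function.update r.1.1 l r.1.2) - A (Function.update r.1.1 l r.2)) *
          (A (Function.update r.1.1 l r.1.2) - A (Function.update r.1.1 l r.2)))) ?_
      have h1 : BM (fun r : ((ι → E) × E) × E => A (Function.update r.1.1 l r.1.2)) :=
        b4 _ _ _ (fun r : ((ι → E) × E) × E => r.1) h0 (by fun_prop)
      have h2 : BM (fun r : ((ι → E) × E) × E => A (Function.update r.1.1 l r.2)) :=
        b4 _ _ _ (fun r : ((ι → E) × E) × E => (r.1.1, r.2)) h0 (by fun_prop)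
      refine bmul _ _ _ ?_ (bmul _ _ _ (bsub _ _ _ h1 h2) (bsub _ _ _ h1 h2))
      exact b4 _ _ _ (fun r : ((ι → E) × E) × E => (r.1.2, r.2)) hκ (by fun_prop)
    unfold qI
    rw [← hI m _ hG]
    refine integral_congr_ae (Eventually.of_forall fun X => ?_)
    refine integral_congr_ae (Eventually.of_forall fun z => ?_)
    have e : ∀ y : E, Function.update (Function.update X m z) l y =
        Function.update (Function.update X l y) m z := by
      intro y
      rw [Function.update_comm hlm.symm z y X]
    simp only [e]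

end Pool.Agent.TBL
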