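import Pool.Agent.TBL.Stmts

set_option autoImplicit false

open MeasureTheory Filter Topology
open scoped ContDiff

namespace Pool.Agent.TBL

open Pool.Agent.TBG

namespace TIL_

/-- hyperplanes are null sets -/
theorem null_plane (c : Fin 3) (a : ℝ) : volume {y : E | y c = a} = 0 := by
  have hp := (EuclideanSpace.volume_preserving_symm_measurableEquiv_toLp (Fin 3)).symm
  have h1 := hp.measure_preimage_equiv {y : E | y c = a}
  rw [← h1]
  exact Measure.pi_hyperplane (fun _ : Fin 3 => (volume : Measure ℝ)) c a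

theorem ae_ne (a : ℝ) : ∀ᵐ y : E, ∀ c, y c ≠ a := by
  rw [ae_all_iff]
  intro c
  have := null_plane c a
  rw [ae_iff]
  simpa using this

/-- one coordinate -/
noncomputable def ind (ℓ : ℝ) (s : Fin 3) (t : ℝ) : ℝ :=
  by classical exact
    if 0 ≤ (if s = 0 then t else if s = 1 then -t else 2 * ℓ - t) ∧
      (if s = 0 then t else if s = 1 then -t else 2 * ℓ - t) ≤ ℓ then 1 else 0

theorem ind_sum (ℓ t : ℝ) (hl : 0 < ℓ) (h0 : t ≠ 0) (h1 : t ≠ ℓ) :
    ∑ s : Fin 3, ind ℓ s t = by classical exact if -ℓ ≤ t ∧ t ≤ 2 * ℓ then 1 else 0 := by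
  classical
  rw [Fin.sum_univ_three]
  unfold ind
  simp only [if_true, if_false, show (1 : Fin 3) ≠ 0 by decide,
    show (2 : Fin 3) ≠ 0 by decide, show (2 : Fin 3) ≠ 1 by decide]
  rcases lt_or_gt_of_ne h0 with h | h
  · have a1 : ¬ (0 ≤ t ∧ t ≤ ℓ) := by intro h'; linarith [h'.1]
    have a3 : ¬ (0 ≤ 2 * ℓ - t ∧ 2 * ℓ - t ≤ ℓ) := by intro h'; linarith [h'.2]
    rw [if_neg a1, if_neg a3]
    by_cases h2 : -ℓ ≤ t
    · rw [if_pos ⟨by linarith, by linarith⟩, if_pos ⟨h2, by linarith⟩]; ring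
    · rw [if_neg (by intro h'; exact h2 (by linarith [h'.2])), if_neg (fun h' => h2 h'.1)]; ring
  · have a2 : ¬ (0 ≤ -t ∧ -t ≤ ℓ) := by intro h'; linarith [h'.1]
    rw [if_neg a2]
    rcases lt_or_gt_of_ne h1 with h3 | h3
    · have a3 : ¬ (0 ≤ 2 * ℓ - t ∧ 2 * ℓ - t ≤ ℓ) := by intro h'; linarith [h'.2]
      rw [if_neg a3, if_pos ⟨h.le, h3.le⟩, if_pos ⟨by linarith, by linarith⟩]; ring
    · have a1 : ¬ (0 ≤ t ∧ t ≤ ℓ) := by intro h'; linarith [h'.2]
      rw [if_neg a1]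
      by_cases h2 : t ≤ 2 * ℓ
      · rw [if_pos ⟨by linarith, by linarith⟩, if_pos ⟨by linarith, h2⟩]; ring
      · rw [if_neg (by intro h'; exact h2 (by linarith [h'.1])), if_neg (fun h' => h2 h'.2)]; ring

end TIL_

theorem til_proof (h1 : Stmt_MES) (h2 : Stmt_IMG) : Stmt_TIL := by
  classical
  intro ℓ f hl hf
  obtain ⟨hmL, hcL, -⟩ := h1 ℓ hl
  have hmB : MeasurableSet {y : E | ∀ c, -ℓ ≤ y c ∧ y c ≤ 2 * ℓ} := by
    have : {y : E | ∀ c, -ℓ ≤ y c ∧ y c ≤ 2 * ℓ} =
        ⋂ c, ({y : E | -ℓ ≤ y c} ∩ {y : E | y c ≤ 2 * ℓ}) := by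
      ext y; simp
    rw [this]
    apply MeasurableSet.iInter
    intro c
    apply MeasurableSet.inter
    · exact (isClosed_le continuous_const (by fun_prop)).measurableSet
    · exact (isClosed_le (by fun_prop) continuous_const).measurableSet
  have key : ∀ σ : Fin 3 → Fin 3, ∫ y in Lam ℓ, f (img ℓ σ y) =
      ∫ y, (Lam ℓ).indicator (fun _ => (1:ℝ)) (img ℓ σ y) * f y := by
    intro σ
    obtain ⟨-, hsm, hinv, -, -, hmp, -⟩ := h2 ℓ σ hl
    rw [← integral_indicator hmL]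
    have e : (fun y => (Lam ℓ).indicator (fun y => f (img ℓ σ y)) y) =
        fun y => (fun z => (Lam ℓ).indicator (fun _ => (1:ℝ)) (img ℓ σ z) * f z) (img ℓ σ y) := by
      funext y
      simp only [hinv]
      by_cases hy : y ∈ Lam ℓ
      · simp [hy]
      · simp [hy]
    rw [e]
    have hemb : MeasurableEmbedding (img ℓ σ) := by
      have : Function.Involutive (img ℓ σ) := hinv
      exact MeasurableEquiv.measurableEmbedding
        ⟨this.toPerm, hsm.continuous.measurable, by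
          simpa using hsm.continuous.measurable⟩
    exact hmp.integral_comp hemb (fun z => (Lam ℓ).indicator (fun _ => (1:ℝ)) (img ℓ σ z) * f z)
  have hint : ∀ σ : Fin 3 → Fin 3,
      Integrable (fun y => (Lam ℓ).indicator (fun _ => (1:ℝ)) (img ℓ σ y) * f y) := by
    intro σ
    obtain ⟨-, hsm, hinv, -, -, hmp, -⟩ := h2 ℓ σ hl
    have h3 : IntegrableOn (fun y => f (img ℓ σ y)) (Lam ℓ) :=
      (hf.comp hsm.continuous).continuousOn.integrableOn_compact hcL
    have h4 : Integrable ((Lam ℓ).indicator (fun y => f (img ℓ σ y))) :=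
      (integrable_indicator_iff hmL).mpr h3
    have h5 := hmp.integrable_comp_of_integrable h4
    refine h5.congr (Eventually.of_forall fun y => ?_)
    simp only [Function.comp]
    by_cases hy : img ℓ σ y ∈ Lam ℓ
    · simp [hy, hinv]
    · simp [hy]
  rw [Finset.sum_congr rfl (fun σ _ => key σ), ← integral_finsetSum _ (fun σ _ => hint σ),
    ← integral_indicator hmB]
  apply integral_congr_ae
  filter_upwards [TIL_.ae_ne 0, TIL_.ae_ne ℓ] with y hy0 hy1
  rw [← Finset.sum_mul]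
  have e1 : ∀ σ : Fin 3 → Fin 3, (Lam ℓ).indicator (fun _ => (1:ℝ)) (img ℓ σ y) =
      ∏ c, TIL_.ind ℓ (σ c) (y c) := by
    intro σ
    obtain ⟨hfor, -⟩ := h2 ℓ σ hl
    unfold TIL_.ind
    rw [Finset.prod_ite_zero, Finset.prod_const_one]
    have : (img ℓ σ y ∈ Lam ℓ) ↔ ∀ c ∈ (Finset.univ : Finset (Fin 3)),
        (0 ≤ (if σ c = 0 then y c else if σ c = 1 then -y c else 2 * ℓ - y c) ∧
        (if σ c = 0 then y c else if σ c = 1 then -y c else 2 * ℓ - y c) ≤ ℓ) := by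
      unfold Lam
      simp only [Set.mem_setOf_eq, hfor, Finset.mem_univ, true_implies]
    by_cases h : img ℓ σ y ∈ Lam ℓ
    · rw [Set.indicator_of_mem h, if_pos (this.mp h)]
    · rw [Set.indicator_of_notMem h, if_neg (fun h' => h (this.mpr h'))]
  rw [Finset.sum_congr rfl (fun σ _ => e1 σ)]
  have e2 := Finset.prod_univ_sum (fun _ : Fin 3 => (Finset.univ : Finset (Fin 3)))
    (fun c s => TIL_.ind ℓ s (y c))
  rw [Fintype.piFinset_univ] at e2
  rw [← e2]
  have e3 : ∀ c, ∑ s : Fin 3, TIL_.ind ℓ s (y c) = if -ℓ ≤ y c ∧ y c ≤ 2 * ℓ then 1 else 0 := by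
    intro c
    have := TIL_.ind_sum ℓ (y c) hl (hy0 c) (hy1 c)
    convert this
  rw [Finset.prod_congr rfl (fun c _ => e3 c), Finset.prod_ite_zero, Finset.prod_const_one]
  by_cases h : y ∈ {y : E | ∀ c, -ℓ ≤ y c ∧ y c ≤ 2 * ℓ}
  · rw [Set.indicator_of_mem h, if_pos (fun c _ => h c), one_mul]
  · rw [Set.indicator_of_notMem h, if_neg (fun h' => h (fun c => h' c (Finset.mem_univ c))), zero_mul]

end Pool.Agent.TBL
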