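import Pool.Agent.TBL.Stmts

/-! # TLA: decomposition of the box -/

set_option autoImplicit false

open MeasureTheory Filter Topology

namespace Pool.Agent.TBL

open Pool.Agent.TBG

namespace TLA_

theorem preim (ℓ : ℝ) (a : E) : (MeasurableEquiv.toLp 2 (Fin 3 → ℝ)) ⁻¹' (cub ℓ a)
    = Set.pi Set.univ (fun c : Fin 3 => Set.Ico (a c) (a c + ℓ)) := by
  ext x
  constructor
  · intro h c _
    exact h c
  · intro h c
    exact h c (Set.mem_univ c)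

theorem meas (ℓ : ℝ) (a : E) : MeasurableSet (cub ℓ a) := by
  have h : MeasurableSet ((MeasurableEquiv.toLp 2 (Fin 3 → ℝ)) ⁻¹' (cub ℓ a)) := by
    rw [preim]
    exact MeasurableSet.univ_pi (fun _ => measurableSet_Ico)
  exact (MeasurableEquiv.measurableSet_preimage _).mp h

/-- the product cubes -/
def pc (N M : ℕ) (ℓ : ℝ) (α : Fin N → (Fin 3 → Fin M)) : Set (Fin N → E) :=
  {X : Fin N → E | ∀ i, X i ∈ cub ℓ (crn ℓ M (α i))}

theorem pc_eq (N M : ℕ) (ℓ : ℝ) (α : Fin N → (Fin 3 → Fin M)) :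
    pc N M ℓ α = Set.pi Set.univ (fun i => cub ℓ (crn ℓ M (α i))) := by
  ext X
  simp [pc]

theorem pc_meas (N M : ℕ) (ℓ : ℝ) (α : Fin N → (Fin 3 → Fin M)) : MeasurableSet (pc N M ℓ α) := by
  rw [pc_eq]
  exact MeasurableSet.univ_pi fun _ => meas _ _

theorem crn_apply (ℓ : ℝ) (M : ℕ) (k : Fin 3 → Fin M) (c : Fin 3) :
    crn ℓ M k c = -((M : ℝ) * ℓ / 2) + ((k c : ℕ) : ℝ) * ℓ := rfl

theorem lt_aux {ℓ t a : ℝ} (hℓ : 0 < ℓ) {k k' : ℕ} (h : k < k')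
    (h1 : t < a + (k : ℝ) * ℓ + ℓ) (h2 : a + (k' : ℝ) * ℓ ≤ t) : False := by
  have h3 : (k : ℝ) + 1 ≤ (k' : ℝ) := by exact_mod_cast h
  nlinarith

theorem pc_disj {N M : ℕ} {ℓ : ℝ} (hℓ : 0 < ℓ) :
    Pairwise (Function.onFun Disjoint (fun α : Fin N → (Fin 3 → Fin M) => pc N M ℓ α)) := by
  intro α β hαβ
  show Disjoint (pc N M ℓ α) (pc N M ℓ β)
  rw [Set.disjoint_left]
  intro X hX hX'
  apply hαβ
  funext i c
  have h1 := hX i c
  have h2 := hX' i c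
  rw [crn_apply] at h1 h2
  by_contra hne
  have hne' : (α i c : ℕ) ≠ (β i c : ℕ) := fun h => hne (Fin.ext h)
  rcases lt_or_gt_of_ne hne' with h | h
  · exact lt_aux hℓ h h1.2 h2.1
  · exact lt_aux hℓ h h2.2 h1.1

theorem ex_k {ℓ t : ℝ} (hℓ : 0 < ℓ) {M : ℕ} (h : |t| < (M : ℝ) * ℓ / 2) : ∃ k : Fin M,
    -((M : ℝ) * ℓ / 2) + ((k : ℕ) : ℝ) * ℓ ≤ t ∧ t < -((M : ℝ) * ℓ / 2) + ((k : ℕ) : ℝ) * ℓ + ℓ := by
  obtain ⟨h1, h2⟩ := abs_lt.1 h
  have h0 : 0 ≤ (t + (M : ℝ) * ℓ / 2) / ℓ := div_nonneg (by linarith) hℓ.le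
  have h3 : (t + (M : ℝ) * ℓ / 2) / ℓ < (M : ℝ) := by
    rw [div_lt_iff₀ hℓ]
    linarith
  refine ⟨⟨⌊(t + (M : ℝ) * ℓ / 2) / ℓ⌋₊, (Nat.floor_lt h0).2 h3⟩, ?_, ?_⟩
  · have h4 := Nat.floor_le h0
    rw [le_div_iff₀ hℓ] at h4
    show -((M : ℝ) * ℓ / 2) + ((⌊(t + (M : ℝ) * ℓ / 2) / ℓ⌋₊ : ℕ) : ℝ) * ℓ ≤ t
    linarith
  · have h4 := Nat.lt_floor_add_one ((t + (M : ℝ) * ℓ / 2) / ℓ)
    rw [div_lt_iff₀ hℓ] at h4
    show t < -((M : ℝ) * ℓ / 2) + ((⌊(t + (M : ℝ) * ℓ / 2) / ℓ⌋₊ : ℕ) : ℝ) * ℓ + ℓ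
    linarith

theorem box_sub {N M : ℕ} {ℓ : ℝ} (hℓ : 0 < ℓ) : box N (M * ℓ) ⊆ ⋃ α, pc N M ℓ α := by
  intro X hX
  have h1 : ∀ i c, ∃ k : Fin M, -((M : ℝ) * ℓ / 2) + ((k : ℕ) : ℝ) * ℓ ≤ X i c ∧
      X i c < -((M : ℝ) * ℓ / 2) + ((k : ℕ) : ℝ) * ℓ + ℓ := fun i c => ex_k hℓ (hX i c)
  choose k hk using h1
  exact Set.mem_iUnion.2 ⟨k, fun i c => hk i c⟩

theorem pc_bd {N M : ℕ} {ℓ : ℝ} (hℓ : 0 < ℓ) {α : Fin N → (Fin 3 → Fin M)} {X : Fin N → E}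
    (hX : X ∈ pc N M ℓ α) (i : Fin N) (c : Fin 3) :
    -((M : ℝ) * ℓ / 2) ≤ X i c ∧ X i c < (M : ℝ) * ℓ / 2 := by
  have h1 := hX i c
  rw [crn_apply] at h1
  have h2 : (((α i c : ℕ) : ℝ)) + 1 ≤ (M : ℝ) := by exact_mod_cast (α i c).2
  have h3 : (0 : ℝ) ≤ ((α i c : ℕ) : ℝ) := Nat.cast_nonneg _
  constructor
  · have := mul_nonneg h3 hℓ.le
    linarith [h1.1]
  · have := mul_le_mul_of_nonneg_right h2 hℓ.le
    linarith [h1.2]

/-- the closed cubes -/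
theorem compact1 (R : ℝ) : IsCompact {x : E | ∀ c, |x c| ≤ R} := by
  have h1 : IsCompact (Set.pi Set.univ (fun _ : Fin 3 => Set.Icc (-R) R)) :=
    isCompact_univ_pi fun _ => isCompact_Icc
  have h2 : {x : E | ∀ c, |x c| ≤ R} =
      (WithLp.toLp 2) '' (Set.pi Set.univ (fun _ : Fin 3 => Set.Icc (-R) R)) := by
    ext x
    constructor
    · intro h
      exact ⟨WithLp.ofLp x, fun c _ => abs_le.1 (h c), rfl⟩
    · rintro ⟨y, hy, rfl⟩ c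
      exact abs_le.2 (hy c (Set.mem_univ c))
  rw [h2]
  exact h1.image (PiLp.continuous_toLp 2 _)

theorem compactN (N : ℕ) (R : ℝ) : IsCompact {X : Fin N → E | ∀ i c, |X i c| ≤ R} := by
  have h2 : {X : Fin N → E | ∀ i c, |X i c| ≤ R} =
      Set.pi Set.univ (fun _ : Fin N => {x : E | ∀ c, |x c| ≤ R}) := by
    ext X
    simp
  rw [h2]
  exact isCompact_univ_pi fun _ => compact1 R

theorem intOn {N M : ℕ} {ℓ : ℝ} (hℓ : 0 < ℓ) {F : (Fin N → E) → ℝ} (hF : Continuous F ∨ BM F)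
    (α : Fin N → (Fin 3 → Fin M)) : IntegrableOn F (pc N M ℓ α) := by
  have hsub : pc N M ℓ α ⊆ {X : Fin N → E | ∀ i c, |X i c| ≤ (M : ℝ) * ℓ / 2} := by
    intro X hX i c
    have := pc_bd hℓ hX i c
    exact abs_le.2 ⟨this.1, this.2.le⟩
  refine IntegrableOn.mono_set ?_ hsub
  rcases hF with hF | hF
  · exact hF.continuousOn.integrableOn_compact (compactN N _)
  · obtain ⟨hm, C, hC⟩ := hF
    exact Measure.integrableOn_of_bounded (M := C) (compactN N _).measure_lt_top.ne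
      hm.aestronglyMeasurable (Eventually.of_forall fun X => by
        rw [Real.norm_eq_abs]
        exact hC X)

theorem null1 (c : Fin 3) (a : ℝ) : ∀ᵐ x : E, x c ≠ a := by
  have h1 : ∀ᵐ y : Fin 3 → ℝ, y c ≠ a := Measure.ae_eval_ne (fun _ : Fin 3 => (volume : Measure ℝ)) c a
  have hp := (EuclideanSpace.volume_preserving_symm_measurableEquiv_toLp (Fin 3))
  exact hp.quasiMeasurePreserving.ae h1

theorem nullN (N : ℕ) (a : ℝ) : ∀ᵐ X : Fin N → E, ∀ i c, X i c ≠ a := by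
  rw [eventually_all]
  intro i
  rw [eventually_all]
  intro c
  have hq : Measure.QuasiMeasurePreserving (Function.eval i) (volume : Measure (Fin N → E))
      (volume : Measure E) := Measure.quasiMeasurePreserving_eval _ i
  exact hq.ae (null1 c a)

end TLA_

open TLA_ in
theorem tla_proof (_hBMC : Stmt_BMC) : Stmt_TLA := by
  intro N M ℓ F hℓ _hM hF
  have h1 : (box N (M * ℓ) : Set (Fin N → E)) =ᵐ[volume] ⋃ α, pc N M ℓ α := by
    filter_upwards [nullN N (-((M : ℝ) * ℓ / 2))] with X hX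
    apply propext
    constructor
    · intro h
      exact box_sub hℓ h
    · intro h
      obtain ⟨α, hα⟩ := Set.mem_iUnion.1 h
      intro i c
      have h2 := pc_bd hℓ hα i c
      exact abs_lt.2 ⟨lt_of_le_of_ne h2.1 (Ne.symm (hX i c)), h2.2⟩
  rw [setIntegral_congr_set h1]
  exact integral_iUnion_fintype (fun α => pc_meas N M ℓ α) (pc_disj hℓ) (fun α => intOn hℓ hF α)

end Pool.Agent.TBL
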