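import Pool.Agent.TBL.Stmts

/-!
# Three-body Bose gases (MP_80dc41_mp), lower bound: the box
-/

set_option autoImplicit false

open MeasureTheory Filter Topology
open scoped ContDiff

namespace Pool.Agent.TBL

open Pool.Agent.TBG

namespace TLC_

lemma potS_bm (hB : Stmt_BMC) (V : E → E → ℝ) (hV : Admissible V) (ι : Type) [Fintype ι] [DecidableEq ι]
    (S : Finset ι) : BM (fun X : ι → E => potS V (fun i : {i // i ∈ S} => X i)) := by
  have h1 : ∀ t ∈ D3 {i // i ∈ S}, BM (fun X : ι → E => V (X t.1 - X t.2.1) (X t.1 - X t.2.2)) := by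
    intro t _
    refine hB.2.2.2.1 (E × E) (ι → E) (fun z => V z.1 z.2)
      (fun X : ι → E => (X t.1 - X t.2.1, X t.1 - X t.2.2)) ⟨hV.meas, ?_⟩ ?_
    · obtain ⟨C, hC⟩ := hV.bdd
      exact ⟨C, fun z => by rw [abs_of_nonneg (hV.nonneg _ _)]; exact hC _ _⟩
    · fun_prop
  have h2 := hB.2.2.1 (ι → E) _ (D3 {i // i ∈ S}) _ h1
  have h3 := (hB.1 (ι → E) _ _ h2 h2).2.2.2.2.2.1 (1 / 6)
  exact h3

lemma cub_norm (ℓ : ℝ) (a x : E) (hx : x ∈ cub ℓ a) : ‖x‖ ≤ 3 * (‖a‖ + |ℓ|) := by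
  have h : ∀ c, |x c| ≤ ‖a‖ + |ℓ| := by
    intro c
    have h1 := (hx c).1
    have h2 := (hx c).2
    have h3 : |a c| ≤ ‖a‖ := by
      have := EuclideanSpace.norm_eq a
      rw [this]
      refine Real.le_sqrt_of_sq_le ?_
      have := Finset.single_le_sum (f := fun i => ‖a i‖ ^ 2) (fun i _ => sq_nonneg _) (Finset.mem_univ c)
      simpa using this
    rw [abs_le] at h3 ⊢
    constructor
    · have := abs_nonneg ℓ; linarith [h3.1]
    · have := le_abs_self ℓ; linarith [h3.2]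
  have hn : (0 : ℝ) ≤ ‖a‖ + |ℓ| := by positivity
  rw [EuclideanSpace.norm_eq]
  refine Real.sqrt_le_iff.2 ⟨by positivity, ?_⟩
  calc ∑ i, ‖x i‖ ^ 2 ≤ ∑ _i : Fin 3, (‖a‖ + |ℓ|) ^ 2 := by
        refine Finset.sum_le_sum fun i _ => ?_
        rw [Real.norm_eq_abs]
        exact pow_le_pow_left₀ (abs_nonneg _) (h i) 2
    _ = 3 * (‖a‖ + |ℓ|) ^ 2 := by simp
    _ ≤ (3 * (‖a‖ + |ℓ|)) ^ 2 := by nlinarith

lemma vol_fin (ι : Type) [Fintype ι] (ℓ : ℝ) (a : ι → E) :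
    volume {X : ι → E | ∀ i, X i ∈ cub ℓ (a i)} < ⊤ := by
  refine Bornology.IsBounded.measure_lt_top ?_
  refine (Metric.isBounded_closedBall (x := (0 : ι → E)) (r := 3 * (‖a‖ + |ℓ|))).subset ?_
  intro X hX
  rw [mem_closedBall_zero_iff, pi_norm_le_iff_of_nonneg (by positivity)]
  intro i
  refine (cub_norm ℓ (a i) (X i) (hX i)).trans ?_
  have := norm_le_pi_norm a i
  linarith

lemma int_on (ι : Type) [Fintype ι] (ℓ : ℝ) (a : ι → E) (F : (ι → E) → ℝ) (hB : Stmt_BMC) (hF : BM F) :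
    IntegrableOn F {X : ι → E | ∀ i, X i ∈ cub ℓ (a i)} := by
  have : IsFiniteMeasure (volume.restrict {X : ι → E | ∀ i, X i ∈ cub ℓ (a i)}) :=
    ⟨by rw [Measure.restrict_apply_univ]; exact vol_fin ι ℓ a⟩
  exact (hB.1 (ι → E) F F hF hF).2.2.2.2.2.2 _

end TLC_

theorem tlc_proof (hB : Stmt_BMC) (_hP : Stmt_MEP) (hF : Stmt_FRZ) (hA : Stmt_PSA) (hT : Stmt_TLA)
    (hS : Stmt_SLI) : Stmt_TLC := by
  intro V ℓ A B M hV hℓ hM hL N u hu hc
  have hu1 : ContDiff ℝ 1 u := hu.of_le (by exact_mod_cast le_top)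
  obtain ⟨hub, hdb, -⟩ := hS (Fin N) u hu1 hc
  have hu2 : BM (fun X => u X ^ 2) := (hB.1 _ u u hub hub).2.2.2.1
  have hd2 : ∀ i c, BM (fun X => (di i c u X) ^ 2) := fun i c => (hB.1 _ _ _ (hdb i c) (hdb i c)).2.2.2.1
  -- the integrand of a cluster
  have hcl : ∀ S : Finset (Fin N), BM (fun X => (∑ i ∈ S, ∑ c, (di i c u X) ^ 2) +
      potS V (fun i : {i // i ∈ S} => X i) * u X ^ 2) := by
    intro S
    have h1 : BM (fun X => ∑ i ∈ S, ∑ c, (di i c u X) ^ 2) :=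
      hB.2.2.1 _ _ S _ (fun i _ => hB.2.2.1 _ _ Finset.univ _ (fun c _ => hd2 i c))
    have h2 : BM (fun X => potS V (fun i : {i // i ∈ S} => X i) * u X ^ 2) :=
      (hB.1 _ _ _ (TLC_.potS_bm hB V hV (Fin N) S) hu2).2.2.1
    exact (hB.1 _ _ _ h1 h2).1
  have hpot : BM (fun X : Fin N → E => potS V X) := by
    have h1 : ∀ t ∈ D3 (Fin N), BM (fun X : Fin N → E => V (X t.1 - X t.2.1) (X t.1 - X t.2.2)) := by
      intro t _
      refine hB.2.2.2.1 (E × E) (Fin N → E) (fun z => V z.1 z.2)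
        (fun X : Fin N → E => (X t.1 - X t.2.1, X t.1 - X t.2.2)) ⟨hV.meas, ?_⟩ ?_
      · obtain ⟨C, hC⟩ := hV.bdd
        exact ⟨C, fun z => by rw [abs_of_nonneg (hV.nonneg _ _)]; exact hC _ _⟩
      · fun_prop
    have h2 := hB.2.2.1 _ _ (D3 (Fin N)) _ h1
    exact (hB.1 _ _ _ h2 h2).2.2.2.2.2.1 (1 / 6)
  have hen : BM (fun X => (∑ i, ∑ c, (di i c u X) ^ 2) + potS V X * u X ^ 2) := by
    have h1 : BM (fun X => ∑ i, ∑ c, (di i c u X) ^ 2) :=
      hB.2.2.1 _ _ Finset.univ _ (fun i _ => hB.2.2.1 _ _ Finset.univ _ (fun c _ => hd2 i c))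
    exact (hB.1 _ _ _ h1 (hB.1 _ _ _ hpot hu2).2.2.1).1
  rw [hT N M ℓ _ hℓ hM (Or.inr hu2), hT N M ℓ _ hℓ hM (Or.inr hen), Finset.mul_sum]
  refine Finset.sum_le_sum fun α _ => ?_
  set D : Set (Fin N → E) := {X | ∀ i, X i ∈ cub ℓ (crn ℓ M (α i))} with hD
  -- the clusters
  let S : (Fin 3 → Fin M) → Finset (Fin N) := fun k => Finset.univ.filter (fun i => α i = k)
  have h1 : ∀ k : Fin 3 → Fin M, (A * ((S k).card : ℝ) - B) * ∫ X in D, u X ^ 2 ≤
      ∫ X in D, ((∑ i ∈ S k, ∑ c, (di i c u X) ^ 2) + potS V (fun i : {i // i ∈ S k} => X i) * u X ^ 2) := by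
    intro k
    have h := hF V (Fin N) (S k) ℓ (A * ((S k).card : ℝ) - B) (fun i => crn ℓ M (α i)) (crn ℓ M k) u hV hℓ
      (by intro i hi; rw [(Finset.mem_filter.1 hi).2]) (by simpa using hL {i // i ∈ S k}) hu1 hc
    exact h
  have h2 := Finset.sum_le_sum (fun k (_ : k ∈ (Finset.univ : Finset (Fin 3 → Fin M))) => h1 k)
  have hcard : ∑ k : Fin 3 → Fin M, ((S k).card : ℝ) = N := by
    have : ∑ k : Fin 3 → Fin M, (S k).card = N := by
      have h := Finset.card_eq_sum_card_fiberwise (s := (Finset.univ : Finset (Fin N)))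
        (t := (Finset.univ : Finset (Fin 3 → Fin M))) (f := α) (fun i _ => Finset.mem_coe.2 (Finset.mem_univ _))
      simpa using h.symm
    exact_mod_cast this
  have hl : ∑ k : Fin 3 → Fin M, (A * ((S k).card : ℝ) - B) * ∫ X in D, u X ^ 2 =
      (A * N - B * (M : ℝ) ^ 3) * ∫ X in D, u X ^ 2 := by
    rw [← Finset.sum_mul, Finset.sum_sub_distrib, ← Finset.mul_sum, hcard]
    simp
    left
    ring
  rw [hl, ← integral_finsetSum _ (fun k _ => TLC_.int_on (Fin N) ℓ _ _ hB (hcl (S k)))] at h2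
  refine h2.trans ?_
  refine integral_mono_of_nonneg ?_ (TLC_.int_on (Fin N) ℓ _ _ hB hen) ?_
  · refine Filter.Eventually.of_forall fun X => ?_
    refine Finset.sum_nonneg fun k _ => add_nonneg (Finset.sum_nonneg fun i _ => Finset.sum_nonneg fun c _ =>
      sq_nonneg _) (mul_nonneg ?_ (sq_nonneg _))
    exact mul_nonneg (by norm_num) (Finset.sum_nonneg fun t _ => hV.nonneg _ _)
  · refine Filter.Eventually.of_forall fun X => ?_
    show ∑ k : Fin 3 → Fin M, ((∑ i ∈ S k, ∑ c, (di i c u X) ^ 2) +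
      potS V (fun i : {i // i ∈ S k} => X i) * u X ^ 2) ≤ (∑ i, ∑ c, (di i c u X) ^ 2) + potS V X * u X ^ 2
    rw [Finset.sum_add_distrib, ← Finset.sum_mul]
    refine add_le_add (le_of_eq ?_) (mul_le_mul_of_nonneg_right ?_ (sq_nonneg _))
    · exact Finset.sum_fiberwise Finset.univ α (fun i => ∑ c, (di i c u X) ^ 2)
    · refine hA V (Fin N) (Fin 3 → Fin M) Finset.univ S X hV ?_
      intro k _ k' _ hk
      rw [Finset.disjoint_left]
      intro i hi hi'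
      exact hk ((Finset.mem_filter.1 hi).2.symm.trans (Finset.mem_filter.1 hi').2)

end Pool.Agent.TBL
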