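import Pool.Agent.TBL.Stmts

/-!
# Squad TBL, module TNG: the arithmetic of the localisation
-/

set_option autoImplicit false

namespace Pool.Agent.TBL

open Pool.Agent.TBG

namespace TNG_

theorem A1 {n ρ ℓ δ : ℝ} (hn : 0 ≤ n) (hρ : 0 < ρ) (hδ : 0 < δ) (hℓ : 1 ≤ ℓ)
    (h : δ ≤ ρ * ℓ) (hn4 : n ≤ 4 * (ρ * ℓ ^ 3)) : n ^ 3 / ℓ ^ 7 ≤ 64 / δ * (ρ ^ 4 * ℓ ^ 3) := by
  have hℓ0 : 0 < ℓ := by linarith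
  rw [div_le_iff₀ (by positivity)]
  have h1 : n ^ 3 ≤ (4 * (ρ * ℓ ^ 3)) ^ 3 := pow_le_pow_left₀ hn hn4 3
  have h2 : 1 ≤ ρ * ℓ / δ := by rw [le_div_iff₀ hδ]; linarith
  calc n ^ 3 ≤ (4 * (ρ * ℓ ^ 3)) ^ 3 * 1 := by rw [mul_one]; exact h1
    _ ≤ (4 * (ρ * ℓ ^ 3)) ^ 3 * (ρ * ℓ / δ) := by
        apply mul_le_mul_of_nonneg_left h2; positivity
    _ = 64 / δ * (ρ ^ 4 * ℓ ^ 3) * ℓ ^ 7 := by ring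

theorem one_le_aux {ρ ℓ δ : ℝ} (hδ : 0 < δ) (hℓ : 1 ≤ ℓ)
    (h : δ ≤ ρ * ℓ) : 1 ≤ (ρ * ℓ / δ) ^ 2 * ℓ := by
  have h2 : 1 ≤ ρ * ℓ / δ := by rw [le_div_iff₀ hδ]; linarith
  have h3 : 1 ≤ (ρ * ℓ / δ) ^ 2 := one_le_pow₀ h2
  calc (1 : ℝ) = 1 * 1 := by ring
    _ ≤ (ρ * ℓ / δ) ^ 2 * ℓ := mul_le_mul h3 hℓ zero_le_one (by positivity)

theorem A2 {n ρ ℓ δ : ℝ} (hn : 0 ≤ n) (hρ : 0 < ρ) (hδ : 0 < δ) (hℓ : 1 ≤ ℓ)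
    (h : δ ≤ ρ * ℓ) (hn4 : n ≤ 4 * (ρ * ℓ ^ 3)) : n ^ 2 / ℓ ^ 6 ≤ 16 / δ ^ 2 * (ρ ^ 4 * ℓ ^ 3) := by
  have hℓ0 : 0 < ℓ := by linarith
  rw [div_le_iff₀ (by positivity)]
  have h1 : n ^ 2 ≤ (4 * (ρ * ℓ ^ 3)) ^ 2 := pow_le_pow_left₀ hn hn4 2
  calc n ^ 2 ≤ (4 * (ρ * ℓ ^ 3)) ^ 2 * 1 := by rw [mul_one]; exact h1
    _ ≤ (4 * (ρ * ℓ ^ 3)) ^ 2 * ((ρ * ℓ / δ) ^ 2 * ℓ) := by
        apply mul_le_mul_of_nonneg_left (one_le_aux hδ hℓ h); positivity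
    _ = 16 / δ ^ 2 * (ρ ^ 4 * ℓ ^ 3) * ℓ ^ 6 := by ring

theorem A3 {n ρ ℓ : ℝ} (hn : 0 ≤ n) (hℓ : 1 ≤ ℓ)
    (hn4 : n ≤ 4 * (ρ * ℓ ^ 3)) : n ^ 4 / ℓ ^ 9 ≤ 256 * (ρ ^ 4 * ℓ ^ 3) := by
  have hℓ0 : 0 < ℓ := by linarith
  rw [div_le_iff₀ (by positivity)]
  have h1 : n ^ 4 ≤ (4 * (ρ * ℓ ^ 3)) ^ 4 := pow_le_pow_left₀ hn hn4 4
  calc n ^ 4 ≤ (4 * (ρ * ℓ ^ 3)) ^ 4 := h1
    _ = 256 * (ρ ^ 4 * ℓ ^ 3) * ℓ ^ 9 := by ring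

theorem B1 {n ρ ℓ δ : ℝ} (hn : 0 ≤ n) (hρ : 0 < ρ) (hδ : 0 < δ) (hℓ : 1 ≤ ℓ)
    (h : δ ≤ ρ * ℓ) (hn4 : n ≤ 4 * (ρ * ℓ ^ 3)) : n ^ 3 / ℓ ^ 7 ≤ 16 / δ * (ρ ^ 3 * n) := by
  have hℓ0 : 0 < ℓ := by linarith
  rw [div_le_iff₀ (by positivity)]
  have h1 : n ^ 2 ≤ (4 * (ρ * ℓ ^ 3)) ^ 2 := pow_le_pow_left₀ hn hn4 2
  have h2 : 1 ≤ ρ * ℓ / δ := by rw [le_div_iff₀ hδ]; linarith
  calc n ^ 3 = n * n ^ 2 * 1 := by ring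
    _ ≤ n * (4 * (ρ * ℓ ^ 3)) ^ 2 * (ρ * ℓ / δ) := by
        apply mul_le_mul (mul_le_mul_of_nonneg_left h1 hn) h2 zero_le_one
        positivity
    _ = 16 / δ * (ρ ^ 3 * n) * ℓ ^ 7 := by ring

theorem B2 {n ρ ℓ δ : ℝ} (hn : 0 ≤ n) (hρ : 0 < ρ) (hδ : 0 < δ) (hℓ : 1 ≤ ℓ)
    (h : δ ≤ ρ * ℓ) (hn4 : n ≤ 4 * (ρ * ℓ ^ 3)) : n ^ 2 / ℓ ^ 6 ≤ 4 / δ ^ 2 * (ρ ^ 3 * n) := by
  have hℓ0 : 0 < ℓ := by linarith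
  rw [div_le_iff₀ (by positivity)]
  calc n ^ 2 = n * n * 1 := by ring
    _ ≤ n * (4 * (ρ * ℓ ^ 3)) * ((ρ * ℓ / δ) ^ 2 * ℓ) := by
        apply mul_le_mul (mul_le_mul_of_nonneg_left hn4 hn) (one_le_aux hδ hℓ h) zero_le_one
        positivity
    _ = 4 / δ ^ 2 * (ρ ^ 3 * n) * ℓ ^ 6 := by ring

theorem B3 {n ρ ℓ : ℝ} (hn : 0 ≤ n) (hℓ : 1 ≤ ℓ)
    (hn4 : n ≤ 4 * (ρ * ℓ ^ 3)) : n ^ 4 / ℓ ^ 9 ≤ 64 * (ρ ^ 3 * n) := by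
  have hℓ0 : 0 < ℓ := by linarith
  rw [div_le_iff₀ (by positivity)]
  have h1 : n ^ 3 ≤ (4 * (ρ * ℓ ^ 3)) ^ 3 := pow_le_pow_left₀ hn hn4 3
  calc n ^ 4 = n * n ^ 3 := by ring
    _ ≤ n * (4 * (ρ * ℓ ^ 3)) ^ 3 := mul_le_mul_of_nonneg_left h1 hn
    _ = 64 * (ρ ^ 3 * n) * ℓ ^ 9 := by ring

theorem main_sq {b n ρ ℓ : ℝ} (hb : 0 < b) (hn : 0 ≤ n) (hρ : 0 < ρ) (hℓ : 0 < ℓ) :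
    ρ ^ 2 * b / 2 * n - ρ ^ 3 * b / 3 * ℓ ^ 3 ≤ b * n ^ 3 / (6 * ℓ ^ 6) := by
  have h1 : b * n ^ 3 / (6 * ℓ ^ 6) - (ρ ^ 2 * b / 2 * n - ρ ^ 3 * b / 3 * ℓ ^ 3) =
      b / (6 * ℓ ^ 6) * ((n - ρ * ℓ ^ 3) ^ 2 * (n + 2 * (ρ * ℓ ^ 3))) := by
    field_simp
    ring
  have h2 : 0 ≤ b / (6 * ℓ ^ 6) * ((n - ρ * ℓ ^ 3) ^ 2 * (n + 2 * (ρ * ℓ ^ 3))) := by
    positivity
  linarith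

end TNG_

open TNG_

theorem tng_proof : Stmt_TNG := by
  intro b C g₀ ℓ₁ hb hC hg hℓ₁
  obtain ⟨δ, hδ⟩ : ∃ δ : ℝ, δ = min (Real.sqrt g₀ / 8) 1 := ⟨_, rfl⟩
  have hδ0 : 0 < δ := by
    rw [hδ]
    exact lt_min (by positivity) one_pos
  have hδ1 : δ ≤ 1 := by rw [hδ]; exact min_le_right _ _
  have hδg : δ ≤ Real.sqrt g₀ / 8 := by rw [hδ]; exact min_le_left _ _
  have hg64 : 64 * δ ^ 2 ≤ g₀ := by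
    have h1 : (8 * δ) ^ 2 ≤ Real.sqrt g₀ ^ 2 := pow_le_pow_left₀ (by positivity) (by linarith) 2
    rw [Real.sq_sqrt hg.le] at h1
    linarith
  obtain ⟨S, hS⟩ : ∃ S : ℝ, S = 16 / δ + 4 / δ ^ 2 + 64 := ⟨_, rfl⟩
  have hS0 : 0 < S := by rw [hS]; positivity
  obtain ⟨K, hK⟩ : ∃ K : ℝ, K = C * (64 / δ + 16 / δ ^ 2 + 256) := ⟨_, rfl⟩
  have hK0 : 0 < K := by rw [hK]; positivity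
  obtain ⟨ρ₀, hρ₀⟩ : ∃ ρ₀ : ℝ, ρ₀ = min (min (δ / ℓ₁) (δ ^ 2)) (b / (2 * C * S)) := ⟨_, rfl⟩
  have hℓ₁0 : 0 < ℓ₁ := by linarith
  have hρ₀0 : 0 < ρ₀ := by
    rw [hρ₀]
    exact lt_min (lt_min (by positivity) (by positivity)) (by positivity)
  refine ⟨K, ρ₀, δ, hK0, hρ₀0, hδ0, ?_⟩
  intro ρ ℓ hρ hρρ h1 h2
  have hr1 : ρ ≤ δ / ℓ₁ := by
    have : ρ₀ ≤ δ / ℓ₁ := by rw [hρ₀]; exact (min_le_left _ _).trans (min_le_left _ _)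
    linarith
  have hr2 : ρ ≤ δ ^ 2 := by
    have : ρ₀ ≤ δ ^ 2 := by rw [hρ₀]; exact (min_le_left _ _).trans (min_le_right _ _)
    linarith
  have hr3 : ρ ≤ b / (2 * C * S) := by
    have : ρ₀ ≤ b / (2 * C * S) := by rw [hρ₀]; exact min_le_right _ _
    linarith
  have hℓℓ : ℓ₁ ≤ ℓ := by
    rw [le_div_iff₀ hℓ₁0] at hr1
    have h3 : ρ * ℓ₁ ≤ ρ * ℓ := hr1.trans h1
    exact le_of_mul_le_mul_left h3 hρ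
  have hℓ1 : 1 ≤ ℓ := hℓ₁.trans hℓℓ
  have hℓ0 : 0 < ℓ := by linarith
  -- `ρ ℓ³ ≥ 1`
  have hδℓ : 1 ≤ δ * ℓ := by
    have h3 : ρ * 1 ≤ ρ * (δ * ℓ) := by
      calc ρ * 1 ≤ δ ^ 2 := by linarith
        _ = δ * δ := by ring
        _ ≤ δ * (ρ * ℓ) := mul_le_mul_of_nonneg_left h1 hδ0.le
        _ = ρ * (δ * ℓ) := by ring
    exact le_of_mul_le_mul_left h3 hρ
  have hD : 1 ≤ ρ * ℓ ^ 3 := by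
    calc (1 : ℝ) = 1 * 1 := by ring
      _ ≤ (δ * ℓ) * ℓ := mul_le_mul hδℓ hℓ1 zero_le_one (by positivity)
      _ = δ * ℓ ^ 2 := by ring
      _ ≤ (ρ * ℓ) * ℓ ^ 2 := mul_le_mul_of_nonneg_right h1 (by positivity)
      _ = ρ * ℓ ^ 3 := by ring
  obtain ⟨n₁, hn₁⟩ : ∃ n₁ : ℕ, n₁ = ⌈3 * (ρ * ℓ ^ 3)⌉₊ := ⟨_, rfl⟩
  have hlow : 3 * (ρ * ℓ ^ 3) ≤ n₁ := by rw [hn₁]; exact Nat.le_ceil _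
  have hup : (n₁ : ℝ) ≤ 4 * (ρ * ℓ ^ 3) := by
    have h3 : (n₁ : ℝ) < 3 * (ρ * ℓ ^ 3) + 1 := by
      rw [hn₁]; exact Nat.ceil_lt_add_one (by positivity)
    linarith
  have hm0 : (0 : ℝ) < n₁ := by linarith
  have hn0 : 0 < n₁ := by exact_mod_cast hm0
  -- the errors at `n₁`
  have herr : C * ((n₁ : ℝ) ^ 3 / ℓ ^ 7 + (n₁ : ℝ) ^ 2 / ℓ ^ 6 + (n₁ : ℝ) ^ 4 / ℓ ^ 9) ≤
      ρ ^ 2 * b / 2 * n₁ := by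
    have e1 := B1 hm0.le hρ hδ0 hℓ1 h1 hup
    have e2 := B2 hm0.le hρ hδ0 hℓ1 h1 hup
    have e3 := B3 hm0.le hℓ1 hup
    have e4 : (n₁ : ℝ) ^ 3 / ℓ ^ 7 + (n₁ : ℝ) ^ 2 / ℓ ^ 6 + (n₁ : ℝ) ^ 4 / ℓ ^ 9 ≤
        S * (ρ ^ 3 * n₁) := by
      rw [hS]
      linarith
    rw [le_div_iff₀ (by positivity)] at hr3
    calc C * ((n₁ : ℝ) ^ 3 / ℓ ^ 7 + (n₁ : ℝ) ^ 2 / ℓ ^ 6 + (n₁ : ℝ) ^ 4 / ℓ ^ 9)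
        ≤ C * (S * (ρ ^ 3 * n₁)) := mul_le_mul_of_nonneg_left e4 hC.le
      _ = (ρ * (2 * C * S)) * (ρ ^ 2 / 2 * n₁) := by ring
      _ ≤ b * (ρ ^ 2 / 2 * n₁) := mul_le_mul_of_nonneg_right hr3 (by positivity)
      _ = ρ ^ 2 * b / 2 * n₁ := by ring
  have hmain1 : 3 / 2 * (ρ ^ 2 * b * n₁) ≤ b * (n₁ : ℝ) ^ 3 / (6 * ℓ ^ 6) := by
    rw [le_div_iff₀ (by positivity)]
    have h3 : (3 * (ρ * ℓ ^ 3)) ^ 2 ≤ (n₁ : ℝ) ^ 2 := pow_le_pow_left₀ (by positivity) hlow 2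
    calc 3 / 2 * (ρ ^ 2 * b * n₁) * (6 * ℓ ^ 6) = b * n₁ * (3 * (ρ * ℓ ^ 3)) ^ 2 := by ring
      _ ≤ b * n₁ * (n₁ : ℝ) ^ 2 := mul_le_mul_of_nonneg_left h3 (by positivity)
      _ = b * (n₁ : ℝ) ^ 3 := by ring
  obtain ⟨e1, he1⟩ : ∃ e1 : ℝ, e1 = b * (n₁ : ℝ) ^ 3 / (6 * ℓ ^ 6) - C * ((n₁ : ℝ) ^ 3 / ℓ ^ 7 +
      (n₁ : ℝ) ^ 2 / ℓ ^ 6 + (n₁ : ℝ) ^ 4 / ℓ ^ 9) := ⟨_, rfl⟩
  have he1' : ρ ^ 2 * b * n₁ ≤ e1 := by rw [he1]; linarith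
  have hpos : 0 < ρ ^ 2 * b * n₁ := by positivity
  refine ⟨n₁, hn0, hℓℓ, ?_, ?_, ?_, ?_⟩
  · -- `n₁² ≤ g₀ ℓ⁴`
    have h3 : (n₁ : ℝ) ≤ 8 * δ * ℓ ^ 2 := by
      calc (n₁ : ℝ) ≤ 4 * (ρ * ℓ ^ 3) := hup
        _ = 4 * (ρ * ℓ) * ℓ ^ 2 := by ring
        _ ≤ 4 * (2 * δ) * ℓ ^ 2 := by
            apply mul_le_mul_of_nonneg_right _ (by positivity)
            linarith
        _ = 8 * δ * ℓ ^ 2 := by ring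
    calc (n₁ : ℝ) ^ 2 ≤ (8 * δ * ℓ ^ 2) ^ 2 := pow_le_pow_left₀ hm0.le h3 2
      _ = 64 * δ ^ 2 * ℓ ^ 4 := by ring
      _ ≤ g₀ * ℓ ^ 4 := mul_le_mul_of_nonneg_right hg64 (by positivity)
  · rw [← he1]
    linarith
  · intro n hn
    have hnn : (n : ℝ) ≤ n₁ := by exact_mod_cast hn
    have hn4 : (n : ℝ) ≤ 4 * (ρ * ℓ ^ 3) := hnn.trans hup
    have hn00 : (0 : ℝ) ≤ n := Nat.cast_nonneg n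
    have e1 := TNG_.A1 hn00 hρ hδ0 hℓ1 h1 hn4
    have e2 := TNG_.A2 hn00 hρ hδ0 hℓ1 h1 hn4
    have e3 := TNG_.A3 hn00 hℓ1 hn4
    have e4 : (n : ℝ) ^ 3 / ℓ ^ 7 + (n : ℝ) ^ 2 / ℓ ^ 6 + (n : ℝ) ^ 4 / ℓ ^ 9 ≤
        (64 / δ + 16 / δ ^ 2 + 256) * (ρ ^ 4 * ℓ ^ 3) := by linarith
    have e5 : C * ((n : ℝ) ^ 3 / ℓ ^ 7 + (n : ℝ) ^ 2 / ℓ ^ 6 + (n : ℝ) ^ 4 / ℓ ^ 9) ≤
        K * (ρ ^ 4 * ℓ ^ 3) := by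
      rw [hK, mul_assoc]
      exact mul_le_mul_of_nonneg_left e4 hC.le
    have e6 := main_sq hb hn00 hρ hℓ0
    have e7 : (ρ ^ 3 * b / 3 + K * ρ ^ 4) * ℓ ^ 3 =
        ρ ^ 3 * b / 3 * ℓ ^ 3 + K * (ρ ^ 4 * ℓ ^ 3) := by ring
    rw [e7]
    linarith
  · intro n hn
    rw [← he1]
    obtain ⟨q, hq⟩ : ∃ q : ℕ, q = n / n₁ := ⟨_, rfl⟩
    have hq1 : 1 ≤ q := by
      rw [hq]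
      exact (Nat.one_le_div_iff hn0).2 hn
    have hlt : n < (q + 1) * n₁ := by
      rw [hq]
      exact Nat.lt_mul_of_div_lt (Nat.lt_succ_self _) hn0
    have hle : n ≤ 2 * q * n₁ := by
      have h3 : (q + 1) * n₁ ≤ 2 * q * n₁ := Nat.mul_le_mul_right _ (by omega)
      omega
    have hle' : (n : ℝ) ≤ 2 * q * n₁ := by exact_mod_cast hle
    have h3 : ρ ^ 2 * b / 2 * n ≤ q * (ρ ^ 2 * b * n₁) := by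
      calc ρ ^ 2 * b / 2 * n ≤ ρ ^ 2 * b / 2 * (2 * q * n₁) :=
            mul_le_mul_of_nonneg_left hle' (by positivity)
        _ = q * (ρ ^ 2 * b * n₁) := by ring
    have h4 : (q : ℝ) * (ρ ^ 2 * b * n₁) ≤ q * e1 :=
      mul_le_mul_of_nonneg_left he1' (Nat.cast_nonneg q)
    have h5 : 0 ≤ (ρ ^ 3 * b / 3 + K * ρ ^ 4) * ℓ ^ 3 := by positivity
    rw [← hq]
    linarith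

end Pool.Agent.TBL
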