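import Pool.Agent.TBL.Stmts

/-!
# Three-body Bose gases (MP_80dc41_mp), module URB: averages of the weight
-/

set_option autoImplicit false

open MeasureTheory Filter Topology
open scoped ContDiff

namespace Pool.Agent.TBL

open Pool.Agent.TBG

namespace URB_

lemma den_pos {ℓ t : ℝ} (hℓ : 1 ≤ ℓ) (ht : 0 ≤ t) :
    ℓ ≤ ℓ + ℓ ^ (1 / 2 : ℝ) * t ^ (3 / 2 : ℝ) := by
  have h1 : 0 ≤ ℓ ^ (1 / 2 : ℝ) * t ^ (3 / 2 : ℝ) :=
    mul_nonneg (Real.rpow_nonneg (by linarith) _) (Real.rpow_nonneg ht _)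
  linarith

lemma Ur_nonneg {ℓ t : ℝ} (hℓ : 1 ≤ ℓ) (ht : 0 ≤ t) : 0 ≤ Ur ℓ t := by
  unfold Ur
  have := den_pos hℓ ht
  exact inv_nonneg.2 (by linarith)

lemma Ur_le {ℓ t : ℝ} (hℓ : 1 ≤ ℓ) (ht : 0 ≤ t) : Ur ℓ t ≤ ℓ⁻¹ := by
  unfold Ur
  have := den_pos hℓ ht
  exact inv_anti₀ (by linarith) this

lemma Ur_le' {ℓ t : ℝ} (hℓ : 1 ≤ ℓ) (ht : 0 < t) :
    Ur ℓ t ≤ ℓ ^ (-(1 / 2) : ℝ) * t ^ (-(3 / 2) : ℝ) := by
  unfold Ur
  have h0 : 0 < ℓ := by linarith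
  have h1 : 0 < ℓ ^ (1 / 2 : ℝ) * t ^ (3 / 2 : ℝ) :=
    mul_pos (Real.rpow_pos_of_pos h0 _) (Real.rpow_pos_of_pos ht _)
  rw [Real.rpow_neg h0.le, Real.rpow_neg ht.le, ← mul_inv]
  exact inv_anti₀ h1 (by linarith)

lemma Ur_meas (ℓ : ℝ) (z : E) : Measurable fun y : E => Ur ℓ ‖y - z‖ := by
  unfold Ur
  fun_prop

lemma pow_id (j : ℕ) : (((16 ^ j : ℕ) : ℝ)) ^ (3 / 2 : ℝ) = (64 : ℝ) ^ j := by
  have h1 : (((16 ^ j : ℕ) : ℝ)) = ((4 : ℝ) ^ j) ^ (2 : ℝ) := by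
    rw [show (2 : ℝ) = ((2 : ℕ) : ℝ) by norm_num, Real.rpow_natCast, ← pow_mul, mul_comm j 2,
      pow_mul]
    push_cast
    norm_num
  rw [h1, ← Real.rpow_mul (by positivity)]
  rw [show (2 : ℝ) * (3 / 2) = ((3 : ℕ) : ℝ) by norm_num, Real.rpow_natCast, ← pow_mul,
    mul_comm j 3, pow_mul]
  norm_num

end URB_

open URB_ in
theorem urb_proof (hMES : Stmt_MES) (_hCEL : Stmt_CEL) (hNPP : Stmt_NPP) : Stmt_URB := by
  obtain ⟨C, hC, hN⟩ := hNPP (3 / 2) (by norm_num) (by norm_num)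
  refine ⟨C, hC, ?_⟩
  intro ℓ j z x hℓ
  have hℓ0 : 0 < ℓ := by linarith
  refine ⟨?_, ⟨Ur_meas ℓ z, ℓ⁻¹, fun y => ?_⟩, fun y =>
    ⟨Ur_nonneg hℓ (norm_nonneg _), Ur_le hℓ (norm_nonneg _)⟩⟩
  swap
  · rw [abs_of_nonneg (Ur_nonneg hℓ (norm_nonneg _))]
    exact Ur_le hℓ (norm_nonneg _)
  set m : ℝ := ((16 ^ j : ℕ) : ℝ) with hm
  have hm0 : 0 < m := by rw [hm]; positivity
  set s : ℝ := ℓ / m with hs
  have hs0 : 0 < s := by rw [hs]; positivity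
  obtain ⟨hSm, -, -, -, hS1, -, -, -⟩ := hMES s hs0
  obtain ⟨-, -, -, -, -, -, -, hL2⟩ := hMES ℓ hℓ0
  -- the corner
  set a : E := WithLp.toLp 2 (fun c => s * (⌊m * x c / ℓ⌋ : ℝ)) with ha
  have hac : ∀ c, a c = s * (⌊m * x c / ℓ⌋ : ℝ) := fun c => rfl
  set g : E → ℝ := fun y' => ‖(z - a) - y'‖ ^ (-(3 / 2) : ℝ) with hg
  obtain ⟨hgi, hgle⟩ := hN s hs0 (z - a)
  have hg0 : ∀ y', 0 ≤ g y' := fun y' => Real.rpow_nonneg (norm_nonneg _) _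
  -- integrability on the small cube
  have hgS : IntegrableOn g (Lam s) := by
    have h1 : Integrable g ((ENNReal.ofReal (s ^ 3))⁻¹ • (volume.restrict (Lam s))) := hgi
    have hc0 : (ENNReal.ofReal (s ^ 3))⁻¹ ≠ 0 := ENNReal.inv_ne_zero.2 ENNReal.ofReal_ne_top
    have hc1 : (ENNReal.ofReal (s ^ 3))⁻¹ ≠ ⊤ := by
      rw [ne_eq, ENNReal.inv_eq_top, ENNReal.ofReal_eq_zero, not_le]
      positivity
    exact (integrable_smul_measure hc0 hc1).1 h1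
  set G : E → ℝ := (Lam s).indicator g with hG
  have hGi : Integrable G := (integrable_indicator_iff hSm).2 hgS
  have hG0 : ∀ y, 0 ≤ G y := fun y => Set.indicator_nonneg (fun y _ => hg0 y) y
  have hGle : ∫ y, G y ≤ s ^ 3 * (C * s ^ (-(3 / 2) : ℝ)) := by
    have h1 : ∫ y, G y = ∫ y in Lam s, g y := integral_indicator hSm
    have h2 := hS1 g
    have h3 : ∫ y in Lam s, g y = s ^ 3 * ∫ y, g y ∂(nuc s) := by
      rw [h2, ← mul_assoc, mul_inv_cancel₀ (by positivity), one_mul]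
    rw [h1, h3]
    exact mul_le_mul_of_nonneg_left hgle (by positivity)
  set h : E → ℝ := fun y => ℓ ^ (-(1 / 2) : ℝ) * G (y - a) with hh
  have hhi : Integrable h := (hGi.comp_sub_right a).const_mul _
  have hc : 0 ≤ ℓ ^ (-(1 / 2) : ℝ) := Real.rpow_nonneg hℓ0.le _
  have hh0 : ∀ y, 0 ≤ h y := fun y => mul_nonneg hc (hG0 _)
  obtain ⟨hhn, hhle⟩ := hL2 h hh0 hhi
  have hhint : ∫ y, h y = ℓ ^ (-(1 / 2) : ℝ) * ∫ y, G y := by
    rw [hh, integral_const_mul, integral_sub_right_eq_self (fun y => G y) a]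
  have hcell : ∀ y, 0 ≤ cell ℓ (16 ^ j) x y := by
    intro y; unfold cell; split_ifs <;> norm_num
  -- comparison
  have hne : ∀ᵐ y ∂(nuc ℓ), y ≠ z := by
    rw [ae_iff]
    have h1 : {y : E | ¬ y ≠ z} = {z} := by ext y; simp
    rw [h1]
    unfold nuc
    rw [Measure.smul_apply, smul_eq_mul]
    have h2 : (volume.restrict (Lam ℓ)) {z} = 0 := by
      refine le_antisymm ((Measure.restrict_apply_le _ _).trans ?_) bot_le
      rw [measure_singleton]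
    rw [h2, mul_zero]
  have hcomp : ∫ y, cell ℓ (16 ^ j) x y * Ur ℓ ‖y - z‖ ∂(nuc ℓ) ≤ ∫ y, h y ∂(nuc ℓ) := by
    apply integral_mono_of_nonneg
    · exact ae_of_all _ fun y => mul_nonneg (hcell y) (Ur_nonneg hℓ (norm_nonneg _))
    · exact hhn
    · filter_upwards [hne] with y hy
      by_cases hsame : Same ℓ (16 ^ j) x y
      · have hc1 : cell ℓ (16 ^ j) x y = 1 := by unfold cell; rw [if_pos hsame]
        rw [hc1, one_mul]
        have hmem : y - a ∈ Lam s := by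
          intro c
          have h1 := hsame c
          have h2 : (⌊m * x c / ℓ⌋ : ℝ) ≤ m * y c / ℓ := by
            have h3 := Int.floor_le (m * y c / ℓ)
            have h4 : ⌊m * x c / ℓ⌋ = ⌊m * y c / ℓ⌋ := h1
            rw [h4]; exact h3
          have h3 : m * y c / ℓ < (⌊m * x c / ℓ⌋ : ℝ) + 1 := by
            have h3 := Int.lt_floor_add_one (m * y c / ℓ)
            have h4 : ⌊m * x c / ℓ⌋ = ⌊m * y c / ℓ⌋ := h1
            rw [h4]; exact h3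
          have h5 : s * (m * y c / ℓ) = y c := by rw [hs]; field_simp
          have h6 : (y - a) c = y c - a c := rfl
          rw [h6, hac c]
          constructor
          · have := mul_le_mul_of_nonneg_left h2 hs0.le
            rw [h5] at this
            linarith
          · have := mul_le_mul_of_nonneg_left h3.le hs0.le
            rw [h5] at this
            linarith
        have hGy : G (y - a) = ‖y - z‖ ^ (-(3 / 2) : ℝ) := by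
          rw [hG, Set.indicator_of_mem hmem]
          show ‖(z - a) - (y - a)‖ ^ (-(3 / 2) : ℝ) = _
          rw [sub_sub_sub_cancel_right, norm_sub_rev]
        show Ur ℓ ‖y - z‖ ≤ ℓ ^ (-(1 / 2) : ℝ) * G (y - a)
        rw [hGy]
        exact Ur_le' hℓ (norm_pos_iff.2 (sub_ne_zero.2 hy))
      · have hc1 : cell ℓ (16 ^ j) x y = 0 := by unfold cell; rw [if_neg hsame]
        rw [hc1, zero_mul]
        exact hh0 y
  -- arithmetic
  have hfin : m ^ 3 * ((ℓ ^ 3)⁻¹ * (ℓ ^ (-(1 / 2) : ℝ) * (s ^ 3 * (C * s ^ (-(3 / 2) : ℝ))))) =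
      C * (ℓ ^ 2)⁻¹ * (64 : ℝ) ^ j := by
    have h1 : s ^ (-(3 / 2) : ℝ) = ℓ ^ (-(3 / 2) : ℝ) * (64 : ℝ) ^ j := by
      rw [hs, Real.div_rpow hℓ0.le hm0.le, Real.rpow_neg hm0.le, hm, pow_id, div_inv_eq_mul]
    have h2 : ℓ ^ (-(1 / 2) : ℝ) * ℓ ^ (-(3 / 2) : ℝ) = (ℓ ^ 2)⁻¹ := by
      rw [← Real.rpow_add hℓ0, show (-(1 / 2) + -(3 / 2) : ℝ) = -((2 : ℕ) : ℝ) by norm_num,
        Real.rpow_neg hℓ0.le, Real.rpow_natCast]
    have h3 : m ^ 3 * ((ℓ ^ 3)⁻¹ * s ^ 3) = 1 := by rw [hs]; field_simp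
    calc m ^ 3 * ((ℓ ^ 3)⁻¹ * (ℓ ^ (-(1 / 2) : ℝ) * (s ^ 3 * (C * s ^ (-(3 / 2) : ℝ)))))
        = (m ^ 3 * ((ℓ ^ 3)⁻¹ * s ^ 3)) * (C * (ℓ ^ (-(1 / 2) : ℝ) * s ^ (-(3 / 2) : ℝ))) := by ring
      _ = C * (ℓ ^ (-(1 / 2) : ℝ) * (ℓ ^ (-(3 / 2) : ℝ) * (64 : ℝ) ^ j)) := by rw [h3, h1]; ring
      _ = C * (ℓ ^ (-(1 / 2) : ℝ) * ℓ ^ (-(3 / 2) : ℝ)) * (64 : ℝ) ^ j := by ring
      _ = C * (ℓ ^ 2)⁻¹ * (64 : ℝ) ^ j := by rw [h2]
  rw [← hfin]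
  refine mul_le_mul_of_nonneg_left ?_ (by positivity)
  refine hcomp.trans (hhle.trans ?_)
  refine mul_le_mul_of_nonneg_left ?_ (by positivity)
  rw [hhint]
  exact mul_le_mul_of_nonneg_left hGle hc

end Pool.Agent.TBL
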