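import Pool.Agent.TBG.All
import Pool.Agent.TBL.BMC
import Pool.Agent.TBL.MES
import Pool.Agent.TBL.MEP
import Pool.Agent.TBL.AVA
import Pool.Agent.TBL.AVB
import Pool.Agent.TBL.PQF
import Pool.Agent.TBL.ATF
import Pool.Agent.TBL.FAT
import Pool.Agent.TBL.CNT
import Pool.Agent.TBL.SFA
import Pool.Agent.TBL.SFC
import Pool.Agent.TBL.SFD
import Pool.Agent.TBL.SFB
import Pool.Agent.TBL.SFK
import Pool.Agent.TBL.POM
import Pool.Agent.TBL.IBC
import Pool.Agent.TBL.SKF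
import Pool.Agent.TBL.SLI
import Pool.Agent.TBL.CRA
import Pool.Agent.TBL.CRB
import Pool.Agent.TBL.QFB
import Pool.Agent.TBL.QFM
import Pool.Agent.TBL.OPK
import Pool.Agent.TBL.KIM
import Pool.Agent.TBL.ENI
import Pool.Agent.TBL.NPP
import Pool.Agent.TBL.NQQ
import Pool.Agent.TBL.NUA
import Pool.Agent.TBL.NUG
import Pool.Agent.TBL.NUM
import Pool.Agent.TBL.OPD
import Pool.Agent.TBL.OPQ
import Pool.Agent.TBL.SCH
import Pool.Agent.TBL.OPW
import Pool.Agent.TBL.OPB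
import Pool.Agent.TBL.OPU
import Pool.Agent.TBL.SLT
import Pool.Agent.TBL.QIA
import Pool.Agent.TBL.GBB
import Pool.Agent.TBL.BZA
import Pool.Agent.TBL.BZE
import Pool.Agent.TBL.BTW
import Pool.Agent.TBL.BON
import Pool.Agent.TBL.CMB
import Pool.Agent.TBL.BSM
import Pool.Agent.TBL.CAR
import Pool.Agent.TBL.COR
import Pool.Agent.TBL.CEL
import Pool.Agent.TBL.AMF
import Pool.Agent.TBL.PCO
import Pool.Agent.TBL.PCL
import Pool.Agent.TBL.URB
import Pool.Agent.TBL.TEL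
import Pool.Agent.TBL.RSV
import Pool.Agent.TBL.PRF
import Pool.Agent.TBL.SCA
import Pool.Agent.TBL.GRF
import Pool.Agent.TBL.QTF
import Pool.Agent.TBL.IMG
import Pool.Agent.TBL.IMQ
import Pool.Agent.TBL.IMK
import Pool.Agent.TBL.IMF
import Pool.Agent.TBL.IMB
import Pool.Agent.TBL.IMZ
import Pool.Agent.TBL.IMY
import Pool.Agent.TBL.IMN
import Pool.Agent.TBL.TIL
import Pool.Agent.TBL.IMM
import Pool.Agent.TBL.IMD
import Pool.Agent.TBL.IMX
import Pool.Agent.TBL.IMW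
import Pool.Agent.TBL.BDI
import Pool.Agent.TBL.QSF
import Pool.Agent.TBL.CSQ
import Pool.Agent.TBL.CSW
import Pool.Agent.TBL.CSG
import Pool.Agent.TBL.CST
import Pool.Agent.TBL.KER
import Pool.Agent.TBL.CO0
import Pool.Agent.TBL.FRZ
import Pool.Agent.TBL.PSA
import Pool.Agent.TBL.GRP
import Pool.Agent.TBL.TLA
import Pool.Agent.TBL.TLC
import Pool.Agent.TBL.TNG
import Pool.Agent.TBL.FVL
import Pool.Agent.TBL.SCX
import Pool.Agent.TBL.PTE
import Pool.Agent.TBL.DNA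
import Pool.Agent.TBL.DNM
import Pool.Agent.TBL.DNJ
import Pool.Agent.TBL.DNL
import Pool.Agent.TBL.DNB
import Pool.Agent.TBL.DEN
import Pool.Agent.TBL.LOB

/-!
# Three-body Bose gases (MP_80dc41_mp), lower bound: assembly
-/

set_option autoImplicit false

namespace Pool.Agent.TBL

open Pool.Agent.TBG

theorem r_bmc : Stmt_BMC := bmc_proof
theorem r_mes : Stmt_MES := mes_proof
theorem r_mep : Stmt_MEP := mep_proof r_mes
theorem r_ava : Stmt_AVA := ava_proof r_bmc r_mes r_mep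
theorem r_avb : Stmt_AVB := avb_proof r_bmc r_mes r_ava
theorem r_pqf : Stmt_PQF := pqf_proof r_bmc r_mep r_ava r_avb
theorem r_atf : Stmt_ATF := atf_proof r_bmc r_ava r_avb r_pqf
theorem r_fat : Stmt_FAT := fat_proof r_bmc r_mes r_mep r_ava r_avb
theorem r_cnt : Stmt_CNT := cnt_proof r_bmc r_pqf r_atf
theorem r_sfa : Stmt_SFA := sfa_proof r_bmc r_pqf r_ava r_avb
theorem r_sfc : Stmt_SFC := sfc_proof r_bmc r_mes r_pqf r_ava r_avb r_atf r_fat
theorem r_sfd : Stmt_SFD := sfd_proof r_bmc r_pqf r_ava r_avb r_atf r_sfa r_mep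
theorem r_sfb : Stmt_SFB := sfb_proof r_atf r_sfc r_sfd
theorem r_sfk : Stmt_SFK := sfk_proof r_bmc r_mes r_mep r_ava r_atf r_sfb
theorem r_pom : Stmt_POM := pom_proof r_bmc r_mep r_atf r_fat
theorem r_ibc : Stmt_IBC := ibc_proof r_mes
theorem r_skf : Stmt_SKF := skf_proof
theorem r_sli : Stmt_SLI := sli_proof r_bmc
theorem r_cra : Stmt_CRA := cra_proof r_bmc r_mes r_mep r_ava r_avb r_ibc r_skf r_sli
theorem r_crb : Stmt_CRB := crb_proof r_bmc r_mep r_atf
theorem r_qfb : Stmt_QFB := qfb_proof r_bmc r_mes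
theorem r_qfm : Stmt_QFM := qfm_proof r_bmc r_mes r_skf
theorem r_opk : Stmt_OPK := opk_proof r_bmc r_mes r_qfb
theorem r_kim : Stmt_KIM := kim_proof r_bmc r_mes r_mep r_ava r_avb r_atf r_skf r_sli r_qfb r_qfm r_opk
theorem r_eni : Stmt_ENI := eni_proof r_bmc r_mep r_atf r_sli r_kim r_pom r_cra r_crb
theorem r_npp : Stmt_NPP := npp_proof r_mes
theorem r_nqq : Stmt_NQQ := nqq_proof r_mes
theorem r_nua : Stmt_NUA := nua_proof r_bmc r_mes r_npp r_nqq
theorem r_nug : Stmt_NUG := nug_proof r_bmc r_mes r_npp r_nqq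
theorem r_num : Stmt_NUM := num_proof r_nua r_nug
theorem r_opd : Stmt_OPD := opd_proof r_bmc r_mes r_skf
theorem r_opq : Stmt_OPQ := opq_proof r_bmc r_mes r_skf r_opd r_qfm
theorem r_sch : Stmt_SCH := sch_proof r_bmc r_mes
theorem r_opw : Stmt_OPW := opw_proof r_bmc r_mes r_num
theorem r_opb : Stmt_OPB := opb_proof r_bmc r_mes r_num r_sch r_opw
theorem r_opu : Stmt_OPU := opu_proof r_bmc r_mes
theorem r_slt : Stmt_SLT := slt_proof r_bmc r_mes r_mep r_ava r_avb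
theorem r_qia : Stmt_QIA := qia_proof r_bmc r_mes r_mep r_ava r_avb r_atf
theorem r_gbb : Stmt_GBB := gbb_proof r_bmc r_mes r_mep r_num r_opb r_opu r_qia r_slt
theorem r_bza : Stmt_BZA := bza_proof r_bmc r_mes r_mep r_ava r_avb r_atf r_skf r_opd r_opq r_qfb r_qfm r_slt
theorem r_bze : Stmt_BZE := bze_proof r_pqf r_atf r_qia r_gbb r_bza
theorem r_btw : Stmt_BTW := btw_proof r_bmc r_mes r_mep r_atf r_fat r_skf r_qfm r_num
theorem r_bon : Stmt_BON := bon_proof r_bmc r_mes r_mep r_ava r_avb r_atf r_skf r_qfb r_qfm r_num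
theorem r_cmb : Stmt_CMB := cmb_proof
theorem r_bsm : Stmt_BSM := bsm_proof r_pqf r_qia r_atf r_btw r_bon r_bze r_cmb
theorem r_car : Stmt_CAR := car_proof
theorem r_cor : Stmt_COR := cor_proof r_bmc r_mep r_pqf r_atf r_cnt r_sfk r_sli r_qia r_eni r_bsm r_car
theorem r_cel : Stmt_CEL := cel_proof r_mes
theorem r_amf : Stmt_AMF := amf_proof r_bmc r_mes r_cel
theorem r_pco : Stmt_PCO := pco_proof
theorem r_pcl : Stmt_PCL := pcl_proof r_bmc r_mes r_cel r_pco
theorem r_urb : Stmt_URB := urb_proof r_mes r_cel r_npp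
theorem r_tel : Stmt_TEL := tel_proof r_bmc r_mes r_cel r_amf r_urb
theorem r_rsv : Stmt_RSV := rsv_proof r_bmc r_mes r_cel r_amf r_pcl r_tel
theorem r_prf : Stmt_PRF := prf_proof
theorem r_sca : Stmt_SCA := sca_proof r_prf q_lpc q_qfo
theorem r_grf : Stmt_GRF := grf_proof r_prf q_lpc q_qfo q_ibp
theorem r_qtf : Stmt_QTF := qtf_proof q_qfo
theorem r_img : Stmt_IMG := img_proof
theorem r_imq : Stmt_IMQ := imq_proof r_qtf
theorem r_imk : Stmt_IMK := imk_proof r_qtf r_img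
theorem r_imf : Stmt_IMF := imf_proof r_qtf r_imk
theorem r_imb : Stmt_IMB := imb_proof r_qtf r_img r_imk
theorem r_imz : Stmt_IMZ := imz_proof r_bmc r_skf r_qtf r_img r_imk
theorem r_imy : Stmt_IMY := imy_proof r_bmc r_qtf r_img
theorem r_imn : Stmt_IMN := imn_proof r_qtf r_img r_imk r_skf
theorem r_til : Stmt_TIL := til_proof r_mes r_img
theorem r_imm : Stmt_IMM := imm_proof r_bmc r_mes r_qtf r_img r_til
theorem r_imd : Stmt_IMD := imd_proof r_bmc r_mes r_skf r_imz r_imk r_imm r_opd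
theorem r_imx : Stmt_IMX := imx_proof r_qtf r_img
theorem r_imw : Stmt_IMW := imw_proof r_prf r_qtf r_img
theorem r_bdi : Stmt_BDI := bdi_proof r_bmc r_mes r_qtf q_qfo
theorem r_qsf : Stmt_QSF := qsf_proof r_bmc r_prf r_sca r_qtf r_img r_imw r_imy r_imq
theorem r_csq : Stmt_CSQ := csq_proof r_bmc r_mes r_prf r_sca r_qtf r_imw r_bdi r_qsf
theorem r_csw : Stmt_CSW := csw_proof r_bmc r_mes r_prf r_grf r_qtf r_imx r_imw r_imy r_bdi
theorem r_csg : Stmt_CSG := csg_proof r_bmc r_mes r_grf r_imb r_imy r_nua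
theorem r_cst : Stmt_CST := cst_proof r_bmc r_mes r_skf r_ibc r_grf r_imq r_imf r_imz r_imn r_imy
theorem r_ker : Stmt_KER := ker_proof r_bmc r_prf r_sca r_grf r_imq r_imf r_imb r_imz r_imy r_imn r_imm r_imd r_qsf r_csq r_csw r_csg r_cst
theorem r_co0 : Stmt_CO0 := co0_proof r_cor r_ker r_rsv r_sca q_adm
theorem r_frz : Stmt_FRZ := frz_proof r_bmc r_mes r_mep
theorem r_psa : Stmt_PSA := psa_proof
theorem r_grp : Stmt_GRP := grp_proof r_bmc r_mep r_frz r_psa r_sli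
theorem r_tla : Stmt_TLA := tla_proof r_bmc
theorem r_tlc : Stmt_TLC := tlc_proof r_bmc r_mep r_frz r_psa r_tla r_sli
theorem r_tng : Stmt_TNG := tng_proof
theorem r_fvl : Stmt_FVL := fvl_proof r_bmc r_mep r_grp r_tlc r_tng
theorem r_scx : Stmt_SCX := scx_proof
theorem r_pte : Stmt_PTE := pte_proof
theorem r_dna : Stmt_DNA := dna_proof
theorem r_dnm : Stmt_DNM := dnm_proof r_bmc
theorem r_dnj : Stmt_DNJ := dnj_proof r_bmc
theorem r_dnl : Stmt_DNL := dnl_proof r_bmc r_dnj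
theorem r_dnb : Stmt_DNB := dnb_proof r_bmc r_pte r_dnm r_dnj r_dnl
theorem r_den : Stmt_DEN := den_proof r_dna r_dnb
theorem r_lob : Stmt_LOB := lob_proof r_sca r_co0 r_fvl r_scx r_den q_the q_bme q_adm q_scl q_ltr

end Pool.Agent.TBL
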