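import Pool.Agent.TBL.Stmts

/-!
# Three-body Bose gases (MP_80dc41_mp), lower bound: module DNA
-/

set_option autoImplicit false

open MeasureTheory Filter Topology
open scoped ContDiff

namespace Pool.Agent.TBL

open Pool.Agent.TBG

namespace DNA_

theorem mpot {N : ℕ} {V : E → E → ℝ} (hV : Admissible V) : Measurable (fun X : Fin N → E => pot V X) := by
  unfold pot
  refine Finset.measurable_sum _ (fun i _ => Finset.measurable_sum _ (fun j _ =>
    Finset.measurable_sum _ (fun k _ => ?_)))
  split_ifs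
  · have h : Measurable (fun X : Fin N → E => (X i - X j, X i - X k)) :=
      ((measurable_pi_apply i).sub (measurable_pi_apply j)).prodMk
        ((measurable_pi_apply i).sub (measurable_pi_apply k))
    exact hV.meas.comp h
  · exact measurable_const

theorem bpot {N : ℕ} {V : E → E → ℝ} (hV : Admissible V) :
    ∃ C : ℝ, ∀ X : Fin N → E, ‖pot V X‖ ≤ C := by
  obtain ⟨C, hC⟩ := hV.bdd
  refine ⟨∑ _i : Fin N, ∑ _j : Fin N, ∑ _k : Fin N, |C|, fun X => ?_⟩
  unfold pot
  refine (norm_sum_le _ _).trans (Finset.sum_le_sum fun i _ => ?_)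
  refine (norm_sum_le _ _).trans (Finset.sum_le_sum fun j _ => ?_)
  refine (norm_sum_le _ _).trans (Finset.sum_le_sum fun k _ => ?_)
  split_ifs
  · rw [Real.norm_eq_abs, abs_of_nonneg (hV.nonneg _ _)]
    exact (hC _ _).trans (le_abs_self C)
  · simp

/-- integrability of the energy density -/
theorem ien {N : ℕ} {V : E → E → ℝ} (hV : Admissible V) {μ : Measure (Fin N → E)} {u : (Fin N → E) → ℝ}
    {g : Fin N → Fin 3 → (Fin N → E) → ℝ} (hu : MemLp u 2 μ) (hg : ∀ i c, MemLp (g i c) 2 μ) :
    Integrable (fun X => ∑ i, ∑ c, (g i c X) ^ 2 + pot V X * u X ^ 2) μ := by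
  have h1 : Integrable (fun X => ∑ i, ∑ c, (g i c X) ^ 2) μ :=
    integrable_finset_sum _ (fun i _ => integrable_finset_sum _ (fun c _ => (hg i c).integrable_sq))
  obtain ⟨C, hC⟩ := bpot (N := N) hV
  have h2 : Integrable (fun X => pot V X * u X ^ 2) μ :=
    hu.integrable_sq.bdd_mul (mpot hV).aestronglyMeasurable (Eventually.of_forall hC)
  exact h1.add h2

theorem ireal {N : ℕ} {μ : Measure (Fin N → E)} [IsFiniteMeasureOnCompacts μ] {F : (Fin N → E) → ℂ}
    (hF : MemLp F 2 μ) {f : (Fin N → E) → ℝ}
    (hf : Continuous f) (hc : HasCompactSupport f) : Integrable (fun X => F X * ((f X : ℝ) : ℂ)) μ := by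
  have h1 : MemLp (fun X => ((f X : ℝ) : ℂ)) 2 μ := by
    refine Continuous.memLp_of_hasCompactSupport (Complex.continuous_ofReal.comp hf) ?_
    exact hc.comp_left Complex.ofReal_zero
  exact hF.integrable_mul h1

theorem sq_norm (z : ℂ) : ‖z‖ ^ 2 = z.re ^ 2 + z.im ^ 2 := by
  rw [Complex.sq_norm, Complex.normSq_apply]; ring

end DNA_

open DNA_ in
theorem dna_proof : Stmt_DNA := by
  intro V N L Ψ G hV hL hT
  have hfin : ∀ (F : (Fin N → E) → ℂ) (f : (Fin N → E) → ℝ), MemLp F 2 (volume.restrict (box N L)) →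
      Continuous f → HasCompactSupport f →
      (∫ X in box N L, F X * ((f X : ℝ) : ℂ)).re = ∫ X in box N L, (F X).re * f X ∧
      (∫ X in box N L, F X * ((f X : ℝ) : ℂ)).im = ∫ X in box N L, (F X).im * f X := by
    intro F f hF hf hc
    have hi := ireal hF hf hc
    constructor
    · have := integral_re hi
      simp only [RCLike.re_to_complex] at this
      rw [← this]
      refine integral_congr_ae (Eventually.of_forall fun X => ?_)
      simp
    · have := integral_im hi
      simp only [RCLike.im_to_complex] at this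
      rw [← this]
      refine integral_congr_ae (Eventually.of_forall fun X => ?_)
      simp
  have hre : ∀ (F : (Fin N → E) → ℂ), MemLp F 2 (volume.restrict (box N L)) →
      MemLp (fun X => (F X).re) 2 (volume.restrict (box N L)) := fun F hF => hF.re
  have him : ∀ (F : (Fin N → E) → ℂ), MemLp F 2 (volume.restrict (box N L)) →
      MemLp (fun X => (F X).im) 2 (volume.restrict (box N L)) := fun F hF => hF.im
  have hw : ∀ i c, ∀ η : (Fin N → E) → ℝ, ContDiff ℝ ∞ η → HasCompactSupport η → tsupport η ⊆ box N L →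
      (∫ X in box N L, (Ψ X).re * fderiv ℝ η X (dir i c) = - ∫ X in box N L, (G i c X).re * η X) ∧
      (∫ X in box N L, (Ψ X).im * fderiv ℝ η X (dir i c) = - ∫ X in box N L, (G i c X).im * η X) := by
    intro i c η hη hc hs
    have h0 := hT.weak i c η hη hc hs
    have hd : Continuous (fun X => fderiv ℝ η X (dir i c)) :=
      (hη.continuous_fderiv (by simp)).clm_apply continuous_const
    have hdc : HasCompactSupport (fun X => fderiv ℝ η X (dir i c)) :=
      hc.fderiv_apply (𝕜 := ℝ) _
    have h1 := hfin Ψ _ hT.memL2 hd hdc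
    have h2 := hfin (G i c) _ (hT.gradL2 i c) hη.continuous hc
    constructor
    · rw [← h1.1, ← h2.1, h0, Complex.neg_re]
    · rw [← h1.2, ← h2.2, h0, Complex.neg_im]
  refine ⟨⟨hre _ hT.memL2, fun i c => hre _ (hT.gradL2 i c), fun i c η h1 h2 h3 => (hw i c η h1 h2 h3).1⟩,
    ⟨him _ hT.memL2, fun i c => him _ (hT.gradL2 i c), fun i c η h1 h2 h3 => (hw i c η h1 h2 h3).2⟩, ?_, ?_⟩
  · unfold energy enS
    rw [← integral_add (ien hV (hre _ hT.memL2) (fun i c => hre _ (hT.gradL2 i c)))
      (ien hV (him _ hT.memL2) (fun i c => him _ (hT.gradL2 i c)))]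
    refine integral_congr_ae (Eventually.of_forall fun X => ?_)
    simp only [sq_norm, Finset.sum_add_distrib]
    ring
  · rw [← integral_add (hre _ hT.memL2).integrable_sq (him _ hT.memL2).integrable_sq, ← hT.norm]
    refine integral_congr_ae (Eventually.of_forall fun X => ?_)
    simp only [sq_norm]

end Pool.Agent.TBL
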