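import Pool.Agent.TBG.Stmts

/-!
# Three-body Bose gases (MP_80dc41_mp), lower bound: definitions
-/

set_option autoImplicit false

open MeasureTheory Filter Topology
open scoped ContDiff

namespace Pool.Agent.TBL

open Pool.Agent.TBG

/-! ## one particle -/

/-- partial derivative on `ℝ³` -/
noncomputable def pd (c : Fin 3) (f : E → ℝ) (x : E) : ℝ := fderiv ℝ f x (ev c)

/-- the cube `[0,ℓ]³` -/
def Lam (ℓ : ℝ) : Set E := {x | ∀ c, 0 ≤ x c ∧ x c ≤ ℓ}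

/-- its normalised Lebesgue measure -/
noncomputable def nuc (ℓ : ℝ) : Measure E := (ENNReal.ofReal (ℓ ^ 3))⁻¹ • (volume.restrict (Lam ℓ))

/-- bounded and measurable -/
def BM {α : Type} [MeasurableSpace α] (F : α → ℝ) : Prop := Measurable F ∧ ∃ C : ℝ, ∀ X, |F X| ≤ C

/-- bounded and measurable function of two particles -/
def BM2 (a : E → E → ℝ) : Prop := BM (fun p : E × E => a p.1 p.2)

/-- bounded and measurable function of three particles -/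
def BM3 (k : E → E → E → ℝ) : Prop := BM (fun p : E × E × E => k p.1 p.2.1 p.2.2)

/-- symmetric function of three particles -/
structure Sy3 (F : E → E → E → ℝ) : Prop where
  s1 : ∀ x y z, F x y z = F y x z
  s2 : ∀ x y z, F x y z = F x z y

/-- derivative of a function of three particles in the first variable -/
noncomputable def dk (c : Fin 3) (φ : E → E → E → ℝ) (x y z : E) : ℝ := pd c (fun x' => φ x' y z) x

/-- Laplacian in the first variable -/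
noncomputable def Lk (φ : E → E → E → ℝ) (x y z : E) : ℝ := ∑ c, pd c (fun x' => dk c φ x' y z) x

/-- smooth kernels -/
structure SK (φ : E → E → E → ℝ) : Prop where
  smooth : ContDiff ℝ ∞ (fun p : E × E × E => φ p.1 p.2.1 p.2.2)
  b0 : BM3 φ
  b1 : ∀ c, BM3 (dk c φ)
  b2 : BM3 (Lk φ)

/-- the kernel functions on the cube `[0,ℓ]³` for the potential `V`: `φ` is the scattering function with Neumann
boundary conditions, `-∑ Δ φ = w - g`, where `w ≤ V` is the charge and `g` is the soft potential, `q = w² / V` -/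
structure Ker (V : E → E → ℝ) (ℓ C b : ℝ) (φ w q g : E → E → E → ℝ) : Prop where
  sk : SK φ
  syφ : Sy3 φ
  syw : Sy3 w
  syq : Sy3 q
  syg : Sy3 g
  bw : BM3 w
  bq : BM3 q
  bg : BM3 g
  neu : ∀ x ∈ Lam ℓ, ∀ y ∈ Lam ℓ, ∀ z ∈ Lam ℓ, ∀ c, (x c = 0 ∨ x c = ℓ) → dk c φ x y z = 0
  eqn : ∀ x ∈ Lam ℓ, ∀ y ∈ Lam ℓ, ∀ z ∈ Lam ℓ, Lk φ x y z + Lk φ y x z + Lk φ z x y = g x y z - w x y z
  dec0 : ∀ x ∈ Lam ℓ, ∀ y ∈ Lam ℓ, ∀ z ∈ Lam ℓ, |φ x y z| ≤ C / (1 + ‖x - y‖ + ‖x - z‖) ^ 4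
  dec1 : ∀ x ∈ Lam ℓ, ∀ y ∈ Lam ℓ, ∀ z ∈ Lam ℓ, ∀ c, |dk c φ x y z| ≤ C / (1 + ‖x - y‖ + ‖x - z‖) ^ 5
  gb : ∀ x ∈ Lam ℓ, ∀ y ∈ Lam ℓ, ∀ z ∈ Lam ℓ, |g x y z| ≤ C / ℓ ^ 6
  wq : ∀ x ∈ Lam ℓ, ∀ y ∈ Lam ℓ, ∀ z ∈ Lam ℓ, ∀ s t : ℝ,
    0 ≤ V (x - y) (x - z) * s ^ 2 - 2 * w x y z * s * t + q x y z * t ^ 2
  dmean : ∀ x, (∀ c, 0 < x c ∧ x c < ℓ) → ∀ c, ∫ y, ∫ z, dk c φ x y z ∂(nuc ℓ) ∂(nuc ℓ) = 0
  gmean : ∀ x ∈ Lam ℓ, ∫ y, ∫ z, g x y z ∂(nuc ℓ) ∂(nuc ℓ) = b / ℓ ^ 6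
  cst : b / ℓ ^ 6 - C / ℓ ^ 7 ≤ 2 * (b / ℓ ^ 6) - (∫ x, ∫ y, ∫ z, q x y z ∂(nuc ℓ) ∂(nuc ℓ) ∂(nuc ℓ))
    - 3 * ∑ c, ∫ x, ∫ y, ∫ z, (dk c φ x y z) ^ 2 ∂(nuc ℓ) ∂(nuc ℓ) ∂(nuc ℓ)

/-! ## the reserve -/

/-- the weight controlled by the reserve -/
noncomputable def Ur (ℓ s : ℝ) : ℝ := (ℓ + ℓ ^ (1 / 2 : ℝ) * s ^ (3 / 2 : ℝ))⁻¹

/-- the jump form -/
noncomputable def q1 (ℓ : ℝ) (κ : E → E → ℝ) (f g : E → ℝ) : ℝ :=
  ∫ x, ∫ y, κ x y * ((f x - f y) * (g x - g y)) ∂(nuc ℓ) ∂(nuc ℓ)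

/-- a part of the kinetic energy at large scales, `κ` being a jump kernel -/
structure Rsv (ℓ C : ℝ) (κ : E → E → ℝ) : Prop where
  bm : BM2 κ
  nonneg : ∀ x y, 0 ≤ κ x y
  symm : ∀ x y, κ x y = κ y x
  k1 : ∀ x, ∫ y, κ x y ∂(nuc ℓ) ≤ C / ℓ
  k2 : ∀ f : E → ℝ, ContDiff ℝ 1 f → q1 ℓ κ f f ≤ 3 * ∑ c, ∫ x, (pd c f x) ^ 2 ∂(nuc ℓ)
  k3 : ∀ f : E → ℝ, BM f → (ℓ ^ 2)⁻¹ * ∫ x, (f x - ∫ y, f y ∂(nuc ℓ)) ^ 2 ∂(nuc ℓ) ≤ q1 ℓ κ f f
  k4 : ∀ f : E → ℝ, BM f → ∀ z : E,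
    ∫ y, Ur ℓ ‖y - z‖ * (f y - ∫ y', f y' ∂(nuc ℓ)) ^ 2 ∂(nuc ℓ) ≤ C * q1 ℓ κ f f

/-- kinetic energy plus a third of the jump form (as a bilinear form) -/
noncomputable def Qf (ℓ : ℝ) (κ : E → E → ℝ) (f g : E → ℝ) : ℝ :=
  ∑ c, ∫ x, pd c f x * pd c g x ∂(nuc ℓ) + 1 / 3 * q1 ℓ κ f g

/-! ## many particles -/

/-- the product measure -/
noncomputable def PiM (ι : Type) [Fintype ι] (ℓ : ℝ) : Measure (ι → E) := Measure.pi (fun _ => nuc ℓ)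

/-- average over the particle `i` -/
noncomputable def av {ι : Type} [DecidableEq ι] (ℓ : ℝ) (i : ι) (F : (ι → E) → ℝ) (X : ι → E) : ℝ :=
  ∫ y, F (Function.update X i y) ∂(nuc ℓ)

/-- `F` does not depend on the particle `i` -/
def Ind {ι : Type} [DecidableEq ι] (i : ι) (F : (ι → E) → ℝ) : Prop := ∀ X y, F (Function.update X i y) = F X

/-- `∫ F²` -/
noncomputable def ns {ι : Type} [Fintype ι] (ℓ : ℝ) (F : (ι → E) → ℝ) : ℝ := ∫ X, F X ^ 2 ∂(PiM ι ℓ)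

/-- `F - P_i F` -/
noncomputable def Qa {ι : Type} [DecidableEq ι] (ℓ : ℝ) (i : ι) (F : (ι → E) → ℝ) (X : ι → E) : ℝ :=
  F X - av ℓ i F X

/-- `P_i P_j P_k F` -/
noncomputable def A3 {ι : Type} [DecidableEq ι] (ℓ : ℝ) (i j k : ι) (F : (ι → E) → ℝ) : (ι → E) → ℝ :=
  av ℓ i (av ℓ j (av ℓ k F))

/-- the ordered triples of distinct particles -/
def D3 (ι : Type) [Fintype ι] [DecidableEq ι] : Finset (ι × ι × ι) :=
  Finset.univ.filter (fun t => t.1 ≠ t.2.1 ∧ t.1 ≠ t.2.2 ∧ t.2.1 ≠ t.2.2)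

/-- the ordered pairs of distinct particles different from `i` -/
def D2 {ι : Type} [Fintype ι] [DecidableEq ι] (i : ι) : Finset (ι × ι) :=
  Finset.univ.filter (fun p => i ≠ p.1 ∧ i ≠ p.2 ∧ p.1 ≠ p.2)

/-- derivative in the coordinate `c` of the particle `i` -/
noncomputable def di {ι : Type} [Fintype ι] [DecidableEq ι] (i : ι) (c : Fin 3) (u : (ι → E) → ℝ) (X : ι → E) : ℝ :=
  fderiv ℝ u X (Pi.single i (ev c))

/-- the interaction energy -/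
noncomputable def potS {ι : Type} [Fintype ι] [DecidableEq ι] (V : E → E → ℝ) (X : ι → E) : ℝ :=
  1 / 6 * ∑ t ∈ D3 ι, V (X t.1 - X t.2.1) (X t.1 - X t.2.2)

/-- the energy on the cube (with the normalised measure) -/
noncomputable def enL {ι : Type} [Fintype ι] [DecidableEq ι] (V : E → E → ℝ) (ℓ : ℝ) (u : (ι → E) → ℝ) : ℝ :=
  ∫ X, (∑ i, ∑ c, (di i c u X) ^ 2 + potS V X * u X ^ 2) ∂(PiM ι ℓ)

/-- `e` is a lower bound of the Neumann energy of the particles `ι` in the cube of side `ℓ` -/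
def LBc (V : E → E → ℝ) (ι : Type) [Fintype ι] [DecidableEq ι] (ℓ e : ℝ) : Prop :=
  ∀ u : (ι → E) → ℝ, ContDiff ℝ 1 u → HasCompactSupport u → e * ns ℓ u ≤ enL V ℓ u

/-- the same for `N` particles in `[-L/2,L/2]³` and smooth functions -/
def LBs (V : E → E → ℝ) (N : ℕ) (L e : ℝ) : Prop :=
  ∀ u : (Fin N → E) → ℝ, ContDiff ℝ ∞ u → HasCompactSupport u →
    e * ∫ X in box N L, u X ^ 2 ≤ ∫ X in box N L, (∑ i, ∑ c, (di i c u X) ^ 2 + potS V X * u X ^ 2)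

/-- the jump form in the variable of the particle `i` -/
noncomputable def qI {ι : Type} [Fintype ι] [DecidableEq ι] (ℓ : ℝ) (κ : E → E → ℝ) (i : ι)
    (F : (ι → E) → ℝ) : ℝ :=
  ∫ X, q1 ℓ κ (fun x => F (Function.update X i x)) (fun x => F (Function.update X i x)) ∂(PiM ι ℓ)

/-- the matrix elements of the second order -/
noncomputable def Bf {ι : Type} [Fintype ι] [DecidableEq ι] (ℓ : ℝ) (κ : E → E → ℝ) (φ : E → E → E → ℝ)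
    (u : (ι → E) → ℝ) (i j k l m : ι) : ℝ :=
  ∫ X, A3 ℓ i j k u X * A3 ℓ i l m u X *
    Qf ℓ κ (fun x => φ x (X j) (X k)) (fun x => φ x (X l) (X m)) ∂(PiM ι ℓ)

/-- the norm of the integral operator with kernel `∇φ` in the particles `l`, `m` -/
noncomputable def GB {ι : Type} [Fintype ι] [DecidableEq ι] (ℓ : ℝ) (φ : E → E → E → ℝ) (l m : ι)
    (A : (ι → E) → ℝ) : ℝ :=
  ∫ X, ∑ c, ∫ x, (∫ y, ∫ z, dk c φ x y z * A (Function.update (Function.update X l y) m z)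
    ∂(nuc ℓ) ∂(nuc ℓ)) ^ 2 ∂(nuc ℓ) ∂(PiM ι ℓ)

/-- the bound in a cube -/
def CoreC (V : E → E → ℝ) (b : ℝ) : Prop :=
  ∃ C g₀ ℓ₁ : ℝ, 0 < C ∧ 0 < g₀ ∧ 1 ≤ ℓ₁ ∧ ∀ (ι : Type) [Fintype ι] [DecidableEq ι] (ℓ : ℝ), ℓ₁ ≤ ℓ →
    (Fintype.card ι : ℝ) ^ 2 ≤ g₀ * ℓ ^ 4 →
    LBc V ι ℓ (b * (Fintype.card ι : ℝ) ^ 3 / (6 * ℓ ^ 6) - C * ((Fintype.card ι : ℝ) ^ 3 / ℓ ^ 7
      + (Fintype.card ι : ℝ) ^ 2 / ℓ ^ 6 + (Fintype.card ι : ℝ) ^ 4 / ℓ ^ 9))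

/-- the bound in large boxes -/
def TLB (V : E → E → ℝ) (b : ℝ) : Prop :=
  ∃ K ρ₀ δ : ℝ, 0 < K ∧ 0 < ρ₀ ∧ 0 < δ ∧ ∀ ρ, 0 < ρ → ρ < ρ₀ → ∀ L, δ / ρ ≤ L → ∀ N : ℕ,
    LBs V N L (ρ ^ 2 * b / 2 * N - (ρ ^ 3 * b / 3 + K * ρ ^ 4) * L ^ 3)

/-! ## the grids -/

/-- same cell of the grid of side `ℓ/m` -/
def Same (ℓ : ℝ) (m : ℕ) (x y : E) : Prop := ∀ c, ⌊(m : ℝ) * x c / ℓ⌋ = ⌊(m : ℝ) * y c / ℓ⌋

open Classical in
/-- indicator of the same cell -/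
noncomputable def cell (ℓ : ℝ) (m : ℕ) (x y : E) : ℝ := if Same ℓ m x y then 1 else 0

/-- average over the cells -/
noncomputable def Am (ℓ : ℝ) (m : ℕ) (f : E → ℝ) (x : E) : ℝ := (m : ℝ) ^ 3 * ∫ y, cell ℓ m x y * f y ∂(nuc ℓ)

/-- the jump kernel -/
noncomputable def kap0 (ℓ : ℝ) (J : ℕ) (x y : E) : ℝ :=
  1 / 2 * (ℓ ^ 2)⁻¹ * ∑ j ∈ Finset.range (J + 1), (128 : ℝ) ^ j * (((16 ^ j : ℕ) : ℝ) ^ 3 * cell ℓ (16 ^ j) x y)

/-! ## the potential -/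

/-- the profile of the charge -/
noncomputable def W1 (s : ℝ) : ℝ := 1 - Real.smoothTransition (2 * s - 1)

/-- `-P1'` -/
noncomputable def p1 (s : ℝ) : ℝ := 1 / 4 * ∫ t in (0 : ℝ)..1, t ^ 2 * W1 (s * t)

/-- the total charge of the profile -/
noncomputable def M1 : ℝ := ∫ t in (0 : ℝ)..1, t ^ 2 * W1 t

/-- the profile of the scattering function -/
noncomputable def P1 (s : ℝ) : ℝ := M1 / 8 + ∫ σ in s..1, p1 σ

/-- the scattering function -/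
noncomputable def phi0 (z : E × E) : ℝ := P1 (QQ z)

/-- the cutoff -/
noncomputable def th (s : ℝ) : ℝ := 1 - Real.smoothTransition (s - 1)

/-- the truncated profile -/
noncomputable def GR (R s : ℝ) : ℝ := P1 s * th (s / R ^ 2)

/-- the profile of the soft potential -/
noncomputable def gR (R s : ℝ) : ℝ := W1 s + 4 * s * deriv (deriv (GR R)) s + 12 * deriv (GR R) s

/-- the quadratic form in the three positions -/
noncomputable def QT (x y z : E) : ℝ := (‖x - y‖ ^ 2 + ‖x - z‖ ^ 2 + ‖y - z‖ ^ 2) / 3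

/-- the images of a point under reflections at the faces: per coordinate `s`, `-s` or `2ℓ - s` -/
noncomputable def img (ℓ : ℝ) (σ : Fin 3 → Fin 3) (x : E) : E :=
  WithLp.toLp 2 (fun c => if σ c = 0 then x c else if σ c = 1 then -x c else 2 * ℓ - x c)

/-- the image sum -/
noncomputable def Im (ℓ : ℝ) (G : ℝ → ℝ) (x y z : E) : ℝ :=
  1 / 3 * ∑ σ : Fin 3 → Fin 3, ∑ τ : Fin 3 → Fin 3,
    (G (QT x (img ℓ σ y) (img ℓ τ z)) + G (QT (img ℓ σ x) y (img ℓ τ z)) + G (QT (img ℓ σ x) (img ℓ τ y) z))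

/-- the Laplacian on functions of `QT` -/
noncomputable def LG (G : ℝ → ℝ) (s : ℝ) : ℝ := 4 * s * deriv (deriv G) s + 12 * deriv G s

/-- derivative of `G (QT a b d)` in `a` -/
noncomputable def dT (c : Fin 3) (G : ℝ → ℝ) (a b d : E) : ℝ := deriv G (QT a b d) * (2 / 3 * (2 * a c - b c - d c))

/-- Laplacian of `G (QT a b d)` in `a` -/
noncomputable def lT (G : ℝ → ℝ) (a b d : E) : ℝ :=
  deriv (deriv G) (QT a b d) * (4 / 9 * ‖(2 : ℝ) • a - b - d‖ ^ 2) + 4 * deriv G (QT a b d)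

/-- the sign of an image -/
noncomputable def sgi (σ : Fin 3 → Fin 3) (c : Fin 3) : ℝ := if σ c = 0 then 1 else -1

open Classical in
/-- `w² / V` -/
noncomputable def qS (ℓ : ℝ) (x y z : E) : ℝ :=
  if x ∈ Lam ℓ ∧ y ∈ Lam ℓ ∧ z ∈ Lam ℓ then (Im ℓ W1 x y z) ^ 2 / VV phi0 (x - y) (x - z) else 0

/-- the weight of the boundary -/
noncomputable def bd (ℓ : ℝ) (x : E) : ℝ := ∑ c, (((1 + |x c|) ^ 4)⁻¹ + ((1 + |ℓ - x c|) ^ 4)⁻¹)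

/-! ## cubes and boxes -/

/-- the cube with corner `a` -/
def cub (ℓ : ℝ) (a : E) : Set E := {x | ∀ c, a c ≤ x c ∧ x c < a c + ℓ}

/-- the corners of the small cubes -/
noncomputable def crn (ℓ : ℝ) (M : ℕ) (k : Fin 3 → Fin M) : E :=
  WithLp.toLp 2 (fun c => -((M : ℝ) * ℓ / 2) + (k c : ℕ) * ℓ)

/-! ## Sobolev functions -/

/-- real elements of `H¹` of the box -/
structure SobR (N : ℕ) (L : ℝ) (u : (Fin N → E) → ℝ) (g : Fin N → Fin 3 → (Fin N → E) → ℝ) : Prop where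
  memL2 : MemLp u 2 (volume.restrict (box N L))
  gradL2 : ∀ i c, MemLp (g i c) 2 (volume.restrict (box N L))
  weak : ∀ i c, ∀ η : (Fin N → E) → ℝ, ContDiff ℝ ∞ η → HasCompactSupport η → tsupport η ⊆ box N L →
    ∫ X in box N L, u X * fderiv ℝ η X (dir i c) = - ∫ X in box N L, g i c X * η X

/-- the energy of a real element of `H¹` -/
noncomputable def enS (V : E → E → ℝ) (N : ℕ) (L : ℝ) (u : (Fin N → E) → ℝ)
    (g : Fin N → Fin 3 → (Fin N → E) → ℝ) : ℝ :=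
  ∫ X in box N L, (∑ i, ∑ c, (g i c X) ^ 2 + pot V X * u X ^ 2)

/-- mollification after dilation -/
noncomputable def mol {N : ℕ} (s : ℝ) (η f : (Fin N → E) → ℝ) (X : Fin N → E) : ℝ :=
  ∫ Y, η Y * f (s • (X - Y))

/-- mollifiers -/
structure Mol {N : ℕ} (ε : ℝ) (η : (Fin N → E) → ℝ) : Prop where
  smooth : ContDiff ℝ ∞ η
  nonneg : ∀ Y, 0 ≤ η Y
  supp : tsupport η ⊆ Metric.closedBall 0 ε
  cpt : HasCompactSupport η
  one : ∫ Y, η Y = 1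

end Pool.Agent.TBL
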