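import Pool.Agent.TBL.Stmts

/-!
# Three-body Bose gases (MP_80dc41_mp), lower bound: conclusion
-/

set_option autoImplicit false

open MeasureTheory Filter Topology
open scoped ContDiff

namespace Pool.Agent.TBL

open Pool.Agent.TBG

theorem fin_proof (hL : Stmt_LOB) (hM : MainStatement) : MainLB := by
  intro b hb
  obtain ⟨V, hV, -, hVb, K, ρ₀, hK, hρ₀, h⟩ := hL b hb
  refine ⟨V, hV, hVb, ⟨6 * K / b, ρ₀, hρ₀, ?_⟩, ?_⟩
  · intro ρ h1 h2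
    filter_upwards [h ρ h1 h2] with p hp
    refine le_trans (le_of_eq ?_) hp
    field_simp
  · intro c
    obtain ⟨V₂, hV₂, hb₂, ρ₂, hρ₂, h₂⟩ := hM.1 b (6 * (K + c) / b) hb
    refine ⟨V₂, hV₂, hb₂, min ρ₀ ρ₂, lt_min hρ₀ hρ₂, ?_⟩
    intro ρ h1 h3
    filter_upwards [h ρ h1 (lt_of_lt_of_le h3 (min_le_left _ _)),
      h₂ ρ h1 (lt_of_lt_of_le h3 (min_le_right _ _))] with p hp hp₂
    have e : 1 / 6 * ρ ^ 3 * b * (1 - 6 * (K + c) / b * ρ) = 1 / 6 * ρ ^ 3 * b - (K + c) * ρ ^ 4 := by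
      field_simp
    rw [e] at hp₂
    nlinarith [hp, hp₂]

end Pool.Agent.TBL
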