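import Pool.Agent.TBG.Stmts

/-!
# Three-body Bose gases (MP_80dc41_mp): the gain of a scattering function is positive
-/

set_option autoImplicit false

open MeasureTheory Filter Topology
open scoped ContDiff

namespace Pool.Agent.TBL

open Pool.Agent.TBG

theorem gap_proof (hADM : Stmt_ADM) (hINT : Stmt_INT) (φ : E × E → ℝ) (hφ : Scat φ) (hw : 0 < ∫ z, ww φ z) :
    0 < gam φ := by
  obtain ⟨-, -, hwc, hws, hw0, -, -⟩ := hADM φ hφ
  obtain ⟨c, hc, hlow⟩ := hφ.low
  obtain ⟨C, hC⟩ := hφ.upp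
  obtain ⟨R, hR⟩ := hφ.supp
  have hφc : Continuous φ := hφ.smooth.continuous
  have hpos : ∀ z, 0 < φ z := by
    intro z
    by_contra h
    have h1 := hlow z
    have h2 : (1 + ‖z‖) ^ 4 * φ z ≤ 0 := mul_nonpos_of_nonneg_of_nonpos (by positivity) (not_lt.1 h)
    linarith
  have hC0 : 0 ≤ C := le_trans (mul_nonneg (by positivity) (hpos 0).le) (hC 0)
  have hbd : ∀ x y : E, φ (x, y) ≤ C * ((1 + ‖y‖) ^ 4)⁻¹ := by
    intro x y
    have h1 : (1 + ‖y‖) ^ 4 ≤ (1 + ‖(x, y)‖) ^ 4 := by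
      apply pow_le_pow_left₀ (by positivity)
      have : ‖y‖ ≤ ‖(x, y)‖ := by
        rw [Prod.norm_def]
        exact le_max_right _ _
      linarith
    have h2 : (1 + ‖y‖) ^ 4 * φ (x, y) ≤ C :=
      le_trans (mul_le_mul_of_nonneg_right h1 (hpos _).le) (hC _)
    have h3 : (0 : ℝ) < (1 + ‖y‖) ^ 4 := by positivity
    rw [← div_eq_mul_inv, le_div_iff₀ h3]
    linarith
  have hlo : ∀ x y : E, ‖x‖ ≤ |R| → c * ((1 + |R|) ^ 4)⁻¹ * ((1 + ‖y‖) ^ 4)⁻¹ ≤ φ (x, y) := by
    intro x y hx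
    have h0 : (1 + ‖(x, y)‖) ≤ (1 + |R|) * (1 + ‖y‖) := by
      rw [Prod.norm_def]
      have h1 := norm_nonneg x
      have h2 := norm_nonneg y
      have h3 := abs_nonneg R
      rcases le_total ‖x‖ ‖y‖ with h | h
      · rw [max_eq_right h]; nlinarith
      · rw [max_eq_left h]; nlinarith
    have h1 : (1 + ‖(x, y)‖) ^ 4 ≤ (1 + |R|) ^ 4 * (1 + ‖y‖) ^ 4 := by
      rw [← mul_pow]
      exact pow_le_pow_left₀ (by positivity) h0 4
    have h2 := hlow (x, y)
    have h3 : c ≤ (1 + |R|) ^ 4 * (1 + ‖y‖) ^ 4 * φ (x, y) :=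
      h2.trans (mul_le_mul_of_nonneg_right h1 (hpos _).le)
    have h4 : (0 : ℝ) < (1 + |R|) ^ 4 * (1 + ‖y‖) ^ 4 := by positivity
    calc c * ((1 + |R|) ^ 4)⁻¹ * ((1 + ‖y‖) ^ 4)⁻¹ = c / ((1 + |R|) ^ 4 * (1 + ‖y‖) ^ 4) := by
          rw [div_eq_mul_inv, mul_inv]; ring
      _ ≤ φ (x, y) := by
          rw [div_le_iff₀ h4]
          linarith
  set J : ℝ := ∫ y : E, ((1 + ‖y‖) ^ 4)⁻¹ with hJ
  have hJi : Integrable (fun y : E => ((1 + ‖y‖) ^ 4)⁻¹) := hINT.2.1
  have hJ0 : 0 < J := by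
    rw [hJ]
    refine (integral_pos_iff_support_of_nonneg (fun y => by positivity) hJi).2 ?_
    have : (Function.support fun y : E => ((1 + ‖y‖) ^ 4)⁻¹) = Set.univ := by
      ext y
      simp only [Function.mem_support, Set.mem_univ, iff_true]
      positivity
    rw [this]
    simp
  have hsi : ∀ x : E, Integrable (fun y : E => φ (x, y)) := by
    intro x
    apply (hJi.const_mul C).mono'
    · exact (hφc.comp (by fun_prop)).aestronglyMeasurable
    · filter_upwards with y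
      rw [Real.norm_eq_abs, abs_of_nonneg (hpos _).le]
      exact hbd x y
  have hI1 : ∀ x : E, ∫ y : E, φ (x, y) ≤ C * J := by
    intro x
    rw [hJ, ← integral_const_mul]
    exact integral_mono (hsi x) (hJi.const_mul C) (hbd x)
  have hI0 : ∀ x : E, 0 ≤ ∫ y : E, φ (x, y) := fun x => integral_nonneg fun y => (hpos _).le
  have hI2 : ∀ x : E, ‖x‖ ≤ |R| → c * ((1 + |R|) ^ 4)⁻¹ * J ≤ ∫ y : E, φ (x, y) := by
    intro x hx
    rw [hJ, ← integral_const_mul]
    exact integral_mono (hJi.const_mul _) (hsi x) (fun y => hlo x y hx)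
  have hwi : Integrable (ww φ) := hwc.integrable_of_hasCompactSupport hws
  have hIm : AEStronglyMeasurable (fun z : E × E => ∫ y : E, φ (z.1, y)) := by
    have h1 : StronglyMeasurable (fun x : E => ∫ y : E, φ (x, y)) :=
      StronglyMeasurable.integral_prod_right' (f := fun p : E × E => φ p) hφc.stronglyMeasurable
    exact (h1.comp_measurable measurable_fst).aestronglyMeasurable
  have hprod : Integrable (fun z : E × E => ww φ z * ∫ y : E, φ (z.1, y)) := by
    refine hwi.mul_bdd (c := C * J) hIm ?_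
    filter_upwards with z
    rw [Real.norm_eq_abs, abs_of_nonneg (hI0 _)]
    exact hI1 _
  have hfin : c * ((1 + |R|) ^ 4)⁻¹ * J * ∫ z, ww φ z ≤ ∫ z : E × E, ww φ z * ∫ y : E, φ (z.1, y) := by
    rw [← integral_const_mul]
    refine integral_mono (hwi.const_mul _) hprod fun z => ?_
    show c * ((1 + |R|) ^ 4)⁻¹ * J * ww φ z ≤ ww φ z * ∫ y : E, φ (z.1, y)
    by_cases hz : R < ‖z‖
    · have : ww φ z = 0 := by rw [ww, hR z hz, neg_zero]
      rw [this]; simp
    · have h1 : ‖z.1‖ ≤ |R| := (norm_fst_le z).trans ((not_lt.1 hz).trans (le_abs_self R))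
      rw [mul_comm (ww φ z)]
      exact mul_le_mul_of_nonneg_right (hI2 _ h1) (hw0 z)
  unfold gam
  have : 0 < c * ((1 + |R|) ^ 4)⁻¹ * J * ∫ z, ww φ z := by positivity
  linarith

end Pool.Agent.TBL
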