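import Pool.Agent.TBL.Stmts

/-! # IMW: the charge near the boundary -/

set_option autoImplicit false

open MeasureTheory Filter Topology

namespace Pool.Agent.TBL

open Pool.Agent.TBG

namespace IMW_

theorem bd_nonneg (ℓ : ℝ) (x : E) : 0 ≤ bd ℓ x := by
  unfold bd
  exact Finset.sum_nonneg fun c _ => by positivity

theorem bd_of {ℓ : ℝ} {x : E} (hx : x ∈ Lam ℓ) (c : Fin 3) {s : ℝ} (hs0 : 0 ≤ s)
    (hs : s ^ 2 < 3) (h : x c ≤ s ∨ ℓ - x c ≤ s) : 1 ≤ 81 * bd ℓ x := by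
  have hs2 : s ≤ 2 := by nlinarith
  have h1 : (((1 + |x c|) ^ 4)⁻¹ + ((1 + |ℓ - x c|) ^ 4)⁻¹) ≤ bd ℓ x := by
    unfold bd
    exact Finset.single_le_sum (f := fun c => (((1 + |x c|) ^ 4)⁻¹ + ((1 + |ℓ - x c|) ^ 4)⁻¹))
      (fun c _ => by positivity) (Finset.mem_univ c)
  have key : ∀ t : ℝ, 0 ≤ t → t ≤ 2 → 1 / 81 ≤ ((1 + |t|) ^ 4)⁻¹ := by
    intro t ht ht2
    rw [abs_of_nonneg ht, one_div]
    refine inv_anti₀ (by positivity) ?_
    calc (1 + t) ^ 4 ≤ (1 + 2) ^ 4 := pow_le_pow_left₀ (by linarith) (by linarith) 4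
      _ = 81 := by norm_num
  have h2 : 0 ≤ ((1 + |x c|) ^ 4)⁻¹ := by positivity
  have h3 : 0 ≤ ((1 + |ℓ - x c|) ^ 4)⁻¹ := by positivity
  rcases h with h | h
  · have := key (x c) (hx c).1 (h.trans hs2)
    linarith
  · have := key (ℓ - x c) (sub_nonneg.2 (hx c).2) (h.trans hs2)
    linarith

theorem term_le (hPRF : Stmt_PRF) {B q₀ q : ℝ} (h : q₀ ≤ q) (hB : 0 ≤ B)
    (hq : q < 1 → 1 ≤ B) : W1 q ≤ B * W1 q₀ := by
  obtain ⟨_, _, p3, _, p5, p6, _⟩ := hPRF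
  by_cases hq1 : q < 1
  · have h1 : W1 q ≤ W1 q₀ := p6 h
    have h2 := mul_le_mul_of_nonneg_right (hq hq1) (p3 q₀).1
    linarith
  · rw [p5 q (not_lt.1 hq1)]
    exact mul_nonneg hB (p3 q₀).1

end IMW_

open IMW_ in
theorem imw_proof (hPRF : Stmt_PRF) (hQTF : Stmt_QTF) (hIMG : Stmt_IMG) : Stmt_IMW := by
  obtain ⟨hQ, _⟩ := hQTF
  have hW0 : ∀ s, 0 ≤ W1 s := fun s => (hPRF.2.2.1 s).1
  refine ⟨729 * 81, by norm_num, ?_⟩
  intro ℓ hℓ x hx y hy z hz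
  have hid : ∀ x : E, img ℓ (fun _ => 0) x = x := (hIMG ℓ (fun _ => 0) hℓ).2.2.2.2.1
  have hge : ∀ σ τ υ : Fin 3 → Fin 3, QT x y z ≤ QT (img ℓ σ x) (img ℓ τ y) (img ℓ υ z) :=
    fun σ τ υ => (hIMG ℓ σ hℓ).2.2.2.2.2.2.2.1 x hx y hy z hz τ υ
  have hface : ∀ σ : Fin 3 → Fin 3, σ ≠ (fun _ => 0) → ∀ y ∈ Lam ℓ, ∃ c : Fin 3,
      (x c ≤ ‖x - img ℓ σ y‖ ∧ x c ≤ ‖img ℓ σ x - y‖) ∨
        (ℓ - x c ≤ ‖x - img ℓ σ y‖ ∧ ℓ - x c ≤ ‖img ℓ σ x - y‖) :=
    fun σ hσ y hy => (hIMG ℓ σ hℓ).2.2.2.2.2.2.2.2 x hx y hy hσ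
  have hB : 0 ≤ 81 * bd ℓ x := mul_nonneg (by norm_num) (bd_nonneg ℓ x)
  have hf1 : ∀ σ : Fin 3 → Fin 3, σ ≠ (fun _ => 0) → ∀ y ∈ Lam ℓ, ‖x - img ℓ σ y‖ ^ 2 < 3 →
      1 ≤ 81 * bd ℓ x := by
    intro σ hσ y hy h
    obtain ⟨c, hc⟩ := hface σ hσ y hy
    exact bd_of hx c (norm_nonneg _) h (hc.imp (fun h => h.1) (fun h => h.1))
  have hf2 : ∀ σ : Fin 3 → Fin 3, σ ≠ (fun _ => 0) → ∀ y ∈ Lam ℓ, ‖img ℓ σ x - y‖ ^ 2 < 3 →
      1 ≤ 81 * bd ℓ x := by
    intro σ hσ y hy h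
    obtain ⟨c, hc⟩ := hface σ hσ y hy
    exact bd_of hx c (norm_nonneg _) h (hc.imp (fun h => h.2) (fun h => h.2))
  have hxy : ∀ a b d : E, ‖a - b‖ ^ 2 ≤ 3 * QT a b d := fun a b d => (hQ a b d).2.2.2.2.1
  have hxz : ∀ a b d : E, ‖a - d‖ ^ 2 ≤ 3 * QT a b d := fun a b d => (hQ a b d).2.2.2.2.2.1
  -- the three kinds of terms
  have tA : ∀ σ τ : Fin 3 → Fin 3, ¬ (σ = (fun _ => 0) ∧ τ = (fun _ => 0)) →
      W1 (QT x (img ℓ σ y) (img ℓ τ z)) ≤ 81 * bd ℓ x * W1 (QT x y z) := by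
    intro σ τ hne
    refine term_le hPRF ?_ hB ?_
    · have := hge (fun _ => 0) σ τ
      rw [hid] at this
      exact this
    · intro hq
      by_cases hσ : σ = (fun _ => 0)
      · have hτ : τ ≠ (fun _ => 0) := fun h => hne ⟨hσ, h⟩
        exact hf1 τ hτ z hz (by linarith [hxz x (img ℓ σ y) (img ℓ τ z)])
      · exact hf1 σ hσ y hy (by linarith [hxy x (img ℓ σ y) (img ℓ τ z)])
  have tB : ∀ σ τ : Fin 3 → Fin 3, ¬ (σ = (fun _ => 0) ∧ τ = (fun _ => 0)) →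
      W1 (QT (img ℓ σ x) y (img ℓ τ z)) ≤ 81 * bd ℓ x * W1 (QT x y z) := by
    intro σ τ hne
    refine term_le hPRF ?_ hB ?_
    · have := hge σ (fun _ => 0) τ
      rw [hid] at this
      exact this
    · intro hq
      by_cases hσ : σ = (fun _ => 0)
      · have hτ : τ ≠ (fun _ => 0) := fun h => hne ⟨hσ, h⟩
        have h1 := hxz (img ℓ σ x) y (img ℓ τ z)
        rw [hσ, hid] at h1 hq
        exact hf1 τ hτ z hz (by linarith)
      · exact hf2 σ hσ y hy (by linarith [hxy (img ℓ σ x) y (img ℓ τ z)])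
  have tC : ∀ σ τ : Fin 3 → Fin 3, ¬ (σ = (fun _ => 0) ∧ τ = (fun _ => 0)) →
      W1 (QT (img ℓ σ x) (img ℓ τ y) z) ≤ 81 * bd ℓ x * W1 (QT x y z) := by
    intro σ τ hne
    refine term_le hPRF ?_ hB ?_
    · have := hge σ τ (fun _ => 0)
      rw [hid] at this
      exact this
    · intro hq
      by_cases hσ : σ = (fun _ => 0)
      · have hτ : τ ≠ (fun _ => 0) := fun h => hne ⟨hσ, h⟩
        have h1 := hxy (img ℓ σ x) (img ℓ τ y) z
        rw [hσ, hid] at h1 hq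
        exact hf1 τ hτ y hy (by linarith)
      · exact hf2 σ hσ z hz (by linarith [hxz (img ℓ σ x) (img ℓ τ y) z])
  constructor
  · unfold Im
    refine mul_nonneg (by norm_num) (Finset.sum_nonneg fun σ _ => Finset.sum_nonneg fun τ _ => ?_)
    exact add_nonneg (add_nonneg (hW0 _) (hW0 _)) (hW0 _)
  · have hbound : ∀ σ τ : Fin 3 → Fin 3,
        W1 (QT x (img ℓ σ y) (img ℓ τ z)) + W1 (QT (img ℓ σ x) y (img ℓ τ z)) +
          W1 (QT (img ℓ σ x) (img ℓ τ y) z) ≤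
        (if σ = (fun _ => 0) then (if τ = (fun _ => 0) then 3 * W1 (QT x y z) else 0) else 0) +
          3 * (81 * bd ℓ x * W1 (QT x y z)) := by
      intro σ τ
      have hpos : 0 ≤ 81 * bd ℓ x * W1 (QT x y z) := mul_nonneg hB (hW0 _)
      by_cases h : σ = (fun _ => 0) ∧ τ = (fun _ => 0)
      · obtain ⟨h1, h2⟩ := h
        subst h1
        subst h2
        rw [if_pos rfl, if_pos rfl, hid, hid, hid]
        linarith
      · have h0 : (if σ = (fun _ => 0) then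
            (if τ = (fun _ => 0) then 3 * W1 (QT x y z) else 0) else 0) = 0 := by
          by_cases h1 : σ = (fun _ => 0)
          · rw [if_pos h1, if_neg (fun h2 => h ⟨h1, h2⟩)]
          · rw [if_neg h1]
        rw [h0]
        have := tA σ τ h
        have := tB σ τ h
        have := tC σ τ h
        linarith
    have hsum := Finset.sum_le_sum (s := (Finset.univ : Finset (Fin 3 → Fin 3)))
      (fun σ _ => Finset.sum_le_sum (s := (Finset.univ : Finset (Fin 3 → Fin 3)))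
        (fun τ _ => hbound σ τ))
    have hcard : (Finset.univ : Finset (Fin 3 → Fin 3)).card = 27 := by
      simp
    have hR : ∑ σ : Fin 3 → Fin 3, ∑ τ : Fin 3 → Fin 3,
        ((if σ = (fun _ => 0) then (if τ = (fun _ => 0) then 3 * W1 (QT x y z) else 0) else 0) +
          3 * (81 * bd ℓ x * W1 (QT x y z))) =
        3 * W1 (QT x y z) + 729 * (3 * (81 * bd ℓ x * W1 (QT x y z))) := by
      simp only [Finset.sum_add_distrib, Finset.sum_const, hcard, nsmul_eq_mul]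
      have h1 : ∑ σ : Fin 3 → Fin 3, ∑ τ : Fin 3 → Fin 3,
          (if σ = (fun _ => 0) then (if τ = (fun _ => 0) then 3 * W1 (QT x y z) else 0) else 0) =
          3 * W1 (QT x y z) := by
        rw [Finset.sum_eq_single (fun _ => 0)]
        · rw [Finset.sum_eq_single (fun _ => 0)]
          · simp
          · intro τ _ hτ
            rw [if_pos rfl, if_neg hτ]
          · intro h
            exact absurd (Finset.mem_univ _) h
        · intro σ _ hσ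
          refine Finset.sum_eq_zero fun τ _ => ?_
          rw [if_neg hσ]
        · intro h
          exact absurd (Finset.mem_univ _) h
      rw [h1]
      push_cast
      ring
    rw [hR] at hsum
    unfold Im
    linarith

end Pool.Agent.TBL
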