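import Pool.Agent.TBL.All
import Pool.Agent.TBL.GAP

/-!
# Three-body Bose gases (MP_80dc41_mp): unconditional non-universality at order `ρ⁴`
-/

set_option autoImplicit false

open MeasureTheory Filter Topology
open scoped ContDiff

namespace Pool.Agent.TBL

open Pool.Agent.TBG

/-- the lower bound for all `b`, with a potential of the form `VV φ` -/
theorem lob2 : ∀ b : ℝ, 0 < b → ∃ φ : E × E → ℝ, Scat φ ∧ ∫ z, ww φ z = b ∧ ∃ K ρ₀ : ℝ, 0 < K ∧ 0 < ρ₀ ∧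
    ∀ ρ, 0 < ρ → ρ < ρ₀ → ∀ᶠ p in thermo ρ, 1 / 6 * ρ ^ 3 * b - K * ρ ^ 4 ≤ E0 (VV φ) p.1 p.2 / p.2 ^ 3 := by
  intro b hb
  obtain ⟨hS, _, hb₀⟩ := r_sca
  obtain ⟨b₀, hb₀e⟩ : ∃ b₀ : ℝ, b₀ = ∫ z, ww phi0 z := ⟨_, rfl⟩
  rw [← hb₀e] at hb₀
  obtain ⟨r, hr, hr4⟩ : ∃ r : ℝ, 0 < r ∧ r ^ 4 * b₀ = b := by
    refine ⟨(b / b₀) ^ (1 / 4 : ℝ), Real.rpow_pos_of_pos (div_pos hb hb₀) _, ?_⟩
    have h1 : ((b / b₀) ^ (1 / 4 : ℝ)) ^ 4 = b / b₀ := by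
      rw [← Real.rpow_natCast, ← Real.rpow_mul (div_pos hb hb₀).le]
      norm_num
    rw [h1, div_mul_cancel₀ _ hb₀.ne']
  obtain ⟨hS', hw', _⟩ := q_scl phi0 r hr hS
  rw [← hb₀e, hr4] at hw'
  obtain ⟨hA, hCt, _⟩ := q_adm _ hS'
  have hT0 : TLB (VV phi0) b₀ := by
    have h := r_co0
    unfold Stmt_CO0 at h
    rw [← hb₀e] at h
    exact r_fvl _ _ (q_adm _ hS).1 hb₀ h
  have hT : TLB (VV (fun z => phi0 (r⁻¹ • z))) b := by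
    rw [← hr4]
    exact r_scx (VV phi0) _ b₀ r hr (q_adm _ hS).1 (fun x y => LOB_.vv_scale q_ltr hS.smooth r x y) hT0
  refine ⟨fun z => phi0 (r⁻¹ • z), hS', hw', ?_⟩
  obtain ⟨K, ρ₀, δ, hK, hρ₀, hδ, hT⟩ := hT
  refine ⟨2 * K, ρ₀, by linarith, hρ₀, ?_⟩
  intro ρ hρ hρ'
  obtain ⟨_, _, t3, t4, t5⟩ := q_the ρ hρ
  have hε : 0 < 2 * K * ρ ^ 2 / b := by positivity
  filter_upwards [t3.eventually_ge_atTop (δ / ρ), t5,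
    t4.eventually (lt_mem_nhds (show ρ - 2 * K * ρ ^ 2 / b < ρ by linarith))] with p h1 h2 h3
  have h4 := r_den _ p.1 p.2 _ hA hCt h2 (hT ρ hρ hρ' p.2 h1 p.1)
  have hL3 : 0 < p.2 ^ 3 := pow_pos h2 3
  rw [le_div_iff₀ hL3]
  refine le_trans ?_ h4
  rw [lt_div_iff₀ hL3] at h3
  have h5 : ρ ^ 2 * b / 2 * ((ρ - 2 * K * ρ ^ 2 / b) * p.2 ^ 3) ≤ ρ ^ 2 * b / 2 * (p.1 : ℝ) :=
    mul_le_mul_of_nonneg_left h3.le (by positivity)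
  have h6 : ρ ^ 2 * b / 2 * ((ρ - 2 * K * ρ ^ 2 / b) * p.2 ^ 3) =
      (ρ ^ 3 * b / 2 - K * ρ ^ 4) * p.2 ^ 3 := by
    field_simp
  rw [h6] at h5
  linarith

/-- a lower bound of the energy bounds the constants from below -/
theorem coeff_ge {b K : ℝ} (hb : 0 < b) {V : E → E → ℝ} (hV : bM V = b)
    {ρ₀ : ℝ} (hρ₀ : 0 < ρ₀) (h : ∀ ρ, 0 < ρ → ρ < ρ₀ →
      ∀ᶠ p in thermo ρ, 1 / 6 * ρ ^ 3 * b * (1 - K * ρ) ≤ E0 V p.1 p.2 / p.2 ^ 3)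
    (C : ℝ) (hC : HasExpansion V C) : -K ≤ C := by
  obtain ⟨e, he, hlim⟩ := hC
  have hev : ∀ᶠ ρ in 𝓝[>] (0 : ℝ), -K ≤ (e ρ / (1 / 6 * ρ ^ 3 * bM V) - 1) / ρ := by
    filter_upwards [Ioo_mem_nhdsGT hρ₀] with ρ hρ
    obtain ⟨h0, h1⟩ := hρ
    have hne : (thermo ρ).NeBot := (q_the ρ h0).1
    have h2 : 1 / 6 * ρ ^ 3 * b * (1 - K * ρ) ≤ e ρ := ge_of_tendsto (he ρ h0) (h ρ h0 h1)
    rw [hV]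
    have h3 : 0 < 1 / 6 * ρ ^ 3 * b := by positivity
    rw [le_div_iff₀ h0]
    have h4 : 1 - K * ρ ≤ e ρ / (1 / 6 * ρ ^ 3 * b) := by
      rw [le_div_iff₀ h3]
      linarith
    linarith
  exact ge_of_tendsto hlim hev

/-- a difference of the energies gives a difference of the constants -/
theorem coeff_diff {b c : ℝ} (hb : 0 < b) {V₁ V₂ : E → E → ℝ} (hV₁ : bM V₁ = b) (hV₂ : bM V₂ = b)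
    {ρ₀ : ℝ} (hρ₀ : 0 < ρ₀) (h : ∀ ρ, 0 < ρ → ρ < ρ₀ →
      ∀ᶠ p in thermo ρ, E0 V₂ p.1 p.2 / p.2 ^ 3 + c * ρ ^ 4 ≤ E0 V₁ p.1 p.2 / p.2 ^ 3)
    (C₁ C₂ : ℝ) (hC₁ : HasExpansion V₁ C₁) (hC₂ : HasExpansion V₂ C₂) : C₂ + 6 * c / b ≤ C₁ := by
  obtain ⟨e₁, he₁, hlim₁⟩ := hC₁
  obtain ⟨e₂, he₂, hlim₂⟩ := hC₂
  have hev : ∀ᶠ ρ in 𝓝[>] (0 : ℝ), (e₂ ρ / (1 / 6 * ρ ^ 3 * bM V₂) - 1) / ρ + 6 * c / b ≤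
      (e₁ ρ / (1 / 6 * ρ ^ 3 * bM V₁) - 1) / ρ := by
    filter_upwards [Ioo_mem_nhdsGT hρ₀] with ρ hρ
    obtain ⟨h0, h1⟩ := hρ
    have hne : (thermo ρ).NeBot := (q_the ρ h0).1
    have h2 : e₂ ρ + c * ρ ^ 4 ≤ e₁ ρ :=
      le_of_tendsto_of_tendsto ((he₂ ρ h0).add_const _) (he₁ ρ h0) (h ρ h0 h1)
    rw [hV₁, hV₂]
    have h3 : 0 < 1 / 6 * ρ ^ 3 * b := by positivity
    have h5 : (e₂ ρ + c * ρ ^ 4) / (1 / 6 * ρ ^ 3 * b) ≤ e₁ ρ / (1 / 6 * ρ ^ 3 * b) :=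
      div_le_div_of_nonneg_right h2 h3.le
    have h6 : (e₂ ρ + c * ρ ^ 4) / (1 / 6 * ρ ^ 3 * b) = e₂ ρ / (1 / 6 * ρ ^ 3 * b) + 6 * c / b * ρ := by
      field_simp
    rw [h6] at h5
    rw [le_div_iff₀ h0, add_mul, div_mul_cancel₀ _ h0.ne']
    linarith
  exact le_of_tendsto_of_tendsto (hlim₂.add_const _) hlim₁ hev

/-- the main theorem -/
theorem main_lb : ∀ b : ℝ, 0 < b → ∃ (V₁ : E → E → ℝ) (k K : ℝ), Admissible V₁ ∧ bM V₁ = b ∧ 0 < k ∧ k ≤ K ∧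
    (∃ ρ₀ : ℝ, 0 < ρ₀ ∧ ∀ ρ, 0 < ρ → ρ < ρ₀ → ∀ᶠ p in thermo ρ,
      1 / 6 * ρ ^ 3 * b * (1 - K * ρ) ≤ E0 V₁ p.1 p.2 / p.2 ^ 3 ∧
      E0 V₁ p.1 p.2 / p.2 ^ 3 ≤ 1 / 6 * ρ ^ 3 * b * (1 - k * ρ)) ∧
    (∀ C, HasExpansion V₁ C → -K ≤ C ∧ C ≤ -k) ∧
    ∀ c : ℝ, ∃ V₂ : E → E → ℝ, Admissible V₂ ∧ bM V₂ = b ∧
      (∃ ρ₀ : ℝ, 0 < ρ₀ ∧ ∀ ρ, 0 < ρ → ρ < ρ₀ → ∀ᶠ p in thermo ρ,
        E0 V₂ p.1 p.2 / p.2 ^ 3 + c * ρ ^ 4 ≤ E0 V₁ p.1 p.2 / p.2 ^ 3) ∧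
      ∀ C₁ C₂, HasExpansion V₁ C₁ → HasExpansion V₂ C₂ → C₂ + 6 * c / b ≤ C₁ := by
  intro b hb
  obtain ⟨φ, hS, hw, K₀, ρ₀, hK₀, hρ₀, h⟩ := lob2 b hb
  have hA := (q_adm φ hS).1
  have hbV : bM (VV φ) = b := by rw [q_bme φ hS, hw]
  have hg : 0 < gam φ := gap_proof q_adm q_int φ hS (by rw [hw]; exact hb)
  obtain ⟨ρ₁, hρ₁, h₁⟩ := q_gas φ hS (gam φ / 2) (by linarith)
  rw [hw] at h₁
  -- lower bound in the normalised form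
  have hlow : ∀ ρ, 0 < ρ → ρ < min ρ₀ ρ₁ → ∀ᶠ p in thermo ρ,
      1 / 6 * ρ ^ 3 * b * (1 - 6 * K₀ / b * ρ) ≤ E0 (VV φ) p.1 p.2 / p.2 ^ 3 := by
    intro ρ h1 h2
    filter_upwards [h ρ h1 (lt_of_lt_of_le h2 (min_le_left _ _))] with p hp
    refine le_trans (le_of_eq ?_) hp
    field_simp
  have hupp : ∀ ρ, 0 < ρ → ρ < min ρ₀ ρ₁ → ∀ᶠ p in thermo ρ,
      E0 (VV φ) p.1 p.2 / p.2 ^ 3 ≤ 1 / 6 * ρ ^ 3 * b * (1 - gam φ / 2 / b * ρ) := by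
    intro ρ h1 h2
    filter_upwards [h₁ ρ h1 (lt_of_lt_of_le h2 (min_le_right _ _))] with p hp
    refine hp.trans (le_of_eq ?_)
    field_simp
  have hm : 0 < min ρ₀ ρ₁ := lt_min hρ₀ hρ₁
  -- k ≤ K
  have hkK : gam φ / 2 / b ≤ 6 * K₀ / b := by
    set ρ : ℝ := min ρ₀ ρ₁ / 2 with hρ
    have h1 : 0 < ρ := by positivity
    have h2 : ρ < min ρ₀ ρ₁ := by linarith
    have hne : (thermo ρ).NeBot := (q_the ρ h1).1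
    obtain ⟨p, hp⟩ := ((hlow ρ h1 h2).and (hupp ρ h1 h2)).exists
    have h3 := hp.1.trans hp.2
    have h4 : 0 < 1 / 6 * ρ ^ 3 * b := by positivity
    have h5 := le_of_mul_le_mul_left h3 h4
    have h6 : gam φ / 2 / b * ρ ≤ 6 * K₀ / b * ρ := by linarith
    exact le_of_mul_le_mul_right h6 h1
  refine ⟨VV φ, gam φ / 2 / b, 6 * K₀ / b, hA, hbV, by positivity, hkK,
    ⟨min ρ₀ ρ₁, hm, fun ρ h1 h2 => (hlow ρ h1 h2).and (hupp ρ h1 h2)⟩, ?_, ?_⟩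
  · intro C hC
    exact ⟨coeff_ge hb hbV hm hlow C hC, CON_.coeff_le q_the hb hbV hm hupp C hC⟩
  · intro c
    obtain ⟨V₂, hV₂, hb₂, ρ₂, hρ₂, h₂⟩ := main.1 b (6 * (K₀ + c) / b) hb
    have hd : ∀ ρ, 0 < ρ → ρ < min ρ₀ ρ₂ → ∀ᶠ p in thermo ρ,
        E0 V₂ p.1 p.2 / p.2 ^ 3 + c * ρ ^ 4 ≤ E0 (VV φ) p.1 p.2 / p.2 ^ 3 := by
      intro ρ h1 h3
      filter_upwards [h ρ h1 (lt_of_lt_of_le h3 (min_le_left _ _)),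
        h₂ ρ h1 (lt_of_lt_of_le h3 (min_le_right _ _))] with p hp hp₂
      have e : 1 / 6 * ρ ^ 3 * b * (1 - 6 * (K₀ + c) / b * ρ) = 1 / 6 * ρ ^ 3 * b - (K₀ + c) * ρ ^ 4 := by
        field_simp
      rw [e] at hp₂
      nlinarith [hp, hp₂]
    exact ⟨V₂, hV₂, hb₂, ⟨min ρ₀ ρ₂, lt_min hρ₀ hρ₂, hd⟩,
      fun C₁ C₂ hC₁ hC₂ => coeff_diff hb hbV hb₂ (lt_min hρ₀ hρ₂) hd C₁ C₂ hC₁ hC₂⟩

end Pool.Agent.TBL
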