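import Pool.Agent.TBL.Stmts

/-!
# TBL, module OPB: the integral operator with a kernel of mean zero
-/

set_option autoImplicit false

open MeasureTheory Filter Topology
open scoped ContDiff

namespace Pool.Agent.TBL

open Pool.Agent.TBG

namespace OPB_

/-- Jensen -/
theorem jensen {μ : Measure E} [IsProbabilityMeasure μ] {f : E → ℝ} (hf : Integrable f μ)
    (hf2 : Integrable (fun x => f x ^ 2) μ) : (∫ x, f x ∂μ) ^ 2 ≤ ∫ x, f x ^ 2 ∂μ := by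
  set m := ∫ x, f x ∂μ with hm
  have h0 : 0 ≤ ∫ x, (f x - m) ^ 2 ∂μ := integral_nonneg fun x => sq_nonneg _
  have h1 : ∫ x, (f x - m) ^ 2 ∂μ = (∫ x, f x ^ 2 ∂μ) - m ^ 2 := by
    have e : (fun x => (f x - m) ^ 2) = fun x => f x ^ 2 - (2 * m * f x - m ^ 2) := by
      funext x
      ring
    have i1 : Integrable (fun x => 2 * m * f x) μ := hf.const_mul (2 * m)
    have i2 : Integrable (fun _ : E => m ^ 2) μ := integrable_const _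
    have i3 : Integrable (fun x => 2 * m * f x - m ^ 2) μ := i1.sub i2
    rw [e, integral_sub hf2 i3, integral_sub i1 i2, integral_const_mul, ← hm]
    simp
    ring
  linarith

theorem swap2 (hBMC : Stmt_BMC) {μ : Measure E} [IsProbabilityMeasure μ] {a : E → E → ℝ}
    (ha : BM2 a) : ∫ y, ∫ z, a y z ∂μ ∂μ = ∫ z, ∫ y, a y z ∂μ ∂μ :=
  integral_integral_swap ((hBMC.1 (E × E) _ _ ha ha).2.2.2.2.2.2 (μ.prod μ))

theorem bm_swap (hBMC : Stmt_BMC) {a : E → E → ℝ} (ha : BM2 a) : BM2 (fun z y => a y z) :=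
  hBMC.2.2.2.1 (E × E) (E × E) _ (fun p => (p.2, p.1)) ha (by fun_prop)

theorem bm_av (hBMC : Stmt_BMC) {μ : Measure E} [IsProbabilityMeasure μ] {a : E → E → ℝ}
    (ha : BM2 a) : BM (fun y => ∫ z, a y z ∂μ) :=
  hBMC.2.2.2.2 E E μ (fun p => a p.1 p.2) ha

theorem bm_fst (hBMC : Stmt_BMC) {f : E → ℝ} (hf : BM f) : BM2 (fun y _ => f y) :=
  hBMC.2.2.2.1 E (E × E) f (fun p => p.1) hf (by fun_prop)

theorem bm_snd (hBMC : Stmt_BMC) {f : E → ℝ} (hf : BM f) : BM2 (fun _ z => f z) :=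
  hBMC.2.2.2.1 E (E × E) f (fun p => p.2) hf (by fun_prop)

theorem bm_sec (hBMC : Stmt_BMC) {a : E → E → ℝ} (ha : BM2 a) (y : E) : BM (fun z => a y z) :=
  hBMC.2.2.2.1 (E × E) E _ (fun z => (y, z)) ha (by fun_prop)

/-- mean over one variable of the deviation -/
theorem dev (hBMC : Stmt_BMC) {μ : Measure E} [IsProbabilityMeasure μ] {a : E → E → ℝ}
    (ha : BM2 a) : ∫ z, ((∫ y, a y z ∂μ) - ∫ y, ∫ z, a y z ∂μ ∂μ) ^ 2 ∂μ ≤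
      ∫ y, ∫ z, (a y z - ∫ z', a y z' ∂μ) ^ 2 ∂μ ∂μ := by
  have hA2 := bm_av hBMC (μ := μ) ha
  have hd : BM2 (fun y z => a y z - ∫ z', a y z' ∂μ) := (hBMC.1 (E × E) _ _ ha
    (bm_fst hBMC hA2)).2.1
  have hd2 : BM2 (fun y z => (a y z - ∫ z', a y z' ∂μ) ^ 2) := (hBMC.1 (E × E) _ _ hd hd).2.2.2.1
  rw [swap2 hBMC hd2]
  have hA1 : BM (fun z => ∫ y, a y z ∂μ) := bm_av hBMC (bm_swap hBMC ha)
  have hc : BM (fun _ : E => ∫ y, ∫ z, a y z ∂μ ∂μ) := hBMC.2.1 E _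
  have hf : BM (fun z => (∫ y, a y z ∂μ) - ∫ y, ∫ z, a y z ∂μ ∂μ) := (hBMC.1 E _ _ hA1 hc).2.1
  have hf2 := (hBMC.1 E _ _ hf hf).2.2.2.1
  have hr : BM (fun z => ∫ y, (a y z - ∫ z', a y z' ∂μ) ^ 2 ∂μ) := bm_av hBMC (bm_swap hBMC hd2)
  refine integral_mono ((hBMC.1 E _ _ hf2 hf2).2.2.2.2.2.2 μ) ((hBMC.1 E _ _ hr hr).2.2.2.2.2.2 μ)
    fun z => ?_
  have h1 : (∫ y, a y z ∂μ) - ∫ y, ∫ z, a y z ∂μ ∂μ = ∫ y, (a y z - ∫ z', a y z' ∂μ) ∂μ := by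
    have i1 : Integrable (fun y => a y z) μ := by
      have := bm_sec hBMC (bm_swap hBMC ha) z
      exact (hBMC.1 E _ _ this this).2.2.2.2.2.2 μ
    rw [integral_sub i1 ((hBMC.1 E _ _ hA2 hA2).2.2.2.2.2.2 μ)]
  have hs := bm_sec hBMC (bm_swap hBMC hd) z
  have hs2 := bm_sec hBMC (bm_swap hBMC hd2) z
  simp only
  rw [h1]
  exact jensen ((hBMC.1 E _ _ hs hs).2.2.2.2.2.2 μ) ((hBMC.1 E _ _ hs2 hs2).2.2.2.2.2.2 μ)

/-- operator with a function of one particle -/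
theorem one (hBMC : Stmt_BMC) (hMES : Stmt_MES) (hSCH : Stmt_SCH) {C N ℓ : ℝ} (hC : 0 < C)
    (hN : 0 < N) (hℓ : 1 ≤ ℓ) (hNum : Num N ℓ) {k : E → E → E → ℝ} (hk : BM3 k)
    (hkb : ∀ x y z, |k x y z| ≤ C / (1 + ‖x - y‖ + ‖x - z‖) ^ 5) {f : E → ℝ} (hf : BM f) :
    ∫ x, (∫ z, (∫ y, k x y z ∂(nuc ℓ)) * f z ∂(nuc ℓ)) ^ 2 ∂(nuc ℓ) ≤
      (C * N ^ 2 / ℓ ^ 5) ^ 2 * ∫ z, f z ^ 2 ∂(nuc ℓ) := by
  have hℓ0 : 0 < ℓ := by linarith
  have : IsProbabilityMeasure (nuc ℓ) := (hMES ℓ hℓ0).2.2.2.1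
  have hkk : BM (fun p : (E × E) × E => k p.1.1 p.2 p.1.2) :=
    hBMC.2.2.2.1 (E × E × E) ((E × E) × E) _ (fun p => (p.1.1, p.2, p.1.2)) hk (by fun_prop)
  have hkb1 : BM2 (fun x z => ∫ y, k x y z ∂(nuc ℓ)) :=
    hBMC.2.2.2.2 (E × E) E (nuc ℓ) (fun p => k p.1.1 p.2 p.1.2) hkk
  set h : E → E → ℝ := fun x z => C * N / ℓ ^ 3 * ((1 + ‖x - z‖) ^ 2)⁻¹ with hh
  have hh0 : 0 ≤ C * N / ℓ ^ 3 := by positivity
  have hinv : ∀ x z : E, 0 ≤ ((1 + ‖x - z‖) ^ 2)⁻¹ ∧ ((1 + ‖x - z‖) ^ 2)⁻¹ ≤ 1 := by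
    intro x z
    refine ⟨by positivity, inv_le_one_of_one_le₀ ?_⟩
    exact one_le_pow₀ (by linarith [norm_nonneg (x - z)])
  have hhm : BM2 h := by
    refine ⟨?_, C * N / ℓ ^ 3, ?_⟩
    · simp only [hh]
      fun_prop
    · intro p
      simp only [hh]
      obtain ⟨h1, h2⟩ := hinv p.1 p.2
      rw [abs_of_nonneg (mul_nonneg hh0 h1)]
      exact mul_le_of_le_one_right hh0 h2
  have hB : 0 ≤ C * N ^ 2 / ℓ ^ 5 := by positivity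
  refine hSCH ℓ _ h (C * N ^ 2 / ℓ ^ 5) f hℓ0 hB hkb1 hhm hf ?_ ?_ ?_
  · intro x z
    have hs : BM (fun y => k x y z) :=
      hBMC.2.2.2.1 (E × E × E) E _ (fun y => (x, y, z)) hk (by fun_prop)
    have hs' := (hBMC.1 E _ _ hs hs).2.2.2.2.1
    have hb : BM (fun y => C * ((1 + ‖x - y‖ + ‖x - z‖) ^ 5)⁻¹) := by
      refine ⟨by fun_prop, C, fun y => ?_⟩
      have h1 : 0 ≤ ((1 + ‖x - y‖ + ‖x - z‖) ^ 5)⁻¹ := by positivity
      have h2 : ((1 + ‖x - y‖ + ‖x - z‖) ^ 5)⁻¹ ≤ 1 := inv_le_one_of_one_le₀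
        (one_le_pow₀ (by linarith [norm_nonneg (x - y), norm_nonneg (x - z)]))
      rw [abs_of_nonneg (mul_nonneg hC.le h1)]
      exact mul_le_of_le_one_right hC.le h2
    calc |∫ y, k x y z ∂(nuc ℓ)| ≤ ∫ y, |k x y z| ∂(nuc ℓ) := abs_integral_le_integral_abs
      _ ≤ ∫ y, C * ((1 + ‖x - y‖ + ‖x - z‖) ^ 5)⁻¹ ∂(nuc ℓ) := by
          refine integral_mono ((hBMC.1 E _ _ hs' hs').2.2.2.2.2.2 _)
            ((hBMC.1 E _ _ hb hb).2.2.2.2.2.2 _) fun y => ?_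
          have := hkb x y z
          rwa [div_eq_mul_inv] at this
      _ = C * ∫ y, ((1 + ‖x - y‖ + ‖x - z‖) ^ 5)⁻¹ ∂(nuc ℓ) := integral_const_mul _ _
      _ ≤ C * (N / ℓ ^ 3 * ((1 + ‖x - z‖) ^ 2)⁻¹) := mul_le_mul_of_nonneg_left (hNum.d x z) hC.le
      _ = h x z := by simp only [hh]; ring
  · intro x
    simp only [hh]
    rw [integral_const_mul]
    calc C * N / ℓ ^ 3 * ∫ z, ((1 + ‖x - z‖) ^ 2)⁻¹ ∂(nuc ℓ) ≤ C * N / ℓ ^ 3 * (N / ℓ ^ 2) :=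
          mul_le_mul_of_nonneg_left (hNum.f x) hh0
      _ = C * N ^ 2 / ℓ ^ 5 := by field_simp
  · intro z
    simp only [hh]
    rw [integral_const_mul]
    have e : (fun x : E => ((1 + ‖x - z‖) ^ 2)⁻¹) = fun x => ((1 + ‖z - x‖) ^ 2)⁻¹ := by
      funext x
      rw [norm_sub_rev]
    rw [e]
    calc C * N / ℓ ^ 3 * ∫ x, ((1 + ‖z - x‖) ^ 2)⁻¹ ∂(nuc ℓ) ≤ C * N / ℓ ^ 3 * (N / ℓ ^ 2) :=
          mul_le_mul_of_nonneg_left (hNum.f z) hh0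
      _ = C * N ^ 2 / ℓ ^ 5 := by field_simp

end OPB_

open OPB_ in
theorem opb_proof (hBMC : Stmt_BMC) (hMES : Stmt_MES) (hNUM : Stmt_NUM) (hSCH : Stmt_SCH)
    (hOPW : Stmt_OPW) : Stmt_OPB := by
  intro C hC
  obtain ⟨N, hN, hNum⟩ := hNUM
  obtain ⟨W, hW, hOW⟩ := hOPW C hC
  refine ⟨3 * (C * N ^ 2) ^ 2 + 3 * W, by positivity, ?_⟩
  intro ℓ hℓ k a hk ha hkb hk0
  have hℓ0 : 0 < ℓ := by linarith
  have : IsProbabilityMeasure (nuc ℓ) := (hMES ℓ hℓ0).2.2.2.1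
  set μ := nuc ℓ with hμ
  have int1 : ∀ {f : E → ℝ}, BM f → Integrable f μ := fun {f} hf =>
    (hBMC.1 E _ _ hf hf).2.2.2.2.2.2 μ
  set A1 : E → ℝ := fun z => ∫ y', a y' z ∂μ with hA1
  set A2 : E → ℝ := fun y => ∫ z', a y z' ∂μ with hA2
  set P : ℝ := ∫ y', ∫ z', a y' z' ∂μ ∂μ with hP
  have bA1 : BM A1 := bm_av hBMC (bm_swap hBMC ha)
  have bA2 : BM A2 := bm_av hBMC ha
  have bP : BM (fun _ : E => P) := hBMC.2.1 E P
  have bf1 : BM (fun z => A1 z - P) := (hBMC.1 E _ _ bA1 bP).2.1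
  have bf2 : BM (fun y => A2 y - P) := (hBMC.1 E _ _ bA2 bP).2.1
  set q : E → E → ℝ := fun y z => a y z - A1 z - A2 y + P with hq
  have bq : BM2 q := by
    have h1 : BM2 (fun y z => a y z - A1 z) := (hBMC.1 (E × E) _ _ ha (bm_snd hBMC bA1)).2.1
    have h2 : BM2 (fun y z => a y z - A1 z - A2 y) :=
      (hBMC.1 (E × E) _ _ h1 (bm_fst hBMC bA2)).2.1
    exact (hBMC.1 (E × E) _ _ h2 (hBMC.2.1 (E × E) P)).1
  -- sections of the kernel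
  have kx : ∀ x, BM2 (fun y z => k x y z) := fun x =>
    hBMC.2.2.2.1 (E × E × E) (E × E) _ (fun p => (x, p.1, p.2)) hk (by fun_prop)
  have kmul : ∀ x, ∀ {g : E → E → ℝ}, BM2 g → BM2 (fun y z => k x y z * g y z) := fun x {g} hg =>
    (hBMC.1 (E × E) _ _ (kx x) hg).2.2.1
  have hsec : ∀ {g : E → E → ℝ}, BM2 g → ∀ y, Integrable (fun z => g y z) μ := fun {g} hg y =>
    int1 (bm_sec hBMC hg y)
  have hint : ∀ {g : E → E → ℝ}, BM2 g → Integrable (fun y => ∫ z, g y z ∂μ) μ := fun {g} hg =>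
    int1 (bm_av hBMC hg)
  have addi : ∀ {g g' : E → E → ℝ}, BM2 g → BM2 g' →
      ∫ y, ∫ z, (g y z + g' y z) ∂μ ∂μ = (∫ y, ∫ z, g y z ∂μ ∂μ) + ∫ y, ∫ z, g' y z ∂μ ∂μ := by
    intro g g' hg hg'
    rw [← integral_add (hint hg) (hint hg')]
    apply integral_congr_ae
    filter_upwards with y
    exact integral_add (hsec hg y) (hsec hg' y)
  set T1 : E → ℝ := fun x => ∫ z, (∫ y, k x y z ∂μ) * (A1 z - P) ∂μ with hT1
  set T2 : E → ℝ := fun x => ∫ y, (∫ z, k x y z ∂μ) * (A2 y - P) ∂μ with hT2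
  set T3 : E → ℝ := fun x => ∫ y, ∫ z, k x y z * q y z ∂μ ∂μ with hT3
  have hdec : ∀ x, ∫ y, ∫ z, k x y z * a y z ∂μ ∂μ = T1 x + T2 x + T3 x := by
    intro x
    have e1 : ∫ y, ∫ z, k x y z * (A1 z - P) ∂μ ∂μ = T1 x := by
      rw [swap2 hBMC (kmul x (bm_snd hBMC bf1))]
      simp only [hT1]
      apply integral_congr_ae
      filter_upwards with z
      exact integral_mul_const _ _
    have e2 : ∫ y, ∫ z, k x y z * (A2 y - P) ∂μ ∂μ = T2 x := by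
      simp only [hT2]
      apply integral_congr_ae
      filter_upwards with y
      exact integral_mul_const _ _
    have e3 : ∫ y, ∫ z, k x y z * P ∂μ ∂μ = 0 := by
      have : ∀ y, ∫ z, k x y z * P ∂μ = (∫ z, k x y z ∂μ) * P := fun y => integral_mul_const _ _
      simp only [this]
      rw [integral_mul_const, hk0 x, zero_mul]
    have e4 : (fun y z => k x y z * a y z) = fun y z =>
        (((k x y z * (A1 z - P)) + (k x y z * (A2 y - P))) + k x y z * q y z) + k x y z * P := by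
      funext y z
      simp only [hq]
      ring
    have b1 := kmul x (bm_snd hBMC bf1)
    have b2 := kmul x (bm_fst hBMC bf2)
    have b3 := kmul x bq
    have b4 : BM2 (fun y z => k x y z * P) := kmul x (g := fun _ _ => P) (hBMC.2.1 (E × E) P)
    have b12 : BM2 (fun y z => k x y z * (A1 z - P) + k x y z * (A2 y - P)) :=
      (hBMC.1 (E × E) _ _ b1 b2).1
    have b123 : BM2 (fun y z => k x y z * (A1 z - P) + k x y z * (A2 y - P) + k x y z * q y z) :=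
      (hBMC.1 (E × E) _ _ b12 b3).1
    have e5 : ∫ y, ∫ z, k x y z * a y z ∂μ ∂μ = ∫ y, ∫ z,
        ((((k x y z * (A1 z - P)) + (k x y z * (A2 y - P))) + k x y z * q y z) + k x y z * P)
          ∂μ ∂μ := by
      have := congrArg (fun g : E → E → ℝ => ∫ y, ∫ z, g y z ∂μ ∂μ) e4
      exact this
    rw [e5, addi b123 b4, addi b12 b3, addi b1 b2, e1, e2, e3, add_zero]
  -- boundedness of the three functions
  have bk1 : BM2 (fun x z => ∫ y, k x y z ∂μ) :=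
    hBMC.2.2.2.2 (E × E) E μ (fun p => k p.1.1 p.2 p.1.2)
      (hBMC.2.2.2.1 (E × E × E) ((E × E) × E) _ (fun p => (p.1.1, p.2, p.1.2)) hk (by fun_prop))
  have bk2 : BM2 (fun x y => ∫ z, k x y z ∂μ) :=
    hBMC.2.2.2.2 (E × E) E μ (fun p => k p.1.1 p.1.2 p.2)
      (hBMC.2.2.2.1 (E × E × E) ((E × E) × E) _ (fun p => (p.1.1, p.1.2, p.2)) hk (by fun_prop))
  have bT1 : BM T1 := bm_av hBMC (a := fun x z => (∫ y, k x y z ∂μ) * (A1 z - P))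
    (hBMC.1 (E × E) _ _ bk1 (bm_snd hBMC bf1)).2.2.1
  have bT2 : BM T2 := bm_av hBMC (a := fun x y => (∫ z, k x y z ∂μ) * (A2 y - P))
    (hBMC.1 (E × E) _ _ bk2 (bm_snd hBMC bf2)).2.2.1
  have bT3 : BM T3 := by
    have h1 : BM (fun p : (E × E) × E => k p.1.1 p.1.2 p.2 * q p.1.2 p.2) := by
      refine (hBMC.1 ((E × E) × E) _ _ ?_ ?_).2.2.1
      · exact hBMC.2.2.2.1 (E × E × E) ((E × E) × E) _ (fun p => (p.1.1, p.1.2, p.2)) hk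
          (by fun_prop)
      · exact hBMC.2.2.2.1 (E × E) ((E × E) × E) _ (fun p => (p.1.2, p.2)) bq (by fun_prop)
    have h2 : BM2 (fun x y => ∫ z, k x y z * q y z ∂μ) :=
      hBMC.2.2.2.2 (E × E) E μ (fun p => k p.1.1 p.1.2 p.2 * q p.1.2 p.2) h1
    exact bm_av hBMC h2
  have bS : ∀ {f : E → ℝ}, BM f → BM (fun x => f x ^ 2) := fun {f} hf =>
    (hBMC.1 E _ _ hf hf).2.2.2.1
  have s1 : ∫ x, (∫ y, ∫ z, k x y z * a y z ∂μ ∂μ) ^ 2 ∂μ ≤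
      3 * ((∫ x, T1 x ^ 2 ∂μ) + (∫ x, T2 x ^ 2 ∂μ) + ∫ x, T3 x ^ 2 ∂μ) := by
    have i12 : Integrable (fun x => T1 x ^ 2 + T2 x ^ 2) μ :=
      (int1 (bS bT1)).add (int1 (bS bT2))
    rw [← integral_add (int1 (bS bT1)) (int1 (bS bT2)),
      ← integral_add i12 (int1 (bS bT3)), ← integral_const_mul]
    have b123 : BM (fun x => T1 x + T2 x + T3 x) :=
      (hBMC.1 E _ _ ((hBMC.1 E _ _ bT1 bT2).1) bT3).1
    have e : (fun x => (∫ y, ∫ z, k x y z * a y z ∂μ ∂μ) ^ 2) =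
        fun x => (T1 x + T2 x + T3 x) ^ 2 := by
      funext x
      rw [hdec]
    rw [e]
    refine integral_mono (int1 (bS b123))
      ((((int1 (bS bT1)).add (int1 (bS bT2))).add (int1 (bS bT3))).const_mul 3) fun x => ?_
    simp only
    nlinarith [sq_nonneg (T1 x - T2 x), sq_nonneg (T1 x - T3 x), sq_nonneg (T2 x - T3 x)]
  have t1 : ∫ x, T1 x ^ 2 ∂μ ≤ (C * N ^ 2 / ℓ ^ 5) ^ 2 * ∫ z, (A1 z - P) ^ 2 ∂μ :=
    one hBMC hMES hSCH hC hN hℓ (hNum ℓ hℓ) hk hkb bf1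
  have t2 : ∫ x, T2 x ^ 2 ∂μ ≤ (C * N ^ 2 / ℓ ^ 5) ^ 2 * ∫ z, (A2 z - P) ^ 2 ∂μ := by
    have hk' : BM3 (fun x y z => k x z y) :=
      hBMC.2.2.2.1 (E × E × E) (E × E × E) _ (fun p => (p.1, p.2.2, p.2.1)) hk (by fun_prop)
    refine one hBMC hMES hSCH hC hN hℓ (hNum ℓ hℓ) hk' (fun x y z => ?_) bf2
    have := hkb x z y
    rwa [show (1 : ℝ) + ‖x - z‖ + ‖x - y‖ = 1 + ‖x - y‖ + ‖x - z‖ by ring] at this
  have t3 : ∫ x, T3 x ^ 2 ∂μ ≤ W / ℓ ^ 8 * ∫ y, ∫ z, Ur ℓ ‖y - z‖ * q y z ^ 2 ∂μ ∂μ :=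
    hOW ℓ hℓ k q hk bq hkb
  have d1 : ∫ z, (A1 z - P) ^ 2 ∂μ ≤ ∫ y, ∫ z, (a y z - A2 y) ^ 2 ∂μ ∂μ := dev hBMC ha
  have d2 : ∫ z, (A2 z - P) ^ 2 ∂μ ≤ ∫ y, ∫ z, (a y z - A1 z) ^ 2 ∂μ ∂μ := by
    have h := dev hBMC (μ := μ) (bm_swap hBMC ha)
    have e1 : ∫ y, ∫ z, a z y ∂μ ∂μ = P := by rw [hP, swap2 hBMC ha]
    rw [e1] at h
    refine h.trans (le_of_eq ?_)
    have hd : BM2 (fun y z => a y z - A1 z) := (hBMC.1 (E × E) _ _ ha (bm_snd hBMC bA1)).2.1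
    have hd2 : BM2 (fun y z => (a y z - A1 z) ^ 2) := (hBMC.1 (E × E) _ _ hd hd).2.2.2.1
    exact (swap2 hBMC hd2).symm
  set I1 := ∫ y, ∫ z, (a y z - A1 z) ^ 2 ∂μ ∂μ with hI1
  set I2 := ∫ y, ∫ z, (a y z - A2 y) ^ 2 ∂μ ∂μ with hI2
  set I3 := ∫ y, ∫ z, Ur ℓ ‖y - z‖ * q y z ^ 2 ∂μ ∂μ with hI3
  have p1 : 0 ≤ I1 := integral_nonneg fun y => integral_nonneg fun z => sq_nonneg _
  have p2 : 0 ≤ I2 := integral_nonneg fun y => integral_nonneg fun z => sq_nonneg _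
  have p3 : 0 ≤ I3 := by
    refine integral_nonneg fun y => integral_nonneg fun z => mul_nonneg ?_ (sq_nonneg _)
    unfold Ur
    positivity
  have hB : (C * N ^ 2 / ℓ ^ 5) ^ 2 = (C * N ^ 2) ^ 2 / ℓ ^ 10 := by
    rw [div_pow]
    congr 1
    ring
  rw [hB] at t1 t2
  have hc1 : 0 ≤ (C * N ^ 2) ^ 2 / ℓ ^ 10 := by positivity
  have u1 := t1.trans (mul_le_mul_of_nonneg_left d1 hc1)
  have u2 := t2.trans (mul_le_mul_of_nonneg_left d2 hc1)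
  have hW8 : 0 ≤ W / ℓ ^ 8 := by positivity
  have hC10 : (3 * (C * N ^ 2) ^ 2 + 3 * W) / ℓ ^ 10 = 3 * ((C * N ^ 2) ^ 2 / ℓ ^ 10) +
      3 * (W / ℓ ^ 10) := by ring
  have hC8 : (3 * (C * N ^ 2) ^ 2 + 3 * W) / ℓ ^ 8 = 3 * ((C * N ^ 2) ^ 2 / ℓ ^ 8) +
      3 * (W / ℓ ^ 8) := by ring
  have hn1 : 0 ≤ W / ℓ ^ 10 := by positivity
  have hn2 : 0 ≤ (C * N ^ 2) ^ 2 / ℓ ^ 8 := by positivity
  have m1 := mul_nonneg hn1 (add_nonneg p1 p2)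
  have m2 := mul_nonneg hn2 p3
  have goal : ∫ x, (∫ y, ∫ z, k x y z * a y z ∂μ ∂μ) ^ 2 ∂μ ≤
      (3 * (C * N ^ 2) ^ 2 + 3 * W) / ℓ ^ 10 * (I1 + I2) +
      (3 * (C * N ^ 2) ^ 2 + 3 * W) / ℓ ^ 8 * I3 := by
    rw [hC10, hC8]
    nlinarith
  exact goal

end Pool.Agent.TBL
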