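import Pool.Agent.TBL.Stmts

/-!
# Squad TBL, module SKF: smooth kernels in the first variable
-/

set_option autoImplicit false

open MeasureTheory Filter Topology
open scoped ContDiff

namespace Pool.Agent.TBL

open Pool.Agent.TBG

namespace SKF_

theorem slice {φ : E → E → E → ℝ} (h : ContDiff ℝ ∞ (fun p : E × E × E => φ p.1 p.2.1 p.2.2)) (y z : E) :
    ContDiff ℝ ∞ (fun x => φ x y z) := by
  have h1 : ContDiff ℝ ∞ (fun x : E => ((x, y, z) : E × E × E)) := by fun_prop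
  exact h.comp h1

theorem dk_eq {φ : E → E → E → ℝ} (h : ContDiff ℝ ∞ (fun p : E × E × E => φ p.1 p.2.1 p.2.2)) (c : Fin 3)
    (x y z : E) : dk c φ x y z =
      fderiv ℝ (fun p : E × E × E => φ p.1 p.2.1 p.2.2) (x, y, z) (ev c, 0, 0) := by
  have h1 : HasFDerivAt (fun x : E => ((x, y, z) : E × E × E))
      ((ContinuousLinearMap.id ℝ E).prod ((0 : E →L[ℝ] E × E))) x :=
    (hasFDerivAt_id x).prodMk (hasFDerivAt_const (y, z) x)
  have h2 : HasFDerivAt (fun p : E × E × E => φ p.1 p.2.1 p.2.2)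
      (fderiv ℝ (fun p : E × E × E => φ p.1 p.2.1 p.2.2) (x, y, z)) (x, y, z) :=
    (h.differentiable (by simp)).differentiableAt.hasFDerivAt
  have h3 := h2.comp x h1
  have h4 : fderiv ℝ (fun x' => φ x' y z) x = _ := h3.fderiv
  unfold dk pd
  rw [h4]
  simp [Prod.zero_eq_mk]

theorem step {φ : E → E → E → ℝ} (h : ContDiff ℝ ∞ (fun p : E × E × E => φ p.1 p.2.1 p.2.2)) (c : Fin 3) :
    ContDiff ℝ ∞ (fun p : E × E × E => dk c φ p.1 p.2.1 p.2.2) := by
  have h1 : (fun p : E × E × E => dk c φ p.1 p.2.1 p.2.2) = fun p : E × E × E =>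
      fderiv ℝ (fun p : E × E × E => φ p.1 p.2.1 p.2.2) p (ev c, 0, 0) := by
    funext p
    exact dk_eq h c p.1 p.2.1 p.2.2
  rw [h1]
  have h2 : ContDiff ℝ ∞ (fderiv ℝ (fun p : E × E × E => φ p.1 p.2.1 p.2.2)) :=
    h.fderiv_right (by simp)
  exact h2.clm_apply contDiff_const

end SKF_

open SKF_ in
theorem skf_proof : Stmt_SKF := by
  intro φ h
  refine ⟨slice h, step h, fun c => slice (step h c), ?_⟩
  have h1 : (fun p : E × E × E => Lk φ p.1 p.2.1 p.2.2) = fun p : E × E × E =>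
      ∑ c, dk c (dk c φ) p.1 p.2.1 p.2.2 := rfl
  rw [h1]
  exact continuous_finsetSum _ fun c _ => (step (step h c) c).continuous

end Pool.Agent.TBL
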