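import Pool.Agent.TBL.Defs

/-!
# Three-body Bose gases (MP_80dc41_mp), lower bound: statements of the modules
-/

set_option autoImplicit false

open MeasureTheory Filter Topology
open scoped ContDiff

namespace Pool.Agent.TBL

open Pool.Agent.TBG

/-! ## measure and averages -/

/-- bounded measurable functions -/
def Stmt_BMC : Prop := (∀ (α : Type) [MeasurableSpace α] (F G : α → ℝ), BM F → BM G →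
    BM (fun X => F X + G X) ∧ BM (fun X => F X - G X) ∧ BM (fun X => F X * G X) ∧ BM (fun X => F X ^ 2) ∧
    BM (fun X => |F X|) ∧ (∀ a : ℝ, BM (fun X => a * F X)) ∧
    (∀ (μ : Measure α) [IsFiniteMeasure μ], Integrable F μ)) ∧
  (∀ (α : Type) [MeasurableSpace α] (a : ℝ), BM (fun _ : α => a)) ∧
  (∀ (α J : Type) [MeasurableSpace α] (s : Finset J) (F : J → α → ℝ), (∀ p ∈ s, BM (F p)) →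
    BM (fun X => ∑ p ∈ s, F p X)) ∧
  (∀ (α β : Type) [MeasurableSpace α] [MeasurableSpace β] (F : α → ℝ) (f : β → α), BM F → Measurable f →
    BM (fun X => F (f X))) ∧
  (∀ (α β : Type) [MeasurableSpace α] [MeasurableSpace β] (μ : Measure β) [IsProbabilityMeasure μ]
    (F : α × β → ℝ), BM F → BM (fun X => ∫ y, F (X, y) ∂μ))

/-- the measure of the cube -/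
def Stmt_MES : Prop := ∀ ℓ : ℝ, 0 < ℓ →
  MeasurableSet (Lam ℓ) ∧ IsCompact (Lam ℓ) ∧ volume (Lam ℓ) = ENNReal.ofReal (ℓ ^ 3) ∧
  IsProbabilityMeasure (nuc ℓ) ∧
  (∀ f : E → ℝ, ∫ x, f x ∂(nuc ℓ) = (ℓ ^ 3)⁻¹ * ∫ x in Lam ℓ, f x) ∧
  (∀ᵐ x ∂(nuc ℓ), x ∈ Lam ℓ ∧ ∀ c, 0 < x c ∧ x c < ℓ) ∧
  (∀ f : E → ℝ, Continuous f → Integrable f (nuc ℓ)) ∧
  (∀ f : E → ℝ, (∀ x, 0 ≤ f x) → Integrable f volume →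
    Integrable f (nuc ℓ) ∧ ∫ x, f x ∂(nuc ℓ) ≤ (ℓ ^ 3)⁻¹ * ∫ x, f x)

/-- the product measure -/
def Stmt_MEP : Prop := ∀ (ι : Type) [Fintype ι] (ℓ : ℝ), 0 < ℓ →
  IsProbabilityMeasure (PiM ι ℓ) ∧
  (∀ᵐ X ∂(PiM ι ℓ), ∀ i, X i ∈ Lam ℓ ∧ ∀ c, 0 < X i c ∧ X i c < ℓ) ∧
  (∀ F : (ι → E) → ℝ, ∫ X, F X ∂(PiM ι ℓ) =
    ((ℓ ^ 3) ^ Fintype.card ι)⁻¹ * ∫ X in {X : ι → E | ∀ i, X i ∈ Lam ℓ}, F X)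

/-- averages, 1 -/
def Stmt_AVA : Prop := ∀ (ι : Type) [Fintype ι] [DecidableEq ι] (ℓ : ℝ), 0 < ℓ →
  ∀ (i : ι) (F : (ι → E) → ℝ), BM F → BM (av ℓ i F) ∧
    (∫ X, av ℓ i F X ∂(PiM ι ℓ) = ∫ X, F X ∂(PiM ι ℓ)) ∧
    BM (fun p : (ι → E) × E => F (Function.update p.1 i p.2)) ∧
    (∀ j, av ℓ i (av ℓ j F) = av ℓ j (av ℓ i F)) ∧
    (∀ C, (∀ X, |F X| ≤ C) → ∀ X, |av ℓ i F X| ≤ C)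

/-- averages, 2 -/
def Stmt_AVB : Prop := ∀ (ι : Type) [Fintype ι] [DecidableEq ι] (ℓ : ℝ), 0 < ℓ → ∀ (i : ι),
  (∀ F : (ι → E) → ℝ, Ind i (av ℓ i F)) ∧
  (∀ (j : ι) (F : (ι → E) → ℝ), Ind j F → Ind j (av ℓ i F)) ∧
  (∀ F G : (ι → E) → ℝ, Ind i G → av ℓ i (fun X => G X * F X) = fun X => G X * av ℓ i F X) ∧
  (∀ F : (ι → E) → ℝ, Ind i F → av ℓ i F = F) ∧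
  (∀ F G : (ι → E) → ℝ, BM F → BM G → av ℓ i (fun X => F X + G X) = fun X => av ℓ i F X + av ℓ i G X) ∧
  (∀ F G : (ι → E) → ℝ, BM F → BM G → av ℓ i (fun X => F X - G X) = fun X => av ℓ i F X - av ℓ i G X) ∧
  (∀ (F : (ι → E) → ℝ) (a : ℝ), av ℓ i (fun X => a * F X) = fun X => a * av ℓ i F X) ∧
  (∀ F G : (ι → E) → ℝ, BM F → BM G → (∀ X, F X ≤ G X) → ∀ X, av ℓ i F X ≤ av ℓ i G X) ∧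
  (∀ F G : (ι → E) → ℝ, BM F → BM G → ∀ X, (av ℓ i (fun Y => F Y * G Y) X) ^ 2 ≤
    av ℓ i (fun Y => F Y ^ 2) X * av ℓ i (fun Y => G Y ^ 2) X)

/-- projections -/
def Stmt_PQF : Prop := ∀ (ι : Type) [Fintype ι] [DecidableEq ι] (ℓ : ℝ), 0 < ℓ →
  ∀ (i : ι) (F G : (ι → E) → ℝ), BM F → BM G → BM (Qa ℓ i F) ∧ 0 ≤ ns ℓ F ∧
  (∫ X, av ℓ i F X * G X ∂(PiM ι ℓ) = ∫ X, F X * av ℓ i G X ∂(PiM ι ℓ)) ∧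
  (∫ X, Qa ℓ i F X * G X ∂(PiM ι ℓ) = ∫ X, F X * Qa ℓ i G X ∂(PiM ι ℓ)) ∧
  ns ℓ F = ns ℓ (av ℓ i F) + ns ℓ (Qa ℓ i F) ∧ ns ℓ (av ℓ i F) ≤ ns ℓ F ∧ ns ℓ (Qa ℓ i F) ≤ ns ℓ F ∧
  (av ℓ i (Qa ℓ i F) = fun _ => 0) ∧ (∀ j, av ℓ j (Qa ℓ i F) = Qa ℓ i (av ℓ j F)) ∧
  (∀ j, ns ℓ (Qa ℓ j (av ℓ i F)) ≤ ns ℓ (Qa ℓ j F)) ∧ (∀ j, ns ℓ (Qa ℓ j (Qa ℓ i F)) ≤ ns ℓ (Qa ℓ j F)) ∧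
  (∀ j, Qa ℓ j (Qa ℓ i F) = Qa ℓ i (Qa ℓ j F)) ∧
  (∫ X, F X * G X ∂(PiM ι ℓ)) ^ 2 ≤ ns ℓ F * ns ℓ G

/-- the threefold average -/
def Stmt_ATF : Prop := ∀ (ι : Type) [Fintype ι] [DecidableEq ι] (ℓ : ℝ), 0 < ℓ →
  ∀ (i j k : ι) (u : (ι → E) → ℝ), BM u → BM (A3 ℓ i j k u) ∧ Ind i (A3 ℓ i j k u) ∧ Ind j (A3 ℓ i j k u) ∧
    Ind k (A3 ℓ i j k u) ∧ A3 ℓ i j k u = A3 ℓ j i k u ∧ A3 ℓ i j k u = A3 ℓ i k j u ∧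
    ns ℓ (A3 ℓ i j k u) ≤ ns ℓ u ∧ (∀ l, ns ℓ (Qa ℓ l (A3 ℓ i j k u)) ≤ ns ℓ (Qa ℓ l u)) ∧
    (∫ X, u X * A3 ℓ i j k u X ∂(PiM ι ℓ) = ns ℓ (A3 ℓ i j k u))

/-- a function of three particles times a function of the others -/
def Stmt_FAT : Prop := ∀ (ι : Type) [Fintype ι] [DecidableEq ι] (ℓ : ℝ), 0 < ℓ →
  ∀ (F : E → E → E → ℝ) (A : (ι → E) → ℝ) (i j k : ι), i ≠ j → i ≠ k → j ≠ k → BM3 F → BM A →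
    Ind i A → Ind j A → Ind k A →
    ∫ X, F (X i) (X j) (X k) * A X ∂(PiM ι ℓ) =
      (∫ x, ∫ y, ∫ z, F x y z ∂(nuc ℓ) ∂(nuc ℓ) ∂(nuc ℓ)) * ∫ X, A X ∂(PiM ι ℓ)

/-- most of the mass is in the constants -/
def Stmt_CNT : Prop := ∀ (ι : Type) [Fintype ι] [DecidableEq ι] (ℓ : ℝ), 0 < ℓ →
  ∀ u : (ι → E) → ℝ, BM u →
    (Fintype.card ι : ℝ) * ((Fintype.card ι : ℝ) - 1) * ((Fintype.card ι : ℝ) - 2) * ns ℓ u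
      - 3 * (((Fintype.card ι : ℝ) - 1) * ((Fintype.card ι : ℝ) - 2)) * ∑ i, ns ℓ (Qa ℓ i u) ≤
    ∑ t ∈ D3 ι, ns ℓ (A3 ℓ t.1 t.2.1 t.2.2 u)

/-! ## the soft potential -/

/-- Cauchy-Schwarz for sums of excitations -/
def Stmt_SFA : Prop := ∀ (ι : Type) [Fintype ι] [DecidableEq ι] (ℓ : ℝ), 0 < ℓ →
  ∀ (J : Finset ι) (h : ι → (ι → E) → ℝ) (w : (ι → E) → ℝ) (H : ℝ), 0 ≤ H → BM w →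
    (∀ j ∈ J, BM (h j) ∧ (∀ X, |h j X| ≤ H) ∧ ∀ j' ∈ J, j' ≠ j → Ind j' (h j)) →
    ns ℓ (fun X => ∑ j ∈ J, Qa ℓ j (fun Y => h j Y * av ℓ j w Y) X) ≤
      H ^ 2 * (J.card : ℝ) * (ns ℓ w + ∑ j ∈ J, ns ℓ (Qa ℓ j w))

/-- decomposition -/
def Stmt_SFC : Prop := ∀ (ι : Type) [Fintype ι] [DecidableEq ι] (ℓ : ℝ), 0 < ℓ →
  ∀ (g : E → E → E → ℝ) (gb : ℝ) (u : (ι → E) → ℝ) (i j k : ι), i ≠ j → i ≠ k → j ≠ k → BM3 g → Sy3 g →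
    (∀ x, ∫ y, ∫ z, g x y z ∂(nuc ℓ) ∂(nuc ℓ) = gb) → BM u →
    ∫ X, u X * g (X i) (X j) (X k) * A3 ℓ i j k u X ∂(PiM ι ℓ) = gb * ns ℓ (A3 ℓ i j k u)
      + ∫ X, Qa ℓ i (Qa ℓ k (av ℓ j u)) X * g (X i) (X j) (X k) * A3 ℓ i j k u X ∂(PiM ι ℓ)
      + ∫ X, Qa ℓ j (Qa ℓ k (av ℓ i u)) X * g (X i) (X j) (X k) * A3 ℓ i j k u X ∂(PiM ι ℓ)
      + ∫ X, Qa ℓ i (Qa ℓ j u) X * g (X i) (X j) (X k) * A3 ℓ i j k u X ∂(PiM ι ℓ)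

/-- the error terms of the soft potential -/
def Stmt_SFD : Prop := ∀ (ι : Type) [Fintype ι] [DecidableEq ι] (ℓ : ℝ), 0 < ℓ →
  ∀ (g : E → E → E → ℝ) (H : ℝ) (u : (ι → E) → ℝ), BM3 g → (∀ x y z, |g x y z| ≤ H) → BM u →
    |∑ t ∈ D3 ι, ∫ X, Qa ℓ t.1 (Qa ℓ t.2.1 u) X * g (X t.1) (X t.2.1) (X t.2.2) *
        A3 ℓ t.1 t.2.1 t.2.2 u X ∂(PiM ι ℓ)| ≤
      (Fintype.card ι : ℝ) ^ 2 * H * (∑ i, ns ℓ (Qa ℓ i u) + 1 / 2 * ns ℓ u) ∧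
    |∑ t ∈ D3 ι, ∫ X, Qa ℓ t.1 (Qa ℓ t.2.1 (av ℓ t.2.2 u)) X * g (X t.1) (X t.2.1) (X t.2.2) *
        A3 ℓ t.1 t.2.1 t.2.2 u X ∂(PiM ι ℓ)| ≤
      (Fintype.card ι : ℝ) ^ 2 * H * (∑ i, ns ℓ (Qa ℓ i u) + 1 / 2 * ns ℓ u)

/-- the soft potential -/
def Stmt_SFB : Prop := ∀ (ι : Type) [Fintype ι] [DecidableEq ι] (ℓ : ℝ), 0 < ℓ →
  ∀ (g : E → E → E → ℝ) (H gb : ℝ) (u : (ι → E) → ℝ), BM3 g → Sy3 g → (∀ x y z, |g x y z| ≤ H) →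
    (∀ x, ∫ y, ∫ z, g x y z ∂(nuc ℓ) ∂(nuc ℓ) = gb) → BM u →
    gb * ∑ t ∈ D3 ι, ns ℓ (A3 ℓ t.1 t.2.1 t.2.2 u)
      - 3 * ((Fintype.card ι : ℝ) ^ 2 * H * (∑ i, ns ℓ (Qa ℓ i u) + 1 / 2 * ns ℓ u)) ≤
    ∑ t ∈ D3 ι, ∫ X, u X * g (X t.1) (X t.2.1) (X t.2.2) * A3 ℓ t.1 t.2.1 t.2.2 u X ∂(PiM ι ℓ)

/-- the soft potential of a kernel -/
def Stmt_SFK : Prop := ∀ (ι : Type) [Fintype ι] [DecidableEq ι] (V : E → E → ℝ) (ℓ C b : ℝ)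
  (φ w q g : E → E → E → ℝ) (u : (ι → E) → ℝ), 0 < ℓ → 0 < C → 0 < b → Ker V ℓ C b φ w q g → BM u →
    b / ℓ ^ 6 * ∑ t ∈ D3 ι, ns ℓ (A3 ℓ t.1 t.2.1 t.2.2 u)
      - 3 * ((Fintype.card ι : ℝ) ^ 2 * (C / ℓ ^ 6) * (∑ i, ns ℓ (Qa ℓ i u) + 1 / 2 * ns ℓ u)) ≤
    ∑ t ∈ D3 ι, ∫ X, u X * g (X t.1) (X t.2.1) (X t.2.2) * A3 ℓ t.1 t.2.1 t.2.2 u X ∂(PiM ι ℓ)

/-! ## the potential and the cross term -/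

/-- the potential energy -/
def Stmt_POM : Prop := ∀ (ι : Type) [Fintype ι] [DecidableEq ι] (V : E → E → ℝ) (ℓ C b : ℝ)
  (φ w q g : E → E → E → ℝ) (u : (ι → E) → ℝ), 0 < ℓ → Admissible V → Ker V ℓ C b φ w q g → BM u →
    1 / 3 * ∑ t ∈ D3 ι, ∫ X, u X * w (X t.1) (X t.2.1) (X t.2.2) * A3 ℓ t.1 t.2.1 t.2.2 u X ∂(PiM ι ℓ)
      - 1 / 6 * (∫ x, ∫ y, ∫ z, q x y z ∂(nuc ℓ) ∂(nuc ℓ) ∂(nuc ℓ)) *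
        ∑ t ∈ D3 ι, ns ℓ (A3 ℓ t.1 t.2.1 t.2.2 u) ≤
    ∫ X, potS V X * u X ^ 2 ∂(PiM ι ℓ)

/-- integration by parts on the cube -/
def Stmt_IBC : Prop := ∀ (ℓ : ℝ) (c : Fin 3) (f ψ : E → ℝ), 0 < ℓ → ContDiff ℝ 1 f → ContDiff ℝ 1 ψ →
  (∀ x ∈ Lam ℓ, (x c = 0 ∨ x c = ℓ) → ψ x = 0) →
  ∫ x, pd c f x * ψ x ∂(nuc ℓ) = - ∫ x, f x * pd c ψ x ∂(nuc ℓ)

/-- smooth kernels in the first variable -/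
def Stmt_SKF : Prop := ∀ φ : E → E → E → ℝ, ContDiff ℝ ∞ (fun p : E × E × E => φ p.1 p.2.1 p.2.2) →
  (∀ y z, ContDiff ℝ ∞ (fun x => φ x y z)) ∧
  (∀ c, ContDiff ℝ ∞ (fun p : E × E × E => dk c φ p.1 p.2.1 p.2.2)) ∧
  (∀ c y z, ContDiff ℝ ∞ (fun x => dk c φ x y z)) ∧
  Continuous (fun p : E × E × E => Lk φ p.1 p.2.1 p.2.2)

/-- the slices of a function of many particles -/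
def Stmt_SLI : Prop := ∀ (ι : Type) [Fintype ι] [DecidableEq ι] (u : (ι → E) → ℝ), ContDiff ℝ 1 u →
  HasCompactSupport u → BM u ∧ (∀ i c, BM (di i c u)) ∧
  (∀ (i : ι) (X : ι → E), ContDiff ℝ 1 (fun x => u (Function.update X i x)) ∧
    ∀ c x, pd c (fun x => u (Function.update X i x)) x = di i c u (Function.update X i x))

/-- integration by parts for one triple -/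
def Stmt_CRA : Prop := ∀ (ι : Type) [Fintype ι] [DecidableEq ι] (V : E → E → ℝ) (ℓ C b : ℝ)
  (φ w q g : E → E → E → ℝ) (u A : (ι → E) → ℝ) (i j k : ι), 0 < ℓ → Ker V ℓ C b φ w q g →
    ContDiff ℝ 1 u → HasCompactSupport u → BM A → Ind i A → i ≠ j → i ≠ k →
    ∑ c, ∫ X, di i c u X * dk c φ (X i) (X j) (X k) * A X ∂(PiM ι ℓ) =
      - ∫ X, u X * Lk φ (X i) (X j) (X k) * A X ∂(PiM ι ℓ)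

/-- symmetrisation -/
def Stmt_CRB : Prop := ∀ (ι : Type) [Fintype ι] [DecidableEq ι] (V : E → E → ℝ) (ℓ C b : ℝ)
  (φ w q g : E → E → E → ℝ) (u : (ι → E) → ℝ), 0 < ℓ → Ker V ℓ C b φ w q g → BM u →
    ∑ t ∈ D3 ι, ∫ X, u X * Lk φ (X t.1) (X t.2.1) (X t.2.2) * A3 ℓ t.1 t.2.1 t.2.2 u X ∂(PiM ι ℓ) =
      1 / 3 * ∑ t ∈ D3 ι, ∫ X, u X * g (X t.1) (X t.2.1) (X t.2.2) * A3 ℓ t.1 t.2.1 t.2.2 u X ∂(PiM ι ℓ)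
      - 1 / 3 * ∑ t ∈ D3 ι, ∫ X, u X * w (X t.1) (X t.2.1) (X t.2.2) * A3 ℓ t.1 t.2.1 t.2.2 u X ∂(PiM ι ℓ)

/-! ## the kinetic energy -/

/-- the form `Qf` -/
def Stmt_QFB : Prop := ∀ (ℓ C : ℝ) (κ : E → E → ℝ), 0 < ℓ → Rsv ℓ C κ →
  (∀ f g : E → ℝ, ContDiff ℝ 1 f → ContDiff ℝ 1 g → |Qf ℓ κ f g| ≤
    2 * (Real.sqrt (∑ c, ∫ x, (pd c f x) ^ 2 ∂(nuc ℓ)) * Real.sqrt (∑ c, ∫ x, (pd c g x) ^ 2 ∂(nuc ℓ)))) ∧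
  (∀ (J : Type) (s : Finset J) (a : J → ℝ) (f : J → E → ℝ), (∀ p ∈ s, ContDiff ℝ 1 (f p)) →
    ContDiff ℝ 1 (fun x => ∑ p ∈ s, a p * f p x) ∧
    (∀ c x, pd c (fun x => ∑ p ∈ s, a p * f p x) x = ∑ p ∈ s, a p * pd c (f p) x) ∧
    Qf ℓ κ (fun x => ∑ p ∈ s, a p * f p x) (fun x => ∑ p ∈ s, a p * f p x) =
      ∑ p ∈ s, ∑ p' ∈ s, a p * a p' * Qf ℓ κ (f p) (f p'))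

/-- measurability of `Qf` -/
def Stmt_QFM : Prop := ∀ (ℓ C : ℝ) (κ : E → E → ℝ) (φ : E → E → E → ℝ), 0 < ℓ → Rsv ℓ C κ → SK φ →
  BM (fun p : (E × E) × (E × E) => Qf ℓ κ (fun x => φ x p.1.1 p.1.2) (fun x => φ x p.2.1 p.2.2))

/-- completing the square for one particle -/
def Stmt_OPK : Prop := ∀ (ℓ C : ℝ) (κ : E → E → ℝ) (h f : E → ℝ), 0 < ℓ → Rsv ℓ C κ → ContDiff ℝ 1 h →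
  ContDiff ℝ 1 f → 1 / 6 * q1 ℓ κ h h - Qf ℓ κ f f - 2 * ∑ c, ∫ x, pd c h x * pd c f x ∂(nuc ℓ) ≤
    ∑ c, ∫ x, (pd c h x) ^ 2 ∂(nuc ℓ)

/-- the kinetic energy of the particle `i` -/
def Stmt_KIM : Prop := ∀ (ι : Type) [Fintype ι] [DecidableEq ι] (ℓ C : ℝ) (κ : E → E → ℝ)
  (φ : E → E → E → ℝ) (u : (ι → E) → ℝ) (i : ι), 0 < ℓ → Rsv ℓ C κ → SK φ → ContDiff ℝ 1 u →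
  HasCompactSupport u →
    1 / 6 * qI ℓ κ i u - 1 / 4 * ∑ p ∈ D2 i, ∑ p' ∈ D2 i, Bf ℓ κ φ u i p.1 p.2 p'.1 p'.2
      - ∑ p ∈ D2 i, ∑ c, ∫ X, di i c u X * dk c φ (X i) (X p.1) (X p.2) * A3 ℓ i p.1 p.2 u X ∂(PiM ι ℓ) ≤
    ∑ c, ∫ X, (di i c u X) ^ 2 ∂(PiM ι ℓ)

/-- the energy inequality -/
def Stmt_ENI : Prop := ∀ (ι : Type) [Fintype ι] [DecidableEq ι] (V : E → E → ℝ) (ℓ C b : ℝ)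
  (φ w q g : E → E → E → ℝ) (κ : E → E → ℝ) (u : (ι → E) → ℝ), 0 < ℓ → Admissible V →
  Ker V ℓ C b φ w q g → Rsv ℓ C κ → ContDiff ℝ 1 u → HasCompactSupport u →
    1 / 6 * ∑ i, qI ℓ κ i u
      - 1 / 4 * ∑ i, ∑ p ∈ D2 i, ∑ p' ∈ D2 i, Bf ℓ κ φ u i p.1 p.2 p'.1 p'.2
      + 1 / 3 * ∑ t ∈ D3 ι, ∫ X, u X * g (X t.1) (X t.2.1) (X t.2.2) * A3 ℓ t.1 t.2.1 t.2.2 u X ∂(PiM ι ℓ)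
      - 1 / 6 * (∫ x, ∫ y, ∫ z, q x y z ∂(nuc ℓ) ∂(nuc ℓ) ∂(nuc ℓ)) *
        ∑ t ∈ D3 ι, ns ℓ (A3 ℓ t.1 t.2.1 t.2.2 u) ≤ enL V ℓ u

/-! ## numerical integrals -/

/-- singular powers -/
def Stmt_NPP : Prop := ∀ p : ℝ, 0 < p → p < 3 → ∃ C : ℝ, 0 < C ∧ ∀ ℓ : ℝ, 0 < ℓ → ∀ x : E,
  Integrable (fun y => ‖x - y‖ ^ (-p)) (nuc ℓ) ∧ ∫ y, ‖x - y‖ ^ (-p) ∂(nuc ℓ) ≤ C * ℓ ^ (-p)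

/-- decaying powers -/
def Stmt_NQQ : Prop := ∀ p : ℝ, 3 < p → ∃ C : ℝ, 0 < C ∧ ∀ ℓ : ℝ, 0 < ℓ → ∀ A : ℝ, 0 < A → ∀ x : E,
  ∫ y, (A + ‖x - y‖) ^ (-p) ∂(nuc ℓ) ≤ C * (ℓ ^ 3)⁻¹ * A ^ (3 - p)

/-- the constants -/
structure Num (C ℓ : ℝ) : Prop where
  a : ∀ x : E, ∫ y, ((1 + ‖x - y‖) ^ 4)⁻¹ ∂(nuc ℓ) ≤ C / ℓ ^ 3
  b : ∀ y z : E, ∫ x, ((1 + ‖x - y‖ + ‖x - z‖) ^ 10)⁻¹ ∂(nuc ℓ) ≤ C / ℓ ^ 3 * ((1 + ‖y - z‖) ^ 7)⁻¹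
  c : ∀ y : E, ∫ z, Real.sqrt (((1 + ‖y - z‖) ^ 7)⁻¹) ∂(nuc ℓ) ≤ C / ℓ ^ 3
  d : ∀ x z : E, ∫ y, ((1 + ‖x - y‖ + ‖x - z‖) ^ 5)⁻¹ ∂(nuc ℓ) ≤ C / ℓ ^ 3 * ((1 + ‖x - z‖) ^ 2)⁻¹
  e : ∀ y z : E, ∫ x, ((1 + ‖x - y‖ + ‖x - z‖) ^ 5)⁻¹ ∂(nuc ℓ) ≤ C / ℓ ^ 3 * ((1 + ‖y - z‖) ^ 2)⁻¹
  f : ∀ x : E, ∫ z, ((1 + ‖x - z‖) ^ 2)⁻¹ ∂(nuc ℓ) ≤ C / ℓ ^ 2
  g : ∀ x : E, ∫ y, ∫ z, ((1 + ‖x - y‖ + ‖x - z‖) ^ 5)⁻¹ * ((1 + ‖y - z‖) ^ 2)⁻¹ * (Ur ℓ ‖y - z‖)⁻¹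
    ∂(nuc ℓ) ∂(nuc ℓ) ≤ C / ℓ ^ 5
  h : ∀ x : E, ∫ y, ∫ z, ((1 + ‖x - y‖ + ‖x - z‖) ^ 8)⁻¹ ∂(nuc ℓ) ∂(nuc ℓ) ≤ C / ℓ ^ 6

/-- the numerical integrals, except `g` -/
def Stmt_NUA : Prop := ∃ C : ℝ, 0 < C ∧ ∀ ℓ : ℝ, 1 ≤ ℓ →
  (∀ x : E, ∫ y, ((1 + ‖x - y‖) ^ 4)⁻¹ ∂(nuc ℓ) ≤ C / ℓ ^ 3) ∧
  (∀ y z : E, ∫ x, ((1 + ‖x - y‖ + ‖x - z‖) ^ 10)⁻¹ ∂(nuc ℓ) ≤ C / ℓ ^ 3 * ((1 + ‖y - z‖) ^ 7)⁻¹) ∧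
  (∀ y : E, ∫ z, Real.sqrt (((1 + ‖y - z‖) ^ 7)⁻¹) ∂(nuc ℓ) ≤ C / ℓ ^ 3) ∧
  (∀ x z : E, ∫ y, ((1 + ‖x - y‖ + ‖x - z‖) ^ 5)⁻¹ ∂(nuc ℓ) ≤ C / ℓ ^ 3 * ((1 + ‖x - z‖) ^ 2)⁻¹) ∧
  (∀ y z : E, ∫ x, ((1 + ‖x - y‖ + ‖x - z‖) ^ 5)⁻¹ ∂(nuc ℓ) ≤ C / ℓ ^ 3 * ((1 + ‖y - z‖) ^ 2)⁻¹) ∧
  (∀ x : E, ∫ z, ((1 + ‖x - z‖) ^ 2)⁻¹ ∂(nuc ℓ) ≤ C / ℓ ^ 2) ∧
  (∀ x : E, ∫ y, ∫ z, ((1 + ‖x - y‖ + ‖x - z‖) ^ 8)⁻¹ ∂(nuc ℓ) ∂(nuc ℓ) ≤ C / ℓ ^ 6)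

def Stmt_NUG : Prop := ∃ C : ℝ, 0 < C ∧ ∀ ℓ : ℝ, 1 ≤ ℓ → ∀ x : E,
  ∫ y, ∫ z, ((1 + ‖x - y‖ + ‖x - z‖) ^ 5)⁻¹ * ((1 + ‖y - z‖) ^ 2)⁻¹ * (Ur ℓ ‖y - z‖)⁻¹
    ∂(nuc ℓ) ∂(nuc ℓ) ≤ C / ℓ ^ 5

def Stmt_NUM : Prop := ∃ C : ℝ, 0 < C ∧ ∀ ℓ : ℝ, 1 ≤ ℓ → Num C ℓ

/-! ## operators on one and two particles -/

/-- differentiation under the integral -/
def Stmt_OPD : Prop := ∀ (ℓ : ℝ) (φ : E → E → E → ℝ) (a : E → E → ℝ), 0 < ℓ → SK φ → BM2 a →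
  ContDiff ℝ 1 (fun x => ∫ y, ∫ z, φ x y z * a y z ∂(nuc ℓ) ∂(nuc ℓ)) ∧
  ∀ c x, pd c (fun x => ∫ y, ∫ z, φ x y z * a y z ∂(nuc ℓ) ∂(nuc ℓ)) x =
    ∫ y, ∫ z, dk c φ x y z * a y z ∂(nuc ℓ) ∂(nuc ℓ)

/-- `Qf` of integrated functions -/
def Stmt_OPQ : Prop := ∀ (ℓ C : ℝ) (κ : E → E → ℝ) (φ : E → E → E → ℝ) (a a' : E → E → ℝ), 0 < ℓ →
  Rsv ℓ C κ → SK φ → BM2 a → BM2 a' →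
  ∫ y, ∫ z, ∫ y', ∫ z', a y z * a' y' z' * Qf ℓ κ (fun x => φ x y z) (fun x => φ x y' z')
    ∂(nuc ℓ) ∂(nuc ℓ) ∂(nuc ℓ) ∂(nuc ℓ) =
  Qf ℓ κ (fun x => ∫ y, ∫ z, φ x y z * a y z ∂(nuc ℓ) ∂(nuc ℓ))
    (fun x => ∫ y, ∫ z, φ x y z * a' y z ∂(nuc ℓ) ∂(nuc ℓ))

/-- Schur test -/
def Stmt_SCH : Prop := ∀ (ℓ : ℝ) (k h : E → E → ℝ) (B : ℝ) (f : E → ℝ), 0 < ℓ → 0 ≤ B → BM2 k → BM2 h → BM f →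
  (∀ x z, |k x z| ≤ h x z) → (∀ x, ∫ z, h x z ∂(nuc ℓ) ≤ B) → (∀ z, ∫ x, h x z ∂(nuc ℓ) ≤ B) →
  ∫ x, (∫ z, k x z * f z ∂(nuc ℓ)) ^ 2 ∂(nuc ℓ) ≤ B ^ 2 * ∫ z, f z ^ 2 ∂(nuc ℓ)

/-- weighted Schur test -/
def Stmt_OPW : Prop := ∀ C : ℝ, 0 < C → ∃ C₁ : ℝ, 0 < C₁ ∧ ∀ ℓ : ℝ, 1 ≤ ℓ → ∀ (k : E → E → E → ℝ) (a : E → E → ℝ),
  BM3 k → BM2 a → (∀ x y z, |k x y z| ≤ C / (1 + ‖x - y‖ + ‖x - z‖) ^ 5) →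
  ∫ x, (∫ y, ∫ z, k x y z * a y z ∂(nuc ℓ) ∂(nuc ℓ)) ^ 2 ∂(nuc ℓ) ≤
    C₁ / ℓ ^ 8 * ∫ y, ∫ z, Ur ℓ ‖y - z‖ * a y z ^ 2 ∂(nuc ℓ) ∂(nuc ℓ)

/-- the operator bound -/
def Stmt_OPB : Prop := ∀ C : ℝ, 0 < C → ∃ C₁ : ℝ, 0 < C₁ ∧ ∀ ℓ : ℝ, 1 ≤ ℓ → ∀ (k : E → E → E → ℝ) (a : E → E → ℝ),
  BM3 k → BM2 a → (∀ x y z, |k x y z| ≤ C / (1 + ‖x - y‖ + ‖x - z‖) ^ 5) →
  (∀ x, ∫ y, ∫ z, k x y z ∂(nuc ℓ) ∂(nuc ℓ) = 0) →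
  ∫ x, (∫ y, ∫ z, k x y z * a y z ∂(nuc ℓ) ∂(nuc ℓ)) ^ 2 ∂(nuc ℓ) ≤
    C₁ / ℓ ^ 10 * ((∫ y, ∫ z, (a y z - ∫ y', a y' z ∂(nuc ℓ)) ^ 2 ∂(nuc ℓ) ∂(nuc ℓ)) +
      ∫ y, ∫ z, (a y z - ∫ z', a y z' ∂(nuc ℓ)) ^ 2 ∂(nuc ℓ) ∂(nuc ℓ)) +
    C₁ / ℓ ^ 8 * ∫ y, ∫ z, Ur ℓ ‖y - z‖ * (a y z - (∫ y', a y' z ∂(nuc ℓ)) - (∫ z', a y z' ∂(nuc ℓ))
      + ∫ y', ∫ z', a y' z' ∂(nuc ℓ) ∂(nuc ℓ)) ^ 2 ∂(nuc ℓ) ∂(nuc ℓ)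

/-- the weight is controlled by the jump form -/
def Stmt_OPU : Prop := ∀ (ℓ C : ℝ) (κ : E → E → ℝ) (a : E → E → ℝ), 0 < ℓ → 0 < C → Rsv ℓ C κ → BM2 a →
  ∫ y, ∫ z, Ur ℓ ‖y - z‖ * (a y z - (∫ y', a y' z ∂(nuc ℓ)) - (∫ z', a y z' ∂(nuc ℓ))
      + ∫ y', ∫ z', a y' z' ∂(nuc ℓ) ∂(nuc ℓ)) ^ 2 ∂(nuc ℓ) ∂(nuc ℓ) ≤
    4 * C * ∫ z, q1 ℓ κ (fun y => a y z) (fun y => a y z) ∂(nuc ℓ)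

/-! ## matrix elements -/

/-- slices in two particles -/
def Stmt_SLT : Prop := ∀ (ι : Type) [Fintype ι] [DecidableEq ι] (ℓ : ℝ) (l m : ι), 0 < ℓ → l ≠ m →
  (∀ F : (ι → E) → ℝ, BM F →
    ∫ X, F X ∂(PiM ι ℓ) = ∫ X, ∫ y, ∫ z, F (Function.update (Function.update X l y) m z) ∂(nuc ℓ) ∂(nuc ℓ) ∂(PiM ι ℓ)) ∧
  (∀ A : (ι → E) → ℝ, BM A →
    BM (fun p : (ι → E) × (E × E) => A (Function.update (Function.update p.1 l p.2.1) m p.2.2)) ∧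
    (∫ X, ∫ y, ∫ z, (A (Function.update (Function.update X l y) m z) -
      ∫ y', A (Function.update (Function.update X l y') m z) ∂(nuc ℓ)) ^ 2 ∂(nuc ℓ) ∂(nuc ℓ) ∂(PiM ι ℓ) =
      ns ℓ (Qa ℓ l A)) ∧
    (∫ X, ∫ y, ∫ z, (A (Function.update (Function.update X l y) m z) -
      ∫ z', A (Function.update (Function.update X l y) m z') ∂(nuc ℓ)) ^ 2 ∂(nuc ℓ) ∂(nuc ℓ) ∂(PiM ι ℓ) =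
      ns ℓ (Qa ℓ m A)) ∧
    (∀ (κ : E → E → ℝ), BM2 κ → ∫ X, ∫ z, q1 ℓ κ (fun y => A (Function.update (Function.update X l y) m z))
      (fun y => A (Function.update (Function.update X l y) m z)) ∂(nuc ℓ) ∂(PiM ι ℓ) = qI ℓ κ l A))

/-- the jump form of a particle -/
def Stmt_QIA : Prop := ∀ (ι : Type) [Fintype ι] [DecidableEq ι] (ℓ C : ℝ) (κ : E → E → ℝ) (u : (ι → E) → ℝ) (l : ι),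
  0 < ℓ → Rsv ℓ C κ → BM u → 0 ≤ qI ℓ κ l u ∧ (ℓ ^ 2)⁻¹ * ns ℓ (Qa ℓ l u) ≤ qI ℓ κ l u ∧
  (∀ i, i ≠ l → qI ℓ κ l (av ℓ i u) ≤ qI ℓ κ l u) ∧
  (∀ i j k, i ≠ l → j ≠ l → k ≠ l → qI ℓ κ l (A3 ℓ i j k u) ≤ qI ℓ κ l u)

/-- the operator `GB` -/
def Stmt_GBB : Prop := ∀ C : ℝ, 0 < C → ∃ C₂ : ℝ, 0 < C₂ ∧ ∀ (ι : Type) [Fintype ι] [DecidableEq ι]
  (V : E → E → ℝ) (ℓ b : ℝ) (φ w q g : E → E → E → ℝ) (κ : E → E → ℝ) (A : (ι → E) → ℝ) (l m : ι),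
  1 ≤ ℓ → Ker V ℓ C b φ w q g → Rsv ℓ C κ → BM A → l ≠ m →
  GB ℓ φ l m A ≤ C₂ / ℓ ^ 10 * (ns ℓ (Qa ℓ l A) + ns ℓ (Qa ℓ m A)) + C₂ / ℓ ^ 8 * qI ℓ κ l A

/-- disjoint pairs -/
def Stmt_BZA : Prop := ∀ (ι : Type) [Fintype ι] [DecidableEq ι] (ℓ C : ℝ) (φ : E → E → E → ℝ) (κ : E → E → ℝ)
  (u : (ι → E) → ℝ) (i j k l m : ι), 0 < ℓ → SK φ → Rsv ℓ C κ → BM u → [i, j, k, l, m].Nodup →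
  |Bf ℓ κ φ u i j k l m| ≤ GB ℓ φ l m (A3 ℓ i j k u) + GB ℓ φ j k (A3 ℓ i l m u)

def Stmt_BZE : Prop := ∀ C : ℝ, 0 < C → ∃ C₂ : ℝ, 0 < C₂ ∧ ∀ (ι : Type) [Fintype ι] [DecidableEq ι]
  (V : E → E → ℝ) (ℓ b : ℝ) (φ w q g : E → E → E → ℝ) (κ : E → E → ℝ) (u : (ι → E) → ℝ) (i j k l m : ι),
  1 ≤ ℓ → Ker V ℓ C b φ w q g → Rsv ℓ C κ → BM u → [i, j, k, l, m].Nodup →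
  Bf ℓ κ φ u i j k l m ≤ (C₂ / ℓ ^ 10 * ns ℓ (Qa ℓ l u) + C₂ / ℓ ^ 8 * qI ℓ κ l u) +
    (C₂ / ℓ ^ 10 * ns ℓ (Qa ℓ m u) + C₂ / ℓ ^ 8 * qI ℓ κ m u) +
    (C₂ / ℓ ^ 10 * ns ℓ (Qa ℓ j u) + C₂ / ℓ ^ 8 * qI ℓ κ j u) +
    (C₂ / ℓ ^ 10 * ns ℓ (Qa ℓ k u) + C₂ / ℓ ^ 8 * qI ℓ κ k u)

/-- equal pairs -/
def Stmt_BTW : Prop := ∀ C : ℝ, 0 < C → ∃ C₁ : ℝ, 0 < C₁ ∧ ∀ (ι : Type) [Fintype ι] [DecidableEq ι]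
  (V : E → E → ℝ) (ℓ b : ℝ) (φ w q g : E → E → E → ℝ) (κ : E → E → ℝ) (u : (ι → E) → ℝ) (i j k : ι),
  1 ≤ ℓ → Ker V ℓ C b φ w q g → Rsv ℓ C κ → BM u → i ≠ j → i ≠ k → j ≠ k →
  Bf ℓ κ φ u i j k j k ≤ ((∑ c, ∫ x, ∫ y, ∫ z, (dk c φ x y z) ^ 2 ∂(nuc ℓ) ∂(nuc ℓ) ∂(nuc ℓ)) + C₁ / ℓ ^ 7) *
    ns ℓ (A3 ℓ i j k u) ∧
  Bf ℓ κ φ u i j k k j ≤ ((∑ c, ∫ x, ∫ y, ∫ z, (dk c φ x y z) ^ 2 ∂(nuc ℓ) ∂(nuc ℓ) ∂(nuc ℓ)) + C₁ / ℓ ^ 7) *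
    ns ℓ (A3 ℓ i j k u)

/-- pairs with one common particle -/
def Stmt_BON : Prop := ∀ C : ℝ, 0 < C → ∃ C₁ : ℝ, 0 < C₁ ∧ ∀ (ι : Type) [Fintype ι] [DecidableEq ι]
  (V : E → E → ℝ) (ℓ b : ℝ) (φ w q g : E → E → E → ℝ) (κ : E → E → ℝ) (u : (ι → E) → ℝ) (i j k l : ι),
  1 ≤ ℓ → Ker V ℓ C b φ w q g → Rsv ℓ C κ → BM u → [i, j, k, l].Nodup →
  Bf ℓ κ φ u i j k j l ≤ C₁ / ℓ ^ 9 * ns ℓ u ∧ Bf ℓ κ φ u i j k l j ≤ C₁ / ℓ ^ 9 * ns ℓ u ∧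
  Bf ℓ κ φ u i k j j l ≤ C₁ / ℓ ^ 9 * ns ℓ u ∧ Bf ℓ κ φ u i k j l j ≤ C₁ / ℓ ^ 9 * ns ℓ u

/-- counting -/
def Stmt_CMB : Prop := ∀ (ι : Type) [Fintype ι] [DecidableEq ι] (B : ι → ι → ι → ι → ι → ℝ)
  (a : ι → ι → ι → ℝ) (s : ℝ) (e : ι → ℝ), 0 ≤ s → (∀ l, 0 ≤ e l) →
  (∀ i j k, i ≠ j → i ≠ k → j ≠ k → B i j k j k ≤ a i j k ∧ B i j k k j ≤ a i j k) →
  (∀ i j k l, [i, j, k, l].Nodup → B i j k j l ≤ s ∧ B i j k l j ≤ s ∧ B i k j j l ≤ s ∧ B i k j l j ≤ s) →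
  (∀ i j k l m, [i, j, k, l, m].Nodup → B i j k l m ≤ e l + e m + e j + e k) →
  ∑ i, ∑ p ∈ D2 i, ∑ p' ∈ D2 i, B i p.1 p.2 p'.1 p'.2 ≤
    2 * ∑ t ∈ D3 ι, a t.1 t.2.1 t.2.2 + 4 * (Fintype.card ι : ℝ) ^ 4 * s
      + 4 * (Fintype.card ι : ℝ) ^ 4 * ∑ l, e l

/-- the second order terms -/
def Stmt_BSM : Prop := ∀ C : ℝ, 0 < C → ∃ C₃ : ℝ, 0 < C₃ ∧ ∀ (ι : Type) [Fintype ι] [DecidableEq ι]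
  (V : E → E → ℝ) (ℓ b : ℝ) (φ w q g : E → E → E → ℝ) (κ : E → E → ℝ) (u : (ι → E) → ℝ),
  1 ≤ ℓ → Ker V ℓ C b φ w q g → Rsv ℓ C κ → BM u →
  1 / 4 * ∑ i, ∑ p ∈ D2 i, ∑ p' ∈ D2 i, Bf ℓ κ φ u i p.1 p.2 p'.1 p'.2 ≤
    1 / 6 * (3 * (∑ c, ∫ x, ∫ y, ∫ z, (dk c φ x y z) ^ 2 ∂(nuc ℓ) ∂(nuc ℓ) ∂(nuc ℓ)) + C₃ / ℓ ^ 7) *
      ∑ t ∈ D3 ι, ns ℓ (A3 ℓ t.1 t.2.1 t.2.2 u)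
    + C₃ * (Fintype.card ι : ℝ) ^ 4 / ℓ ^ 9 * ns ℓ u
    + C₃ * (Fintype.card ι : ℝ) ^ 4 / ℓ ^ 10 * ∑ i, ns ℓ (Qa ℓ i u)
    + C₃ * (Fintype.card ι : ℝ) ^ 4 / ℓ ^ 8 * ∑ i, qI ℓ κ i u

/-- arithmetic of the bound in a cube -/
def Stmt_CAR : Prop := ∀ b C C₃ : ℝ, 0 < b → 0 < C → 0 < C₃ → ∃ C' g₀ ℓ₁ : ℝ, 0 < C' ∧ 0 < g₀ ∧ 1 ≤ ℓ₁ ∧
  ∀ (n : ℕ) (ℓ U Np Sq SB Sg SA qb T En : ℝ), ℓ₁ ≤ ℓ → (n : ℝ) ^ 2 ≤ g₀ * ℓ ^ 4 → 0 ≤ U → 0 ≤ Np → 0 ≤ SA →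
    (n = 0 → Np = 0) → (ℓ ^ 2)⁻¹ * Np ≤ Sq →
    1 / 6 * Sq - SB + 1 / 3 * Sg - 1 / 6 * qb * SA ≤ En →
    SB ≤ 1 / 6 * (3 * T + C₃ / ℓ ^ 7) * SA + C₃ * (n : ℝ) ^ 4 / ℓ ^ 9 * U + C₃ * (n : ℝ) ^ 4 / ℓ ^ 10 * Np
      + C₃ * (n : ℝ) ^ 4 / ℓ ^ 8 * Sq →
    b / ℓ ^ 6 * SA - 3 * ((n : ℝ) ^ 2 * (C / ℓ ^ 6) * (Np + 1 / 2 * U)) ≤ Sg →
    b / ℓ ^ 6 - C / ℓ ^ 7 ≤ 2 * (b / ℓ ^ 6) - qb - 3 * T →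
    (n : ℝ) * ((n : ℝ) - 1) * ((n : ℝ) - 2) * U - 3 * (((n : ℝ) - 1) * ((n : ℝ) - 2)) * Np ≤ SA →
    (b * (n : ℝ) ^ 3 / (6 * ℓ ^ 6) - C' * ((n : ℝ) ^ 3 / ℓ ^ 7 + (n : ℝ) ^ 2 / ℓ ^ 6 + (n : ℝ) ^ 4 / ℓ ^ 9)) * U ≤ En

/-- the bound in a cube -/
def Stmt_COR : Prop := ∀ (V : E → E → ℝ) (b C ℓ₀ : ℝ), Admissible V → 0 < b → 0 < C →
  (∀ ℓ, ℓ₀ ≤ ℓ → ∃ (φ w q g : E → E → E → ℝ) (κ : E → E → ℝ), Ker V ℓ C b φ w q g ∧ Rsv ℓ C κ) → CoreC V b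

/-! ## grids and the jump kernel -/

/-- the cells -/
def Stmt_CEL : Prop := ∀ (ℓ : ℝ) (m : ℕ), 0 < ℓ → 0 < m → BM2 (cell ℓ m) ∧ (∀ x y, 0 ≤ cell ℓ m x y) ∧
  (∀ x y, cell ℓ m x y = cell ℓ m y x) ∧ (∀ x y z, cell ℓ m x y = 1 → cell ℓ m x z = cell ℓ m y z) ∧
  (∀ x, (m : ℝ) ^ 3 * ∫ y, cell ℓ m x y ∂(nuc ℓ) ≤ 1) ∧
  (∀ᵐ x ∂(nuc ℓ), (m : ℝ) ^ 3 * ∫ y, cell ℓ m x y ∂(nuc ℓ) = 1) ∧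
  (∀ m' : ℕ, 0 < m' → m ∣ m' → ∀ x y, cell ℓ m' x y = 1 → cell ℓ m x y = 1) ∧
  (∀ᵐ x ∂(nuc ℓ), ∀ᵐ y ∂(nuc ℓ), cell ℓ 1 x y = 1)

/-- averages over the cells -/
def Stmt_AMF : Prop := ∀ (ℓ : ℝ) (m : ℕ) (f : E → ℝ), 0 < ℓ → 0 < m → BM f → BM (Am ℓ m f) ∧
  (∫ x, (f x - Am ℓ m f x) ^ 2 ∂(nuc ℓ) =
    1 / 2 * ((m : ℝ) ^ 3 * ∫ x, ∫ y, cell ℓ m x y * (f x - f y) ^ 2 ∂(nuc ℓ) ∂(nuc ℓ))) ∧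
  (∀ m' : ℕ, 0 < m' → m ∣ m' → ∀ᵐ x ∂(nuc ℓ), Am ℓ m' (fun y => f y - Am ℓ m f y) x = Am ℓ m' f x - Am ℓ m f x) ∧
  (∀ (h : E → ℝ) (B : ℝ), BM h → (∀ x, 0 ≤ h x) → (∀ x, (m : ℝ) ^ 3 * ∫ y, cell ℓ m x y * h y ∂(nuc ℓ) ≤ B) →
    ∫ x, h x * (Am ℓ m f x) ^ 2 ∂(nuc ℓ) ≤ B * ∫ x, f x ^ 2 ∂(nuc ℓ)) ∧
  (m = 1 → ∀ᵐ x ∂(nuc ℓ), Am ℓ m f x = ∫ y, f y ∂(nuc ℓ))

/-- Poincaré inequality in one cube -/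
def Stmt_PCO : Prop := ∀ (s : ℝ) (a : E) (f : E → ℝ), 0 < s → ContDiff ℝ 1 f →
  ∫ x in cub s a, ∫ y in cub s a, (f x - f y) ^ 2 ≤ 3 * s ^ 5 * ∑ c, ∫ x in cub s a, (pd c f x) ^ 2

/-- Poincaré inequality on the cells -/
def Stmt_PCL : Prop := ∀ (ℓ : ℝ) (m : ℕ) (f : E → ℝ), 0 < ℓ → 0 < m → ContDiff ℝ 1 f →
  (m : ℝ) ^ 3 * ∫ x, ∫ y, cell ℓ m x y * (f x - f y) ^ 2 ∂(nuc ℓ) ∂(nuc ℓ) ≤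
    3 * (ℓ / m) ^ 2 * ∑ c, ∫ x, (pd c f x) ^ 2 ∂(nuc ℓ)

/-- averages of the weight -/
def Stmt_URB : Prop := ∃ C : ℝ, 0 < C ∧ ∀ (ℓ : ℝ) (j : ℕ) (z x : E), 1 ≤ ℓ →
  (((16 ^ j : ℕ) : ℝ) ^ 3 * ∫ y, cell ℓ (16 ^ j) x y * Ur ℓ ‖y - z‖ ∂(nuc ℓ) ≤ C * (ℓ ^ 2)⁻¹ * (64 : ℝ) ^ j) ∧
  BM (fun y : E => Ur ℓ ‖y - z‖) ∧ (∀ y : E, 0 ≤ Ur ℓ ‖y - z‖ ∧ Ur ℓ ‖y - z‖ ≤ ℓ⁻¹)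

/-- telescoping -/
def Stmt_TEL : Prop := ∃ C : ℝ, 0 < C ∧ ∀ (ℓ : ℝ) (J : ℕ) (f : E → ℝ) (z : E), 1 ≤ ℓ → ℓ < (128 : ℝ) ^ (J + 1) →
  BM f → ∫ y, Ur ℓ ‖y - z‖ * (f y - ∫ y', f y' ∂(nuc ℓ)) ^ 2 ∂(nuc ℓ) ≤
    C * ((ℓ ^ 2)⁻¹ * ∑ j ∈ Finset.range (J + 1), (128 : ℝ) ^ j * ∫ x, (f x - Am ℓ (16 ^ j) f x) ^ 2 ∂(nuc ℓ))

/-- the jump kernel -/
def Stmt_RSV : Prop := ∃ C : ℝ, 0 < C ∧ ∀ ℓ : ℝ, 1 ≤ ℓ → ∃ κ : E → E → ℝ, Rsv ℓ C κ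

/-! ## the potential -/

/-- the profiles -/
def Stmt_PRF : Prop := ContDiff ℝ ∞ W1 ∧ ContDiff ℝ ∞ P1 ∧ (∀ s, 0 ≤ W1 s ∧ W1 s ≤ 1) ∧ (∀ s, s < 1 → 0 < W1 s) ∧
  (∀ s, 1 ≤ s → W1 s = 0) ∧ Antitone W1 ∧ (∀ s, 4 * s * deriv (deriv P1) s + 12 * deriv P1 s = -W1 s) ∧
  (∀ s, 0 ≤ s → 0 < P1 s ∧ P1 s ≤ 1 / 8 ∧ (1 + s) ^ 2 * P1 s ≤ 1 ∧ (1 + s) ^ 3 * |deriv P1 s| ≤ 1) ∧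
  (∃ c : ℝ, 0 < c ∧ ∀ s, 0 ≤ s → c ≤ (1 + s) ^ 2 * P1 s) ∧ 0 < M1 ∧ M1 ≤ 1 / 3 ∧
  (∀ s, 1 ≤ s → P1 s = M1 / (8 * s ^ 2))

/-- the scattering function and the potential -/
def Stmt_SCA : Prop := Scat phi0 ∧ (∀ z, ww phi0 z = W1 (QQ z)) ∧ 0 < ∫ z, ww phi0 z

/-- the truncated profile -/
def Stmt_GRF : Prop := ∃ C : ℝ, 0 < C ∧ ∀ R : ℝ, 1 ≤ R → ContDiff ℝ ∞ (GR R) ∧ ContDiff ℝ ∞ (gR R) ∧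
  (∀ s, 0 ≤ s → 0 ≤ GR R s ∧ GR R s ≤ P1 s ∧ (1 + s) ^ 2 * |GR R s| ≤ C ∧ (1 + s) ^ 3 * |deriv (GR R) s| ≤ C ∧
    |gR R s| ≤ C / R ^ 6) ∧ (∀ s, 2 * R ^ 2 ≤ s → GR R s = 0 ∧ gR R s = 0) ∧
  (∫ z : E × E, gR R (QQ z) = ∫ z : E × E, W1 (QQ z))

/-- the quadratic form in the positions -/
def Stmt_QTF : Prop := (∀ x y z : E, QT x y z = QQ (x - y, x - z) ∧ 0 ≤ QT x y z ∧ QT x y z = QT y x z ∧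
    QT x y z = QT x z y ∧ ‖x - y‖ ^ 2 ≤ 3 * QT x y z ∧ ‖x - z‖ ^ 2 ≤ 3 * QT x y z ∧
    (1 + ‖x - y‖ + ‖x - z‖) ^ 2 ≤ 24 * (1 + QT x y z) ∧
    ‖(2 : ℝ) • x - y - z‖ ^ 2 + ‖(2 : ℝ) • y - x - z‖ ^ 2 + ‖(2 : ℝ) • z - x - y‖ ^ 2 = 9 * QT x y z) ∧
  ContDiff ℝ ∞ (fun p : E × E × E => QT p.1 p.2.1 p.2.2) ∧
  (∀ (G : ℝ → ℝ) (x y z : E), ContDiff ℝ ∞ G →
    (∀ c, pd c (fun x' => G (QT x' y z)) x = dT c G x y z) ∧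
    (∑ c, pd c (fun x' => pd c (fun x'' => G (QT x'' y z)) x') x = lT G x y z))

/-- the images -/
def Stmt_IMG : Prop := ∀ (ℓ : ℝ) (σ : Fin 3 → Fin 3), 0 < ℓ →
  (∀ (x : E) (c : Fin 3), img ℓ σ x c = if σ c = 0 then x c else if σ c = 1 then -x c else 2 * ℓ - x c) ∧
  ContDiff ℝ ∞ (img ℓ σ) ∧ (∀ x, img ℓ σ (img ℓ σ x) = x) ∧
  (∀ x y z, QT (img ℓ σ x) (img ℓ σ y) (img ℓ σ z) = QT x y z) ∧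
  (∀ x : E, img ℓ (fun _ => 0) x = x) ∧ MeasurePreserving (img ℓ σ) volume volume ∧
  (∀ (F : E → ℝ) (c : Fin 3) (x : E), ContDiff ℝ 1 F →
    pd c (fun x => F (img ℓ σ x)) x = sgi σ c * pd c F (img ℓ σ x)) ∧
  (∀ x ∈ Lam ℓ, ∀ y ∈ Lam ℓ, ∀ z ∈ Lam ℓ, ∀ τ υ : Fin 3 → Fin 3,
    QT x y z ≤ QT (img ℓ σ x) (img ℓ τ y) (img ℓ υ z)) ∧
  (∀ x ∈ Lam ℓ, ∀ y ∈ Lam ℓ, σ ≠ (fun _ => 0) → ∃ c : Fin 3,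
    (x c ≤ ‖x - img ℓ σ y‖ ∧ x c ≤ ‖img ℓ σ x - y‖) ∨ (ℓ - x c ≤ ‖x - img ℓ σ y‖ ∧ ℓ - x c ≤ ‖img ℓ σ x - y‖))

/-- the image sum is symmetric -/
def Stmt_IMQ : Prop := ∀ (ℓ : ℝ) (G : ℝ → ℝ), Sy3 (Im ℓ G)

/-- the image sum: smoothness, derivatives -/
def Stmt_IMK : Prop := ∀ (ℓ : ℝ) (G : ℝ → ℝ), 0 < ℓ → ContDiff ℝ ∞ G →
  ContDiff ℝ ∞ (fun p : E × E × E => Im ℓ G p.1 p.2.1 p.2.2) ∧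
  (∀ c x y z, dk c (Im ℓ G) x y z = 1 / 3 * ∑ σ : Fin 3 → Fin 3, ∑ τ : Fin 3 → Fin 3,
    (dT c G x (img ℓ σ y) (img ℓ τ z) + sgi σ c * dT c G (img ℓ σ x) y (img ℓ τ z)
      + sgi σ c * dT c G (img ℓ σ x) (img ℓ τ y) z)) ∧
  (∀ x y z, Lk (Im ℓ G) x y z = 1 / 3 * ∑ σ : Fin 3 → Fin 3, ∑ τ : Fin 3 → Fin 3,
    (lT G x (img ℓ σ y) (img ℓ τ z) + lT G (img ℓ σ x) y (img ℓ τ z) + lT G (img ℓ σ x) (img ℓ τ y) z))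

/-- the Laplacian of the image sum -/
def Stmt_IMF : Prop := ∀ (ℓ : ℝ) (G : ℝ → ℝ), 0 < ℓ → ContDiff ℝ ∞ G →
  ∀ x y z, Lk (Im ℓ G) x y z + Lk (Im ℓ G) y x z + Lk (Im ℓ G) z x y = Im ℓ (LG G) x y z

/-- bounds on the image sum -/
def Stmt_IMB : Prop := ∃ C : ℝ, 0 < C ∧ ∀ (ℓ : ℝ) (G : ℝ → ℝ) (B : ℝ), 0 < ℓ → ContDiff ℝ ∞ G → 0 < B →
  (∀ s, 0 ≤ s → (1 + s) ^ 2 * |G s| ≤ B ∧ (1 + s) ^ 3 * |deriv G s| ≤ B) →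
  (∀ x ∈ Lam ℓ, ∀ y ∈ Lam ℓ, ∀ z ∈ Lam ℓ, |Im ℓ G x y z| ≤ C * B / (1 + ‖x - y‖ + ‖x - z‖) ^ 4) ∧
  (∀ x ∈ Lam ℓ, ∀ y ∈ Lam ℓ, ∀ z ∈ Lam ℓ, ∀ c, |dk c (Im ℓ G) x y z| ≤ C * B / (1 + ‖x - y‖ + ‖x - z‖) ^ 5)

/-- boundedness -/
def Stmt_IMZ : Prop := ∀ (ℓ : ℝ) (G : ℝ → ℝ) (S : ℝ), 0 < ℓ → ContDiff ℝ ∞ G → (∀ s, S ≤ s → G s = 0) →
  SK (Im ℓ G)

/-- bounded profiles -/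
def Stmt_IMY : Prop := ∀ (ℓ : ℝ) (G : ℝ → ℝ) (B : ℝ), 0 < ℓ → Measurable G → (∀ s, 0 ≤ s → |G s| ≤ B) →
  BM3 (Im ℓ G) ∧ ∀ x y z, |Im ℓ G x y z| ≤ 729 * B

/-- Neumann boundary conditions -/
def Stmt_IMN : Prop := ∀ (ℓ : ℝ) (G : ℝ → ℝ), 0 < ℓ → ContDiff ℝ ∞ G → (∀ s, ℓ ^ 2 / 32 ≤ s → G s = 0) →
  ∀ x ∈ Lam ℓ, ∀ y ∈ Lam ℓ, ∀ z ∈ Lam ℓ, ∀ c, (x c = 0 ∨ x c = ℓ) → dk c (Im ℓ G) x y z = 0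

/-- the images tile the cube `[-ℓ,2ℓ]³` -/
def Stmt_TIL : Prop := ∀ (ℓ : ℝ) (f : E → ℝ), 0 < ℓ → Continuous f →
  ∑ σ : Fin 3 → Fin 3, ∫ y in Lam ℓ, f (img ℓ σ y) = ∫ y in {y : E | ∀ c, -ℓ ≤ y c ∧ y c ≤ 2 * ℓ}, f y

/-- the mean of the image sum -/
def Stmt_IMM : Prop := ∀ (ℓ : ℝ) (G : ℝ → ℝ), 0 < ℓ → Continuous G → (∀ s, ℓ ^ 2 / 32 ≤ s → G s = 0) →
  ∀ x ∈ Lam ℓ, ∫ y, ∫ z, Im ℓ G x y z ∂(nuc ℓ) ∂(nuc ℓ) = (ℓ ^ 6)⁻¹ * ∫ z : E × E, G (QQ z)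

/-- the mean of the derivative of the image sum -/
def Stmt_IMD : Prop := ∀ (ℓ : ℝ) (G : ℝ → ℝ), 0 < ℓ → ContDiff ℝ ∞ G → (∀ s, ℓ ^ 2 / 32 ≤ s → G s = 0) →
  ∀ x : E, (∀ c, 0 < x c ∧ x c < ℓ) → ∀ c, ∫ y, ∫ z, dk c (Im ℓ G) x y z ∂(nuc ℓ) ∂(nuc ℓ) = 0

/-- images are close to the boundary -/
def Stmt_IMX : Prop := ∃ C : ℝ, 0 < C ∧ ∀ (ℓ : ℝ) (G : ℝ → ℝ) (B : ℝ), 0 < ℓ → 0 < B →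
  (∀ s, 0 ≤ s → 0 ≤ G s ∧ (1 + s) ^ 2 * G s ≤ B) →
  ∀ x ∈ Lam ℓ, ∀ y ∈ Lam ℓ, ∀ z ∈ Lam ℓ, Im ℓ G x y z ≤ G (QT x y z) + C * B * bd ℓ x

/-- the charge near the boundary -/
def Stmt_IMW : Prop := ∃ C : ℝ, 0 < C ∧ ∀ (ℓ : ℝ), 0 < ℓ →
  ∀ x ∈ Lam ℓ, ∀ y ∈ Lam ℓ, ∀ z ∈ Lam ℓ, 0 ≤ Im ℓ W1 x y z ∧ Im ℓ W1 x y z ≤ (1 + C * bd ℓ x) * W1 (QT x y z)

/-- integrals of the boundary weight and of translation invariant functions -/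
def Stmt_BDI : Prop := ∀ (ℓ : ℝ), 0 < ℓ → BM (bd ℓ) ∧ (∀ x, 0 ≤ bd ℓ x ∧ bd ℓ x ≤ 6) ∧
  (∫ x, bd ℓ x ∂(nuc ℓ) ≤ 2 / ℓ) ∧
  (∀ F : ℝ → ℝ, Continuous F → (∀ s, 0 ≤ s → 0 ≤ F s) → (∀ s, 1 ≤ s → F s = 0) → ∀ x,
    ∫ y, ∫ z, F (QT x y z) ∂(nuc ℓ) ∂(nuc ℓ) ≤ (ℓ ^ 6)⁻¹ * ∫ z : E × E, F (QQ z))

/-- the function `w² / V` -/
def Stmt_QSF : Prop := ∀ ℓ : ℝ, 0 < ℓ → Sy3 (qS ℓ) ∧ BM3 (qS ℓ) ∧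
  (∀ x ∈ Lam ℓ, ∀ y ∈ Lam ℓ, ∀ z ∈ Lam ℓ, ∀ s t : ℝ,
    0 ≤ VV phi0 (x - y) (x - z) * s ^ 2 - 2 * Im ℓ W1 x y z * s * t + qS ℓ x y z * t ^ 2)

/-- the integral of `q` -/
def Stmt_CSQ : Prop := ∃ C : ℝ, 0 < C ∧ ∀ ℓ : ℝ, 1 ≤ ℓ →
  ∫ x, ∫ y, ∫ z, qS ℓ x y z ∂(nuc ℓ) ∂(nuc ℓ) ∂(nuc ℓ) ≤
    (ℓ ^ 6)⁻¹ * (∫ z : E × E, W1 (QQ z) * (1 - P1 (QQ z))) + C / ℓ ^ 7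

/-- the integral of `φ w` -/
def Stmt_CSW : Prop := ∃ C : ℝ, 0 < C ∧ ∀ ℓ : ℝ, 8 ≤ ℓ →
  ∫ x, ∫ y, ∫ z, Im ℓ (GR (ℓ / 8)) x y z * Im ℓ W1 x y z ∂(nuc ℓ) ∂(nuc ℓ) ∂(nuc ℓ) ≤
    (ℓ ^ 6)⁻¹ * (∫ z : E × E, W1 (QQ z) * P1 (QQ z)) + C / ℓ ^ 7

/-- the integral of `φ g` -/
def Stmt_CSG : Prop := ∃ C : ℝ, 0 < C ∧ ∀ ℓ : ℝ, 8 ≤ ℓ →
  |∫ x, ∫ y, ∫ z, Im ℓ (GR (ℓ / 8)) x y z * Im ℓ (gR (ℓ / 8)) x y z ∂(nuc ℓ) ∂(nuc ℓ) ∂(nuc ℓ)| ≤ C / ℓ ^ 7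

/-- the energy of the scattering function -/
def Stmt_CST : Prop := ∀ ℓ : ℝ, 8 ≤ ℓ →
  3 * ∑ c, ∫ x, ∫ y, ∫ z, (dk c (Im ℓ (GR (ℓ / 8))) x y z) ^ 2 ∂(nuc ℓ) ∂(nuc ℓ) ∂(nuc ℓ) =
    (∫ x, ∫ y, ∫ z, Im ℓ (GR (ℓ / 8)) x y z * Im ℓ W1 x y z ∂(nuc ℓ) ∂(nuc ℓ) ∂(nuc ℓ))
    - ∫ x, ∫ y, ∫ z, Im ℓ (GR (ℓ / 8)) x y z * Im ℓ (gR (ℓ / 8)) x y z ∂(nuc ℓ) ∂(nuc ℓ) ∂(nuc ℓ)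

/-- the kernel functions -/
def Stmt_KER : Prop := ∃ C : ℝ, 0 < C ∧ ∀ ℓ : ℝ, 8 ≤ ℓ →
  Ker (VV phi0) ℓ C (∫ z, ww phi0 z) (Im ℓ (GR (ℓ / 8))) (Im ℓ W1) (qS ℓ) (Im ℓ (gR (ℓ / 8)))

/-- the bound in a cube for `V₀` -/
def Stmt_CO0 : Prop := CoreC (VV phi0) (∫ z, ww phi0 z)

/-! ## localisation -/

/-- freezing particles -/
def Stmt_FRZ : Prop := ∀ (V : E → E → ℝ) (ι : Type) [Fintype ι] [DecidableEq ι] (S : Finset ι) (ℓ e : ℝ)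
  (a : ι → E) (a₀ : E) (u : (ι → E) → ℝ), Admissible V → 0 < ℓ → (∀ i ∈ S, a i = a₀) →
  LBc V {i // i ∈ S} ℓ e → ContDiff ℝ 1 u → HasCompactSupport u →
  e * ∫ X in {X : ι → E | ∀ i, X i ∈ cub ℓ (a i)}, u X ^ 2 ≤
    ∫ X in {X : ι → E | ∀ i, X i ∈ cub ℓ (a i)},
      (∑ i ∈ S, ∑ c, (di i c u X) ^ 2 + potS V (fun i : {i // i ∈ S} => X i) * u X ^ 2)

/-- the interaction of disjoint clusters -/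
def Stmt_PSA : Prop := ∀ (V : E → E → ℝ) (ι K : Type) [Fintype ι] [DecidableEq ι] (s : Finset K)
  (S : K → Finset ι) (X : ι → E), Admissible V → (∀ k ∈ s, ∀ k' ∈ s, k ≠ k' → Disjoint (S k) (S k')) →
  ∑ k ∈ s, potS V (fun i : {i // i ∈ S k} => X i) ≤ potS V X

/-- grouping -/
def Stmt_GRP : Prop := ∀ (V : E → E → ℝ) (ℓ e₁ : ℝ) (n₁ : ℕ), Admissible V → 0 < ℓ → 0 ≤ e₁ → 0 < n₁ →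
  (∀ (ι : Type) [Fintype ι] [DecidableEq ι], Fintype.card ι = n₁ → LBc V ι ℓ e₁) →
  ∀ (ι : Type) [Fintype ι] [DecidableEq ι], LBc V ι ℓ (((Fintype.card ι / n₁ : ℕ) : ℝ) * e₁)

/-- decomposition of the box -/
def Stmt_TLA : Prop := ∀ (N M : ℕ) (ℓ : ℝ) (F : (Fin N → E) → ℝ), 0 < ℓ → 0 < M → Continuous F ∨ BM F →
  ∫ X in box N (M * ℓ), F X =
    ∑ α : Fin N → (Fin 3 → Fin M), ∫ X in {X : Fin N → E | ∀ i, X i ∈ cub ℓ (crn ℓ M (α i))}, F X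

/-- the box -/
def Stmt_TLC : Prop := ∀ (V : E → E → ℝ) (ℓ A B : ℝ) (M : ℕ), Admissible V → 0 < ℓ → 0 < M →
  (∀ (ι : Type) [Fintype ι] [DecidableEq ι], LBc V ι ℓ (A * (Fintype.card ι : ℝ) - B)) →
  ∀ N : ℕ, LBs V N (M * ℓ) (A * N - B * (M : ℝ) ^ 3)

/-- the arithmetic of the localisation -/
def Stmt_TNG : Prop := ∀ b C g₀ ℓ₁ : ℝ, 0 < b → 0 < C → 0 < g₀ → 1 ≤ ℓ₁ → ∃ K ρ₀ δ : ℝ, 0 < K ∧ 0 < ρ₀ ∧ 0 < δ ∧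
  ∀ ρ ℓ : ℝ, 0 < ρ → ρ < ρ₀ → δ ≤ ρ * ℓ → ρ * ℓ ≤ 2 * δ → ∃ n₁ : ℕ, 0 < n₁ ∧ ℓ₁ ≤ ℓ ∧
    (n₁ : ℝ) ^ 2 ≤ g₀ * ℓ ^ 4 ∧
    0 ≤ b * (n₁ : ℝ) ^ 3 / (6 * ℓ ^ 6) - C * ((n₁ : ℝ) ^ 3 / ℓ ^ 7 + (n₁ : ℝ) ^ 2 / ℓ ^ 6 + (n₁ : ℝ) ^ 4 / ℓ ^ 9) ∧
    (∀ n : ℕ, n ≤ n₁ → ρ ^ 2 * b / 2 * n - (ρ ^ 3 * b / 3 + K * ρ ^ 4) * ℓ ^ 3 ≤
      b * (n : ℝ) ^ 3 / (6 * ℓ ^ 6) - C * ((n : ℝ) ^ 3 / ℓ ^ 7 + (n : ℝ) ^ 2 / ℓ ^ 6 + (n : ℝ) ^ 4 / ℓ ^ 9)) ∧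
    (∀ n : ℕ, n₁ ≤ n → ρ ^ 2 * b / 2 * n - (ρ ^ 3 * b / 3 + K * ρ ^ 4) * ℓ ^ 3 ≤
      ((n / n₁ : ℕ) : ℝ) * (b * (n₁ : ℝ) ^ 3 / (6 * ℓ ^ 6)
        - C * ((n₁ : ℝ) ^ 3 / ℓ ^ 7 + (n₁ : ℝ) ^ 2 / ℓ ^ 6 + (n₁ : ℝ) ^ 4 / ℓ ^ 9)))

/-- large boxes -/
def Stmt_FVL : Prop := ∀ (V : E → E → ℝ) (b : ℝ), Admissible V → 0 < b → CoreC V b → TLB V b

/-- scaling -/
def Stmt_SCX : Prop := ∀ (V V' : E → E → ℝ) (b r : ℝ), 0 < r → Admissible V →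
  (∀ x y, V' x y = (r ^ 2)⁻¹ * V (r⁻¹ • x) (r⁻¹ • y)) → TLB V b → TLB V' (r ^ 4 * b)

/-! ## density of smooth functions -/

/-- the two forms of the potential energy -/
def Stmt_PTE : Prop := ∀ (V : E → E → ℝ) (N : ℕ) (X : Fin N → E), Admissible V → potS V X = pot V X

/-- real and imaginary parts -/
def Stmt_DNA : Prop := ∀ (V : E → E → ℝ) (N : ℕ) (L : ℝ) (Ψ : (Fin N → E) → ℂ)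
  (G : Fin N → Fin 3 → (Fin N → E) → ℂ), Admissible V → 0 < L → IsTrial N L Ψ G →
  SobR N L (fun X => (Ψ X).re) (fun i c X => (G i c X).re) ∧
  SobR N L (fun X => (Ψ X).im) (fun i c X => (G i c X).im) ∧
  energy V N L Ψ G = enS V N L (fun X => (Ψ X).re) (fun i c X => (G i c X).re) +
    enS V N L (fun X => (Ψ X).im) (fun i c X => (G i c X).im) ∧
  (∫ X in box N L, (Ψ X).re ^ 2) + (∫ X in box N L, (Ψ X).im ^ 2) = 1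

/-- the mollified function -/
def Stmt_DNM : Prop := ∀ (N : ℕ) (L s ε : ℝ) (u : (Fin N → E) → ℝ) (g : Fin N → Fin 3 → (Fin N → E) → ℝ)
  (η : (Fin N → E) → ℝ), 0 < L → 0 < s → 0 < ε → s * (L / 2 + ε) < L / 2 → SobR N L u g → Mol ε η →
  ContDiff ℝ ∞ (mol s η ((box N L).indicator u)) ∧ HasCompactSupport (mol s η ((box N L).indicator u)) ∧
  ∀ X ∈ box N L, ∀ i c, di i c (mol s η ((box N L).indicator u)) X = s * mol s η ((box N L).indicator (g i c)) X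

/-- Jensen's inequality -/
def Stmt_DNJ : Prop := ∀ (N : ℕ) (s ε : ℝ) (η f h : (Fin N → E) → ℝ), 0 < s → 0 < ε → Mol ε η →
  MemLp f 2 volume → BM h → (∀ X, 0 ≤ h X) → Integrable (fun X => h X * (mol s η f X) ^ 2) ∧
  ∫ X, h X * (mol s η f X) ^ 2 ≤ (s ^ (3 * N))⁻¹ * ∫ Z, f Z ^ 2 * ∫ Y, η Y * h (s⁻¹ • Z + Y)

/-- the norm does not drop -/
def Stmt_DNL : Prop := ∀ (N : ℕ) (L : ℝ) (f : (Fin N → E) → ℝ) (ε : ℝ), 0 < L → 0 < ε →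
  MemLp f 2 volume → (∀ X, X ∉ box N L → f X = 0) → ∃ δ : ℝ, 0 < δ ∧ ∀ (s : ℝ) (η : (Fin N → E) → ℝ),
    1 - δ < s → s < 1 → Mol δ η → (∫ X, f X ^ 2) - ε ≤ ∫ X in box N L, (mol s η f X) ^ 2

/-- approximation -/
def Stmt_DNB : Prop := ∀ (V : E → E → ℝ) (N : ℕ) (L : ℝ) (u : (Fin N → E) → ℝ)
  (g : Fin N → Fin 3 → (Fin N → E) → ℝ) (ε : ℝ), Admissible V → Continuous (fun z : E × E => V z.1 z.2) →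
  0 < L → 0 < ε → SobR N L u g → ∃ v : (Fin N → E) → ℝ, ContDiff ℝ ∞ v ∧ HasCompactSupport v ∧
    ∫ X in box N L, (∑ i, ∑ c, (di i c v X) ^ 2 + potS V X * v X ^ 2) ≤ enS V N L u g + ε ∧
    |(∫ X in box N L, v X ^ 2) - ∫ X in box N L, u X ^ 2| ≤ ε

/-- lower bound of the ground state energy -/
def Stmt_DEN : Prop := ∀ (V : E → E → ℝ) (N : ℕ) (L e : ℝ), Admissible V →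
  Continuous (fun z : E × E => V z.1 z.2) → 0 < L → LBs V N L e → e ≤ E0 V N L

/-! ## conclusion -/

/-- the lower bound for all `b` -/
def Stmt_LOB : Prop := ∀ b : ℝ, 0 < b → ∃ V : E → E → ℝ, Admissible V ∧ Continuous (fun z : E × E => V z.1 z.2) ∧
  bM V = b ∧ ∃ K ρ₀ : ℝ, 0 < K ∧ 0 < ρ₀ ∧ ∀ ρ, 0 < ρ → ρ < ρ₀ → ∀ᶠ p in thermo ρ,
    1 / 6 * ρ ^ 3 * b - K * ρ ^ 4 ≤ E0 V p.1 p.2 / p.2 ^ 3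

/-- the main theorem -/
def MainLB : Prop := ∀ b : ℝ, 0 < b → ∃ V₁ : E → E → ℝ, Admissible V₁ ∧ bM V₁ = b ∧
  (∃ K ρ₀ : ℝ, 0 < ρ₀ ∧ ∀ ρ, 0 < ρ → ρ < ρ₀ → ∀ᶠ p in thermo ρ,
    1 / 6 * ρ ^ 3 * b * (1 - K * ρ) ≤ E0 V₁ p.1 p.2 / p.2 ^ 3) ∧
  ∀ c : ℝ, ∃ V₂ : E → E → ℝ, Admissible V₂ ∧ bM V₂ = b ∧ ∃ ρ₀ : ℝ, 0 < ρ₀ ∧ ∀ ρ, 0 < ρ → ρ < ρ₀ →
    ∀ᶠ p in thermo ρ, E0 V₂ p.1 p.2 / p.2 ^ 3 + c * ρ ^ 4 ≤ E0 V₁ p.1 p.2 / p.2 ^ 3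

end Pool.Agent.TBL
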