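import Pool.Agent.TBL.Stmts

set_option autoImplicit false

open MeasureTheory Filter Topology
open scoped ContDiff

namespace Pool.Agent.TBL

open Pool.Agent.TBG

namespace TEL_

theorem cs (J : ℕ) (d : ℕ → ℝ) :
    (∑ j ∈ Finset.range J, d j) ^ 2 ≤ 2 * ∑ j ∈ Finset.range J, 2 ^ j * (d j) ^ 2 := by
  have h1 : (∑ j ∈ Finset.range J, d j) ^ 2 ≤
      (∑ j ∈ Finset.range J, (1 / (2 : ℝ)) ^ j) * ∑ j ∈ Finset.range J, 2 ^ j * (d j) ^ 2 := by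
    apply Finset.sum_sq_le_sum_mul_sum_of_sq_le_mul
    · intro i _; positivity
    · intro i _; positivity
    · intro i _
      rw [← mul_assoc, ← mul_pow]
      norm_num
  refine h1.trans (mul_le_mul_of_nonneg_right (sum_geometric_two_le J) ?_)
  exact Finset.sum_nonneg (fun i _ => by positivity)

theorem pw (J : ℕ) (a : ℝ) (d : ℕ → ℝ) :
    (a + ∑ j ∈ Finset.range J, d j) ^ 2 ≤
      2 * a ^ 2 + 4 * ∑ j ∈ Finset.range J, 2 ^ j * (d j) ^ 2 := by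
  have h1 := cs J d
  nlinarith [sq_nonneg (a - ∑ j ∈ Finset.range J, d j)]

/-- the arithmetic at the end -/
theorem fin {C ℓ : ℝ} (hC : 0 < C) (J : ℕ) (N : ℕ → ℝ) (hN : ∀ j, 0 ≤ N j) (hℓ : 1 ≤ ℓ)
    (hJ : ℓ < (128 : ℝ) ^ (J + 1)) :
    2 * (ℓ⁻¹ * N J) + 4 * ∑ j ∈ Finset.range J, 2 ^ j * (C * (ℓ ^ 2)⁻¹ * (64 : ℝ) ^ (j + 1) * N j) ≤
      (256 + 256 * C) * ((ℓ ^ 2)⁻¹ * ∑ j ∈ Finset.range (J + 1), (128 : ℝ) ^ j * N j) := by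
  have hℓ0 : 0 < ℓ := by linarith
  rw [Finset.sum_range_succ]
  set T := ∑ j ∈ Finset.range J, (128 : ℝ) ^ j * N j with hT
  have hT0 : 0 ≤ T := Finset.sum_nonneg (fun i _ => mul_nonneg (by positivity) (hN i))
  have h1 : ∑ j ∈ Finset.range J, 2 ^ j * (C * (ℓ ^ 2)⁻¹ * (64 : ℝ) ^ (j + 1) * N j) =
      64 * C * (ℓ ^ 2)⁻¹ * T := by
    rw [hT, Finset.mul_sum]
    apply Finset.sum_congr rfl
    intro j _
    have h2 : (128 : ℝ) ^ j = 2 ^ j * 64 ^ j := by rw [← mul_pow]; norm_num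
    rw [h2, pow_succ]
    ring
  have h2 : ℓ⁻¹ ≤ (ℓ ^ 2)⁻¹ * (128 : ℝ) ^ (J + 1) := by
    rw [inv_mul_eq_div, le_div_iff₀ (by positivity)]
    have : ℓ⁻¹ * ℓ ^ 2 = ℓ := by field_simp
    rw [this]
    exact hJ.le
  have h3 : ℓ⁻¹ * N J ≤ (ℓ ^ 2)⁻¹ * (128 : ℝ) ^ (J + 1) * N J :=
    mul_le_mul_of_nonneg_right h2 (hN J)
  rw [h1]
  have h4 : (ℓ ^ 2)⁻¹ * (128 : ℝ) ^ (J + 1) * N J = 128 * ((ℓ ^ 2)⁻¹ * (128 ^ J * N J)) := by
    rw [pow_succ]; ring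
  have h5 : 0 ≤ (ℓ ^ 2)⁻¹ * ((128 : ℝ) ^ J * N J) :=
    mul_nonneg (by positivity) (mul_nonneg (by positivity) (hN J))
  have h6 : 0 ≤ (ℓ ^ 2)⁻¹ * T := mul_nonneg (by positivity) hT0
  have h7 : 0 ≤ C * ((ℓ ^ 2)⁻¹ * ((128 : ℝ) ^ J * N J)) := mul_nonneg hC.le h5
  have h8 : 0 ≤ C * ((ℓ ^ 2)⁻¹ * T) := mul_nonneg hC.le h6
  nlinarith

end TEL_

open TEL_ in
theorem tel_proof (hB : Stmt_BMC) (hM : Stmt_MES) (_hCEL : Stmt_CEL) (hA : Stmt_AMF)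
    (hU : Stmt_URB) : Stmt_TEL := by
  obtain ⟨C, hC, hU⟩ := hU
  refine ⟨256 + 256 * C, by positivity, ?_⟩
  intro ℓ J f z hℓ hJ hf
  have hℓ0 : 0 < ℓ := by linarith
  have : IsProbabilityMeasure (nuc ℓ) := (hM ℓ hℓ0).2.2.2.1
  set U : E → ℝ := fun y => Ur ℓ ‖y - z‖ with hUdef
  have hUB : BM U := (hU ℓ 0 z 0 hℓ).2.1
  have hU0 : ∀ y, 0 ≤ U y := fun y => ((hU ℓ 0 z 0 hℓ).2.2 y).1
  have hU1 : ∀ y, U y ≤ ℓ⁻¹ := fun y => ((hU ℓ 0 z 0 hℓ).2.2 y).2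
  have hmul : ∀ F G : E → ℝ, BM F → BM G → BM (fun y => F y * G y) := fun F G hF hG =>
    (hB.1 E F G hF hG).2.2.1
  have hsub : ∀ F G : E → ℝ, BM F → BM G → BM (fun y => F y - G y) := fun F G hF hG =>
    (hB.1 E F G hF hG).2.1
  have hadd : ∀ F G : E → ℝ, BM F → BM G → BM (fun y => F y + G y) := fun F G hF hG =>
    (hB.1 E F G hF hG).1
  have hsq : ∀ F : E → ℝ, BM F → BM (fun y => F y ^ 2) := fun F hF =>
    (hB.1 E F F hF hF).2.2.2.1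
  have hcm : ∀ (a : ℝ) (F : E → ℝ), BM F → BM (fun y => a * F y) := fun a F hF =>
    (hB.1 E F F hF hF).2.2.2.2.2.1 a
  have hint : ∀ F : E → ℝ, BM F → Integrable F (nuc ℓ) := fun F hF =>
    (hB.1 E F F hF hF).2.2.2.2.2.2 (nuc ℓ)
  have hpos : ∀ j : ℕ, 0 < 16 ^ j := fun j => by positivity
  have hAB : ∀ j : ℕ, BM (Am ℓ (16 ^ j) f) := fun j => (hA ℓ (16 ^ j) f hℓ0 (hpos j) hf).1
  have hRB : ∀ j : ℕ, BM (fun y => f y - Am ℓ (16 ^ j) f y) := fun j => hsub _ _ hf (hAB j)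
  set D : ℕ → E → ℝ := fun j y => Am ℓ (16 ^ (j + 1)) f y - Am ℓ (16 ^ j) f y with hD
  have hDB : ∀ j, BM (D j) := fun j => hsub _ _ (hAB (j + 1)) (hAB j)
  have hae1 : ∀ᵐ y ∂(nuc ℓ), Am ℓ (16 ^ 0) f y = ∫ y', f y' ∂(nuc ℓ) :=
    (hA ℓ (16 ^ 0) f hℓ0 (hpos 0) hf).2.2.2.2 (pow_zero 16)
  -- step 1
  have h1 : ∫ y, U y * (f y - ∫ y', f y' ∂(nuc ℓ)) ^ 2 ∂(nuc ℓ) ≤
      ∫ y, (2 * (U y * (f y - Am ℓ (16 ^ J) f y) ^ 2) +
        ∑ j ∈ Finset.range J, 4 * 2 ^ j * (U y * (D j y) ^ 2)) ∂(nuc ℓ) := by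
    apply integral_mono_ae
    · apply hint
      exact hmul _ _ hUB (hsq _ (hsub _ _ hf (hB.2.1 E _)))
    · apply hint
      apply hadd
      · exact hcm _ _ (hmul _ _ hUB (hsq _ (hRB J)))
      · exact hB.2.2.1 E ℕ (Finset.range J) (fun j y => 4 * 2 ^ j * (U y * (D j y) ^ 2))
          (fun j _ => hcm _ _ (hmul _ _ hUB (hsq _ (hDB j))))
    · filter_upwards [hae1] with y hy
      have h2 : f y - ∫ y', f y' ∂(nuc ℓ) =
          (f y - Am ℓ (16 ^ J) f y) + ∑ j ∈ Finset.range J, D j y := by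
        have h3 := Finset.sum_range_sub (fun j => Am ℓ (16 ^ j) f y) J
        simp only [hD]
        rw [h3, hy]
        ring
      rw [h2]
      have h4 := mul_le_mul_of_nonneg_left (pw J (f y - Am ℓ (16 ^ J) f y) (fun j => D j y)) (hU0 y)
      refine h4.trans (le_of_eq ?_)
      rw [mul_add, Finset.mul_sum, Finset.mul_sum]
      congr 1
      · ring
      · apply Finset.sum_congr rfl
        intro j _
        ring
  have h2 : ∫ y, (2 * (U y * (f y - Am ℓ (16 ^ J) f y) ^ 2) +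
        ∑ j ∈ Finset.range J, 4 * 2 ^ j * (U y * (D j y) ^ 2)) ∂(nuc ℓ) =
      2 * ∫ y, U y * (f y - Am ℓ (16 ^ J) f y) ^ 2 ∂(nuc ℓ) +
        ∑ j ∈ Finset.range J, 4 * 2 ^ j * ∫ y, U y * (D j y) ^ 2 ∂(nuc ℓ) := by
    rw [integral_add]
    · rw [integral_const_mul, integral_finsetSum]
      · congr 1
        apply Finset.sum_congr rfl
        intro j _
        rw [integral_const_mul]
      · intro j _
        exact hint _ (hcm _ _ (hmul _ _ hUB (hsq _ (hDB j))))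
    · exact hint _ (hcm _ _ (hmul _ _ hUB (hsq _ (hRB J))))
    · exact hint _ (hB.2.2.1 E ℕ (Finset.range J) (fun j y => 4 * 2 ^ j * (U y * (D j y) ^ 2))
          (fun j _ => hcm _ _ (hmul _ _ hUB (hsq _ (hDB j)))))
  set N : ℕ → ℝ := fun j => ∫ x, (f x - Am ℓ (16 ^ j) f x) ^ 2 ∂(nuc ℓ) with hN
  have hN0 : ∀ j, 0 ≤ N j := fun j => integral_nonneg (fun x => sq_nonneg _)
  have h3 : ∫ y, U y * (f y - Am ℓ (16 ^ J) f y) ^ 2 ∂(nuc ℓ) ≤ ℓ⁻¹ * N J := by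
    rw [hN, ← integral_const_mul]
    apply integral_mono_ae
    · exact hint _ (hmul _ _ hUB (hsq _ (hRB J)))
    · exact hint _ (hcm _ _ (hsq _ (hRB J)))
    · exact Filter.Eventually.of_forall (fun y =>
        mul_le_mul_of_nonneg_right (hU1 y) (sq_nonneg _))
  have h4 : ∀ j, ∫ y, U y * (D j y) ^ 2 ∂(nuc ℓ) ≤ C * (ℓ ^ 2)⁻¹ * (64 : ℝ) ^ (j + 1) * N j := by
    intro j
    have h5 := (hA ℓ (16 ^ j) f hℓ0 (hpos j) hf).2.2.1 (16 ^ (j + 1)) (hpos _)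
      (pow_dvd_pow 16 (Nat.le_succ j))
    have h6 : ∫ y, U y * (D j y) ^ 2 ∂(nuc ℓ) =
        ∫ y, U y * (Am ℓ (16 ^ (j + 1)) (fun y => f y - Am ℓ (16 ^ j) f y) y) ^ 2 ∂(nuc ℓ) := by
      apply integral_congr_ae
      filter_upwards [h5] with y hy
      rw [hy]
    rw [h6]
    exact (hA ℓ (16 ^ (j + 1)) (fun y => f y - Am ℓ (16 ^ j) f y) hℓ0 (hpos _) (hRB j)).2.2.2.1
      U (C * (ℓ ^ 2)⁻¹ * (64 : ℝ) ^ (j + 1)) hUB hU0 (fun x => (hU ℓ (j + 1) z x hℓ).1)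
  have h5 : ∑ j ∈ Finset.range J, 4 * 2 ^ j * ∫ y, U y * (D j y) ^ 2 ∂(nuc ℓ) ≤
      4 * ∑ j ∈ Finset.range J, 2 ^ j * (C * (ℓ ^ 2)⁻¹ * (64 : ℝ) ^ (j + 1) * N j) := by
    rw [Finset.mul_sum]
    apply Finset.sum_le_sum
    intro j _
    rw [mul_assoc]
    have h6 : (0 : ℝ) ≤ 2 ^ j := by positivity
    nlinarith [mul_le_mul_of_nonneg_left (h4 j) h6]
  have h6 := fin hC J N hN0 hℓ hJ
  rw [h2] at h1
  linarith

end Pool.Agent.TBL
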